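import Pool.Agent.Lib.MP_216314_pr.Q4.LDef
import Pool.Agent.Lib.MP_216314_pr.K.KFar
import Pool.Agent.Lib.MP_216314_pr.N.NDef

/-!
# The diagram of two patterns with `l` legs

The sites `0, ..., l - 1` modulo the period are legs, the others are glued; the gaps `1, ..., l - 1` modulo the period are between two legs and are split.
`far_gapl`: every gap next to a leg is connected to a distant gap.
-/

set_option autoImplicit false

noncomputable section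

namespace CY

open Finset FKI FKP

/-- the gap `g` is between two legs -/
def Spl (L l : ℕ) (g : ℤ) : Prop := 1 ≤ g % (L : ℤ) ∧ g % (L : ℤ) < l

/-- steps along the strands of the diagram -/
def NSl {L : ℕ} (l : ℕ) (P Q : Pat L) (u v : Bool × ℤ) : Prop :=
  (u.1 = true ∧ v = (true, Q.f u.2)) ∨ (u.1 = false ∧ v = (false, P.f u.2)) ∨ ((l : ℤ) ≤ u.2 % (L : ℤ) ∧ v = (!u.1, u.2))

/-- connection of nodes -/
def NCl {L : ℕ} (l : ℕ) (P Q : Pat L) : Bool × ℤ → Bool × ℤ → Prop := Relation.ReflTransGen (NSl l P Q)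

/-- steps between the gaps -/
def GSl {L : ℕ} (l : ℕ) (P Q : Pat L) (u v : Bool × ℤ) : Prop :=
  (u.1 = true ∧ v.1 = true ∧ Reg Q u.2 v.2) ∨ (u.1 = false ∧ v.1 = false ∧ Reg P u.2 v.2) ∨
    (v.2 = u.2 ∧ ¬ Spl L l u.2)

/-- connection of gaps -/
def GCl {L : ℕ} (l : ℕ) (P Q : Pat L) : Bool × ℤ → Bool × ℤ → Prop := Relation.EqvGen (GSl l P Q)

section

variable {L l : ℕ} {P Q : Pat L}

theorem EVA_step_symm {u v : Bool × ℤ} (h : NSl l P Q u v) : NSl l P Q v u := by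
  obtain ⟨b, x⟩ := u
  rcases h with ⟨h1, h2⟩ | ⟨h1, h2⟩ | ⟨h1, h2⟩
  · change b = true at h1
    subst h1
    rw [h2]
    refine Or.inl ⟨rfl, ?_⟩
    show (true, x) = (true, Q.f (Q.f x))
    rw [Q.inv]
  · change b = false at h1
    subst h1
    rw [h2]
    refine Or.inr (Or.inl ⟨rfl, ?_⟩)
    show (false, x) = (false, P.f (P.f x))
    rw [P.inv]
  · rw [h2]
    refine Or.inr (Or.inr ⟨h1, ?_⟩)
    show (b, x) = (!(!b), x)
    rw [Bool.not_not]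

theorem EVA_tb (x : ℤ) : tb L l l x = x := by
  unfold tb
  rw [sub_self, zero_mul, add_zero]

theorem EVA_closed1 {S : Set (Bool × ℤ)} (hS : LCl l l P Q S) {u v : Bool × ℤ} (h : NSl l P Q u v)
    (hu : u ∈ S) : v ∈ S := by
  obtain ⟨s, x⟩ := u
  rcases h with ⟨h1, h2⟩ | ⟨h1, h2⟩ | ⟨h1, h2⟩
  · change s = true at h1
    subst h1
    rw [h2]
    exact hS.top _ hu
  · change s = false at h1
    subst h1
    rw [h2]
    exact hS.bot _ hu
  · rw [h2]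
    have h3 := hS.glue x (by exact_mod_cast h1)
    rw [EVA_tb] at h3
    cases s
    · exact h3.2 hu
    · exact h3.1 hu

theorem EVA_closed {S : Set (Bool × ℤ)} (hS : LCl l l P Q S) {u v : Bool × ℤ} (h : NCl l P Q u v)
    (hu : u ∈ S) : v ∈ S := by
  induction h with
  | refl => exact hu
  | tail _ hbc ih => exact EVA_closed1 hS hbc ih

theorem EVA_lcl (u : Bool × ℤ) : LCl l l P Q {w | NCl l P Q u w} := by
  refine ⟨?_, ?_, ?_⟩
  · intro x hx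
    exact Relation.ReflTransGen.tail hx (Or.inl ⟨rfl, rfl⟩)
  · intro x hx
    exact Relation.ReflTransGen.tail hx (Or.inr (Or.inl ⟨rfl, rfl⟩))
  · intro x hx
    rw [EVA_tb]
    have h1 : (l : ℤ) ≤ x % (L : ℤ) := hx
    constructor
    · intro h
      exact Relation.ReflTransGen.tail h (Or.inr (Or.inr ⟨h1, rfl⟩))
    · intro h
      exact Relation.ReflTransGen.tail h (Or.inr (Or.inr ⟨h1, rfl⟩))

theorem EVA_nd (hl : 1 ≤ l) (hL : 2 ≤ L) {x : ℤ} (h : (l : ℤ) ≤ x % (L : ℤ)) :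
    ¬ Spl L l x ∧ ¬ Spl L l (x + 1) := by
  have hL' : (2 : ℤ) ≤ L := by exact_mod_cast hL
  have h0 : x % (L : ℤ) < L := Int.emod_lt_of_pos _ (by omega)
  constructor
  · rintro ⟨_, h2⟩
    omega
  · rintro ⟨h1, h2⟩
    have e : (x + 1) % (L : ℤ) = (x % (L : ℤ) + 1) % (L : ℤ) := by rw [Int.emod_add_emod]
    rw [e] at h1 h2
    by_cases h3 : x % (L : ℤ) + 1 < L
    · rw [Int.emod_eq_of_lt (by omega) h3] at h2
      omega
    · have h4 : x % (L : ℤ) + 1 = L := by omega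
      rw [h4, Int.emod_self] at h1
      omega

theorem EVA_step (hl : 1 ≤ l) {v w : Bool × ℤ} (h : NSl l P Q v w) :
    (GCl l P Q v w ∧ GCl l P Q (v.1, v.2 + 1) (w.1, w.2 + 1)) ∨
      (GCl l P Q v (w.1, w.2 + 1) ∧ GCl l P Q (v.1, v.2 + 1) w) := by
  obtain ⟨b, x⟩ := v
  rcases h with ⟨h1, h2⟩ | ⟨h1, h2⟩ | ⟨h1, h2⟩
  · change b = true at h1
    subst h1
    rw [h2]
    refine Or.inr ?_
    rcases lt_or_gt_of_ne (Q.ne x).symm with h3 | h3
    · have r1 := reg_inside Q x h3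
      have r2 := reg_outside Q x h3
      exact ⟨Relation.EqvGen.rel _ _ (Or.inl ⟨rfl, rfl, r2⟩),
        Relation.EqvGen.rel _ _ (Or.inl ⟨rfl, rfl, r1⟩)⟩
    · have h4 : Q.f x < Q.f (Q.f x) := by rw [Q.inv]; exact h3
      have r1 := reg_inside Q (Q.f x) h4
      have r2 := reg_outside Q (Q.f x) h4
      rw [Q.inv] at r1 r2
      exact ⟨Relation.EqvGen.rel _ _ (Or.inl ⟨rfl, rfl, reg_symm Q r1⟩),
        Relation.EqvGen.rel _ _ (Or.inl ⟨rfl, rfl, reg_symm Q r2⟩)⟩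
  · change b = false at h1
    subst h1
    rw [h2]
    refine Or.inr ?_
    rcases lt_or_gt_of_ne (P.ne x).symm with h3 | h3
    · have r1 := reg_inside P x h3
      have r2 := reg_outside P x h3
      exact ⟨Relation.EqvGen.rel _ _ (Or.inr (Or.inl ⟨rfl, rfl, r2⟩)),
        Relation.EqvGen.rel _ _ (Or.inr (Or.inl ⟨rfl, rfl, r1⟩))⟩
    · have h4 : P.f x < P.f (P.f x) := by rw [P.inv]; exact h3
      have r1 := reg_inside P (P.f x) h4
      have r2 := reg_outside P (P.f x) h4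
      rw [P.inv] at r1 r2
      exact ⟨Relation.EqvGen.rel _ _ (Or.inr (Or.inl ⟨rfl, rfl, reg_symm P r1⟩)),
        Relation.EqvGen.rel _ _ (Or.inr (Or.inl ⟨rfl, rfl, reg_symm P r2⟩))⟩
  · rw [h2]
    obtain ⟨n1, n2⟩ := EVA_nd hl P.two_le h1
    exact Or.inl ⟨Relation.EqvGen.rel _ _ (Or.inr (Or.inr ⟨rfl, n1⟩)),
      Relation.EqvGen.rel _ _ (Or.inr (Or.inr ⟨rfl, n2⟩))⟩

theorem ncl_symm {u v : Bool × ℤ} (h : NCl l P Q u v) : NCl l P Q v u := by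
  induction h with
  | refl => exact Relation.ReflTransGen.refl
  | tail _ hbc ih => exact Relation.ReflTransGen.head (EVA_step_symm hbc) ih

theorem wll_iff : WL l l P Q ↔ ∀ u v, IsLeg l l u → IsLeg l l v → u ≠ v → ¬ NCl l P Q u v := by
  constructor
  · intro hw u v hu hv huv hc
    obtain ⟨S, hS, h1, h2⟩ := hw u v hu hv huv
    exact h2 (EVA_closed hS hc h1)
  · intro hw u v hu hv huv
    exact ⟨{w | NCl l P Q u w}, EVA_lcl u, Relation.ReflTransGen.refl, hw u v hu hv huv⟩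

theorem gcl_side (hl : 1 ≤ l) {u v : Bool × ℤ} (h : NCl l P Q u v) :
    (GCl l P Q u v ∧ GCl l P Q (u.1, u.2 + 1) (v.1, v.2 + 1)) ∨ (GCl l P Q u (v.1, v.2 + 1) ∧ GCl l P Q (u.1, u.2 + 1) v) := by
  induction h with
  | refl => exact Or.inl ⟨Relation.EqvGen.refl _, Relation.EqvGen.refl _⟩
  | tail _ hbc ih =>
    have hs := EVA_step hl hbc
    rcases ih with ⟨a1, a2⟩ | ⟨a1, a2⟩
    · rcases hs with ⟨b1, b2⟩ | ⟨b1, b2⟩
      · exact Or.inl ⟨a1.trans _ _ _ b1, a2.trans _ _ _ b2⟩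
      · exact Or.inr ⟨a1.trans _ _ _ b1, a2.trans _ _ _ b2⟩
    · rcases hs with ⟨b1, b2⟩ | ⟨b1, b2⟩
      · exact Or.inr ⟨a1.trans _ _ _ b2, a2.trans _ _ _ b1⟩
      · exact Or.inl ⟨a1.trans _ _ _ b2, a2.trans _ _ _ b1⟩

theorem EVB_even (s : Finset (Bool × ℤ)) (g : Bool × ℤ → Bool × ℤ) (h1 : ∀ x ∈ s, g x ∈ s)
    (h2 : ∀ x ∈ s, g (g x) = x) (h3 : ∀ x ∈ s, g x ≠ x) : Even s.card := by
  have h4 : ∑ _x ∈ s, (1 : ZMod 2) = 0 := by
    refine Finset.sum_involution (fun a _ => g a) ?_ ?_ ?_ ?_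
    · intro a _
      decide
    · intro a ha _
      exact h3 a ha
    · intro a ha
      exact h1 a ha
    · intro a ha
      exact h2 a ha
  rw [Finset.sum_const, nsmul_eq_mul, mul_one] at h4
  exact (ZMod.natCast_eq_zero_iff_even).1 h4

theorem EVB_mod (α : Pat L) (r : ℤ) : α.f (r % (L : ℤ)) % (L : ℤ) = α.f r % (L : ℤ) := by
  have h1 := α.per_mul (r % (L : ℤ)) (r / (L : ℤ))
  have h2 : r % (L : ℤ) + r / (L : ℤ) * (L : ℤ) = r := by
    rw [mul_comm]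
    exact Int.emod_add_mul_ediv r L
  rw [h2] at h1
  rw [h1, Int.add_mul_emod_self_right]

theorem EVB_ne (α : Pat L) (r : ℤ) : α.f r % (L : ℤ) ≠ r := by
  intro h
  obtain ⟨k, hk⟩ := α.even
  obtain ⟨j, hj⟩ := α.parity r
  have h1 := Int.emod_add_mul_ediv (α.f r) L
  rw [h] at h1
  have h2 : (L : ℤ) = k + k := by exact_mod_cast hk
  have h3 : α.f r - r = (L : ℤ) * (α.f r / (L : ℤ)) := by linarith
  rw [h3, h2] at hj
  have h4 : ((k : ℤ) + k) * (α.f r / ((L : ℤ))) = 2 * (k * (α.f r / ((L : ℤ)))) := by ring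
  rw [h2] at h4
  omega

theorem exists_legl (hlL : l ≤ L) {u : Bool × ℤ} (hu : IsLeg l l u) :
    ∃ v : Bool × ℤ, NCl l P Q u v ∧ v.2 % (L : ℤ) < l ∧ ¬ (v.1 = u.1 ∧ (L : ℤ) ∣ v.2 - u.2) := by
  classical
  have hL2 : 2 ≤ L := P.two_le
  have hL : (2 : ℤ) ≤ (L : ℤ) := by exact_mod_cast hL2
  have hL0 : (L : ℤ) ≠ 0 := by omega
  obtain ⟨pa, hpa⟩ : ∃ pa : Bool → Pat L, pa = fun b => if b = true then Q else P := ⟨_, rfl⟩
  have hpt : pa true = Q := by rw [hpa]; exact if_pos rfl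
  have hpf : pa false = P := by rw [hpa]; exact if_neg (by decide)
  have hst : ∀ v : Bool × ℤ, NSl l P Q v (v.1, (pa v.1).f v.2) := by
    rintro ⟨b, x⟩
    cases b
    · right
      left
      refine ⟨rfl, ?_⟩
      show ((false, (pa false).f x) : Bool × ℤ) = (false, P.f x)
      rw [hpf]
    · left
      refine ⟨rfl, ?_⟩
      show ((true, (pa true).f x) : Bool × ℤ) = (true, Q.f x)
      rw [hpt]
  obtain ⟨C, hC⟩ : ∃ C : Finset (Bool × ℤ), C = ((Finset.univ ×ˢ Finset.Ico 0 (L : ℤ)) : Finset (Bool × ℤ)).filter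
      (fun x => ∃ v, NCl l P Q u v ∧ v.1 = x.1 ∧ v.2 % (L : ℤ) = x.2) := ⟨_, rfl⟩
  have hmem : ∀ x : Bool × ℤ, x ∈ C ↔ (0 ≤ x.2 ∧ x.2 < L) ∧ ∃ v, NCl l P Q u v ∧ v.1 = x.1 ∧ v.2 % (L : ℤ) = x.2 := by
    intro x
    rw [hC, Finset.mem_filter, Finset.mem_product, Finset.mem_Ico]
    exact ⟨fun h => ⟨h.1.2, h.2⟩, fun h => ⟨⟨Finset.mem_univ _, h.1⟩, h.2⟩⟩
  have e1 : Even C.card := by
    refine EVB_even C (fun x => (x.1, (pa x.1).f x.2 % (L : ℤ))) ?_ ?_ ?_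
    · intro x hx
      rw [hmem] at hx ⊢
      obtain ⟨_, v, hv, hv1, hv2⟩ := hx
      refine ⟨⟨Int.emod_nonneg _ hL0, Int.emod_lt_of_pos _ (by omega)⟩, (v.1, (pa v.1).f v.2), ?_, hv1, ?_⟩
      · exact Relation.ReflTransGen.tail hv (hst v)
      · show (pa v.1).f v.2 % (L : ℤ) = (pa x.1).f x.2 % (L : ℤ)
        rw [← hv1, ← hv2, EVB_mod]
    · intro x hx
      rw [hmem] at hx
      show (x.1, (pa x.1).f ((pa x.1).f x.2 % (L : ℤ)) % (L : ℤ)) = x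
      rw [EVB_mod, (pa x.1).inv, Int.emod_eq_of_lt hx.1.1 hx.1.2]
    · intro x _ h
      exact EVB_ne (pa x.1) x.2 (congrArg Prod.snd h)
  have e2 : Even (C.filter fun x => (l : ℤ) ≤ x.2).card := by
    refine EVB_even _ (fun x => (!x.1, x.2)) ?_ ?_ ?_
    · intro x hx
      rw [Finset.mem_filter, hmem] at hx ⊢
      obtain ⟨⟨h1, v, hv, hv1, hv2⟩, h2⟩ := hx
      refine ⟨⟨h1, (!v.1, v.2), ?_, ?_, hv2⟩, h2⟩
      · refine Relation.ReflTransGen.tail hv (Or.inr (Or.inr ⟨?_, rfl⟩))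
        rw [hv2]
        exact h2
      · show (!v.1) = (!x.1)
        rw [hv1]
    · rintro ⟨b, r⟩ _
      show (!(!b), r) = (b, r)
      rw [Bool.not_not]
    · rintro ⟨b, r⟩ _ h
      have h1 : (!b) = b := congrArg Prod.fst h
      cases b <;> exact absurd h1 (by decide)
  have e3 : Even (C.filter fun x => ¬ (l : ℤ) ≤ x.2).card := by
    have h1 := Finset.card_filter_add_card_filter_not (s := C) (fun x => (l : ℤ) ≤ x.2)
    rw [← h1] at e1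
    exact (Nat.even_add.1 e1).1 e2
  obtain ⟨hu0, hu1⟩ := hu
  have hlL' : (l : ℤ) ≤ (L : ℤ) := by exact_mod_cast hlL
  have hu2 : u.2 < l := by
    rcases hu1 with h | h
    · exact_mod_cast h.2
    · exact_mod_cast h.2
  have hum : u.2 % (L : ℤ) = u.2 := Int.emod_eq_of_lt hu0 (by omega)
  have huC : u ∈ C.filter fun x => ¬ (l : ℤ) ≤ x.2 := by
    rw [Finset.mem_filter, hmem]
    exact ⟨⟨⟨hu0, by omega⟩, u, Relation.ReflTransGen.refl, rfl, hum⟩, by omega⟩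
  have hcard : 1 < (C.filter fun x => ¬ (l : ℤ) ≤ x.2).card := by
    have h1 : 0 < (C.filter fun x => ¬ (l : ℤ) ≤ x.2).card := Finset.card_pos.2 ⟨u, huC⟩
    obtain ⟨k, hk⟩ := e3
    omega
  obtain ⟨x, hx, hxu⟩ := Finset.exists_mem_ne hcard u
  rw [Finset.mem_filter, hmem] at hx
  obtain ⟨⟨_, v, hv, hv1, hv2⟩, h2⟩ := hx
  refine ⟨v, hv, by omega, ?_⟩
  rintro ⟨h3, h4⟩
  apply hxu
  have h5 : v.2 % (L : ℤ) = u.2 % (L : ℤ) := (Int.emod_emod_of_dvd v.2 (dvd_refl _)).symm.trans (by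
    rw [Int.emod_emod_of_dvd v.2 (dvd_refl _)]
    exact Int.emod_eq_emod_iff_emod_sub_eq_zero.2 (Int.emod_eq_zero_of_dvd h4))
  refine Prod.ext ?_ ?_
  · rw [← hv1, h3]
  · rw [← hv2, h5, hum]

theorem EVC_leg (hlL : l ≤ L) (h : WL l l P Q) {u : Bool × ℤ} (hu : IsLeg l l u) :
    ∃ v : Bool × ℤ, NCl l P Q u v ∧ (v.2 ≤ l - 1 - (L : ℤ) ∨ (L : ℤ) ≤ v.2) := by
  obtain ⟨v, hv, h1, h2⟩ := exists_legl (P := P) (Q := Q) hlL hu
  refine ⟨v, hv, ?_⟩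
  have hL : 2 ≤ L := P.two_le
  have hL' : (2 : ℤ) ≤ (L : ℤ) := by exact_mod_cast hL
  by_cases h3 : 0 ≤ v.2 ∧ v.2 < l
  · exfalso
    have hl : IsLeg l l v := by
      refine ⟨h3.1, ?_⟩
      cases hb : v.1
      · exact Or.inr ⟨rfl, h3.2⟩
      · exact Or.inl ⟨rfl, h3.2⟩
    have hne : u ≠ v := by
      rintro rfl
      exact h2 ⟨rfl, by rw [sub_self]; exact dvd_zero _⟩
    exact wll_iff.1 h u v hu hl hne hv
  · have h5 : v.2 % (L : ℤ) + (L : ℤ) * (v.2 / (L : ℤ)) = v.2 := Int.emod_add_mul_ediv _ _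
    have h6 : 0 ≤ v.2 % (L : ℤ) := Int.emod_nonneg _ (by omega)
    generalize v.2 % (L : ℤ) = r at h1 h5 h6
    generalize v.2 / (L : ℤ) = q at h5
    rcases lt_trichotomy q 0 with hq | hq | hq
    · left
      have : (L : ℤ) * q ≤ (L : ℤ) * (-1) := mul_le_mul_of_nonneg_left (by omega) (by omega)
      omega
    · exfalso
      rw [hq, mul_zero] at h5
      exact h3 ⟨by omega, by omega⟩
    · right
      have : (L : ℤ) * 1 ≤ (L : ℤ) * q := mul_le_mul_of_nonneg_left (by omega) (by omega)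
      omega

/-- every gap next to a leg is connected to a distant gap -/
theorem far_gapl (hl : 1 ≤ l) (hlL : l ≤ L) (h : WL l l P Q) (b : Bool) {g : ℤ} (hg : 0 ≤ g) (hg' : g ≤ l) :
    ∃ w : Bool × ℤ, GCl l P Q (b, g) w ∧ (w.2 ≤ l - (L : ℤ) ∨ (L : ℤ) ≤ w.2) := by
  have hleg : ∀ s : ℤ, 0 ≤ s → s < l → IsLeg l l (b, s) := by
    intro s hs hs'
    refine ⟨hs, ?_⟩
    cases b
    · exact Or.inr ⟨rfl, hs'⟩
    · exact Or.inl ⟨rfl, hs'⟩
  have key : ∀ s : ℤ, 0 ≤ s → s < l → (∃ w : Bool × ℤ, GCl l P Q (b, s) w ∧ (w.2 ≤ l - (L : ℤ) ∨ (L : ℤ) ≤ w.2)) ∧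
      (∃ w : Bool × ℤ, GCl l P Q (b, s + 1) w ∧ (w.2 ≤ l - (L : ℤ) ∨ (L : ℤ) ≤ w.2)) := by
    intro s hs hs'
    obtain ⟨v, hv, h1⟩ := EVC_leg hlL h (hleg s hs hs')
    rcases gcl_side hl hv with ⟨h2, h3⟩ | ⟨h2, h3⟩
    · exact ⟨⟨v, h2, by omega⟩, ⟨(v.1, v.2 + 1), h3, by show v.2 + 1 ≤ _ ∨ _ ≤ v.2 + 1; omega⟩⟩
    · exact ⟨⟨(v.1, v.2 + 1), h2, by show v.2 + 1 ≤ _ ∨ _ ≤ v.2 + 1; omega⟩, ⟨v, h3, by omega⟩⟩
  rcases lt_or_eq_of_le hg' with h1 | h1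
  · exact (key g hg h1).1
  · have h2 := (key (g - 1) (by omega) (by omega)).2
    rwa [sub_add_cancel] at h2

end

end CY
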