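import Pool.Agent.Lib.MP_216314_pr.EV.AA
import Pool.Agent.Lib.MP_216314_pr.N.ED
import Pool.Agent.Lib.MP_216314_pr.N.DDef

/-!
# Invariants of faces, `l` legs
-/

set_option autoImplicit false

noncomputable section

namespace CY

open Finset FKI FKP

/-- the vertex `v` of the middle row is between two legs -/
def SpV (n l : ℕ) (v : FKI.V) : Prop := v.1 + v.2 = 0 ∧ Spl (2 * n) l (v.1 - v.2)

/-- steps of the lattice cut at the vertices between two legs: `(v, false)` is the upper side of `v` (edges to the right and up), `(v, true)` the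
lower side (edges to the left and down) -/
def HSt (n l : ℕ) (ω : Finset Edge) (u v : FKI.V × Bool) : Prop :=
  (∃ e : Edge, red n e ∈ ω ∧ u = (ea e, false) ∧ v = (eb e, true)) ∨
    (∃ e : Edge, red n e ∈ ω ∧ u = (eb e, true) ∧ v = (ea e, false)) ∨ (v = (u.1, !u.2) ∧ ¬ SpV n l u.1)

/-- connection in the cut lattice -/
def HR (n l : ℕ) (ω : Finset Edge) : FKI.V × Bool → FKI.V × Bool → Prop := Relation.ReflTransGen (HSt n l ω)

/-- steps of the cut lattice in `bx k` -/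
def HSb (n l k : ℕ) (ω : Finset Edge) (u v : FKI.V × Bool) : Prop :=
  (∃ e : Edge, e ∈ bx k ∧ red n e ∈ ω ∧ u = (ea e, false) ∧ v = (eb e, true)) ∨
    (∃ e : Edge, e ∈ bx k ∧ red n e ∈ ω ∧ u = (eb e, true) ∧ v = (ea e, false)) ∨ (v = (u.1, !u.2) ∧ ¬ SpV n l u.1)

/-- connection in the cut lattice in `bx k` -/
def HB (n l k : ℕ) (ω : Finset Edge) : FKI.V × Bool → FKI.V × Bool → Prop := Relation.ReflTransGen (HSb n l k ω)

/-- the primal sector `(a, b)`: the side `b` of the vertex `(a, -a)` -/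
def PSec (l : ℕ) (a : ℤ) (b : Bool) : Prop := 0 ≤ a ∧ 2 * a ≤ l ∧ (b = true → 1 ≤ a ∧ 2 * a + 1 ≤ l)

/-- the face `(x, y)` is connected to the face `(0, -1)` by a dual path -/
def DRe (n : ℕ) (ω : Finset Edge) : FKI.V → Prop := Relation.ReflTransGen (fun u v => ∃ e : Edge, red n e ∉ ω ∧
  ((u = ea (FKN.dl e) ∧ v = eb (FKN.dl e)) ∨ (u = eb (FKN.dl e) ∧ v = ea (FKN.dl e)))) (0, -1)

section

variable {n m l : ℕ} {α : Pat (2 * n)} {ω : Finset Edge}

theorem gcl_iff (hn : 1 ≤ n) {Rl Ru : ℤ → ℤ → Prop} (hl0 : ∀ k, ¬ Rl k (-(2 * (m : ℤ))))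
    (hl1 : ∀ k y : ℤ, -(2 * (m : ℤ)) ≤ y → y < 0 → (DG n ω k y → (Rl k y ↔ Rl (k + 1) (y + 1))) ∧
      (¬ DG n ω k y → (Rl k (y + 1) ↔ Rl (k + 1) y)))
    (hu0 : ∀ k, ¬ Ru k (2 * (m : ℤ)))
    (hu1 : ∀ k y : ℤ, 0 ≤ y → y < 2 * (m : ℤ) → (DG n ω k y → (Ru k y ↔ Ru (k + 1) (y + 1))) ∧
      (¬ DG n ω k y → (Ru k (y + 1) ↔ Ru (k + 1) y)))
    (hz : ∀ g : ℤ, ¬ Spl (2 * n) l g → (Rl g 0 ↔ Ru g 0)) {u v : Bool × ℤ}
    (h : GCl l (pup n m α ω) (plo n m α ω) u v) :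
    (if u.1 = true then Rl u.2 0 else Ru u.2 0) ↔ (if v.1 = true then Rl v.2 0 else Ru v.2 0) := by
  refine gen_iff (Q := fun w : Bool × ℤ => (if w.1 = true then Rl w.2 0 else Ru w.2 0)) ?_ h
  rintro ⟨a, x⟩ ⟨b, y⟩ (⟨h1, h2, h3⟩ | ⟨h1, h2, h3⟩ | ⟨h1, h2⟩)
  · simp only at h1 h2 h3
    subst h1 h2
    exact reg_plo_iff hn hl0 hl1 h3
  · simp only at h1 h2 h3
    subst h1 h2
    exact reg_pup_iff hn hu0 hu1 h3
  · simp only at h1 h2
    subst h1
    have h3 := hz y h2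
    cases a <;> cases b
    · exact Iff.rfl
    · exact h3.symm
    · exact h3
    · exact Iff.rfl

end

/-- the vertices between two legs in `bx k` -/
theorem spV_iff {n l k : ℕ} (hk : 2 * k < n) (hl : l ≤ k) {v : FKI.V} (hv : sn v ≤ k) :
    SpV n l v ↔ v.1 + v.2 = 0 ∧ 1 ≤ v.1 ∧ 2 * v.1 + 1 ≤ l := by
  unfold sn at hv
  have h1 := abs_le.1 ((le_max_left _ _).trans hv)
  unfold SpV Spl
  push_cast
  constructor
  · rintro ⟨h2, h3, h4⟩
    refine ⟨h2, ?_⟩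
    have e : v.1 - v.2 = 2 * v.1 := by omega
    rw [e] at h3 h4
    rcases lt_or_ge v.1 0 with h5 | h5
    · exfalso
      have e2 : 2 * v.1 = (2 * v.1 + 2 * n) + (2 * n) * (-1) := by ring
      rw [e2, Int.add_mul_emod_self_left, Int.emod_eq_of_lt (by omega) (by omega)] at h4
      omega
    · rw [Int.emod_eq_of_lt (by omega) (by omega)] at h3 h4
      omega
  · rintro ⟨h2, h3, h4⟩
    have e : v.1 - v.2 = 2 * v.1 := by omega
    rw [e, Int.emod_eq_of_lt (by omega) (by omega)]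
    exact ⟨h2, by omega, by omega⟩

end CY
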