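import Pool.Agent.Lib.MP_216314_pr.EV.AB
import Pool.Agent.Lib.MP_216314_pr.N.EF

/-!
# Potential of a chain between two vertices of the middle row

This is `not_conn` (N/EF: copy and adapt it; `EF_two`, `EF_cases`, `EF_sup`, `EF_eq`, `EF_eq1` can be used). Let `c1 e = 1` if `e = (i, -i, false)` or `e = (i + 1, -i - 1, true)` for
some `a ≤ i < b` (these are the tiles `te k' 0`, `2 a ≤ k' < 2 b`), `c1 e = 0` otherwise. `bd c1 v = ind (a, -a) v + ind (b, -b) v`: induction on `b - a` (as `arc_chain`, N/AP3: `bd_add`,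
`bd_sg`, the new edges `(b, -b, false)`, `(b + 1, -b - 1, true)` are not in `c1`), or construct `c1` by this induction together with: `c1 (te k' y) = if 2 a ≤ k' ∧ k' < 2 b ∧ y = 0 then 1 else 0`.
`c = c0 + c1` has `bd c = 0`, support in `bx k` (`2 b ≤ l ≤ k`); `potential` gives `z`. Predicates `Rl k' y = ((k' + y) % 2 ≠ 0 ∧ dz z k' y = 1)`,
`Ru k' y = ((k' + y) % 2 ≠ 0 ∧ dz z k' y + (if 2 a < k' ∧ k' < 2 b ∧ y = 0 then 1 else 0) = 1)`. Tiles: as in `not_conn`: tile `(k', 0)` with `2 a ≤ k' < 2 b`: for `k'` even the odd faces are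
`(k', 1)`, `(k' + 1, 0)`, the correction is `0`, `1` (`2 a < k' + 1 < 2 b`, since `2 b` is even); for `k'` odd they are `(k', 0)`, `(k' + 1, 1)`, the correction is `1` (`2 a < k'`), `0`.
For the other tiles with `0 ≤ y` the correction is `0` at both odd faces (`y = 0`, `k'` even, `k' + 1` in `(2 a, 2 b)` implies `2 a ≤ k' < 2 b`; `k'` odd, `2 a < k' < 2 b` the same).
`hz`: an odd `g` with `2 a < g < 2 b` has `1 ≤ g ≤ l - 1`, so `g % (2 n) = g` and `Spl (2 n) l g` holds (`l ≤ k`, `2 k < n`).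
`gcl_iff` and `far_gapl` (`w.2 ≤ l - 2 n` or `2 n ≤ w.2`, so `|w.2| > 2 k + 1`): for every odd `g`, `0 ≤ g ≤ l`: `dz z g 0 ≠ 1` (gap `(true, g)`), and `dz z g 0 + corr ≠ 1` (gap `(false, g)`).
So `dz z g 0 = 0` and `corr = 0`. If `a < b` then `g = 2 a + 1` has `corr = 1`: contradiction. So `a = b`, `c1 = 0`, `c = c0`, and `z (i, -i-1) = dz z (2 i + 1) 0 = 0`.
`pot_even`: `c0 (i, -i, true) = z (i, -i) + z (i - 1, -i)`, `c0 (i, -i, false) = z (i, -i) + z (i, -i - 1)`, and `z (i - 1, -i) = z (i, - i - 1) = 0`.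
-/

set_option autoImplicit false

noncomputable section

namespace CY

open Finset FKI FKP

/-- the path from `(a, -a)` to `(a + t, -(a + t))` along the middle row -/
theorem AC_path (a : ℤ) (t : ℕ) : ∃ c1 : Edge → ZMod 2,
    (∀ k' y : ℤ, c1 (te k' y) = if 2 * a ≤ k' ∧ k' < 2 * (a + t) ∧ y = 0 then 1 else 0) ∧
      (∀ v, bd c1 v = ind (a, -a) v + ind (a + t, -(a + t)) v) ∧
      ∀ e, c1 e ≠ 0 → ∃ i : ℤ, a ≤ i ∧ i < a + t ∧ (e = (i, -i, false) ∨ e = (i + 1, -i - 1, true)) := by
  induction t with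
  | zero =>
    refine ⟨0, ?_, ?_, ?_⟩
    · intro k' y
      rw [if_neg (by push_cast; omega)]
      rfl
    · intro v
      have h0 : bd (0 : Edge → ZMod 2) v = 0 := by
        unfold bd
        simp
      have e : ((a + ((0 : ℕ) : ℤ), -(a + ((0 : ℕ) : ℤ))) : FKI.V) = (a, -a) := by
        rw [Nat.cast_zero, add_zero]
      rw [h0, e, EF_two]
    · intro e he
      exact absurd rfl he
  | succ t ih =>
    obtain ⟨c1, h1, h2, h3⟩ := ih
    refine ⟨c1 + sg (a + t, -(a + t), false) + sg (a + t + 1, -(a + t) - 1, true), ?_, ?_, ?_⟩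
    · intro k' y
      have s1 : sg (a + t, -(a + t), false) (te k' y) = if k' = 2 * (a + t) ∧ y = 0 then 1 else 0 := by
        unfold sg
        refine if_congr ?_ rfl rfl
        by_cases h : (k' + y) % 2 = 0
        · rw [te_even h]
          simp only [Prod.mk.injEq, and_true]
          omega
        · rw [te_odd h]
          simp only [Prod.mk.injEq, Bool.true_eq_false, and_false, false_iff]
          omega
      have s2 : sg (a + t + 1, -(a + t) - 1, true) (te k' y) = if k' = 2 * (a + t) + 1 ∧ y = 0 then 1 else 0 := by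
        unfold sg
        refine if_congr ?_ rfl rfl
        by_cases h : (k' + y) % 2 = 0
        · rw [te_even h]
          simp only [Prod.mk.injEq, Bool.false_eq_true, and_false, false_iff]
          omega
        · rw [te_odd h]
          simp only [Prod.mk.injEq, and_true]
          omega
      rw [Pi.add_apply, Pi.add_apply, h1, s1, s2]
      push_cast
      by_cases hy : y = 0
      · rcases lt_trichotomy k' (2 * (a + t)) with h | h | h
        · rw [if_neg (show ¬ (k' = 2 * (a + t) ∧ y = 0) by omega),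
            if_neg (show ¬ (k' = 2 * (a + t) + 1 ∧ y = 0) by omega), add_zero, add_zero]
          exact if_congr (by omega) rfl rfl
        · rw [if_neg (show ¬ (2 * a ≤ k' ∧ k' < 2 * (a + t) ∧ y = 0) by omega),
            if_pos (show (k' = 2 * (a + t) ∧ y = 0) from ⟨h, hy⟩),
            if_neg (show ¬ (k' = 2 * (a + t) + 1 ∧ y = 0) by omega),
            if_pos (show 2 * a ≤ k' ∧ k' < 2 * (a + (t + 1)) ∧ y = 0 by omega), zero_add, add_zero]
        · rw [if_neg (show ¬ (2 * a ≤ k' ∧ k' < 2 * (a + t) ∧ y = 0) by omega),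
            if_neg (show ¬ (k' = 2 * (a + t) ∧ y = 0) by omega), zero_add, zero_add]
          exact if_congr (by omega) rfl rfl
      · rw [if_neg (by omega), if_neg (by omega), if_neg (by omega), if_neg (by omega), add_zero, add_zero]
    · intro v
      rw [bd_add, bd_add, bd_sg, bd_sg, h2]
      have e1 : eb (a + t, -(a + t), false) = ((a + t + 1, -(a + t)) : FKI.V) := rfl
      have e2 : eb (a + t + 1, -(a + t) - 1, true) = ((a + t + 1, -(a + t)) : FKI.V) := by
        have e0 : eb (a + t + 1, -(a + t) - 1, true) = ((a + t + 1, -(a + t) - 1 + 1) : FKI.V) := rfl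
        rw [e0, sub_add_cancel]
      have e3 : ea (a + t, -(a + t), false) = ((a + t, -(a + t)) : FKI.V) := rfl
      have e4 : ea (a + t + 1, -(a + t) - 1, true) = ((a + ((t + 1 : ℕ) : ℤ), -(a + ((t + 1 : ℕ) : ℤ))) : FKI.V) := by
        have e0 : ea (a + t + 1, -(a + t) - 1, true) = ((a + t + 1, -(a + t) - 1) : FKI.V) := rfl
        rw [e0]
        refine Prod.ext ?_ ?_
        · show a + t + 1 = a + ((t + 1 : ℕ) : ℤ)
          push_cast
          ring
        · show -(a + t) - 1 = -(a + ((t + 1 : ℕ) : ℤ))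
          push_cast
          ring
      rw [e1, e2, e3, e4]
      linear_combination EF_two (ind (a + t, -(a + t)) v) + EF_two (ind (a + t + 1, -(a + t)) v)
    · intro e he
      by_cases g1 : e = (a + t, -(a + t), false)
      · exact ⟨a + t, by omega, by push_cast; omega, Or.inl g1⟩
      · by_cases g2 : e = (a + t + 1, -(a + t) - 1, true)
        · exact ⟨a + t, by omega, by push_cast; omega, Or.inr g2⟩
        · have s1 : sg (a + t, -(a + t), false) e = 0 := by
            unfold sg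
            exact if_neg g1
          have s2 : sg (a + t + 1, -(a + t) - 1, true) e = 0 := by
            unfold sg
            exact if_neg g2
          rw [Pi.add_apply, Pi.add_apply, s1, s2, add_zero, add_zero] at he
          obtain ⟨i, hi1, hi2, hi3⟩ := h3 e he
          exact ⟨i, hi1, by push_cast; omega, hi3⟩

theorem pot_row {n m k l : ℕ} (hl : 1 ≤ l) (hm : n ≤ m) (hk : 2 * k < n) (hlk : l ≤ k) {α : Pat (2 * n)} {ω : Finset Edge}
    (hW : WL l l (pup n m α ω) (plo n m α ω)) {a b : ℤ} (ha : 0 ≤ a) (hab : a ≤ b) (hb : 2 * b ≤ l)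
    {c0 : Edge → ZMod 2} (hc0 : ∀ e, e ∉ pull n (bx k) ω → c0 e = 0)
    (hbd : ∀ v, bd c0 v = ind (a, -a) v + ind (b, -b) v) :
    a = b ∧ ∀ i : ℤ, 1 ≤ i → 2 * i + 1 ≤ l → c0 (i, -i, true) + c0 (i, -i, false) = 0 := by
  obtain ⟨t, rfl⟩ : ∃ t : ℕ, b = a + t := ⟨(b - a).toNat, by omega⟩
  obtain ⟨c1, hc1, hb1, hs1⟩ := AC_path a t
  have hcz : ∀ e, red n e ∉ ω → c0 e = 0 := by
    intro e he
    refine hc0 e fun h => he ?_
    exact (mem_pull.1 h).2
  have hsupp : ∀ e, e ∉ bx k → (c0 + c1) e = 0 := by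
    intro e he
    have h1 : c0 e = 0 := hc0 e fun h => he (mem_pull.1 h).1
    have h2 : c1 e = 0 := by
      by_contra h
      obtain ⟨i, hi1, hi2, hi3⟩ := hs1 e h
      apply he
      unfold bx
      rw [mem_box]
      rcases hi3 with h3 | h3
      · rw [h3]
        left
        exact ⟨rfl, by show -(k : ℤ) ≤ i; omega, by show i < (k : ℤ); omega,
          by show -(k : ℤ) ≤ -i; omega, by show -i ≤ (k : ℤ); omega⟩
      · rw [h3]
        right
        exact ⟨rfl, by show -(k : ℤ) ≤ i + 1; omega, by show i + 1 ≤ (k : ℤ); omega,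
          by show -(k : ℤ) ≤ -i - 1; omega, by show -i - 1 < (k : ℤ); omega⟩
    rw [Pi.add_apply, h1, h2, add_zero]
  have hbd0 : ∀ v, bd (c0 + c1) v = 0 := by
    intro v
    rw [bd_add, hbd, hb1]
    exact EF_two _
  obtain ⟨z, hz1, hz2, hz3⟩ := potential hsupp hbd0
  have hch : ∀ k' y : ℤ, red n (te k' y) ∉ ω →
      (c0 + c1) (te k' y) = if 2 * a ≤ k' ∧ k' < 2 * (a + t) ∧ y = 0 then 1 else 0 := by
    intro k' y h
    rw [Pi.add_apply, hcz _ h, hc1, zero_add]
  have hbot : ∀ k' y : ℤ, dz z k' y = 1 → -(2 * (k : ℤ)) ≤ y ∧ y ≤ 2 * k ∧ -(2 * (k : ℤ)) ≤ k' ∧ k' ≤ 2 * k := by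
    intro k' y h
    refine EF_sup hz3 ?_
    rw [h]
    exact one_ne_zero
  have hgc : ∀ {u v : Bool × ℤ}, GCl l (pup n m α ω) (plo n m α ω) u v →
      ((if u.1 = true then ((u.2 + 0) % 2 ≠ 0 ∧ dz z u.2 0 = 1) else
        ((u.2 + 0) % 2 ≠ 0 ∧ dz z u.2 0 + (if 2 * a < u.2 ∧ u.2 < 2 * (a + t) ∧ (0 : ℤ) = 0 then 1 else 0) = 1)) ↔
      (if v.1 = true then ((v.2 + 0) % 2 ≠ 0 ∧ dz z v.2 0 = 1) else
        ((v.2 + 0) % 2 ≠ 0 ∧ dz z v.2 0 + (if 2 * a < v.2 ∧ v.2 < 2 * (a + t) ∧ (0 : ℤ) = 0 then 1 else 0) = 1))) := by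
    intro u v huv
    refine gcl_iff (Rl := fun k' y => (k' + y) % 2 ≠ 0 ∧ dz z k' y = 1)
      (Ru := fun k' y => (k' + y) % 2 ≠ 0 ∧ dz z k' y + (if 2 * a < k' ∧ k' < 2 * (a + t) ∧ y = 0 then 1 else 0) = 1)
      (by omega) ?_ ?_ ?_ ?_ ?_ huv
    · rintro k' ⟨_, h⟩
      have := hbot _ _ h
      omega
    · intro k' y hy1 hy2
      by_cases hp : (k' + y) % 2 = 0
      · constructor
        · intro _
          exact ⟨fun h => absurd hp h.1, fun h => absurd (by omega) h.1⟩
        · intro hD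
          have hr : red n (te k' y) ∉ ω := fun c => hD ⟨fun _ => c, fun _ => hp⟩
          have h1 := dz_even hz1 hp
          rw [hch _ _ hr, if_neg (by omega)] at h1
          show (k' + (y + 1)) % 2 ≠ 0 ∧ dz z k' (y + 1) = 1 ↔ (k' + 1 + y) % 2 ≠ 0 ∧ dz z (k' + 1) y = 1
          rw [EF_eq h1]
          exact and_congr_left fun _ => by omega
      · constructor
        · intro hD
          have hr : red n (te k' y) ∉ ω := fun c => hp (hD.2 c)
          have h1 := dz_odd hz2 hp
          rw [hch _ _ hr, if_neg (by omega)] at h1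
          show (k' + y) % 2 ≠ 0 ∧ dz z k' y = 1 ↔
            (k' + 1 + (y + 1)) % 2 ≠ 0 ∧ dz z (k' + 1) (y + 1) = 1
          rw [EF_eq h1]
          exact and_congr_left fun _ => by omega
        · intro _
          exact ⟨fun h => absurd (by omega) h.1, fun h => absurd (by omega) h.1⟩
    · rintro k' ⟨_, h⟩
      rw [if_neg (by omega), add_zero] at h
      have := hbot _ _ h
      omega
    · intro k' y hy1 hy2
      by_cases hp : (k' + y) % 2 = 0
      · constructor
        · intro _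
          exact ⟨fun h => absurd hp h.1, fun h => absurd (by omega) h.1⟩
        · intro hD
          have hr : red n (te k' y) ∉ ω := fun c => hD ⟨fun _ => c, fun _ => hp⟩
          have h1 := dz_even hz1 hp
          rw [hch _ _ hr] at h1
          have h2 : (if 2 * a < k' + 1 ∧ k' + 1 < 2 * (a + t) ∧ y = 0 then (1 : ZMod 2) else 0) =
              if 2 * a ≤ k' ∧ k' < 2 * (a + t) ∧ y = 0 then 1 else 0 :=
            if_congr (by omega) rfl rfl
          show (k' + (y + 1)) % 2 ≠ 0 ∧ dz z k' (y + 1) + (if 2 * a < k' ∧ k' < 2 * (a + t) ∧ y + 1 = 0 then 1 else 0) = 1 ↔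
            (k' + 1 + y) % 2 ≠ 0 ∧ dz z (k' + 1) y + (if 2 * a < k' + 1 ∧ k' + 1 < 2 * (a + t) ∧ y = 0 then 1 else 0) = 1
          rw [if_neg (show ¬ (2 * a < k' ∧ k' < 2 * (a + t) ∧ y + 1 = 0) by omega), add_zero, h2, EF_eq1 h1]
          exact and_congr_left fun _ => by omega
      · constructor
        · intro hD
          have hr : red n (te k' y) ∉ ω := fun c => hp (hD.2 c)
          have h1 := dz_odd hz2 hp
          rw [hch _ _ hr, add_comm] at h1
          have h2 : (if 2 * a < k' ∧ k' < 2 * (a + t) ∧ y = 0 then (1 : ZMod 2) else 0) =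
              if 2 * a ≤ k' ∧ k' < 2 * (a + t) ∧ y = 0 then 1 else 0 :=
            if_congr (by omega) rfl rfl
          show (k' + y) % 2 ≠ 0 ∧ dz z k' y + (if 2 * a < k' ∧ k' < 2 * (a + t) ∧ y = 0 then 1 else 0) = 1 ↔
            (k' + 1 + (y + 1)) % 2 ≠ 0 ∧
              dz z (k' + 1) (y + 1) + (if 2 * a < k' + 1 ∧ k' + 1 < 2 * (a + t) ∧ y + 1 = 0 then 1 else 0) = 1
          rw [if_neg (show ¬ (2 * a < k' + 1 ∧ k' + 1 < 2 * (a + t) ∧ y + 1 = 0) by omega), add_zero, h2, EF_eq1 h1]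
          exact and_congr_left fun _ => by omega
        · intro _
          exact ⟨fun h => absurd (by omega) h.1, fun h => absurd (by omega) h.1⟩
    · intro g hg
      have hg1 : ¬ (2 * a < g ∧ g < 2 * (a + t)) := by
        rintro ⟨h1, h2⟩
        apply hg
        unfold Spl
        push_cast
        rw [Int.emod_eq_of_lt (by omega) (by omega)]
        omega
      show (g + 0) % 2 ≠ 0 ∧ dz z g 0 = 1 ↔
        (g + 0) % 2 ≠ 0 ∧ dz z g 0 + (if 2 * a < g ∧ g < 2 * (a + t) ∧ (0 : ℤ) = 0 then 1 else 0) = 1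
      rw [if_neg (show ¬ (2 * a < g ∧ g < 2 * (a + t) ∧ (0 : ℤ) = 0) from fun h => hg1 ⟨h.1, h.2.1⟩)]
      simp only [add_zero]
  -- the gaps next to the legs are connected to distant gaps
  have key : ∀ (s : Bool) (g : ℤ), 0 ≤ g → g ≤ l → (if s = true then ((g + 0 : ℤ) % 2 ≠ 0 ∧ dz z g 0 = 1) else
      ((g + 0 : ℤ) % 2 ≠ 0 ∧ dz z g 0 + (if 2 * a < g ∧ g < 2 * (a + t) ∧ (0 : ℤ) = 0 then 1 else 0) = 1)) → False := by
    intro s g hg0 hg1 hb
    obtain ⟨w, hw, hfar⟩ := far_gapl (l := l) hl (by omega) hW s hg0 hg1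
    have h1 := (hgc hw).1 hb
    push_cast at hfar
    have h2 : dz z w.2 0 = 1 := by
      by_cases hb2 : w.1 = true
      · rw [if_pos hb2] at h1
        exact h1.2
      · rw [if_neg hb2, if_neg (show ¬ (2 * a < w.2 ∧ w.2 < 2 * (a + t) ∧ (0 : ℤ) = 0) by omega)] at h1
        have h4 := h1.2
        rw [add_zero] at h4
        exact h4
    have h3 := hbot _ _ h2
    omega
  have hzero : ∀ g : ℤ, 0 ≤ g → g ≤ l → g % 2 ≠ 0 → dz z g 0 = 0 := by
    intro g hg0 hg1 hg2
    rcases EF_cases (dz z g 0) with h | h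
    · exact h
    · exfalso
      refine key true g hg0 hg1 ?_
      rw [if_pos rfl, h]
      exact ⟨by rwa [add_zero], rfl⟩
  have ht : (t : ℤ) = 0 := by
    by_contra ht
    refine key false (2 * a + 1) (by omega) (by omega) ?_
    rw [if_neg (by simp), hzero (2 * a + 1) (by omega) (by omega) (by omega), if_pos (by omega), zero_add]
    exact ⟨by omega, rfl⟩
  refine ⟨by omega, ?_⟩
  intro i hi1 hi2
  have hc1z : ∀ e, c1 e = 0 := by
    intro e
    by_contra h
    obtain ⟨j, hj1, hj2, _⟩ := hs1 e h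
    omega
  have g1 := hz1 i (-i)
  have g2 := hz2 i (-i)
  rw [Pi.add_apply, hc1z, add_zero] at g1 g2
  have z1 := hzero (2 * i + 1) (by omega) (by omega) (by omega)
  have z2 := hzero (2 * i - 1) (by omega) (by omega) (by omega)
  unfold dz at z1 z2
  have e1 : (0 + (2 * i + 1) - 1) / 2 = i := by omega
  have e2 : (0 - (2 * i + 1) - 1) / 2 = -i - 1 := by omega
  have e3 : (0 + (2 * i - 1) - 1) / 2 = i - 1 := by omega
  have e4 : (0 - (2 * i - 1) - 1) / 2 = -i := by omega
  rw [e1, e2] at z1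
  rw [e3, e4] at z2
  rw [z1, add_zero] at g1
  rw [z2, add_zero] at g2
  rw [← g1, ← g2]
  exact EF_two _

end CY
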