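import Pool.Agent.Lib.MP_216314_pr.EV.AB
import Pool.Agent.Lib.MP_216314_pr.N.EG

/-!
# Every primal sector is connected to distant vertices in the cut lattice

By contradiction, as `far_of_W4` (N/EG; copy `EG_R`, `EG_adj`, `EG_even`, `EG_diag` with `HR` in place of `lgr`). Let `u0 = ((a, -a), b)`,
`Rl k' y = ∃ v : V, HR n l ω u0 (v, true) ∧ v.1 - v.2 = k' ∧ v.1 + v.2 = y`, `Ru` the same with `(v, false)`. `HSt` is symmetric. For a vertex `v` with `v.1 + v.2 ≠ 0`: `HR u0 (v, true) ↔ HR u0 (v, false)`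
(third kind of step, `SpV` is false). An edge `e` with `red n e ∈ ω` joins `(ea e, false)` and `(eb e, true)`.
Lower tile `(k', y)`, `y < 0`, `k' + y` even, `DG`: `e = te k' y = (x, y0, false)`, `ea e` is the face `(k', y)`, `eb e` is the face `(k' + 1, y + 1)`. `Rl k' y ↔ HR (ea e, true) ↔ HR (ea e, false)` (level
`y ≠ 0`) `↔ HR (eb e, true) ↔ Rl (k' + 1) (y + 1)`. `k' + y` odd, `¬ DG`: `e = te k' y = (x, y0, true)`, `ea e` is the face `(k' + 1, y)` (level `y ≠ 0`), `eb e` the face `(k', y + 1)`: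
`Rl (k' + 1) y ↔ HR (ea e, true) ↔ HR (ea e, false) ↔ HR (eb e, true) ↔ Rl k' (y + 1)`. Upper tile `(k', y)`, `0 ≤ y`: the level of `eb e` is `y + 1 ≠ 0`, so `HR (eb e, true) ↔ HR (eb e, false)`, and
`Ru` of `ea e` is `HR (ea e, false) ↔ HR (eb e, true)`. In the other parity cases both sides are false (`k' + y` even for the faces in `Rl`, `Ru`).
`hz`: for `¬ Spl (2 n) l g` and `v.1 - v.2 = g`, `v.1 + v.2 = 0`: `¬ SpV n l v`. If all `w` with `HR n l ω u0 w` satisfy `2 |w.1.1| < n` and `2 |w.1.2| < n` then `Rl k' y`, `Ru k' y` imply `|k'| < n`, `|y| < n`, so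
`hl0`, `hu0` hold (`n ≤ m`). `far_gapl` for the gap `(b, 2 a)` (`b = true`: `Rl (2 a) 0`, `b = false`: `Ru (2 a) 0`; both true for `u0`) gives `w` with `w.2 ≤ l - 2 n ≤ -n` or `w.2 ≥ 2 n`: contradiction.
-/

set_option autoImplicit false

noncomputable section

namespace CY

open Finset FKI FKP

private theorem AD_symm {n l : ℕ} {ω : Finset Edge} {u v : FKI.V × Bool} (h : HSt n l ω u v) :
    HSt n l ω v u := by
  rcases h with ⟨e, he, h1, h2⟩ | ⟨e, he, h1, h2⟩ | ⟨h1, h2⟩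
  · exact Or.inr (Or.inl ⟨e, he, h2, h1⟩)
  · exact Or.inl ⟨e, he, h2, h1⟩
  · refine Or.inr (Or.inr ⟨?_, ?_⟩)
    · rw [h1]
      show u = (u.1, !(!u.2))
      rw [Bool.not_not]
    · rw [h1]
      exact h2

private theorem AD_iff {n l : ℕ} {ω : Finset Edge} {u0 u v : FKI.V × Bool} (h : HSt n l ω u v) :
    HR n l ω u0 u ↔ HR n l ω u0 v :=
  ⟨fun h1 => Relation.ReflTransGen.tail h1 h, fun h1 => Relation.ReflTransGen.tail h1 (AD_symm h)⟩

private theorem AD_edge {n l : ℕ} {ω : Finset Edge} {u0 : FKI.V × Bool} {e : Edge} (he : red n e ∈ ω) :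
    HR n l ω u0 (ea e, false) ↔ HR n l ω u0 (eb e, true) :=
  AD_iff (Or.inl ⟨e, he, rfl, rfl⟩)

private theorem AD_flip {n l : ℕ} {ω : Finset Edge} {u0 : FKI.V × Bool} {v : FKI.V} (hv : ¬ SpV n l v) :
    HR n l ω u0 (v, true) ↔ HR n l ω u0 (v, false) :=
  AD_iff (Or.inr (Or.inr ⟨rfl, hv⟩))

/-- the side `s` of the face `(k, y)` is connected to `u0` -/
private def AD_R (n l : ℕ) (ω : Finset Edge) (u0 : FKI.V × Bool) (s : Bool) (k y : ℤ) : Prop :=
  ∃ v : FKI.V, HR n l ω u0 (v, s) ∧ v.1 - v.2 = k ∧ v.1 + v.2 = y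

private theorem AD_Riff {n l : ℕ} {ω : Finset Edge} {u0 : FKI.V × Bool} {s : Bool} {k y : ℤ} {v : FKI.V}
    (h1 : v.1 - v.2 = k) (h2 : v.1 + v.2 = y) : AD_R n l ω u0 s k y ↔ HR n l ω u0 (v, s) := by
  constructor
  · rintro ⟨w, hw, h3, h4⟩
    have : w = v := Prod.ext (by omega) (by omega)
    rwa [this] at hw
  · intro h
    exact ⟨v, h, h1, h2⟩

private theorem AD_adj {n l : ℕ} {ω : Finset Edge} {u0 : FKI.V × Bool} {s : Bool} {e : Edge}
    (he : red n e ∈ ω) {k y k' y' : ℤ} (h1 : (ea e).1 - (ea e).2 = k) (h2 : (ea e).1 + (ea e).2 = y)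
    (h3 : (eb e).1 - (eb e).2 = k') (h4 : (eb e).1 + (eb e).2 = y')
    (hs : s = true ∧ y ≠ 0 ∨ s = false ∧ y' ≠ 0) : AD_R n l ω u0 s k y ↔ AD_R n l ω u0 s k' y' := by
  rw [AD_Riff h1 h2, AD_Riff h3 h4]
  rcases hs with ⟨rfl, hy⟩ | ⟨rfl, hy⟩
  · rw [AD_flip (fun h => hy (h2.symm.trans h.1))]
    exact AD_edge he
  · rw [← AD_flip (v := eb e) (fun h => hy (h4.symm.trans h.1))]
    exact AD_edge he

private theorem AD_even {n l : ℕ} {ω : Finset Edge} {u0 : FKI.V × Bool} {s : Bool} {k y : ℤ}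
    (h : AD_R n l ω u0 s k y) : (k + y) % 2 = 0 := by
  obtain ⟨v, _, h1, h2⟩ := h
  omega

private theorem AD_diag (n l : ℕ) (ω : Finset Edge) (u0 : FKI.V × Bool) (s : Bool) (k y : ℤ)
    (hs : s = true ∧ y ≠ 0 ∨ s = false ∧ y + 1 ≠ 0) :
    (DG n ω k y → (AD_R n l ω u0 s k y ↔ AD_R n l ω u0 s (k + 1) (y + 1))) ∧
    (¬ DG n ω k y → (AD_R n l ω u0 s k (y + 1) ↔ AD_R n l ω u0 s (k + 1) y)) := by
  by_cases hp : (k + y) % 2 = 0
  · constructor
    · intro hd
      have he := hd.1 hp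
      rw [te_even hp] at he
      refine AD_adj he ?_ ?_ ?_ ?_ hs
      · show (k + y) / 2 - (y - k) / 2 = k
        omega
      · show (k + y) / 2 + (y - k) / 2 = y
        omega
      · show (k + y) / 2 + 1 - (y - k) / 2 = k + 1
        omega
      · show (k + y) / 2 + 1 + (y - k) / 2 = y + 1
        omega
    · intro _
      constructor
      · intro h
        have := AD_even h
        omega
      · intro h
        have := AD_even h
        omega
  · constructor
    · intro _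
      constructor
      · intro h
        exact absurd (AD_even h) hp
      · intro h
        have := AD_even h
        omega
    · intro hd
      have he : red n (te k y) ∈ ω := by
        by_contra hc
        exact hd ⟨fun c => absurd c hp, fun c => absurd c hc⟩
      rw [te_odd hp] at he
      refine (AD_adj he ?_ ?_ ?_ ?_ hs).symm
      · show (k + y + 1) / 2 - (y - k - 1) / 2 = k + 1
        omega
      · show (k + y + 1) / 2 + (y - k - 1) / 2 = y
        omega
      · show (k + y + 1) / 2 - ((y - k - 1) / 2 + 1) = k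
        omega
      · show (k + y + 1) / 2 + ((y - k - 1) / 2 + 1) = y + 1
        omega

theorem hr_far {n m l : ℕ} (hl : 1 ≤ l) (hln : l ≤ n) (hm : n ≤ m) {α : Pat (2 * n)} {ω : Finset Edge}
    (hW : WL l l (pup n m α ω) (plo n m α ω)) {a : ℤ} (ha : 0 ≤ a) (ha' : 2 * a ≤ l) (b : Bool) :
    ∃ w : FKI.V × Bool, HR n l ω ((a, -a), b) w ∧ ((n : ℤ) ≤ 2 * |w.1.1| ∨ (n : ℤ) ≤ 2 * |w.1.2|) := by
  by_contra hc
  push Not at hc
  have bd : ∀ (s : Bool) (k y : ℤ), AD_R n l ω ((a, -a), b) s k y →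
      -(n : ℤ) < k ∧ k < n ∧ -(n : ℤ) < y ∧ y < n := by
    rintro s k y ⟨w, hw, h1, h2⟩
    have h0 := hc (w, s) hw
    obtain ⟨h3, h4⟩ : 2 * |w.1| < (n : ℤ) ∧ 2 * |w.2| < (n : ℤ) := h0
    rcases abs_cases w.1 with h5 | h5 <;> rcases abs_cases w.2 with h6 | h6 <;> omega
  have bot : ∀ k : ℤ, ¬ AD_R n l ω ((a, -a), b) true k (-(2 * (m : ℤ))) := by
    intro k hk
    have := bd _ _ _ hk
    omega
  have top : ∀ k : ℤ, ¬ AD_R n l ω ((a, -a), b) false k (2 * (m : ℤ)) := by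
    intro k hk
    have := bd _ _ _ hk
    omega
  have hz : ∀ g : ℤ, ¬ Spl (2 * n) l g →
      (AD_R n l ω ((a, -a), b) true g 0 ↔ AD_R n l ω ((a, -a), b) false g 0) := by
    intro g hg
    have key : ∀ v : FKI.V, v.1 - v.2 = g → (HR n l ω ((a, -a), b) (v, true) ↔
        HR n l ω ((a, -a), b) (v, false)) := by
      intro v hv
      refine AD_flip (fun h => hg ?_)
      rw [← hv]
      exact h.2
    constructor
    · rintro ⟨v, h1, h2, h3⟩
      exact ⟨v, (key v h2).1 h1, h2, h3⟩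
    · rintro ⟨v, h1, h2, h3⟩
      exact ⟨v, (key v h2).2 h1, h2, h3⟩
  have hR : AD_R n l ω ((a, -a), b) b (2 * a) 0 := by
    refine ⟨(a, -a), Relation.ReflTransGen.refl, ?_, ?_⟩
    · show a - -a = 2 * a
      ring
    · show a + -a = 0
      ring
  obtain ⟨w, hw1, hw2⟩ := far_gapl (P := pup n m α ω) (Q := plo n m α ω) hl (by omega) hW b
    (g := 2 * a) (by omega) ha'
  have h1 := gcl_iff (n := n) (m := m) (l := l) (α := α) (ω := ω) (by omega)
    (Rl := AD_R n l ω ((a, -a), b) true) (Ru := AD_R n l ω ((a, -a), b) false)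
    bot (fun k y _ hy => AD_diag n l ω _ true k y (Or.inl ⟨rfl, by omega⟩)) top
    (fun k y hy _ => AD_diag n l ω _ false k y (Or.inr ⟨rfl, by omega⟩)) hz hw1
  have h2 : (if ((b, 2 * a) : Bool × ℤ).1 = true then
      AD_R n l ω ((a, -a), b) true ((b, 2 * a) : Bool × ℤ).2 0 else
      AD_R n l ω ((a, -a), b) false ((b, 2 * a) : Bool × ℤ).2 0) := by
    cases b
    · exact hR
    · exact hR
  have h3 := h1.1 h2
  have h4 : -(n : ℤ) < w.2 ∧ w.2 < n := by
    split_ifs at h3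
    · have := bd _ _ _ h3
      omega
    · have := bd _ _ _ h3
      omega
  push_cast at hw2
  omega

end CY
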