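import Pool.Agent.Lib.MP_216314_pr.EV.AB
import Pool.Agent.Lib.MP_216314_pr.N.EG

/-!
# From the cut lattice to an arm across the annulus

`hb_first`: (1) by induction on the path from `u0`: for every `w` with `HR n l ω u0 w`: either `HB n l k ω u0 w` and `sn w.1 ≤ k`, or there is `c` with `sn c.1 = k` and `HB n l k ω u0 c`. Step `w → w'` from
the first alternative: if the step is along `e` (`red n e ∈ ω`): if `sn w'.1 ≤ k` then `e ∈ bx k` (both ends in `[-k,k]²`; `EH_mem` of N/EH or direct, see `arm_pull` in N/EG) and `HB u0 w'`;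
if `sn w'.1 > k` then `sn w.1 ≥ k` (`sn_edge`), so `sn w.1 = k`, `c = w`. The third kind of step does not change the vertex. (2) at the end `sn w.1 ≥ k` (`2 k < n`), so in the first alternative `sn w.1 = k`.
`hb_last`: by induction on the path: for every `c` with `HB n l k ω u0 c` and `r ≤ sn c.1` the conclusion holds. Step `c → c'` with `r ≤ sn c'.1`, along an edge `e ∈ bx k`, `red n e ∈ ω`: if `sn c'.1 = r` take
`u = c'.1` (`Conn` refl). Otherwise `sn c'.1 > r`, so `sn c.1 ≥ r` (`sn_edge`), the induction hypothesis gives `u` for `c`, and `e ∈ an r k = bx k \ bx r` (one end of `e` is at distance `> r`), so the connection is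
extended by `e`. Start `c = u0`: `sn u0.1 ≤ r`, so `sn u0.1 = r`, `u = u0.1`. The third kind of step does not change the vertex.
`hb_side`: `spV_iff`: a vertex with `sn v = r ≥ l` is not between two legs (`|v.1| = r` or `|v.2| = r`, but `2 v.1 + 1 ≤ l`, `1 ≤ v.1`, `v.2 = -v.1` gives `sn v < l`), so the side can be changed.
`hb_of_conn`: induction on the walk in `gr (pull n (bx k) ω ∩ an r k)`: all its vertices `v` satisfy `r ≤ sn v ≤ k` (edges of `an r k = bx k \ bx r`: if one end is at distance `< r`, then the other one is at distance `≤ r`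
and the edge is in `bx r`), so they are not between two legs and the side can be changed by the third kind of step. (`nrm v = sn v` and `FKN.bx k = bx k` by `rfl`.)
-/

set_option autoImplicit false

noncomputable section

namespace CY

open Finset FKI FKP

private theorem AE_mem {k : ℕ} {e : Edge} (h1 : sn (ea e) ≤ k) (h2 : sn (eb e) ≤ k) : e ∈ bx k := by
  have habs : ∀ a : FKI.V, sn a ≤ k → -(k : ℤ) ≤ a.1 ∧ a.1 ≤ k ∧ -(k : ℤ) ≤ a.2 ∧ a.2 ≤ k := by
    intro a ha
    unfold sn at ha
    have h1 := abs_le.1 ((le_max_left _ _).trans ha)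
    have h2 := abs_le.1 ((le_max_right _ _).trans ha)
    exact ⟨h1.1, h1.2, h2.1, h2.2⟩
  have h3 := habs _ h1
  have h4 := habs _ h2
  obtain ⟨x, y, t⟩ := e
  unfold bx
  rw [mem_box]
  cases t
  · simp only [ea, eb, Bool.false_eq_true, if_false] at h3 h4
    left
    refine ⟨rfl, ?_⟩
    simp only
    omega
  · simp only [ea, eb, if_true] at h3 h4
    right
    refine ⟨rfl, ?_⟩
    simp only
    omega

private theorem AE_of_mem {k : ℕ} {e : Edge} (h : e ∈ bx k) : sn (ea e) ≤ k ∧ sn (eb e) ≤ k := by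
  have habs : ∀ a : FKI.V, -(k : ℤ) ≤ a.1 → a.1 ≤ k → -(k : ℤ) ≤ a.2 → a.2 ≤ k → sn a ≤ k := by
    intro a h1 h2 h3 h4
    unfold sn
    exact max_le (abs_le.2 ⟨h1, h2⟩) (abs_le.2 ⟨h3, h4⟩)
  obtain ⟨x, y, t⟩ := e
  unfold bx at h
  rw [mem_box] at h
  simp only at h
  cases t
  · simp only [ea, eb, Bool.false_eq_true, if_false]
    rcases h with h | h
    · constructor
      · apply habs <;> simp only <;> omega
      · apply habs <;> simp only <;> omega
    · exact absurd h.1 (by decide)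
  · simp only [ea, eb, if_true]
    rcases h with h | h
    · exact absurd h.1 (by decide)
    · constructor
      · apply habs <;> simp only <;> omega
      · apply habs <;> simp only <;> omega

private theorem AE_nsp {n l k r : ℕ} (hk : 2 * k < n) (hlr : l ≤ r) (hrk : r ≤ k) {v : FKI.V}
    (h1 : (r : ℤ) ≤ sn v) (h2 : sn v ≤ k) : ¬ SpV n l v := by
  intro h
  rw [spV_iff hk (hlr.trans hrk) h2] at h
  obtain ⟨h3, h4, h5⟩ := h
  unfold sn at h1
  have e1 : |v.1| = v.1 := abs_of_nonneg (by omega)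
  have e2 : |v.2| = v.1 := by
    rw [abs_of_nonpos (by omega)]
    omega
  rw [e1, e2, max_self] at h1
  omega

private theorem AE_flip {n l k : ℕ} {ω : Finset Edge} {u0 : FKI.V × Bool} {u : FKI.V}
    (hu : ¬ SpV n l u) {b : Bool} (h : HB n l k ω u0 (u, b)) (b' : Bool) :
    HB n l k ω u0 (u, b') := by
  by_cases hb : b = b'
  · rw [← hb]
    exact h
  · have e : b' = !b := by
      cases b <;> cases b' <;> simp at hb ⊢
    rw [e]
    exact Relation.ReflTransGen.tail h (Or.inr (Or.inr ⟨rfl, hu⟩))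

theorem hb_first {n l k : ℕ} (hk : 2 * k < n) {ω : Finset Edge} {u0 w : FKI.V × Bool} (h0 : sn u0.1 ≤ k) (h : HR n l ω u0 w)
    (hw : (n : ℤ) ≤ 2 * |w.1.1| ∨ (n : ℤ) ≤ 2 * |w.1.2|) : ∃ c : FKI.V × Bool, sn c.1 = k ∧ HB n l k ω u0 c := by
  have key : (HB n l k ω u0 w ∧ sn w.1 ≤ k) ∨
      ∃ c : FKI.V × Bool, sn c.1 = k ∧ HB n l k ω u0 c := by
    clear hw
    induction h with
    | refl => exact Or.inl ⟨Relation.ReflTransGen.refl, h0⟩
    | @tail b c _ hbc ih =>
      rcases ih with ⟨h1, h2⟩ | h1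
      · rcases hbc with ⟨e, he, rfl, rfl⟩ | ⟨e, he, rfl, rfl⟩ | ⟨h3, h4⟩
        · have h3 := sn_edge e
          simp only at h2 ⊢
          by_cases h4 : sn (eb e) ≤ k
          · exact Or.inl ⟨Relation.ReflTransGen.tail h1 (Or.inl ⟨e, AE_mem h2 h4, he, rfl, rfl⟩), h4⟩
          · exact Or.inr ⟨(ea e, false), by simp only; omega, h1⟩
        · have h3 := sn_edge e
          simp only at h2 ⊢
          by_cases h4 : sn (ea e) ≤ k
          · exact Or.inl ⟨Relation.ReflTransGen.tail h1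
              (Or.inr (Or.inl ⟨e, AE_mem h4 h2, he, rfl, rfl⟩)), h4⟩
          · exact Or.inr ⟨(eb e, true), by simp only; omega, h1⟩
        · refine Or.inl ⟨Relation.ReflTransGen.tail h1 (Or.inr (Or.inr ⟨h3, h4⟩)), ?_⟩
          rw [h3]
          exact h2
      · exact Or.inr h1
  rcases key with ⟨_, h2⟩ | h1
  · exfalso
    unfold sn at h2
    have h3 := (le_max_left _ _).trans h2
    have h4 := (le_max_right _ _).trans h2
    omega
  · exact h1

theorem hb_last {n l k r : ℕ} (hrk : r ≤ k) {ω : Finset Edge} {u0 c : FKI.V × Bool} (h0 : sn u0.1 ≤ r) (h : HB n l k ω u0 c)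
    (hc : (r : ℤ) ≤ sn c.1) : ∃ (u : FKI.V) (b : Bool), sn u = r ∧ HB n l k ω u0 (u, b) ∧
      Conn (FKN.an r k) (pull n (bx k) ω) u c.1 := by
  induction h with
  | refl =>
    refine ⟨u0.1, u0.2, le_antisymm h0 hc, Relation.ReflTransGen.refl, Conn.refl _ _ _⟩
  | @tail b c hb hbc ih =>
    by_cases hcr : sn c.1 = r
    · exact ⟨c.1, c.2, hcr, Relation.ReflTransGen.tail hb hbc, Conn.refl _ _ _⟩
    · rcases hbc with ⟨e, he1, he2, rfl, rfl⟩ | ⟨e, he1, he2, rfl, rfl⟩ | ⟨h3, h4⟩
      · have h3 := sn_edge e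
        simp only at hc hcr
        obtain ⟨u, d, hu1, hu2, hu3⟩ := ih (by simp only; omega)
        refine ⟨u, d, hu1, hu2, hu3.trans ?_⟩
        refine pexit_edge (e := e) ?_ (mem_pull.2 ⟨he1, he2⟩) (Or.inl ⟨rfl, rfl⟩)
        unfold FKN.an
        rw [mem_sdiff]
        refine ⟨he1, fun h5 => ?_⟩
        have h6 := AE_of_mem h5
        omega
      · have h3 := sn_edge e
        simp only at hc hcr
        obtain ⟨u, d, hu1, hu2, hu3⟩ := ih (by simp only; omega)
        refine ⟨u, d, hu1, hu2, hu3.trans ?_⟩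
        refine pexit_edge (e := e) ?_ (mem_pull.2 ⟨he1, he2⟩) (Or.inr ⟨rfl, rfl⟩)
        unfold FKN.an
        rw [mem_sdiff]
        refine ⟨he1, fun h5 => ?_⟩
        have h6 := AE_of_mem h5
        omega
      · rw [h3] at hc ⊢
        exact ih hc

theorem hb_side {n l k r : ℕ} (hk : 2 * k < n) (hlr : l ≤ r) (hrk : r ≤ k) {ω : Finset Edge} {u0 : FKI.V × Bool} {u : FKI.V}
    (hu : sn u = r) {b : Bool} (h : HB n l k ω u0 (u, b)) (b' : Bool) : HB n l k ω u0 (u, b') := by
  exact AE_flip (AE_nsp hk hlr hrk (le_of_eq hu.symm)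
    (by rw [hu]; exact_mod_cast hrk)) h b'

theorem hb_of_conn {n l k r : ℕ} (hk : 2 * k < n) (hlr : l ≤ r) (hrk : r ≤ k) {ω : Finset Edge} {u v : FKI.V} (hu : sn u = r)
    (h : Conn (FKN.an r k) (pull n (bx k) ω) u v) : HB n l k ω (u, false) (v, false) := by
  have key : ∀ a : FKI.V, Conn (FKN.an r k) (pull n (bx k) ω) a v → (r : ℤ) ≤ sn a → sn a ≤ k →
      HB n l k ω (u, false) (a, false) → HB n l k ω (u, false) (v, false) := by
    rintro a ⟨p⟩ h1 h2 h3
    induction p with
    | nil => exact h3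
    | @cons x y z hadj p ih =>
      obtain ⟨e, he, hends⟩ := pexit_adj hadj
      rw [mem_inter] at he
      obtain ⟨he1, he2⟩ := he
      have he3 := mem_pull.1 he1
      unfold FKN.an at he2
      rw [mem_sdiff] at he2
      have h4 := sn_edge e
      have h5 := AE_of_mem he3.1
      have h6 : ¬ (sn (ea e) ≤ r ∧ sn (eb e) ≤ r) := fun h => he2.2 (AE_mem h.1 h.2)
      rcases hends with ⟨rfl, rfl⟩ | ⟨rfl, rfl⟩
      · have h7 : (r : ℤ) ≤ sn (eb e) := by omega
        refine ih h h7 h5.2 ?_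
        refine AE_flip (AE_nsp hk hlr hrk h7 h5.2) (b := true) ?_ false
        exact Relation.ReflTransGen.tail h3 (Or.inl ⟨e, he3.1, he3.2, rfl, rfl⟩)
      · have h7 : (r : ℤ) ≤ sn (ea e) := by omega
        refine ih h h7 h5.1 ?_
        have h8 := AE_flip (AE_nsp hk hlr hrk h1 h2) h3 true
        exact Relation.ReflTransGen.tail h8 (Or.inr (Or.inl ⟨e, he3.1, he3.2, rfl, rfl⟩))
  exact key u h (le_of_eq hu.symm) (by rw [hu]; exact_mod_cast hrk) Relation.ReflTransGen.refl

end CY
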