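import Pool.Agent.Lib.MP_216314_pr.EV.AC

/-!
# Different primal sectors are not connected in the cut lattice

`hb_symm`: the steps can be undone.
`hb_chain`: induction on the path; `refl`: `c = 0` (`ind + ind = 0` in `ZMod 2`). Step along `e` (`e ∈ bx k`, `red n e ∈ ω`): `c + sg e` (`bd_add`, `bd_sg`, `mem_pull`); `sg e (w.1, w.2, true) + sg e (w.1, w.2, false) = 1`
if `w = ea e` and `0` otherwise (an edge `(x, y, t)` has `ea = (x, y)`); the step is between `(ea e, false)` and `(eb e, true)`, so the right side changes by the same amount. Third kind of step: `(v, b) → (v, !b)` with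
`¬ SpV n l v`: the right side does not change for `w` with `SpV n l w`.
`hb_not`: Let `c` be the chain of `hb_chain`. By symmetry (`hb_symm`) `a ≤ a'`. `pot_row` gives `a = a'` and `c (i, -i, true) + c (i, -i, false) = 0` for `1 ≤ i`, `2 i + 1 ≤ l`. So `b ≠ b'`, one of them is `true`, hence
`1 ≤ a`, `2 a + 1 ≤ l`, and `(a, -a)` is between two legs (`SpV`: `2 a % (2 n) = 2 a`). The last part of `hb_chain` at `w = (a, -a)`: exactly one of the two sides is `false`, so the sum is `1`: contradiction.
-/

set_option autoImplicit false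

noncomputable section

namespace CY

open Finset FKI FKP

theorem AF_step_symm {n l k : ℕ} {ω : Finset Edge} {u v : FKI.V × Bool} (h : HSb n l k ω u v) : HSb n l k ω v u := by
  rcases h with ⟨e, h1, h2, h3, h4⟩ | ⟨e, h1, h2, h3, h4⟩ | ⟨h1, h2⟩
  · exact Or.inr (Or.inl ⟨e, h1, h2, h4, h3⟩)
  · exact Or.inl ⟨e, h1, h2, h4, h3⟩
  · refine Or.inr (Or.inr ⟨?_, ?_⟩)
    · rw [h1]
      simp only [Bool.not_not]
    · rw [h1]
      exact h2

theorem hb_symm {n l k : ℕ} {ω : Finset Edge} {u v : FKI.V × Bool} (h : HB n l k ω u v) : HB n l k ω v u := by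
  induction h with
  | refl => exact Relation.ReflTransGen.refl
  | tail _ hbc ih => exact Relation.ReflTransGen.head (AF_step_symm hbc) ih

open Classical in
theorem AF_sg (e : Edge) (w : FKI.V) :
    sg e (w.1, w.2, true) + sg e (w.1, w.2, false) = if ea e = w then 1 else 0 := by
  obtain ⟨x, y, t⟩ := e
  obtain ⟨p, q⟩ := w
  have he : ea (x, y, t) = ((x, y) : FKI.V) := by cases t <;> rfl
  rw [he]
  unfold sg
  by_cases h : ((x, y) : FKI.V) = (p, q)
  · rw [if_pos h]
    have h1 : x = p := congrArg Prod.fst h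
    have h2 : y = q := congrArg Prod.snd h
    subst h1 h2
    cases t
    · rw [if_neg (by simp), if_pos rfl, zero_add]
    · rw [if_pos rfl, if_neg (by simp), add_zero]
  · rw [if_neg h, if_neg, if_neg, add_zero]
    · intro h3
      refine h ?_
      have h4 : p = x := congrArg Prod.fst h3
      have h5 : q = y := congrArg (fun z : Edge => z.2.1) h3
      rw [h4, h5]
    · intro h3
      refine h ?_
      have h4 : p = x := congrArg Prod.fst h3
      have h5 : q = y := congrArg (fun z : Edge => z.2.1) h3
      rw [h4, h5]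

open Classical in
theorem hb_chain {n l k : ℕ} {ω : Finset Edge} {u v : FKI.V × Bool} (h : HB n l k ω u v) :
    ∃ c : Edge → ZMod 2, (∀ e, e ∉ pull n (bx k) ω → c e = 0) ∧ (∀ w, bd c w = ind u.1 w + ind v.1 w) ∧
      ∀ w : FKI.V, SpV n l w → c (w.1, w.2, true) + c (w.1, w.2, false) =
        (if u = (w, false) then 1 else 0) + (if v = (w, false) then 1 else 0) := by
  induction h with
  | refl =>
    refine ⟨0, fun _ _ => rfl, fun w => ?_, fun w _ => ?_⟩
    · rw [EF_two]
      simp [bd]
    · rw [EF_two]
      rfl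
  | @tail v v' _ hbc ih =>
    obtain ⟨c, h1, h2, h3⟩ := ih
    have add : ∀ e : Edge, e ∈ bx k → red n e ∈ ω →
        (∀ e', e' ∉ pull n (bx k) ω → (c + sg e) e' = 0) ∧
        (∀ w, bd (c + sg e) w = ind u.1 w + ind v.1 w + (ind (ea e) w + ind (eb e) w)) ∧
        ∀ w : FKI.V, SpV n l w → (c + sg e) (w.1, w.2, true) + (c + sg e) (w.1, w.2, false) =
          (if u = (w, false) then 1 else 0) + (if v = (w, false) then 1 else 0) +
            (if ea e = w then 1 else 0) := by
      intro e he1 he2
      refine ⟨fun e' he' => ?_, fun w => ?_, fun w hw => ?_⟩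
      · rw [Pi.add_apply, h1 e' he', zero_add]
        unfold sg
        refine if_neg fun h4 => he' ?_
        rw [h4]
        exact mem_pull.2 ⟨he1, he2⟩
      · rw [bd_add, bd_sg, h2]
      · have h4 := h3 w hw
        have h5 := AF_sg e w
        rw [Pi.add_apply, Pi.add_apply]
        linear_combination h4 + h5
    rcases hbc with ⟨e, he1, he2, he3, he4⟩ | ⟨e, he1, he2, he3, he4⟩ | ⟨he1, he2⟩
    · obtain ⟨a1, a2, a3⟩ := add e he1 he2
      refine ⟨c + sg e, a1, fun w => ?_, fun w hw => ?_⟩
      · rw [a2, he3, he4]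
        linear_combination EF_two (ind (ea e) w)
      · rw [a3 w hw, he3, he4]
        have e1 : (if ((ea e, false) : FKI.V × Bool) = (w, false) then (1 : ZMod 2) else 0) =
            if ea e = w then 1 else 0 := by
          by_cases h5 : ea e = w
          · rw [if_pos h5, if_pos (by rw [h5])]
          · rw [if_neg h5, if_neg fun h6 => h5 (congrArg Prod.fst h6)]
        have e2 : (if ((eb e, true) : FKI.V × Bool) = (w, false) then (1 : ZMod 2) else 0) = 0 :=
          if_neg fun h6 => by
            have h7 : true = false := congrArg Prod.snd h6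
            exact Bool.noConfusion h7
        rw [e1, e2]
        linear_combination EF_two (if ea e = w then (1 : ZMod 2) else 0)
    · obtain ⟨a1, a2, a3⟩ := add e he1 he2
      refine ⟨c + sg e, a1, fun w => ?_, fun w hw => ?_⟩
      · rw [a2, he3, he4]
        linear_combination EF_two (ind (eb e) w)
      · rw [a3 w hw, he3, he4]
        have e1 : (if ((ea e, false) : FKI.V × Bool) = (w, false) then (1 : ZMod 2) else 0) =
            if ea e = w then 1 else 0 := by
          by_cases h5 : ea e = w
          · rw [if_pos h5, if_pos (by rw [h5])]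
          · rw [if_neg h5, if_neg fun h6 => h5 (congrArg Prod.fst h6)]
        have e2 : (if ((eb e, true) : FKI.V × Bool) = (w, false) then (1 : ZMod 2) else 0) = 0 :=
          if_neg fun h6 => by
            have h7 : true = false := congrArg Prod.snd h6
            exact Bool.noConfusion h7
        rw [e1, e2]
        ring
    · refine ⟨c, h1, fun w => ?_, fun w hw => ?_⟩
      · rw [h2, he1]
      · rw [h3 w hw, he1]
        have e1 : (if v = (w, false) then (1 : ZMod 2) else 0) = 0 :=
          if_neg fun h6 => he2 (by rw [h6]; exact hw)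
        have e2 : (if ((v.1, !v.2) : FKI.V × Bool) = (w, false) then (1 : ZMod 2) else 0) = 0 :=
          if_neg fun h6 => he2 (by rw [show v.1 = w from congrArg Prod.fst h6]; exact hw)
        rw [e1, e2]

theorem AF_not {n m k l : ℕ} (hl : 1 ≤ l) (hm : n ≤ m) (hk : 2 * k < n) (hlk : l ≤ k) {α : Pat (2 * n)} {ω : Finset Edge}
    (hW : WL l l (pup n m α ω) (plo n m α ω)) {a a' : ℤ} {b b' : Bool} (h : PSec l a b) (h' : PSec l a' b')
    (hne : (a, b) ≠ (a', b')) (haa : a ≤ a') : ¬ HB n l k ω ((a, -a), b) ((a', -a'), b') := by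
  intro hh
  obtain ⟨c, h1, h2, h3⟩ := hb_chain hh
  obtain ⟨e1, e2⟩ := pot_row hl hm hk hlk hW h.1 haa h'.2.1 h1 h2
  subst e1
  have hb : b ≠ b' := fun hb => hne (by rw [hb])
  have ha : 1 ≤ a ∧ 2 * a + 1 ≤ l := by
    cases b
    · cases b'
      · exact absurd rfl hb
      · exact h'.2.2 rfl
    · exact h.2.2 rfl
  have hs : SpV n l (a, -a) := by
    refine (spV_iff hk hlk ?_).2 ⟨?_, ha.1, ha.2⟩
    · show max |a| |(-a)| ≤ (k : ℤ)
      rw [abs_neg, max_self, abs_of_nonneg (by omega)]
      omega
    · show a + -a = 0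
      omega
  have h4 := h3 (a, -a) hs
  have h5 := e2 a ha.1 ha.2
  rw [h5] at h4
  cases b <;> cases b'
  · exact hb rfl
  · rw [if_pos rfl, if_neg (by simp)] at h4
    exact absurd h4 (by decide)
  · rw [if_neg (by simp), if_pos rfl] at h4
    exact absurd h4 (by decide)
  · exact hb rfl

theorem hb_not {n m k l : ℕ} (hl : 1 ≤ l) (hm : n ≤ m) (hk : 2 * k < n) (hlk : l ≤ k) {α : Pat (2 * n)} {ω : Finset Edge}
    (hW : WL l l (pup n m α ω) (plo n m α ω)) {a a' : ℤ} {b b' : Bool} (h : PSec l a b) (h' : PSec l a' b')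
    (hne : (a, b) ≠ (a', b')) : ¬ HB n l k ω ((a, -a), b) ((a', -a'), b') := by
  rcases le_total a a' with haa | haa
  · exact AF_not hl hm hk hlk hW h h' hne haa
  · intro hh
    exact AF_not hl hm hk hlk hW h' h hne.symm haa (hb_symm hh)

end CY
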