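import Pool.Agent.Lib.MP_216314_pr.EV.AB
import Pool.Agent.Lib.MP_216314_pr.N.EG
import Pool.Agent.Lib.MP_216314_pr.N.DTopA

/-!
# A dual path across the annulus

`dre_far`: as `far_of_W4` (N/EG) for faces: `R k' y = ∃ f : V, DRe n ω f ∧ f.1 - f.2 - 1 = ...`: the odd face `(k', y)` of the cylinder is the face `f = ((y + k' - 1) / 2, (y - k' - 1) / 2)` of `ℤ²`, i.e.
`f.1 + f.2 + 1 = y` and `f.1 - f.2 = k'`. So `R k' y = ∃ f, DRe n ω f ∧ f.1 - f.2 = k' ∧ f.1 + f.2 + 1 = y`; `k' + y` is odd. `Rl = Ru = R`. Tile `(k', y)`, `k' + y` even, `¬ DG`: `e = te k' y = (x, y0, false)`,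
`x = (k' + y) / 2`, `y0 = (y - k') / 2`, `red n e ∉ ω`, the ends of `FKN.dl e` are `(x, y0 - 1)` (the face `(k' + 1, y)`) and `(x, y0)` (the face `(k', y + 1)`). `k' + y` odd, `DG`: `red n e ∉ ω`, `e = te k' y = (x, y0, true)`,
`x = (k' + y + 1) / 2`, `y0 = (y - k' - 1) / 2`, the ends of `FKN.dl e` are `(x - 1, y0)` (the face `(k', y)`) and `(x, y0)` (the face `(k' + 1, y + 1)`). In the other cases both sides are false (parity).
The start `(0, -1)` is the gap `1` (`R 1 0`), `0 ≤ 1 ≤ l`; `far_gapl` for `(true, 1)`. If all `f` with `DRe n ω f` satisfy `lvf f ≤ 2 k - 1`, then `R k' y` gives `|k'| ≤ 2 k`, `|y| ≤ 2 k + 1 ≤ n`...: contradiction to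
`w.2 ≤ l - 2 n` or `w.2 ≥ 2 n`. (`lvf f = max |2 f.1 + 1| |2 f.2 + 1|`, always odd.)
`lvf_step`: along an edge `lvf` changes by at most `2` (`AP1_dl_true`, `AP1_dl_false` in N/AP1 or direct).
`dual_cross`: (1) by induction on the path from `(0, -1)` (`lvf (0, -1) = 1 ≤ 2 r + 1`): for every `f` with `DRe n ω f`: either [there is `g` with `lvf g = 2 k + 1` satisfying the final conclusion], or [`lvf f ≤ 2 k - 1` and
(`lvf f ≤ 2 r - 1` or there is `f0` with `lvf f0 = 2 r + 1` and `(gr (dc (an r k) ω')).Reachable f0 f`)], `ω' = pull n (bx k) ω`. Step from `f` to `f'` (second alternative) across `e`, `red n e ∉ ω`: `lvf f' ≤ 2 k + 1`. If `lvf f' ≤ 2 r - 1`: fine.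
If `lvf f' = 2 r + 1`: take `f0 = f'` (if `r = k` this is the first alternative). If `lvf f' > 2 r + 1` then `lvf f ≥ 2 r + 1`, so `f0` exists for `f`, and `e ∈ an r k`: `e ∈ bx k` since `lvf f ≤ 2 k - 1` (an edge next to a face of level
`≤ 2 k - 1` is in `bx k`), `e ∉ bx r` since `lvf f' > 2 r + 1` (the faces next to an edge of `bx r` have level `≤ 2 r + 1`); `e ∉ ω'`; so `FKN.dl e ∈ dc (an r k) ω'` and the path is extended. (2) `dre_far` excludes that all `f` are in the second
alternative.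
-/

set_option autoImplicit false

noncomputable section

namespace CY

open Finset FKI FKP

theorem AG_le {f : FKI.V} {d : ℤ} : FKN.lvf f ≤ d ↔
    (-d ≤ 2 * f.1 + 1 ∧ 2 * f.1 + 1 ≤ d) ∧ (-d ≤ 2 * f.2 + 1 ∧ 2 * f.2 + 1 ≤ d) := by
  unfold FKN.lvf
  rw [max_le_iff, abs_le, abs_le]

theorem AG_odd (f : FKI.V) : FKN.lvf f % 2 = 1 := by
  unfold FKN.lvf
  rcases abs_cases (2 * f.1 + 1) with h1 | h1 <;> rcases abs_cases (2 * f.2 + 1) with h2 | h2 <;>
    rcases max_choice |2 * f.1 + 1| |2 * f.2 + 1| with h3 | h3 <;> rw [h3] <;> omega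

theorem AG_dl_true (x y : ℤ) :
    ea (FKN.dl (x, y, true)) = (x - 1, y) ∧ eb (FKN.dl (x, y, true)) = (x, y) := by
  refine ⟨rfl, ?_⟩
  show (x - 1 + 1, y) = (x, y)
  rw [sub_add_cancel]

theorem AG_dl_false (x y : ℤ) :
    ea (FKN.dl (x, y, false)) = (x, y - 1) ∧ eb (FKN.dl (x, y, false)) = (x, y) := by
  refine ⟨rfl, ?_⟩
  show (x, y - 1 + 1) = (x, y)
  rw [sub_add_cancel]

/-- the dual ends of an edge -/
def AG_end (e : Edge) (u v : FKI.V) : Prop :=
  (u = ea (FKN.dl e) ∧ v = eb (FKN.dl e)) ∨ (u = eb (FKN.dl e) ∧ v = ea (FKN.dl e))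

theorem AG_step {e : Edge} {u v : FKI.V} (h : AG_end e u v) : FKN.lvf v ≤ FKN.lvf u + 2 := by
  have h0 := AG_le.1 (le_refl (FKN.lvf u))
  rw [AG_le]
  obtain ⟨x, y, t⟩ := e
  rcases h with ⟨h1, h2⟩ | ⟨h1, h2⟩
  · cases t
    · rw [(AG_dl_false x y).1] at h1
      rw [(AG_dl_false x y).2] at h2
      rw [h2]
      generalize FKN.lvf u = c at h0 ⊢
      rw [h1] at h0
      dsimp only at h0 ⊢
      omega
    · rw [(AG_dl_true x y).1] at h1
      rw [(AG_dl_true x y).2] at h2
      rw [h2]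
      generalize FKN.lvf u = c at h0 ⊢
      rw [h1] at h0
      dsimp only at h0 ⊢
      omega
  · cases t
    · rw [(AG_dl_false x y).2] at h1
      rw [(AG_dl_false x y).1] at h2
      rw [h2]
      generalize FKN.lvf u = c at h0 ⊢
      rw [h1] at h0
      dsimp only at h0 ⊢
      omega
    · rw [(AG_dl_true x y).2] at h1
      rw [(AG_dl_true x y).1] at h2
      rw [h2]
      generalize FKN.lvf u = c at h0 ⊢
      rw [h1] at h0
      dsimp only at h0 ⊢
      omega

theorem AG_in {e : Edge} {u v : FKI.V} {k : ℕ} (h : AG_end e u v) (hu : FKN.lvf u ≤ 2 * k - 1) : e ∈ bx k := by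
  have h0 := AG_le.1 hu
  obtain ⟨x, y, t⟩ := e
  unfold bx
  rw [mem_box]
  rcases h with ⟨h1, -⟩ | ⟨h1, -⟩
  · cases t
    · rw [(AG_dl_false x y).1] at h1
      rw [h1] at h0
      left
      refine ⟨rfl, ?_⟩
      dsimp only at h0 ⊢
      omega
    · rw [(AG_dl_true x y).1] at h1
      rw [h1] at h0
      right
      refine ⟨rfl, ?_⟩
      dsimp only at h0 ⊢
      omega
  · cases t
    · rw [(AG_dl_false x y).2] at h1
      rw [h1] at h0
      left
      refine ⟨rfl, ?_⟩
      dsimp only at h0 ⊢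
      omega
    · rw [(AG_dl_true x y).2] at h1
      rw [h1] at h0
      right
      refine ⟨rfl, ?_⟩
      dsimp only at h0 ⊢
      omega

theorem AG_out {e : Edge} {u v : FKI.V} {r : ℕ} (h : AG_end e u v) (he : e ∈ bx r) :
    FKN.lvf v ≤ 2 * r + 1 := by
  rw [AG_le]
  obtain ⟨x, y, t⟩ := e
  unfold bx at he
  rw [mem_box] at he
  rcases h with ⟨-, h2⟩ | ⟨-, h2⟩
  · cases t
    · rw [(AG_dl_false x y).2] at h2
      rw [h2]
      simp only [Bool.false_eq_true, true_and, false_and, or_false] at he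
      dsimp only
      omega
    · rw [(AG_dl_true x y).2] at h2
      rw [h2]
      simp only [Bool.true_eq_false, true_and, false_and, false_or] at he
      dsimp only
      omega
  · cases t
    · rw [(AG_dl_false x y).1] at h2
      rw [h2]
      simp only [Bool.false_eq_true, true_and, false_and, or_false] at he
      dsimp only
      omega
    · rw [(AG_dl_true x y).1] at h2
      rw [h2]
      simp only [Bool.true_eq_false, true_and, false_and, false_or] at he
      dsimp only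
      omega

/-- the odd face `(k, y)` is reached by the dual path -/
def AG_R (n : ℕ) (ω : Finset Edge) (k y : ℤ) : Prop :=
  ∃ f : FKI.V, DRe n ω f ∧ f.1 - f.2 = k ∧ f.1 + f.2 + 1 = y

theorem AG_adj {n : ℕ} {ω : Finset Edge} {e : Edge} (he : red n e ∉ ω) {k y k' y' : ℤ}
    (h1 : (ea (FKN.dl e)).1 - (ea (FKN.dl e)).2 = k) (h2 : (ea (FKN.dl e)).1 + (ea (FKN.dl e)).2 + 1 = y)
    (h3 : (eb (FKN.dl e)).1 - (eb (FKN.dl e)).2 = k') (h4 : (eb (FKN.dl e)).1 + (eb (FKN.dl e)).2 + 1 = y') :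
    AG_R n ω k y ↔ AG_R n ω k' y' := by
  constructor
  · rintro ⟨f, hf, h5, h6⟩
    have h7 : f = ea (FKN.dl e) := Prod.ext (by omega) (by omega)
    exact ⟨eb (FKN.dl e), Relation.ReflTransGen.tail hf ⟨e, he, Or.inl ⟨h7, rfl⟩⟩, h3, h4⟩
  · rintro ⟨f, hf, h5, h6⟩
    have h7 : f = eb (FKN.dl e) := Prod.ext (by omega) (by omega)
    exact ⟨ea (FKN.dl e), Relation.ReflTransGen.tail hf ⟨e, he, Or.inr ⟨h7, rfl⟩⟩, h1, h2⟩

theorem AG_par {n : ℕ} {ω : Finset Edge} {k y : ℤ} (h : AG_R n ω k y) : (k + y) % 2 = 1 := by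
  obtain ⟨f, _, h1, h2⟩ := h
  omega

theorem AG_diag (n : ℕ) (ω : Finset Edge) (k y : ℤ) :
    (DG n ω k y → (AG_R n ω k y ↔ AG_R n ω (k + 1) (y + 1))) ∧
    (¬ DG n ω k y → (AG_R n ω k (y + 1) ↔ AG_R n ω (k + 1) y)) := by
  by_cases hp : (k + y) % 2 = 0
  · constructor
    · intro _
      constructor
      · intro h
        have := AG_par h
        omega
      · intro h
        have := AG_par h
        omega
    · intro hd
      have he : red n (te k y) ∉ ω := fun hc => hd ⟨fun _ => hc, fun _ => hp⟩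
      rw [te_even hp] at he
      refine (AG_adj he ?_ ?_ ?_ ?_).symm
      · rw [(AG_dl_false _ _).1]
        dsimp only
        omega
      · rw [(AG_dl_false _ _).1]
        dsimp only
        omega
      · rw [(AG_dl_false _ _).2]
        dsimp only
        omega
      · rw [(AG_dl_false _ _).2]
        dsimp only
        omega
  · constructor
    · intro hd
      have he : red n (te k y) ∉ ω := fun hc => hp (hd.2 hc)
      rw [te_odd hp] at he
      refine AG_adj he ?_ ?_ ?_ ?_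
      · rw [(AG_dl_true _ _).1]
        dsimp only
        omega
      · rw [(AG_dl_true _ _).1]
        dsimp only
        omega
      · rw [(AG_dl_true _ _).2]
        dsimp only
        omega
      · rw [(AG_dl_true _ _).2]
        dsimp only
        omega
    · intro _
      constructor
      · intro h
        have := AG_par h
        omega
      · intro h
        have := AG_par h
        omega

theorem dre_far {n m l k : ℕ} (hl : 1 ≤ l) (hm : n ≤ m) (hk : 2 * k < n) (hlk : l ≤ k) {α : Pat (2 * n)} {ω : Finset Edge}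
    (hW : WL l l (pup n m α ω) (plo n m α ω)) : ∃ f : FKI.V, DRe n ω f ∧ 2 * (k : ℤ) + 1 ≤ FKN.lvf f := by
  by_contra hc
  push Not at hc
  have bd : ∀ k' y : ℤ, AG_R n ω k' y → -(2 * (k : ℤ)) ≤ k' ∧ k' ≤ 2 * k ∧ -(2 * (k : ℤ)) ≤ y ∧ y ≤ 2 * k := by
    rintro k' y ⟨f, hf, h1, h2⟩
    have h3 := AG_le.1 (Int.le_of_lt_add_one (hc f hf))
    omega
  have bot : ∀ k' : ℤ, ¬ AG_R n ω k' (-(2 * (m : ℤ))) := by
    intro k' hk'
    have := bd _ _ hk'
    omega
  have top : ∀ k' : ℤ, ¬ AG_R n ω k' (2 * (m : ℤ)) := by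
    intro k' hk'
    have := bd _ _ hk'
    omega
  have hR : AG_R n ω 1 0 := ⟨(0, -1), Relation.ReflTransGen.refl, by norm_num, by norm_num⟩
  obtain ⟨w, hw1, hw2⟩ := far_gapl hl (by omega) hW true (g := 1) (by norm_num) (by exact_mod_cast hl)
  have h1 := gcl_iff (n := n) (m := m) (α := α) (ω := ω) (by omega) (Rl := AG_R n ω) (Ru := AG_R n ω)
    bot (fun k' y _ _ => AG_diag n ω k' y) top (fun k' y _ _ => AG_diag n ω k' y) (fun _ _ => Iff.rfl) hw1
  rw [ite_self, ite_self] at h1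
  have h2 := bd _ _ (h1.1 hR)
  push_cast at hw2
  omega

theorem dual_cross {n m l k r : ℕ} (hl : 1 ≤ l) (hm : n ≤ m) (hk : 2 * k < n) (hlk : l ≤ k) (hrk : r ≤ k) {α : Pat (2 * n)}
    {ω : Finset Edge} (hW : WL l l (pup n m α ω) (plo n m α ω)) :
    ∃ f g : FKI.V, FKN.lvf f = 2 * r + 1 ∧ FKN.lvf g = 2 * k + 1 ∧
      (gr (FKN.dc (FKN.an r k) (pull n (bx k) ω))).Reachable f g := by
  obtain ⟨Γ, hΓ⟩ : ∃ Γ, Γ = gr (FKN.dc (FKN.an r k) (pull n (bx k) ω)) := ⟨_, rfl⟩
  have hk1 : 1 ≤ k := hl.trans hlk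
  have key : ∀ f : FKI.V, DRe n ω f →
      (∃ f0 g : FKI.V, FKN.lvf f0 = 2 * r + 1 ∧ FKN.lvf g = 2 * k + 1 ∧ Γ.Reachable f0 g) ∨
      (FKN.lvf f ≤ 2 * k - 1 ∧ (FKN.lvf f ≤ 2 * r - 1 ∨
        ∃ f0 : FKI.V, FKN.lvf f0 = 2 * r + 1 ∧ Γ.Reachable f0 f)) := by
    intro f hf
    induction hf with
    | refl =>
      have h1 : FKN.lvf ((0, -1) : FKI.V) = 1 := by
        unfold FKN.lvf
        norm_num
      right
      refine ⟨by rw [h1]; omega, ?_⟩
      rcases Nat.eq_zero_or_pos r with h2 | h2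
      · right
        refine ⟨(0, -1), ?_, SimpleGraph.Reachable.refl _⟩
        rw [h1, h2]
        norm_num
      · left
        rw [h1]
        omega
    | @tail f f' _ hstep ih =>
      rcases ih with ih | ⟨h1, h2⟩
      · exact Or.inl ih
      · obtain ⟨e, he, hends⟩ := hstep
        have hends' : AG_end e f f' := hends
        have h3 := AG_step hends'
        have h4 := AG_odd f'
        have h5 := AG_odd f
        rcases lt_trichotomy (FKN.lvf f') (2 * r + 1) with h6 | h6 | h6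
        · right
          exact ⟨by omega, Or.inl (by omega)⟩
        · rcases Nat.lt_or_ge r k with h7 | h7
          · right
            exact ⟨by omega, Or.inr ⟨f', h6, SimpleGraph.Reachable.refl _⟩⟩
          · left
            have h8 : r = k := le_antisymm hrk h7
            exact ⟨f', f', h6, by rw [h6, h8], SimpleGraph.Reachable.refl _⟩
        · have h7 : ¬ FKN.lvf f ≤ 2 * r - 1 := by omega
          obtain ⟨f0, h8, h9⟩ := h2.resolve_left h7
          have hek : e ∈ bx k := AG_in hends' h1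
          have her : e ∉ bx r := fun hc => by
            have := AG_out hends' hc
            omega
          have hd : FKN.dl e ∈ FKN.dc (FKN.an r k) (pull n (bx k) ω) := by
            unfold FKN.dc
            rw [mem_map_equiv, Equiv.symm_apply_apply, mem_sdiff]
            refine ⟨?_, fun hc => he (mem_pull.1 hc).2⟩
            exact mem_sdiff.2 ⟨hek, her⟩
          have hadj : Γ.Reachable f f' := by
            rw [hΓ]
            have h10 : Conn (FKN.dc (FKN.an r k) (pull n (bx k) ω)) (FKN.dc (FKN.an r k) (pull n (bx k) ω)) f f' := by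
              refine pexit_edge hd hd ?_
              rcases hends' with ⟨a1, a2⟩ | ⟨a1, a2⟩
              · exact Or.inl ⟨a1.symm, a2.symm⟩
              · exact Or.inr ⟨a2.symm, a1.symm⟩
            exact h10.reach
          have h11 := h9.trans hadj
          by_cases h12 : FKN.lvf f' = 2 * k + 1
          · exact Or.inl ⟨f0, f', h8, h12, h11⟩
          · right
            exact ⟨by omega, Or.inr ⟨f0, h8, h11⟩⟩
  obtain ⟨f, hf1, hf2⟩ := dre_far hl hm hk hlk hW
  rw [← hΓ]
  rcases key f hf1 with h | ⟨h, -⟩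
  · exact h
  · omega

end CY
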