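import Pool.Agent.Lib.MP_216314_pr.EV.Def
import Pool.Agent.Lib.MP_216314_pr.EV.AD
import Pool.Agent.Lib.MP_216314_pr.EV.AE
import Pool.Agent.Lib.MP_216314_pr.EV.AF
import Pool.Agent.Lib.MP_216314_pr.EV.AG
import Pool.Agent.Lib.MP_216314_pr.N.NBase

/-!
# From the cylinder to the plane: `2 l` arms, lower bound

`cl_of_wg`: sectors `sec i = (i, false)` for `i ≤ l / 2`, `(i - l / 2, true)` for `l / 2 < i < l`; all are `PSec`, and they are different. For every `i` with `(a, b) = sec i`: `sn (a, -a) ≤ l / 2 ≤ r` (`r = l + 2`), `hr_far`, `hb_first`,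
`hb_last`, `hb_side`: a vertex `u i` with `sn (u i) = r`, `HB n l k ω ((a, -a), b) (u i, false)`, and a vertex `w` with `sn w = k`, `Conn (an r k) (pull n (bx k) ω) (u i) w` (choice). If `Conn (an r k) _ (u i) (u j)`, `i ≠ j`, then
`hb_of_conn`, `hb_symm` give `HB n l k ω (sec i) (sec j)`: contradiction to `hb_not`. The dual path: `dual_cross`. (`nrm v = sn v`, `FKN.bx k = bx k` by `rfl`.)
`wg_le`: `Pr_mono`, `Pr_pull_bx`, `Pr_dep` (`Cl l r k ω` depends only on `an r k ⊆ bx k`: `Conn (an r k) ω = Conn (an r k) (ω ∩ an r k)`, `dc (an r k) ω = dc (an r k) (ω ∩ an r k)`; see `EH_dep` in N/EH), `pr_half` (N/NBase).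
-/

set_option autoImplicit false

noncomputable section

namespace EV

open Finset FKI FKP FKN CY

/-- the primal sector number `i` -/
def AH_sec (l i : ℕ) : ℤ × Bool :=
  if i ≤ l / 2 then ((i : ℤ), false) else (((i - l / 2 : ℕ) : ℤ), true)

theorem AH_psec {l i : ℕ} (hi : i < l) : PSec l (AH_sec l i).1 (AH_sec l i).2 := by
  unfold AH_sec
  by_cases h : i ≤ l / 2
  · rw [if_pos h]
    refine ⟨by omega, by omega, fun h1 => ?_⟩
    exact absurd (show false = true from h1) (by decide)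
  · rw [if_neg h]
    refine ⟨by omega, ?_, fun _ => ⟨?_, ?_⟩⟩
    · show 2 * ((i - l / 2 : ℕ) : ℤ) ≤ l
      omega
    · show 1 ≤ ((i - l / 2 : ℕ) : ℤ)
      omega
    · show 2 * ((i - l / 2 : ℕ) : ℤ) + 1 ≤ l
      omega

theorem AH_inj {l i j : ℕ} (h : AH_sec l i = AH_sec l j) : i = j := by
  unfold AH_sec at h
  by_cases hi : i ≤ l / 2
  · by_cases hj : j ≤ l / 2
    · rw [if_pos hi, if_pos hj] at h
      have h1 : (i : ℤ) = (j : ℤ) := congrArg Prod.fst h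
      omega
    · rw [if_pos hi, if_neg hj] at h
      have h1 : false = true := congrArg Prod.snd h
      exact absurd h1 (by decide)
  · by_cases hj : j ≤ l / 2
    · rw [if_neg hi, if_pos hj] at h
      have h1 : true = false := congrArg Prod.snd h
      exact absurd h1 (by decide)
    · rw [if_neg hi, if_neg hj] at h
      have h1 : ((i - l / 2 : ℕ) : ℤ) = ((j - l / 2 : ℕ) : ℤ) := congrArg Prod.fst h
      omega

theorem AH_sn {a : ℤ} (ha : 0 ≤ a) : sn ((a, -a) : FKI.V) = a := by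
  unfold sn
  show max |a| |-a| = a
  rw [abs_neg, max_self, abs_of_nonneg ha]

theorem AH_arm {l n m k : ℕ} (hl : 1 ≤ l) (hk : l + 2 ≤ k) (hkn : 2 * k < n) (hm : n ≤ m) {α : Pat (2 * n)} {ω : Finset Edge}
    (h : WL l l (pup n m α ω) (plo n m α ω)) {a : ℤ} {b : Bool} (hp : PSec l a b) :
    ∃ u : FKI.V, sn u = ((l + 2 : ℕ) : ℤ) ∧ HB n l k ω ((a, -a), b) (u, false) ∧
      ∃ w : FKI.V, sn w = (k : ℤ) ∧ Conn (FKN.an (l + 2) k) (pull n (FKP.bx k) ω) u w := by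
  obtain ⟨ha, ha', -⟩ := hp
  obtain ⟨w, hw, hfar⟩ := hr_far hl (by omega) hm h ha ha' b
  have hsn : sn ((a, -a) : FKI.V) = a := AH_sn ha
  obtain ⟨c, hc, hbc⟩ := hb_first (l := l) hkn (u0 := ((a, -a), b)) (by
    show sn ((a, -a) : FKI.V) ≤ (k : ℤ)
    omega) hw hfar
  obtain ⟨u, b', hu, hub, hcon⟩ := hb_last (n := n) (l := l) (r := l + 2) hk (u0 := ((a, -a), b)) (by
    show sn ((a, -a) : FKI.V) ≤ ((l + 2 : ℕ) : ℤ)
    omega) hbc (by omega)
  exact ⟨u, hu, hb_side hkn (by omega) hk hu hub false, c.1, hc, hcon⟩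

theorem cl_of_wg {l n m k : ℕ} (hl : 1 ≤ l) (hk : l + 2 ≤ k) (hkn : 2 * k < n) (hm : n ≤ m) {α : Pat (2 * n)} {ω : Finset Edge}
    (h : Wg l n m α ω) : Cl l (l + 2) k (pull n (FKN.bx k) ω) := by
  have hex : ∀ i : Fin l, ∃ u : FKI.V, sn u = ((l + 2 : ℕ) : ℤ) ∧
      HB n l k ω (((AH_sec l i).1, -(AH_sec l i).1), (AH_sec l i).2) (u, false) ∧
      ∃ w : FKI.V, sn w = (k : ℤ) ∧ Conn (FKN.an (l + 2) k) (pull n (FKP.bx k) ω) u w :=
    fun i => AH_arm hl hk hkn hm h (AH_psec i.2)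
  choose u hu1 hu2 hu3 using hex
  refine ⟨⟨u, fun i => ⟨hu1 i, hu3 i⟩, ?_⟩, ?_⟩
  · intro i j hij hc
    have h1 : HB n l k ω (u i, false) (u j, false) := hb_of_conn hkn (by omega) hk (hu1 i) hc
    have h2 := Relation.ReflTransGen.trans (Relation.ReflTransGen.trans (hu2 i) h1) (hb_symm (hu2 j))
    refine hb_not hl hm hkn (by omega) h (AH_psec i.2) (AH_psec j.2) ?_ h2
    intro h3
    exact hij (Fin.ext (AH_inj h3))
  · exact dual_cross hl hm hkn (by omega) hk h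

theorem AH_dep (l r n : ℕ) : Dep (FKN.an r n) (Cl l r n) := by
  intro ω
  have h1 : ∀ u v : FKI.V, Conn (FKN.an r n) ω u v ↔ Conn (FKN.an r n) (ω ∩ FKN.an r n) u v :=
    fun u v => dep_Conn (Finset.Subset.refl _) u v ω
  have h2 : FKN.dc (FKN.an r n) (ω ∩ FKN.an r n) = FKN.dc (FKN.an r n) ω := by
    unfold FKN.dc
    have h3 : FKN.an r n \ (ω ∩ FKN.an r n) = FKN.an r n \ ω := by
      ext e
      rw [mem_sdiff, mem_sdiff, mem_inter]
      constructor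
      · rintro ⟨h4, h5⟩
        exact ⟨h4, fun h6 => h5 ⟨h6, h4⟩⟩
      · rintro ⟨h4, h5⟩
        exact ⟨h4, fun h6 => h5 h6.1⟩
    rw [h3]
  unfold Cl
  rw [h2]
  constructor
  · rintro ⟨⟨u, hu, hn⟩, hd⟩
    refine ⟨⟨u, fun i => ⟨(hu i).1, ?_⟩, fun i j hij hc => hn i j hij ((h1 _ _).2 hc)⟩, hd⟩
    obtain ⟨w, hw, hc⟩ := (hu i).2
    exact ⟨w, hw, (h1 _ _).1 hc⟩
  · rintro ⟨⟨u, hu, hn⟩, hd⟩
    refine ⟨⟨u, fun i => ⟨(hu i).1, ?_⟩, fun i j hij hc => hn i j hij ((h1 _ _).1 hc)⟩, hd⟩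
    obtain ⟨w, hw, hc⟩ := (hu i).2
    exact ⟨w, hw, (h1 _ _).2 hc⟩

/-- lower bound: the `2 l` arms of the cylinder give `2 l` arms of the annulus -/
theorem wg_le {l n m k : ℕ} (hl : 1 ≤ l) (hk : l + 2 ≤ k) (hkn : 2 * k < n) (hm : n ≤ m) (α : Pat (2 * n)) :
    FKP.Pr (cylE n m) (Wg l n m α) ≤ pil l (l + 2) k := by
  have h1 : FKP.Pr (cylE n m) (Wg l n m α) ≤
      FKP.Pr (cylE n m) (fun ω => Cl l (l + 2) k (pull n (FKP.bx k) ω)) :=
    Pr_mono fun ω _ h => cl_of_wg hl hk hkn hm h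
  have h2 : FKP.Pr (FKP.bx k) (Cl l (l + 2) k) = FKP.Pr (FKN.an (l + 2) k) (Cl l (l + 2) k) :=
    Pr_dep Finset.sdiff_subset (AH_dep l (l + 2) k)
  rw [Pr_pull_bx hkn hm, h2, pr_half (FKN.an (l + 2) k)] at h1
  exact h1

end EV
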