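import Pool.Agent.Lib.MP_216314_pr.EV.Def

/-!
# Even arms, part B: definitions

The diagram of two patterns `P` (nodes `(false, x)`) and `Q` (nodes `(true, x)`); the sites `0, .., l-1` modulo the period are legs, the others are glued.
`BNSt`, `BNCp`: steps between nodes, connection of nodes. The gap `g` is between the sites `g - 1` and `g`; the gaps `1, .., l-1` modulo the period
are cut (`BCut`). `BGSt`, `BGC`: steps between gaps, connection of gaps. `BInG .. u b k y`: the face `(k, y)`, seen from the side `b` of the row `0`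
(`true`: below), is connected to the gap `u`; `BInF`: from one of the sides.
`HP`, `HD`: lifted open edges and dual edges crossing lifted closed edges outside of the copies of the hole `bx R`. `TE`: every seed is connected outside of the
holes to a seed of a neighbouring copy. `Fil`: in the hole the horizontal edges are open and the vertical edges are closed.
`cX`, `cY`: the corridor `θ ∈ [1,5]`, a polygon with five sides `s ∈ [0,1], [1,2], ...` from `(gw θ, gw (θ-2))` to `(gw θ - 12, 12 - gw (θ-2))`;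
`cc l n t j`: the centres along the corridor `t = 0, .., l` at scale `n`; `Lc l n c`: the circuits along the corridors of the colour `c` (`0`: open, `1`: dual).
-/

set_option autoImplicit false

noncomputable section

namespace EV

open Finset FKI FKP FKN CY

/-- steps along the strands of the diagram -/
def BNSt (l : ℕ) {L : ℕ} (P Q : Pat L) (u v : Bool × ℤ) : Prop :=
  (u.1 = true ∧ v = (true, Q.f u.2)) ∨ (u.1 = false ∧ v = (false, P.f u.2)) ∨ ((l : ℤ) ≤ u.2 % (L : ℤ) ∧ v = (!u.1, u.2))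

/-- connection of nodes -/
def BNCp (l : ℕ) {L : ℕ} (P Q : Pat L) : Bool × ℤ → Bool × ℤ → Prop := Relation.ReflTransGen (BNSt l P Q)

/-- the gap `g` is cut -/
def BCut (l L : ℕ) (g : ℤ) : Prop := 1 ≤ g % (L : ℤ) ∧ g % (L : ℤ) < l

/-- steps between the gaps -/
def BGSt (l : ℕ) {L : ℕ} (P Q : Pat L) (u v : Bool × ℤ) : Prop :=
  (u.1 = true ∧ v.1 = true ∧ Reg Q u.2 v.2) ∨ (u.1 = false ∧ v.1 = false ∧ Reg P u.2 v.2) ∨ (v.2 = u.2 ∧ ¬ BCut l L u.2)

/-- connection of gaps -/
def BGC (l : ℕ) {L : ℕ} (P Q : Pat L) : Bool × ℤ → Bool × ℤ → Prop := Relation.EqvGen (BGSt l P Q)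

/-- the face `(k, y)`, seen from the side `b` of the row `0`, is connected to the gap `u` -/
def BInG (l n m : ℕ) (α : Pat (2 * n)) (ω : Finset Edge) (u : Bool × ℤ) (b : Bool) (k y : ℤ) : Prop :=
  ∃ g : ℤ, BGC l (pup n m α ω) (plo n m α ω) u (b, g) ∧
    ((b = true ∧ -(2 * (m : ℤ)) ≤ y ∧ y ≤ 0 ∧
      Relation.EqvGen (FE (Reg α) (2 * n) (tlo n m ω) (2 * m)) (g, 2 * m) (k, (y + 2 * m).toNat)) ∨
    (b = false ∧ 0 ≤ y ∧ y ≤ 2 * m ∧
      Relation.EqvGen (FE (Reg α) (2 * n) (tup n m ω) (2 * m)) (g, 2 * m) (k, (2 * m - y).toNat)))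

/-- the face `(k, y)` is connected to the gap `u` -/
def BInF (l n m : ℕ) (α : Pat (2 * n)) (ω : Finset Edge) (u : Bool × ℤ) (k y : ℤ) : Prop :=
  BInG l n m α ω u true k y ∨ BInG l n m α ω u false k y

/-- the edge is in a copy of the hole -/
def InHole (R N : ℕ) (e : Edge) : Prop := ∃ e' ∈ FKN.bx R, red N e' = red N e

/-- lifted open edges outside of the holes -/
def HP (R N : ℕ) (ω : Finset Edge) (e : Edge) : Prop := red N e ∈ ω ∧ ¬ InHole R N e

/-- dual edges crossing lifted closed edges outside of the holes -/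
def HD (R N m : ℕ) (ω : Finset Edge) (f : Edge) : Prop :=
  red N (dl.symm f) ∈ cylE N m ∧ red N (dl.symm f) ∉ ω ∧ ¬ InHole R N (dl.symm f)

/-- every seed is connected to a seed of a neighbouring copy -/
def TE (l R N m : ℕ) (ω : Finset Edge) : Prop :=
  (∀ i : Fin l, ∃ i' : Fin l, (lg (HP R N ω)).Reachable (sv l R i) (sv l R i' + ((N : ℤ), -(N : ℤ))) ∨
    (lg (HP R N ω)).Reachable (sv l R i') (sv l R i + ((N : ℤ), -(N : ℤ)))) ∧
  (∀ i : Fin l, ∃ i' : Fin l, (lg (HD R N m ω)).Reachable (sf l R i) (sf l R i' + ((N : ℤ), -(N : ℤ))) ∨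
    (lg (HD R N m ω)).Reachable (sf l R i') (sf l R i + ((N : ℤ), -(N : ℤ))))

/-- the filling of the hole -/
def Fil (R N : ℕ) (ω : Finset Edge) : Prop := ∀ e ∈ FKN.bx R, (red N e ∈ ω ↔ e.2.2 = false)

/-- `s` cut off at `0` and `1` -/
def c01 (s : ℝ) : ℝ := max 0 (min 1 s)

/-- the corridor, first coordinate -/
def cX (θ s : ℝ) : ℝ := gw θ + (3 - θ - gw θ) * c01 s - 12 * c01 (s - 2) + (gw θ - (3 - θ)) * c01 (s - 4)

/-- the corridor, second coordinate -/
def cY (θ s : ℝ) : ℝ := gw (θ - 2) + (9 - θ - gw (θ - 2)) * c01 (s - 1) + (3 + θ - gw (θ - 2)) * c01 (s - 3)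

/-- the angle of the corridor `t` -/
def th (l t : ℕ) : ℝ := 1 + 4 * (t : ℝ) / l

/-- the centres of the circuits along the corridor `t` -/
def cc (l n t j : ℕ) : FKI.V :=
  (round ((n : ℝ) * cX (th l t) ((j : ℝ) / (600 * l))), round ((n : ℝ) * cY (th l t) ((j : ℝ) / (600 * l))))

/-- the circuits along the corridors of the colour `c` -/
def Lc (l n c : ℕ) : Finset (FKI.V × ℤ) :=
  ((range (l + 1)).filter (fun t => t % 2 = c)).biUnion fun t => (range (3000 * l + 1)).image fun j => (cc l n t j, (rr l n : ℤ))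

/-- the region of the open arms -/
def Bp (l R n : ℕ) : Finset Edge := (FKN.bx (n - 5 * rr l n) \ FKN.bx R) ∪ bxs (cO l n) (10 * rr l n)
/-- the region of the dual arms -/
def Bm (l R n : ℕ) : Finset Edge := (FKN.bx (n - 5 * rr l n) \ FKN.bx R) ∪ ud (bxs (cD l n) (10 * rr l n))

end EV
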