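import Pool.Agent.Lib.MP_216314_pr.EV.BPb
import Pool.Agent.Lib.MP_216314_pr.N.E3J
import Pool.Agent.Lib.MP_216314_pr.N.E3P
import Pool.Agent.Lib.MP_216314_pr.N.DStA

/-!
# From the canonical state to the connections of the seeds

PROOFS. Adaptation of `N/E3S.lean` (completely formalised for two arms). `wE_eq`: as `wO_eq`: `Pr_pull_bx` (Cy/CyC) with `k = 2 n`, `2 (2 n) < 12 n`, `12 n ≤ m`; `CanO_region` (DStA) with `X0 = bx R ⊆ bx n`; `pull_big`, `pd_big` (E3I). `wE l R n = Pr (bx (2 n)) (CanO l (bx R) (SpE l R) (SmE l R) n)` (EV/Def), `CanO`, `StE` unfold to the two `StG` with the regions `Bp l R n`, `Bm l R n`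
(`FKP.bx` and `FKN.bx` are the same by `rfl`).
`Lc_card`: `card_biUnion_le`, `card_image_le`, `card_filter_le`: at most `(l + 1) (3000 l + 1)`.
`wE_TE`: `c` from `rb_half` (E3P). `cyl_fkg` (E3I) with `N = 12 n`, `Fp = Bp l R n`, `Fm = Bm l R n`, `Np = RN (Lc l n 0)`, `Nm = ud (RN (Lc l n 1))`, `A = StG (SpE l R) (ringT (cO l n) (rr l n))`, `B = Rings (Lc l n 0)`, `D = StG (SmE l R) (ringT (cD l n) (rr l n))`, `B' = Rings (Lc l n 1)`; increasing by `StG_inc`, `ringT_inc` (DStA), `Rings_inc` (DRgC) and the monotonicity of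
the sources (`nearS` does not depend on the configuration: `SpE_inc`, here); disjointness `bdis_pm`, `bdis_dp`, `bdis_od`, heights `bin_cyl` (BGd). The first factor is `wE l R n` (`wE_eq`); the second is `≥ c ^ (4 * (Lc l n 0).card) ≥ c ^ (4 * M)`, `M = (l + 1) (3000 l + 1)` (`cyl_rings` with `r = rr l n`: `1 ≤ rr l n`, `6 rr l n + 3 ≤ 12 n`; every `p ∈ Lc l n c` has `p.2 = rr l n`),
the third `≥ c ^ (4 * M)` (`cyl_rings_d`). The right side is `≤ Pr TE` (`Pr_mono`, `te_of_events`). So `C = (c ^ (8 * M))⁻¹`.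
-/

set_option autoImplicit false

noncomputable section

namespace EV

open Finset FKI FKP FKN CY

theorem SpE_inc (l R : ℕ) : (∀ ω ω' s, ω ⊆ ω' → SpE l R ω s → SpE l R ω' s) ∧ (∀ ω ω' s, ω ⊆ ω' → SmE l R ω s → SmE l R ω' s) :=
  ⟨fun _ _ _ _ h => h, fun _ _ _ _ h => h⟩

theorem Lc_card (l n c : ℕ) : (Lc l n c).card ≤ (l + 1) * (3000 * l + 1) ∧ ∀ p ∈ Lc l n c, p.2 = (rr l n : ℤ) := by
  unfold Lc
  constructor
  · refine (Finset.card_biUnion_le_card_mul _ _ (3000 * l + 1) fun t _ => ?_).trans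
      (Nat.mul_le_mul_right _ ((Finset.card_filter_le _ _).trans_eq (Finset.card_range _)))
    exact Finset.card_image_le.trans_eq (Finset.card_range _)
  · intro p hp
    obtain ⟨t, -, hp⟩ := Finset.mem_biUnion.1 hp
    obtain ⟨j, -, rfl⟩ := Finset.mem_image.1 hp
    rfl

theorem wE_eq {l R n m : ℕ} (hl : 1 ≤ l) (hn : 400 * l ≤ n) (hR : 2 * R ≤ n) (hm : 20 * n ≤ m) :
    wE l R n = Pr (cylE (12 * n) m) (fun ω => StG (SpE l R) (ringT (cO l n) (rr l n)) (pull (12 * n) (Bp l R n) ω) ∧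
      StG (SmE l R) (ringT (cD l n) (rr l n)) (pd (12 * n) (Bm l R n) ω)) := by
  have h1 : wE l R n = Pr (FKP.bx (2 * n)) (CanO l (FKN.bx R) (SpE l R) (SmE l R) n) := (pr_half _ _).symm
  rw [h1, ← Pr_pull_bx (n := 12 * n) (m := m) (k := 2 * n) (by omega) (by omega)]
  have hreg : Bp l R n ∪ Bm l R n ⊆ FKP.bx (2 * n) := CanO_region hl (FKN.bx R) n (FKN.bx_mono (by omega))
  refine Pr_congr fun ω _ => ?_
  have e1 : pull (12 * n) (FKP.bx (2 * n)) ω ∩ Bp l R n = pull (12 * n) (Bp l R n) ω :=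
    pull_big (Finset.subset_union_left.trans hreg)
  have e2 : dc (Bm l R n) (pull (12 * n) (FKP.bx (2 * n)) ω) = pd (12 * n) (Bm l R n) ω :=
    pd_big (Finset.subset_union_right.trans hreg)
  rw [← e1, ← e2]
  exact Iff.rfl

theorem wE_TE {l : ℕ} (hl : 1 ≤ l) : ∃ C : ℝ, 0 < C ∧ ∀ R n m : ℕ, 400 * l ≤ n → 2 * R ≤ n → 20 * n ≤ m →
    wE l R n ≤ C * Pr (cylE (12 * n) m) (TE l R (12 * n) m) := by
  obtain ⟨c, hc0, hc1, hRB⟩ := rb_half
  obtain ⟨M, hM⟩ : ∃ M, M = (l + 1) * (3000 * l + 1) := ⟨_, rfl⟩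
  refine ⟨(c ^ (8 * M))⁻¹, inv_pos.2 (pow_pos hc0 _), fun R n m hn hR hm => ?_⟩
  have hpos : 0 < c ^ (8 * M) := pow_pos hc0 _
  rw [inv_mul_eq_div, le_div_iff₀ hpos]
  have hr : 1 ≤ rr l n := by
    unfold FKN.rr
    exact Nat.div_pos (by omega) (by omega)
  have hN : 6 * rr l n + 3 ≤ 12 * n := by
    have h1 : rr l n ≤ n := Nat.div_le_self _ _
    omega
  have h1 := cyl_rings hc0.le (hRB (rr l n)) hr hN (Lc l n 0) (Lc_card l n 0).2
    (fun e he => bin_cyl (R := R) (m := m) hl hn hm (Or.inr (Or.inr (Or.inl he))))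
  have h2 := cyl_rings_d hc0.le (hRB (rr l n)) hr hN (Lc l n 1) (Lc_card l n 1).2
    (fun e he => bin_cyl (R := R) (m := m) hl hn hm (Or.inr (Or.inr (Or.inr he))))
  have h3 := cyl_fkg (N := 12 * n) (m := m) (Fp := Bp l R n) (Fm := Bm l R n) (Np := RN (Lc l n 0))
    (Nm := ud (RN (Lc l n 1))) (fun e he => bin_cyl hl hn hm (Or.inl he))
    (fun e he => bin_cyl hl hn hm (Or.inr (Or.inl he)))
    (fun e he => bin_cyl (R := R) hl hn hm (Or.inr (Or.inr (Or.inl he))))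
    (fun e he => bin_cyl (R := R) hl hn hm (Or.inr (Or.inr (Or.inr he))))
    (fun e he e' he' => bdis_pm hl hn he he') (fun e he e' he' => bdis_dp hl hn he he')
    (fun e he e' he' => bdis_od hl hn he he')
    (A := StG (SpE l R) (ringT (cO l n) (rr l n))) (B := Rings (Lc l n 0))
    (D := StG (SmE l R) (ringT (cD l n) (rr l n))) (B' := Rings (Lc l n 1))
    (StG_inc (fun ω ω' s => (SpE_inc l R).1 ω ω' s) (ringT_inc _ _)) (Rings_inc _)
    (StG_inc (fun ω ω' s => (SpE_inc l R).2 ω ω' s) (ringT_inc _ _)) (Rings_inc _)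
  have h4 : c ^ (4 * M) ≤ c ^ (4 * (Lc l n 0).card) :=
    pow_le_pow_of_le_one hc0.le hc1 (Nat.mul_le_mul_left 4 (hM ▸ (Lc_card l n 0).1))
  have h5 : c ^ (4 * M) ≤ c ^ (4 * (Lc l n 1).card) :=
    pow_le_pow_of_le_one hc0.le hc1 (Nat.mul_le_mul_left 4 (hM ▸ (Lc_card l n 1).1))
  have h7 : c ^ (8 * M) = c ^ (4 * M) * c ^ (4 * M) := by
    rw [← pow_add]
    exact congrArg (fun k => c ^ k) (by ring)
  have h0 : 0 ≤ wE l R n := by
    rw [wE_eq hl hn hR hm]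
    exact Pr_nonneg _ _
  rw [← wE_eq hl hn hR hm] at h3
  calc wE l R n * c ^ (8 * M)
      = wE l R n * c ^ (4 * M) * c ^ (4 * M) := by rw [h7, mul_assoc]
    _ ≤ wE l R n * Pr (cylE (12 * n) m) (fun ω => Rings (Lc l n 0) (pull (12 * n) (RN (Lc l n 0)) ω)) *
        Pr (cylE (12 * n) m) (fun ω => Rings (Lc l n 1) (pd (12 * n) (ud (RN (Lc l n 1))) ω)) := by
      refine mul_le_mul (mul_le_mul_of_nonneg_left (h4.trans h1) h0) (h5.trans h2)
        (pow_pos hc0 _).le (mul_nonneg h0 (Pr_nonneg _ _))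
    _ ≤ Pr (cylE (12 * n) m) (fun ω => (StG (SpE l R) (ringT (cO l n) (rr l n)) (pull (12 * n) (Bp l R n) ω) ∧
          Rings (Lc l n 0) (pull (12 * n) (RN (Lc l n 0)) ω)) ∧
          (StG (SmE l R) (ringT (cD l n) (rr l n)) (pd (12 * n) (Bm l R n) ω) ∧
          Rings (Lc l n 1) (pd (12 * n) (ud (RN (Lc l n 1))) ω))) := h3
    _ ≤ Pr (cylE (12 * n) m) (TE l R (12 * n) m) := by
      refine Pr_mono fun ω _ hω => ?_
      exact te_of_events hl hn hR hm hω.1.1 hω.1.2 hω.2.1 hω.2.2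

end EV
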