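import Pool.Agent.Lib.MP_216314_pr.EV.BTb
import Pool.Agent.Lib.MP_216314_pr.N.E3C

/-!
# Paths outside of the holes and the classes of the gaps

PROOFS. Adaptation of `N/E3C.lean` (completely formalised for two legs; the lemmas `E3C_walk`, `E3C_pe`, `E3C_de` there are private, copy them).
`hole_v`: `x + y = 0`, `c = (x - y) % (2 n)`, `1 ≤ c < l`, `x - y = c + 2 n j` (`j = (x - y) / (2 n)`); so `c` is even, `c = 2 i`, `0 ≤ i`, `2 i < l ≤ R`, `x = i + n j`, `y = - i - n j`. The edge `e' = (e.1 - j n, e.2.1 + j n, e.2.2)` has the end `(i, -i)`, so both ends have coordinates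
of absolute value `≤ i + 1 ≤ R`: `e' ∈ bx R = box (-R) R (-R) R` (`mem_box`), and `red n e' = red n e` by `red_shift` (Cy/CyA; `e = (e'.1 + j n, e'.2.1 - j n, e'.2.2)`).
`hole_f`: `x + y + 1 = 0`, `x - y = c + 2 n j`, `c = 2 i + 1`, `x = i + n j`, `y = - i - 1 - n j`; `ea (dl e) = (x, y)` or `eb (dl e) = (x, y)` says that `e` is one of the four edges of the unit square with the lower left corner `(x, y)` (cases on the last component of `e`, definition of `dl` in DDef: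
`e = (a, b, false)`: `dl e = (a, b - 1, true)`, ends `(a, b - 1)`, `(a, b)`; `e = (a, b, true)`: `dl e = (a - 1, b, false)`, ends `(a - 1, b)`, `(a, b)`), so its translate by `(-n j, n j)` has coordinates of absolute value `≤ i + 1 ≤ R`.
`bpathP`: walk induction (as `E3C_walk`); for an edge `e` with `HP R n ω e`: `red n e ∈ ω ⊆ cylE n m`, as `E3C_pe` with `bing_diag` instead of `inf_diag`; the ends `ea e`, `eb e` are not cut faces by `hole_v` (`¬ InHole R n e`). The ends are the faces `(x - y, x + y)`.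
`bpathD`: the same with `E3C_de`, `hole_f`.
-/

set_option autoImplicit false

noncomputable section

namespace EV

open Finset FKI FKP FKN CY

section

variable {l R n m : ℕ} {α : Pat (2 * n)} {ω : Finset Edge} {u : Bool × ℤ}

/-- a translate of the edge is in the box -/
private theorem BTc_in (hn : 1 ≤ n) {e : Edge} (j : ℤ) (h : (e.1 - j * n, e.2.1 + j * n, e.2.2) ∈ FKN.bx R) : InHole R n e := by
  refine ⟨_, h, ?_⟩
  have h1 := red_shift hn (e.1 - j * n, e.2.1 + j * n, e.2.2) j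
  simp only [sub_add_cancel, add_sub_cancel_right] at h1
  exact h1.symm

private theorem BTc_cut {k : ℤ} (hc : BCut l (2 * n) k) : ∃ c j : ℤ, 1 ≤ c ∧ c < l ∧ k = c + 2 * (j * n) := by
  obtain ⟨c1, c2⟩ := hc
  refine ⟨k % ((2 * n : ℕ) : ℤ), k / ((2 * n : ℕ) : ℤ), c1, c2, ?_⟩
  have h := Int.emod_add_mul_ediv k ((2 * n : ℕ) : ℤ)
  push_cast at h ⊢
  linarith

/-- the edges at a cut vertex are in the hole -/
theorem hole_v (hn : 1 ≤ n) (hR : l + 2 ≤ R) {v : FKI.V} (h0 : v.1 + v.2 = 0) (hc : BCut l (2 * n) (v.1 - v.2)) {e : Edge}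
    (he : ea e = v ∨ eb e = v) : InHole R n e := by
  obtain ⟨c, j, c1, c2, h1⟩ := BTc_cut hc
  refine BTc_in hn j ?_
  generalize j * (n : ℤ) = a at h1 ⊢
  unfold FKN.bx
  rw [mem_box]
  obtain ⟨x, y, b⟩ := e
  obtain ⟨p, q⟩ := v
  simp only at h0 h1
  cases b
  · simp only [ea, eb, Bool.false_eq_true, if_false, Prod.mk.injEq] at he
    left
    refine ⟨rfl, ?_, ?_, ?_, ?_⟩ <;> simp only <;> omega
  · simp only [ea, eb, if_true, Prod.mk.injEq] at he
    right
    refine ⟨rfl, ?_, ?_, ?_, ?_⟩ <;> simp only <;> omega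

/-- the edges around a cut face are in the hole -/
theorem hole_f (hn : 1 ≤ n) (hR : l + 2 ≤ R) {v : FKI.V} (h0 : v.1 + v.2 + 1 = 0) (hc : BCut l (2 * n) (v.1 - v.2)) {e : Edge}
    (he : ea (dl e) = v ∨ eb (dl e) = v) : InHole R n e := by
  obtain ⟨c, j, c1, c2, h1⟩ := BTc_cut hc
  refine BTc_in hn j ?_
  generalize j * (n : ℤ) = a at h1 ⊢
  unfold FKN.bx
  rw [mem_box]
  obtain ⟨x, y, b⟩ := e
  obtain ⟨p, q⟩ := v
  simp only at h0 h1
  cases b
  · simp only [FKN.dl, Equiv.coe_fn_mk, ea, eb, Bool.false_eq_true, if_false, if_true, Prod.mk.injEq] at he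
    left
    refine ⟨rfl, ?_, ?_, ?_, ?_⟩ <;> simp only <;> omega
  · simp only [FKN.dl, Equiv.coe_fn_mk, ea, eb, Bool.false_eq_true, if_false, if_true, Prod.mk.injEq] at he
    right
    refine ⟨rfl, ?_, ?_, ?_, ?_⟩ <;> simp only <;> omega

private theorem BTc_walk {S : Edge → Prop} {P : FKI.V → Prop} (h : ∀ e, S e → (P (ea e) ↔ P (eb e))) {v w : FKI.V}
    (hr : (lg S).Reachable v w) : P v ↔ P w := by
  obtain ⟨p⟩ := hr
  induction p with
  | nil => exact Iff.rfl
  | @cons a b c hab p ih =>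
    refine Iff.trans ?_ ih
    unfold lg at hab
    rw [SimpleGraph.fromRel_adj] at hab
    obtain ⟨_, ⟨e, h1, h2, h3⟩ | ⟨e, h1, h2, h3⟩⟩ := hab
    · rw [← h2, ← h3]
      exact h e h1
    · rw [← h2, ← h3]
      exact (h e h1).symm

theorem bpathP (hn : 1 ≤ n) (hR : l + 2 ≤ R) (hω : ω ⊆ cylE n m) {v w : FKI.V} (h : (lg (HP R n ω)).Reachable v w) :
    BInF l n m α ω u (v.1 - v.2) (v.1 + v.2) ↔ BInF l n m α ω u (w.1 - w.2) (w.1 + w.2) := by
  refine BTc_walk (P := fun v => BInF l n m α ω u (v.1 - v.2) (v.1 + v.2)) (fun e he => ?_) h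
  obtain ⟨he, hh0⟩ := he
  have ca : (ea e).1 + (ea e).2 = 0 → ¬ BCut l (2 * n) ((ea e).1 - (ea e).2) := fun h1 h2 => hh0 (hole_v hn hR h1 h2 (Or.inl rfl))
  have cb : (eb e).1 + (eb e).2 = 0 → ¬ BCut l (2 * n) ((eb e).1 - (eb e).2) := fun h1 h2 => hh0 (hole_v hn hR h1 h2 (Or.inr rfl))
  have hh := mem_cylE.1 (hω he)
  rw [red_height] at hh
  obtain ⟨x, y, b⟩ := e
  cases b
  · obtain ⟨d1, _⟩ := bing_diag (l := l) (α := α) (ω := ω) (u := u) (k := x - y) hn hh.2.2.1 hh.2.2.2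
    have hd : DG n ω (x - y) (x + y) := by
      unfold DG
      rw [te_false]
      exact ⟨fun _ => he, fun _ => by omega⟩
    have e1 : x + 1 - y = x - y + 1 := by ring
    have e2 : x + 1 + y = x + y + 1 := by ring
    have cb' : x + 1 + y = 0 → ¬ BCut l (2 * n) (x + 1 - y) := cb
    rw [e1, e2] at cb'
    have := d1 hd ca cb'
    show BInF l n m α ω u (x - y) (x + y) ↔ BInF l n m α ω u (x + 1 - y) (x + 1 + y)
    rw [e1, e2]
    exact this
  · obtain ⟨_, d4⟩ := bing_diag (l := l) (α := α) (ω := ω) (u := u) (k := x - y - 1) hn hh.2.2.1 hh.2.2.2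
    have hd : ¬ DG n ω (x - y - 1) (x + y) := by
      unfold DG
      rw [te_true]
      intro hc
      have := hc.2 he
      omega
    have e1 : x - (y + 1) = x - y - 1 := by ring
    have e2 : x + (y + 1) = x + y + 1 := by ring
    have e3 : x - y - 1 + 1 = x - y := by ring
    have cb' : x + (y + 1) = 0 → ¬ BCut l (2 * n) (x - (y + 1)) := cb
    rw [e1, e2] at cb'
    have ca' : x + y = 0 → ¬ BCut l (2 * n) (x - y) := ca
    have d5 := d4 hd cb' (by rw [show x - y - 1 + 1 = x - y by ring]; exact ca')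
    rw [show x - y - 1 + 1 = x - y by ring] at d5
    show BInF l n m α ω u (x - y) (x + y) ↔ BInF l n m α ω u (x - (y + 1)) (x + (y + 1))
    rw [e1, e2]
    exact d5.symm

theorem bpathD (hn : 1 ≤ n) (hR : l + 2 ≤ R) {v w : FKI.V} (h : (lg (HD R n m ω)).Reachable v w) :
    BInF l n m α ω u (v.1 - v.2) (v.1 + v.2 + 1) ↔ BInF l n m α ω u (w.1 - w.2) (w.1 + w.2 + 1) := by
  refine BTc_walk (P := fun v => BInF l n m α ω u (v.1 - v.2) (v.1 + v.2 + 1)) (fun f hf => ?_) h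
  obtain ⟨e, rfl⟩ := dl.surjective f
  unfold HD at hf
  rw [Equiv.symm_apply_apply] at hf
  obtain ⟨h1, h2, hh0⟩ := hf
  have ca : (ea (dl e)).1 + (ea (dl e)).2 + 1 = 0 → ¬ BCut l (2 * n) ((ea (dl e)).1 - (ea (dl e)).2) :=
    fun h1 h2 => hh0 (hole_f hn hR h1 h2 (Or.inl rfl))
  have cb : (eb (dl e)).1 + (eb (dl e)).2 + 1 = 0 → ¬ BCut l (2 * n) ((eb (dl e)).1 - (eb (dl e)).2) :=
    fun h1 h2 => hh0 (hole_f hn hR h1 h2 (Or.inr rfl))
  have hh := mem_cylE.1 h1
  rw [red_height] at hh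
  obtain ⟨x, y, b⟩ := e
  cases b
  · obtain ⟨_, d4⟩ := bing_diag (l := l) (α := α) (ω := ω) (u := u) (k := x - y) hn hh.2.2.1 hh.2.2.2
    have hd : ¬ DG n ω (x - y) (x + y) := by
      unfold DG
      rw [te_false]
      intro hc
      exact h2 (hc.1 (by omega))
    have e1 : x - (y - 1) = x - y + 1 := by ring
    have e2 : x + (y - 1) + 1 = x + y := by ring
    have e3 : x - (y - 1 + 1) = x - y := by ring
    have e4 : x + (y - 1 + 1) + 1 = x + y + 1 := by ring
    have ca' : x + (y - 1) + 1 = 0 → ¬ BCut l (2 * n) (x - (y - 1)) := ca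
    have cb' : x + (y - 1 + 1) + 1 = 0 → ¬ BCut l (2 * n) (x - (y - 1 + 1)) := cb
    rw [e1, e2] at ca'
    rw [e3, e4] at cb'
    have := d4 hd cb' ca'
    show BInF l n m α ω u (x - (y - 1)) (x + (y - 1) + 1) ↔ BInF l n m α ω u (x - (y - 1 + 1)) (x + (y - 1 + 1) + 1)
    rw [e1, e2, e3, e4]
    exact this.symm
  · obtain ⟨d3, _⟩ := bing_diag (l := l) (α := α) (ω := ω) (u := u) (k := x - y - 1) hn hh.2.2.1 hh.2.2.2
    have hd : DG n ω (x - y - 1) (x + y) := by
      unfold DG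
      rw [te_true]
      exact ⟨fun hc => by omega, fun hc => absurd hc h2⟩
    have e1 : x - 1 - y = x - y - 1 := by ring
    have e2 : x - 1 + y + 1 = x + y := by ring
    have e3 : x - 1 + 1 - y = x - y - 1 + 1 := by ring
    have e4 : x - 1 + 1 + y + 1 = x + y + 1 := by ring
    have ca' : x - 1 + y + 1 = 0 → ¬ BCut l (2 * n) (x - 1 - y) := ca
    have cb' : x - 1 + 1 + y + 1 = 0 → ¬ BCut l (2 * n) (x - 1 + 1 - y) := cb
    rw [e1, e2] at ca'
    rw [e3, e4] at cb'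
    have := d3 hd ca' cb'
    show BInF l n m α ω u (x - 1 - y) (x - 1 + y + 1) ↔ BInF l n m α ω u (x - 1 + 1 - y) (x - 1 + 1 + y + 1)
    rw [e1, e2, e3, e4]
    exact this

end

end EV
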