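import Pool.Agent.Lib.MP_216314_pr.EV.BTb

/-!
# The rows of the hole: from the gaps to the seeds

PROOFS. `fil_dg`: `DG n ω k y` says `(k + y) % 2 = 0 ↔ red n (te k y) ∈ ω` (K/KEvt); `te k y` is horizontal iff `(k + y) % 2 = 0` (`te_even`, `te_odd`), so it follows from `Fil` for the edge `te k y ∈ bx R`; for the copy `z`: `dg_shift` (K/KEvt: `DG n ω (j * (2 * n : ℕ) + k) y ↔ DG n ω k y`).
`brow_up`: induction on `s` (write `s` as a natural number): step from `s` to `s + 1` with `bing_up` for the tile `(g + s + z (2 n), s)`, which satisfies `DG` by `fil_dg`: `te (g + s) s ∈ bx R`: `g = 2 i`: `te (2 i + s) s = (s + i, -i, false)`, `s + i + 1 ≤ R` since `2 (s + 1) + g ≤ 2 R + 1`, `-i ≥ - R`;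
`g = 2 i + 1`: `te (2 i + 1 + s) s = (s + i + 1, -i - 1, true)`, `s + i + 1 ≤ R`, `- i - 1 ≥ - R`, `i + 1 ≤ l ≤ R`. Heights: `0 ≤ s < 2 m` since `s ≤ R + 1 ≤ 2 m`.
`brow_lo`: the same downwards: the tile `(g - s - 1, -s - 1)` satisfies `DG` and connects `(g - s - 1, - s - 1)` with `(g - s, -s)` (`bing_lo`): `te (g - s - 1) (- s - 1)`: `g = 2 i`: `(i - s - 1, -i, false)`, `i - s - 1 ≥ - R`; `g = 2 i + 1`: `(i - s, - i - 1, true)`, `i - s ≥ - R`.
`bseedV`: `i < hr l`: `sv l R i = (R, -i)`, the face `(R + i, R - i)` `= (g + s, s)` with `g = 2 i`, `s = R - i`, `2 s + g = 2 R`; `bing_side` with `b = false` (`R - i > 0`), `brow_up`, `bing_row`. Otherwise `j = i - hr l`, `sv = (-R, -j - 1)`, the face `(-R + j + 1, -R - j - 1) = (g - s, -s)` with `g = 2 j + 2`,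
`s = R + j + 1`, `2 s - g = 2 R`; `b = true`, `brow_lo`. `bseedF`: the face of the plaquette `(x, y)` is `(x - y, x + y + 1)`: `i < hr l`: `sf = (R, -i - 1)`: `(R + i + 1, R - i) = (g + s, s)`, `g = 2 i + 1`, `s = R - i`; otherwise `sf = (-R - 1, -j - 1)`: `(-R + j, -R - j - 1) = (g - s, -s)`, `g = 2 j + 1`, `s = R + j + 1`,
`2 s - g = 2 R + 1`. (`hr l = (l + 1) / 2`, `i < l`, so `2 i + 1 ≤ l` in the first case, `2 j + 2 ≤ l` in the second; `omega` after `unfold hr`.)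
-/

set_option autoImplicit false

noncomputable section

namespace EV

open Finset FKI FKP FKN CY

/-- the side of a seed (`false`: above, seeds on the right) -/
def sb (l : ℕ) (i : Fin l) : Bool := if (i : ℕ) < hr l then false else true
/-- the gap of a seed, vertices -/
def sgV (l : ℕ) (i : Fin l) : ℤ := if (i : ℕ) < hr l then 2 * ((i : ℕ) : ℤ) else 2 * (((i : ℕ) - hr l : ℕ) : ℤ) + 2
/-- the gap of a seed, faces -/
def sgF (l : ℕ) (i : Fin l) : ℤ := if (i : ℕ) < hr l then 2 * ((i : ℕ) : ℤ) + 1 else 2 * (((i : ℕ) - hr l : ℕ) : ℤ) + 1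

section

variable {l R n m : ℕ} {α : Pat (2 * n)} {ω : Finset Edge} {u : Bool × ℤ}

theorem fil_dg (hn : 1 ≤ n) (hf : Fil R n ω) {k y : ℤ} (h : te k y ∈ FKN.bx R) (z : ℤ) : DG n ω (k + z * (2 * n : ℕ)) y := by
  rw [add_comm, dg_shift hn]
  unfold DG
  rw [hf _ h]
  by_cases hp : (k + y) % 2 = 0
  · rw [te_even hp]
    exact ⟨fun _ => rfl, fun _ => hp⟩
  · rw [te_odd hp]
    exact ⟨fun c => absurd c hp, fun c => by cases c⟩

private theorem BTd_up {g s : ℤ} (hR : l + 2 ≤ R) (h0 : 0 ≤ g) (h1 : g ≤ l) (hs : 0 ≤ s) (hs' : 2 * (s + 1) + g ≤ 2 * R + 1) :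
    te (g + s) s ∈ FKN.bx R := by
  unfold FKN.bx
  rw [mem_box]
  by_cases hp : (g + s + s) % 2 = 0
  · rw [te_even hp]
    left
    refine ⟨rfl, ?_, ?_, ?_, ?_⟩ <;> simp only <;> omega
  · rw [te_odd hp]
    right
    refine ⟨rfl, ?_, ?_, ?_, ?_⟩ <;> simp only <;> omega

private theorem BTd_lo {g s : ℤ} (hR : l + 2 ≤ R) (h0 : 0 ≤ g) (h1 : g ≤ l) (hs : 0 ≤ s) (hs' : 2 * (s + 1) - g ≤ 2 * R + 1) :
    te (g - (s + 1)) (-(s + 1)) ∈ FKN.bx R := by
  unfold FKN.bx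
  rw [mem_box]
  by_cases hp : (g - (s + 1) + -(s + 1)) % 2 = 0
  · rw [te_even hp]
    left
    refine ⟨rfl, ?_, ?_, ?_, ?_⟩ <;> simp only <;> omega
  · rw [te_odd hp]
    right
    refine ⟨rfl, ?_, ?_, ?_, ?_⟩ <;> simp only <;> omega

theorem brow_up (hn : 1 ≤ n) (hR : l + 2 ≤ R) (hm : R ≤ m) (hf : Fil R n ω) {g s : ℤ} (h0 : 0 ≤ g) (h1 : g ≤ l) (hs : 0 ≤ s)
    (hs' : 2 * s + g ≤ 2 * R + 1) (z : ℤ) :
    BInG l n m α ω u false (g + z * (2 * n : ℕ)) 0 ↔ BInG l n m α ω u false (g + s + z * (2 * n : ℕ)) s := by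
  obtain ⟨S, hS⟩ := Int.eq_ofNat_of_zero_le hs
  subst hS
  clear hs
  induction S with
  | zero => simp
  | succ S ih =>
    have h2 := ih (by push_cast at hs'; omega)
    have h3 := fil_dg hn hf (BTd_up (l := l) (R := R) (s := (S : ℤ)) hR h0 h1 (by omega) (by push_cast at hs'; omega)) z
    have h4 := (bing_up (l := l) (m := m) (α := α) (u := u) hn (k := g + (S : ℤ) + z * (2 * n : ℕ)) (y := (S : ℤ)) (by omega)
      (by push_cast at hs'; omega)).1 h3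
    have e1 : g + ((S + 1 : ℕ) : ℤ) + z * (2 * n : ℕ) = g + (S : ℤ) + z * (2 * n : ℕ) + 1 := by
      push_cast
      ring
    have e2 : ((S + 1 : ℕ) : ℤ) = (S : ℤ) + 1 := by push_cast; ring
    rw [e1, e2]
    exact h2.trans h4

theorem brow_lo (hn : 1 ≤ n) (hR : l + 2 ≤ R) (hm : R ≤ m) (hf : Fil R n ω) {g s : ℤ} (h0 : 0 ≤ g) (h1 : g ≤ l) (hs : 0 ≤ s)
    (hs' : 2 * s - g ≤ 2 * R + 1) (z : ℤ) :
    BInG l n m α ω u true (g + z * (2 * n : ℕ)) 0 ↔ BInG l n m α ω u true (g - s + z * (2 * n : ℕ)) (-s) := by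
  obtain ⟨S, hS⟩ := Int.eq_ofNat_of_zero_le hs
  subst hS
  clear hs
  induction S with
  | zero => simp
  | succ S ih =>
    have h2 := ih (by push_cast at hs'; omega)
    have h3 := fil_dg hn hf (BTd_lo (l := l) (R := R) (s := (S : ℤ)) hR h0 h1 (by omega) (by push_cast at hs'; omega)) z
    have h4 := (bing_lo (l := l) (m := m) (α := α) (u := u) hn (k := g - ((S : ℤ) + 1) + z * (2 * n : ℕ)) (y := -((S : ℤ) + 1))
      (by push_cast at hs'; omega) (by omega)).1 h3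
    have e1 : g - ((S + 1 : ℕ) : ℤ) + z * (2 * n : ℕ) = g - ((S : ℤ) + 1) + z * (2 * n : ℕ) := by
      push_cast
      ring
    have e2 : -((S + 1 : ℕ) : ℤ) = -((S : ℤ) + 1) := by push_cast; ring
    have e3 : g - ((S : ℤ) + 1) + z * (2 * n : ℕ) + 1 = g - (S : ℤ) + z * (2 * n : ℕ) := by ring
    have e4 : -((S : ℤ) + 1) + 1 = -(S : ℤ) := by ring
    rw [e1, e2]
    rw [e3, e4] at h4
    exact h2.trans h4.symm

theorem bseedV (hn : 1 ≤ n) (hR : l + 2 ≤ R) (hm : R ≤ m) (hf : Fil R n ω) (i : Fin l) (z : ℤ) :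
    BInF l n m α ω u ((sv l R i).1 - (sv l R i).2 + z * (2 * n : ℕ)) ((sv l R i).1 + (sv l R i).2) ↔
      BGC l (pup n m α ω) (plo n m α ω) u (sb l i, sgV l i + z * (2 * n : ℕ)) := by
  have hi := i.2
  have hh : hr l = (l + 1) / 2 := rfl
  by_cases h : (i : ℕ) < hr l
  · have e1 : sv l R i = ((R : ℤ), -((i : ℕ) : ℤ)) := if_pos h
    have e2 : sb l i = false := if_pos h
    have e3 : sgV l i = 2 * ((i : ℕ) : ℤ) := if_pos h
    rw [e1, e2, e3]
    simp only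
    have h2 := brow_up (α := α) (ω := ω) (u := u) hn hR hm hf (g := 2 * ((i : ℕ) : ℤ)) (s := (R : ℤ) - ((i : ℕ) : ℤ)) (by omega) (by omega)
      (by omega) (by omega) z
    rw [bing_side (b := false) (fun c => by cases c) (fun _ => by omega) (fun c => by exfalso; omega)]
    rw [bing_row] at h2
    have e4 : (R : ℤ) - -((i : ℕ) : ℤ) + z * (2 * n : ℕ) = 2 * ((i : ℕ) : ℤ) + ((R : ℤ) - ((i : ℕ) : ℤ)) + z * (2 * n : ℕ) := by ring
    have e5 : (R : ℤ) + -((i : ℕ) : ℤ) = (R : ℤ) - ((i : ℕ) : ℤ) := by ring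
    rw [e4, e5]
    exact h2.symm
  · have e1 : sv l R i = (-(R : ℤ), -(((i : ℕ) - hr l : ℕ) : ℤ) - 1) := if_neg h
    have e2 : sb l i = true := if_neg h
    have e3 : sgV l i = 2 * (((i : ℕ) - hr l : ℕ) : ℤ) + 2 := if_neg h
    rw [e1, e2, e3]
    simp only
    obtain ⟨j, hj⟩ : ∃ j : ℕ, j = (i : ℕ) - hr l := ⟨_, rfl⟩
    rw [← hj]
    have h2 := brow_lo (α := α) (ω := ω) (u := u) hn hR hm hf (g := 2 * (j : ℤ) + 2) (s := (R : ℤ) + (j : ℤ) + 1) (by omega) (by omega)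
      (by omega) (by omega) z
    rw [bing_side (b := true) (fun _ => by omega) (fun c => by cases c) (fun c => by exfalso; omega)]
    rw [bing_row] at h2
    have e4 : -(R : ℤ) - (-(j : ℤ) - 1) + z * (2 * n : ℕ) = 2 * (j : ℤ) + 2 - ((R : ℤ) + (j : ℤ) + 1) + z * (2 * n : ℕ) := by ring
    have e5 : -(R : ℤ) + (-(j : ℤ) - 1) = -((R : ℤ) + (j : ℤ) + 1) := by ring
    rw [e4, e5]
    exact h2.symm

theorem bseedF (hn : 1 ≤ n) (hR : l + 2 ≤ R) (hm : R ≤ m) (hf : Fil R n ω) (i : Fin l) (z : ℤ) :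
    BInF l n m α ω u ((sf l R i).1 - (sf l R i).2 + z * (2 * n : ℕ)) ((sf l R i).1 + (sf l R i).2 + 1) ↔
      BGC l (pup n m α ω) (plo n m α ω) u (sb l i, sgF l i + z * (2 * n : ℕ)) := by
  have hi := i.2
  have hh : hr l = (l + 1) / 2 := rfl
  by_cases h : (i : ℕ) < hr l
  · have e1 : sf l R i = ((R : ℤ), -((i : ℕ) : ℤ) - 1) := if_pos h
    have e2 : sb l i = false := if_pos h
    have e3 : sgF l i = 2 * ((i : ℕ) : ℤ) + 1 := if_pos h
    rw [e1, e2, e3]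
    simp only
    have h2 := brow_up (α := α) (ω := ω) (u := u) hn hR hm hf (g := 2 * ((i : ℕ) : ℤ) + 1) (s := (R : ℤ) - ((i : ℕ) : ℤ)) (by omega) (by omega)
      (by omega) (by omega) z
    rw [bing_side (b := false) (fun c => by cases c) (fun _ => by omega) (fun c => by exfalso; omega)]
    rw [bing_row] at h2
    have e4 : (R : ℤ) - (-((i : ℕ) : ℤ) - 1) + z * (2 * n : ℕ) = 2 * ((i : ℕ) : ℤ) + 1 + ((R : ℤ) - ((i : ℕ) : ℤ)) + z * (2 * n : ℕ) := by ring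
    have e5 : (R : ℤ) + (-((i : ℕ) : ℤ) - 1) + 1 = (R : ℤ) - ((i : ℕ) : ℤ) := by ring
    rw [e4, e5]
    exact h2.symm
  · have e1 : sf l R i = (-(R : ℤ) - 1, -(((i : ℕ) - hr l : ℕ) : ℤ) - 1) := if_neg h
    have e2 : sb l i = true := if_neg h
    have e3 : sgF l i = 2 * (((i : ℕ) - hr l : ℕ) : ℤ) + 1 := if_neg h
    rw [e1, e2, e3]
    simp only
    obtain ⟨j, hj⟩ : ∃ j : ℕ, j = (i : ℕ) - hr l := ⟨_, rfl⟩
    rw [← hj]
    have h2 := brow_lo (α := α) (ω := ω) (u := u) hn hR hm hf (g := 2 * (j : ℤ) + 1) (s := (R : ℤ) + (j : ℤ) + 1) (by omega) (by omega)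
      (by omega) (by omega) z
    rw [bing_side (b := true) (fun _ => by omega) (fun c => by cases c) (fun c => by exfalso; omega)]
    rw [bing_row] at h2
    have e4 : -(R : ℤ) - 1 - (-(j : ℤ) - 1) + z * (2 * n : ℕ) = 2 * (j : ℤ) + 1 - ((R : ℤ) + (j : ℤ) + 1) + z * (2 * n : ℕ) := by ring
    have e5 : -(R : ℤ) - 1 + (-(j : ℤ) - 1) + 1 = -((R : ℤ) + (j : ℤ) + 1) := by ring
    rw [e4, e5]
    exact h2.symm

end

end EV
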