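import Pool.Agent.Lib.MP_216314_pr.EV.BTa
import Pool.Agent.Lib.MP_216314_pr.EV.BTc
import Pool.Agent.Lib.MP_216314_pr.EV.BTd

/-!
# From the connections of the seeds to the event of the exact law

PROOFS. `sg_range`: `hr l = (l + 1) / 2`, `i < l`, `omega`. `sector_seed`: the sector `(b, g)`, `0 ≤ g ≤ l`, `BGC` between `(true, g)` and `(false, g)` if `g = 0` or `g = l` (`¬ BCut l L g`: `g % L = 0` or `g % L = l` or (`l = L`) `0`; `l ≤ L`, third kind of step of `BGSt`).
 * `g = 2 i` even, `b = false`: if `i < hr l` the seed `i` (vertex) has `sb = false`, `sgV = g`, `Relation.EqvGen.refl`; else `g = l` (`l` even, `i = l / 2`), `l ≥ 2`: pass to `(true, g)` and use the seed `i' = hr l + (i - 1)`: `sb = true`, `sgV = 2 (i - 1) + 2 = g` (`i' < l`).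
 * `g = 2 i + 1` odd, `b = false`: `2 i + 1 ≤ l` so `i < hr l`: the seed `i` (face).
 * `g = 2 i` even, `b = true`: `i = 0`: pass to `(false, 0)`, the seed `0` (vertex; `0 < hr l`); `i ≥ 1`: the seed `i' = hr l + (i - 1) < l` (vertex): `2 i ≤ l`.
 * `g = 2 i + 1` odd, `b = true`: if `2 i + 1 < l`, the seed `i' = hr l + i < l` (face); if `2 i + 1 = l` pass to `(false, g)` and use the seed `i < hr l` (face).
`topo`: `bwl_of_sectors` with `L = 2 N` (`l ≤ 2 N`). For the sector `(b, g)` take the seed `i` from `sector_seed` and the seed `i'` from `TE`. Say vertices, first case: `Reachable (sv i) (sv i' + (N, -N))`: with `u = (sb i, sgV i)`: `BInF u (face of sv i)` by `bseedV` with `z = 0` and reflexivity, so by `bpathP`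
`BInF u (face of sv i' + (N, -N))`, which is the face `(k + 2 N, y)` (`z = 1`), so `BGC u (sb i', sgV i' + 2 N)` by `bseedV`. With `BGC (b, g) (sb i, sgV i)`: first alternative, `b' = sb i'`, `g' = sgV i'` (`sg_range`). Second case: `Reachable (sv i') (sv i + (N, -N))`: `BGC (sb i', sgV i') (sb i, sgV i + 2 N)`, and
`BGC (sb i, sgV i + 2 N) (b, g + 2 N)` by `bgc_shift` with `j = 1` (`1 * L = L`): second alternative. The same for the faces with `bseedF`, `bpathD`. `Wg l N m α ω = WL l l (pup N m α ω) (plo N m α ω)`.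
-/

set_option autoImplicit false

noncomputable section

namespace EV

open Finset FKI FKP FKN CY

private theorem BTe_glue {l L : ℕ} {P Q : Pat L} {g : ℤ} (h : ¬ BCut l L g) (b b' : Bool) : BGC l P Q (b, g) (b', g) := by
  by_cases hb : b = b'
  · rw [hb]
    exact Relation.EqvGen.refl _
  · exact Relation.EqvGen.rel _ _ (Or.inr (Or.inr ⟨rfl, h⟩))

private theorem BTe_nc0 (l L : ℕ) : ¬ BCut l L 0 := by
  rintro ⟨h, _⟩
  rw [Int.zero_emod] at h
  omega

private theorem BTe_ncl {l L : ℕ} (hL : l ≤ L) : ¬ BCut l L (l : ℤ) := by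
  rintro ⟨h, h'⟩
  rcases lt_or_eq_of_le hL with h1 | h1
  · rw [Int.emod_eq_of_lt (by omega) (by exact_mod_cast h1)] at h'
    omega
  · rw [h1, Int.emod_self] at h
    omega

private theorem BTe_rv {l k : ℕ} (hk : k < hr l) (hk' : k < l) : ∃ i : Fin l, sb l i = false ∧ sgV l i = 2 * (k : ℤ) ∧ sgF l i = 2 * (k : ℤ) + 1 := by
  refine ⟨⟨k, hk'⟩, if_pos hk, ?_, ?_⟩
  · unfold sgV
    rw [if_pos hk]
  · unfold sgF
    rw [if_pos hk]

private theorem BTe_lv {l k : ℕ} (hk' : hr l + k < l) : ∃ i : Fin l, sb l i = true ∧ sgV l i = 2 * (k : ℤ) + 2 ∧ sgF l i = 2 * (k : ℤ) + 1 := by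
  have hk : ¬ hr l + k < hr l := by omega
  have e : hr l + k - hr l = k := by omega
  refine ⟨⟨hr l + k, hk'⟩, if_neg hk, ?_, ?_⟩
  · unfold sgV
    rw [if_neg hk]
    simp only
    rw [e]
  · unfold sgF
    rw [if_neg hk]
    simp only
    rw [e]

theorem sg_range {l : ℕ} (i : Fin l) : (0 ≤ sgV l i ∧ sgV l i ≤ l) ∧ (0 ≤ sgF l i ∧ sgF l i ≤ l) := by
  have hi := i.2
  unfold sgV sgF hr
  split_ifs with h
  · refine ⟨⟨?_, ?_⟩, ?_, ?_⟩ <;> omega
  · refine ⟨⟨?_, ?_⟩, ?_, ?_⟩ <;> omega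

theorem sector_seed {l L : ℕ} (hl : 1 ≤ l) (hL : l ≤ L) {P Q : Pat L} (b : Bool) {g : ℤ} (h0 : 0 ≤ g) (h1 : g ≤ l) :
    (∃ i : Fin l, BGC l P Q (b, g) (sb l i, sgV l i)) ∨ ∃ i : Fin l, BGC l P Q (b, g) (sb l i, sgF l i) := by
  have hh : hr l = (l + 1) / 2 := rfl
  obtain ⟨k, hk⟩ := Int.eq_ofNat_of_zero_le h0
  subst hk
  have hkl : k ≤ l := by exact_mod_cast h1
  rcases Nat.even_or_odd' k with ⟨i, hi | hi⟩
  · left
    by_cases h2 : i = 0
    · obtain ⟨j, j1, j2, _⟩ := BTe_rv (l := l) (k := 0) (by omega) (by omega)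
      refine ⟨j, ?_⟩
      rw [j1, j2]
      have e : ((k : ℕ) : ℤ) = 0 := by omega
      have e' : 2 * ((0 : ℕ) : ℤ) = 0 := by norm_num
      rw [e, e']
      exact BTe_glue (BTe_nc0 l L) b false
    · by_cases h3 : b = true ∨ k = l
      · obtain ⟨j, j1, j2, _⟩ := BTe_lv (l := l) (k := i - 1) (by omega)
        refine ⟨j, ?_⟩
        rw [j1, j2]
        have e : 2 * ((i - 1 : ℕ) : ℤ) + 2 = ((k : ℕ) : ℤ) := by omega
        rw [e]
        rcases h3 with h3 | h3
        · rw [h3]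
          exact Relation.EqvGen.refl _
        · rw [h3]
          exact BTe_glue (BTe_ncl hL) b true
      · push Not at h3
        have hb : b = false := by
          cases b
          · rfl
          · exact absurd rfl h3.1
        obtain ⟨j, j1, j2, _⟩ := BTe_rv (l := l) (k := i) (by omega) (by omega)
        refine ⟨j, ?_⟩
        rw [j1, j2]
        have e : 2 * ((i : ℕ) : ℤ) = ((k : ℕ) : ℤ) := by omega
        rw [e, hb]
        exact Relation.EqvGen.refl _
  · right
    by_cases h3 : b = false ∨ k = l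
    · obtain ⟨j, j1, _, j2⟩ := BTe_rv (l := l) (k := i) (by omega) (by omega)
      refine ⟨j, ?_⟩
      rw [j1, j2]
      have e : 2 * ((i : ℕ) : ℤ) + 1 = ((k : ℕ) : ℤ) := by omega
      rw [e]
      rcases h3 with h3 | h3
      · rw [h3]
        exact Relation.EqvGen.refl _
      · rw [h3]
        exact BTe_glue (BTe_ncl hL) b false
    · push Not at h3
      have hb : b = true := by
        cases b
        · exact absurd rfl h3.1
        · rfl
      obtain ⟨j, j1, _, j2⟩ := BTe_lv (l := l) (k := i) (by omega)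
      refine ⟨j, ?_⟩
      rw [j1, j2]
      have e : 2 * ((i : ℕ) : ℤ) + 1 = ((k : ℕ) : ℤ) := by omega
      rw [e, hb]
      exact Relation.EqvGen.refl _

private theorem BTe_k (x y : ℤ) (N : ℕ) : x + (N : ℤ) - (y + -(N : ℤ)) = x - y + 1 * (2 * N : ℕ) := by
  push_cast
  ring

private theorem BTe_y (x y : ℤ) (N : ℕ) : x + (N : ℤ) + (y + -(N : ℤ)) = x + y := by ring

theorem topo {l R N m : ℕ} (hl : 1 ≤ l) (hR : l + 2 ≤ R) (hN : R ≤ N) (hm : R ≤ m) {α : Pat (2 * N)} {ω : Finset Edge}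
    (hω : ω ⊆ cylE N m) (hf : Fil R N ω) (hT : TE l R N m ω) : Wg l N m α ω := by
  have hN1 : 1 ≤ N := by omega
  have hL : l ≤ 2 * N := by omega
  -- vertices
  have keyV : ∀ i i' : Fin l, (lg (HP R N ω)).Reachable (sv l R i) (sv l R i' + ((N : ℤ), -(N : ℤ))) →
      BGC l (pup N m α ω) (plo N m α ω) (sb l i, sgV l i) (sb l i', sgV l i' + (2 * N : ℕ)) := by
    intro i i' h
    have h1 := bpathP (l := l) (α := α) (u := (sb l i, sgV l i)) hN1 hR hω h
    have h2 := bseedV (α := α) (u := (sb l i, sgV l i)) hN1 hR hm hf i 0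
    rw [zero_mul, add_zero, add_zero] at h2
    have h3 := bseedV (α := α) (u := (sb l i, sgV l i)) hN1 hR hm hf i' 1
    have h4 := h1.1 (h2.2 (Relation.EqvGen.refl _))
    rw [Prod.fst_add, Prod.snd_add] at h4
    simp only at h4
    rw [BTe_k, BTe_y] at h4
    have h5 := h3.1 h4
    rwa [one_mul] at h5
  have keyF : ∀ i i' : Fin l, (lg (HD R N m ω)).Reachable (sf l R i) (sf l R i' + ((N : ℤ), -(N : ℤ))) →
      BGC l (pup N m α ω) (plo N m α ω) (sb l i, sgF l i) (sb l i', sgF l i' + (2 * N : ℕ)) := by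
    intro i i' h
    have h1 := bpathD (l := l) (α := α) (u := (sb l i, sgF l i)) hN1 hR h
    have h2 := bseedF (α := α) (u := (sb l i, sgF l i)) hN1 hR hm hf i 0
    rw [zero_mul, add_zero, add_zero] at h2
    have h3 := bseedF (α := α) (u := (sb l i, sgF l i)) hN1 hR hm hf i' 1
    have h4 := h1.1 (h2.2 (Relation.EqvGen.refl _))
    rw [Prod.fst_add, Prod.snd_add] at h4
    simp only at h4
    rw [BTe_k, BTe_y] at h4
    have h5 := h3.1 h4
    rwa [one_mul] at h5
  have shift : ∀ {b b' : Bool} {g g' : ℤ}, BGC l (pup N m α ω) (plo N m α ω) (b, g) (b', g') →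
      BGC l (pup N m α ω) (plo N m α ω) (b, g + (2 * N : ℕ)) (b', g' + (2 * N : ℕ)) := by
    intro b b' g g' h
    have := bgc_shift 1 h
    rwa [one_mul] at this
  unfold Wg
  refine bwl_of_sectors hl hL ?_
  intro b g h0 h1
  rcases sector_seed (P := pup N m α ω) (Q := plo N m α ω) hl hL b h0 h1 with ⟨i, hi⟩ | ⟨i, hi⟩
  · obtain ⟨i', h | h⟩ := hT.1 i
    · exact ⟨sb l i', sgV l i', (sg_range i').1.1, (sg_range i').1.2, Or.inl (hi.trans _ _ _ (keyV i i' h))⟩
    · exact ⟨sb l i', sgV l i', (sg_range i').1.1, (sg_range i').1.2,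
        Or.inr ((keyV i' i h).trans _ _ _ (shift (hi.symm _ _)))⟩
  · obtain ⟨i', h | h⟩ := hT.2 i
    · exact ⟨sb l i', sgF l i', (sg_range i').2.1, (sg_range i').2.2, Or.inl (hi.trans _ _ _ (keyF i i' h))⟩
    · exact ⟨sb l i', sgF l i', (sg_range i').2.1, (sg_range i').2.2,
        Or.inr ((keyF i' i h).trans _ _ _ (shift (hi.symm _ _)))⟩

end EV
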