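import Pool.Agent.Lib.MP_216314_pr.EV.BPa
import Pool.Agent.Lib.MP_216314_pr.EV.BPc
import Pool.Agent.Lib.MP_216314_pr.EV.BTe

/-!
# From the canonical state to the event of the exact law
-/

set_option autoImplicit false

noncomputable section

namespace EV

open Finset FKI FKP FKN CY

/-- canonical state with the hole `bx R` ⇒ event of the exact law on the cylinder of period `12 n` -/
theorem wE_le12 {l R : ℕ} (hl : 1 ≤ l) (hR : l + 2 ≤ R) : ∃ C : ℝ, 0 < C ∧ ∀ n m : ℕ, 400 * l ≤ n → 2 * R ≤ n → 20 * n ≤ m →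
    ∀ α : Pat (2 * (12 * n)), wE l R n ≤ C * Pr (cylE (12 * n) m) (Wg l (12 * n) m α) := by
  obtain ⟨C, hC, h1⟩ := wE_TE hl
  refine ⟨C * 2 ^ (FKN.bx R).card, by positivity, fun n m hn hRn hm α => ?_⟩
  have h2 := h1 R n m hn hRn hm
  have hlR : 1 ≤ R := by omega
  rw [fil_le (by omega) (by omega)] at h2
  have h3 : Pr (cylE (12 * n) m) (fun ω => TE l R (12 * n) m ω ∧ Fil R (12 * n) ω) ≤ Pr (cylE (12 * n) m) (Wg l (12 * n) m α) :=
    Pr_mono fun ω hω h => topo hl hR (by omega) (by omega) hω h.2 h.1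
  calc wE l R n ≤ C * (2 ^ (FKN.bx R).card * Pr (cylE (12 * n) m) (fun ω => TE l R (12 * n) m ω ∧ Fil R (12 * n) ω)) := h2
    _ = C * 2 ^ (FKN.bx R).card * Pr (cylE (12 * n) m) (fun ω => TE l R (12 * n) m ω ∧ Fil R (12 * n) ω) := by ring
    _ ≤ C * 2 ^ (FKN.bx R).card * Pr (cylE (12 * n) m) (Wg l (12 * n) m α) := mul_le_mul_of_nonneg_left h3 (by positivity)

theorem wE_le {l R : ℕ} (hl : 1 ≤ l) (hR : l + 2 ≤ R) : ∃ (K n0 : ℕ) (C : ℝ), 1 ≤ K ∧ 0 < C ∧ ∀ n : ℕ, n0 ≤ n → ∃ m0 : ℕ,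
    ∀ m : ℕ, m0 ≤ m → ∀ α : Pat (2 * (K * n)), wE l R n ≤ C * Pr (cylE (K * n) m) (Wg l (K * n) m α) := by
  obtain ⟨C, hC, h⟩ := wE_le12 hl hR
  exact ⟨12, max (400 * l) (2 * R), C, by norm_num, hC, fun n hn => ⟨20 * n, fun m hm α =>
    h n m ((le_max_left _ _).trans hn) ((le_max_right _ _).trans hn) hm α⟩⟩

end EV
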