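import Pool.Agent.Lib.MP_216314_pr.EV.BDef
import Pool.Agent.Lib.MP_216314_pr.N.DGwB

/-!
# The corridors: values and end points

PROOFS. `gw_15`: from `sq_val` (N/DGwA: explicit values of `gw θ`, `gw (θ - 2)` for `0 ≤ θ ≤ 8`) on `[1,2]`, `[2,4]`, `[4,5]`: `gw θ = 1, 3 - θ, -1`, `gw (θ - 2) = θ - 1, 1, 5 - θ` (three cases, `max`, `min` by `simp`/`rw` or `linarith`).
`gw_refl`: `gw (2 - θ) = gw θ`, `gw (2 - θ - 2) = - gw (θ - 2)` for `θ ∈ [1,5]`: by `gw_per` (N/DGwA) `gw (2 - θ) = gw (10 - θ)` with `10 - θ ∈ [5,9]`; if `10 - θ ≤ 8` use `sq_val` for `10 - θ` (`[5,6]`: `θ ∈ [4,5]`: `-1`, `5 - (10 - θ) = θ - 5`; `[6,8]`: `θ ∈ [2,4]`: `(10 - θ) - 7 = 3 - θ`, `-1`);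
if `θ ≤ 2`: use `sq_val` for `2 - θ ∈ [0,1]`: `1`, `(2 - θ) - 1 = 1 - θ`.
`cc_zero`: `j = 0`: `c01 0 = 0`, `c01 (0 - 2) = 0`, ..: `cX θ 0 = gw θ`, `cY θ 0 = gw (θ - 2)`; `ptR n θ = (round (n * gw θ), round (n * gw (θ - 2)))` (DDef).
`cc_end`: `j = 3000 l`: `s = 3000 l / (600 l) = 5`: all `c01 = 1`: `cX θ 5 = gw θ - 12`, `cY θ 5 = 12 - gw (θ - 2)`; `round (n (gw θ - 12)) = round (n gw θ) - 12 n` (`round_sub_natCast`, `round_sub_intCast`, ..), `round (n (12 - gw (θ - 2))) = 12 n + round (- (n gw (θ - 2)))`, `ptR n (2 - θ)` by `gw_refl`.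
`land_o`: `thO l i = 1 + 8 i / l = th l (2 i)`. If `2 i ≤ l`: `t = 2 i`; the partner is `i' = l - i` if `1 ≤ i` and `i' = 0` if `i = 0`: `thO l (l - i) = 9 - 8 i / l = (2 - th l t) + 8`, `ptR_per` (DGwB). If `l < 2 i`: `t = 2 (l - i) ≤ l`, `i' = l - i` (`1 ≤ i < l`): `cO l n i' = ptR n (th l t)` and `thO l i = 1 + 8 i / l =
(2 - th l t) + 8`. `land_d`: `thD l i = 1 + (8 i + 4) / l = th l (2 i + 1)`, the partner is `i' = l - 1 - i` (`thD l (l - 1 - i) = 9 - (8 i + 4) / l = (2 - th l (2 i + 1)) + 8`): if `2 i + 1 ≤ l`: `t = 2 i + 1`, first case; otherwise `t = 2 (l - 1 - i) + 1 ≤ l`, second case.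
`cO_cc`, `cD_cc`: from `land_o`, `land_d`, `cc_zero`, `cc_end` (`z = 0`, `j = 0` or `z = 1`, `j = 3000 l`: `ptR n (2 - θ) = cc l n t (3000 l) + (12 n, - 12 n)`).
-/

set_option autoImplicit false

noncomputable section

namespace EV

open Finset FKI FKP FKN CY

theorem th_range {l t : ℕ} (hl : 1 ≤ l) (ht : t ≤ l) : 1 ≤ th l t ∧ th l t ≤ 5 := by
  have hl' : (1 : ℝ) ≤ l := by exact_mod_cast hl
  have ht' : (t : ℝ) ≤ l := by exact_mod_cast ht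
  have ht0 : (0 : ℝ) ≤ t := Nat.cast_nonneg t
  have hl0 : (0 : ℝ) < l := by linarith
  have h1 : 0 ≤ 4 * (t : ℝ) / l := div_nonneg (by linarith) hl0.le
  have h2 : 4 * (t : ℝ) / l ≤ 4 := by
    rw [div_le_iff₀ hl0]
    linarith
  unfold th
  exact ⟨by linarith, by linarith⟩

theorem gw_15 {θ : ℝ} (h1 : 1 ≤ θ) (h5 : θ ≤ 5) : gw θ = max (-1) (min 1 (3 - θ)) ∧ gw (θ - 2) = min 1 (min (θ - 1) (5 - θ)) := by
  obtain ⟨a1, a2, a3, a4⟩ := sq_val (θ := θ) (by linarith) (by linarith)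
  rcases le_total θ 2 with h | h
  · obtain ⟨b1, b2⟩ := a1 h
    rw [b1, b2, min_eq_left (show (1 : ℝ) ≤ 3 - θ by linarith), max_eq_right (show (-1 : ℝ) ≤ 1 by norm_num),
      min_eq_left (show θ - 1 ≤ 5 - θ by linarith), min_eq_right (show θ - 1 ≤ 1 by linarith)]
    exact ⟨rfl, rfl⟩
  · rcases le_total θ 4 with h4 | h4
    · obtain ⟨b1, b2⟩ := a2 h h4
      rw [b1, b2, min_eq_right (show 3 - θ ≤ (1 : ℝ) by linarith), max_eq_right (show (-1 : ℝ) ≤ 3 - θ by linarith)]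
      refine ⟨rfl, ?_⟩
      rw [min_eq_left]
      exact le_min (by linarith) (by linarith)
    · obtain ⟨b1, b2⟩ := a3 h4 (by linarith)
      rw [b1, b2, min_eq_right (show 3 - θ ≤ (1 : ℝ) by linarith), max_eq_left (show 3 - θ ≤ (-1 : ℝ) by linarith),
        min_eq_right (show 5 - θ ≤ θ - 1 by linarith), min_eq_right (show 5 - θ ≤ 1 by linarith)]
      exact ⟨rfl, rfl⟩

theorem gw_refl {θ : ℝ} (h1 : 1 ≤ θ) (h5 : θ ≤ 5) : gw (2 - θ) = gw θ ∧ gw (2 - θ - 2) = -gw (θ - 2) := by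
  obtain ⟨a1, a2, a3, a4⟩ := sq_val (θ := θ) (by linarith) (by linarith)
  rcases le_total θ 2 with h | h
  · obtain ⟨b1, b2⟩ := a1 h
    obtain ⟨c1, c2⟩ := (sq_val (θ := 2 - θ) (by linarith) (by linarith)).1 (by linarith)
    rw [b1, b2, c1, c2]
    exact ⟨rfl, by ring⟩
  · have e1 : gw (2 - θ) = gw (10 - θ) := by
      rw [← gw_per (2 - θ) 1]
      congr 1
      push_cast
      ring
    have e2 : gw (2 - θ - 2) = gw (10 - θ - 2) := by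
      rw [← gw_per (2 - θ - 2) 1]
      congr 1
      push_cast
      ring
    rw [e1, e2]
    rcases le_total θ 4 with h4 | h4
    · obtain ⟨b1, b2⟩ := a2 h h4
      obtain ⟨c1, c2⟩ := (sq_val (θ := 10 - θ) (by linarith) (by linarith)).2.2.2 (by linarith)
      rw [b1, b2, c1, c2]
      exact ⟨by ring, by ring⟩
    · obtain ⟨b1, b2⟩ := a3 h4 (by linarith)
      obtain ⟨c1, c2⟩ := (sq_val (θ := 10 - θ) (by linarith) (by linarith)).2.2.1 (by linarith) (by linarith)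
      rw [b1, b2, c1, c2]
      exact ⟨rfl, by ring⟩

private theorem BGa_c0 {s : ℝ} (h : s ≤ 0) : c01 s = 0 := by
  unfold c01
  rw [min_eq_right (by linarith), max_eq_left h]

private theorem BGa_c1 {s : ℝ} (h : 1 ≤ s) : c01 s = 1 := by
  unfold c01
  rw [min_eq_left h, max_eq_right zero_le_one]

private theorem BGa_X0 (θ : ℝ) : cX θ 0 = gw θ := by
  unfold cX
  rw [BGa_c0 (le_refl (0 : ℝ)), BGa_c0 (show (0 : ℝ) - 2 ≤ 0 by norm_num), BGa_c0 (show (0 : ℝ) - 4 ≤ 0 by norm_num)]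
  ring

private theorem BGa_Y0 (θ : ℝ) : cY θ 0 = gw (θ - 2) := by
  unfold cY
  rw [BGa_c0 (show (0 : ℝ) - 1 ≤ 0 by norm_num), BGa_c0 (show (0 : ℝ) - 3 ≤ 0 by norm_num)]
  ring

private theorem BGa_X5 (θ : ℝ) : cX θ 5 = gw θ - 12 := by
  unfold cX
  rw [BGa_c1 (show (1 : ℝ) ≤ 5 by norm_num), BGa_c1 (show (1 : ℝ) ≤ 5 - 2 by norm_num), BGa_c1 (show (1 : ℝ) ≤ 5 - 4 by norm_num)]
  ring

private theorem BGa_Y5 (θ : ℝ) : cY θ 5 = 12 - gw (θ - 2) := by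
  unfold cY
  rw [BGa_c1 (show (1 : ℝ) ≤ 5 - 1 by norm_num), BGa_c1 (show (1 : ℝ) ≤ 5 - 3 by norm_num)]
  ring

theorem cc_zero (l n t : ℕ) : cc l n t 0 = ptR n (th l t) := by
  unfold cc ptR
  rw [Nat.cast_zero, zero_div, BGa_X0, BGa_Y0]

theorem cc_end {l n t : ℕ} (hl : 1 ≤ l) (ht : t ≤ l) : cc l n t (3000 * l) = ptR n (2 - th l t) + (-((12 * n : ℕ) : ℤ), ((12 * n : ℕ) : ℤ)) := by
  obtain ⟨h1, h5⟩ := th_range hl ht
  obtain ⟨r1, r2⟩ := gw_refl h1 h5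
  have hl0 : (l : ℝ) ≠ 0 := by
    have : (1 : ℝ) ≤ l := by exact_mod_cast hl
    linarith
  have e5 : (((3000 * l : ℕ) : ℝ)) / (600 * l) = 5 := by
    push_cast
    rw [div_eq_iff (mul_ne_zero (by norm_num) hl0)]
    ring
  unfold cc ptR
  rw [e5, BGa_X5, BGa_Y5, r1, r2]
  have f1 : (n : ℝ) * (gw (th l t) - 12) = n * gw (th l t) - ((12 * n : ℕ) : ℝ) := by
    push_cast
    ring
  have f2 : (n : ℝ) * (12 - gw (th l t - 2)) = n * -gw (th l t - 2) + ((12 * n : ℕ) : ℝ) := by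
    push_cast
    ring
  rw [f1, f2, round_sub_natCast, round_add_natCast, Prod.mk_add_mk, sub_eq_add_neg]

private theorem BGa_ptR {n : ℕ} {θ θ' : ℝ} (z : ℤ) (h : θ = θ' + 8 * z) : ptR n θ = ptR n θ' := by
  rw [h, ptR_per]

/-- the open landing points are the end points of the corridors of the colour `0` -/
theorem land_o {l : ℕ} (hl : 1 ≤ l) (n : ℕ) (i : Fin l) : ∃ (t : ℕ) (i' : Fin l), t ≤ l ∧ t % 2 = 0 ∧
    ((cO l n i = ptR n (th l t) ∧ cO l n i' = ptR n (2 - th l t)) ∨ (cO l n i' = ptR n (th l t) ∧ cO l n i = ptR n (2 - th l t))) := by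
  have hl0 : (l : ℝ) ≠ 0 := by
    have : (1 : ℝ) ≤ l := by exact_mod_cast hl
    linarith
  obtain ⟨i, hi⟩ := i
  by_cases h : 2 * i ≤ l
  · by_cases h0 : i = 0
    · refine ⟨0, ⟨i, hi⟩, Nat.zero_le _, rfl, Or.inl ⟨?_, ?_⟩⟩
      · refine BGa_ptR 0 ?_
        unfold thO th
        subst h0
        push_cast
        ring
      · refine BGa_ptR 0 ?_
        unfold thO th
        subst h0
        push_cast
        ring
    · refine ⟨2 * i, ⟨l - i, by omega⟩, h, by omega, Or.inl ⟨?_, ?_⟩⟩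
      · refine BGa_ptR 0 ?_
        unfold thO th
        push_cast
        ring
      · refine BGa_ptR 1 ?_
        unfold thO th
        show 1 + 8 * ((l - i : ℕ) : ℝ) / l = 2 - (1 + 4 * ((2 * i : ℕ) : ℝ) / l) + 8 * ((1 : ℤ) : ℝ)
        rw [Nat.cast_sub hi.le]
        push_cast
        field_simp
        ring
  · refine ⟨2 * (l - i), ⟨l - i, by omega⟩, by omega, by omega, Or.inr ⟨?_, ?_⟩⟩
    · refine BGa_ptR 0 ?_
      unfold thO th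
      show 1 + 8 * ((l - i : ℕ) : ℝ) / l = 1 + 4 * ((2 * (l - i) : ℕ) : ℝ) / l + 8 * ((0 : ℤ) : ℝ)
      push_cast
      ring
    · refine BGa_ptR 1 ?_
      unfold thO th
      show 1 + 8 * ((i : ℕ) : ℝ) / l = 2 - (1 + 4 * ((2 * (l - i) : ℕ) : ℝ) / l) + 8 * ((1 : ℤ) : ℝ)
      push_cast
      rw [Nat.cast_sub hi.le]
      field_simp
      ring

/-- the dual landing points are the end points of the corridors of the colour `1` -/
theorem land_d {l : ℕ} (hl : 1 ≤ l) (n : ℕ) (i : Fin l) : ∃ (t : ℕ) (i' : Fin l), t ≤ l ∧ t % 2 = 1 ∧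
    ((cD l n i = ptR n (th l t) ∧ cD l n i' = ptR n (2 - th l t)) ∨ (cD l n i' = ptR n (th l t) ∧ cD l n i = ptR n (2 - th l t))) := by
  have hl0 : (l : ℝ) ≠ 0 := by
    have : (1 : ℝ) ≤ l := by exact_mod_cast hl
    linarith
  obtain ⟨i, hi⟩ := i
  have hc : ((l - 1 - i : ℕ) : ℝ) = (l : ℝ) - 1 - i := by
    rw [Nat.cast_sub (by omega), Nat.cast_sub hl, Nat.cast_one]
  by_cases h : 2 * i + 1 ≤ l
  · refine ⟨2 * i + 1, ⟨l - 1 - i, by omega⟩, h, by omega, Or.inl ⟨?_, ?_⟩⟩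
    · refine BGa_ptR 0 ?_
      unfold thD th
      push_cast
      ring
    · refine BGa_ptR 1 ?_
      unfold thD th
      show 1 + (8 * ((l - 1 - i : ℕ) : ℝ) + 4) / l = 2 - (1 + 4 * ((2 * i + 1 : ℕ) : ℝ) / l) + 8 * ((1 : ℤ) : ℝ)
      rw [hc]
      push_cast
      field_simp
      ring
  · refine ⟨2 * (l - 1 - i) + 1, ⟨l - 1 - i, by omega⟩, by omega, by omega, Or.inr ⟨?_, ?_⟩⟩
    · refine BGa_ptR 0 ?_
      unfold thD th
      show 1 + (8 * ((l - 1 - i : ℕ) : ℝ) + 4) / l = 1 + 4 * ((2 * (l - 1 - i) + 1 : ℕ) : ℝ) / l + 8 * ((0 : ℤ) : ℝ)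
      push_cast
      ring
    · refine BGa_ptR 1 ?_
      unfold thD th
      show 1 + (8 * ((i : ℕ) : ℝ) + 4) / l = 2 - (1 + 4 * ((2 * (l - 1 - i) + 1 : ℕ) : ℝ) / l) + 8 * ((1 : ℤ) : ℝ)
      rw [Nat.cast_add, Nat.cast_mul, hc]
      push_cast
      field_simp
      ring

theorem cO_cc {l : ℕ} (hl : 1 ≤ l) (n : ℕ) (i : Fin l) : ∃ t j : ℕ, t ≤ l ∧ t % 2 = 0 ∧ ∃ z : ℤ,
    (cO l n i).1 = (cc l n t j).1 + z * (12 * n) ∧ (cO l n i).2 = (cc l n t j).2 - z * (12 * n) := by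
  obtain ⟨t, i', ht, h2, h⟩ := land_o hl n i
  rcases h with ⟨h3, -⟩ | ⟨-, h3⟩
  · refine ⟨t, 0, ht, h2, 0, ?_, ?_⟩
    · rw [h3, cc_zero]
      ring
    · rw [h3, cc_zero]
      ring
  · refine ⟨t, 3000 * l, ht, h2, 1, ?_, ?_⟩
    · rw [h3, cc_end hl ht, Prod.fst_add]
      push_cast
      ring
    · rw [h3, cc_end hl ht, Prod.snd_add]
      push_cast
      ring

theorem cD_cc {l : ℕ} (hl : 1 ≤ l) (n : ℕ) (i : Fin l) : ∃ t j : ℕ, t ≤ l ∧ t % 2 = 1 ∧ ∃ z : ℤ,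
    (cD l n i).1 = (cc l n t j).1 + z * (12 * n) ∧ (cD l n i).2 = (cc l n t j).2 - z * (12 * n) := by
  obtain ⟨t, i', ht, h2, h⟩ := land_d hl n i
  rcases h with ⟨h3, -⟩ | ⟨-, h3⟩
  · refine ⟨t, 0, ht, h2, 0, ?_, ?_⟩
    · rw [h3, cc_zero]
      ring
    · rw [h3, cc_zero]
      ring
  · refine ⟨t, 3000 * l, ht, h2, 1, ?_, ?_⟩
    · rw [h3, cc_end hl ht, Prod.fst_add]
      push_cast
      ring
    · rw [h3, cc_end hl ht, Prod.snd_add]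
      push_cast
      ring

end EV
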