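import Pool.Agent.Lib.MP_216314_pr.EV.BGa

/-!
# Different corridors are far from each other (real coordinates)

Notation: `a = gw θ = max (-1) (min 1 x)`, `x = 3 - θ ∈ [-2,2]`, `b = gw (θ - 2) = min 1 (min (2 - x) (2 + x)) ∈ [0,1]` (`gw_15`), `h = 9 - θ = 6 + x ∈ [4,8]`. `Low θ p q`: the point `(p, q)` is on the first side of the corridor (height `b`, between `a` and `x`) or above the corner `(x, b)`.
PROOFS. `cor_mem`: cases `s ≤ 1`, `1 ≤ s ≤ 2`, `2 ≤ s ≤ 3`, `3 ≤ s ≤ 4`, `4 ≤ s` (`c01 s = 0` for `s ≤ 0`, `= s` on `[0,1]`, `= 1` for `s ≥ 1`): `[0,1]` (and `s ≤ 0`): `X = a + (x - a) c`, `c = c01 s ∈ [0,1]`, `Y = b`: `Low`, first kind (`min a x ≤ a + (x - a) c ≤ max a x`). `[1,2]`: `X = x`, `Y = b + (h - b) c ≥ b`: `Low`, second kind. `[2,3]`: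
`X = x - 12 c`, `Y = h`: second alternative (`-9 - θ = x - 12`). `[3,4]`: `X + 12 = x`, `Y = h + (12 - b - h) c`, so `12 - Y ≥ b` (`3 + θ - b = 12 - b - h`). `[4,5]` (and `5 ≤ s`): `X + 12 = x + (a - x) c`, `Y = 12 - b`. Also `0 ≤ Y ≤ 12`.
`low_far`: suppose `|p - p'| < d`, `|q - q'| < d`, `d ≤ 2`. Let `x' = 3 - θ'`, etc. Claim `|x - x'| < 2 d`.
 (i) both of the second kind: `|x - x'| = |p - p'| < d`.
 (ii) first kind for `θ`, second kind for `θ'`: `p' = x'`, `b' ≤ q' < b + d`. If `|x| ≤ 1`: `a = x`, so `p = x`, done. If `x ≥ 1`: `a = 1`, `b = 2 - x`, `1 ≤ p ≤ x`: so `x' < x + d` and `x' > 1 - d ≥ -1`. If `x' ≥ 1`: `b' = 2 - x' < 2 - x + d`, so `x' > x - d`. If `x' ≤ 1` (`x' > -1`): `b' = 1 < 2 - x + d`, so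
 `x < 1 + d`, with `x' > 1 - d`: `x - x' < 2 d`. The case `x ≤ -1` is symmetric (`x → -x`).
 (iii) both of the first kind: `|b - b'| < d`. If `|x| ≤ 1` and `|x'| ≤ 1`: `p = x`, `p' = x'`. If `x ≥ 1`, `x' ≥ 1`: `|b - b'| = |x - x'|`. If `x ≥ 1`, `|x'| ≤ 1`: `b' = 1`, `2 - x = b > 1 - d`, `x' = p' > p - d ≥ 1 - d`: `x - x' < 2 d`, and `x' ≤ 1 ≤ x`. If `x ≥ 1`, `x' ≤ -1`: `p ≥ 1`, `p' ≤ -1`, `|p - p'| ≥ 2 ≥ d`, impossible.
 The other cases by symmetry (prove the case `x ≥ 1` as a lemma, use it for `(θ, θ')` and `(θ', θ)` and for the reflected points `(-p, q)`, `θ → 6 - θ`: `Low (6 - θ) (-p) q ↔ Low θ p q` by `gw_15`); or split everything with `max_def`, `min_def` and `linarith`.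
`cor_far`: by `cor_mem` for both. `|z| ≥ 2` is impossible: `|Y - Y' - 12 z| ≥ 24 - 12 > 2`. `z = 0`: lower-lower: `low_far`; middle-middle: `|h - h'| = |θ - θ'| < d`; upper-upper: `low_far` for `(X + 12, 12 - Y)`; lower (`Low θ X Y`, `Y ≤ h`) - middle (`Y' = h'`, `x' - 12 ≤ X' ≤ x'`): if the lower point is of the first kind `Y = b ≤ 1`, `h' ≥ 4`, impossible;
 second kind: `X = x`: `x < X' + d ≤ x' + d`; `6 + x' = Y' < Y + d ≤ 6 + x + d`: so `|x - x'| < d`. middle (`θ`) - upper (`θ'`): first kind: `12 - Y' = b' ≤ 1`, `Y' ≥ 11`, `h ≤ 8`, impossible; second kind: `X' + 12 = x'`, `Y' ≥ h'`: `x' - 12 = X' > X - d ≥ x - 12 - d`, `6 + x' ≤ Y' < h + d = 6 + x + d`. lower-upper: first kinds: `Y = b ≤ 1` and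
 `Y' ≥ h' ≥ 4` impossible; `Y' = 12 - b' ≥ 11` and `Y ≤ h ≤ 8` impossible; second-second: `X = x ≥ -2`, `X' = x' - 12 ≤ -10` impossible. `z = 1`: `Y > Y' + 12 - d ≥ 10`, so `u` is upper, and `Y' < Y - 12 + d ≤ 2 < 4`, so `v` is lower: `Low θ (X + 12) (12 - Y)`, `Low θ' X' Y'`, `|(X + 12) - X'| < d`, and `|(12 - Y) - Y'| ≤ (12 - Y) + Y' = |Y - Y' - 12| < d` (`0 ≤ 12 - Y`, `0 ≤ Y'`): `low_far`.
 `z = -1`: symmetric.
`cor_core`: `Low θ p q → 0 ≤ q ∧ 1 ≤ max |p| |q|`: first kind: if `|x| ≥ 1` then `|p| ≥ 1` (`a = ±1` has the sign of `x`), otherwise `q = b = 1`; second kind: `|x| ≥ 1` or `q ≥ b = 1`. Then: `z = 0`: lower: this; otherwise `Y ≥ h ≥ 4`. `z = 1` (the point `(X + 12, Y - 12)`): upper: this for `(X + 12, 12 - Y)`; otherwise `Y ≤ 8`, `|Y - 12| ≥ 4`. `z ≤ -1`: `Y - 12 z ≥ 12`.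
`z ≥ 2`: `Y - 12 z ≤ -12`.
-/

set_option autoImplicit false

noncomputable section

namespace EV

open Finset FKI FKP FKN CY

/-- the lower part of the corridor -/
def Low (θ p q : ℝ) : Prop :=
  (q = gw (θ - 2) ∧ min (gw θ) (3 - θ) ≤ p ∧ p ≤ max (gw θ) (3 - θ)) ∨ (p = 3 - θ ∧ gw (θ - 2) ≤ q)

private theorem BGb_c0 {s : ℝ} (h : s ≤ 0) : c01 s = 0 := by
  unfold c01
  rw [min_eq_right (by linarith), max_eq_left h]

private theorem BGb_c1 {s : ℝ} (h : 1 ≤ s) : c01 s = 1 := by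
  unfold c01
  rw [min_eq_left h, max_eq_right (by norm_num)]

private theorem BGb_ci (s : ℝ) : 0 ≤ c01 s ∧ c01 s ≤ 1 := by
  unfold c01
  exact ⟨le_max_left _ _, max_le (by norm_num) (min_le_left _ _)⟩

private theorem BGb_vals {θ : ℝ} (h1 : 1 ≤ θ) (h5 : θ ≤ 5) :
    (θ ≤ 2 ∧ gw θ = 1 ∧ gw (θ - 2) = θ - 1) ∨ (2 ≤ θ ∧ θ ≤ 4 ∧ gw θ = 3 - θ ∧ gw (θ - 2) = 1) ∨
      (4 ≤ θ ∧ gw θ = -1 ∧ gw (θ - 2) = 5 - θ) := by
  obtain ⟨ha, hb⟩ := gw_15 h1 h5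
  rcases le_total θ 2 with h2 | h2
  · left
    refine ⟨h2, ?_, ?_⟩
    · rw [ha, min_eq_left (by linarith), max_eq_right (by norm_num)]
    · rw [hb, min_eq_left (by linarith : θ - 1 ≤ 5 - θ), min_eq_right (by linarith)]
  · rcases le_total θ 4 with h4 | h4
    · right
      left
      refine ⟨h2, h4, ?_, ?_⟩
      · rw [ha, min_eq_right (by linarith), max_eq_right (by linarith)]
      · rw [hb, min_eq_left]
        exact le_min (by linarith) (by linarith)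
    · right
      right
      refine ⟨h4, ?_, ?_⟩
      · rw [ha, min_eq_right (by linarith), max_eq_left (by linarith)]
      · rw [hb, min_eq_right (by linarith : 5 - θ ≤ θ - 1), min_eq_right (by linarith)]

private theorem BGb_low {θ p q : ℝ} (h1 : 1 ≤ θ) (h5 : θ ≤ 5) (h : Low θ p q) :
    (θ ≤ 2 ∧ q = θ - 1 ∧ 1 ≤ p ∧ p ≤ 3 - θ) ∨ (2 ≤ θ ∧ θ ≤ 4 ∧ q = 1 ∧ p = 3 - θ) ∨
      (4 ≤ θ ∧ q = 5 - θ ∧ 3 - θ ≤ p ∧ p ≤ -1) ∨ (θ ≤ 2 ∧ p = 3 - θ ∧ θ - 1 ≤ q) ∨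
      (2 ≤ θ ∧ θ ≤ 4 ∧ p = 3 - θ ∧ 1 ≤ q) ∨ (4 ≤ θ ∧ p = 3 - θ ∧ 5 - θ ≤ q) := by
  rcases BGb_vals h1 h5 with ⟨k1, k2, k3⟩ | ⟨k1, k1', k2, k3⟩ | ⟨k1, k2, k3⟩
  · rcases h with ⟨m1, m2, m3⟩ | ⟨m1, m2⟩
    · rw [k2] at m2 m3
      rw [k3] at m1
      rw [min_eq_left (by linarith)] at m2
      rw [max_eq_right (by linarith)] at m3
      exact Or.inl ⟨k1, m1, m2, m3⟩
    · rw [k3] at m2
      exact Or.inr (Or.inr (Or.inr (Or.inl ⟨k1, m1, m2⟩)))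
  · rcases h with ⟨m1, m2, m3⟩ | ⟨m1, m2⟩
    · rw [k2] at m2 m3
      rw [k3] at m1
      rw [min_self] at m2
      rw [max_self] at m3
      exact Or.inr (Or.inl ⟨k1, k1', m1, le_antisymm m3 m2⟩)
    · rw [k3] at m2
      exact Or.inr (Or.inr (Or.inr (Or.inr (Or.inl ⟨k1, k1', m1, m2⟩))))
  · rcases h with ⟨m1, m2, m3⟩ | ⟨m1, m2⟩
    · rw [k2] at m2 m3
      rw [k3] at m1
      rw [min_eq_right (by linarith)] at m2
      rw [max_eq_left (by linarith)] at m3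
      exact Or.inr (Or.inr (Or.inl ⟨k1, m1, m2, m3⟩))
    · rw [k3] at m2
      exact Or.inr (Or.inr (Or.inr (Or.inr (Or.inr ⟨k1, m1, m2⟩))))

private theorem BGb_seg (a x c : ℝ) (h0 : 0 ≤ c) (h1 : c ≤ 1) :
    min a x ≤ a + (x - a) * c ∧ a + (x - a) * c ≤ max a x := by
  rcases le_total a x with h | h
  · rw [min_eq_left h, max_eq_right h]
    have k1 : 0 ≤ (x - a) * c := mul_nonneg (by linarith) h0
    have k2 : (x - a) * c ≤ (x - a) * 1 := mul_le_mul_of_nonneg_left h1 (by linarith)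
    constructor <;> linarith
  · rw [min_eq_right h, max_eq_left h]
    have k1 : 0 ≤ (a - x) * c := mul_nonneg (by linarith) h0
    have k2 : (a - x) * c ≤ (a - x) * 1 := mul_le_mul_of_nonneg_left h1 (by linarith)
    constructor <;> nlinarith

theorem cor_mem {θ : ℝ} (h1 : 1 ≤ θ) (h5 : θ ≤ 5) (s : ℝ) :
    (0 ≤ cY θ s ∧ cY θ s ≤ 12) ∧
    ((Low θ (cX θ s) (cY θ s) ∧ cY θ s ≤ 9 - θ) ∨ (cY θ s = 9 - θ ∧ -9 - θ ≤ cX θ s ∧ cX θ s ≤ 3 - θ) ∨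
      (Low θ (cX θ s + 12) (12 - cY θ s) ∧ 9 - θ ≤ cY θ s)) := by
  have hb : 0 ≤ gw (θ - 2) ∧ gw (θ - 2) ≤ 1 := by
    rcases BGb_vals h1 h5 with ⟨k1, k2, k3⟩ | ⟨k1, k1', k2, k3⟩ | ⟨k1, k2, k3⟩ <;> rw [k3] <;>
      constructor <;> linarith
  obtain ⟨hb0, hb1⟩ := hb
  rcases le_total s 1 with s1 | s1
  · have e0 := BGb_ci s
    have e1 : c01 (s - 1) = 0 := BGb_c0 (by linarith)
    have e2 : c01 (s - 2) = 0 := BGb_c0 (by linarith)
    have e3 : c01 (s - 3) = 0 := BGb_c0 (by linarith)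
    have e4 : c01 (s - 4) = 0 := BGb_c0 (by linarith)
    have hX : cX θ s = gw θ + (3 - θ - gw θ) * c01 s := by
      unfold cX
      rw [e2, e4]
      ring
    have hY : cY θ s = gw (θ - 2) := by
      unfold cY
      rw [e1, e3]
      ring
    rw [hX, hY]
    obtain ⟨k1, k2⟩ := BGb_seg (gw θ) (3 - θ) (c01 s) e0.1 e0.2
    refine ⟨⟨by linarith, by linarith⟩, Or.inl ⟨Or.inl ⟨rfl, k1, k2⟩, by linarith⟩⟩
  rcases le_total s 2 with s2 | s2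
  · have e0 : c01 s = 1 := BGb_c1 (by linarith)
    have e1 := BGb_ci (s - 1)
    have e2 : c01 (s - 2) = 0 := BGb_c0 (by linarith)
    have e3 : c01 (s - 3) = 0 := BGb_c0 (by linarith)
    have e4 : c01 (s - 4) = 0 := BGb_c0 (by linarith)
    have hX : cX θ s = 3 - θ := by
      unfold cX
      rw [e0, e2, e4]
      ring
    have hY : cY θ s = gw (θ - 2) + (9 - θ - gw (θ - 2)) * c01 (s - 1) := by
      unfold cY
      rw [e3]
      ring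
    have k1 : 0 ≤ (9 - θ - gw (θ - 2)) * c01 (s - 1) := mul_nonneg (by linarith) e1.1
    have k2 : (9 - θ - gw (θ - 2)) * c01 (s - 1) ≤ (9 - θ - gw (θ - 2)) * 1 :=
      mul_le_mul_of_nonneg_left e1.2 (by linarith)
    rw [hX, hY]
    refine ⟨⟨by linarith, by linarith⟩, Or.inl ⟨Or.inr ⟨rfl, by linarith⟩, by linarith⟩⟩
  rcases le_total s 3 with s3 | s3
  · have e0 : c01 s = 1 := BGb_c1 (by linarith)
    have e1 : c01 (s - 1) = 1 := BGb_c1 (by linarith)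
    have e2 := BGb_ci (s - 2)
    have e3 : c01 (s - 3) = 0 := BGb_c0 (by linarith)
    have e4 : c01 (s - 4) = 0 := BGb_c0 (by linarith)
    have hX : cX θ s = 3 - θ - 12 * c01 (s - 2) := by
      unfold cX
      rw [e0, e4]
      ring
    have hY : cY θ s = 9 - θ := by
      unfold cY
      rw [e1, e3]
      ring
    rw [hX, hY]
    refine ⟨⟨by linarith, by linarith⟩, Or.inr (Or.inl ⟨rfl, by linarith, by linarith⟩)⟩
  rcases le_total s 4 with s4 | s4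
  · have e0 : c01 s = 1 := BGb_c1 (by linarith)
    have e1 : c01 (s - 1) = 1 := BGb_c1 (by linarith)
    have e2 : c01 (s - 2) = 1 := BGb_c1 (by linarith)
    have e3 := BGb_ci (s - 3)
    have e4 : c01 (s - 4) = 0 := BGb_c0 (by linarith)
    have hX : cX θ s = 3 - θ - 12 := by
      unfold cX
      rw [e0, e2, e4]
      ring
    have hY : cY θ s = 9 - θ + (3 + θ - gw (θ - 2)) * c01 (s - 3) := by
      unfold cY
      rw [e1]
      ring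
    have k1 : 0 ≤ (3 + θ - gw (θ - 2)) * c01 (s - 3) := mul_nonneg (by linarith) e3.1
    have k2 : (3 + θ - gw (θ - 2)) * c01 (s - 3) ≤ (3 + θ - gw (θ - 2)) * 1 :=
      mul_le_mul_of_nonneg_left e3.2 (by linarith)
    rw [hX, hY]
    refine ⟨⟨by linarith, by linarith⟩, Or.inr (Or.inr ⟨Or.inr ⟨by ring, by linarith⟩, by linarith⟩)⟩
  · have e0 : c01 s = 1 := BGb_c1 (by linarith)
    have e1 : c01 (s - 1) = 1 := BGb_c1 (by linarith)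
    have e2 : c01 (s - 2) = 1 := BGb_c1 (by linarith)
    have e3 : c01 (s - 3) = 1 := BGb_c1 (by linarith)
    have e4 := BGb_ci (s - 4)
    have hX : cX θ s + 12 = gw θ + (3 - θ - gw θ) * (1 - c01 (s - 4)) := by
      unfold cX
      rw [e0, e2]
      ring
    have hY : cY θ s = 12 - gw (θ - 2) := by
      unfold cY
      rw [e1, e3]
      ring
    obtain ⟨k1, k2⟩ := BGb_seg (gw θ) (3 - θ) (1 - c01 (s - 4)) (by linarith) (by linarith)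
    rw [hX, hY]
    refine ⟨⟨by linarith, by linarith⟩, Or.inr (Or.inr ⟨Or.inl ⟨by ring, k1, k2⟩, by linarith⟩)⟩

theorem low_far {θ θ' p p' q q' d : ℝ} (h1 : 1 ≤ θ) (h5 : θ ≤ 5) (h1' : 1 ≤ θ') (h5' : θ' ≤ 5) (hd : d ≤ 2)
    (h : Low θ p q) (h' : Low θ' p' q') (hp : |p - p'| < d) (hq : |q - q'| < d) : |θ - θ'| < 2 * d := by
  rw [abs_lt] at hp hq ⊢
  obtain ⟨p1, p2⟩ := hp
  obtain ⟨q1, q2⟩ := hq
  rcases BGb_low h1 h5 h with ⟨a1, a2, a3, a4⟩ | ⟨a1, a2, a3, a4⟩ | ⟨a1, a2, a3, a4⟩ |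
    ⟨a1, a2, a3⟩ | ⟨a1, a2, a3, a4⟩ | ⟨a1, a2, a3⟩ <;>
  rcases BGb_low h1' h5' h' with ⟨b1, b2, b3, b4⟩ | ⟨b1, b2, b3, b4⟩ | ⟨b1, b2, b3, b4⟩ |
    ⟨b1, b2, b3⟩ | ⟨b1, b2, b3, b4⟩ | ⟨b1, b2, b3⟩ <;>
  constructor <;> linarith

/-- the case of a lower point and a point in the middle -/
private theorem BGb_lm {θ θ' d p q p' : ℝ} (h1 : 1 ≤ θ) (h5 : θ ≤ 5) (h5' : θ' ≤ 5)
    (hd : d ≤ 2) (h : Low θ p q) (hq : q ≤ 9 - θ) (hp1 : p - p' < d) (hp2 : p' ≤ 3 - θ')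
    (hq1 : 9 - θ' - q < d) : |θ - θ'| < 2 * d := by
  rw [abs_lt]
  rcases BGb_low h1 h5 h with ⟨a1, a2, a3, a4⟩ | ⟨a1, a2, a3, a4⟩ | ⟨a1, a2, a3, a4⟩ |
    ⟨a1, a2, a3⟩ | ⟨a1, a2, a3, a4⟩ | ⟨a1, a2, a3⟩ <;>
  constructor <;> linarith

/-- two corridors whose points are close have close angles -/
theorem cor_far {θ θ' d : ℝ} (h1 : 1 ≤ θ) (h5 : θ ≤ 5) (h1' : 1 ≤ θ') (h5' : θ' ≤ 5) (hd : d ≤ 2) (s s' : ℝ) (z : ℤ)
    (hx : |cX θ s - cX θ' s' + 12 * z| < d) (hy : |cY θ s - cY θ' s' - 12 * z| < d) : |θ - θ'| < 2 * d := by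
  obtain ⟨⟨y0, y12⟩, hu⟩ := cor_mem h1 h5 s
  obtain ⟨⟨y0', y12'⟩, hv⟩ := cor_mem h1' h5' s'
  generalize cX θ s = X at *
  generalize cY θ s = Y at *
  generalize cX θ' s' = X' at *
  generalize cY θ' s' = Y' at *
  rw [abs_lt] at hx hy
  obtain ⟨x1, x2⟩ := hx
  obtain ⟨w1, w2⟩ := hy
  have hz1 : z ≤ 1 := by
    by_contra hcon
    have h2 : (2 : ℝ) ≤ z := by exact_mod_cast (by omega : 2 ≤ z)
    linarith
  have hz2 : -1 ≤ z := by
    by_contra hcon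
    have h2 : (z : ℝ) ≤ -2 := by exact_mod_cast (by omega : z ≤ -2)
    linarith
  have hz : z = -1 ∨ z = 0 ∨ z = 1 := by omega
  rcases hz with rfl | rfl | rfl
  · push_cast at x1 x2 w1 w2
    rcases hu with ⟨hu1, hu2⟩ | ⟨hu1, hu2, hu3⟩ | ⟨hu1, hu2⟩
    · rcases hv with ⟨hv1, hv2⟩ | ⟨hv1, hv2, hv3⟩ | ⟨hv1, hv2⟩
      · linarith
      · linarith
      · refine low_far h1 h5 h1' h5' hd hu1 hv1 ?_ ?_
        · rw [abs_lt]
          constructor <;> linarith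
        · rw [abs_lt]
          constructor <;> linarith
    · linarith
    · linarith
  · push_cast at x1 x2 w1 w2
    rcases hu with ⟨hu1, hu2⟩ | ⟨hu1, hu2, hu3⟩ | ⟨hu1, hu2⟩
    · rcases hv with ⟨hv1, hv2⟩ | ⟨hv1, hv2, hv3⟩ | ⟨hv1, hv2⟩
      · refine low_far h1 h5 h1' h5' hd hu1 hv1 ?_ ?_
        · rw [abs_lt]
          constructor <;> linarith
        · rw [abs_lt]
          constructor <;> linarith
      · exact BGb_lm (p' := X') h1 h5 h5' hd hu1 hu2 (by linarith) hv3 (by linarith)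
      · exfalso
        rcases BGb_low h1 h5 hu1 with ⟨a1, a2, a3, a4⟩ | ⟨a1, a2, a3, a4⟩ | ⟨a1, a2, a3, a4⟩ |
          ⟨a1, a2, a3⟩ | ⟨a1, a2, a3, a4⟩ | ⟨a1, a2, a3⟩ <;>
        rcases BGb_low h1' h5' hv1 with ⟨b1, b2, b3, b4⟩ | ⟨b1, b2, b3, b4⟩ | ⟨b1, b2, b3, b4⟩ |
          ⟨b1, b2, b3⟩ | ⟨b1, b2, b3, b4⟩ | ⟨b1, b2, b3⟩ <;>
        linarith
    · rcases hv with ⟨hv1, hv2⟩ | ⟨hv1, hv2, hv3⟩ | ⟨hv1, hv2⟩
      · rw [abs_sub_comm]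
        exact BGb_lm (p' := X) h1' h5' h5 hd hv1 hv2 (by linarith) hu3 (by linarith)
      · rw [abs_lt]
        constructor <;> linarith
      · -- the point in the middle and the upper point
        rw [abs_lt]
        rcases BGb_low h1' h5' hv1 with ⟨b1, b2, b3, b4⟩ | ⟨b1, b2, b3, b4⟩ | ⟨b1, b2, b3, b4⟩ |
          ⟨b1, b2, b3⟩ | ⟨b1, b2, b3, b4⟩ | ⟨b1, b2, b3⟩ <;>
        constructor <;> linarith
    · rcases hv with ⟨hv1, hv2⟩ | ⟨hv1, hv2, hv3⟩ | ⟨hv1, hv2⟩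
      · exfalso
        rcases BGb_low h1 h5 hu1 with ⟨a1, a2, a3, a4⟩ | ⟨a1, a2, a3, a4⟩ | ⟨a1, a2, a3, a4⟩ |
          ⟨a1, a2, a3⟩ | ⟨a1, a2, a3, a4⟩ | ⟨a1, a2, a3⟩ <;>
        rcases BGb_low h1' h5' hv1 with ⟨b1, b2, b3, b4⟩ | ⟨b1, b2, b3, b4⟩ | ⟨b1, b2, b3, b4⟩ |
          ⟨b1, b2, b3⟩ | ⟨b1, b2, b3, b4⟩ | ⟨b1, b2, b3⟩ <;>
        linarith
      · rw [abs_lt]
        rcases BGb_low h1 h5 hu1 with ⟨b1, b2, b3, b4⟩ | ⟨b1, b2, b3, b4⟩ | ⟨b1, b2, b3, b4⟩ |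
          ⟨b1, b2, b3⟩ | ⟨b1, b2, b3, b4⟩ | ⟨b1, b2, b3⟩ <;>
        constructor <;> linarith
      · refine low_far h1 h5 h1' h5' hd hu1 hv1 ?_ ?_
        · rw [abs_lt]
          constructor <;> linarith
        · rw [abs_lt]
          constructor <;> linarith
  · push_cast at x1 x2 w1 w2
    rcases hu with ⟨hu1, hu2⟩ | ⟨hu1, hu2, hu3⟩ | ⟨hu1, hu2⟩
    · linarith
    · linarith
    · rcases hv with ⟨hv1, hv2⟩ | ⟨hv1, hv2, hv3⟩ | ⟨hv1, hv2⟩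
      · refine low_far h1 h5 h1' h5' hd hu1 hv1 ?_ ?_
        · rw [abs_lt]
          constructor <;> linarith
        · rw [abs_lt]
          constructor <;> linarith
      · linarith
      · linarith

private theorem BGb_one {θ p q : ℝ} (h1 : 1 ≤ θ) (h5 : θ ≤ 5) (h : Low θ p q) : 1 ≤ max |p| |q| := by
  rw [le_max_iff, le_abs, le_abs]
  rcases BGb_low h1 h5 h with ⟨a1, a2, a3, a4⟩ | ⟨a1, a2, a3, a4⟩ | ⟨a1, a2, a3, a4⟩ |
    ⟨a1, a2, a3⟩ | ⟨a1, a2, a3, a4⟩ | ⟨a1, a2, a3⟩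
  · exact Or.inl (Or.inl a3)
  · exact Or.inr (Or.inl a3.ge)
  · exact Or.inl (Or.inr (by linarith))
  · exact Or.inl (Or.inl (by linarith))
  · exact Or.inr (Or.inl a4)
  · exact Or.inl (Or.inr (by linarith))

/-- the corridors are outside of the boxes of radius `1` -/
theorem cor_core {θ : ℝ} (h1 : 1 ≤ θ) (h5 : θ ≤ 5) (s : ℝ) (z : ℤ) : 1 ≤ max |cX θ s + 12 * z| |cY θ s - 12 * z| := by
  obtain ⟨⟨y0, y12⟩, hu⟩ := cor_mem h1 h5 s
  generalize cX θ s = X at *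
  generalize cY θ s = Y at *
  rcases lt_trichotomy z 0 with hz | rfl | hz
  · have h2 : (z : ℝ) ≤ -1 := by exact_mod_cast (by omega : z ≤ -1)
    rw [le_max_iff, le_abs, le_abs]
    exact Or.inr (Or.inl (by linarith))
  · push_cast
    rw [mul_zero, add_zero, sub_zero]
    rcases hu with ⟨hu1, hu2⟩ | ⟨hu1, hu2, hu3⟩ | ⟨hu1, hu2⟩
    · exact BGb_one h1 h5 hu1
    · rw [le_max_iff, le_abs, le_abs]
      exact Or.inr (Or.inl (by linarith))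
    · rw [le_max_iff, le_abs, le_abs]
      exact Or.inr (Or.inl (by linarith))
  · rcases lt_or_ge 1 z with h2 | h2
    · have h3 : (2 : ℝ) ≤ z := by exact_mod_cast (by omega : 2 ≤ z)
      rw [le_max_iff, le_abs, le_abs]
      exact Or.inr (Or.inr (by linarith))
    · have h3 : z = 1 := by omega
      subst h3
      push_cast
      rw [mul_one]
      rcases hu with ⟨hu1, hu2⟩ | ⟨hu1, hu2, hu3⟩ | ⟨hu1, hu2⟩
      · rw [le_max_iff, le_abs, le_abs]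
        exact Or.inr (Or.inr (by linarith))
      · rw [le_max_iff, le_abs, le_abs]
        exact Or.inr (Or.inr (by linarith))
      · have h4 := BGb_one h1 h5 hu1
        rwa [abs_sub_comm 12 Y] at h4

end EV
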