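import Pool.Agent.Lib.MP_216314_pr.EV.BGb

/-!
# The centres of the circuits along the corridors

PROOFS. `cor_lip`: `c01` is 1-Lipschitz, and the factors are at most `1`, `12`, `1` for `cX` and at most `8` for `cY` (`|3 - θ - gw θ| ≤ 1`, `0 ≤ 9 - θ - gw (θ - 2) ≤ 8`, `0 ≤ 3 + θ - gw (θ - 2) ≤ 8`; `gw_15`). For `s ≤ s'`: at most one of the three functions `c01 s`, `c01 (s - 2)`, `c01 (s - 4)` changes on every unit interval; it is enough to have the
(rough) bound `|cX θ s - cX θ s'| ≤ 14 |s - s'|` and `|cY θ s - cY θ s'| ≤ 16 |s - s'|` (sum of the Lipschitz constants).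
`cc_step`: with `s = j / (600 l)`, `s' = (j + 1) / (600 l)`: `|n cX - n cX'| ≤ 16 n / (600 l)`, so the difference of the rounded values is at most `16 n / (600 l) + 1` (`abs_sub_round`), and `4 rr l n ≥ 4 (n / (100 l) - 1) = 24 n / (600 l) - 4` (`rr l n = n / (100 l)` in natural numbers: `n < 100 l (rr l n + 1)`). `8 n / (600 l) ≥ 5` since `n ≥ 375 l`; everything is cast to `ℝ`.
`cc_bd`: `cX ∈ [-14, 2]`, `cY ∈ [0, 12]` (`cor_mem`: `Low`: `p` is between `a` and `x`, or `p = x`), rounding.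
`cc_far`: suppose that both absolute values are `< n / l` (natural division); as integers they are `≤ n / l - 1`. In reals: `|n cX - n cX' + 12 n z| ≤ (n / l - 1) + 1/2 + 1/2 ≤ n / l` (real), so `|cX - cX' + 12 z| ≤ 1 / l < 2 / l =: d ≤ 2` (`0 < n`), the same for `cY`; `cor_far`: `|th l t - th l t'| < 4 / l`, but `|th l t - th l t'| = 4 |t - t'| / l ≥ 4 / l`.
`cc_core`: `cor_core` multiplied by `n`: one of the real numbers has absolute value `≥ n`, the rounded one `≥ n - 1/2`.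
-/

set_option autoImplicit false

noncomputable section

namespace EV

open Finset FKI FKP FKN CY

private theorem BGc_vals {θ : ℝ} (h1 : 1 ≤ θ) (h5 : θ ≤ 5) :
    (θ ≤ 2 ∧ gw θ = 1 ∧ gw (θ - 2) = θ - 1) ∨ (2 ≤ θ ∧ θ ≤ 4 ∧ gw θ = 3 - θ ∧ gw (θ - 2) = 1) ∨
      (4 ≤ θ ∧ gw θ = -1 ∧ gw (θ - 2) = 5 - θ) := by
  obtain ⟨ha, hb⟩ := gw_15 h1 h5
  rcases le_total θ 2 with h2 | h2
  · left
    refine ⟨h2, ?_, ?_⟩
    · rw [ha, min_eq_left (by linarith), max_eq_right (by norm_num)]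
    · rw [hb, min_eq_left (by linarith : θ - 1 ≤ 5 - θ), min_eq_right (by linarith)]
  · rcases le_total θ 4 with h4 | h4
    · right
      left
      refine ⟨h2, h4, ?_, ?_⟩
      · rw [ha, min_eq_right (by linarith), max_eq_right (by linarith)]
      · rw [hb, min_eq_left]
        exact le_min (by linarith) (by linarith)
    · right
      right
      refine ⟨h4, ?_, ?_⟩
      · rw [ha, min_eq_right (by linarith), max_eq_left (by linarith)]
      · rw [hb, min_eq_right (by linarith : 5 - θ ≤ θ - 1), min_eq_right (by linarith)]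

private theorem BGc_c01 (s s' : ℝ) : |c01 s - c01 s'| ≤ |s - s'| := by
  unfold c01
  refine (abs_max_sub_max_le_max 0 (min 1 s) 0 (min 1 s')).trans ?_
  rw [sub_self, abs_zero]
  refine max_le (abs_nonneg _) ?_
  refine (abs_min_sub_min_le_max 1 s 1 s').trans ?_
  rw [sub_self, abs_zero]
  exact max_le (abs_nonneg _) le_rfl

private theorem BGc_mul {a b k r : ℝ} (ha : |a| ≤ k) (hb : |b| ≤ r) : |a * b| ≤ k * r := by
  rw [abs_mul]
  exact mul_le_mul ha hb (abs_nonneg _) ((abs_nonneg _).trans ha)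

private theorem BGc_low {θ p q : ℝ} (h1 : 1 ≤ θ) (h5 : θ ≤ 5) (h : Low θ p q) : -2 ≤ p ∧ p ≤ 2 := by
  rcases h with ⟨-, m2, m3⟩ | ⟨m1, -⟩
  · rcases BGc_vals h1 h5 with ⟨k1, k2, k3⟩ | ⟨k1, k1', k2, k3⟩ | ⟨k1, k2, k3⟩
    · rw [k2, min_eq_left (by linarith)] at m2
      rw [k2, max_eq_right (by linarith)] at m3
      constructor <;> linarith
    · rw [k2, min_self] at m2
      rw [k2, max_self] at m3
      constructor <;> linarith
    · rw [k2, min_eq_right (by linarith)] at m2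
      rw [k2, max_eq_left (by linarith)] at m3
      constructor <;> linarith
  · constructor <;> linarith

private theorem BGc_rng {θ : ℝ} (h1 : 1 ≤ θ) (h5 : θ ≤ 5) (s : ℝ) :
    -14 ≤ cX θ s ∧ cX θ s ≤ 2 ∧ 0 ≤ cY θ s ∧ cY θ s ≤ 12 := by
  obtain ⟨⟨y0, y12⟩, hu⟩ := cor_mem h1 h5 s
  rcases hu with ⟨hu1, hu2⟩ | ⟨hu1, hu2, hu3⟩ | ⟨hu1, hu2⟩
  · obtain ⟨a1, a2⟩ := BGc_low h1 h5 hu1
    exact ⟨by linarith, a2, y0, y12⟩
  · exact ⟨by linarith, by linarith, y0, y12⟩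
  · obtain ⟨a1, a2⟩ := BGc_low h1 h5 hu1
    exact ⟨by linarith, by linarith, y0, y12⟩

private theorem BGc_round (u v : ℝ) : |((round u : ℤ) : ℝ) - (round v : ℤ)| ≤ |u - v| + 1 := by
  have h1 := abs_sub_round u
  have h2 := abs_sub_round v
  have h3 := le_abs_self (u - v)
  have h4 := neg_abs_le (u - v)
  rw [abs_le] at h1 h2 ⊢
  constructor <;> linarith [h1.1, h1.2, h2.1, h2.2]

theorem cor_lip {θ : ℝ} (h1 : 1 ≤ θ) (h5 : θ ≤ 5) (s s' : ℝ) :
    |cX θ s - cX θ s'| ≤ 14 * |s - s'| ∧ |cY θ s - cY θ s'| ≤ 16 * |s - s'| := by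
  have ha : |3 - θ - gw θ| ≤ 1 ∧ |9 - θ - gw (θ - 2)| ≤ 8 ∧ |3 + θ - gw (θ - 2)| ≤ 8 := by
    simp only [abs_le]
    rcases BGc_vals h1 h5 with ⟨k1, k2, k3⟩ | ⟨k1, k1', k2, k3⟩ | ⟨k1, k2, k3⟩ <;>
      rw [k2, k3] <;> refine ⟨⟨?_, ?_⟩, ⟨?_, ?_⟩, ?_, ?_⟩ <;> linarith
  obtain ⟨a1, a2, a3⟩ := ha
  have e : ∀ r : ℝ, |s - r - (s' - r)| = |s - s'| := fun r => by
    congr 1
    ring
  have c0 := BGc_c01 s s'
  have c1 := BGc_c01 (s - 1) (s' - 1)
  have c2 := BGc_c01 (s - 2) (s' - 2)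
  have c3 := BGc_c01 (s - 3) (s' - 3)
  have c4 := BGc_c01 (s - 4) (s' - 4)
  rw [e] at c1 c2 c3 c4
  constructor
  · have h : cX θ s - cX θ s' = (3 - θ - gw θ) * (c01 s - c01 s') - 12 * (c01 (s - 2) - c01 (s' - 2)) -
        (3 - θ - gw θ) * (c01 (s - 4) - c01 (s' - 4)) := by
      unfold cX
      ring
    have m0 := BGc_mul a1 c0
    have m4 := BGc_mul a1 c4
    rw [h]
    rw [abs_le] at m0 m4 c2 ⊢
    constructor <;> linarith [m0.1, m0.2, m4.1, m4.2, c2.1, c2.2]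
  · have h : cY θ s - cY θ s' = (9 - θ - gw (θ - 2)) * (c01 (s - 1) - c01 (s' - 1)) +
        (3 + θ - gw (θ - 2)) * (c01 (s - 3) - c01 (s' - 3)) := by
      unfold cY
      ring
    have m1 := BGc_mul a2 c1
    have m3 := BGc_mul a3 c3
    rw [h]
    rw [abs_le] at m1 m3 ⊢
    constructor <;> linarith [m1.1, m1.2, m3.1, m3.2]

theorem cc_step {l n t : ℕ} (hl : 1 ≤ l) (hn : 400 * l ≤ n) (ht : t ≤ l) (j : ℕ) : nrm (cc l n t (j + 1) - cc l n t j) ≤ 4 * (rr l n : ℤ) := by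
  obtain ⟨t1, t5⟩ := th_range hl ht
  have hL : (1 : ℝ) ≤ l := by exact_mod_cast hl
  have hN : 400 * (l : ℝ) ≤ n := by exact_mod_cast hn
  obtain ⟨w, hw⟩ : ∃ w : ℝ, w = (n : ℝ) / (100 * l) := ⟨_, rfl⟩
  have hw4 : 4 ≤ w := by
    rw [hw, le_div_iff₀ (by positivity)]
    linarith
  have hwq : w < (rr l n : ℝ) + 1 := by
    rw [hw, div_lt_iff₀ (by positivity)]
    have h1 : n < 100 * l * (n / (100 * l) + 1) := by
      have h2 := Nat.div_add_mod n (100 * l)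
      have h3 := Nat.mod_lt n (y := 100 * l) (by omega)
      rw [Nat.mul_add, Nat.mul_one]
      omega
    have h2 : (n : ℝ) < 100 * l * ((n / (100 * l) : ℕ) + 1) := by exact_mod_cast h1
    unfold FKN.rr
    linarith
  have hs : |((j + 1 : ℕ) : ℝ) / (600 * l) - (j : ℝ) / (600 * l)| = 1 / (600 * l) := by
    rw [← sub_div]
    push_cast
    rw [add_sub_cancel_left, abs_of_pos (by positivity)]
  obtain ⟨lx, ly⟩ := cor_lip t1 t5 (((j + 1 : ℕ) : ℝ) / (600 * l)) ((j : ℝ) / (600 * l))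
  rw [hs] at lx ly
  have hwn : (n : ℝ) * (1 / (600 * l)) = w / 6 := by
    rw [hw]
    field_simp
    ring
  have hn0 : (0 : ℝ) ≤ n := Nat.cast_nonneg n
  have key : ∀ f g : ℝ, |f - g| ≤ 16 * (1 / (600 * l)) →
      |((round ((n : ℝ) * f) : ℤ) : ℝ) - (round ((n : ℝ) * g) : ℤ)| < 4 * (rr l n : ℝ) := by
    intro f g hfg
    refine (BGc_round _ _).trans_lt ?_
    rw [← mul_sub, abs_mul, abs_of_nonneg hn0]
    have h1 := mul_le_mul_of_nonneg_left hfg hn0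
    have h2 : (n : ℝ) * (16 * (1 / (600 * l))) = 16 * (w / 6) := by rw [← hwn]; ring
    rw [h2] at h1
    linarith
  have kx := key _ _ (lx.trans (by
    have : (0 : ℝ) ≤ 1 / (600 * l) := by positivity
    linarith))
  have ky := key _ _ ly
  unfold nrm
  refine max_le ?_ ?_
  · have h1 : |(cc l n t (j + 1)).1 - (cc l n t j).1| < 4 * (rr l n : ℤ) := by
      unfold cc
      exact_mod_cast kx
    exact h1.le
  · have h1 : |(cc l n t (j + 1)).2 - (cc l n t j).2| < 4 * (rr l n : ℤ) := by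
      unfold cc
      exact_mod_cast ky
    exact h1.le

theorem cc_bd {l n t : ℕ} (hl : 1 ≤ l) (ht : t ≤ l) (j : ℕ) :
    -(14 * (n : ℤ) + 1) ≤ (cc l n t j).1 ∧ (cc l n t j).1 ≤ 2 * n + 1 ∧ -1 ≤ (cc l n t j).2 ∧ (cc l n t j).2 ≤ 12 * n + 1 := by
  obtain ⟨t1, t5⟩ := th_range hl ht
  obtain ⟨a1, a2, a3, a4⟩ := BGc_rng t1 t5 ((j : ℝ) / (600 * l))
  have hn0 : (0 : ℝ) ≤ n := Nat.cast_nonneg n
  unfold cc
  simp only
  generalize cX (th l t) ((j : ℝ) / (600 * l)) = X at *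
  generalize cY (th l t) ((j : ℝ) / (600 * l)) = Y at *
  have h1 := abs_sub_round ((n : ℝ) * X)
  have h2 := abs_sub_round ((n : ℝ) * Y)
  have m1 := mul_le_mul_of_nonneg_left a1 hn0
  have m2 := mul_le_mul_of_nonneg_left a2 hn0
  have m3 := mul_le_mul_of_nonneg_left a3 hn0
  have m4 := mul_le_mul_of_nonneg_left a4 hn0
  rw [abs_le] at h1 h2
  obtain ⟨h11, h12⟩ := h1
  obtain ⟨h21, h22⟩ := h2
  refine ⟨?_, ?_, ?_, ?_⟩
  · have h : (-(14 * (n : ℝ) + 1)) ≤ (round ((n : ℝ) * X) : ℤ) := by linarith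
    exact_mod_cast h
  · have h : ((round ((n : ℝ) * X) : ℤ) : ℝ) ≤ 2 * n + 1 := by linarith
    exact_mod_cast h
  · have h : (-1 : ℝ) ≤ (round ((n : ℝ) * Y) : ℤ) := by linarith
    exact_mod_cast h
  · have h : ((round ((n : ℝ) * Y) : ℤ) : ℝ) ≤ 12 * n + 1 := by linarith
    exact_mod_cast h

theorem cc_far {l n t t' : ℕ} (hl : 1 ≤ l) (hn : 1 ≤ n) (ht : t ≤ l) (ht' : t' ≤ l) (hne : t ≠ t') (j j' : ℕ) (z : ℤ) :
    ((n / l : ℕ) : ℤ) ≤ max |(cc l n t j).1 - (cc l n t' j').1 + z * (12 * n)| |(cc l n t j).2 - (cc l n t' j').2 - z * (12 * n)| := by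
  obtain ⟨t1, t5⟩ := th_range hl ht
  obtain ⟨t1', t5'⟩ := th_range hl ht'
  have hL : (1 : ℝ) ≤ l := by exact_mod_cast hl
  have hN : (1 : ℝ) ≤ n := by exact_mod_cast hn
  by_contra hcon
  rw [not_le, max_lt_iff] at hcon
  obtain ⟨c1, c2⟩ := hcon
  have hq : ((n / l : ℕ) : ℝ) ≤ (n : ℝ) / l := Nat.cast_div_le
  have d1 : (((|(cc l n t j).1 - (cc l n t' j').1 + z * (12 * n)| : ℤ)) : ℝ) + 1 ≤ ((n / l : ℕ) : ℝ) := by
    have h := (Int.cast_le (R := ℝ)).2 (Int.add_one_le_iff.2 c1)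
    rw [Int.cast_add, Int.cast_one, Int.cast_natCast] at h
    exact h
  have d2 : (((|(cc l n t j).2 - (cc l n t' j').2 - z * (12 * n)| : ℤ)) : ℝ) + 1 ≤ ((n / l : ℕ) : ℝ) := by
    have h := (Int.cast_le (R := ℝ)).2 (Int.add_one_le_iff.2 c2)
    rw [Int.cast_add, Int.cast_one, Int.cast_natCast] at h
    exact h
  unfold cc at d1 d2
  push_cast at d1 d2
  generalize (j : ℝ) / (600 * l) = s at *
  generalize (j' : ℝ) / (600 * l) = s' at *
  have hn0 : (0 : ℝ) < n := by linarith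
  have key : ∀ f g e : ℝ, |((round ((n : ℝ) * f) : ℤ) : ℝ) - (round ((n : ℝ) * g) : ℤ) + e * (12 * n)| + 1 ≤
      ((n / l : ℕ) : ℝ) → |f - g + 12 * e| < 2 / l := by
    intro f g e h
    have r1 := abs_sub_round ((n : ℝ) * f)
    have r2 := abs_sub_round ((n : ℝ) * g)
    have h3 : |(n : ℝ) * (f - g + 12 * e)| ≤ (n : ℝ) / l := by
      rw [abs_le] at r1 r2 ⊢
      have h4 := le_abs_self (((round ((n : ℝ) * f) : ℤ) : ℝ) - (round ((n : ℝ) * g) : ℤ) + e * (12 * n))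
      have h5 := neg_abs_le (((round ((n : ℝ) * f) : ℤ) : ℝ) - (round ((n : ℝ) * g) : ℤ) + e * (12 * n))
      constructor <;> nlinarith [r1.1, r1.2, r2.1, r2.2]
    rw [abs_mul, abs_of_pos hn0] at h3
    have h4 : (n : ℝ) / l = n * (1 / l) := by ring
    rw [h4] at h3
    have h5 := le_of_mul_le_mul_left h3 hn0
    refine h5.trans_lt ?_
    rw [div_lt_div_iff_of_pos_right (by linarith)]
    norm_num
  have k1 := key _ _ _ d1
  have k2 := key (cY (th l t) s) (cY (th l t') s') (-(z : ℝ)) (by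
    refine le_trans (le_of_eq ?_) d2
    congr 2
    ring)
  have k2' : |cY (th l t) s - cY (th l t') s' - 12 * (z : ℝ)| < 2 / l := by
    refine lt_of_le_of_lt (le_of_eq ?_) k2
    congr 1
    ring
  have hd : (2 : ℝ) / l ≤ 2 := by
    rw [div_le_iff₀ (by linarith)]
    linarith
  have hf := cor_far t1 t5 t1' t5' hd s s' z k1 k2'
  have h6 : th l t - th l t' = 4 / l * ((t : ℝ) - t') := by
    unfold th
    ring
  have h7 : (1 : ℝ) ≤ |(t : ℝ) - t'| := by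
    have h8 : (1 : ℤ) ≤ |(t : ℤ) - t'| := Int.one_le_abs (by omega)
    exact_mod_cast h8
  have h9 : (0 : ℝ) < 4 / l := by positivity
  rw [h6, abs_mul, abs_of_pos h9] at hf
  have h10 := mul_le_mul_of_nonneg_left h7 h9.le
  have h11 : 2 * ((2 : ℝ) / l) = 4 / l := by ring
  rw [h11] at hf
  linarith

theorem cc_core {l n t : ℕ} (hl : 1 ≤ l) (ht : t ≤ l) (j : ℕ) (z : ℤ) :
    (n : ℤ) - 1 ≤ max |(cc l n t j).1 + z * (12 * n)| |(cc l n t j).2 - z * (12 * n)| := by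
  obtain ⟨t1, t5⟩ := th_range hl ht
  have h := cor_core t1 t5 ((j : ℝ) / (600 * l)) z
  have hn0 : (0 : ℝ) ≤ n := Nat.cast_nonneg n
  have key : ∀ f e : ℝ, 1 ≤ |f + 12 * e| →
      (n : ℝ) - 1 ≤ |((round ((n : ℝ) * f) : ℤ) : ℝ) + e * (12 * n)| := by
    intro f e h1
    have r1 := abs_sub_round ((n : ℝ) * f)
    have h2 := mul_le_mul_of_nonneg_left h1 hn0
    rw [← abs_of_nonneg hn0, ← abs_mul, abs_of_nonneg hn0] at h2
    rw [mul_one, le_abs] at h2
    rw [abs_le] at r1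
    rw [le_abs]
    rcases h2 with h3 | h3
    · left
      nlinarith [r1.1, r1.2]
    · right
      nlinarith [r1.1, r1.2]
  rw [le_max_iff] at h ⊢
  unfold cc
  simp only
  rcases h with h1 | h1
  · left
    have h2 := key _ _ h1
    exact_mod_cast h2
  · right
    have h2 := key (cY (th l t) ((j : ℝ) / (600 * l))) (-(z : ℝ)) (by
      refine h1.trans (le_of_eq ?_)
      congr 1
      ring)
    have h3 : (n : ℝ) - 1 ≤ |((round ((n : ℝ) * cY (th l t) ((j : ℝ) / (600 * l))) : ℤ) : ℝ) - z * (12 * n)| := by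
      refine h2.trans (le_of_eq ?_)
      congr 1
      ring
    exact_mod_cast h3

end EV
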