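import Pool.Agent.Lib.MP_216314_pr.EV.BGc
import Pool.Agent.Lib.MP_216314_pr.N.DStA
import Pool.Agent.Lib.MP_216314_pr.N.DCvB

/-!
# The regions of the corridors are disjoint modulo the period

`ρ = rr l n = n / (100 l)`; for `400 l ≤ n`: `ρ ≥ 4` and `100 ρ ≤ n / l` (`Nat.div_div_eq_div_mul`). `Nr c w e`: the lower left end of the edge `e` is within `w` of `c`.
PROOFS. `mem_box` (P/PBase or `FKP.mem_box`), `mem_ud` (DFkB: `e ∈ ud F ↔ dl e ∈ F`), the definitions `RN L = L.biUnion fun p => bxa p.1 (3 * p.2)`, `bxs a w = univ.biUnion fun i => bxa (a i) w`, `bxa a r = box (a.1 - r) (a.1 + r) (a.2 - r) (a.2 + r)`, `Lc` (BDef). An edge of `box x1 x2 y1 y2` has `x1 ≤ e.1 ≤ x2`, `y1 ≤ e.2.1 ≤ y2`; `dl e` changes each coordinate by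
at most one. So `loc_c`, `loc_cd`, `loc_p`, `loc_m` are immediate (`bx r = box (-r) r (-r) r`).
`red_eq` (Cy/CyA): `red N e = red N e'` gives `j` with `e'.1 = e.1 + j N`-type relations (look at its exact form); call it `z`: `e.1 = e'.1 + z N`, `e.2.1 = e'.2.1 - z N`, `e.2.2 = e'.2.2`, `N = 12 n`.
`bdis_pm`: `e` near `c = cc l n t j` (`t` even, `3 ρ`), `e' ∈ Bm`: (a) `|e'.1|, |e'.2.1| ≤ n - 5 ρ`: then `|c.1 - z N| ≤ n - 5 ρ + 3 ρ` and the same for `c.2 + z N`, contradiction to `cc_core` with `-z` (`n - 1 ≤ n - 2 ρ` is false for `ρ ≥ 1`). (b) `e'` near `cD l n i`, `10 ρ + 1`: `cD_cc` (BGa): `cD l n i = cc l n t' j' + z' (12 n, -12 n)`, `t'` odd, so `t ≠ t'` and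
`|c.1 - (cc l n t' j').1 - (z + z') N| ≤ 13 ρ + 1 < 100 ρ ≤ n / l`: contradiction to `cc_far` with `-(z + z')`.
`bdis_dp`: the same with `3 ρ + 1`, `cO_cc`. `bdis_od`: `cc_far` with `6 ρ + 1`.
`bno_hole`: `InHole R (12 n) e`: `e' ∈ bx R`, `red e' = red e`, `R ≤ n / 2`: `|e'.1|, |e'.2.1| ≤ R`. `e ∈ bx (n - 5 ρ) \ bx R`: `|e.1|, |e.2.1| ≤ n`, so `|z| 12 n ≤ n + R`, `z = 0`, `e = e' ∈ bx R`, contradiction. `e` near a landing point `cO l n i` (within `10 ρ`): `cO_cc` and `cc_core`: one of `|(cO l n i).1 + z N|`, `|(cO l n i).2 - z N|` is `≥ n - 1`, but it is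
`≤ R + 10 ρ + 1 ≤ n / 2 + n / 10 + 1`. The same for `cD` and for the circuits.
`bin_cyl`: `red_mem` (Cy/CyA): `-(2 m) ≤ e.1 + e.2.1 < 2 m`: for the circuits by `cc_bd` (`|e.1|, |e.2.1| ≤ 14 n + 1 + 3 ρ + 1 ≤ 15 n`), for the landing boxes `|(cO l n i).1| ≤ n` (`|gw| ≤ 1`, `gw_abs`; rounding of `n gw θ` has absolute value at most `n`), for the core `≤ n`; `20 n ≤ m`.
-/

set_option autoImplicit false

noncomputable section

namespace EV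

open Finset FKI FKP FKN CY

/-- the edge `e` is near `c` -/
def Nr (c : FKI.V) (w : ℤ) (e : Edge) : Prop := |e.1 - c.1| ≤ w ∧ |e.2.1 - c.2| ≤ w

section

variable {l R n : ℕ} {e e' : Edge}

private theorem BGd_box {x1 x2 y1 y2 : ℤ} {e : Edge} (he : e ∈ box x1 x2 y1 y2) :
    x1 ≤ e.1 ∧ e.1 ≤ x2 ∧ y1 ≤ e.2.1 ∧ e.2.1 ≤ y2 := by
  rw [mem_box] at he
  omega

private theorem BGd_bxa {c : FKI.V} {w : ℤ} {e : Edge} (he : e ∈ bxa c w) : Nr c w e := by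
  unfold bxa at he
  have h := BGd_box he
  exact ⟨abs_le.2 ⟨by omega, by omega⟩, abs_le.2 ⟨by omega, by omega⟩⟩

private theorem BGd_bx {r : ℕ} {e : Edge} (he : e ∈ FKN.bx r) : |e.1| ≤ r ∧ |e.2.1| ≤ r := by
  unfold FKN.bx at he
  have h := BGd_box he
  exact ⟨abs_le.2 ⟨by omega, by omega⟩, abs_le.2 ⟨by omega, by omega⟩⟩

private theorem BGd_dl {c : FKI.V} {w : ℤ} {e : Edge} (h : Nr c w (dl e)) : Nr c (w + 1) e := by
  obtain ⟨x, y, b⟩ := e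
  obtain ⟨h1, h2⟩ := h
  rw [abs_le] at h1 h2
  cases b
  · have e1 : dl ((x, y, false) : Edge) = (x, y - 1, true) := rfl
    rw [e1] at h1 h2
    simp only at h1 h2
    exact ⟨abs_le.2 ⟨by simp only; omega, by simp only; omega⟩,
      abs_le.2 ⟨by simp only; omega, by simp only; omega⟩⟩
  · have e1 : dl ((x, y, true) : Edge) = (x - 1, y, false) := rfl
    rw [e1] at h1 h2
    simp only at h1 h2
    exact ⟨abs_le.2 ⟨by simp only; omega, by simp only; omega⟩,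
      abs_le.2 ⟨by simp only; omega, by simp only; omega⟩⟩

theorem loc_c {c : ℕ} (he : e ∈ RN (Lc l n c)) : ∃ t j : ℕ, t ≤ l ∧ t % 2 = c ∧ Nr (cc l n t j) (3 * rr l n) e := by
  unfold RN Lc at he
  rw [mem_biUnion] at he
  obtain ⟨p, hp, he⟩ := he
  rw [mem_biUnion] at hp
  obtain ⟨t, ht, hp⟩ := hp
  rw [mem_filter, mem_range] at ht
  rw [mem_image] at hp
  obtain ⟨j, _, rfl⟩ := hp
  exact ⟨t, j, by omega, ht.2, BGd_bxa he⟩

theorem loc_cd {c : ℕ} (he : e ∈ ud (RN (Lc l n c))) : ∃ t j : ℕ, t ≤ l ∧ t % 2 = c ∧ Nr (cc l n t j) (3 * rr l n + 1) e := by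
  rw [mem_ud] at he
  obtain ⟨t, j, h1, h2, h3⟩ := loc_c he
  exact ⟨t, j, h1, h2, BGd_dl h3⟩

theorem loc_Bp (he : e ∈ Bp l R n) : (Nr 0 (n - 5 * rr l n : ℕ) e ∧ e ∉ FKN.bx R) ∨ ∃ i : Fin l, Nr (cO l n i) (10 * rr l n) e := by
  unfold Bp at he
  rw [mem_union, mem_sdiff] at he
  rcases he with ⟨h1, h2⟩ | h
  · left
    have h3 := BGd_bx h1
    refine ⟨⟨?_, ?_⟩, h2⟩
    · rw [Prod.fst_zero, sub_zero]
      exact h3.1
    · rw [Prod.snd_zero, sub_zero]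
      exact h3.2
  · right
    unfold bxs at h
    rw [mem_biUnion] at h
    obtain ⟨i, _, hi⟩ := h
    exact ⟨i, BGd_bxa hi⟩

theorem loc_Bm (he : e ∈ Bm l R n) : (Nr 0 (n - 5 * rr l n : ℕ) e ∧ e ∉ FKN.bx R) ∨ ∃ i : Fin l, Nr (cD l n i) (10 * rr l n + 1) e := by
  unfold Bm at he
  rw [mem_union, mem_sdiff] at he
  rcases he with ⟨h1, h2⟩ | h
  · left
    have h3 := BGd_bx h1
    refine ⟨⟨?_, ?_⟩, h2⟩
    · rw [Prod.fst_zero, sub_zero]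
      exact h3.1
    · rw [Prod.snd_zero, sub_zero]
      exact h3.2
  · right
    rw [mem_ud] at h
    unfold bxs at h
    rw [mem_biUnion] at h
    obtain ⟨i, _, hi⟩ := h
    exact ⟨i, BGd_dl (BGd_bxa hi)⟩

private theorem BGd_rho (hl : 1 ≤ l) (hn : 400 * l ≤ n) :
    4 ≤ rr l n ∧ 100 * rr l n ≤ n / l ∧ n / l ≤ n := by
  unfold FKN.rr
  refine ⟨?_, ?_, Nat.div_le_self _ _⟩
  · rw [Nat.le_div_iff_mul_le (by omega)]
    omega
  · rw [mul_comm 100 l, ← Nat.div_div_eq_div_mul]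
    exact Nat.mul_div_le _ _

private theorem BGd_eq (h : red (12 * n) e = red (12 * n) e') :
    ∃ z : ℤ, e'.1 = e.1 + z * (12 * n) ∧ e'.2.1 = e.2.1 - z * (12 * n) ∧ e'.2.2 = e.2.2 := by
  obtain ⟨z, h1, h2, h3⟩ := red_eq h
  refine ⟨z, ?_, ?_, h3⟩
  · rw [h1]
    push_cast
    ring
  · rw [h2]
    push_cast
    ring

/-- near a lifted centre -/
private def BGd_NC (l n c : ℕ) (w : ℤ) (e : Edge) : Prop :=
  ∃ t j : ℕ, t ≤ l ∧ t % 2 = c ∧ ∃ z : ℤ, |e.1 - ((cc l n t j).1 + z * (12 * n))| ≤ w ∧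
    |e.2.1 - ((cc l n t j).2 - z * (12 * n))| ≤ w

private theorem BGd_nc_c {c : ℕ} (he : e ∈ RN (Lc l n c)) : BGd_NC l n c (3 * rr l n) e := by
  obtain ⟨t, j, h1, h2, h3, h4⟩ := loc_c he
  refine ⟨t, j, h1, h2, 0, ?_, ?_⟩
  · rw [zero_mul, add_zero]
    exact h3
  · rw [zero_mul, sub_zero]
    exact h4

private theorem BGd_nc_cd {c : ℕ} (he : e ∈ ud (RN (Lc l n c))) : BGd_NC l n c (3 * rr l n + 1) e := by
  obtain ⟨t, j, h1, h2, h3, h4⟩ := loc_cd he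
  refine ⟨t, j, h1, h2, 0, ?_, ?_⟩
  · rw [zero_mul, add_zero]
    exact h3
  · rw [zero_mul, sub_zero]
    exact h4

private theorem BGd_nc_O (hl : 1 ≤ l) {i : Fin l} {w : ℤ} (h : Nr (cO l n i) w e) : BGd_NC l n 0 w e := by
  obtain ⟨t, j, h1, h2, z, h3, h4⟩ := cO_cc hl n i
  refine ⟨t, j, h1, h2, z, ?_, ?_⟩
  · rw [← h3]
    exact h.1
  · rw [← h4]
    exact h.2

private theorem BGd_nc_D (hl : 1 ≤ l) {i : Fin l} {w : ℤ} (h : Nr (cD l n i) w e) : BGd_NC l n 1 w e := by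
  obtain ⟨t, j, h1, h2, z, h3, h4⟩ := cD_cc hl n i
  refine ⟨t, j, h1, h2, z, ?_, ?_⟩
  · rw [← h3]
    exact h.1
  · rw [← h4]
    exact h.2

private theorem BGd_core {c : ℕ} (hl : 1 ≤ l) {w W : ℤ} (h : BGd_NC l n c w e)
    (hr : red (12 * n) e = red (12 * n) e') (h1 : |e'.1| ≤ W) (h2 : |e'.2.1| ≤ W) :
    (n : ℤ) - 1 ≤ w + W := by
  obtain ⟨t, j, ht, _, z', ha, hb⟩ := h
  obtain ⟨z, hz1, hz2, _⟩ := BGd_eq hr
  have hc := cc_core (n := n) hl ht j (z' + z)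
  rw [abs_le] at ha hb h1 h2
  rw [add_mul] at hc
  refine hc.trans (max_le (abs_le.2 ⟨?_, ?_⟩) (abs_le.2 ⟨?_, ?_⟩)) <;> omega

private theorem BGd_far (hl : 1 ≤ l) (hn : 1 ≤ n) {w w' : ℤ} (h : BGd_NC l n 0 w e)
    (h' : BGd_NC l n 1 w' e') (hr : red (12 * n) e = red (12 * n) e') :
    ((n / l : ℕ) : ℤ) ≤ w + w' := by
  obtain ⟨t, j, ht, hp, z1, ha, hb⟩ := h
  obtain ⟨t', j', ht', hp', z2, ha', hb'⟩ := h'
  obtain ⟨z, hz1, hz2, _⟩ := BGd_eq hr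
  have hc := cc_far (n := n) hl hn ht ht' (by omega) j j' (z1 + z - z2)
  rw [abs_le] at ha hb ha' hb'
  rw [sub_mul, add_mul] at hc
  refine hc.trans (max_le (abs_le.2 ⟨?_, ?_⟩) (abs_le.2 ⟨?_, ?_⟩)) <;> omega

private theorem BGd_nr0 {w : ℤ} (h : Nr 0 w e) : |e.1| ≤ w ∧ |e.2.1| ≤ w := by
  obtain ⟨h1, h2⟩ := h
  rw [Prod.fst_zero, sub_zero] at h1
  rw [Prod.snd_zero, sub_zero] at h2
  exact ⟨h1, h2⟩

theorem bdis_pm (hl : 1 ≤ l) (hn : 400 * l ≤ n) (he : e ∈ RN (Lc l n 0)) (he' : e' ∈ Bm l R n) : red (12 * n) e ≠ red (12 * n) e' := by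
  intro hr
  obtain ⟨hρ1, hρ2, hρ3⟩ := BGd_rho hl hn
  have hc := BGd_nc_c he
  rcases loc_Bm he' with ⟨h1, _⟩ | ⟨i, hi⟩
  · obtain ⟨h2, h3⟩ := BGd_nr0 h1
    have h4 := BGd_core hl hc hr h2 h3
    generalize n / l = q at *
    omega
  · have h4 := BGd_far hl (by omega) hc (BGd_nc_D hl hi) hr
    generalize n / l = q at *
    omega

theorem bdis_dp (hl : 1 ≤ l) (hn : 400 * l ≤ n) (he : e ∈ ud (RN (Lc l n 1))) (he' : e' ∈ Bp l R n) : red (12 * n) e ≠ red (12 * n) e' := by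
  intro hr
  obtain ⟨hρ1, hρ2, hρ3⟩ := BGd_rho hl hn
  have hc := BGd_nc_cd he
  rcases loc_Bp he' with ⟨h1, _⟩ | ⟨i, hi⟩
  · obtain ⟨h2, h3⟩ := BGd_nr0 h1
    have h4 := BGd_core hl hc hr h2 h3
    generalize n / l = q at *
    omega
  · have h4 := BGd_far hl (by omega) (BGd_nc_O hl hi) hc hr.symm
    generalize n / l = q at *
    omega

theorem bdis_od (hl : 1 ≤ l) (hn : 400 * l ≤ n) (he : e ∈ RN (Lc l n 0)) (he' : e' ∈ ud (RN (Lc l n 1))) :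
    red (12 * n) e ≠ red (12 * n) e' := by
  intro hr
  obtain ⟨hρ1, hρ2, hρ3⟩ := BGd_rho hl hn
  have h4 := BGd_far hl (by omega) (BGd_nc_c he) (BGd_nc_cd he') hr
  generalize n / l = q at *
  omega

private theorem BGd_hole0 (hl : 1 ≤ l) (hn : 400 * l ≤ n) (hR : 2 * R ≤ n)
    (h : Nr 0 (n - 5 * rr l n : ℕ) e ∧ e ∉ FKN.bx R) : ¬ InHole R (12 * n) e := by
  rintro ⟨e', he', hr⟩
  obtain ⟨h1, h2⟩ := BGd_nr0 h.1
  obtain ⟨h3, h4⟩ := BGd_bx he'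
  obtain ⟨z, hz1, hz2, hz3⟩ := BGd_eq hr
  have hz : z = 0 := by
    rw [abs_le] at h1 h3
    have hn' : (1 : ℤ) ≤ n := by omega
    have hlt : z * (12 * (n : ℤ)) < 1 * (12 * n) := by omega
    have hgt : (-1) * (12 * (n : ℤ)) < z * (12 * n) := by omega
    have h5 : z < 1 := lt_of_mul_lt_mul_right hlt (by omega)
    have h6 : -1 < z := lt_of_mul_lt_mul_right hgt (by omega)
    omega
  subst hz
  rw [zero_mul, add_zero] at hz1
  rw [zero_mul, sub_zero] at hz2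
  have : e = e' := by
    obtain ⟨x, y, b⟩ := e
    obtain ⟨x', y', b'⟩ := e'
    simp only at hz1 hz2 hz3
    rw [hz1, hz2, hz3]
  exact h.2 (this ▸ he')

private theorem BGd_hole1 {c : ℕ} (hl : 1 ≤ l) (hn : 400 * l ≤ n) (hR : 2 * R ≤ n)
    (h : BGd_NC l n c (10 * rr l n + 1) e) : ¬ InHole R (12 * n) e := by
  rintro ⟨e', he', hr⟩
  obtain ⟨h3, h4⟩ := BGd_bx he'
  obtain ⟨hρ1, hρ2, hρ3⟩ := BGd_rho hl hn
  have h5 := BGd_core hl h hr.symm h3 h4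
  generalize n / l = q at *
  omega

private theorem BGd_nc_mono {c : ℕ} {w w' : ℤ} (hw : w ≤ w') (h : BGd_NC l n c w e) :
    BGd_NC l n c w' e := by
  obtain ⟨t, j, h1, h2, z, h3, h4⟩ := h
  exact ⟨t, j, h1, h2, z, h3.trans hw, h4.trans hw⟩

theorem bno_hole (hl : 1 ≤ l) (hn : 400 * l ≤ n) (hR : 2 * R ≤ n)
    (he : e ∈ Bp l R n ∨ e ∈ Bm l R n ∨ e ∈ RN (Lc l n 0) ∨ e ∈ ud (RN (Lc l n 1))) : ¬ InHole R (12 * n) e := by
  rcases he with he | he | he | he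
  · rcases loc_Bp he with h | ⟨i, hi⟩
    · exact BGd_hole0 hl hn hR h
    · exact BGd_hole1 hl hn hR (BGd_nc_mono (by omega) (BGd_nc_O hl hi))
  · rcases loc_Bm he with h | ⟨i, hi⟩
    · exact BGd_hole0 hl hn hR h
    · exact BGd_hole1 hl hn hR (BGd_nc_D hl hi)
  · exact BGd_hole1 hl hn hR (BGd_nc_mono (by omega) (BGd_nc_c he))
  · exact BGd_hole1 hl hn hR (BGd_nc_mono (by omega) (BGd_nc_cd he))

private theorem BGd_pt (n : ℕ) (θ : ℝ) : |(ptR n θ).1| ≤ n ∧ |(ptR n θ).2| ≤ n := by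
  have h := ptR_norm (ρ := (n : ℝ)) (θ := θ) (Nat.cast_nonneg n)
  rw [abs_le] at h
  have h2 : (nrm (ptR n θ) : ℤ) < n + 1 := by
    have h3 : ((nrm (ptR n θ) : ℤ) : ℝ) < ((n + 1 : ℤ) : ℝ) := by
      push_cast
      linarith [h.2]
    exact_mod_cast h3
  unfold nrm at h2
  rw [max_lt_iff] at h2
  exact ⟨by omega, by omega⟩

private theorem BGd_cyl {m : ℕ} {c : FKI.V} {w A B C D : ℤ} (hn : 1 ≤ n) (h : Nr c w e)
    (h1 : A ≤ c.1) (h2 : c.1 ≤ B) (h3 : C ≤ c.2) (h4 : c.2 ≤ D) (h5 : -(2 * (m : ℤ)) ≤ A + C - 2 * w)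
    (h6 : B + D + 2 * w < 2 * m) : red (12 * n) e ∈ cylE (12 * n) m := by
  obtain ⟨ha, hb⟩ := h
  rw [abs_le] at ha hb
  exact red_mem (by omega) (by omega) (by omega)

theorem bin_cyl {m : ℕ} (hl : 1 ≤ l) (hn : 400 * l ≤ n) (hm : 20 * n ≤ m)
    (he : e ∈ Bp l R n ∨ e ∈ Bm l R n ∨ e ∈ RN (Lc l n 0) ∨ e ∈ ud (RN (Lc l n 1))) : red (12 * n) e ∈ cylE (12 * n) m := by
  obtain ⟨hρ1, hρ2, hρ3⟩ := BGd_rho hl hn
  have hρ4 : 100 * rr l n ≤ n := hρ2.trans hρ3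
  clear hρ2 hρ3
  rcases he with he | he | he | he
  · rcases loc_Bp he with ⟨h, _⟩ | ⟨i, hi⟩
    · exact BGd_cyl (A := 0) (B := 0) (C := 0) (D := 0) (by omega) h (le_refl _) (le_refl _) (le_refl _) (le_refl _)
        (by omega) (by omega)
    · have hp := BGd_pt n (thO l i)
      rw [abs_le, abs_le] at hp
      exact BGd_cyl (by omega) hi hp.1.1 hp.1.2 hp.2.1 hp.2.2 (by omega) (by omega)
  · rcases loc_Bm he with ⟨h, _⟩ | ⟨i, hi⟩
    · exact BGd_cyl (A := 0) (B := 0) (C := 0) (D := 0) (by omega) h (le_refl _) (le_refl _) (le_refl _) (le_refl _)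
        (by omega) (by omega)
    · have hp := BGd_pt n (thD l i)
      rw [abs_le, abs_le] at hp
      exact BGd_cyl (by omega) hi hp.1.1 hp.1.2 hp.2.1 hp.2.2 (by omega) (by omega)
  · obtain ⟨t, j, ht, _, h⟩ := loc_c he
    obtain ⟨h1, h2, h3, h4⟩ := cc_bd (n := n) hl ht j
    exact BGd_cyl (by omega) h h1 h2 h3 h4 (by omega) (by omega)
  · obtain ⟨t, j, ht, _, h⟩ := loc_cd he
    obtain ⟨h1, h2, h3, h4⟩ := cc_bd (n := n) hl ht j
    exact BGd_cyl (by omega) h h1 h2 h3 h4 (by omega) (by omega)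

end

end EV
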