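import Pool.Agent.Lib.MP_216314_pr.EV.BDef
import Pool.Agent.Lib.MP_216314_pr.N.E3I

/-!
# Filling of the hole

Let `H = (bx R).image (red N)`, `E = cylE N m`; `red N` is injective on `bx R` (`red_inj_x`, Cy/CyA: `-R ≤ e.1 ≤ R`, `2 R < N`), `H ⊆ E` (`red_mem`: `|e.1 + e.2.1| ≤ 2 R < 2 m`; `0`-height bounds: `-(2 m) ≤ -2 R`, `2 R < 2 m` because of `R < m`).
PROOF of `te_dep`: for `ω ⊆ E`: `HP R N ω e ↔ HP R N (ω ∩ (E \ H)) e`: `InHole R N e` says `red N e ∈ H`; so if `¬ InHole` then `red N e ∈ ω ↔ red N e ∈ ω ∩ (E \ H)` (`ω ⊆ E`). The same for `HD` (`red N (dl.symm f) ∉ ω`). So the graphs `lg (HP R N ω)`, .. are equal (`funext`, `propext`), and `TE` also.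
`fil_prob`: `Pr H Fil = 2 ^ (- card H)`: `Fil R N ω` depends only on `ω ∩ H`, and for `ω ⊆ H` it holds iff `ω = ((bx R).filter (fun e => e.2.2 = false)).image (red N)` (`red N` injective on `bx R`; also `(red N e).2.2 = e.2.2`), so the filter in the definition of `Pr` (P/PBase, `pproba_eq`) is a singleton; `card H = card (bx R)`.
For `Pr E`: `Pr E A = Pr H A` if `Dep H A` (`pproba` lemma for subsets: look for `Pr_dep`/`Pr_sub`/`Pr_super` in P/PProbB; or `pq_dep` with `pr_half`).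
`fil_le`: `TE' ω := TE l R N m (ω ∩ (E \ H))` is `Dep (E \ H)`, `Fil R N` is `Dep H`; `Pr_indep` (P/PProbB): `Pr E (TE' ∧ Fil) = Pr E TE' * Pr E Fil`; `Pr E TE' = Pr E TE` by `Pr_congr` and `te_dep`.
-/

set_option autoImplicit false

noncomputable section

namespace EV

open Finset FKI FKP FKN CY

private theorem BPa_bx {R : ℕ} {e : Edge} (he : e ∈ FKN.bx R) :
    -(R : ℤ) ≤ e.1 ∧ e.1 ≤ R ∧ -(R : ℤ) ≤ e.2.1 ∧ e.2.1 ≤ R ∧ e.1 + e.2.1 < 2 * (R : ℤ) + 1 := by
  obtain ⟨x, y, b⟩ := e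
  unfold FKN.bx FKP.box at he
  rw [mem_union, mem_product, mem_product, mem_product, mem_product, mem_Ico, mem_Icc, mem_Icc, mem_Ico] at he
  simp only at he ⊢
  rcases he with ⟨h1, h2, _⟩ | ⟨h1, h2, _⟩
  · omega
  · omega

private theorem BPa_inj {R N : ℕ} (hN : 2 * R < N) : Set.InjOn (red N) (FKN.bx R : Set Edge) :=
  red_inj_x (a := -(R : ℤ)) (b := R) (by omega) fun _ he => ⟨(BPa_bx he).1, (BPa_bx he).2.1⟩

private theorem BPa_sub {R N m : ℕ} (hN : 2 * R < N) (hm : R < m) : (FKN.bx R).image (red N) ⊆ cylE N m := by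
  intro x hx
  obtain ⟨e, he, rfl⟩ := mem_image.1 hx
  have h := BPa_bx he
  exact red_mem (by omega) (by omega) (by omega)

private theorem BPa_dep (R N : ℕ) : Dep ((FKN.bx R).image (red N)) (Fil R N) := by
  intro ω
  have h1 : ∀ e ∈ FKN.bx R, (red N e ∈ ω ↔ red N e ∈ ω ∩ (FKN.bx R).image (red N)) := fun e he =>
    ⟨fun h => mem_inter.2 ⟨h, mem_image_of_mem _ he⟩, fun h => (mem_inter.1 h).1⟩
  exact ⟨fun h e he => (h1 e he).symm.trans (h e he), fun h e he => (h1 e he).trans (h e he)⟩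

theorem te_dep {l R N m : ℕ} {ω : Finset Edge} (hω : ω ⊆ cylE N m) :
    TE l R N m ω ↔ TE l R N m (ω ∩ (cylE N m \ (FKN.bx R).image (red N))) := by
  have h1 : HP R N (ω ∩ (cylE N m \ (FKN.bx R).image (red N))) = HP R N ω := by
    funext e
    refine propext ⟨fun h => ⟨(mem_inter.1 h.1).1, h.2⟩, fun h => ⟨mem_inter.2 ⟨h.1, mem_sdiff.2 ⟨hω h.1, fun h2 => h.2 ?_⟩⟩, h.2⟩⟩
    exact mem_image.1 h2
  have h2 : HD R N m (ω ∩ (cylE N m \ (FKN.bx R).image (red N))) = HD R N m ω := by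
    funext f
    refine propext ⟨fun h => ⟨h.1, fun h3 => h.2.1 ?_, h.2.2⟩, fun h => ⟨h.1, fun h3 => h.2.1 (mem_inter.1 h3).1, h.2.2⟩⟩
    exact mem_inter.2 ⟨h3, mem_sdiff.2 ⟨h.1, fun h4 => h.2.2 (mem_image.1 h4)⟩⟩
  unfold TE
  rw [h1, h2]

theorem fil_prob {R N m : ℕ} (hN : 2 * R < N) (hm : R < m) : Pr (cylE N m) (Fil R N) = 1 / 2 ^ (FKN.bx R).card := by
  classical
  rw [Pr_dep (BPa_sub hN hm) (BPa_dep R N), pproba_eq, card_image_of_injOn (BPa_inj hN)]
  have h1 : ((FKN.bx R).image (red N)).powerset.filter (Fil R N) =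
      {((FKN.bx R).filter (fun e => e.2.2 = false)).image (red N)} := by
    ext ω
    rw [mem_filter, mem_powerset, mem_singleton]
    constructor
    · rintro ⟨h2, h3⟩
      ext x
      constructor
      · intro hx
        obtain ⟨e, he, rfl⟩ := mem_image.1 (h2 hx)
        exact mem_image_of_mem _ (mem_filter.2 ⟨he, (h3 e he).1 hx⟩)
      · intro hx
        obtain ⟨e, he, rfl⟩ := mem_image.1 hx
        obtain ⟨h4, h5⟩ := mem_filter.1 he
        exact (h3 e h4).2 h5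
    · rintro rfl
      refine ⟨image_subset_image (filter_subset _ _), fun e he => ⟨fun h => ?_, fun h => mem_image_of_mem _ (mem_filter.2 ⟨he, h⟩)⟩⟩
      obtain ⟨e', h4, h5⟩ := mem_image.1 h
      obtain ⟨h6, h7⟩ := mem_filter.1 h4
      have h8 : e' = e := BPa_inj hN (mem_coe.2 h6) (mem_coe.2 he) h5
      rw [← h8]
      exact h7
  rw [h1, card_singleton]
  simp

/-- the connections outside of the holes are independent of the filling of the hole -/
theorem fil_le {l R N m : ℕ} (hN : 2 * R < N) (hm : R < m) :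
    Pr (cylE N m) (TE l R N m) = 2 ^ (FKN.bx R).card * Pr (cylE N m) (fun ω => TE l R N m ω ∧ Fil R N ω) := by
  have hd : Dep (cylE N m \ (FKN.bx R).image (red N))
      (fun ω => TE l R N m (ω ∩ (cylE N m \ (FKN.bx R).image (red N)))) := by
    intro ω
    show TE l R N m (ω ∩ (cylE N m \ (FKN.bx R).image (red N))) ↔
      TE l R N m (ω ∩ (cylE N m \ (FKN.bx R).image (red N)) ∩ (cylE N m \ (FKN.bx R).image (red N)))
    rw [inter_assoc, inter_self]
  have h1 := Pr_indep (E := cylE N m) sdiff_subset (BPa_sub hN hm) sdiff_disjoint hd (BPa_dep R N)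
  have h2 : Pr (cylE N m) (TE l R N m) =
      Pr (cylE N m) (fun ω => TE l R N m (ω ∩ (cylE N m \ (FKN.bx R).image (red N)))) :=
    Pr_congr fun ω hω => te_dep hω
  have h3 : Pr (cylE N m) (fun ω => TE l R N m ω ∧ Fil R N ω) =
      Pr (cylE N m) (fun ω => TE l R N m (ω ∩ (cylE N m \ (FKN.bx R).image (red N))) ∧ Fil R N ω) :=
    Pr_congr fun ω hω => and_congr (te_dep hω) Iff.rfl
  rw [h3, h1, fil_prob hN hm, h2]
  have h4 : (2 : ℝ) ^ (FKN.bx R).card ≠ 0 := by positivity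
  field_simp

end EV
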