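import Pool.Agent.Lib.MP_216314_pr.EV.BGd
import Pool.Agent.Lib.MP_216314_pr.N.E3R

/-!
# The events give the connections of the seeds

`N = 12 n`, `τ = ((N : ℤ), -(N : ℤ))`, `ρ = rr l n`.
PROOFS. Adaptation of `N/E3R.lean` (completely formalised for two arms). `HP_shift`, `HD_shift`: `InHole R N (trE τ e) ↔ InHole R N e` and `red N (trE τ e) = red N e` (`red_shift` with `j = 1`), `dl.symm (trE τ f) = trE τ (dl.symm f)` (cases); also for `-τ` (`j = -1`).
`HP_of`, `HD_of`: `mem_pull` / `mem_map`, `mem_sdiff`, `mem_pull`, `bno_hole`, `bin_cyl` (BGd).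
`te_of_events`, open part: `hA : StG Sg Tg η = ∃ s v, Sg η s ∧ Tg η v ∧ ∀ i, (gr η).Reachable (s i) (v i)` with `η = pull N (Bp l R n) ω`. `SpE l R = nearS (sv l R) 0`: there is a permutation `σ` with `s i = sv l R (σ i)`. For the seed `i0` put `i = σ.symm i0` (so `s i = sv i0`); `land_o` (BGa) for the landing point `cO l n i`: `t`, `i'`.
Case 1: `cO l n i = ptR n (th l t) = cc l n t 0` (`cc_zero`), `cc l n t (3000 l) = ptR n (2 - th l t) + (-N, N) = cO l n i' + (-τ)` (`cc_end`). `link_S` (N/E3K) with `S = HP R N ω`, `t := -τ = (-N, N)`, `c = cc l n t`, `T = 3000 l`, `r = ρ`, `η := pull N (RN (Lc l n 0)) ω`, `η0 := pull N (Bp l R n) ω`, `a0 = cO l n i`, `a1 = cO l n i'`, steps `cc_step` (BGc),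
`hR` from `hB` (`Rings L η = ∀ p ∈ L, Ring p.1 p.2 η`, `(cc l n t j, ρ) ∈ Lc l n 0` for `j ≤ 3000 l`: `mem_biUnion`, `mem_filter`, `mem_range`, `mem_image`): `(lg S).Reachable (v i) (v i' + (-τ))`. With `s i ~ v i`, `s i' ~ v i'` (`gr_le_lg`), and translation by `τ` (`lg_shift`): `s i + τ ~ v i + τ ~ v i' ~ s i'`: so
`(lg S).Reachable (sv (σ i')) (sv i0 + τ)`: second alternative of `TE` with `i' := σ i'`.
Case 2: `cO l n i' = ptR n (th l t)`, `cO l n i = ptR n (2 - th l t)`: `(lg S).Reachable (v i') (v i + (-τ))`, so `s i' + τ ~ s i`: first alternative (`Reachable (sv i0) (sv (σ i') + τ)`).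
Dual part: the same with `SmE`, `sf`, `cD`, `land_d`, colour `1`, `HD`, `pd N (Bm l R n) ω`, `pd N (ud (RN (Lc l n 1))) ω`.
It is a good idea to prove the common part as one lemma for a general periodic `S`, general `c0 : Fin l → V` (landing points), `s v : Fin l → V`, seeds `y : Fin l → V`.
-/

set_option autoImplicit false

noncomputable section

namespace EV

open Finset FKI FKP FKN CY

private theorem BPb_redp {N : ℕ} (hN : 1 ≤ N) (e : Edge) :
    red N (trE ((N : ℤ), -(N : ℤ)) e) = red N e := by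
  have h := red_shift hN e 1
  rw [one_mul, sub_eq_add_neg] at h
  exact h

private theorem BPb_redm {N : ℕ} (hN : 1 ≤ N) (e : Edge) :
    red N (trE (-((N : ℤ), -(N : ℤ))) e) = red N e := by
  have h := red_shift hN e (-1)
  have e1 : trE (-((N : ℤ), -(N : ℤ))) e = (e.1 + -1 * (N : ℤ), e.2.1 - -1 * (N : ℤ), e.2.2) := by
    show ((e.1 + -(N : ℤ), e.2.1 + -(-(N : ℤ)), e.2.2) : Edge) = _
    refine Prod.ext ?_ (Prod.ext ?_ rfl)
    · show e.1 + -(N : ℤ) = e.1 + -1 * (N : ℤ)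
      ring
    · show e.2.1 + -(-(N : ℤ)) = e.2.1 - -1 * (N : ℤ)
      ring
  rw [e1]
  exact h

private theorem BPb_dl (t : FKI.V) (f : Edge) : dl.symm (trE t f) = trE t (dl.symm f) := by
  obtain ⟨x, y, b⟩ := f
  cases b
  · show ((x + t.1 + 1, y + t.2, true) : Edge) = (x + 1 + t.1, y + t.2, true)
    rw [add_right_comm]
  · show ((x + t.1, y + t.2 + 1, false) : Edge) = (x + t.1, y + 1 + t.2, false)
    rw [add_right_comm y]

private theorem BPb_hole {R N : ℕ} {e e' : Edge} (h : red N e' = red N e) (hi : InHole R N e') : InHole R N e := by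
  unfold InHole at hi ⊢
  rw [← h]
  exact hi

private theorem BPb_HP {R N : ℕ} {ω : Finset Edge} {e e' : Edge} (h : red N e' = red N e) (hi : HP R N ω e) : HP R N ω e' := by
  unfold HP at hi ⊢
  rw [h]
  exact ⟨hi.1, fun h2 => hi.2 (BPb_hole h h2)⟩

private theorem BPb_HD {R N m : ℕ} {ω : Finset Edge} {f f' : Edge} (h : red N (dl.symm f') = red N (dl.symm f))
    (hi : HD R N m ω f) : HD R N m ω f' := by
  unfold HD at hi ⊢
  rw [h]
  exact ⟨hi.1, hi.2.1, fun h2 => hi.2.2 (BPb_hole h h2)⟩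

private theorem BPb_nrm {v : FKI.V} (h : nrm v ≤ 0) : v = 0 := by
  unfold nrm at h
  have h1 := (le_max_left _ _).trans h
  have h2 := (le_max_right _ _).trans h
  have h3 : v.1 = 0 := abs_eq_zero.1 (le_antisymm h1 (abs_nonneg _))
  have h4 : v.2 = 0 := abs_eq_zero.1 (le_antisymm h2 (abs_nonneg _))
  exact Prod.ext h3 h4

private theorem BPb_pd {N : ℕ} {F ω : Finset Edge} {f : Edge} (hf : f ∈ pd N F ω) :
    dl.symm f ∈ F ∧ red N (dl.symm f) ∉ ω := by
  unfold pd dc at hf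
  rw [mem_map] at hf
  obtain ⟨e, he, rfl⟩ := hf
  rw [mem_sdiff, mem_pull] at he
  have h1 : dl.symm (dl.toEmbedding e) = e := dl.symm_apply_apply e
  rw [h1]
  exact ⟨he.1, fun h2 => he.2 ⟨he.1, h2⟩⟩

private theorem BPb_common {l n c : ℕ} (hl : 1 ≤ l) (hn : 400 * l ≤ n) {S : Edge → Prop}
    (hSp : ∀ e, S e → S (trE (((12 * n : ℕ) : ℤ), -((12 * n : ℕ) : ℤ)) e))
    (hSm : ∀ e, S e → S (trE (-(((12 * n : ℕ) : ℤ), -((12 * n : ℕ) : ℤ))) e))
    {η η0 : Finset Edge} (hη : ∀ e ∈ η, S e) (hη0 : ∀ e ∈ η0, S e) (hB : Rings (Lc l n c) η)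
    {c0 : Fin l → FKI.V}
    (land : ∀ i, ∃ (t : ℕ) (i' : Fin l), t ≤ l ∧ t % 2 = c ∧
      ((c0 i = ptR n (th l t) ∧ c0 i' = ptR n (2 - th l t)) ∨ (c0 i' = ptR n (th l t) ∧ c0 i = ptR n (2 - th l t))))
    {s v y : Fin l → FKI.V} (hs : nearS y 0 η0 s) (hv : ringT c0 (rr l n) η0 v)
    (hsv : ∀ i, (gr η0).Reachable (s i) (v i)) (i0 : Fin l) :
    ∃ i' : Fin l, (lg S).Reachable (y i0) (y i' + (((12 * n : ℕ) : ℤ), -((12 * n : ℕ) : ℤ))) ∨
      (lg S).Reachable (y i') (y i0 + (((12 * n : ℕ) : ℤ), -((12 * n : ℕ) : ℤ))) := by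
  obtain ⟨τ, hτ⟩ : ∃ τ : FKI.V, τ = (((12 * n : ℕ) : ℤ), -((12 * n : ℕ) : ℤ)) := ⟨_, rfl⟩
  rw [← hτ] at hSp hSm ⊢
  obtain ⟨σ, hσ⟩ := hs
  have hs' : ∀ i, s i = y (σ i) := fun i => sub_eq_zero.1 (BPb_nrm (hσ i))
  have e1 : gr η0 ≤ lg S := gr_le_lg hη0
  have hr : (0 : ℤ) ≤ (rr l n : ℤ) := Int.natCast_nonneg _
  have hsi : ∀ i, (lg S).Reachable (s i) (v i) := fun i => (hsv i).mono e1
  have hneg : (-((12 * n : ℕ) : ℤ), ((12 * n : ℕ) : ℤ)) = -τ := by
    rw [hτ]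
    exact Prod.ext rfl (neg_neg _).symm
  have key : ∀ (t : ℕ) (a b : Fin l), t ≤ l → t % 2 = c → c0 a = ptR n (th l t) → c0 b = ptR n (2 - th l t) →
      (lg S).Reachable (s b) (s a + τ) := by
    intro t a b ht h2 ha hb
    have hz : cc l n t 0 = c0 a := by rw [ha, cc_zero]
    have hT : cc l n t (3000 * l) = c0 b + -τ := by rw [hb, cc_end hl ht, hneg]
    have hR : ∀ j ≤ 3000 * l, Ring (cc l n t j) (rr l n : ℤ) η := by
      intro j hj
      refine hB (cc l n t j, (rr l n : ℤ)) ?_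
      unfold Lc
      rw [mem_biUnion]
      refine ⟨t, ?_, ?_⟩
      · rw [mem_filter, mem_range]
        exact ⟨by omega, h2⟩
      · rw [mem_image]
        refine ⟨j, ?_, rfl⟩
        rw [mem_range]
        omega
    have hlk : (lg S).Reachable (v a) (v b + -τ) :=
      link_S hSm hr (fun j _ => cc_step hl hn ht j) hη hη0 hR hz hT (hv a) (hv b)
    have h3 : (lg S).Reachable (v b + -τ) (s b + -τ) := lg_shift hSm (hsi b).symm
    have h4 : (lg S).Reachable (s a) (s b + -τ) := ((hsi a).trans hlk).trans h3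
    have h5 : (lg S).Reachable (s a + τ) (s b + -τ + τ) := lg_shift hSp h4
    rw [neg_add_cancel_right] at h5
    exact h5.symm
  obtain ⟨t, i', ht, h2, h⟩ := land (σ.symm i0)
  have hy : s (σ.symm i0) = y i0 := by rw [hs', Equiv.apply_symm_apply]
  refine ⟨σ i', ?_⟩
  rcases h with ⟨ha, hb⟩ | ⟨ha, hb⟩
  · right
    have h6 := key t (σ.symm i0) i' ht h2 ha hb
    rw [hy, hs' i'] at h6
    exact h6
  · left
    have h6 := key t i' (σ.symm i0) ht h2 ha hb
    rw [hy, hs' i'] at h6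
    exact h6

section

variable {l R n m : ℕ} {ω : Finset Edge}

theorem HP_of (hl : 1 ≤ l) (hn : 400 * l ≤ n) (hR : 2 * R ≤ n) {e : Edge}
    (he : e ∈ pull (12 * n) (Bp l R n) ω ∨ e ∈ pull (12 * n) (RN (Lc l n 0)) ω) : HP R (12 * n) ω e := by
  rcases he with he | he
  · rw [mem_pull] at he
    exact ⟨he.2, bno_hole hl hn hR (Or.inl he.1)⟩
  · rw [mem_pull] at he
    exact ⟨he.2, bno_hole hl hn hR (Or.inr (Or.inr (Or.inl he.1)))⟩

theorem HD_of (hl : 1 ≤ l) (hn : 400 * l ≤ n) (hR : 2 * R ≤ n) (hm : 20 * n ≤ m) {f : Edge}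
    (hf : f ∈ pd (12 * n) (Bm l R n) ω ∨ f ∈ pd (12 * n) (ud (RN (Lc l n 1))) ω) : HD R (12 * n) m ω f := by
  rcases hf with hf | hf
  · obtain ⟨h1, h2⟩ := BPb_pd hf
    exact ⟨bin_cyl (R := R) hl hn hm (Or.inr (Or.inl h1)), h2, bno_hole hl hn hR (Or.inr (Or.inl h1))⟩
  · obtain ⟨h1, h2⟩ := BPb_pd hf
    exact ⟨bin_cyl (R := R) hl hn hm (Or.inr (Or.inr (Or.inr h1))), h2,
      bno_hole hl hn hR (Or.inr (Or.inr (Or.inr h1)))⟩

theorem te_of_events (hl : 1 ≤ l) (hn : 400 * l ≤ n) (hR : 2 * R ≤ n) (hm : 20 * n ≤ m)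
    (hA : StG (SpE l R) (ringT (cO l n) (rr l n)) (pull (12 * n) (Bp l R n) ω))
    (hB : Rings (Lc l n 0) (pull (12 * n) (RN (Lc l n 0)) ω))
    (hD : StG (SmE l R) (ringT (cD l n) (rr l n)) (pd (12 * n) (Bm l R n) ω))
    (hB' : Rings (Lc l n 1) (pd (12 * n) (ud (RN (Lc l n 1))) ω)) :
    TE l R (12 * n) m ω := by
  have hN : 1 ≤ 12 * n := by omega
  refine ⟨?_, ?_⟩
  · obtain ⟨s, v, hs, hv, hsv⟩ := hA
    exact BPb_common hl hn (fun e he => BPb_HP (BPb_redp hN e) he) (fun e he => BPb_HP (BPb_redm hN e) he)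
      (fun e he => HP_of hl hn hR (Or.inr he)) (fun e he => HP_of hl hn hR (Or.inl he)) hB
      (fun i => land_o hl n i) hs hv hsv
  · obtain ⟨s, v, hs, hv, hsv⟩ := hD
    have g1 : ∀ f, HD R (12 * n) m ω f → HD R (12 * n) m ω (trE (((12 * n : ℕ) : ℤ), -((12 * n : ℕ) : ℤ)) f) := by
      intro f hf
      refine BPb_HD ?_ hf
      rw [BPb_dl]
      exact BPb_redp hN _
    have g2 : ∀ f, HD R (12 * n) m ω f → HD R (12 * n) m ω (trE (-(((12 * n : ℕ) : ℤ), -((12 * n : ℕ) : ℤ))) f) := by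
      intro f hf
      refine BPb_HD ?_ hf
      rw [BPb_dl]
      exact BPb_redm hN _
    exact BPb_common hl hn g1 g2 (fun e he => HD_of hl hn hR hm (Or.inr he))
      (fun e he => HD_of hl hn hR hm (Or.inl he)) hB' (fun i => land_d hl n i) hs hv hsv

end

end EV
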