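import Pool.Agent.Lib.MP_216314_pr.EV.BDef
import Pool.Agent.Lib.MP_216314_pr.N.E3A

/-!
# Criterion for the legs `0, .., l-1`: if every sector is connected to a sector of a neighbouring copy then no two legs are connected

PROOF: the same proof as in `N/E3A.lean` (which is the case `l = 2`, completely formalised: `gc_shift`, `E3A_*`, `wl_of_sectors`). Copy it and change: the graph `NSt`, `NCp`, `GSt`, `GC` by `BNSt l`, `BNCp l`, `BGSt l`, `BGC l`; `wl_iff` (N/EA, also to be
copied: `LCl` has `tb Lt kb kt x = x` for `kb = kt`, `tb Lt l l x = x + (l - l) * .. = x`); `2 ≤ w.2 % L` by `(l : ℤ) ≤ w.2 % L`; `IsLeg 2 2` by `IsLeg l l` (so `0 ≤ w.2`, `w.2 < l`, `w.2 % L = w.2` because of `l ≤ L`).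
The helper definitions `E3A_sd`, `E3A_arc`, `E3A_flp`, `E3A_sq`, `E3A_t`, `E3A_z`, `E3A_s` and the lemmas `E3A_odd`, `E3A_even`, `E3A_aa`, `E3A_ff`, `E3A_pair`, `E3A_zreg`, `E3A_glue`, `E3A_jump`, `E3A_jump1`, `E3A_bd`, `E3A_far`, `E3A_two`, `E3A_reg` do not mention the number of
legs and can be used as they are (import N.E3A). Parts which change:
(1) `step`, `reach`: with `(l : ℤ) ≤ (..).2 % L` instead of `2 ≤ ..`.
(3c) `z b (x + 1) = z b x` if `x % L < l` and `(b, x) ≠ u, v`.
(3b) `z true g = z false g` for `g ≤ 0` and for `(l : ℤ) ≤ g` (there `[u.2 < g] = [v.2 < g]`).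
(3e) `BGC l P Q w w' → z w.1 w.2 = z w'.1 w'.2`: for the glue steps `v.2 = g = u.2`, `¬ BCut l L g`: if `1 ≤ g < l` then `g % L = g` (`g < l ≤ L`), so `BCut l L g`, contradiction; hence `g ≤ 0` or `l ≤ g`, (3b).
(3f) for `j ≠ 0`: all values `z b (j L + g)`, `0 ≤ g ≤ l`, `b : Bool` are equal: induction on `g` with (3c) at the positions `j L + g`, `0 ≤ g < l` (`(j L + g) % L = g < l`, since `g < l ≤ L`; these are not the positions of `u`, `v`, which are in `[0, l) ⊆ [0, L)`: `j L + g ≠ u.2` because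
 `j L + g < 0` or `≥ L`), and (3b) at `g = j L` (`j < 0`: `j L ≤ 0`; `j > 0`: `j L ≥ L ≥ l`). Call this value `ζ j`.
(4) as in E3A: a sector of the copy `0`, e.g. `h true 0`, is connected to a sector of the copy `1` or `-1` (in the second case of the disjunction translate by `- L`); translating by `j L` (`bgc_shift`): `ζ j = ζ (j + 1)` for all `j ≥ 1` and for all `j ≤ -2`; with `E3A_far`: `ζ j = 0` for `j ≠ 0`; then
 all `z b g`, `0 ≤ g ≤ l`, are `0` by the hypothesis, but `z u.1 (u.2 + 1) = z u.1 u.2 + 1` with `0 ≤ u.2`, `u.2 + 1 ≤ l`: contradiction.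
-/

set_option autoImplicit false

noncomputable section

namespace EV

open Finset FKI FKP FKN CY

/-- `BGC` is invariant under translation -/
theorem bgc_shift {l L : ℕ} {P Q : Pat L} (j : ℤ) {u v : Bool × ℤ} (h : BGC l P Q u v) :
    BGC l P Q (u.1, u.2 + j * L) (v.1, v.2 + j * L) := by
  unfold BGC at h ⊢
  induction h with
  | rel u v h1 =>
    refine Relation.EqvGen.rel _ _ ?_
    rcases h1 with ⟨a, b, c⟩ | ⟨a, b, c⟩ | ⟨a, b⟩
    · exact Or.inl ⟨a, b, E3A_reg Q j c⟩
    · exact Or.inr (Or.inl ⟨a, b, E3A_reg P j c⟩)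
    · refine Or.inr (Or.inr ⟨?_, ?_⟩)
      · show v.2 + j * L = u.2 + j * L
        rw [a]
      · show ¬ BCut l L (u.2 + j * L)
        unfold BCut at b ⊢
        rwa [Int.add_mul_emod_self_right]
  | refl u => exact Relation.EqvGen.refl _
  | symm u v _ ih => exact ih.symm _ _
  | trans u v w _ _ ih1 ih2 => exact ih1.trans _ _ _ ih2

section

variable {l L : ℕ} {P Q : Pat L} {u : Bool × ℤ}

theorem BTa_tb (x : ℤ) : tb L l l x = x := by
  unfold tb
  rw [sub_self, zero_mul, add_zero]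

theorem BTa_closed1 {S : Set (Bool × ℤ)} (hS : LCl l l P Q S) {u v : Bool × ℤ} (h : BNSt l P Q u v)
    (hu : u ∈ S) : v ∈ S := by
  obtain ⟨s, x⟩ := u
  rcases h with ⟨h1, h2⟩ | ⟨h1, h2⟩ | ⟨h1, h2⟩
  · change s = true at h1
    subst h1
    rw [h2]
    exact hS.top _ hu
  · change s = false at h1
    subst h1
    rw [h2]
    exact hS.bot _ hu
  · rw [h2]
    have h3 := hS.glue x h1
    rw [BTa_tb] at h3
    cases s
    · exact h3.2 hu
    · exact h3.1 hu

theorem BTa_closed {S : Set (Bool × ℤ)} (hS : LCl l l P Q S) {u v : Bool × ℤ} (h : BNCp l P Q u v)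
    (hu : u ∈ S) : v ∈ S := by
  induction h with
  | refl => exact hu
  | tail _ hbc ih => exact BTa_closed1 hS hbc ih

theorem BTa_lcl (u : Bool × ℤ) : LCl l l P Q {w | BNCp l P Q u w} := by
  refine ⟨?_, ?_, ?_⟩
  · intro x hx
    exact Relation.ReflTransGen.tail hx (Or.inl ⟨rfl, rfl⟩)
  · intro x hx
    exact Relation.ReflTransGen.tail hx (Or.inr (Or.inl ⟨rfl, rfl⟩))
  · intro x h1
    rw [BTa_tb]
    constructor
    · intro h
      exact Relation.ReflTransGen.tail h (Or.inr (Or.inr ⟨h1, rfl⟩))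
    · intro h
      exact Relation.ReflTransGen.tail h (Or.inr (Or.inr ⟨h1, rfl⟩))

theorem BTa_wl_iff : WL l l P Q ↔ ∀ u v, IsLeg l l u → IsLeg l l v → u ≠ v → ¬ BNCp l P Q u v := by
  constructor
  · intro hw u v hu hv huv hc
    obtain ⟨S, hS, h1, h2⟩ := hw u v hu hv huv
    exact h2 (BTa_closed hS hc h1)
  · intro hw u v hu hv huv
    exact ⟨{w | BNCp l P Q u w}, BTa_lcl u, Relation.ReflTransGen.refl, hw u v hu hv huv⟩

theorem BTa_step {w c : Bool × ℤ} (h : BNSt l P Q w c) :
    c = E3A_arc P Q w ∨ ((l : ℤ) ≤ w.2 % (L : ℤ) ∧ c = E3A_flp w) := by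
  rcases h with ⟨h1, h2⟩ | ⟨h1, h2⟩ | h
  · left
    rw [h2]
    unfold E3A_arc E3A_sd
    rw [h1, if_pos rfl]
  · left
    rw [h2]
    unfold E3A_arc E3A_sd
    rw [h1, if_neg (by decide)]
  · exact Or.inr h

theorem BTa_leg (hL : l ≤ L) {w : Bool × ℤ} (h : IsLeg l l w) :
    0 ≤ w.2 ∧ w.2 < l ∧ w.2 % (L : ℤ) = w.2 := by
  obtain ⟨h1, h2⟩ := h
  have h3 : w.2 < l := by
    rcases h2 with h2 | h2
    · exact h2.2
    · exact h2.2
  refine ⟨h1, h3, Int.emod_eq_of_lt h1 ?_⟩
  have : (l : ℤ) ≤ L := by exact_mod_cast hL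
  omega

theorem BTa_reach (hL : l ≤ L) (hu : IsLeg l l u) {w : Bool × ℤ} (h : BNCp l P Q u w) :
    ∃ k : ℕ, w = E3A_sq P Q u k ∧
      ∀ i : ℕ, 2 * i + 1 < k → (l : ℤ) ≤ (E3A_sq P Q u (2 * i + 1)).2 % (L : ℤ) := by
  have hl := BTa_leg hL hu
  induction h with
  | refl => exact ⟨0, rfl, fun i hi => by omega⟩
  | @tail b c _ hbc ih =>
    obtain ⟨k, hk, hi⟩ := ih
    rcases BTa_step hbc with h1 | ⟨h0, h1⟩
    · rcases Nat.even_or_odd' k with ⟨i, h2 | h2⟩
      · refine ⟨2 * i + 1, ?_, fun j hj => hi j (by omega)⟩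
        rw [h1, hk, h2, E3A_odd]
      · refine ⟨2 * i, ?_, fun j hj => hi j (by omega)⟩
        rw [h1, hk, h2, E3A_odd, E3A_aa]
    · rcases Nat.even_or_odd' k with ⟨i, h2 | h2⟩
      · rcases Nat.eq_zero_or_pos i with h3 | h3
        · exfalso
          rw [hk, h2, h3] at h0
          have h4 : (l : ℤ) ≤ u.2 % (L : ℤ) := h0
          rw [hl.2.2] at h4
          omega
        · obtain ⟨i', hi'⟩ : ∃ i', i = i' + 1 := ⟨i - 1, by omega⟩
          refine ⟨2 * i' + 1, ?_, fun j hj => hi j (by omega)⟩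
          have e : 2 * i = 2 * i' + 2 := by omega
          rw [h1, hk, h2, e, E3A_even, E3A_ff]
      · refine ⟨2 * i + 2, ?_, fun j hj => ?_⟩
        · rw [h1, hk, h2, E3A_even]
        · rcases Nat.lt_or_ge (2 * j + 1) k with h3 | h3
          · exact hi j h3
          · have e : 2 * j + 1 = k := by omega
            rw [e, ← hk]
            exact h0

end

/-- every sector `(b, g)`, `0 ≤ g ≤ l`, is connected to a sector of a neighbouring copy: then the legs are not connected -/
theorem bwl_of_sectors {l L : ℕ} (hl : 1 ≤ l) (hL : l ≤ L) {P Q : Pat L}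
    (h : ∀ (b : Bool) (g : ℤ), 0 ≤ g → g ≤ l → ∃ (b' : Bool) (g' : ℤ), 0 ≤ g' ∧ g' ≤ l ∧
      (BGC l P Q (b, g) (b', g' + L) ∨ BGC l P Q (b', g') (b, g + L))) : WL l l P Q := by
  rw [BTa_wl_iff]
  intro u v hu hv huv hc
  have hL2 : 2 ≤ L := P.two_le
  have hLz2 : (2 : ℤ) ≤ L := by exact_mod_cast hL2
  have hLz : (l : ℤ) ≤ L := by exact_mod_cast hL
  have hlz : (1 : ℤ) ≤ l := by exact_mod_cast hl
  have hlu := BTa_leg hL hu
  have hlv := BTa_leg hL hv
  obtain ⟨K, hK, hn⟩ := BTa_reach hL hu hc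
  -- `K` is odd
  obtain ⟨M, hM⟩ : ∃ M, K = 2 * M + 1 := by
    rcases Nat.even_or_odd' K with ⟨i, h1 | h1⟩
    · exfalso
      rcases Nat.eq_zero_or_pos i with h2 | h2
      · rw [h1, h2] at hK
        exact huv hK.symm
      · obtain ⟨i', hi'⟩ : ∃ i', i = i' + 1 := ⟨i - 1, by omega⟩
        have h3 := hn i' (by omega)
        have e : 2 * i = 2 * i' + 2 := by omega
        rw [h1, e, E3A_even] at hK
        have h4 : v.2 = (E3A_sq P Q u (2 * i' + 1)).2 := by
          rw [hK]
          rfl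
        rw [← h4, hlv.2.2] at h3
        omega
    · exact ⟨i, h1⟩
  -- the inner nodes are not legs
  have hin : ∀ i : ℕ, 0 < i → i < K → (l : ℤ) ≤ (E3A_sq P Q u i).2 % (L : ℤ) := by
    intro i h1 h2
    rcases Nat.even_or_odd' i with ⟨j, h3 | h3⟩
    · obtain ⟨j', hj'⟩ : ∃ j', j = j' + 1 := ⟨j - 1, by omega⟩
      have e : 2 * j = 2 * j' + 2 := by omega
      have h4 := hn j' (by omega)
      rw [h3, e, E3A_even]
      exact h4
    · rw [h3]
      exact hn j (by omega)
  have hne : ∀ (i : ℕ), i ≤ K → ∀ (b : Bool) (x : ℤ), x % (L : ℤ) < l → (b, x) ≠ u → (b, x) ≠ v →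
      E3A_sq P Q u i ≠ (b, x) := by
    intro i hi b x hx h1 h2 h3
    rcases Nat.eq_zero_or_pos i with h4 | h4
    · rw [h4] at h3
      exact h1 h3.symm
    · rcases Nat.lt_or_ge i K with h5 | h5
      · have h6 := hin i h4 h5
        rw [h3] at h6
        have h7 : (l : ℤ) ≤ x % (L : ℤ) := h6
        omega
      · have e : i = K := by omega
        rw [e, ← hK] at h3
        exact h2 h3.symm
  obtain ⟨z, hz⟩ : ∃ z : Bool → ℤ → ZMod 2, z = E3A_z P Q u (M + 1) := ⟨_, rfl⟩
  have zjump : ∀ (b : Bool) (x : ℤ), x % (L : ℤ) < l → (b, x) ≠ u → (b, x) ≠ v → z b (x + 1) = z b x := by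
    intro b x hx h1 h2
    rw [hz]
    unfold E3A_z
    refine sum_congr rfl fun i hi => ?_
    rw [mem_range] at hi
    rw [E3A_jump (hne (2 * i) (by omega) b x hx h1 h2), E3A_jump (hne (2 * i + 1) (by omega) b x hx h1 h2)]
  have zu : z u.1 (u.2 + 1) = z u.1 u.2 + 1 := by
    have hnu : ∀ i : ℕ, 0 < i → i ≤ K → E3A_sq P Q u i ≠ (u.1, u.2) := by
      intro i h1 h2 h3
      rcases Nat.lt_or_ge i K with h4 | h4
      · have h5 := hin i h1 h4
        rw [h3] at h5
        have h6 : (l : ℤ) ≤ u.2 % (L : ℤ) := h5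
        rw [hlu.2.2] at h6
        omega
      · have e : i = K := by omega
        rw [e, ← hK] at h3
        exact huv h3.symm
    rw [hz]
    unfold E3A_z
    rw [sum_range_succ', sum_range_succ']
    have e1 : ∑ i ∈ range M, (E3A_t u.1 (u.2 + 1) (E3A_sq P Q u (2 * (i + 1))) +
        E3A_t u.1 (u.2 + 1) (E3A_sq P Q u (2 * (i + 1) + 1))) =
        ∑ i ∈ range M, (E3A_t u.1 u.2 (E3A_sq P Q u (2 * (i + 1))) + E3A_t u.1 u.2 (E3A_sq P Q u (2 * (i + 1) + 1))) := by
      refine sum_congr rfl fun i hi => ?_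
      rw [mem_range] at hi
      rw [E3A_jump (hnu (2 * (i + 1)) (by omega) (by omega)), E3A_jump (hnu (2 * (i + 1) + 1) (by omega) (by omega))]
    have e2 : E3A_t u.1 (u.2 + 1) (E3A_sq P Q u (2 * 0)) = E3A_t u.1 u.2 (E3A_sq P Q u (2 * 0)) + 1 := by
      have e3 : E3A_sq P Q u (2 * 0) = (u.1, u.2) := rfl
      rw [e3]
      exact E3A_jump1 _ _
    have e4 : E3A_t u.1 (u.2 + 1) (E3A_sq P Q u (2 * 0 + 1)) = E3A_t u.1 u.2 (E3A_sq P Q u (2 * 0 + 1)) :=
      E3A_jump (hnu (2 * 0 + 1) (by omega) (by omega))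
    rw [e1, e2, e4]
    ring
  have zglue : ∀ g : ℤ, (g ≤ 0 ∨ (l : ℤ) ≤ g) → z true g = z false g := by
    intro g hg
    have h1 := E3A_glue (P := P) (Q := Q) (u := u) M g
    rw [← hz, ← hM, ← hK] at h1
    have h2 : E3A_s g u + E3A_s g v = 0 := by
      unfold E3A_s
      rcases hg with h3 | h3
      · rw [if_neg (by omega), if_neg (by omega), add_zero]
      · rw [if_pos (by omega), if_pos (by omega)]
        exact E3A_two 1
    rw [h2] at h1
    have h3 := E3A_two (z false g)
    linear_combination h1 - h3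
  have zgc : ∀ w w' : Bool × ℤ, BGC l P Q w w' → z w.1 w.2 = z w'.1 w'.2 := by
    intro w w' hw
    unfold BGC at hw
    induction hw with
    | rel a b h1 =>
      rcases h1 with ⟨h2, h3, h4⟩ | ⟨h2, h3, h4⟩ | ⟨h2, h3⟩
      · rw [h2, h3, hz]
        exact E3A_zreg h4
      · rw [h2, h3, hz]
        exact E3A_zreg h4
      · rw [h2]
        have h4 : a.2 ≤ 0 ∨ (l : ℤ) ≤ a.2 := by
          by_contra c
          apply h3
          have c1 : 0 ≤ a.2 := by omega
          have c2 : a.2 < (L : ℤ) := by omega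
          unfold BCut
          rw [Int.emod_eq_of_lt c1 c2]
          omega
        have h5 := zglue a.2 h4
        rcases Bool.eq_false_or_eq_true a.1 with e1 | e1 <;> rcases Bool.eq_false_or_eq_true b.1 with e2 | e2 <;>
          rw [e1, e2]
        · exact h5
        · exact h5.symm
    | refl a => rfl
    | symm a b _ ih => exact ih.symm
    | trans a b c _ _ ih1 ih2 => exact ih1.trans ih2
  -- one value for every copy
  have zcopy : ∀ j : ℤ, j ≠ 0 → ∀ (b : Bool) (g : ℤ), 0 ≤ g → g ≤ l → z b (g + j * L) = z true (j * L) := by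
    intro j hj b g h1 h2
    obtain ⟨x, hx⟩ : ∃ x : ℤ, x = j * L := ⟨_, rfl⟩
    have hxL : x ≤ -L ∨ (L : ℤ) ≤ x := by
      rcases lt_or_gt_of_ne hj with h3 | h3
      · left
        have : j * (L : ℤ) ≤ -1 * L := mul_le_mul_of_nonneg_right (by omega) (by omega)
        omega
      · right
        have : 1 * (L : ℤ) ≤ j * L := mul_le_mul_of_nonneg_right (by omega) (by omega)
        omega
    have hmod : ∀ k : ℕ, (k : ℤ) < l → (x + k) % (L : ℤ) = k := by
      intro k hk
      rw [hx, add_comm, Int.add_mul_emod_self_right]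
      exact Int.emod_eq_of_lt (by omega) (by omega)
    have hneu : ∀ (s : Bool) (k : ℕ), (k : ℤ) < l → (s, x + (k : ℤ)) ≠ u ∧ (s, x + (k : ℤ)) ≠ v := by
      intro s k hk
      constructor
      · intro c
        have := congrArg Prod.snd c
        simp only at this
        omega
      · intro c
        have := congrArg Prod.snd c
        simp only at this
        omega
    have key : ∀ k : ℕ, (k : ℤ) ≤ l → ∀ s : Bool, z s (x + k) = z s x := by
      intro k
      induction k with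
      | zero =>
        intro _ s
        simp
      | succ k ih =>
        intro hk s
        have hk2 : (k : ℤ) < l := by
          push_cast at hk
          omega
        have e : x + ((k + 1 : ℕ) : ℤ) = x + k + 1 := by
          push_cast
          ring
        rw [e, zjump s (x + k) (by rw [hmod k hk2]; exact hk2) (hneu s k hk2).1 (hneu s k hk2).2]
        exact ih hk2.le s
    have hgl := zglue x (by omega)
    have hb : z b x = z true x := by
      cases b
      · exact hgl.symm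
      · rfl
    rw [← hx]
    obtain ⟨k, hk⟩ : ∃ k : ℕ, (k : ℤ) = g := ⟨g.toNat, Int.toNat_of_nonneg h1⟩
    rw [← hk, add_comm, key k (by omega) b]
    exact hb
  -- neighbouring copies
  have znext : ∀ j : ℤ, j ≠ 0 → j + 1 ≠ 0 → z true (j * L) = z true ((j + 1) * L) := by
    intro j h1 h2
    obtain ⟨b', g', h3, h4, h5⟩ := h true 0 le_rfl (by omega)
    rcases h5 with h5 | h5
    · have h6 := zgc _ _ (bgc_shift j h5)
      simp only at h6
      rw [zcopy j h1 true 0 le_rfl (by omega)] at h6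
      have e : g' + (L : ℤ) + j * L = g' + (j + 1) * L := by ring
      rw [e, zcopy (j + 1) h2 b' g' h3 h4] at h6
      exact h6
    · have h6 := zgc _ _ (bgc_shift j h5)
      simp only at h6
      rw [zcopy j h1 b' g' h3 h4] at h6
      have e : 0 + (L : ℤ) + j * L = 0 + (j + 1) * L := by ring
      rw [e, zcopy (j + 1) h2 true 0 le_rfl (by omega)] at h6
      exact h6
  obtain ⟨B, hB0, hB⟩ := E3A_far P Q u (M + 1)
  rw [← hz] at hB
  have hBL : ∀ n : ℕ, B ≤ (B.toNat + 1 + n : ℕ) * (L : ℤ) := by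
    intro n
    have h1 : B ≤ (B.toNat + 1 + n : ℕ) := by push_cast; omega
    have h2 : ((B.toNat + 1 + n : ℕ) : ℤ) * 1 ≤ (B.toNat + 1 + n : ℕ) * (L : ℤ) :=
      mul_le_mul_of_nonneg_left (by omega) (by omega)
    omega
  have zpos : ∀ n : ℕ, z true (((n : ℤ) + 1) * L) = 0 := by
    have key : ∀ n k : ℕ, z true (((n : ℤ) + 1) * L) = z true (((n : ℤ) + 1 + k) * L) := by
      intro n k
      induction k with
      | zero => simp
      | succ k ih =>
        have e : (n : ℤ) + 1 + ((k + 1 : ℕ) : ℤ) = (n : ℤ) + 1 + k + 1 := by push_cast; ring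
        rw [ih, znext ((n : ℤ) + 1 + k) (by omega) (by omega), e]
    intro n
    rw [key n B.toNat]
    refine hB true _ (Or.inr ?_)
    have h1 := hBL n
    have e : ((n : ℤ) + 1 + B.toNat) = ((B.toNat + 1 + n : ℕ) : ℤ) := by push_cast; ring
    rw [e]
    exact h1
  have zneg : ∀ n : ℕ, z true (-((n : ℤ) + 1) * L) = 0 := by
    have key : ∀ n k : ℕ, z true (-((n : ℤ) + 1) * L) = z true (-((n : ℤ) + 1 + k) * L) := by
      intro n k
      induction k with
      | zero => simp
      | succ k ih =>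
        have h1 := znext (-((n : ℤ) + 1 + (k + 1 : ℕ))) (by push_cast; omega) (by push_cast; omega)
        have e : -((n : ℤ) + 1 + (k + 1 : ℕ)) + 1 = -((n : ℤ) + 1 + k) := by push_cast; ring
        rw [e] at h1
        rw [ih, ← h1]
    intro n
    rw [key n B.toNat]
    refine hB true _ (Or.inl ?_)
    have h1 := hBL n
    have e : -((n : ℤ) + 1 + B.toNat) * (L : ℤ) = -(((B.toNat + 1 + n : ℕ) : ℤ) * L) := by push_cast; ring
    rw [e]
    omega
  have z1 : z true (1 * L) = 0 := by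
    have := zpos 0
    simpa using this
  have zm1 : z true (-1 * L) = 0 := by
    have := zneg 0
    simpa using this
  have zall : ∀ (b : Bool) (g : ℤ), 0 ≤ g → g ≤ l → z b g = 0 := by
    intro b g h1 h2
    obtain ⟨b', g', h3, h4, h5⟩ := h b g h1 h2
    rcases h5 with h5 | h5
    · have h6 := zgc _ _ h5
      simp only at h6
      have e : g' + (L : ℤ) = g' + 1 * L := by ring
      rw [e, zcopy 1 (by decide) b' g' h3 h4, z1] at h6
      exact h6
    · have h6 := zgc _ _ (bgc_shift (-1) h5)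
      simp only at h6
      have e : g + (L : ℤ) + -1 * L = g := by ring
      rw [e, zcopy (-1) (by decide) b' g' h3 h4, zm1] at h6
      exact h6.symm
  rw [zall u.1 (u.2 + 1) (by omega) (by omega), zall u.1 u.2 hlu.1 (by omega), zero_add] at zu
  exact absurd zu (by decide)

end EV
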