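import Pool.Agent.Lib.MP_216314_pr.EV.BDef
import Pool.Agent.Lib.MP_216314_pr.N.E3B

/-!
# Faces connected to a gap, legs `0, .., l-1`

PROOFS: the same as in `N/E3B.lean` (completely formalised for two legs, with a general height `r`; here `r = 0`, rows `2 * m` below and above, and
`pup n m α ω = pats (tup n m ω) α (2 * m)`, `plo n m α ω = pats (tlo n m ω) α (2 * m)`, K/KEvt).
`bing_row`: as `ing_row` with `reg_pats` (K/KLow), `((0 : ℤ) + 2 * m).toNat = 2 * m`.
`bing_lo`, `bing_up`: as `ing_lo`, `ing_up` (`E3B_dlo`, `E3B_dup` with `r = 0`: they are public and can be used with `r := 0`, after `simp`/`omega` for `2 * m + 0`, `2 * m - 0`, `((0 : ℕ) : ℤ)`, or copied).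
`bing_glue`: by `bing_row` and the third kind of step in `BGSt` (`v.2 = u.2 ∧ ¬ BCut l L u.2`).
`bing_side`: if `y < 0` then `BInG .. false k y` is false, if `0 < y` then `BInG .. true k y` is false (the bounds in the definition); if `y = 0`: `bing_glue`.
`bing_diag`: the side `b = decide (y < 0)` is right for both end points of the diagonal of the tile `(k, y)`; `bing_side` for both end points and `bing_lo` / `bing_up`.
-/

set_option autoImplicit false

noncomputable section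

namespace EV

open Finset FKI FKP FKN CY

section

variable {l n m : ℕ} {α : Pat (2 * n)} {ω : Finset Edge} {u : Bool × ℤ}

theorem BTb_dlo (hn : 1 ≤ n) {k y : ℤ} (h1 : -(2 * (m : ℤ)) ≤ y) (h2 : y < 0) :
    (DG n ω k y → Relation.EqvGen (FE (Reg α) (2 * n) (tlo n m ω) (2 * m)) (k, (y + 2 * m).toNat)
      (k + 1, (y + 1 + 2 * m).toNat)) ∧
    (¬ DG n ω k y → Relation.EqvGen (FE (Reg α) (2 * n) (tlo n m ω) (2 * m)) (k, (y + 1 + 2 * m).toNat)
      (k + 1, (y + 2 * m).toNat)) := by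
  obtain ⟨j, q, hk, h3, h4⟩ := exists_jr (L := 2 * n) (by omega) k
  obtain ⟨r', hr'⟩ := Int.eq_ofNat_of_zero_le h3
  obtain ⟨h, hh⟩ := Int.eq_ofNat_of_zero_le (show 0 ≤ y + 2 * m by omega)
  have ey : y = (h : ℤ) - 2 * m := by omega
  have hlt : tlo n m ω h r' ↔ ¬ DG n ω k y := by
    unfold tlo
    rw [hk, hr', dg_shift hn, ey]
  have e1 : (y + 2 * m).toNat = h := by omega
  have e2 : (y + 1 + 2 * m).toNat = h + 1 := by omega
  rw [e1, e2]
  constructor
  · intro hd
    refine Relation.EqvGen.rel _ _ (Or.inr ⟨h, r', by omega, by omega, j, Or.inl ⟨fun c => (hlt.1 c) hd, ?_, ?_⟩⟩)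
    · rw [hk, hr']
    · rw [hk, hr']
  · intro hd
    refine Relation.EqvGen.rel _ _ (Or.inr ⟨h, r', by omega, by omega, j, Or.inr ⟨hlt.2 hd, ?_, ?_⟩⟩)
    · rw [hk, hr']
    · rw [hk, hr']

theorem BTb_dup (hn : 1 ≤ n) {k y : ℤ} (h1 : 0 ≤ y) (h2 : y < 2 * m) :
    (DG n ω k y → Relation.EqvGen (FE (Reg α) (2 * n) (tup n m ω) (2 * m)) (k, (2 * m - y).toNat)
      (k + 1, (2 * m - (y + 1)).toNat)) ∧
    (¬ DG n ω k y → Relation.EqvGen (FE (Reg α) (2 * n) (tup n m ω) (2 * m)) (k, (2 * m - (y + 1)).toNat)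
      (k + 1, (2 * m - y).toNat)) := by
  obtain ⟨j, q, hk, h3, h4⟩ := exists_jr (L := 2 * n) (by omega) k
  obtain ⟨r', hr'⟩ := Int.eq_ofNat_of_zero_le h3
  obtain ⟨h, hh⟩ := Int.eq_ofNat_of_zero_le (show 0 ≤ 2 * (m : ℤ) - 1 - y by omega)
  have ey : y = 2 * (m : ℤ) - 1 - h := by omega
  have hlt : tup n m ω h r' ↔ DG n ω k y := by
    unfold tup
    rw [hk, hr', dg_shift hn, ey]
  have e1 : (2 * (m : ℤ) - y).toNat = h + 1 := by omega
  have e2 : (2 * (m : ℤ) - (y + 1)).toNat = h := by omega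
  rw [e1, e2]
  constructor
  · intro hd
    refine Relation.EqvGen.rel _ _ (Or.inr ⟨h, r', by omega, by omega, j, Or.inr ⟨hlt.2 hd, ?_, ?_⟩⟩)
    · rw [hk, hr']
    · rw [hk, hr']
  · intro hd
    refine Relation.EqvGen.rel _ _ (Or.inr ⟨h, r', by omega, by omega, j, Or.inl ⟨fun c => hd (hlt.1 c), ?_, ?_⟩⟩)
    · rw [hk, hr']
    · rw [hk, hr']

theorem BTb_mlo {k y k' y' : ℤ} (h : BInG l n m α ω u true k y) (h1 : -(2 * (m : ℤ)) ≤ y') (h2 : y' ≤ 0)
    (hc : Relation.EqvGen (FE (Reg α) (2 * n) (tlo n m ω) (2 * m)) (k, (y + 2 * m).toNat) (k', (y' + 2 * m).toNat)) :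
    BInG l n m α ω u true k' y' := by
  obtain ⟨g, hg, ⟨_, _, _, h⟩ | ⟨hb, _, _, _⟩⟩ := h
  · exact ⟨g, hg, Or.inl ⟨rfl, h1, h2, h.trans _ _ _ hc⟩⟩
  · cases hb

theorem BTb_mup {k y k' y' : ℤ} (h : BInG l n m α ω u false k y) (h1 : 0 ≤ y') (h2 : y' ≤ 2 * m)
    (hc : Relation.EqvGen (FE (Reg α) (2 * n) (tup n m ω) (2 * m)) (k, (2 * m - y).toNat) (k', (2 * m - y').toNat)) :
    BInG l n m α ω u false k' y' := by
  obtain ⟨g, hg, ⟨hb, _, _, _⟩ | ⟨_, _, _, h⟩⟩ := h
  · cases hb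
  · exact ⟨g, hg, Or.inr ⟨rfl, h1, h2, h.trans _ _ _ hc⟩⟩

theorem BTb_flo {k y : ℤ} (h : BInG l n m α ω u true k y) : y ≤ 0 := by
  obtain ⟨g, hg, ⟨_, _, h, _⟩ | ⟨hb, _, _, _⟩⟩ := h
  · exact h
  · cases hb

theorem BTb_fup {k y : ℤ} (h : BInG l n m α ω u false k y) : 0 ≤ y := by
  obtain ⟨g, hg, ⟨hb, _, _, _⟩ | ⟨_, h, _, _⟩⟩ := h
  · cases hb
  · exact h

theorem bing_row (b : Bool) (k : ℤ) :
    BInG l n m α ω u b k 0 ↔ BGC l (pup n m α ω) (plo n m α ω) u (b, k) := by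
  have e1 : ((0 : ℤ) + 2 * m).toNat = 2 * m := by omega
  have e2 : (2 * (m : ℤ) - 0).toNat = 2 * m := by omega
  constructor
  · rintro ⟨g, hg, ⟨hb, _, _, h⟩ | ⟨hb, _, _, h⟩⟩
    · subst hb
      rw [e1] at h
      exact hg.trans _ _ _ (Relation.EqvGen.rel _ _ (Or.inl ⟨rfl, rfl, (reg_pats α (tlo n m ω) (2 * m) g k).2 h⟩))
    · subst hb
      rw [e2] at h
      exact hg.trans _ _ _
        (Relation.EqvGen.rel _ _ (Or.inr (Or.inl ⟨rfl, rfl, (reg_pats α (tup n m ω) (2 * m) g k).2 h⟩)))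
  · intro h
    refine ⟨k, h, ?_⟩
    rw [e1, e2]
    cases b
    · exact Or.inr ⟨rfl, le_rfl, by omega, Relation.EqvGen.refl _⟩
    · exact Or.inl ⟨rfl, by omega, le_rfl, Relation.EqvGen.refl _⟩

theorem bing_lo (hn : 1 ≤ n) {k y : ℤ} (h1 : -(2 * (m : ℤ)) ≤ y) (h2 : y < 0) :
    (DG n ω k y → (BInG l n m α ω u true k y ↔ BInG l n m α ω u true (k + 1) (y + 1))) ∧
      (¬ DG n ω k y → (BInG l n m α ω u true k (y + 1) ↔ BInG l n m α ω u true (k + 1) y)) := by
  obtain ⟨d1, d2⟩ := BTb_dlo (α := α) (ω := ω) (k := k) hn h1 h2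
  constructor
  · intro hd
    exact ⟨fun h => BTb_mlo h (by omega) (by omega) (d1 hd),
      fun h => BTb_mlo h (by omega) (by omega) ((d1 hd).symm _ _)⟩
  · intro hd
    exact ⟨fun h => BTb_mlo h (by omega) (by omega) (d2 hd),
      fun h => BTb_mlo h (by omega) (by omega) ((d2 hd).symm _ _)⟩

theorem bing_up (hn : 1 ≤ n) {k y : ℤ} (h1 : 0 ≤ y) (h2 : y < 2 * m) :
    (DG n ω k y → (BInG l n m α ω u false k y ↔ BInG l n m α ω u false (k + 1) (y + 1))) ∧
      (¬ DG n ω k y → (BInG l n m α ω u false k (y + 1) ↔ BInG l n m α ω u false (k + 1) y)) := by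
  obtain ⟨d1, d2⟩ := BTb_dup (α := α) (ω := ω) (k := k) hn h1 h2
  constructor
  · intro hd
    exact ⟨fun h => BTb_mup h (by omega) (by omega) (d1 hd),
      fun h => BTb_mup h (by omega) (by omega) ((d1 hd).symm _ _)⟩
  · intro hd
    exact ⟨fun h => BTb_mup h (by omega) (by omega) (d2 hd),
      fun h => BTb_mup h (by omega) (by omega) ((d2 hd).symm _ _)⟩

theorem bing_glue {k : ℤ} (hk : ¬ BCut l (2 * n) k) : BInG l n m α ω u true k 0 ↔ BInG l n m α ω u false k 0 := by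
  rw [bing_row, bing_row]
  constructor
  · intro h
    exact h.trans _ _ _ (Relation.EqvGen.rel _ _ (Or.inr (Or.inr ⟨rfl, hk⟩)))
  · intro h
    exact h.trans _ _ _ (Relation.EqvGen.rel _ _ (Or.inr (Or.inr ⟨rfl, hk⟩)))

/-- the side of a face -/
theorem bing_side {b : Bool} {k y : ℤ} (h1 : b = true → y ≤ 0) (h2 : b = false → 0 ≤ y)
    (hc : y = 0 → ¬ BCut l (2 * n) k) : BInF l n m α ω u k y ↔ BInG l n m α ω u b k y := by
  unfold BInF
  cases b
  · constructor
    · rintro (h | h)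
      · have h3 := BTb_flo h
        have h4 := h2 rfl
        have hy : y = 0 := by omega
        subst hy
        exact (bing_glue (α := α) (ω := ω) (u := u) (hc rfl)).1 h
      · exact h
    · exact Or.inr
  · constructor
    · rintro (h | h)
      · exact h
      · have h3 := BTb_fup h
        have h4 := h1 rfl
        have hy : y = 0 := by omega
        subst hy
        exact (bing_glue (α := α) (ω := ω) (u := u) (hc rfl)).2 h
    · exact Or.inl

/-- the connected diagonal of a tile -/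
theorem bing_diag (hn : 1 ≤ n) {k y : ℤ} (h1 : -(2 * (m : ℤ)) ≤ y) (h2 : y < 2 * m) :
    (DG n ω k y → (y = 0 → ¬ BCut l (2 * n) k) → (y + 1 = 0 → ¬ BCut l (2 * n) (k + 1)) →
      (BInF l n m α ω u k y ↔ BInF l n m α ω u (k + 1) (y + 1))) ∧
    (¬ DG n ω k y → (y + 1 = 0 → ¬ BCut l (2 * n) k) → (y = 0 → ¬ BCut l (2 * n) (k + 1)) →
      (BInF l n m α ω u k (y + 1) ↔ BInF l n m α ω u (k + 1) y)) := by
  rcases lt_or_ge y (0 : ℤ) with h3 | h3
  · obtain ⟨d1, d2⟩ := bing_lo (l := l) (α := α) (ω := ω) (u := u) (k := k) hn h1 h3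
    constructor
    · intro hd c1 c2
      rw [bing_side (b := true) (fun _ => by omega) (fun h => by cases h) c1,
        bing_side (b := true) (fun _ => by omega) (fun h => by cases h) c2]
      exact d1 hd
    · intro hd c1 c2
      rw [bing_side (b := true) (fun _ => by omega) (fun h => by cases h) c1,
        bing_side (b := true) (fun _ => by omega) (fun h => by cases h) c2]
      exact d2 hd
  · obtain ⟨d1, d2⟩ := bing_up (l := l) (α := α) (ω := ω) (u := u) (k := k) hn h3 h2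
    constructor
    · intro hd c1 c2
      rw [bing_side (b := false) (fun h => by cases h) (fun _ => by omega) c1,
        bing_side (b := false) (fun h => by cases h) (fun _ => by omega) c2]
      exact d1 hd
    · intro hd c1 c2
      rw [bing_side (b := false) (fun h => by cases h) (fun _ => by omega) c1,
        bing_side (b := false) (fun h => by cases h) (fun _ => by omega) c2]
      exact d2 hd

end

end EV
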