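import Pool.Agent.Lib.MP_216314_pr.EV.Def
import Pool.Agent.Lib.MP_216314_pr.Sp.SZc
import Pool.Agent.Lib.MP_216314_pr.Sp.SSym

/-!
# Even arms: two corners with the same cluster on the left and the same dual cluster on the right are on the same strand

`η` is a finite configuration.
* `dconn_iff`: `dE e = dl e` (both definitions are the same), `dc F ω = (F \ ω).map dl`, `DConn F ω f g = (gr ((F \ ω).image dE)).Reachable f g`; the two sets of edges are equal (`Finset.map_eq_image`).
* `orb_vtx`: induction on `k` with `step_closed`, `step_open` (SBas): the vertex does not change or moves along an open edge of `η` (see `SOrb_conn` in SOrb).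
* `orb_per`: the vertices of the orbit are in the cluster of `vtx p` in `η`, which is finite: each of them is `vtx p` or an end of an edge of `η` (a vertex `u ≠ vtx p` reachable from `vtx p` has a neighbour, so it is an
  end of an edge of `η`). So the corners `orb η p k` are in a finite set (every vertex has four corners, `corner_of`, `Ar`, or `vtx_eq`), hence `orb η p i = orb η p j` for some `i < j` (`Finite.exists_ne_map_eq_of_infinite`), and
  `next_inj` (`Function.Injective.iterate`) gives `orb η p (j - i) = p` (`orb_add`).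
* `loop_same`: let `O q` mean `(∃ k, orb η p k = q) ∨ (∃ k, orb η q k = p)`. For every `q`: `O q ↔ O (next η q)` (`orb_succ`, `orb_back`, `orb_add`, `next_inj`). `zed_exists` for the box `[-B, B]²` gives
  `zv`, `zf` with `zv (vtx q) + zf (fce q) = [O q]` when `vtx q` is in the box. `zv` is constant along the edges of `η` (`zed_open`, `η ⊆ bx B = box (-B) B (-B) B`), `zf` along the dual edges of the closed edges of `bx B`
  (`zed_closed`; `dconn_iff` and `dconn_rec`, `conn_rec` of SDc). `O p` holds, so `zv (vtx p') + zf (fce p') = 1` and `O p'` holds. If `orb η p' k = p` use `orb_per p'`: `orb η p' m = p'`, `0 < m`, hence `orb η p' (m * (k + 1)) = p'`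
  (induction), and `m * (k + 1) ≥ k`, so `orb η p (m * (k + 1) - k) = p'`.
-/

set_option autoImplicit false

noncomputable section

namespace EV

open Finset FKI FKP

theorem dconn_iff (F ω : Finset Edge) (f g : FKI.V) : FKS.DConn F ω f g ↔ (gr (FKN.dc F ω)).Reachable f g := by
  have h : FKN.dc F ω = (F \ ω).image FKS.dE := by
    unfold FKN.dc
    rw [Finset.map_eq_image]
    rfl
  rw [h]
  rfl

theorem orb_vtx {η : Finset Edge} (p : FKI.V) (k : ℕ) : (gr η).Reachable (vtx p) (vtx (FKS.orb η p k)) := by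
  induction k with
  | zero => exact SimpleGraph.Reachable.refl _
  | succ k ih =>
    rw [FKS.orb_succ]
    by_cases he : edgeOf (FKS.orb η p k) ∈ η
    · have h2 := FKS.reach_step he
      obtain ⟨-, ⟨h3, h4⟩ | ⟨h3, h4⟩⟩ := FKS.step_open he
      · rw [← h3, ← h4] at h2
        exact ih.trans h2
      · rw [← h3, ← h4] at h2
        exact ih.trans h2.symm
    · rw [(FKS.step_closed he).1]
      exact ih

/-- the vertices of the cluster of `u` -/
private theorem CA_mem {η : Finset Edge} {u v : FKI.V} (h : (gr η).Reachable u v) :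
    v ∈ insert u (η.image ea ∪ η.image eb) := by
  refine FKS.reach_rec (P := fun v => v ∈ insert u (η.image ea ∪ η.image eb)) (Finset.mem_insert_self _ _) ?_ h
  rintro a b - ⟨e, he, h | h⟩
  · rw [← h.2]
    exact Finset.mem_insert_of_mem (Finset.mem_union_right _ (Finset.mem_image_of_mem _ he))
  · rw [← h.1]
    exact Finset.mem_insert_of_mem (Finset.mem_union_left _ (Finset.mem_image_of_mem _ he))

/-- the four corners of a vertex -/
private def CA_four (u : FKI.V) : Finset FKI.V :=
  {(2 * u.1, 2 * u.2), (2 * u.1 + 1, 2 * u.2), (2 * u.1, 2 * u.2 + 1), (2 * u.1 + 1, 2 * u.2 + 1)}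

private theorem CA_four_mem (p : FKI.V) : p ∈ CA_four (vtx p) := by
  obtain ⟨h1, h2⟩ := (FKS.vtx_eq (p := p) (u := vtx p)).1 rfl
  obtain ⟨x, y⟩ := p
  unfold CA_four
  simp only [Finset.mem_insert, Finset.mem_singleton, Prod.mk.injEq]
  simp only at h1 h2
  omega

theorem orb_per (η : Finset Edge) (p : FKI.V) : ∃ m : ℕ, 0 < m ∧ FKS.orb η p m = p := by
  let T : Finset FKI.V := (insert (vtx p) (η.image ea ∪ η.image eb)).biUnion CA_four
  have hT : ∀ k, FKS.orb η p k ∈ T := fun k =>
    Finset.mem_biUnion.2 ⟨_, CA_mem (orb_vtx p k), CA_four_mem _⟩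
  have key : ∀ i j : ℕ, i < j → FKS.orb η p i = FKS.orb η p j → ∃ m : ℕ, 0 < m ∧ FKS.orb η p m = p := by
    intro i j hij h
    refine ⟨j - i, by omega, ?_⟩
    have h1 : FKS.orb η p j = FKS.orb η (FKS.orb η p (j - i)) i := by
      rw [← FKS.orb_add, Nat.sub_add_cancel hij.le]
    rw [h1] at h
    exact ((next_inj η).iterate i h).symm
  obtain ⟨i, j, hij, h⟩ := Finite.exists_ne_map_eq_of_infinite (fun k : ℕ => (⟨FKS.orb η p k, hT k⟩ : {q // q ∈ T}))
  have h' : FKS.orb η p i = FKS.orb η p j := congrArg Subtype.val h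
  rcases lt_or_gt_of_ne hij with h1 | h1
  · exact key i j h1 h'
  · exact key j i h1 h'.symm

theorem loop_same {η : Finset Edge} {B : ℕ} (hη : η ⊆ FKN.bx B) {p p' : FKI.V} (h1 : FKN.nrm (vtx p) ≤ B) (h1' : FKN.nrm (vtx p') ≤ B)
    (hv : (gr η).Reachable (vtx p) (vtx p')) (hf : (gr (FKN.dc (FKN.bx B) η)).Reachable (FKS.fce p) (FKS.fce p')) :
    ∃ k : ℕ, FKS.orb η p k = p' := by
  obtain ⟨m, hm, hper⟩ := orb_per η p
  have hO : ∀ q, edgeOf q ∈ box (-(B : ℤ)) B (-(B : ℤ)) B → ((∃ k : ℕ, FKS.orb η p k = q) ↔ (∃ k : ℕ, FKS.orb η p k = next η q)) := by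
    intro q _
    constructor
    · rintro ⟨k, rfl⟩
      exact ⟨k + 1, FKS.orb_succ η p k⟩
    · rintro ⟨k, h⟩
      by_cases h0 : k = 0
      · rw [h0, FKS.orb_zero] at h
        rw [← hper] at h
        exact ⟨m - 1, (FKS.orb_back hm.ne' h.symm).symm⟩
      · exact ⟨k - 1, (FKS.orb_back h0 h.symm).symm⟩
  obtain ⟨zv, zf, hz⟩ := FKS.zed_exists η (fun q => ∃ k : ℕ, FKS.orb η p k = q) hO
  have hin : ∀ v : FKI.V, FKN.nrm v ≤ B → FKS.InB (-(B : ℤ)) B (-(B : ℤ)) B v := by
    intro v hv
    unfold FKN.nrm at hv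
    obtain ⟨a1, a2⟩ := abs_le.1 ((le_max_left _ _).trans hv)
    obtain ⟨b1, b2⟩ := abs_le.1 ((le_max_right _ _).trans hv)
    exact ⟨a1, a2, b1, b2⟩
  have e1 : zv (vtx p') = zv (vtx p) := by
    refine FKS.reach_rec (P := fun v => zv v = zv (vtx p)) rfl ?_ hv
    rintro a b ha ⟨e, he, h | h⟩
    · have h2 := FKS.zed_open hO hz (hη he) he
      rw [h.1, h.2] at h2
      exact h2.symm.trans ha
    · have h2 := FKS.zed_open hO hz (hη he) he
      rw [h.1, h.2] at h2
      exact h2.trans ha
  have e2 : zf (FKS.fce p') = zf (FKS.fce p) := by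
    refine FKS.dconn_rec (P := fun v => zf v = zf (FKS.fce p)) rfl ?_ ((dconn_iff _ _ _ _).2 hf)
    rintro a b ha ⟨e, he, he2, h | h⟩
    · have h2 := FKS.zed_closed hO hz he he2
      rw [h.1, h.2] at h2
      exact h2.symm.trans ha
    · have h2 := FKS.zed_closed hO hz he he2
      rw [h.1, h.2] at h2
      exact h2.trans ha
  have k1 := hz p (hin _ h1)
  have k2 := hz p' (hin _ h1')
  rw [e1, e2, k1, if_pos ⟨0, FKS.orb_zero η p⟩] at k2
  by_contra hcon
  rw [if_neg hcon] at k2
  exact one_ne_zero k2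

end EV
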