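import Pool.Agent.Lib.MP_216314_pr.EV.CA

/-!
# Even arms: exterior faces, hole faces, corners at the boundary

`lvf f = max |2 f.1 + 1| |2 f.2 + 1|` (DTopA), `nrm v = max |v.1| |v.2|`. Membership in `bx m = box (-m) m (-m) m`: `mem_box` (PBase); an edge is in `bx m` iff both ends have `nrm ≤ m` (`FKN.mem_bx_iff` in N/CA, import it if useful).
The dual edge `dl e` of `e = (x, y, false)` joins the faces `(x, y - 1)`, `(x, y)`; the one of `(x, y, true)` joins `(x - 1, y)`, `(x, y)`; `(gr (dc F η))`: faces joined by dual edges of edges of `F \ η`.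
* `face_sq`: all faces of the square `-a ≤ f.1 < b`.. : move first in the first coordinate, then in the second; every crossed edge is in `F \ η` by hypothesis.
* `hole_faces`: `lvf f ≤ 2 r + 1` means `-r-1 ≤ f.1 ≤ r`, `-r-1 ≤ f.2 ≤ r`. The edge `(x, y, true)` with `-r ≤ x ≤ r`, `-r-1 ≤ y ≤ r` has the end `(x, y)` or `(x, y + 1)` with `nrm ≤ r`, so it is not in `D0 (r + 1) n`, hence not in `η`; it is in `bx B`
  (`r + 1 ≤ B`). The same for `(x, y, false)` with `-r-1 ≤ x ≤ r`, `-r ≤ y ≤ r`.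
* `ext_faces_ring`: faces with `lvf f = 2 n + 1`: four sides `f.1 = n`, `f.2 = n`, `f.1 = -n-1`, `f.2 = -n-1` of the square `[-n-1, n]²`. On the side `f.1 = n` move by crossing the edges `(n, y, false)`, `-n ≤ y ≤ n` (ends `(n, y)`, `(n + 1, y)`, so not in `bx n`, in `bx B`);
  on `f.1 = -n-1`: `(-n-1, y, false)`; on `f.2 = n`: `(x, n, true)`; on `f.2 = -n-1`: `(x, -n-1, true)`, `-n ≤ x ≤ n`. All are connected to the corner face `(n, n)`.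
* `ext_corner`: `w = (n, y)`: the corner `(2 n + 1, 2 y)` if `-n < y`.. any of the two works: `(2 w.1 + 1, 2 w.2)` meets `(n, y, false)` which is not in `bx n`, its face is `(n, y - 1)`, `lvf = 2 n + 1`. `w = (-n, y)`: `(2 w.1, 2 w.2 + 1)` meets `(-n-1, y, false)`, face `(-n-1, y)`. `w = (x, n)`:
  `(2 x + 1, 2 n + 1)` meets `(x, n, true)`, face `(x, n)`. `w = (x, -n)`: `(2 x, -2 n)` meets `(x, -n-1, true)`, face `(x - 1, -n - 1)`. (`edgeOf_SE`, `edgeOf_NE`, `edgeOf_NW`, `edgeOf_SW`, `SBas_vSE`, `SBas_fSE`, ...)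
* `hole_corner`: `v' = (r, y)`, `v = (r + 1, y)` (`|y| ≤ r`): the corner `(2 v.1, 2 v.2 + 1)` meets `(r, y, false)`, which has the end `v'` with `nrm = r`; face `(r, y)`. The other sides: `v = (-r-1, y)`: `(2 v.1 + 1, 2 v.2)` meets `(-r-1, y, false)`, face `(-r-1, y-1)`; `v = (x, r+1)`:
  `(2 x, 2 (r + 1))` meets `(x, r, true)`, face `(x - 1, r)`; `v = (x, -r-1)`: `(2 x + 1, -2 r - 1)` meets `(x, -r-1, true)`, face `(x, -r-1)`.
-/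

set_option autoImplicit false

noncomputable section

namespace EV

open Finset FKI FKP

private theorem CB1_h {F η : Finset Edge} {x y : ℤ} (h : (x, y, true) ∈ F) (h' : (x, y, true) ∉ η) :
    (gr (FKN.dc F η)).Reachable (x - 1, y) (x, y) := by
  refine SimpleGraph.Adj.reachable ?_
  unfold gr
  rw [SimpleGraph.fromRel_adj]
  refine ⟨?_, Or.inl ⟨FKN.dl (x, y, true), ?_, ?_, ?_⟩⟩
  · intro h1
    have h2 : x - 1 = x := congrArg Prod.fst h1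
    omega
  · unfold FKN.dc
    rw [Finset.mem_map_equiv, Equiv.symm_apply_apply, Finset.mem_sdiff]
    exact ⟨h, h'⟩
  · show ea (x - 1, y, false) = (x - 1, y)
    rfl
  · show eb (x - 1, y, false) = (x, y)
    simp [eb]

private theorem CB1_v {F η : Finset Edge} {x y : ℤ} (h : (x, y, false) ∈ F) (h' : (x, y, false) ∉ η) :
    (gr (FKN.dc F η)).Reachable (x, y - 1) (x, y) := by
  refine SimpleGraph.Adj.reachable ?_
  unfold gr
  rw [SimpleGraph.fromRel_adj]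
  refine ⟨?_, Or.inl ⟨FKN.dl (x, y, false), ?_, ?_, ?_⟩⟩
  · intro h1
    have h2 : y - 1 = y := congrArg Prod.snd h1
    omega
  · unfold FKN.dc
    rw [Finset.mem_map_equiv, Equiv.symm_apply_apply, Finset.mem_sdiff]
    exact ⟨h, h'⟩
  · show ea (x, y - 1, true) = (x, y - 1)
    rfl
  · show eb (x, y - 1, true) = (x, y)
    simp [eb]

private theorem CB1_hm {F η : Finset Edge} {x0 x1 y : ℤ} (hle : x0 ≤ x1)
    (h : ∀ x : ℤ, x0 < x → x ≤ x1 → (x, y, true) ∈ F ∧ (x, y, true) ∉ η) :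
    (gr (FKN.dc F η)).Reachable (x0, y) (x1, y) := by
  obtain ⟨n, rfl⟩ : ∃ n : ℕ, x1 = x0 + n := ⟨(x1 - x0).toNat, by omega⟩
  induction n with
  | zero =>
    rw [Nat.cast_zero, add_zero]
  | succ n ih =>
    have h1 := ih (by omega) (fun x hx hx' => h x hx (by push_cast; omega))
    have h2 := h (x0 + ((n + 1 : ℕ) : ℤ)) (by push_cast; omega) le_rfl
    have h3 := CB1_h h2.1 h2.2
    have h4 : x0 + ((n + 1 : ℕ) : ℤ) - 1 = x0 + (n : ℤ) := by push_cast; ring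
    rw [h4] at h3
    exact h1.trans h3

private theorem CB1_vm {F η : Finset Edge} {x y0 y1 : ℤ} (hle : y0 ≤ y1)
    (h : ∀ y : ℤ, y0 < y → y ≤ y1 → (x, y, false) ∈ F ∧ (x, y, false) ∉ η) :
    (gr (FKN.dc F η)).Reachable (x, y0) (x, y1) := by
  obtain ⟨n, rfl⟩ : ∃ n : ℕ, y1 = y0 + n := ⟨(y1 - y0).toNat, by omega⟩
  induction n with
  | zero =>
    rw [Nat.cast_zero, add_zero]
  | succ n ih =>
    have h1 := ih (by omega) (fun y hy hy' => h y hy (by push_cast; omega))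
    have h2 := h (y0 + ((n + 1 : ℕ) : ℤ)) (by push_cast; omega) le_rfl
    have h3 := CB1_v h2.1 h2.2
    have h4 : y0 + ((n + 1 : ℕ) : ℤ) - 1 = y0 + (n : ℤ) := by push_cast; ring
    rw [h4] at h3
    exact h1.trans h3

private theorem CB1_nle {x y k : ℤ} : FKN.nrm (x, y) ≤ k ↔ (-k ≤ x ∧ x ≤ k) ∧ -k ≤ y ∧ y ≤ k := by
  unfold FKN.nrm
  rw [max_le_iff, abs_le, abs_le]

private theorem CB1_lle {x y k : ℤ} : FKN.lvf (x, y) ≤ k ↔
    (-k ≤ 2 * x + 1 ∧ 2 * x + 1 ≤ k) ∧ -k ≤ 2 * y + 1 ∧ 2 * y + 1 ≤ k := by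
  unfold FKN.lvf
  rw [max_le_iff, abs_le, abs_le]

private theorem CB1_neq {x y k : ℤ} (h : FKN.nrm (x, y) = k) :
    ((-k ≤ x ∧ x ≤ k) ∧ -k ≤ y ∧ y ≤ k) ∧ (x = k ∨ x = -k ∨ y = k ∨ y = -k) := by
  refine ⟨CB1_nle.1 h.le, ?_⟩
  by_contra hc
  have h1 : FKN.nrm (x, y) ≤ k - 1 := by
    have h2 := CB1_nle.1 h.le
    rw [CB1_nle]
    omega
  omega

private theorem CB1_leq {x y k : ℤ} (h : FKN.lvf (x, y) = k) :
    ((-k ≤ 2 * x + 1 ∧ 2 * x + 1 ≤ k) ∧ -k ≤ 2 * y + 1 ∧ 2 * y + 1 ≤ k) ∧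
      (2 * x + 1 = k ∨ 2 * x + 1 = -k ∨ 2 * y + 1 = k ∨ 2 * y + 1 = -k) := by
  refine ⟨CB1_lle.1 h.le, ?_⟩
  by_contra hc
  have h1 : FKN.lvf (x, y) ≤ k - 1 := by
    have h2 := CB1_lle.1 h.le
    rw [CB1_lle]
    omega
  omega

private theorem CB1_lev {x y k : ℤ} (h : (-k ≤ 2 * x + 1 ∧ 2 * x + 1 ≤ k) ∧ -k ≤ 2 * y + 1 ∧ 2 * y + 1 ≤ k)
    (h' : 2 * x + 1 = k ∨ 2 * x + 1 = -k ∨ 2 * y + 1 = k ∨ 2 * y + 1 = -k) : FKN.lvf (x, y) = k := by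
  refine le_antisymm (CB1_lle.2 h) ?_
  by_contra hc
  have h1 : FKN.lvf (x, y) ≤ k - 1 := by omega
  rw [CB1_lle] at h1
  omega

private theorem CB1_bx {k : ℕ} {e : Edge} : e ∈ FKN.bx k ↔
    (e.2.2 = false ∧ -(k : ℤ) ≤ e.1 ∧ e.1 < k ∧ -(k : ℤ) ≤ e.2.1 ∧ e.2.1 ≤ k) ∨
    (e.2.2 = true ∧ -(k : ℤ) ≤ e.1 ∧ e.1 ≤ k ∧ -(k : ℤ) ≤ e.2.1 ∧ e.2.1 < k) := by
  unfold FKN.bx
  exact mem_box

private theorem CB1_bxf {k : ℕ} {x y : ℤ} : ((x, y, false) : Edge) ∈ FKN.bx k ↔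
    -(k : ℤ) ≤ x ∧ x < k ∧ -(k : ℤ) ≤ y ∧ y ≤ k := by
  rw [CB1_bx]
  constructor
  · rintro (⟨-, h⟩ | ⟨h, -⟩)
    · exact h
    · exact absurd (show false = true from h) (by decide)
  · exact fun h => Or.inl ⟨rfl, h⟩

private theorem CB1_bxt {k : ℕ} {x y : ℤ} : ((x, y, true) : Edge) ∈ FKN.bx k ↔
    -(k : ℤ) ≤ x ∧ x ≤ k ∧ -(k : ℤ) ≤ y ∧ y < k := by
  rw [CB1_bx]
  constructor
  · rintro (⟨h, -⟩ | ⟨-, h⟩)
    · exact absurd (show true = false from h) (by decide)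
    · exact h
  · exact fun h => Or.inr ⟨rfl, h⟩

private theorem CB1_D0 {k n : ℕ} {e : Edge} (h : e ∈ D0 k n) : (k : ℤ) ≤ FKN.nrm (ea e) ∧ (k : ℤ) ≤ FKN.nrm (eb e) := by
  unfold D0 at h
  exact (Finset.mem_filter.1 h).2

theorem face_sq {F η : Finset Edge} {a b : ℤ} (h1 : ∀ x y : ℤ, a < x → x ≤ b → a ≤ y → y ≤ b → (x, y, true) ∈ F ∧ (x, y, true) ∉ η)
    (h2 : ∀ x y : ℤ, a ≤ x → x ≤ b → a < y → y ≤ b → (x, y, false) ∈ F ∧ (x, y, false) ∉ η) {f g : FKI.V}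
    (hf : (a ≤ f.1 ∧ f.1 ≤ b) ∧ a ≤ f.2 ∧ f.2 ≤ b) (hg : (a ≤ g.1 ∧ g.1 ≤ b) ∧ a ≤ g.2 ∧ g.2 ≤ b) :
    (gr (FKN.dc F η)).Reachable f g := by
  have key : ∀ f : FKI.V, ((a ≤ f.1 ∧ f.1 ≤ b) ∧ a ≤ f.2 ∧ f.2 ≤ b) → (gr (FKN.dc F η)).Reachable f (b, b) := by
    rintro ⟨x, y⟩ ⟨⟨hx, hx'⟩, hy, hy'⟩
    simp only at hx hx' hy hy'
    have e1 : (gr (FKN.dc F η)).Reachable (x, y) (b, y) :=
      CB1_hm hx' fun z hz hz' => h1 z y (by omega) hz' hy hy'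
    have e2 : (gr (FKN.dc F η)).Reachable (b, y) (b, b) :=
      CB1_vm hy' fun z hz hz' => h2 b z (by omega) le_rfl (by omega) hz'
    exact e1.trans e2
  exact (key f hf).trans (key g hg).symm

theorem hole_faces {r n B : ℕ} (hB : r + 1 ≤ B) {η : Finset Edge} (hη : η ⊆ D0 (r + 1) n) {f g : FKI.V}
    (hf : FKN.lvf f ≤ 2 * r + 1) (hg : FKN.lvf g ≤ 2 * r + 1) : (gr (FKN.dc (FKN.bx B) η)).Reachable f g := by
  obtain ⟨f1, f2⟩ := f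
  obtain ⟨g1, g2⟩ := g
  rw [CB1_lle] at hf hg
  refine face_sq (a := -(r : ℤ) - 1) (b := r) ?_ ?_ ?_ ?_
  · intro x y hx hx' hy hy'
    refine ⟨?_, fun h => ?_⟩
    · rw [CB1_bxt]
      omega
    · obtain ⟨h3, h4⟩ := CB1_D0 (hη h)
      have e1 : ea ((x, y, true) : Edge) = (x, y) := rfl
      have e2 : eb ((x, y, true) : Edge) = (x, y + 1) := by simp [eb]
      rw [e1] at h3
      rw [e2] at h4
      push_cast at h3 h4
      have h5 : ¬ FKN.nrm (x, y) ≤ r := by omega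
      have h6 : ¬ FKN.nrm (x, y + 1) ≤ r := by omega
      rw [CB1_nle] at h5 h6
      omega
  · intro x y hx hx' hy hy'
    refine ⟨?_, fun h => ?_⟩
    · rw [CB1_bxf]
      omega
    · obtain ⟨h3, h4⟩ := CB1_D0 (hη h)
      have e1 : ea ((x, y, false) : Edge) = (x, y) := rfl
      have e2 : eb ((x, y, false) : Edge) = (x + 1, y) := by simp [eb]
      rw [e1] at h3
      rw [e2] at h4
      push_cast at h3 h4
      have h5 : ¬ FKN.nrm (x, y) ≤ r := by omega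
      have h6 : ¬ FKN.nrm (x + 1, y) ≤ r := by omega
      rw [CB1_nle] at h5 h6
      omega
  · show (-(r : ℤ) - 1 ≤ f1 ∧ f1 ≤ r) ∧ -(r : ℤ) - 1 ≤ f2 ∧ f2 ≤ r
    omega
  · show (-(r : ℤ) - 1 ≤ g1 ∧ g1 ≤ r) ∧ -(r : ℤ) - 1 ≤ g2 ∧ g2 ≤ r
    omega

theorem ext_faces_ring {n B : ℕ} (hB : n + 1 ≤ B) {η : Finset Edge} (hη : η ⊆ FKN.bx n) {f g : FKI.V}
    (hf : FKN.lvf f = 2 * n + 1) (hg : FKN.lvf g = 2 * n + 1) : (gr (FKN.dc (FKN.bx B) η)).Reachable f g := by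
  have t1 : ∀ y0 y1 : ℤ, -(n : ℤ) - 1 ≤ y0 → y0 ≤ y1 → y1 ≤ n →
      (gr (FKN.dc (FKN.bx B) η)).Reachable ((n : ℤ), y0) ((n : ℤ), y1) := by
    intro y0 y1 h0 h1 h2
    refine CB1_vm h1 fun y hy hy' => ⟨?_, fun h => ?_⟩
    · rw [CB1_bxf]
      omega
    · have h3 := CB1_bxf.1 (hη h)
      omega
  have t2 : ∀ y0 y1 : ℤ, -(n : ℤ) - 1 ≤ y0 → y0 ≤ y1 → y1 ≤ n →
      (gr (FKN.dc (FKN.bx B) η)).Reachable (-(n : ℤ) - 1, y0) (-(n : ℤ) - 1, y1) := by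
    intro y0 y1 h0 h1 h2
    refine CB1_vm h1 fun y hy hy' => ⟨?_, fun h => ?_⟩
    · rw [CB1_bxf]
      omega
    · have h3 := CB1_bxf.1 (hη h)
      omega
  have t3 : ∀ x0 x1 : ℤ, -(n : ℤ) - 1 ≤ x0 → x0 ≤ x1 → x1 ≤ n →
      (gr (FKN.dc (FKN.bx B) η)).Reachable (x0, (n : ℤ)) (x1, (n : ℤ)) := by
    intro x0 x1 h0 h1 h2
    refine CB1_hm h1 fun x hx hx' => ⟨?_, fun h => ?_⟩
    · rw [CB1_bxt]
      omega
    · have h3 := CB1_bxt.1 (hη h)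
      omega
  have t4 : ∀ x0 x1 : ℤ, -(n : ℤ) - 1 ≤ x0 → x0 ≤ x1 → x1 ≤ n →
      (gr (FKN.dc (FKN.bx B) η)).Reachable (x0, -(n : ℤ) - 1) (x1, -(n : ℤ) - 1) := by
    intro x0 x1 h0 h1 h2
    refine CB1_hm h1 fun x hx hx' => ⟨?_, fun h => ?_⟩
    · rw [CB1_bxt]
      omega
    · have h3 := CB1_bxt.1 (hη h)
      omega
  have key : ∀ f : FKI.V, FKN.lvf f = 2 * n + 1 → (gr (FKN.dc (FKN.bx B) η)).Reachable f ((n : ℤ), (n : ℤ)) := by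
    rintro ⟨x, y⟩ h
    obtain ⟨⟨⟨h1, h2⟩, h3, h4⟩, h5⟩ := CB1_leq h
    rcases h5 with h5 | h5 | h5 | h5
    · obtain rfl : x = n := by omega
      exact t1 y n (by omega) (by omega) le_rfl
    · obtain rfl : x = -(n : ℤ) - 1 := by omega
      exact (t2 y n (by omega) (by omega) le_rfl).trans (t3 _ _ le_rfl (by omega) le_rfl)
    · obtain rfl : y = n := by omega
      exact t3 x n (by omega) (by omega) le_rfl
    · obtain rfl : y = -(n : ℤ) - 1 := by omega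
      exact (t4 x n (by omega) (by omega) le_rfl).trans (t1 _ _ le_rfl (by omega) le_rfl)
  exact (key f hf).trans (key g hg).symm

theorem ext_corner {n : ℕ} {w : FKI.V} (hw : FKN.nrm w = n) :
    ∃ p, vtx p = w ∧ edgeOf p ∉ FKN.bx n ∧ FKN.lvf (FKS.fce p) = 2 * n + 1 := by
  obtain ⟨x, y⟩ := w
  obtain ⟨⟨⟨h1, h2⟩, h3, h4⟩, h5⟩ := CB1_neq hw
  rcases h5 with h5 | h5 | h5 | h5
  · refine ⟨(2 * x + 1, 2 * y), FKS.SBas_vSE x y, ?_, ?_⟩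
    · rw [edgeOf_SE, CB1_bxf]
      omega
    · rw [FKS.SBas_fSE]
      exact CB1_lev (by omega) (by omega)
  · refine ⟨(2 * x, 2 * y + 1), FKS.SBas_vNW x y, ?_, ?_⟩
    · rw [edgeOf_NW, CB1_bxf]
      omega
    · rw [FKS.SBas_fNW]
      exact CB1_lev (by omega) (by omega)
  · refine ⟨(2 * x + 1, 2 * y + 1), FKS.SBas_vNE x y, ?_, ?_⟩
    · rw [edgeOf_NE, CB1_bxt]
      omega
    · rw [FKS.SBas_fNE]
      exact CB1_lev (by omega) (by omega)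
  · refine ⟨(2 * x, 2 * y), FKS.SBas_vSW x y, ?_, ?_⟩
    · rw [edgeOf_SW, CB1_bxt]
      omega
    · rw [FKS.SBas_fSW]
      exact CB1_lev (by omega) (by omega)

theorem hole_corner {r n : ℕ} (hn : r + 1 ≤ n) {e : Edge} {v v' : FKI.V} (hv : FKN.nrm v = r + 1) (hv' : FKN.nrm v' = r)
    (he : (ea e = v ∧ eb e = v') ∨ (ea e = v' ∧ eb e = v)) :
    ∃ p, vtx p = v ∧ edgeOf p = e ∧ e ∈ FKN.bx n ∧ e ∉ D0 (r + 1) n ∧ FKN.lvf (FKS.fce p) ≤ 2 * r + 1 := by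
  have hD : e ∉ D0 (r + 1) n := by
    intro h
    obtain ⟨h1, h2⟩ := CB1_D0 h
    push_cast at h1 h2
    rcases he with ⟨-, h3⟩ | ⟨h3, -⟩
    · rw [h3] at h2
      omega
    · rw [h3] at h1
      omega
  obtain ⟨x, y, t⟩ := e
  have e1 : ea ((x, y, t) : Edge) = (x, y) := rfl
  have e2 : eb ((x, y, false) : Edge) = (x + 1, y) := by simp [eb]
  have e3 : eb ((x, y, true) : Edge) = (x, y + 1) := by simp [eb]
  rcases he with ⟨h3, h4⟩ | ⟨h3, h4⟩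
  · rw [e1] at h3
    subst h3
    cases t
    · rw [e2] at h4
      subst h4
      obtain ⟨⟨⟨a1, a2⟩, a3, a4⟩, a5⟩ := CB1_neq hv
      obtain ⟨⟨⟨b1, b2⟩, b3, b4⟩, b5⟩ := CB1_neq hv'
      refine ⟨(2 * x + 1, 2 * y), FKS.SBas_vSE x y, edgeOf_SE x y, ?_, hD, ?_⟩
      · rw [CB1_bxf]
        omega
      · rw [FKS.SBas_fSE, CB1_lle]
        omega
    · rw [e3] at h4
      subst h4
      obtain ⟨⟨⟨a1, a2⟩, a3, a4⟩, a5⟩ := CB1_neq hv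
      obtain ⟨⟨⟨b1, b2⟩, b3, b4⟩, b5⟩ := CB1_neq hv'
      refine ⟨(2 * x + 1, 2 * y + 1), FKS.SBas_vNE x y, edgeOf_NE x y, ?_, hD, ?_⟩
      · rw [CB1_bxt]
        omega
      · rw [FKS.SBas_fNE, CB1_lle]
        omega
  · rw [e1] at h3
    subst h3
    cases t
    · rw [e2] at h4
      subst h4
      obtain ⟨⟨⟨a1, a2⟩, a3, a4⟩, a5⟩ := CB1_neq hv
      obtain ⟨⟨⟨b1, b2⟩, b3, b4⟩, b5⟩ := CB1_neq hv'
      refine ⟨(2 * (x + 1), 2 * y + 1), FKS.SBas_vNW (x + 1) y, ?_, ?_, hD, ?_⟩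
      · rw [edgeOf_NW, add_sub_cancel_right]
      · rw [CB1_bxf]
        omega
      · rw [FKS.SBas_fNW, CB1_lle]
        omega
    · rw [e3] at h4
      subst h4
      obtain ⟨⟨⟨a1, a2⟩, a3, a4⟩, a5⟩ := CB1_neq hv
      obtain ⟨⟨⟨b1, b2⟩, b3, b4⟩, b5⟩ := CB1_neq hv'
      refine ⟨(2 * x, 2 * (y + 1)), FKS.SBas_vSW x (y + 1), ?_, ?_, hD, ?_⟩
      · rw [edgeOf_SW, add_sub_cancel_right]
      · rw [CB1_bxt]
        omega
      · rw [FKS.SBas_fSW, CB1_lle]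
        omega

end EV
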