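import Pool.Agent.Lib.MP_216314_pr.EV.CB1

/-!
# Even arms: extraction of a strand between the exterior and the hole

* `extract`: `k` = the least index `≤ T` with `H` (`Nat.find`), `k ≠ 0` because of `hXH`; `j` = the largest index `< k` with `X` (`Nat.findGreatest` or strong induction); the indices strictly between them satisfy neither `X` nor `H`.
* `exit_of_run`: `orb η s i = orb ω s i` for `i ≤ T` by `FKS.orb_agree` (the edges met before time `T` are in `D`, where `η = ω ∩ D` and `ω` agree; induction is inside `orb_agree`: its hypothesis is about `orb ω s j`, so use it with the roles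
  `ω := η`, `ω' := ω`). Then `Run D ω s T`.
* `strand_in`: `p`, `p'` as given. `loop_same` with `B = n + 1` gives `orb η p T = p'`, where `η = ω ∩ D0 (r + 1) n`. `extract` with `X e := e ∉ bx n`, `H e := e ∈ bx n ∧ e ∉ D0 (r + 1) n`, `D := D0 (r + 1) n ⊆ bx n`. With `j < k` from `extract` let `s = orb η p (j + 1)`, `a = orb η p k`.
  `edgeIn s = edgeOf (orb η p j) ∉ bx n` (`edgeIn_next`); this edge is not in `η`, so `vtx s = vtx (orb η p j)` (`step_closed`); `edgeOf s ∈ bx n` (it is in `D` or satisfies `H`), so `nrm (vtx s) ≤ n` (`vtx_mem`: `vtx s` is an end of `edgeOf s`); `vtx s` is an end of `edgeIn s` (`vtx_mem_in`)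
  which is not in `bx n`: the other end has `nrm ≥ n + 1` (or `vtx s` itself), so `nrm (vtx s) ≥ n`. Hence `s ∈ StI n`. `Run D η s (k - j - 1)` and `exit_of_run` give `Exit (D0 (r + 1) n) ω s a`; `a ∈ ExI (r + 1) n` by `H`. `orb_vtx` gives the connection of `vtx p` with `vtx a` in `η`.
-/

set_option autoImplicit false

noncomputable section

namespace EV

open Finset FKI FKP

private theorem CB2_mem_bx {r : ℕ} {e : Edge} : e ∈ FKN.bx r ↔ FKN.nrm (ea e) ≤ r ∧ FKN.nrm (eb e) ≤ r := by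
  obtain ⟨x, y, t⟩ := e
  unfold FKN.bx
  rw [mem_box]
  cases t
  · simp only [ea, eb, FKN.nrm, max_le_iff, abs_le]
    simp
    omega
  · simp only [ea, eb, FKN.nrm, max_le_iff, abs_le]
    simp
    omega

private theorem CB2_nrm_step (e : Edge) : FKN.nrm (eb e) ≤ FKN.nrm (ea e) + 1 ∧ FKN.nrm (ea e) ≤ FKN.nrm (eb e) + 1 := by
  obtain ⟨x, y, t⟩ := e
  cases t
  · simp only [ea, eb, FKN.nrm]
    constructor
    · simp only [max_le_iff]
      simp
      constructor
      · have h1 : |x + 1| ≤ |x| + 1 := by simpa using abs_add_le x 1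
        have h2 : |x| ≤ max |x| |y| := le_max_left _ _
        linarith
      · have h2 : |y| ≤ max |x| |y| := le_max_right _ _
        linarith
    · simp only [max_le_iff]
      simp
      constructor
      · have h1 : |x| ≤ |x + 1| + 1 := by
          have := abs_add_le (x + 1) (-1)
          simpa using this
        have h2 : |x + 1| ≤ max |x + 1| |y| := le_max_left _ _
        linarith
      · have h2 : |y| ≤ max |x + 1| |y| := le_max_right _ _
        linarith
  · simp only [ea, eb, FKN.nrm]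
    constructor
    · simp only [max_le_iff]
      simp
      constructor
      · have h2 : |x| ≤ max |x| |y| := le_max_left _ _
        linarith
      · have h1 : |y + 1| ≤ |y| + 1 := by simpa using abs_add_le y 1
        have h2 : |y| ≤ max |x| |y| := le_max_right _ _
        linarith
    · simp only [max_le_iff]
      simp
      constructor
      · have h2 : |x| ≤ max |x| |y + 1| := le_max_left _ _
        linarith
      · have h1 : |y| ≤ |y + 1| + 1 := by
          have := abs_add_le (y + 1) (-1)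
          simpa using this
        have h2 : |y + 1| ≤ max |x| |y + 1| := le_max_right _ _
        linarith

theorem extract {η D : Finset Edge} {p : FKI.V} {T : ℕ} {X H : Edge → Prop} (hcov : ∀ e, e ∈ D ∨ X e ∨ H e)
    (hXH : ∀ e, X e → ¬ H e) (hX : X (edgeOf p)) (hH : H (edgeOf (FKS.orb η p T))) :
    ∃ j k : ℕ, j < k ∧ k ≤ T ∧ X (edgeOf (FKS.orb η p j)) ∧ H (edgeOf (FKS.orb η p k)) ∧
      ∀ i, j < i → i < k → edgeOf (FKS.orb η p i) ∈ D := by
  classical
  have hex : ∃ i, H (edgeOf (FKS.orb η p i)) := ⟨T, hH⟩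
  obtain ⟨k, hk, hmin, hkT⟩ : ∃ k, H (edgeOf (FKS.orb η p k)) ∧
      (∀ i < k, ¬ H (edgeOf (FKS.orb η p i))) ∧ k ≤ T :=
    ⟨Nat.find hex, Nat.find_spec hex, fun i hi => Nat.find_min hex hi, Nat.find_min' hex hH⟩
  have h0 : X (edgeOf (FKS.orb η p 0)) := hX
  have hk0 : k ≠ 0 := by
    intro h
    rw [h] at hk
    exact hXH _ h0 hk
  obtain ⟨j, hj, hjX, hjmax⟩ : ∃ j, j ≤ k - 1 ∧ X (edgeOf (FKS.orb η p j)) ∧
      ∀ i, j < i → i ≤ k - 1 → ¬ X (edgeOf (FKS.orb η p i)) := by
    refine ⟨Nat.findGreatest (fun i => X (edgeOf (FKS.orb η p i))) (k - 1),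
      Nat.findGreatest_le _, ?_, ?_⟩
    · exact Nat.findGreatest_spec (P := fun i => X (edgeOf (FKS.orb η p i))) (Nat.zero_le _) h0
    · intro i h1 h2
      exact Nat.findGreatest_is_greatest h1 h2
  refine ⟨j, k, by omega, hkT, hjX, hk, ?_⟩
  intro i h1 h2
  rcases hcov (edgeOf (FKS.orb η p i)) with h | h | h
  · exact h
  · exact absurd h (hjmax i h1 (by omega))
  · exact absurd h (hmin i h2)

theorem exit_of_run {D ω : Finset Edge} {s a : FKI.V} {T : ℕ} (h : FKS.Run D (ω ∩ D) s T) (ha : FKS.orb (ω ∩ D) s T = a)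
    (hD : edgeOf a ∉ D) : FKS.Exit D ω s a := by
  have hag : ∀ k ≤ T, FKS.orb ω s k = FKS.orb (ω ∩ D) s k := by
    refine FKS.orb_agree fun j hj => ?_
    have h1 := h j hj
    rw [Finset.mem_inter]
    exact ⟨fun h2 => ⟨h2, h1⟩, fun h2 => h2.1⟩
  refine ⟨T, ?_, ?_, hD⟩
  · intro j hj
    rw [hag j hj.le]
    exact h j hj
  · rw [hag T le_rfl]
    exact ha

/-- an exterior corner and a hole corner with the same cluster and the same dual cluster give a strand from the exterior to the hole -/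
theorem strand_in {r n : ℕ} (hn : r + 2 ≤ n) {ω : Finset Edge} {p p' : FKI.V} (hp : FKN.nrm (vtx p) = n) (hpe : edgeOf p ∉ FKN.bx n)
    (hp' : FKN.nrm (vtx p') = r + 1) (hpe' : edgeOf p' ∈ FKN.bx n ∧ edgeOf p' ∉ D0 (r + 1) n)
    (hv : Conn (D0 (r + 1) n) ω (vtx p) (vtx p'))
    (hf : (gr (FKN.dc (FKN.bx (n + 1)) (ω ∩ D0 (r + 1) n))).Reachable (FKS.fce p) (FKS.fce p')) :
    ∃ s a, s ∈ StI n ∧ a ∈ ExI (r + 1) n ∧ FKS.Exit (D0 (r + 1) n) ω s a ∧ Conn (D0 (r + 1) n) ω (vtx p) (vtx a) := by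
  have hD0 : D0 (r + 1) n ⊆ FKN.bx n := Finset.filter_subset _ _
  have hη : ω ∩ D0 (r + 1) n ⊆ FKN.bx (n + 1) := by
    intro e he
    have h1 := hD0 (Finset.mem_inter.1 he).2
    rw [CB2_mem_bx] at h1 ⊢
    push_cast
    constructor <;> linarith [h1.1, h1.2]
  obtain ⟨T, hT⟩ := loop_same hη (p := p) (p' := p') (by rw [hp]; push_cast; linarith)
    (by rw [hp']; push_cast; exact_mod_cast (by omega : r + 1 ≤ n + 1)) hv hf
  obtain ⟨j, k, hjk, hkT, hX, hH, hmid⟩ := extract (η := ω ∩ D0 (r + 1) n) (D := D0 (r + 1) n) (p := p) (T := T)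
    (X := fun e => e ∉ FKN.bx n) (H := fun e => e ∈ FKN.bx n ∧ e ∉ D0 (r + 1) n)
    (fun e => by
      by_cases h1 : e ∈ D0 (r + 1) n
      · exact Or.inl h1
      · by_cases h2 : e ∈ FKN.bx n
        · exact Or.inr (Or.inr ⟨h2, h1⟩)
        · exact Or.inr (Or.inl h2))
    (fun e h1 h2 => h1 h2.1) hpe (by rw [hT]; exact hpe')
  have hs1 : edgeIn (FKS.orb (ω ∩ D0 (r + 1) n) p (j + 1)) ∉ FKN.bx n := by
    rw [FKS.orb_succ, edgeIn_next]
    exact hX
  have hs2 : edgeOf (FKS.orb (ω ∩ D0 (r + 1) n) p (j + 1)) ∈ FKN.bx n := by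
    rcases Nat.lt_or_ge (j + 1) k with h | h
    · exact hD0 (hmid (j + 1) (by omega) h)
    · have h1 : j + 1 = k := by omega
      rw [h1]
      exact hH.1
  have hs3 : FKN.nrm (vtx (FKS.orb (ω ∩ D0 (r + 1) n) p (j + 1))) = n := by
    apply le_antisymm
    · rw [CB2_mem_bx] at hs2
      rcases FKS.vtx_mem (FKS.orb (ω ∩ D0 (r + 1) n) p (j + 1)) with h | h
      · rw [h]; exact hs2.1
      · rw [h]; exact hs2.2
    · by_contra hlt
      push Not at hlt
      apply hs1
      rw [CB2_mem_bx]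
      have h2 := CB2_nrm_step (edgeIn (FKS.orb (ω ∩ D0 (r + 1) n) p (j + 1)))
      rcases FKS.vtx_mem_in (FKS.orb (ω ∩ D0 (r + 1) n) p (j + 1)) with h | h
      · rw [h] at hlt
        exact ⟨by omega, by omega⟩
      · rw [h] at hlt
        exact ⟨by omega, by omega⟩
  refine ⟨FKS.orb (ω ∩ D0 (r + 1) n) p (j + 1), FKS.orb (ω ∩ D0 (r + 1) n) p k, ⟨hs1, hs3, hs2⟩, hH, ?_, ?_⟩
  · refine exit_of_run (T := k - (j + 1)) ?_ ?_ hH.2
    · intro i hi
      rw [← FKS.orb_add]
      exact hmid _ (by omega) (by omega)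
    · rw [← FKS.orb_add]
      congr 1
      omega
  · exact orb_vtx p k

end EV
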