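import Pool.Agent.Lib.MP_216314_pr.EV.DExit
import Pool.Agent.Lib.MP_216314_pr.N.CA

/-!
# Even arms: strand events: monotonicity, product bounds
-/

set_option autoImplicit false

noncomputable section

namespace EV

open Finset FKI FKP

theorem exitN_inn {l r r' n : ℕ} (h : r ≤ r') {ω : Finset Edge}
    (hE : FKS.ExitN (D0 r n) (ExI r n) (fun _ : Fin l => StI n) ω) : FKS.ExitN (D0 r' n) (ExI r' n) (fun _ : Fin l => StI n) ω := by
  refine D_exitN_sub ?_ ?_ hE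
  · intro e he
    rw [D_D0] at he ⊢
    have h1 : (r : ℤ) ≤ r' := by exact_mod_cast h
    exact ⟨he.1, by linarith [he.2.1], by linarith [he.2.2]⟩
  · rintro c hc (h1 | h1)
    · exact ⟨(D_D0.1 h1).1, hc⟩
    · exact ⟨h1.1, hc⟩

theorem exitN_out {l R n n' : ℕ} (h : n ≤ n') {St : Fin l → Set FKI.V} {ω : Finset Edge}
    (hE : FKS.ExitN (FKN.an R n') (ExO n') St ω) : FKS.ExitN (FKN.an R n) (ExO n) St ω := by
  have hb : FKN.bx n ⊆ FKN.bx n' := by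
    intro e he
    rw [FKN.mem_bx] at he ⊢
    have h1 : (n : ℤ) ≤ n' := by exact_mod_cast h
    exact ⟨by linarith [he.1], by linarith [he.2]⟩
  refine D_exitN_sub (Finset.sdiff_subset_sdiff hb (Finset.Subset.refl _)) ?_ hE
  rintro c hc (h1 | h1)
  · intro h2
    exact hc (Finset.mem_sdiff.2 ⟨h2, (Finset.mem_sdiff.1 h1).2⟩)
  · exact fun h2 => h1 (hb h2)

theorem an_sub {R n₁ n : ℕ} (h : n₁ ≤ n) : FKN.an R n₁ ⊆ FKN.an R n := by
  have hb : FKN.bx n₁ ⊆ FKN.bx n := by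
    intro e he
    rw [FKN.mem_bx] at he ⊢
    have h1 : (n₁ : ℤ) ≤ n := by exact_mod_cast h
    exact ⟨by linarith [he.1], by linarith [he.2]⟩
  exact Finset.sdiff_subset_sdiff hb (Finset.Subset.refl _)

theorem D0_sub {r r₁ n : ℕ} (h : r ≤ r₁) : D0 r₁ n ⊆ D0 r n := by
  intro e he
  rw [D_D0] at he ⊢
  have h1 : (r : ℤ) ≤ r₁ := by exact_mod_cast h
  exact ⟨he.1, by linarith [he.2.1], by linarith [he.2.2]⟩

theorem eE_prod {l R n₁ n : ℕ} (h : n₁ ≤ n) {E F : Finset Edge} (hE : FKN.an R n ⊆ E) (hF : F ⊆ E) (hd : Disjoint (FKN.an R n₁) F)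
    {X : Finset Edge → Prop} (hX : ∀ ω, X ω ↔ X (ω ∩ F)) :
    IPC.Pr (1 / 2) E (fun ω => FKS.ExitN (FKN.an R n) (ExO n) (fun i : Fin l => {sc l R i}) ω ∧ X ω) ≤
      eE l R n₁ * IPC.Pr (1 / 2) E X := by
  have h1 : IPC.Pr (1 / 2) E (fun ω => FKS.ExitN (FKN.an R n) (ExO n) (fun i : Fin l => {sc l R i}) ω ∧ X ω) ≤
      IPC.Pr (1 / 2) E (fun ω => FKS.ExitN (FKN.an R n₁) (ExO n₁) (fun i : Fin l => {sc l R i}) ω ∧ X ω) :=
    IPC.Pr_mono (by norm_num) (by norm_num) E fun ω _ hω => ⟨exitN_out h hω.1, hω.2⟩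
  have h2 := IPC.Pr_indep (1 / 2) ((an_sub h).trans hE) hF hd
    (FKS.ExitN (FKN.an R n₁) (ExO n₁) (fun i : Fin l => {sc l R i})) X (fun ω _ => D_exitN_inter ω) (fun ω _ => hX ω)
  have h3 : IPC.Pr (1 / 2) E (FKS.ExitN (FKN.an R n₁) (ExO n₁) (fun i : Fin l => {sc l R i})) = eE l R n₁ :=
    IPC.Pr_restrict (1 / 2) ((an_sub h).trans hE) _ fun ω _ => D_exitN_inter ω
  rw [h2, h3] at h1
  exact h1

theorem eI_prod {l r r₁ n : ℕ} (h : r ≤ r₁) {E F : Finset Edge} (hE : D0 r n ⊆ E) (hF : F ⊆ E) (hd : Disjoint (D0 r₁ n) F)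
    {X : Finset Edge → Prop} (hX : ∀ ω, X ω ↔ X (ω ∩ F)) :
    IPC.Pr (1 / 2) E (fun ω => FKS.ExitN (D0 r n) (ExI r n) (fun _ : Fin l => StI n) ω ∧ X ω) ≤
      eI l r₁ n * IPC.Pr (1 / 2) E X := by
  have h1 : IPC.Pr (1 / 2) E (fun ω => FKS.ExitN (D0 r n) (ExI r n) (fun _ : Fin l => StI n) ω ∧ X ω) ≤
      IPC.Pr (1 / 2) E (fun ω => FKS.ExitN (D0 r₁ n) (ExI r₁ n) (fun _ : Fin l => StI n) ω ∧ X ω) :=
    IPC.Pr_mono (by norm_num) (by norm_num) E fun ω _ hω => ⟨exitN_inn h hω.1, hω.2⟩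
  have h2 := IPC.Pr_indep (1 / 2) ((D0_sub h).trans hE) hF hd
    (FKS.ExitN (D0 r₁ n) (ExI r₁ n) (fun _ : Fin l => StI n)) X (fun ω _ => D_exitN_inter ω) (fun ω _ => hX ω)
  have h3 : IPC.Pr (1 / 2) E (FKS.ExitN (D0 r₁ n) (ExI r₁ n) (fun _ : Fin l => StI n)) = eI l r₁ n :=
    IPC.Pr_restrict (1 / 2) ((D0_sub h).trans hE) _ fun ω _ => D_exitN_inter ω
  rw [h2, h3] at h1
  exact h1

end EV
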