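import Pool.Agent.Lib.MP_216314_pr.EV.CB2
import Pool.Agent.Lib.MP_216314_pr.EV.CD

/-!
# Even arms: `l` crossing clusters give `l` strands from the outside to the hole

* `last_radial`: induction along the path from `w` to `u` (`Conn.symm`, `FKS.conn_rec` in SDc): for a vertex `x` of the path let `Q x` be: (`r + 1 ≤ nrm x` and `Conn (D0 (r + 1) n) ω x w`) or (the conclusion of the theorem with `u` replaced by `x`). `Q w` holds. If `Q x` and `e` is
  an open edge of `an r n` between `x` and `x'`: in the second case `Q x'` (add the edge). In the first case: if `nrm x' ≥ r + 1` then `e ∈ D0 (r + 1) n` and the first alternative holds for `x'`; if `nrm x' ≤ r`: adjacent vertices have norms differing by at most one, so `nrm x' = r`,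
  `nrm x = r + 1`, and the second alternative holds with `v := x`, `v' := x'`. At `u`: `nrm u = r`, so the second alternative holds.
* `cl_exit`: let `D = D0 (r + 1) n`, `η = ω ∩ D`. For each `i` take `w i` (`nrm = n`) and `v i`, `v' i`, `e i` from `last_radial`; the corners `p i` of `ext_corner (w i)`, `p' i` of `hole_corner`. `strand_in` needs the dual connection of `fce (p i)` and `fce (p' i)` in `dc (bx (n + 1)) η`:
  `ext_faces_ring` joins `fce (p i)` to the face `g` of the dual crossing (`lvf g = 2 n + 1`), the dual crossing `(gr (dc (an r n) ω)).Reachable f g` is in `dc (bx (n + 1)) η` (`an r n ⊆ bx (n + 1)`, `e ∉ ω → e ∉ η`; monotonicity of `gr`), and `hole_faces` joins `f` (`lvf f = 2 r + 1`) to `fce (p' i)`.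
  So there are `s i ∈ StI n`, `a i ∈ ExI (r + 1) n`, `Exit D ω (s i) (a i)`, and `vtx (a i)` is connected to `w i`, hence to `u i`, in `an r n` (`D0 (r + 1) n ⊆ an r n`). If `a i = a j` then `Conn (an r n) ω (u i) (u j)`, so `i = j`: `a` is injective.
* `pil_le_eI`: `IPC.Pr_mono` on `an r n` with `cl_exit`, then `IPC.Pr_restrict` with `D_exitN_inter` (DExit) and `D0_sub_an`.
-/

set_option autoImplicit false

noncomputable section

namespace EV

open Finset FKI FKP

theorem D0_sub_an (r n : ℕ) : D0 (r + 1) n ⊆ FKN.an r n := by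
  intro e he
  rw [D_D0] at he
  unfold FKN.an
  rw [Finset.mem_sdiff]
  refine ⟨he.1, fun h => ?_⟩
  rw [FKN.mem_bx] at h
  have h1 := he.2.1
  have h2 := h.1
  push_cast at h1
  omega

private theorem CB3_nrm_edge {e : Edge} {a b : FKI.V} (h : (ea e = a ∧ eb e = b) ∨ (ea e = b ∧ eb e = a)) :
    FKN.nrm a ≤ FKN.nrm b + 1 := by
  obtain ⟨x, y, t⟩ := e
  have h1 : FKN.nrm (ea (x, y, t)) ≤ FKN.nrm (eb (x, y, t)) + 1 ∧ FKN.nrm (eb (x, y, t)) ≤ FKN.nrm (ea (x, y, t)) + 1 := by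
    have hA : ∀ z : ℤ, |z + 1| ≤ |z| + 1 ∧ |z| ≤ |z + 1| + 1 := by
      intro z
      rcases abs_cases z with h1 | h1 <;> rcases abs_cases (z + 1) with h2 | h2 <;> constructor <;> omega
    have hx := hA x
    have hy := hA y
    unfold FKN.nrm ea eb
    cases t <;> simp only [Bool.false_eq_true, if_false, if_true] <;> constructor <;> omega
  rcases h with ⟨rfl, rfl⟩ | ⟨rfl, rfl⟩
  · exact h1.1
  · exact h1.2

theorem last_radial {r n : ℕ} (hn : r + 1 ≤ n) {ω : Finset Edge} {u w : FKI.V} (hu : FKN.nrm u = r) (hw : FKN.nrm w = n)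
    (h : Conn (FKN.an r n) ω u w) : ∃ v v' e, FKN.nrm v = r + 1 ∧ FKN.nrm v' = r ∧ ((ea e = v ∧ eb e = v') ∨ (ea e = v' ∧ eb e = v)) ∧
      Conn (D0 (r + 1) n) ω v w ∧ Conn (FKN.an r n) ω u v := by
  have edge : ∀ {F : Finset Edge} {e : Edge} {a b : FKI.V}, e ∈ F → e ∈ ω → ((ea e = a ∧ eb e = b) ∨ (ea e = b ∧ eb e = a)) →
      Conn F ω b a := by
    intro F e a b heF heω hab
    have h1 := FKS.conn_step heF heω
    rcases hab with ⟨rfl, rfl⟩ | ⟨rfl, rfl⟩
    · exact h1.symm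
    · exact h1
  have key := FKS.conn_rec (P := fun x => ((r : ℤ) + 1 ≤ FKN.nrm x ∧ Conn (D0 (r + 1) n) ω x w) ∨
    ∃ v v' e, FKN.nrm v = r + 1 ∧ FKN.nrm v' = r ∧ ((ea e = v ∧ eb e = v') ∨ (ea e = v' ∧ eb e = v)) ∧
      Conn (D0 (r + 1) n) ω v w ∧ Conn (FKN.an r n) ω x v) ?_ ?_ h.symm
  · rcases key with ⟨h1, _⟩ | h1
    · omega
    · exact h1
  · left
    refine ⟨?_, Conn.refl _ _ _⟩
    rw [hw]
    exact_mod_cast hn
  · rintro a b hab ⟨e, heF, heω, hends⟩
    rcases hab with ⟨h1, h2⟩ | ⟨v, v', e', h1, h2, h3, h4, h5⟩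
    · by_cases hb : (r : ℤ) + 1 ≤ FKN.nrm b
      · left
        refine ⟨hb, Conn.trans (edge ?_ heω hends) h2⟩
        rw [D_D0]
        refine ⟨(Finset.mem_sdiff.1 heF).1, ?_⟩
        push_cast
        rcases hends with ⟨rfl, rfl⟩ | ⟨rfl, rfl⟩
        · exact ⟨h1, hb⟩
        · exact ⟨hb, h1⟩
      · right
        have h6 := CB3_nrm_edge hends
        refine ⟨a, b, e, by omega, by omega, hends, h2, edge heF heω hends⟩
    · right
      exact ⟨v, v', e', h1, h2, h3, h4, Conn.trans (edge heF heω hends) h5⟩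

theorem cl_exit {l r n : ℕ} (hn : r + 2 ≤ n) {ω : Finset Edge} (h : Cl l r n ω) :
    FKS.ExitN (D0 (r + 1) n) (ExI (r + 1) n) (fun _ : Fin l => StI n) ω := by
  obtain ⟨⟨u, hu, hne⟩, f, g, hf, hg, hfg⟩ := h
  have hD : D0 (r + 1) n ⊆ FKN.bx n := fun e he => (D_D0.1 he).1
  have key : ∀ i, ∃ s a, s ∈ StI n ∧ a ∈ ExI (r + 1) n ∧ FKS.Exit (D0 (r + 1) n) ω s a ∧
      Conn (FKN.an r n) ω (u i) (vtx a) := by
    intro i
    obtain ⟨hui, w, hw, hc⟩ := hu i
    obtain ⟨v, v', e, hv, hv', he, hvw, huv⟩ := last_radial (by omega) hui hw hc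
    obtain ⟨p, hp1, hp2, hp3⟩ := ext_corner hw
    obtain ⟨p', hq1, hq2, hq3, hq4, hq5⟩ := hole_corner (r := r) (n := n) (by omega) hv hv' he
    have h1 : (gr (FKN.dc (FKN.bx (n + 1)) (ω ∩ D0 (r + 1) n))).Reachable (FKS.fce p) g :=
      ext_faces_ring (by omega) (Finset.inter_subset_right.trans hD) hp3 hg
    have h2 : (gr (FKN.dc (FKN.bx (n + 1)) (ω ∩ D0 (r + 1) n))).Reachable f (FKS.fce p') :=
      hole_faces (by omega) Finset.inter_subset_right hf.le hq5
    have hsub : FKN.dc (FKN.an r n) ω ⊆ FKN.dc (FKN.bx (n + 1)) (ω ∩ D0 (r + 1) n) := by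
      unfold FKN.dc
      refine Finset.map_subset_map.2 fun e he => ?_
      rw [Finset.mem_sdiff] at he ⊢
      refine ⟨?_, fun h => he.2 (Finset.mem_inter.1 h).1⟩
      have h3 := (Finset.mem_sdiff.1 he.1).1
      rw [FKN.mem_bx] at h3 ⊢
      push_cast
      exact ⟨by linarith [h3.1], by linarith [h3.2]⟩
    have h3 := SimpleGraph.Reachable.mono (gr_mono hsub) hfg
    obtain ⟨s, a, hs, ha, hx, hc2⟩ := strand_in (p := p) (p' := p') hn (by rw [hp1]; exact hw) hp2 (by rw [hq1]; exact hv)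
      (by rw [hq2]; exact ⟨hq3, hq4⟩) (by rw [hp1, hq1]; exact hvw.symm) ((h1.trans h3.symm).trans h2)
    refine ⟨s, a, hs, ha, hx, ?_⟩
    have hm : ∀ {x y : FKI.V}, Conn (D0 (r + 1) n) ω x y → Conn (FKN.an r n) ω x y := fun h =>
      Conn.mono (D0_sub_an r n) (Finset.Subset.refl _) h
    rw [hp1] at hc2
    exact (huv.trans (hm hvw)).trans (hm hc2)
  choose s a hs ha hx hc using key
  refine ⟨a, ?_, fun i => ⟨ha i, s i, hs i, hx i⟩⟩
  intro i j hij
  by_contra hne'
  refine hne i j hne' ?_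
  have h1 := hc i
  rw [hij] at h1
  exact h1.trans (hc j).symm

/-- the arm event is bounded by the strand event -/
theorem pil_le_eI {l r n : ℕ} (hn : r + 2 ≤ n) : pil l r n ≤ eI l (r + 1) n := by
  have h1 : IPC.Pr (1 / 2) (FKN.an r n) (FKS.ExitN (D0 (r + 1) n) (ExI (r + 1) n) (fun _ : Fin l => StI n)) = eI l (r + 1) n :=
    IPC.Pr_restrict (1 / 2) (D0_sub_an r n) _ fun ω _ => D_exitN_inter ω
  rw [← h1]
  exact IPC.Pr_mono (by norm_num) (by norm_num) _ fun ω _ h => cl_exit hn h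

end EV
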