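import Pool.Agent.Lib.MP_216314_pr.EV.CB2
import Pool.Agent.Lib.MP_216314_pr.EV.CD
import Pool.Agent.Lib.MP_216314_pr.N.AP3

/-!
# Even arms: arms from the seeds give strands from the seeds

Position of the seeds on the boundary of `bx R` (parametrisation `bp`, `be`, `ef` of N/BDef, `t` modulo `8 R`, counterclockwise from the south east corner): `Ti i = R - i` for `i < hr l`, `Ti i = 5 R + (i - hr l) + 1` otherwise. `l + 2 ≤ R` gives `0 < Ti i < 8 R` and that all are different.
* `seed_bp`: `bp R (Ti i) = sv l R i`, `ef R (Ti i - 1) = sf l R i` (`t % (8 R) = t` for `0 ≤ t < 8 R`; unfold `bp`, `ef`, `sv`, `sf`).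
* `seed_face`: the two faces of the edge `be R (Ti i - 1)` are `sf l R i` and a face `g` inside the box: `-R ≤ g.1 < R`, `-R ≤ g.2 < R`: right side: `be R t = (R, -i-1, true)`, faces `(R - 1, -i-1)` and `(R, -i-1)`; left side `be R t = (-R, -j-1, true)`, faces `(-R-1, -j-1)` and `(-R, -j-1)`.
* `sarm_seed`: from `SArm`: for every `i` the vertex `sv l R i` is connected in `an R n` to a vertex with `nrm = n` (the open arms start at the points `sv (σ i)`, `σ` a permutation, `nearS` with radius `0`: `nrm (s i - sv (σ i)) ≤ 0` so they are equal), and the face `sf l R i` is connected in `dc (an R n) ω` to a face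
  with `lvf = 2 n + 1` (`bdD`; `lvf f = max |2 f.1 + 1| |2 f.2 + 1|`).
* `seeds_apart`: `i ≠ j`; let `Ti i < Ti j` (otherwise exchange, the statement is symmetric). Suppose `Conn (an R n) ω (sv i) (sv j)`. `FKS.cpth` (SDc) gives a chain `c1` supported in `ω ∩ an R n` with boundary `ind (sv i) + ind (sv j)`; `arc_chain` (AP3, `n := R`, `t1 = Ti i`, `t3 = Ti j`) gives `w` supported in `bx R` on the edges `be R t`,
  `Ti i ≤ t < Ti j`, with the same boundary. `c = c1 + w` has boundary `0` (`bd_add`) and support in `bx n`: `CY.potential` (EE) with `k := n` gives `z` on the faces, `z (x, y) + z (x, y - 1) = c (x, y, false)`, `z (x, y) + z (x - 1, y) = c (x, y, true)`, `z = 0` outside of the faces of `bx n`, in particular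
  for `lvf = 2 n + 1`. (1) `z (sf i) = z (sf j) = 0`: along the dual path from `sf` in `dc (an R n) ω` every crossed edge `e` is in `an R n`, not in `ω`, so `c1 e = 0`, and not in `bx R`, so `w e = 0`: `z` does not change; at the end `z = 0`. (2) the faces `(x, y)`, `-R ≤ x, y < R`, all have the same value `z0`: the crossed edges
  `(x, y, true)`, `-R < x < R`, and `(x, y, false)`, `-R < y < R`, are in `bx R` (so `c1 e = 0`, not in `an R n`) and are not of the form `be R t` (so `w e = 0`). (3) `seed_face` for `j`: the crossed edge is `be R (Ti j - 1)`, `Ti i ≤ Ti j - 1 < Ti j`, so `w = 1`, `c1 = 0` and `z0 = 1`. For `i`: `be R (Ti i - 1)`, `w = 0`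
  (if `w ≠ 0` then `be R (Ti i - 1) = be R t` with `Ti i ≤ t < Ti j`, `be_inj`: `8 R ∣ t - (Ti i - 1)`, but `0 < t - (Ti i - 1) < 8 R`), so `z0 = 0`. Contradiction.
-/

set_option autoImplicit false

noncomputable section

namespace EV

open Finset FKI FKP

/-- position of the seed on the boundary of the hole -/
def Ti (l R : ℕ) (i : Fin l) : ℤ := if (i : ℕ) < hr l then (R : ℤ) - (i : ℕ) else 5 * (R : ℤ) + ((i : ℕ) - hr l : ℕ) + 1

theorem Ti_range {l R : ℕ} (hR : l + 2 ≤ R) (i : Fin l) : 1 < Ti l R i ∧ Ti l R i < 8 * R - 1 := by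
  have hi := i.isLt
  unfold Ti hr
  split_ifs with h
  · omega
  · omega

theorem Ti_inj {l R : ℕ} (hR : l + 2 ≤ R) {i j : Fin l} (h : Ti l R i = Ti l R j) : i = j := by
  have hi := i.isLt
  have hj := j.isLt
  apply Fin.ext
  unfold Ti hr at h
  split_ifs at h with h1 h2 h2
  · omega
  · omega
  · omega
  · omega

theorem seed_bp {l R : ℕ} (hR : l + 2 ≤ R) (i : Fin l) : FKN.bp R (Ti l R i) = sv l R i ∧ FKN.ef R (Ti l R i - 1) = sf l R i := by
  have hi := i.isLt
  have hT := Ti_range hR i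
  have e1 : Ti l R i % (8 * (R : ℤ)) = Ti l R i := Int.emod_eq_of_lt (by omega) (by omega)
  have e2 : (Ti l R i - 1) % (8 * (R : ℤ)) = Ti l R i - 1 :=
    Int.emod_eq_of_lt (by omega) (by omega)
  unfold FKN.bp FKN.ef
  rw [e1, e2]
  unfold Ti sv sf hr
  by_cases h : (i : ℕ) < (l + 1) / 2
  · rw [if_pos h, if_pos h, if_pos h, if_pos (by omega), if_pos (by omega)]
    simp only [Prod.mk.injEq, true_and]
    omega
  · rw [if_neg h, if_neg h, if_neg h, if_neg (by omega), if_neg (by omega), if_pos (by omega),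
      if_neg (by omega), if_neg (by omega), if_pos (by omega)]
    simp only [Prod.mk.injEq, true_and]
    omega

theorem seed_face {l R : ℕ} (hR : l + 2 ≤ R) (i : Fin l) : ∃ x y : ℤ, FKN.be R (Ti l R i - 1) = (x, y, true) ∧
    ((sf l R i = (x, y) ∧ (x - 1, y) ∈ (Set.Ico (-(R : ℤ)) R ×ˢ Set.Ico (-(R : ℤ)) R)) ∨
      (sf l R i = (x - 1, y) ∧ (x, y) ∈ (Set.Ico (-(R : ℤ)) R ×ˢ Set.Ico (-(R : ℤ)) R))) := by
  have hi := i.isLt
  have hT := Ti_range hR i
  have e2 : (Ti l R i - 1) % (8 * (R : ℤ)) = Ti l R i - 1 :=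
    Int.emod_eq_of_lt (by omega) (by omega)
  unfold FKN.be
  rw [e2]
  unfold Ti sf hr
  by_cases h : (i : ℕ) < (l + 1) / 2
  · rw [if_pos h, if_pos h, if_pos (by omega)]
    refine ⟨_, _, rfl, Or.inl ⟨?_, ?_⟩⟩
    · simp only [Prod.mk.injEq, true_and]
      omega
    · rw [Set.mem_prod, Set.mem_Ico, Set.mem_Ico]
      simp only
      omega
  · rw [if_neg h, if_neg h, if_neg (by omega), if_neg (by omega), if_pos (by omega)]
    refine ⟨_, _, rfl, Or.inr ⟨?_, ?_⟩⟩
    · simp only [Prod.mk.injEq, true_and]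
      omega
    · rw [Set.mem_prod, Set.mem_Ico, Set.mem_Ico]
      simp only
      omega

private theorem CC_near {a b : FKI.V} (h : FKN.nrm (a - b) ≤ 0) : a = b := by
  unfold FKN.nrm at h
  have h1 := abs_nonpos_iff.1 ((le_max_left _ _).trans h)
  have h2 := abs_nonpos_iff.1 ((le_max_right _ _).trans h)
  exact sub_eq_zero.1 (Prod.ext h1 h2)

theorem sarm_seed {l R n : ℕ} {ω : Finset Edge} (h : SArm l R n ω) (i : Fin l) :
    (∃ w, FKN.nrm w = n ∧ Conn (FKN.an R n) ω (sv l R i) w) ∧
      ∃ g, FKN.lvf g = 2 * n + 1 ∧ (gr (FKN.dc (FKN.an R n) ω)).Reachable (sf l R i) g := by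
  obtain ⟨⟨s, v, ⟨σ, hσ⟩, hv, hr1⟩, ⟨s', v', ⟨σ', hσ'⟩, hv', hr2⟩⟩ := h
  refine ⟨⟨v (σ.symm i), hv _, ?_⟩, ⟨v' (σ'.symm i), hv' _, ?_⟩⟩
  · have e := CC_near (hσ (σ.symm i))
    rw [Equiv.apply_symm_apply] at e
    have h1 := hr1 (σ.symm i)
    rw [e] at h1
    exact h1
  · have e := CC_near (hσ' (σ'.symm i))
    rw [Equiv.apply_symm_apply] at e
    have h1 := hr2 (σ'.symm i)
    rw [e] at h1
    exact h1

private theorem CC_two (a : ZMod 2) : a + a = 0 := by
  revert a
  decide

private theorem CC_eq {a b : ZMod 2} (h : a + b = 0) : a = b := by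
  have h1 := CC_two b
  linear_combination h - h1

private theorem CC_beT {n : ℕ} {t x y : ℤ} (h : FKN.be n t = (x, y, true)) :
    x = n ∨ x = -(n : ℤ) := by
  unfold FKN.be at h
  split_ifs at h
  · simp only [Prod.mk.injEq] at h
    left
    exact h.1.symm
  · simp at h
  · simp only [Prod.mk.injEq] at h
    right
    exact h.1.symm
  · simp at h

private theorem CC_beF {n : ℕ} {t x y : ℤ} (h : FKN.be n t = (x, y, false)) :
    y = n ∨ y = -(n : ℤ) := by
  unfold FKN.be at h
  split_ifs at h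
  · simp at h
  · simp only [Prod.mk.injEq] at h
    left
    exact h.2.1.symm
  · simp at h
  · simp only [Prod.mk.injEq] at h
    right
    exact h.2.1.symm

private theorem CC_reach {G : SimpleGraph FKI.V} {φ : FKI.V → ZMod 2}
    (h : ∀ u v, G.Adj u v → φ u = φ v) {u v : FKI.V} (huv : G.Reachable u v) : φ u = φ v := by
  obtain ⟨p⟩ := huv
  induction p with
  | nil => rfl
  | cons hadj _ ih => exact (h _ _ hadj).trans ih

/-- all faces of the hole have the same value -/
private theorem CC_hole {z : FKI.V → ZMod 2} {R : ℤ}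
    (hT : ∀ x y : ℤ, -R < x → x < R → -R ≤ y → y < R → z (x, y) = z (x - 1, y))
    (hF : ∀ x y : ℤ, -R ≤ x → x < R → -R < y → y < R → z (x, y) = z (x, y - 1)) :
    ∀ x y : ℤ, -R ≤ x → x < R → -R ≤ y → y < R → z (x, y) = z (-R, -R) := by
  have h1 : ∀ (k : ℕ) (y : ℤ), -R + k < R → -R ≤ y → y < R → z (-R + k, y) = z (-R, y) := by
    intro k y
    induction k with
    | zero =>
      intro _ _ _
      rw [Nat.cast_zero, add_zero]
    | succ k ih =>
      intro h2 h3 h4
      push_cast at h2 ⊢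
      rw [hT (-R + (k + 1)) y (by omega) (by omega) h3 h4]
      have e : -R + ((k : ℤ) + 1) - 1 = -R + k := by ring
      rw [e]
      exact ih (by omega) h3 h4
  have h2 : ∀ k : ℕ, -R + k < R → z (-R, -R + k) = z (-R, -R) := by
    intro k
    induction k with
    | zero =>
      intro _
      rw [Nat.cast_zero, add_zero]
    | succ k ih =>
      intro h2
      push_cast at h2 ⊢
      rw [hF (-R) (-R + (k + 1)) le_rfl (by omega) (by omega) (by omega)]
      have e : -R + ((k : ℤ) + 1) - 1 = -R + k := by ring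
      rw [e]
      exact ih (by omega)
  intro x y hx1 hx2 hy1 hy2
  obtain ⟨k, hk⟩ : ∃ k : ℕ, x = -R + k := ⟨(x + R).toNat, by omega⟩
  obtain ⟨k', hk'⟩ : ∃ k : ℕ, y = -R + k := ⟨(y + R).toNat, by omega⟩
  subst hk
  subst hk'
  rw [h1 k _ hx2 hy1 hy2, h2 k' hy2]

private theorem CC_main {l R n : ℕ} (hR : l + 2 ≤ R) (hRn : R < n) {ω : Finset Edge}
    (h : SArm l R n ω) {i j : Fin l} (hij : Ti l R i < Ti l R j) :
    ¬ Conn (FKN.an R n) ω (sv l R i) (sv l R j) := by
  intro hc0
  have hR1 : 1 ≤ R := by omega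
  have hTi := Ti_range hR i
  have hTj := Ti_range hR j
  obtain ⟨c1, hc1, hb1⟩ := FKS.cpth hc0
  obtain ⟨w, hw1, hw2, hw3, hw4⟩ := FKN.arc_chain hR1 hij.le
    (by omega : Ti l R j ≤ Ti l R i + 8 * (R : ℤ))
  have hsub : FKN.bx R ⊆ FKN.bx n := FKP.bx_mono hRn.le
  set c : Edge → ZMod 2 := c1 + w with hcdef
  have hcv : ∀ e, c e = c1 e + w e := fun e => rfl
  have hcs : ∀ e, e ∉ FKN.bx n → c e = 0 := by
    intro e he
    have g1 : c1 e = 0 := by
      by_contra hcon
      exact he (Finset.mem_sdiff.1 (hc1 e hcon).1).1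
    have g2 : w e = 0 := hw1 e fun hh => he (hsub hh)
    rw [hcv, g1, g2, add_zero]
  have hcb : ∀ v, bd c v = 0 := by
    intro v
    rw [hcdef, bd_add, hb1, hw4, (seed_bp hR i).1, (seed_bp hR j).1]
    linear_combination CC_two (ind (sv l R i) v) + CC_two (ind (sv l R j) v)
  obtain ⟨z, hz1, hz2, hz3⟩ := CY.potential hcs hcb
  -- the seeds faces have the value zero
  have hdual : ∀ k : Fin l, z (sf l R k) = 0 := by
    intro k
    obtain ⟨-, g, hg, hreach⟩ := sarm_seed h k
    have hconst : ∀ u v : FKI.V, (gr (FKN.dc (FKN.an R n) ω)).Adj u v → z u = z v := by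
      intro u v huv
      obtain ⟨e', he', hends⟩ := pexit_adj huv
      unfold FKN.dc at he'
      rw [mem_map] at he'
      obtain ⟨e, he, rfl⟩ := he'
      obtain ⟨he1, he2⟩ := mem_sdiff.1 he
      have hce : c e = 0 := by
        have g1 : c1 e = 0 := by
          by_contra hcon
          exact he2 (hc1 e hcon).2
        have g2 : w e = 0 := hw1 e fun hh => (mem_sdiff.1 he1).2 hh
        rw [hcv, g1, g2, add_zero]
      have key : z (ea (FKN.dl e)) = z (eb (FKN.dl e)) := by
        obtain ⟨x, y, b⟩ := e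
        cases b
        · have e1 : ea (FKN.dl (x, y, false)) = (x, y - 1) := by simp [FKN.dl, ea]
          have e2 : eb (FKN.dl (x, y, false)) = (x, y) := by simp [FKN.dl, eb]
          rw [e1, e2]
          have g2 := hz1 x y
          rw [hce] at g2
          exact (CC_eq g2).symm
        · have e1 : ea (FKN.dl (x, y, true)) = (x - 1, y) := by simp [FKN.dl, ea]
          have e2 : eb (FKN.dl (x, y, true)) = (x, y) := by simp [FKN.dl, eb]
          rw [e1, e2]
          have g2 := hz2 x y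
          rw [hce] at g2
          exact (CC_eq g2).symm
      rcases hends with ⟨g1, g2⟩ | ⟨g1, g2⟩
      · rw [← g1, ← g2]
        exact key
      · rw [← g1, ← g2]
        exact key.symm
    rw [CC_reach hconst hreach]
    by_contra hcon
    obtain ⟨x, y⟩ := g
    have h5 := hz3 x y hcon
    unfold FKN.lvf at hg
    simp only at hg
    have h6 : |2 * x + 1| < 2 * (n : ℤ) + 1 := by
      rw [abs_lt]
      omega
    have h7 : |2 * y + 1| < 2 * (n : ℤ) + 1 := by
      rw [abs_lt]
      omega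
    have h8 := max_lt h6 h7
    omega
  -- the faces of the hole have the same value
  have hin : ∀ e, e ∈ FKN.bx R → (∀ t, e ≠ FKN.be R t) → c e = 0 := by
    intro e he hbe
    have g1 : c1 e = 0 := by
      by_contra hcon
      exact (mem_sdiff.1 (hc1 e hcon).1).2 he
    have g2 : w e = 0 := by
      by_contra hcon
      obtain ⟨t, -, -, ht⟩ := hw2 e hcon
      exact hbe t ht
    rw [hcv, g1, g2, add_zero]
  have hhole := CC_hole (z := z) (R := (R : ℤ)) (fun x y h1 h2 h3 h4 => by
    have g := hin (x, y, true) (by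
      unfold FKN.bx
      rw [mem_box]
      right
      exact ⟨rfl, h1.le, h2.le, h3, h4⟩) (fun t ht => by
        rcases CC_beT ht.symm with g | g <;> omega)
    have g2 := hz2 x y
    rw [g] at g2
    exact CC_eq g2) (fun x y h1 h2 h3 h4 => by
    have g := hin (x, y, false) (by
      unfold FKN.bx
      rw [mem_box]
      left
      exact ⟨rfl, h1, h2, h3.le, h4.le⟩) (fun t ht => by
        rcases CC_beF ht.symm with g | g <;> omega)
    have g2 := hz1 x y
    rw [g] at g2
    exact CC_eq g2)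
  have hval : ∀ k : Fin l, z (-(R : ℤ), -(R : ℤ)) = c (FKN.be R (Ti l R k - 1)) := by
    intro k
    obtain ⟨x, y, e1, h5⟩ := seed_face hR k
    have h6 := hz2 x y
    rw [← e1] at h6
    have h7 := hdual k
    rcases h5 with ⟨e2, h8⟩ | ⟨e2, h8⟩
    · rw [e2] at h7
      rw [h7, zero_add] at h6
      rw [Set.mem_prod, Set.mem_Ico, Set.mem_Ico] at h8
      rw [← h6]
      exact (hhole _ _ h8.1.1 h8.1.2 h8.2.1 h8.2.2).symm
    · rw [e2] at h7
      rw [h7, add_zero] at h6
      rw [Set.mem_prod, Set.mem_Ico, Set.mem_Ico] at h8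
      rw [← h6]
      exact (hhole _ _ h8.1.1 h8.1.2 h8.2.1 h8.2.2).symm
  have hc1z : ∀ t, c1 (FKN.be R t) = 0 := by
    intro t
    by_contra hcon
    exact (mem_sdiff.1 (hc1 _ hcon).1).2 (FKN.be_mem hR1 t)
  have v1 : c (FKN.be R (Ti l R j - 1)) = 1 := by
    rw [hcv, hc1z, hw3 _ (by omega) (by omega), zero_add]
  have v2 : c (FKN.be R (Ti l R i - 1)) = 0 := by
    have g3 : w (FKN.be R (Ti l R i - 1)) = 0 := by
      by_contra hcon
      obtain ⟨t, ht1, ht2, ht⟩ := hw2 _ hcon
      obtain ⟨q, hq⟩ := FKN.be_inj hR1 ht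
      have hq1 : q < 0 := by
        by_contra hq2
        have : 0 ≤ 8 * (R : ℤ) * q := mul_nonneg (by omega) (not_lt.1 hq2)
        omega
      have hq2 : 8 * (R : ℤ) * q ≤ 8 * (R : ℤ) * (-1) := mul_le_mul_of_nonneg_left (by omega) (by omega)
      omega
    rw [hcv, hc1z, g3, zero_add]
  have h9 := (hval j).symm.trans (hval i)
  rw [v1, v2] at h9
  exact absurd h9 (by decide)

theorem seeds_apart {l R n : ℕ} (hR : l + 2 ≤ R) (hRn : R < n) {ω : Finset Edge} (h : SArm l R n ω) {i j : Fin l} (hij : i ≠ j) :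
    ¬ Conn (FKN.an R n) ω (sv l R i) (sv l R j) := by
  have hne : Ti l R i ≠ Ti l R j := fun e => hij (Ti_inj hR e)
  rcases lt_or_gt_of_ne hne with h1 | h1
  · exact CC_main hR hRn h h1
  · intro hc
    exact CC_main hR hRn h h1 hc.symm

end EV
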