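import Pool.Agent.Lib.MP_216314_pr.EV.CC
import Pool.Agent.Lib.MP_216314_pr.N.DBase

/-!
# Even arms: arms from the seeds give strands from the seeds (conclusion)

Let `D = an R n`, `η = ω ∩ D`, `SArm l R n ω`, `Lay l R ω`.
* `seed_corner`: `vtx (sc i) = sv i`, `fce (sc i) = sf i`, `edgeOf (sc i) = oe i` (unfold, `omega`; right side: `(2 R + 1, -2 i)` is of the type SE; left side: `(-2 R, -2 j - 1)` is of the type NW), `oe i ∈ an R (R + 1) ⊆ an R n`.
* `only_seed`: a vertex `x` with `nrm x ≤ R` connected to `sv i` in `η`: induction along the path from `sv i`: all vertices `x` of the path satisfy `nrm x > R` or `x = sv i`. A step from `y` to `x` with `nrm x ≤ R` by the edge `e ∈ η`, `e ∈ an R n`, so `e ∉ bx R`, `nrm y = R + 1`, `nrm x = R`, `e ∈ an R (R + 1)`, and by `Lay` `e = oe j` for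
  some `j`, so `x = sv j` (the end of `oe j` with `nrm = R`), and `Conn D ω (sv i) (sv j)`; by `seeds_apart` `j = i`.
* `seed_around`: the edges at `sv i` other than `oe i` are not in `η`: the ends of the seeds are not corners of the box (`l + 2 ≤ R`), so the vertex `sv i = (±R, y)`, `|y| < R`, has three other edges, which are in `bx R` (both ends of norm `≤ R`). Hence if `q` is a corner of `sv i` then `orb η q k = sc i` for some `k ≤ 3`, and the corners `orb η q k'`, `k' ≤ k`, are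
  all corners of `sv i` (four cases of `q`; `step_closed`, `cstep`; right side: `sc i` is the SE corner; NE -> NW -> SW -> SE. Left side: `sc i` is the NW corner; SW -> SE -> NE -> NW).
* `sarm_exit`: fix `i`. `sarm_seed` gives `w` (`nrm w = n`) connected to `sv i` and `g` (`lvf g = 2 n + 1`) dual connected to `sf i`. `ext_corner` gives the corner `p` at `w` with `edgeOf p ∉ bx n`, and `ext_faces_ring` joins `g` to `fce p` in `dc (bx (n + 1)) η`. `loop_same` (`B = n + 1`) gives `orb η (sc i) T = p`. Let `k` be the least index with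
  `edgeOf (orb η (sc i) k) ∉ D`. It is enough that `edgeOf (orb η (sc i) k) ∉ bx n`. Otherwise it is in `bx R`, so `q = orb η (sc i) k` is a corner of a vertex with `nrm ≤ R` which is connected to `sv i` (`orb_vtx`), so of `sv i` (`only_seed`), and `edgeOf q ∉ D`, `q ≠ sc i`. By `seed_around` the orbit of `sc i` is `sc i`, ..., `q`, ..., `sc i`, periodic, and
  consists of the corners `orb η (sc i) j` with `j < k` (their edges are in `D ⊆ bx n`) and of corners of `sv i`; `p` is none of them (`edgeOf p ∉ bx n`; `vtx p = w` has norm `n > R`). Contradiction. So `Exit D ω (sc i) (a i)` (`exit_of_run`) with `a i ∈ ExO n`, `vtx (a i)` connected to `sv i` in `η`. If `a i = a j` then `seeds_apart` gives `i = j`.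
* `sarm_le`: `IPC.Pr_mono`, `sarm_exit`.
-/

set_option autoImplicit false

noncomputable section

namespace EV

open Finset FKI FKP

theorem seed_corner {l R : ℕ} (i : Fin l) : vtx (sc l R i) = sv l R i ∧ FKS.fce (sc l R i) = sf l R i ∧ edgeOf (sc l R i) = oe l R i := by
  by_cases h : (i : ℕ) < hr l
  · have e1 : sc l R i = (2 * (R : ℤ) + 1, 2 * (-((i : ℕ) : ℤ))) := by
      unfold sc
      rw [if_pos h, Prod.mk.injEq]
      exact ⟨rfl, by ring⟩
    rw [e1, FKS.SBas_vSE, FKS.SBas_fSE, edgeOf_SE]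
    unfold sv sf oe
    rw [if_pos h, if_pos h, if_pos h]
    exact ⟨rfl, rfl, rfl⟩
  · have e1 : sc l R i = (2 * (-(R : ℤ)), 2 * (-(((i : ℕ) - hr l : ℕ) : ℤ) - 1) + 1) := by
      unfold sc
      rw [if_neg h, Prod.mk.injEq]
      exact ⟨by ring, by ring⟩
    rw [e1, FKS.SBas_vNW, FKS.SBas_fNW, edgeOf_NW]
    unfold sv sf oe
    rw [if_neg h, if_neg h, if_neg h]
    exact ⟨rfl, rfl, rfl⟩

/-- coordinates of the seeds -/
private theorem CC2_cases {l R : ℕ} (hR : l + 2 ≤ R) (i : Fin l) :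
    (∃ y : ℤ, 0 ≤ y ∧ y + 3 ≤ R ∧ (∀ Q : ℕ, sv l Q i = ((Q : ℤ), -y) ∧ sf l Q i = ((Q : ℤ), -y - 1)) ∧
      sc l R i = (2 * (R : ℤ) + 1, 2 * (-y)) ∧ oe l R i = ((R : ℤ), -y, false)) ∨
    (∃ y : ℤ, 0 ≤ y ∧ y + 3 ≤ R ∧ (∀ Q : ℕ, sv l Q i = (-(Q : ℤ), -y - 1) ∧ sf l Q i = (-(Q : ℤ) - 1, -y - 1)) ∧
      sc l R i = (2 * (-(R : ℤ)), 2 * (-y - 1) + 1) ∧ oe l R i = (-(R : ℤ) - 1, -y - 1, false)) := by
  have hi := i.2
  by_cases h : (i : ℕ) < hr l
  · left
    refine ⟨((i : ℕ) : ℤ), by omega, by omega, fun Q => ⟨?_, ?_⟩, ?_, ?_⟩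
    · unfold sv
      rw [if_pos h]
    · unfold sf
      rw [if_pos h]
    · unfold sc
      rw [if_pos h, Prod.mk.injEq]
      exact ⟨rfl, by ring⟩
    · unfold oe
      rw [if_pos h]
  · right
    refine ⟨(((i : ℕ) - hr l : ℕ) : ℤ), by omega, by omega, fun Q => ⟨?_, ?_⟩, ?_, ?_⟩
    · unfold sv
      rw [if_neg h]
    · unfold sf
      rw [if_neg h]
    · unfold sc
      rw [if_neg h, Prod.mk.injEq]
      exact ⟨by ring, by ring⟩
    · unfold oe
      rw [if_neg h]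

private theorem CC2_mem {r : ℕ} {x y : ℤ} {t : Bool} : (x, y, t) ∈ FKN.bx r ↔
    (t = false ∧ -(r : ℤ) ≤ x ∧ x < r ∧ -(r : ℤ) ≤ y ∧ y ≤ r) ∨
    (t = true ∧ -(r : ℤ) ≤ x ∧ x ≤ r ∧ -(r : ℤ) ≤ y ∧ y < r) := by
  unfold FKN.bx
  rw [mem_box]

private theorem CC2_nrm {x y : ℤ} {r : ℤ} : FKN.nrm (x, y) ≤ r ↔ -r ≤ x ∧ x ≤ r ∧ -r ≤ y ∧ y ≤ r :=
  FKN.nrmC_le

theorem seed_edge {l R : ℕ} (hR : l + 2 ≤ R) (i : Fin l) : oe l R i ∈ FKN.an R (R + 1) ∧ FKN.nrm (sv l R i) = R := by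
  unfold FKN.an
  rw [Finset.mem_sdiff]
  rcases CC2_cases hR i with ⟨y, h0, h1, h2, _, h3⟩ | ⟨y, h0, h1, h2, _, h3⟩
  · rw [h3, (h2 R).1, CC2_mem, CC2_mem]
    refine ⟨⟨Or.inl ⟨rfl, by push_cast; omega, by push_cast; omega, by push_cast; omega, by push_cast; omega⟩, ?_⟩, ?_⟩
    · rintro (h | h)
      · omega
      · exact absurd h.1 (by decide)
    · refine le_antisymm (CC2_nrm.2 ⟨by omega, by omega, by omega, by omega⟩) ?_
      exact (le_abs_self _).trans (le_max_left _ _)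
  · rw [h3, (h2 R).1, CC2_mem, CC2_mem]
    refine ⟨⟨Or.inl ⟨rfl, by push_cast; omega, by push_cast; omega, by push_cast; omega, by push_cast; omega⟩, ?_⟩, ?_⟩
    · rintro (h | h)
      · omega
      · exact absurd h.1 (by decide)
    · refine le_antisymm (CC2_nrm.2 ⟨by omega, by omega, by omega, by omega⟩) ?_
      refine le_trans ?_ (le_max_left _ _)
      show (R : ℤ) ≤ |-(R : ℤ)|
      rw [abs_neg]
      exact le_abs_self _

/-- the ends of the edge from the seed outwards -/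
private theorem CC2_ends {l R : ℕ} (hR : l + 2 ≤ R) (i : Fin l) :
    (ea (oe l R i) = sv l R i ∧ eb (oe l R i) = sv l (R + 1) i) ∨
    (ea (oe l R i) = sv l (R + 1) i ∧ eb (oe l R i) = sv l R i) := by
  rcases CC2_cases hR i with ⟨y, h0, h1, h2, _, h3⟩ | ⟨y, h0, h1, h2, _, h3⟩
  · left
    rw [h3, (h2 R).1, (h2 (R + 1)).1]
    refine ⟨rfl, ?_⟩
    show ((R : ℤ) + 1, -y) = _
    rw [Prod.mk.injEq]
    exact ⟨by push_cast; ring, rfl⟩
  · right
    rw [h3, (h2 R).1, (h2 (R + 1)).1]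
    constructor
    · show (-(R : ℤ) - 1, -y - 1) = _
      rw [Prod.mk.injEq]
      exact ⟨by push_cast; ring, rfl⟩
    · show (-(R : ℤ) - 1 + 1, -y - 1) = _
      rw [Prod.mk.injEq]
      exact ⟨by ring, rfl⟩

private theorem CC2_big {l R : ℕ} (hR : l + 2 ≤ R) (i : Fin l) : (R : ℤ) < FKN.nrm (sv l (R + 1) i) := by
  rcases CC2_cases hR i with ⟨y, h0, h1, h2, _, h3⟩ | ⟨y, h0, h1, h2, _, h3⟩
  · rw [(h2 (R + 1)).1]
    by_contra hc
    have := CC2_nrm.1 (not_lt.1 hc)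
    push_cast at this
    omega
  · rw [(h2 (R + 1)).1]
    by_contra hc
    have := CC2_nrm.1 (not_lt.1 hc)
    push_cast at this
    omega

private theorem CC2_nstep (e : Edge) : FKN.nrm (ea e) - FKN.nrm (eb e) ≤ 1 ∧ FKN.nrm (eb e) - FKN.nrm (ea e) ≤ 1 := by
  have h := FKN.nrmC_step 0 e
  rw [sub_zero, sub_zero] at h
  exact h

theorem only_seed {l R n : ℕ} (hR : l + 2 ≤ R) (hRn : R < n) {ω : Finset Edge} (h : SArm l R n ω) (hL : Lay l R ω) {i : Fin l} {x : FKI.V}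
    (hx : FKN.nrm x ≤ R) (hc : Conn (FKN.an R n) ω (sv l R i) x) : x = sv l R i := by
  have key : ((R : ℤ) < FKN.nrm x ∨ x = sv l R i) ∧ Conn (FKN.an R n) ω (sv l R i) x := by
    refine FKS.conn_rec (P := fun a => ((R : ℤ) < FKN.nrm a ∨ a = sv l R i) ∧ Conn (FKN.an R n) ω (sv l R i) a)
      ⟨Or.inr rfl, SimpleGraph.Reachable.refl _⟩ ?_ hc
    rintro a b ⟨_, hca⟩ ⟨e, heF, heω, he⟩
    have hcb : Conn (FKN.an R n) ω (sv l R i) b := SimpleGraph.Reachable.trans hca (pexit_edge heF heω he)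
    refine ⟨?_, hcb⟩
    by_cases hb : (R : ℤ) < FKN.nrm b
    · exact Or.inl hb
    right
    have hb' : FKN.nrm b ≤ R := not_lt.1 hb
    have hst := CC2_nstep e
    have hnot : e ∉ FKN.bx R := (Finset.mem_sdiff.1 heF).2
    rw [FKN.mem_bx_iff] at hnot
    have hin : e ∈ FKN.bx (R + 1) := by
      rw [FKN.mem_bx_iff]
      rcases he with ⟨e1, e2⟩ | ⟨e1, e2⟩
      · rw [e1, e2] at hst ⊢
        push_cast
        constructor <;> omega
      · rw [e1, e2] at hst ⊢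
        push_cast
        constructor <;> omega
    have hlay : e ∈ FKN.an R (R + 1) := Finset.mem_sdiff.2 ⟨hin, (Finset.mem_sdiff.1 heF).2⟩
    obtain ⟨j, rfl⟩ := (hL e hlay).1 heω
    have hbj : b = sv l R j := by
      have hbig := CC2_big hR j
      rcases CC2_ends hR j with ⟨e1, e2⟩ | ⟨e1, e2⟩
      · rcases he with ⟨e3, e4⟩ | ⟨e3, e4⟩
        · exfalso
          rw [← e2, e4] at hbig
          exact hb hbig
        · rw [← e3, e1]
      · rcases he with ⟨e3, e4⟩ | ⟨e3, e4⟩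
        · rw [← e4, e2]
        · exfalso
          rw [← e1, e3] at hbig
          exact hb hbig
    rw [hbj] at hcb ⊢
    by_contra hne
    have hij : i ≠ j := fun hh => hne (by rw [hh])
    exact seeds_apart hR hRn h hij hcb
  rcases key.1 with h1 | h1
  · exact absurd hx (not_le.2 h1)
  · exact h1

private theorem CC2_one {η : Finset Edge} {q q' t v : FKI.V} (hq : next η q = q') (hv : vtx q = v)
    (h : ∃ k : ℕ, FKS.orb η q' k = t ∧ ∀ k' ≤ k, vtx (FKS.orb η q' k') = v) :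
    ∃ k : ℕ, FKS.orb η q k = t ∧ ∀ k' ≤ k, vtx (FKS.orb η q k') = v := by
  obtain ⟨k, h1, h2⟩ := h
  have h3 : FKS.orb η q 1 = q' := hq
  refine ⟨1 + k, ?_, ?_⟩
  · rw [FKS.orb_add, h3]
    exact h1
  · intro k' hk'
    rcases Nat.eq_zero_or_pos k' with h4 | h4
    · rw [h4]
      exact hv
    · obtain ⟨m, rfl⟩ : ∃ m, k' = 1 + m := ⟨k' - 1, by omega⟩
      rw [FKS.orb_add, h3]
      exact h2 m (by omega)

private theorem CC2_zero {η : Finset Edge} {q v : FKI.V} (hv : vtx q = v) :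
    ∃ k : ℕ, FKS.orb η q k = q ∧ ∀ k' ≤ k, vtx (FKS.orb η q k') = v := by
  refine ⟨0, rfl, ?_⟩
  intro k' hk'
  rw [Nat.le_zero.1 hk']
  exact hv

private theorem CC2_closed {ω : Finset Edge} {R n : ℕ} {e : Edge} (he : e ∈ FKN.bx R) : e ∉ ω ∩ FKN.an R n := by
  intro h
  exact (Finset.mem_sdiff.1 (Finset.mem_inter.1 h).2).2 he

theorem seed_around {l R n : ℕ} (hR : l + 2 ≤ R) {ω : Finset Edge} {i : Fin l} {q : FKI.V} (hq : vtx q = sv l R i) :
    ∃ k : ℕ, FKS.orb (ω ∩ FKN.an R n) q k = sc l R i ∧ ∀ k' ≤ k, vtx (FKS.orb (ω ∩ FKN.an R n) q k') = sv l R i := by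
  rcases CC2_cases hR i with ⟨y, h0, h1, h2, hs, _⟩ | ⟨y, h0, h1, h2, hs, _⟩
  · rw [(h2 R).1] at hq ⊢
    rw [hs]
    have cNE : (((R : ℤ), -y, true) : Edge) ∉ ω ∩ FKN.an R n := CC2_closed (CC2_mem.2 (Or.inr ⟨rfl, by omega, by omega, by omega, by omega⟩))
    have cNW : (((R : ℤ) - 1, -y, false) : Edge) ∉ ω ∩ FKN.an R n := CC2_closed (CC2_mem.2 (Or.inl ⟨rfl, by omega, by omega, by omega, by omega⟩))
    have cSW : (((R : ℤ), -y - 1, true) : Edge) ∉ ω ∩ FKN.an R n := CC2_closed (CC2_mem.2 (Or.inr ⟨rfl, by omega, by omega, by omega, by omega⟩))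
    have kSE := CC2_zero (η := ω ∩ FKN.an R n) (FKS.SBas_vSE (R : ℤ) (-y))
    have kSW := CC2_one (next_SW_closed cSW) (FKS.SBas_vSW (R : ℤ) (-y)) kSE
    have kNW := CC2_one (next_NW_closed cNW) (FKS.SBas_vNW (R : ℤ) (-y)) kSW
    have kNE := CC2_one (next_NE_closed cNE) (FKS.SBas_vNE (R : ℤ) (-y)) kNW
    obtain ⟨q1, q2⟩ := q
    rw [FKS.vtx_eq] at hq
    simp only at hq
    rcases hq with ⟨ha | ha, hb | hb⟩
    · rw [ha, hb]
      exact kSW
    · rw [ha, hb]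
      exact kNW
    · rw [ha, hb]
      exact kSE
    · rw [ha, hb]
      exact kNE
  · rw [(h2 R).1] at hq ⊢
    rw [hs]
    have cSW : ((-(R : ℤ), -y - 1 - 1, true) : Edge) ∉ ω ∩ FKN.an R n := CC2_closed (CC2_mem.2 (Or.inr ⟨rfl, by omega, by omega, by omega, by omega⟩))
    have cSE : ((-(R : ℤ), -y - 1, false) : Edge) ∉ ω ∩ FKN.an R n := CC2_closed (CC2_mem.2 (Or.inl ⟨rfl, by omega, by omega, by omega, by omega⟩))
    have cNE : ((-(R : ℤ), -y - 1, true) : Edge) ∉ ω ∩ FKN.an R n := CC2_closed (CC2_mem.2 (Or.inr ⟨rfl, by omega, by omega, by omega, by omega⟩))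
    have kNW := CC2_zero (η := ω ∩ FKN.an R n) (FKS.SBas_vNW (-(R : ℤ)) (-y - 1))
    have kNE := CC2_one (next_NE_closed cNE) (FKS.SBas_vNE (-(R : ℤ)) (-y - 1)) kNW
    have kSE := CC2_one (next_SE_closed cSE) (FKS.SBas_vSE (-(R : ℤ)) (-y - 1)) kNE
    have kSW := CC2_one (next_SW_closed cSW) (FKS.SBas_vSW (-(R : ℤ)) (-y - 1)) kSE
    obtain ⟨q1, q2⟩ := q
    rw [FKS.vtx_eq] at hq
    simp only at hq
    rcases hq with ⟨ha | ha, hb | hb⟩
    · rw [ha, hb]
      exact kSW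
    · rw [ha, hb]
      exact kNW
    · rw [ha, hb]
      exact kSE
    · rw [ha, hb]
      exact kNE

private theorem CC2_period {η : Finset Edge} {s : FKI.V} {P : ℕ} (hP : 0 < P) (h : FKS.orb η s P = s) (T : ℕ) :
    ∃ T' < P, FKS.orb η s T' = FKS.orb η s T := by
  induction T with
  | zero => exact ⟨0, hP, rfl⟩
  | succ T ih =>
    obtain ⟨T', h1, h2⟩ := ih
    rcases Nat.lt_or_ge (T' + 1) P with h3 | h3
    · exact ⟨T' + 1, h3, by rw [FKS.orb_succ, FKS.orb_succ, h2]⟩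
    · refine ⟨0, hP, ?_⟩
      have h4 : T' + 1 = P := by omega
      rw [FKS.orb_succ, ← h2, ← FKS.orb_succ, h4, h]
      rfl

private theorem CC2_exit {l R n : ℕ} (hR : l + 2 ≤ R) (hRn : R < n) {ω : Finset Edge} (h : SArm l R n ω) (hL : Lay l R ω)
    (i : Fin l) : ∃ a : FKI.V, a ∈ ExO n ∧ FKS.Exit (FKN.an R n) ω (sc l R i) a ∧ Conn (FKN.an R n) ω (sv l R i) (vtx a) := by
  obtain ⟨⟨w, hw, hcw⟩, g, hg, hdg⟩ := sarm_seed h i
  obtain ⟨p, hpv, hpe, hpf⟩ := ext_corner hw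
  obtain ⟨s1, s2, s3⟩ := seed_corner (R := R) i
  obtain ⟨se1, se2⟩ := seed_edge hR i
  have hη : ω ∩ FKN.an R n ⊆ FKN.bx n := fun e he => (Finset.mem_sdiff.1 (Finset.mem_inter.1 he).2).1
  have hbx : FKN.bx n ⊆ FKN.bx (n + 1) := by
    intro e he
    rw [FKN.mem_bx_iff] at he ⊢
    push_cast
    constructor <;> omega
  have hring := ext_faces_ring (le_refl (n + 1)) hη hg hpf
  have hd1 : (gr (FKN.dc (FKN.bx (n + 1)) (ω ∩ FKN.an R n))).Reachable (sf l R i) g :=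
    hdg.mono (gr_mono (FKN.dc_mono (fun e he => hbx (Finset.mem_sdiff.1 he).1) Finset.inter_subset_left))
  have hloop := loop_same (hη.trans hbx) (p := sc l R i) (p' := p)
    (by rw [s1, se2]; push_cast; omega) (by rw [hpv, hw]; push_cast; omega)
    (by rw [s1, hpv]; exact hcw) (by rw [s2]; exact hd1.trans hring)
  obtain ⟨T, hT⟩ := hloop
  have hex : ∃ k, edgeOf (FKS.orb (ω ∩ FKN.an R n) (sc l R i) k) ∉ FKN.an R n :=
    ⟨T, by rw [hT]; exact fun hh => hpe (Finset.mem_sdiff.1 hh).1⟩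
  classical
  set k := Nat.find hex with hk
  have hk1 : edgeOf (FKS.orb (ω ∩ FKN.an R n) (sc l R i) k) ∉ FKN.an R n := Nat.find_spec hex
  have hrun : FKS.Run (FKN.an R n) (ω ∩ FKN.an R n) (sc l R i) k := by
    intro j hj
    exact not_not.1 (Nat.find_min hex hj)
  have hcon : (gr (ω ∩ FKN.an R n)).Reachable (sv l R i) (vtx (FKS.orb (ω ∩ FKN.an R n) (sc l R i) k)) := by
    have h1 := orb_vtx (η := ω ∩ FKN.an R n) (sc l R i) k
    rw [s1] at h1
    exact h1
  refine ⟨FKS.orb (ω ∩ FKN.an R n) (sc l R i) k, ?_, exit_of_run hrun rfl hk1, hcon⟩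
  intro hin
  have hinR : edgeOf (FKS.orb (ω ∩ FKN.an R n) (sc l R i) k) ∈ FKN.bx R := by
    by_contra hh
    exact hk1 (Finset.mem_sdiff.2 ⟨hin, hh⟩)
  have hnv : FKN.nrm (vtx (FKS.orb (ω ∩ FKN.an R n) (sc l R i) k)) ≤ R := by
    have h1 := FKN.mem_bx_iff.1 hinR
    rcases FKS.vtx_mem (FKS.orb (ω ∩ FKN.an R n) (sc l R i) k) with h2 | h2
    · rw [h2]
      exact h1.1
    · rw [h2]
      exact h1.2
  have hvq := only_seed hR hRn h hL hnv hcon
  obtain ⟨k1, hk2, hk3⟩ := seed_around (n := n) (ω := ω) hR hvq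
  have hk0 : 0 < k := by
    rcases Nat.eq_zero_or_pos k with h1 | h1
    · exfalso
      rw [h1] at hk1
      apply hk1
      show edgeOf (sc l R i) ∈ _
      rw [s3]
      exact an_sub (by omega) se1
    · exact h1
  have hper : FKS.orb (ω ∩ FKN.an R n) (sc l R i) (k + k1) = sc l R i := by
    rw [FKS.orb_add]
    exact hk2
  obtain ⟨T', hT1, hT2⟩ := CC2_period (P := k + k1) (by omega) hper T
  rw [hT] at hT2
  rcases Nat.lt_or_ge T' k with h1 | h1
  · have h2 := hrun T' h1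
    rw [hT2] at h2
    exact hpe (Finset.mem_sdiff.1 h2).1
  · have h2 := hk3 (T' - k) (by omega)
    rw [← FKS.orb_add, show k + (T' - k) = T' by omega, hT2, hpv] at h2
    have h3 : FKN.nrm w = R := by rw [h2]; exact se2
    rw [hw] at h3
    omega

theorem sarm_exit {l R n : ℕ} (hR : l + 2 ≤ R) (hRn : R < n) {ω : Finset Edge} (h : SArm l R n ω) (hL : Lay l R ω) :
    FKS.ExitN (FKN.an R n) (ExO n) (fun i : Fin l => {sc l R i}) ω := by
  choose a ha1 ha2 ha3 using fun i => CC2_exit hR hRn h hL i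
  refine ⟨a, ?_, fun i => ⟨ha1 i, sc l R i, rfl, ha2 i⟩⟩
  intro i j hij
  by_contra hne
  refine seeds_apart hR hRn h hne ?_
  have h1 := ha3 i
  have h2 := ha3 j
  rw [← hij] at h2
  exact SimpleGraph.Reachable.trans h1 (SimpleGraph.Reachable.symm h2)

theorem sarm_le {l R n : ℕ} (hR : l + 2 ≤ R) (hRn : R < n) :
    IPC.Pr (1 / 2) (FKN.an R n) (fun ω => SArm l R n ω ∧ Lay l R ω) ≤ eE l R n :=
  IPC.Pr_mono (by norm_num) (by norm_num) _ fun _ _ hω => sarm_exit hR hRn hω.1 hω.2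

end EV
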