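import Pool.Agent.Lib.MP_216314_pr.EV.CD
import Pool.Agent.Lib.MP_216314_pr.Sp.SCo

/-!
# Even arms: the domains of the core theorem

`ExO' n`: the corners at the boundary of `[-n,n]²` which meet an exterior edge, as `rC k a = (2 x, - 2 n)`; `ExI' r`: the corners at the boundary of the hole which meet an edge of the hole, `rC k a = (2 x, 2 r)`.
`rotC p = (1 - p.2, p.1)`. `rotV v = (-v.2, v.1)`. Types of corners (`corner_cases`): SE `(2x+1, 2y)`, NE `(2x+1, 2y+1)`, NW `(2x, 2y+1)`, SW `(2x, 2y)`; `edgeOf_SE : (x, y, false)`, `edgeOf_NE : (x, y, true)`, `edgeOf_NW : (x-1, y, false)`, `edgeOf_SW : (x, y-1, true)`.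
* `side_out`: `nrm (vtx a) ≤ n`, `edgeOf a ∉ bx n`. SW: `(x, y - 1, true) ∉ bx n`, so `y = -n`: `k = 0`. NW: `x = -n`, `rC 1 a = (1 - (2y+1), 2x) = (-2 y, -2 n)`: `k = 1`. NE: `y = n`, `rC 2 a = (-2 x, -2 n)`: `k = 2`. SE: `x = n`, `rC 3 a = (2 y, -2 n)`: `k = 3`.
* `side_in`: `r ≤ nrm (vtx a)`, `edgeOf a ∈ bx n`, `edgeOf a ∉ D0 r n`: one end of `edgeOf a` has norm `< r`, not `vtx a` (`vtx_mem`), so the other one. SW: `(x, y)`, `(x, y-1)`: `|x| < r`, `|y - 1| < r`, `r ≤ |y|`, so `y = r`: `k = 0`, `a = (2x, 2r)`. NW: `(x, y)`, `(x-1, y)`: `x = r`, `|y| < r`: `k = 1`, `rC 1 a = (-2 y, 2 r)`.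
  NE: `y = -r`, `|x| < r`: `k = 2`, `rC 2 a = (-2 x, 2 r)`. SE: `x = -r`, `|y| < r`: `k = 3`, `rC 3 a = (2 y, 2 r)`.
* `exO_side`: `a i` is the exit of the strand from `sc i` at time `k`; `edgeOf (sc l R i) = oe l R i ∈ an R n` (unfold; `l + 2 ≤ R < n`), so `k ≠ 0` and `a i = next ω q` with `edgeOf q ∈ an R n ⊆ bx n`, `edgeIn (a i) = edgeOf q` (`edgeIn_next`), `vtx (a i)` is an end of this edge (`FKS.vtx_mem_in`), so of norm `≤ n`; `side_out`.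
* `exI_side`: `s ∈ StI n`: `edgeOf s ∈ bx n` has the end `vtx s` with norm `n` (`vtx_mem`), its other end has norm `≥ n - 1 ≥ r`, so `edgeOf s ∈ D0 r n` and the exit time is `≠ 0`; `edgeIn (a i) ∈ D0 r n`, so `r ≤ nrm (vtx (a i))`; `side_in`.
* `rot_an`, `rot_D0`: `bx m = box (-m) m (-m) m` is invariant (`FKS.box_rot`), `FKS.rot_sdiff`; for `D0`: `e ∈ D0 r n` iff `e ∈ bx n` and both ends have norm `≥ r`; `nrm (rV k v) = nrm v` (induction on `k`), ends of `rE k e`: `FKS.cp_rE`.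
* `dom_out`: fields: `hy`: `n ≤ |-n|`. `side`: from `ExO'`. `lh`: `|x| ≤ n - ρ`: `Bx x (-n) ρ = box (x-ρ) (x+ρ) (-n) (-n+ρ)` is in `bx n`, and not in `bx R`: its edges have an end with ordinate `≤ -n + ρ < -R` (both ends, `mem_box`); `Out`: edges of `bx n` have `e.2.1 ≥ -n`. `far`: `rC k (sc i)`: the coordinates of `sc i` are at most `2 R + 1` in absolute value, those of `rC k (sc i)`
  at most `2 R + 2`, so `2 (-n + ρ) + 3 ≤ s.2`. `sub`: `box (x-ρ) (x+ρ) (-n-ρ) (-n+ρ) ⊆ bx (2 n)`, `rot k (bx (2 n)) = bx (2 n)`.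
-/

set_option autoImplicit false

noncomputable section

namespace EV

open Finset FKI FKP

/-- corners at the outer boundary -/
def ExO' (n : ℕ) : Set FKI.V := {a | ∃ k < 4, ∃ x : ℤ, |x| ≤ n ∧ FKS.rC k a = (2 * x, 2 * (-(n : ℤ)))}

/-- corners at the boundary of the hole -/
def ExI' (r : ℕ) : Set FKI.V := {a | ∃ k < 4, ∃ x : ℤ, |x| < r ∧ FKS.rC k a = (2 * x, 2 * (r : ℤ))}

private theorem CEa_nrm_le {x y m : ℤ} (h : FKN.nrm (x, y) ≤ m) : |x| ≤ m ∧ |y| ≤ m :=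
  max_le_iff.1 h

private theorem CEa_nrm_lt {x y m : ℤ} (h : FKN.nrm (x, y) < m) : |x| < m ∧ |y| < m :=
  max_lt_iff.1 h

private theorem CEa_mem_bx {x y : ℤ} {t : Bool} {n : ℕ} : ((x, y, t) : FKI.Edge) ∈ FKN.bx n ↔
    (t = false ∧ -(n : ℤ) ≤ x ∧ x < n ∧ -(n : ℤ) ≤ y ∧ y ≤ n) ∨
      (t = true ∧ -(n : ℤ) ≤ x ∧ x ≤ n ∧ -(n : ℤ) ≤ y ∧ y < n) := by
  unfold FKN.bx
  exact mem_box

private theorem CEa_vSE (x y : ℤ) : vtx (2 * x + 1, 2 * y) = (x, y) :=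
  Prod.ext (by show (2 * x + 1) / 2 = x; omega) (by show (2 * y) / 2 = y; omega)

private theorem CEa_vNE (x y : ℤ) : vtx (2 * x + 1, 2 * y + 1) = (x, y) :=
  Prod.ext (by show (2 * x + 1) / 2 = x; omega) (by show (2 * y + 1) / 2 = y; omega)

private theorem CEa_vNW (x y : ℤ) : vtx (2 * x, 2 * y + 1) = (x, y) :=
  Prod.ext (by show (2 * x) / 2 = x; omega) (by show (2 * y + 1) / 2 = y; omega)

private theorem CEa_vSW (x y : ℤ) : vtx (2 * x, 2 * y) = (x, y) :=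
  Prod.ext (by show (2 * x) / 2 = x; omega) (by show (2 * y) / 2 = y; omega)

private theorem CEa_c0 (x y : ℤ) : FKS.rC 0 (2 * x, 2 * y) = (2 * x, 2 * y) := rfl

private theorem CEa_c1 (x y : ℤ) : FKS.rC 1 (2 * x, 2 * y + 1) = (2 * (-y), 2 * x) :=
  Prod.ext (by show 1 - (2 * y + 1) = 2 * (-y); ring) rfl

private theorem CEa_c2 (x y : ℤ) : FKS.rC 2 (2 * x + 1, 2 * y + 1) = (2 * (-x), 2 * (-y)) :=
  Prod.ext (by show 1 - (2 * x + 1) = 2 * (-x); ring)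
    (by show 1 - (2 * y + 1) = 2 * (-y); ring)

private theorem CEa_c3 (x y : ℤ) : FKS.rC 3 (2 * x + 1, 2 * y) = (2 * y, 2 * (-x)) :=
  Prod.ext (by show 1 - (1 - 2 * y) = 2 * y; ring)
    (by show 1 - (2 * x + 1) = 2 * (-x); ring)

theorem side_out {n : ℕ} {a : FKI.V} (h1 : FKN.nrm (vtx a) ≤ n) (h2 : edgeOf a ∉ FKN.bx n) : a ∈ ExO' n := by
  rcases corner_cases a with ⟨x, y, rfl⟩ | ⟨x, y, rfl⟩ | ⟨x, y, rfl⟩ | ⟨x, y, rfl⟩
  · rw [CEa_vSE] at h1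
    rw [edgeOf_SE, CEa_mem_bx] at h2
    obtain ⟨h3, h4⟩ := CEa_nrm_le h1
    have h5 := abs_le.1 h3
    have h6 := abs_le.1 h4
    have h7 : x = n := by
      by_contra h
      exact h2 (Or.inl ⟨rfl, h5.1, by omega, h6.1, h6.2⟩)
    exact ⟨3, by norm_num, y, h4, by rw [CEa_c3, h7]⟩
  · rw [CEa_vNE] at h1
    rw [edgeOf_NE, CEa_mem_bx] at h2
    obtain ⟨h3, h4⟩ := CEa_nrm_le h1
    have h5 := abs_le.1 h3
    have h6 := abs_le.1 h4
    have h7 : y = n := by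
      by_contra h
      exact h2 (Or.inr ⟨rfl, h5.1, h5.2, h6.1, by omega⟩)
    exact ⟨2, by norm_num, -x, by rwa [abs_neg], by rw [CEa_c2, h7]⟩
  · rw [CEa_vNW] at h1
    rw [edgeOf_NW, CEa_mem_bx] at h2
    obtain ⟨h3, h4⟩ := CEa_nrm_le h1
    have h5 := abs_le.1 h3
    have h6 := abs_le.1 h4
    have h7 : x = -n := by
      by_contra h
      exact h2 (Or.inl ⟨rfl, by omega, by omega, h6.1, h6.2⟩)
    exact ⟨1, by norm_num, -y, by rwa [abs_neg], by rw [CEa_c1, h7]⟩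
  · rw [CEa_vSW] at h1
    rw [edgeOf_SW, CEa_mem_bx] at h2
    obtain ⟨h3, h4⟩ := CEa_nrm_le h1
    have h5 := abs_le.1 h3
    have h6 := abs_le.1 h4
    have h7 : y = -n := by
      by_contra h
      exact h2 (Or.inr ⟨rfl, h5.1, h5.2, by omega, by omega⟩)
    exact ⟨0, by norm_num, x, h3, by rw [CEa_c0, h7]⟩

private theorem CEa_D0 {r n : ℕ} {e : FKI.Edge} (h2 : e ∈ FKN.bx n) (h3 : e ∉ D0 r n) :
    FKN.nrm (ea e) < r ∨ FKN.nrm (eb e) < r := by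
  by_contra h
  push Not at h
  exact h3 (Finset.mem_filter.2 ⟨h2, h.1, h.2⟩)

private theorem CEa_le_nrm {x y m : ℤ} (h : m ≤ FKN.nrm (x, y)) : m ≤ |x| ∨ m ≤ |y| :=
  le_max_iff.1 h

theorem side_in {r n : ℕ} {a : FKI.V} (h1 : (r : ℤ) ≤ FKN.nrm (vtx a)) (h2 : edgeOf a ∈ FKN.bx n) (h3 : edgeOf a ∉ D0 r n) : a ∈ ExI' r := by
  have h4 := CEa_D0 h2 h3
  rcases corner_cases a with ⟨x, y, rfl⟩ | ⟨x, y, rfl⟩ | ⟨x, y, rfl⟩ | ⟨x, y, rfl⟩
  · rw [CEa_vSE] at h1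
    rw [edgeOf_SE] at h4
    have h5 : FKN.nrm (x, y) < r ∨ FKN.nrm (x + 1, y) < r := h4
    have h6 := CEa_nrm_lt (h5.resolve_left (not_lt.2 h1))
    have h7 := abs_lt.1 h6.1
    have h8 := abs_lt.1 h6.2
    have h9 : x = -r := by
      rcases CEa_le_nrm h1 with h | h
      · rcases le_abs.1 h with h | h <;> omega
      · exact absurd h6.2 (not_lt.2 h)
    exact ⟨3, by norm_num, y, h6.2, by rw [CEa_c3, h9, neg_neg]⟩
  · rw [CEa_vNE] at h1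
    rw [edgeOf_NE] at h4
    have h5 : FKN.nrm (x, y) < r ∨ FKN.nrm (x, y + 1) < r := h4
    have h6 := CEa_nrm_lt (h5.resolve_left (not_lt.2 h1))
    have h7 := abs_lt.1 h6.1
    have h8 := abs_lt.1 h6.2
    have h9 : y = -r := by
      rcases CEa_le_nrm h1 with h | h
      · exact absurd h6.1 (not_lt.2 h)
      · rcases le_abs.1 h with h | h <;> omega
    exact ⟨2, by norm_num, -x, by rw [abs_neg]; exact h6.1, by rw [CEa_c2, h9, neg_neg]⟩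
  · rw [CEa_vNW] at h1
    rw [edgeOf_NW] at h4
    have h5 : FKN.nrm (x - 1, y) < r ∨ FKN.nrm (x - 1 + 1, y) < r := h4
    rw [sub_add_cancel] at h5
    have h6 := CEa_nrm_lt (h5.resolve_right (not_lt.2 h1))
    have h7 := abs_lt.1 h6.1
    have h8 := abs_lt.1 h6.2
    have h9 : x = r := by
      rcases CEa_le_nrm h1 with h | h
      · rcases le_abs.1 h with h | h <;> omega
      · exact absurd h6.2 (not_lt.2 h)
    exact ⟨1, by norm_num, -y, by rw [abs_neg]; exact h6.2, by rw [CEa_c1, h9]⟩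
  · rw [CEa_vSW] at h1
    rw [edgeOf_SW] at h4
    have h5 : FKN.nrm (x, y - 1) < r ∨ FKN.nrm (x, y - 1 + 1) < r := h4
    rw [sub_add_cancel] at h5
    have h6 := CEa_nrm_lt (h5.resolve_right (not_lt.2 h1))
    have h7 := abs_lt.1 h6.1
    have h8 := abs_lt.1 h6.2
    have h9 : y = r := by
      rcases CEa_le_nrm h1 with h | h
      · exact absurd h6.1 (not_lt.2 h)
      · rcases le_abs.1 h with h | h <;> omega
    exact ⟨0, by norm_num, x, h6.1, by rw [CEa_c0, h9]⟩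

theorem rot_an (k R n : ℕ) : FKS.rot k (FKN.an R n) = FKN.an R n := by
  unfold FKN.an FKN.bx
  rw [FKS.rot_sdiff, FKS.box_rot, FKS.box_rot]

private theorem CEa_nrm_rV (k : ℕ) (v : FKI.V) : FKN.nrm (FKS.rV k v) = FKN.nrm v := by
  induction k with
  | zero => rfl
  | succ k ih =>
    rw [← ih]
    show max |-(FKS.rV k v).2| |(FKS.rV k v).1| = max |(FKS.rV k v).1| |(FKS.rV k v).2|
    rw [abs_neg, max_comm]

theorem rot_D0 (k r n : ℕ) : FKS.rot k (D0 r n) = D0 r n := by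
  ext e'
  obtain ⟨e, rfl⟩ := (FKS.rE k).surjective e'
  have h1 : FKS.rE k e ∈ FKS.rot k (D0 r n) ↔ e ∈ D0 r n := Finset.mem_map' (FKS.rE k).toEmbedding
  have h2 : FKS.rE k e ∈ FKS.rot k (FKN.bx n) ↔ e ∈ FKN.bx n :=
    Finset.mem_map' (FKS.rE k).toEmbedding
  have h3 : FKS.rot k (FKN.bx n) = FKN.bx n := by
    unfold FKN.bx
    exact FKS.box_rot k _
  rw [h3] at h2
  rw [h1]
  unfold D0
  rw [Finset.mem_filter, Finset.mem_filter, h2]
  rcases FKS.cp_rE k e with ⟨h4, h5⟩ | ⟨h4, h5⟩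
  · rw [h4, h5, CEa_nrm_rV, CEa_nrm_rV]
  · rw [h4, h5, CEa_nrm_rV, CEa_nrm_rV]
    tauto

end EV
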