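import Pool.Agent.Lib.MP_216314_pr.EV.CEa

/-!
# Even arms: the domains of the core theorem

`ExO' n`: the corners at the boundary of `[-n,n]²` which meet an exterior edge, as `rC k a = (2 x, - 2 n)`; `ExI' r`: the corners at the boundary of the hole which meet an edge of the hole, `rC k a = (2 x, 2 r)`.
`rotC p = (1 - p.2, p.1)`. `rotV v = (-v.2, v.1)`. Types of corners (`corner_cases`): SE `(2x+1, 2y)`, NE `(2x+1, 2y+1)`, NW `(2x, 2y+1)`, SW `(2x, 2y)`; `edgeOf_SE : (x, y, false)`, `edgeOf_NE : (x, y, true)`, `edgeOf_NW : (x-1, y, false)`, `edgeOf_SW : (x, y-1, true)`.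
* `exO_side`: `a i` is the exit of the strand from `sc i` at time `k`; `edgeOf (sc l R i) = oe l R i ∈ an R n` (unfold; `l + 2 ≤ R < n`), so `k ≠ 0` and `a i = next ω q` with `edgeOf q ∈ an R n ⊆ bx n`, `edgeIn (a i) = edgeOf q` (`edgeIn_next`), `vtx (a i)` is an end of this edge (`FKS.vtx_mem_in`), so of norm `≤ n`; `side_out`.
* `exI_side`: `s ∈ StI n`: `edgeOf s ∈ bx n` has the end `vtx s` with norm `n` (`vtx_mem`), its other end has norm `≥ n - 1 ≥ r`, so `edgeOf s ∈ D0 r n` and the exit time is `≠ 0`; `edgeIn (a i) ∈ D0 r n`, so `r ≤ nrm (vtx (a i))`; `side_in`.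
-/

set_option autoImplicit false

noncomputable section

namespace EV

open Finset FKI FKP

private theorem CEb_seed {l R n : ℕ} (hR : l + 2 ≤ R) (hn : R < n) (i : Fin l) :
    FKN.nrm (vtx (sc l R i)) ≤ n := by
  have hi := i.isLt
  unfold sc
  split_ifs with h
  · rw [show ((2 * (R : ℤ) + 1, -2 * ((i : ℕ) : ℤ)) : FKI.V) = (2 * (R : ℤ) + 1, 2 * (-((i : ℕ) : ℤ))) by
      rw [Prod.mk.injEq]; exact ⟨rfl, by ring⟩, FKS.SBas_vSE, FKN.nrmC_le]
    refine ⟨?_, ?_, ?_, ?_⟩ <;> dsimp only <;> omega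
  · rw [show ((-2 * (R : ℤ), -2 * (((i : ℕ) - hr l : ℕ) : ℤ) - 1) : FKI.V) =
      (2 * (-(R : ℤ)), 2 * (-(((i : ℕ) - hr l : ℕ) : ℤ) - 1) + 1) by
      rw [Prod.mk.injEq]; exact ⟨by ring, by ring⟩, FKS.SBas_vNW, FKN.nrmC_le]
    refine ⟨?_, ?_, ?_, ?_⟩ <;> dsimp only <;> omega

private theorem CEb_run {D ω : Finset Edge} {s a : FKI.V} {k : ℕ} (hr : FKS.Run D ω s k)
    (ho : FKS.orb ω s k = a) : a = s ∨ edgeIn a ∈ D := by
  rcases k with _ | k
  · left
    exact ho.symm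
  · right
    have h1 : FKS.orb ω s (k + 1) = next ω (FKS.orb ω s k) := by
      unfold FKS.orb
      rw [Function.iterate_succ_apply']
    rw [← ho, h1, edgeIn_next]
    exact hr k (Nat.lt_succ_self k)

theorem exO_side {l R n : ℕ} (hR : l + 2 ≤ R) (hn : R < n) {ω : Finset Edge}
    (h : FKS.ExitN (FKN.an R n) (ExO n) (fun i : Fin l => {sc l R i}) ω) :
    FKS.ExitN (FKN.an R n) (ExO' n) (fun i : Fin l => {sc l R i}) ω := by
  obtain ⟨a, ha, h⟩ := h
  refine ⟨a, ha, fun i => ?_⟩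
  obtain ⟨hEx, s, hs, k, hrun, ho, he⟩ := h i
  refine ⟨side_out ?_ hEx, s, hs, k, hrun, ho, he⟩
  rcases CEb_run hrun ho with h1 | h1
  · rw [h1, show s = sc l R i from hs]
    exact CEb_seed hR hn i
  · have h2 := (mem_sdiff.1 h1).1
    rw [FKN.mem_bx_iff] at h2
    rcases FKS.vtx_mem_in (a i) with h3 | h3
    · rw [h3]; exact h2.1
    · rw [h3]; exact h2.2

theorem exI_side {l r n : ℕ} (hn : r < n) {ω : Finset Edge} (h : FKS.ExitN (D0 r n) (ExI r n) (fun _ : Fin l => StI n) ω) :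
    FKS.ExitN (D0 r n) (ExI' r) (fun _ : Fin l => StI n) ω := by
  obtain ⟨a, ha, h⟩ := h
  refine ⟨a, ha, fun i => ?_⟩
  obtain ⟨hEx, s, hs, k, hrun, ho, he⟩ := h i
  refine ⟨side_in ?_ hEx.1 hEx.2, s, hs, k, hrun, ho, he⟩
  rcases CEb_run hrun ho with h1 | h1
  · rw [h1, hs.2.1]
    exact_mod_cast hn.le
  · have h2 := (mem_filter.1 h1).2
    rcases FKS.vtx_mem_in (a i) with h3 | h3
    · rw [h3]; exact h2.1
    · rw [h3]; exact h2.2

end EV
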