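import Pool.Agent.Lib.MP_216314_pr.EV.CEb

/-!
# Even arms: the domains of the core theorem

`ExO' n`: the corners at the boundary of `[-n,n]²` which meet an exterior edge, as `rC k a = (2 x, - 2 n)`; `ExI' r`: the corners at the boundary of the hole which meet an edge of the hole, `rC k a = (2 x, 2 r)`.
`rotC p = (1 - p.2, p.1)`. `rotV v = (-v.2, v.1)`. Types of corners (`corner_cases`): SE `(2x+1, 2y)`, NE `(2x+1, 2y+1)`, NW `(2x, 2y+1)`, SW `(2x, 2y)`; `edgeOf_SE : (x, y, false)`, `edgeOf_NE : (x, y, true)`, `edgeOf_NW : (x-1, y, false)`, `edgeOf_SW : (x, y-1, true)`.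
* `dom_out`: fields: `hy`: `n ≤ |-n|`. `side`: from `ExO'`. `lh`: `|x| ≤ n - ρ`: `Bx x (-n) ρ = box (x-ρ) (x+ρ) (-n) (-n+ρ)` is in `bx n`, and not in `bx R`: its edges have an end with ordinate `≤ -n + ρ < -R` (both ends, `mem_box`); `Out`: edges of `bx n` have `e.2.1 ≥ -n`. `far`: `rC k (sc i)`: the coordinates of `sc i` are at most `2 R + 1` in absolute value, those of `rC k (sc i)`
  at most `2 R + 2`, so `2 (-n + ρ) + 3 ≤ s.2`. `sub`: `box (x-ρ) (x+ρ) (-n-ρ) (-n+ρ) ⊆ bx (2 n)`, `rot k (bx (2 n)) = bx (2 n)`.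
-/

set_option autoImplicit false

noncomputable section

namespace EV

open Finset FKI FKP

theorem dom_out {l R n : ℕ} {ρ m : ℤ} (hR : l + 2 ≤ R) (hm : 1 ≤ m) (hρ : 100 * m ≤ ρ) (hn : R + ρ + 3 ≤ n) :
    FKS.Dom (FKN.bx (2 * n)) (FKN.an R n) (ExO' n) (fun i : Fin l => {sc l R i}) (-(n : ℤ)) n ρ m := by
  have hn' : (R : ℤ) + ρ + 3 ≤ n := hn
  have hR' : (l : ℤ) + 2 ≤ R := by exact_mod_cast hR
  have hρ0 : 0 ≤ ρ := by linarith
  refine ⟨hm, hρ, ?_, fun k => rot_an k R n, ?_, ?_, ?_, ?_⟩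
  · rw [abs_neg]
    exact le_abs_self _
  · rintro a ⟨k, hk, x, -, h⟩
    exact ⟨k, hk, x, h⟩
  · intro x hx
    have hx1 := (abs_le.1 hx).1
    have hx2 := (abs_le.1 hx).2
    refine ⟨?_, ?_⟩
    · intro e he
      unfold FKS.Bx at he
      rw [mem_box] at he
      unfold FKN.an FKN.bx
      rw [Finset.mem_sdiff, mem_box, mem_box]
      constructor
      · rcases he with ⟨h1, h2, h3, h4, h5⟩ | ⟨h1, h2, h3, h4, h5⟩
        · exact Or.inl ⟨h1, by omega, by omega, by omega, by omega⟩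
        · exact Or.inr ⟨h1, by omega, by omega, by omega, by omega⟩
      · rintro (h | h) <;> rcases he with h' | h' <;> omega
    · intro e he _ _ _
      unfold FKN.an FKN.bx at he
      rw [Finset.mem_sdiff, mem_box] at he
      rcases he.1 with h | h <;> omega
  · intro i k hk x hx s hs
    obtain ⟨p, hp, rfl⟩ := hs
    rw [Set.mem_singleton_iff] at hp
    subst hp
    right; right; left
    have h1 : -(2 * (R : ℤ)) ≤ (sc l R i).1 ∧ (sc l R i).1 ≤ 2 * R + 1 ∧
        -(2 * (R : ℤ)) - 1 ≤ (sc l R i).2 ∧ (sc l R i).2 ≤ 2 * R + 1 := by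
      have hi := i.2
      unfold sc
      split_ifs
      · refine ⟨?_, ?_, ?_, ?_⟩ <;> dsimp only <;> omega
      · refine ⟨?_, ?_, ?_, ?_⟩ <;> dsimp only <;> omega
    obtain ⟨h1, h2, h3, h4⟩ := h1
    have h0 : (FKS.rC 0 (sc l R i)).2 = (sc l R i).2 := rfl
    have h1' : (FKS.rC 1 (sc l R i)).2 = (sc l R i).1 := rfl
    have h2' : (FKS.rC 2 (sc l R i)).2 = 1 - (sc l R i).2 := rfl
    have h3' : (FKS.rC 3 (sc l R i)).2 = 1 - (sc l R i).1 := rfl
    interval_cases k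
    · rw [h0]; omega
    · rw [h1']; omega
    · rw [h2']; omega
    · rw [h3']; omega
  · intro k hk x hx
    have hx1 := (abs_le.1 hx).1
    have hx2 := (abs_le.1 hx).2
    have h1 : FKS.rot k (FKN.bx (2 * n)) = FKN.bx (2 * n) := FKS.box_rot k _
    rw [h1]
    intro e he
    rw [mem_box] at he
    unfold FKN.bx
    rw [mem_box]
    push_cast
    rcases he with ⟨h1, h2, h3, h4, h5⟩ | ⟨h1, h2, h3, h4, h5⟩
    · exact Or.inl ⟨h1, by omega, by omega, by omega, by omega⟩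
    · exact Or.inr ⟨h1, by omega, by omega, by omega, by omega⟩

end EV
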