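import Pool.Agent.Lib.MP_216314_pr.EV.CEb

/-!
# Even arms: the domains of the core theorem

`ExO' n`: the corners at the boundary of `[-n,n]²` which meet an exterior edge, as `rC k a = (2 x, - 2 n)`; `ExI' r`: the corners at the boundary of the hole which meet an edge of the hole, `rC k a = (2 x, 2 r)`.
`rotC p = (1 - p.2, p.1)`. `rotV v = (-v.2, v.1)`. Types of corners (`corner_cases`): SE `(2x+1, 2y)`, NE `(2x+1, 2y+1)`, NW `(2x, 2y+1)`, SW `(2x, 2y)`; `edgeOf_SE : (x, y, false)`, `edgeOf_NE : (x, y, true)`, `edgeOf_NW : (x-1, y, false)`, `edgeOf_SW : (x, y-1, true)`.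
* `dom_in`: `y = r`, `h = r - 1`. `lh`: `|x| ≤ r - 1 - ρ`: the edges of `box (x-ρ) (x+ρ) r (r+ρ)` have both ends with ordinate `≥ r`, and are in `bx n`; `Out`: an edge of `D0 r n` with `x - ρ ≤ e.1 ≤ x + ρ` has `|e.1| ≤ r - 1`, the end `ea e = (e.1, e.2.1)` has norm `≥ r`, so `|e.2.1| ≥ r`, and `e.2.1 ≥ r - ρ > -r`. `far`: `s ∈ StI n`, `vtx (rC k s) = rV k (vtx s)` has norm `n`:
  abscissa `n`: `s.1 ≥ 2 n ≥ 2 (x + ρ) + 3`; abscissa `-n`: `s.1 ≤ -2 n + 1`; ordinate `n`: `s.2 ≥ 2 n ≥ 2 (r + ρ) + 3`; ordinate `-n`: `s.2 ≤ -2 n + 1 ≤ 2 r - 2`. `sub`: `box (x-ρ) (x+ρ) (r-ρ) (r+ρ) ⊆ bx n`.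
-/

set_option autoImplicit false

noncomputable section

namespace EV

open Finset FKI FKP

private theorem CEd_nrm (k : ℕ) (v : FKI.V) : FKN.nrm (FKS.rV k v) = FKN.nrm v := by
  induction k with
  | zero => rfl
  | succ k ih =>
    have h1 : FKS.rV (k + 1) v = (-(FKS.rV k v).2, (FKS.rV k v).1) := rfl
    rw [h1, ← ih]
    unfold FKN.nrm
    rw [abs_neg, max_comm]

private theorem CEd_bx {n : ℕ} {x1 x2 y1 y2 : ℤ} (h1 : -(n : ℤ) ≤ x1) (h2 : x2 ≤ n)
    (h3 : -(n : ℤ) ≤ y1) (h4 : y2 ≤ n) : box x1 x2 y1 y2 ⊆ FKN.bx n :=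
  box_mono h1 h2 h3 h4

private theorem CEd_mem {r n : ℕ} {e : Edge} : e ∈ D0 r n ↔
    e ∈ FKN.bx n ∧ (r : ℤ) ≤ FKN.nrm (ea e) ∧ (r : ℤ) ≤ FKN.nrm (eb e) := by
  unfold D0
  rw [Finset.mem_filter]

theorem dom_in {l r n : ℕ} {ρ m : ℤ} (hm : 1 ≤ m) (hρ : 100 * m ≤ ρ) (h1 : ρ + 2 ≤ r) (h2 : r + ρ + 2 ≤ n) :
    FKS.Dom (FKN.bx n) (D0 r n) (ExI' r) (fun _ : Fin l => StI n) (r : ℤ) ((r : ℤ) - 1) ρ m := by
  refine ⟨hm, hρ, ?_, fun k => rot_D0 k r n, ?_, ?_, ?_, ?_⟩
  · rw [abs_of_nonneg (Int.natCast_nonneg r)]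
    omega
  · rintro a ⟨k, hk, x, -, hx⟩
    exact ⟨k, hk, x, hx⟩
  · intro x hx
    rw [abs_le] at hx
    obtain ⟨hx1, hx2⟩ := hx
    refine ⟨?_, ?_⟩
    · intro e he
      unfold FKS.Bx at he
      rw [CEd_mem]
      refine ⟨CEd_bx (by omega) (by omega) (by omega) (by omega) he, ?_, ?_⟩
      · rw [mem_box] at he
        have h3 : (r : ℤ) ≤ (ea e).2 := by
          have h4 : (ea e).2 = e.2.1 := rfl
          rw [h4]
          rcases he with h | h
          · exact h.2.2.2.1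
          · exact h.2.2.2.1
        exact h3.trans ((le_abs_self _).trans (le_max_right _ _))
      · rw [mem_box] at he
        have h3 : (r : ℤ) ≤ (eb e).2 := by
          unfold eb
          rcases he with ⟨h4, -, -, h5, -⟩ | ⟨h4, -, -, h5, -⟩
          · rw [h4]
            exact h5
          · rw [h4]
            show (r : ℤ) ≤ e.2.1 + 1
            omega
        exact h3.trans ((le_abs_self _).trans (le_max_right _ _))
    · intro e he h3 h4 h5
      rw [CEd_mem] at he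
      obtain ⟨-, h6, -⟩ := he
      have h7 : FKN.nrm (ea e) = max |e.1| |e.2.1| := rfl
      rw [h7, le_max_iff] at h6
      rcases h6 with h6 | h6
      · exfalso
        rw [le_abs] at h6
        rcases h6 with h6 | h6 <;> omega
      · rw [le_abs] at h6
        rcases h6 with h6 | h6
        · exact h6
        · exfalso
          omega
  · intro i k hk x hx
    rw [abs_le] at hx
    obtain ⟨hx1, hx2⟩ := hx
    rintro _ ⟨s, hs, rfl⟩
    have h3 : FKN.nrm (vtx (FKS.rC k s)) = n := by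
      rw [FKS.vtx_rot, CEd_nrm]
      exact hs.2.1
    obtain ⟨a, ha⟩ : ∃ a, a = FKS.rC k s := ⟨_, rfl⟩
    rw [← ha] at h3 ⊢
    have h4 : FKN.nrm (vtx a) = max |a.1 / 2| |a.2 / 2| := rfl
    rw [h4] at h3
    have h5 : |a.1 / 2| = n ∨ |a.2 / 2| = n := by
      rcases max_choice |a.1 / 2| |a.2 / 2| with h | h
      · exact Or.inl (h.symm.trans h3)
      · exact Or.inr (h.symm.trans h3)
    rcases h5 with h5 | h5
    · rcases abs_choice (a.1 / 2) with h6 | h6
      · rw [h6] at h5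
        right; left
        omega
      · rw [h6] at h5
        left
        omega
    · rcases abs_choice (a.2 / 2) with h6 | h6
      · rw [h6] at h5
        right; right; left
        omega
      · rw [h6] at h5
        right; right; right
        omega
  · intro k hk x hx
    rw [abs_le] at hx
    obtain ⟨hx1, hx2⟩ := hx
    have h3 : FKS.rot k (FKN.bx n) = FKN.bx n := FKS.box_rot k n
    rw [h3]
    exact CEd_bx (by omega) (by omega) (by omega) (by omega)

end EV
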