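import Pool.Agent.Lib.MP_216314_pr.EV.CFa
import Pool.Agent.Lib.MP_216314_pr.N.E3P
import Pool.Agent.Lib.MP_216314_pr.N.GL
import Pool.Agent.Lib.MP_216314_pr.N.DRgC

/-!
# Even arms: crossing bounds at the self-dual point, in the form `FKS.RB`

* `hq_both`: `FKN.rswIn` (N/GL, `RswIn`, N/NDef) with `ε` from `FKN.rsc_half` (N/E3P: `RS ε (1 / 2) N` for all `N`), `κ := 20`, `N := a + b`: `c ≤ hq (1/2) a b` if `a ≤ 20 b` and `hq (1/2) a b ≤ 1 - c` if `b ≤ 20 a` (`1 ≤ a`, `1 ≤ b`).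
* `rb_fks`: let `a = (x2 - x1).toNat ≥ 1`, `b = (y2 - y1).toNat ≥ 1`. `IPC.Pr E (HC ..) = IPC.Pr (box ..) (HC ..)` (`IPC.Pr_restrict`, `dep_HC`) `= hq (1/2) a b` (`FKN.pr_HC_at`), `VC`: `hq (1/2) b a` (`pr_VC_at`, check the order of the arguments). `DHC`: by `dhc_of`, `Pr E DHC ≥ Pr E (¬ VC) = 1 - Pr E VC ≥ c` (complement: `IPC.Pr_split` with `A := True` or the
  existing lemma `pq_not` / `IPC.Pr_not`), `DVC`: `≥ 1 - Pr E HC`. `c := min c0 (1 / 2)`.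
-/

set_option autoImplicit false

noncomputable section

namespace EV

open Finset FKI FKP

theorem hq_both : ∃ c : ℝ, 0 < c ∧ ∀ a b : ℕ, 1 ≤ a → 1 ≤ b → (a ≤ 20 * b → c ≤ FKN.hq (1 / 2) a b) ∧ (b ≤ 20 * a → FKN.hq (1 / 2) a b ≤ 1 - c) := by
  obtain ⟨ε, hε, hR⟩ := FKN.rsc_half
  obtain ⟨c, hc, h⟩ := FKN.rswIn ε hε 20
  refine ⟨c, hc, fun a b ha hb => ?_⟩
  obtain ⟨h1, h2⟩ := h (1 / 2) (a + b) (by norm_num) (by norm_num) (hR (a + b)) a b ha hb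
  exact ⟨fun hab => h1 hab (by omega), fun hab => h2 hab (by omega)⟩

theorem rb_fks : ∃ c : ℝ, 0 < c ∧ c ≤ 1 / 2 ∧ ∀ N : ℤ, FKS.RB c (1 / 2) N := by
  obtain ⟨c0, hc0, h⟩ := hq_both
  refine ⟨min c0 (1 / 2), lt_min hc0 (by norm_num), min_le_right _ _, ?_⟩
  intro N x1 x2 y1 y2 hx hy _ _ hxy hyx E hE
  have hcc : min c0 (1 / 2) ≤ c0 := min_le_left _ _
  generalize min c0 (1 / 2) = c at hcc
  obtain ⟨a, ha⟩ := Int.eq_ofNat_of_zero_le (show 0 ≤ x2 - x1 by omega)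
  obtain ⟨b, hb⟩ := Int.eq_ofNat_of_zero_le (show 0 ≤ y2 - y1 by omega)
  have eH : IPC.Pr (1 / 2) E (HC x1 x2 y1 y2) = FKN.hq (1 / 2) a b :=
    FKN.pq_HC (1 / 2) a b (by omega) (by omega) hE
  have eV : IPC.Pr (1 / 2) E (VC x1 x2 y1 y2) = FKN.hq (1 / 2) b a :=
    FKN.pq_VC (1 / 2) a b (by omega) (by omega) hE
  obtain ⟨g1, g2⟩ := h a b (by omega) (by omega)
  obtain ⟨g3, g4⟩ := h b a (by omega) (by omega)
  have k1 := g1 (by omega)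
  have k2 := g2 (by omega)
  have k3 := g3 (by omega)
  have k4 := g4 (by omega)
  have dH : 1 - IPC.Pr (1 / 2) E (VC x1 x2 y1 y2) ≤ IPC.Pr (1 / 2) E (FKS.DHC x1 x2 y1 y2) := by
    rw [← FKN.pq_not]
    exact FKN.pq_mono (by norm_num) (by norm_num) fun ω _ hn => dhc_of hx hy hn
  have dV : 1 - IPC.Pr (1 / 2) E (HC x1 x2 y1 y2) ≤ IPC.Pr (1 / 2) E (FKS.DVC x1 x2 y1 y2) := by
    rw [← FKN.pq_not]
    exact FKN.pq_mono (by norm_num) (by norm_num) fun ω _ hn => dvc_of hx hy hn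
  rw [eV] at dH ⊢
  rw [eH] at dV ⊢
  exact ⟨by linarith, by linarith, by linarith, by linarith, by linarith, by linarith⟩

end EV
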