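import Pool.Agent.Lib.MP_216314_pr.EV.CA
import Pool.Agent.Lib.MP_216314_pr.N.GD
import Pool.Agent.Lib.MP_216314_pr.Sp.SSym

/-!
# Even arms: no crossing, hence dual crossing, for all rectangles

`FKN.dual_or` (N/GC): for `1 ≤ b`: if there is no `HC 0 (a + 1) 0 (b - 1) (duG a b ω)` then `VC 0 a 0 b ω`, where `duG a b ω = (box 0 a 0 b \ ω).map psi`; `psi` maps an edge to the dual edge in shifted coordinates (see `psi` in P or N/GA, `duG_hor`, `duG_ver`: the vertex `(x, y)` of the dual rectangle is the face `(x - 1, y)`).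
* `dhc_zero`: the case `x1 = y1 = 0`, `x2 = a`, `y2 = b`. By contraposition of `dual_or` there is a horizontal crossing `HC 0 (a + 1) 0 (b - 1) (duG a b ω)`: `y, y' ∈ [0, b - 1]` and a path from `(0, y)` to `(a + 1, y')` in `duG a b ω`. Each edge of `duG a b ω` is `psi e` with `e ∈ box 0 a 0 b \ ω`, and joins `u`, `v` iff `dE e` joins the faces `(u.1 - 1, u.2)`,
  `(v.1 - 1, v.2)` (cases on `e`; `psi (x, y, true) = (x, y, false)`, `psi (x, y, false) = (x + 1, y - 1, true)`; `dE (x, y, true) = (x - 1, y, false)`, `dE (x, y, false) = (x, y - 1, true)`). So by induction along the path (`FKS.reach_rec` or `conn_rec`) `DConn (box 0 a 0 b) ω (-1, y) (a, y')`.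
* `dhc_of`: translation: `σ = shE (-x1) (-y1)` (P/PBase or the file where `shE`, `shV` are; `conn_map`, `cp_sh`, `FKS.cpd_sh`, `FKS.dconn_map`), `ω' = ω.map σ`, `a = (x2 - x1).toNat`, `b = (y2 - y1).toNat`: `(box x1 x2 y1 y2).map σ = box 0 a 0 b` (ext, `mem_box`). `VC 0 a 0 b ω'` implies `VC x1 x2 y1 y2 ω`, and `DHC 0 a 0 b ω'` implies `DHC x1 x2 y1 y2 ω`.
* `dvc_of`: rotation `rotE`: `(box x1 x2 y1 y2).map rotE = box (-y2) (-y1) x1 x2`; `rotV v = (-v.2, v.1)`, `rotF v = (-v.2 - 1, v.1)` (`FKS.cp_rE 1`, `cpd_rE 1`, `conn_rot 1`, `dconn_rot 1`). If `VC (-y2) (-y1) x1 x2 (rot 1 ω)` then `HC x1 x2 y1 y2 ω`. So `¬ HC` gives `DHC (-y2) (-y1) x1 x2 (rot 1 ω)` by `dhc_of`: rows `j, j' ∈ [x1, x2)`,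
  faces `(-y2 - 1, j)` and `(-y1, j')`, which are `rotF (j, y2)` and `rotF (j', y1 - 1)`: so `DConn (box x1 x2 y1 y2) ω (j, y2) (j', y1 - 1)`, that is `DVC` (after `symm`).
-/

set_option autoImplicit false

noncomputable section

namespace EV

open Finset FKI FKP

private theorem CFa_ends {x y : ℤ} {t : Bool} :
    FKS.fa (x, y, t) = ((ea (psi (x, y, t))).1 - 1, (ea (psi (x, y, t))).2) ∧
      FKS.fb (x, y, t) = ((eb (psi (x, y, t))).1 - 1, (eb (psi (x, y, t))).2) := by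
  cases t
  · refine ⟨?_, ?_⟩
    · show ((x, y - 1) : V) = (x + 1 - 1, y - 1)
      exact Prod.ext (by show x = x + 1 - 1; ring) rfl
    · show ((x, y) : V) = (x + 1 - 1, y - 1 + 1)
      exact Prod.ext (by show x = x + 1 - 1; ring) (by show y = y - 1 + 1; ring)
  · refine ⟨rfl, ?_⟩
    show ((x, y) : V) = (x + 1 - 1, y)
    exact Prod.ext (by show x = x + 1 - 1; ring) rfl

theorem dhc_zero {a b : ℕ} (hb : 1 ≤ b) {ω : Finset Edge} (h : ¬ VC 0 a 0 b ω) : FKS.DHC 0 a 0 b ω := by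
  have h0 : HC 0 (a + 1) 0 (b - 1) (FKN.duG a b ω) := by
    by_contra h2
    exact h (FKN.dual_or hb h2)
  obtain ⟨y, y', h1, h2, h3, h4, hc⟩ := h0
  refine ⟨y, y', h1, by omega, h3, by omega, ?_⟩
  have key : FKS.DConn (box 0 a 0 b) ω (0 - 1, y) (((a : ℤ) + 1, y').1 - 1, (((a : ℤ) + 1, y') : V).2) := by
    refine FKS.conn_rec (P := fun v : V => FKS.DConn (box 0 a 0 b) ω (0 - 1, y) (v.1 - 1, v.2)) ?_ ?_ hc
    · exact FKS.DConn.refl _ _ _
    · rintro p q hP ⟨e, _, he, hends⟩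
      unfold FKN.duG at he
      rw [Finset.mem_map] at he
      obtain ⟨⟨x, z, t⟩, he', hee⟩ := he
      rw [Finset.mem_sdiff] at he'
      have hst := FKS.dconn_step he'.1 he'.2
      have hps : psi (x, z, t) = e := hee
      rw [CFa_ends.1, CFa_ends.2, hps] at hst
      rcases hends with ⟨k1, k2⟩ | ⟨k1, k2⟩
      · rw [k1, k2] at hst
        exact FKS.DConn.trans hP hst
      · rw [k1, k2] at hst
        exact FKS.DConn.trans hP (FKS.DConn.symm hst)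
  have e1 : ((((a : ℤ) + 1, y').1 - 1, (((a : ℤ) + 1, y') : V).2) : V) = ((a : ℤ), y') :=
    Prod.ext (by show (a : ℤ) + 1 - 1 = a; ring) rfl
  rw [e1] at key
  exact key

theorem dhc_of {x1 x2 y1 y2 : ℤ} (hx : x1 < x2) (hy : y1 < y2) {ω : Finset Edge} (h : ¬ VC x1 x2 y1 y2 ω) : FKS.DHC x1 x2 y1 y2 ω := by
  obtain ⟨a, ha⟩ := Int.eq_ofNat_of_zero_le (show 0 ≤ x2 - x1 by omega)
  obtain ⟨b, hb⟩ := Int.eq_ofNat_of_zero_le (show 0 ≤ y2 - y1 by omega)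
  have hbox : (box x1 x2 y1 y2).map (shE (-x1) (-y1)).toEmbedding = box 0 a 0 b := by
    rw [box_sh]
    have e1 : x1 + -x1 = 0 := by ring
    have e2 : x2 + -x1 = a := by omega
    have e3 : y1 + -y1 = 0 := by ring
    have e4 : y2 + -y1 = b := by omega
    rw [e1, e2, e3, e4]
  have h0 : ¬ VC 0 a 0 b (ω.map (shE (-x1) (-y1)).toEmbedding) := by
    rintro ⟨u, u', h1, h2, h3, h4, hc⟩
    apply h
    refine ⟨u + x1, u' + x1, by omega, by omega, by omega, by omega, ?_⟩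
    rw [← conn_map (cp_sh (-x1) (-y1)), hbox]
    have e1 : shV (-x1) (-y1) (u + x1, y1) = (u, 0) :=
      Prod.ext (by show u + x1 + -x1 = u; ring) (by show y1 + -y1 = 0; ring)
    have e2 : shV (-x1) (-y1) (u' + x1, y2) = (u', (b : ℤ)) :=
      Prod.ext (by show u' + x1 + -x1 = u'; ring) (by show y2 + -y1 = b; omega)
    rw [e1, e2]
    exact hc
  obtain ⟨j, j', h1, h2, h3, h4, hc⟩ := dhc_zero (by omega) h0
  refine ⟨j + y1, j' + y1, by omega, by omega, by omega, by omega, ?_⟩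
  rw [← FKS.dconn_map (FKS.cpd_sh (-x1) (-y1)), hbox]
  have e1 : shV (-x1) (-y1) (x1 - 1, j + y1) = (0 - 1, j) :=
    Prod.ext (by show x1 - 1 + -x1 = 0 - 1; ring) (by show j + y1 + -y1 = j; ring)
  have e2 : shV (-x1) (-y1) (x2, j' + y1) = ((a : ℤ), j') :=
    Prod.ext (by show x2 + -x1 = a; omega) (by show j' + y1 + -y1 = j'; ring)
  rw [e1, e2]
  exact hc

private theorem CFa_box (x1 x2 y1 y2 : ℤ) : (box x1 x2 y1 y2).map FKS.rotE.toEmbedding = box (-y2) (-y1) x1 x2 := by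
  ext e'
  obtain ⟨e, rfl⟩ := FKS.rotE.surjective e'
  have h1 : FKS.rotE e ∈ (box x1 x2 y1 y2).map FKS.rotE.toEmbedding ↔ e ∈ box x1 x2 y1 y2 :=
    Finset.mem_map' FKS.rotE.toEmbedding
  rw [h1, mem_box, mem_box]
  obtain ⟨x, y, t⟩ := e
  cases t
  · show (false = false ∧ x1 ≤ x ∧ x < x2 ∧ y1 ≤ y ∧ y ≤ y2 ∨ false = true ∧ x1 ≤ x ∧ x ≤ x2 ∧ y1 ≤ y ∧ y < y2) ↔
      (true = false ∧ -y2 ≤ -y ∧ -y < -y1 ∧ x1 ≤ x ∧ x ≤ x2 ∨ true = true ∧ -y2 ≤ -y ∧ -y ≤ -y1 ∧ x1 ≤ x ∧ x < x2)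
    simp only [reduceCtorEq, false_and, or_false, false_or, true_and]
    omega
  · show (true = false ∧ x1 ≤ x ∧ x < x2 ∧ y1 ≤ y ∧ y ≤ y2 ∨ true = true ∧ x1 ≤ x ∧ x ≤ x2 ∧ y1 ≤ y ∧ y < y2) ↔
      (false = false ∧ -y2 ≤ -y - 1 ∧ -y - 1 < -y1 ∧ x1 ≤ x ∧ x ≤ x2 ∨ false = true ∧ -y2 ≤ -y - 1 ∧ -y - 1 ≤ -y1 ∧ x1 ≤ x ∧ x < x2)
    simp only [reduceCtorEq, false_and, or_false, false_or, true_and]
    omega

theorem dvc_of {x1 x2 y1 y2 : ℤ} (hx : x1 < x2) (hy : y1 < y2) {ω : Finset Edge} (h : ¬ HC x1 x2 y1 y2 ω) : FKS.DVC x1 x2 y1 y2 ω := by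
  have hbox : FKS.rot 1 (box x1 x2 y1 y2) = box (-y2) (-y1) x1 x2 := CFa_box x1 x2 y1 y2
  have h0 : ¬ VC (-y2) (-y1) x1 x2 (FKS.rot 1 ω) := by
    rintro ⟨u, u', h1, h2, h3, h4, hc⟩
    apply h
    refine ⟨-u, -u', by omega, by omega, by omega, by omega, ?_⟩
    rw [← FKS.conn_rot 1, hbox]
    have e1 : FKS.rV 1 (x1, -u) = (u, x1) :=
      Prod.ext (by show -(-u) = u; ring) rfl
    have e2 : FKS.rV 1 (x2, -u') = (u', x2) :=
      Prod.ext (by show -(-u') = u'; ring) rfl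
    rw [e1, e2]
    exact hc
  obtain ⟨j, j', h1, h2, h3, h4, hc⟩ := dhc_of (by omega) hx h0
  refine ⟨j', j, h3, h4, h1, h2, FKS.DConn.symm ?_⟩
  rw [← FKS.dconn_rot 1, hbox]
  have e1 : FKS.rF 1 (j, y2) = (-y2 - 1, j) := rfl
  have e2 : FKS.rF 1 (j', y1 - 1) = (-y1, j') :=
    Prod.ext (by show -(y1 - 1) - 1 = -y1; ring) rfl
  rw [e1, e2]
  exact hc

end EV
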