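import Pool.Agent.Lib.MP_216314_pr.EV.CEb

/-!
# Even arms: unclean feet are rare

`Bad y h ρ Sc ω`: for some `k < 4`, `x`, `|x| ≤ h - ρ`: `BadO x y ρ Sc (rot k ω) ∨ BadD x y ρ Sc (rot k ω)`.
* `badO_dep`, `badD_dep`: `BadO x y ρ Sc ω` depends on `ω ∩ Bx x y ρ` only: a foot is a strand which meets only edges of `Bx x y ρ` before the time `T`, so `Foot ω x y ρ p T ↔ Foot (ω ∩ Bx x y ρ) x y ρ p T` (`FKS.orb_agree`; or `FKS.foot_agree` in SFt), `XF` is the same set (contained in `Bx x y ρ`, `FKS.foot_XF`), `HA x y s ⊆ Bx x y (3 s) ⊆ Bx x y ρ` for `s ∈ Sc`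
  (`3 s ≤ ρ`), so `CleanO`, `CleanD` agree (`Conn F ω` depends on `ω ∩ F`).
* `bad_dep`: if `F` contains all `unrotated` boxes (`Bx x y ρ ⊆ rot k F`) then `rot k (ω ∩ F) ∩ Bx x y ρ = rot k ω ∩ Bx x y ρ` (`FKS.rot_inter`); use `badO_dep` twice.
-/

set_option autoImplicit false

noncomputable section

namespace EV

open Finset FKI FKP

private theorem CGa_conn {F ω ω' : Finset Edge} (h : ∀ e ∈ F, (e ∈ ω' ↔ e ∈ ω)) (u v : FKI.V) :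
    Conn F ω' u v ↔ Conn F ω u v := by
  have e : ω' ∩ F = ω ∩ F := by
    ext a
    rw [mem_inter, mem_inter]
    constructor
    · rintro ⟨h1, h2⟩
      exact ⟨(h a h2).1 h1, h2⟩
    · rintro ⟨h1, h2⟩
      exact ⟨(h a h2).2 h1, h2⟩
  unfold Conn
  rw [e]

private theorem CGa_dconn {F ω ω' : Finset Edge} (h : ∀ e ∈ F, (e ∈ ω' ↔ e ∈ ω)) (u v : FKI.V) :
    FKS.DConn F ω' u v ↔ FKS.DConn F ω u v := by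
  have e : F \ ω' = F \ ω := by
    ext a
    rw [mem_sdiff, mem_sdiff]
    constructor
    · rintro ⟨h1, h2⟩
      exact ⟨h1, fun h3 => h2 ((h a h1).2 h3)⟩
    · rintro ⟨h1, h2⟩
      exact ⟨h1, fun h3 => h2 ((h a h1).1 h3)⟩
  unfold FKS.DConn
  rw [e]

private theorem CGa_HA {x y s ρ : ℤ} (h : 3 * s ≤ ρ) : FKS.HA x y s ⊆ FKS.Bx x y ρ := by
  intro e he
  have h1 := (mem_sdiff.1 he).1
  unfold FKS.Bx at h1 ⊢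
  rw [mem_box] at h1 ⊢
  rcases h1 with ⟨a1, a2, a3, a4, a5⟩ | ⟨a1, a2, a3, a4, a5⟩
  · exact Or.inl ⟨a1, by omega, by omega, by omega, by omega⟩
  · exact Or.inr ⟨a1, by omega, by omega, by omega, by omega⟩

private theorem CGa_foot {ω ω' : Finset Edge} {x y ρ : ℤ} {p : FKI.V} {T : ℕ}
    (ha : ∀ e ∈ FKS.Bx x y ρ, (e ∈ ω' ↔ e ∈ ω)) (h : FKS.Foot ω x y ρ p T) :
    FKS.Foot ω' x y ρ p T ∧ FKS.XF ω' p T = FKS.XF ω p T := by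
  have h1 := FKS.foot_agree (ω' := ω') h (fun e he => ha e (FKS.foot_XF h he))
  exact ⟨h1.1, h1.2.2.1⟩

private theorem CGa_fe {ω ω' : Finset Edge} {x y ρ s : ℤ} {p : FKI.V} {T : ℕ} (hs : 3 * s ≤ ρ)
    (ha : ∀ e ∈ FKS.Bx x y ρ, (e ∈ ω' ↔ e ∈ ω)) (h : FKS.Foot ω x y ρ p T) :
    ∀ e ∈ FKS.XF ω p T ∪ FKS.HA x y s, (e ∈ ω' ↔ e ∈ ω) := by
  intro e he
  rcases mem_union.1 he with h1 | h1
  · exact ha e (FKS.foot_XF h h1)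
  · exact ha e (CGa_HA hs h1)

private theorem CGa_badO {ω ω' : Finset Edge} {x y ρ : ℤ} {Sc : Finset ℤ}
    (hSc : ∀ s ∈ Sc, 1 ≤ s ∧ 3 * s ≤ ρ) (ha : ∀ e ∈ FKS.Bx x y ρ, (e ∈ ω' ↔ e ∈ ω))
    (h : FKS.BadO x y ρ Sc ω) : FKS.BadO x y ρ Sc ω' := by
  obtain ⟨p, T, h1, h2⟩ := h
  obtain ⟨h3, h4⟩ := CGa_foot ha h1
  refine ⟨p, T, h3, fun s hs h5 => h2 s hs ?_⟩
  obtain ⟨w, g1, g2, g3⟩ := h5
  rw [h4] at g3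
  exact ⟨w, g1, g2, (CGa_conn (CGa_fe (hSc s hs).2 ha h1) _ _).1 g3⟩

private theorem CGa_badD {ω ω' : Finset Edge} {x y ρ : ℤ} {Sc : Finset ℤ}
    (hSc : ∀ s ∈ Sc, 1 ≤ s ∧ 3 * s ≤ ρ) (ha : ∀ e ∈ FKS.Bx x y ρ, (e ∈ ω' ↔ e ∈ ω))
    (h : FKS.BadD x y ρ Sc ω) : FKS.BadD x y ρ Sc ω' := by
  obtain ⟨p, T, h1, h2⟩ := h
  obtain ⟨h3, h4⟩ := CGa_foot ha h1
  refine ⟨p, T, h3, fun s hs h5 => h2 s hs ?_⟩
  obtain ⟨w, g1, g2, g3⟩ := h5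
  rw [h4] at g3
  exact ⟨w, g1, g2, (CGa_dconn (CGa_fe (hSc s hs).2 ha h1) _ _).1 g3⟩

private theorem CGa_in {ω F : Finset Edge} {x y ρ : ℤ} (hF : FKS.Bx x y ρ ⊆ F) :
    ∀ e ∈ FKS.Bx x y ρ, (e ∈ ω ∩ F ↔ e ∈ ω) := by
  intro e he
  rw [mem_inter]
  exact ⟨fun h => h.1, fun h => ⟨h, hF he⟩⟩

theorem badO_dep {x y ρ : ℤ} {Sc : Finset ℤ} (hSc : ∀ s ∈ Sc, 1 ≤ s ∧ 3 * s ≤ ρ) (ω : Finset Edge) :
    FKS.BadO x y ρ Sc ω ↔ FKS.BadO x y ρ Sc (ω ∩ FKS.Bx x y ρ) := by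
  have h := CGa_in (ω := ω) (x := x) (y := y) (ρ := ρ) (Subset.refl _)
  exact ⟨CGa_badO hSc h, CGa_badO hSc fun e he => (h e he).symm⟩

theorem badD_dep {x y ρ : ℤ} {Sc : Finset ℤ} (hSc : ∀ s ∈ Sc, 1 ≤ s ∧ 3 * s ≤ ρ) (ω : Finset Edge) :
    FKS.BadD x y ρ Sc ω ↔ FKS.BadD x y ρ Sc (ω ∩ FKS.Bx x y ρ) := by
  have h := CGa_in (ω := ω) (x := x) (y := y) (ρ := ρ) (Subset.refl _)
  exact ⟨CGa_badD hSc h, CGa_badD hSc fun e he => (h e he).symm⟩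

theorem bad_dep {y h ρ : ℤ} {Sc : Finset ℤ} (hSc : ∀ s ∈ Sc, 1 ≤ s ∧ 3 * s ≤ ρ) {F : Finset Edge}
    (hF : ∀ k < 4, ∀ x : ℤ, |x| ≤ h - ρ → FKS.Bx x y ρ ⊆ FKS.rot k F) (ω : Finset Edge) :
    FKS.Bad y h ρ Sc ω ↔ FKS.Bad y h ρ Sc (ω ∩ F) := by
  have key : ∀ k < 4, ∀ x : ℤ, |x| ≤ h - ρ → ∀ e ∈ FKS.Bx x y ρ,
      (e ∈ FKS.rot k (ω ∩ F) ↔ e ∈ FKS.rot k ω) := by
    intro k hk x hx
    rw [FKS.rot_inter]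
    exact CGa_in (hF k hk x hx)
  constructor
  · rintro ⟨k, hk, x, hx, h1 | h1⟩
    · exact ⟨k, hk, x, hx, Or.inl (CGa_badO hSc (key k hk x hx) h1)⟩
    · exact ⟨k, hk, x, hx, Or.inr (CGa_badD hSc (key k hk x hx) h1)⟩
  · rintro ⟨k, hk, x, hx, h1 | h1⟩
    · exact ⟨k, hk, x, hx, Or.inl (CGa_badO hSc (fun e he => (key k hk x hx e he).symm) h1)⟩
    · exact ⟨k, hk, x, hx, Or.inr (CGa_badD hSc (fun e he => (key k hk x hx e he).symm) h1)⟩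

end EV
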