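import Pool.Agent.Lib.MP_216314_pr.EV.CEb
import Pool.Agent.Lib.MP_216314_pr.Sp.SBp
import Pool.Agent.Lib.MP_216314_pr.Sp.SBpd
import Pool.Agent.Lib.MP_216314_pr.Sp.SWe

/-!
# Even arms: unclean feet are rare

`Bad y h ρ Sc ω`: for some `k < 4`, `x`, `|x| ≤ h - ρ`: `BadO x y ρ Sc (rot k ω) ∨ BadD x y ρ Sc (rot k ω)`.
-/

set_option autoImplicit false

noncomputable section

namespace EV

open Finset FKI FKP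

private theorem CGb_foot {c : ℝ} (hc : 0 < c) (hRB : ∀ N : ℤ, FKS.RB c (1 / 2) N) {x y ρ : ℤ} (hρ : 3 ≤ ρ) {E : Finset Edge}
    (hE : FKS.Bx x y ρ ⊆ E) : IPC.Pr (1 / 2) E (FKS.FootE x y ρ) ≤ 3 / (c ^ 6 * ρ) := by
  have hs1 : 1 ≤ ρ / 3 := by omega
  have hs2 : 3 * (ρ / 3) ≤ ρ := by omega
  have h1 := FKS.foot_we (c := c) (q := 1 / 2) (by norm_num) (by norm_num) hc.le (hRB (6 * (ρ / 3))) (x := x) (y := y)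
    (R := ρ) (s := ρ / 3) hs1 hs2 le_rfl hE
  have h2 := FKS.we_prob (q := 1 / 2) (by norm_num) (by norm_num) (x := x) (y := y) (R := ρ) (s := ρ / 3) hs1 (by omega) hE
  have hρ0 : (0 : ℝ) < (ρ : ℝ) := by exact_mod_cast (by omega : 0 < ρ)
  have h3 : (ρ : ℝ) / 3 ≤ ((ρ / 3 : ℤ) : ℝ) + 1 := by
    have h4 : ρ ≤ 3 * (ρ / 3) + 3 := by omega
    have h5 : (ρ : ℝ) ≤ 3 * ((ρ / 3 : ℤ) : ℝ) + 3 := by exact_mod_cast h4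
    linarith
  have hW : 0 ≤ IPC.Pr (1 / 2) E (FKS.WE x y ρ (ρ / 3)) := IPC.Pr_nonneg (by norm_num) (by norm_num) _ _
  have hc6 : 0 < c ^ 6 := by positivity
  rw [le_div_iff₀ (by positivity)]
  have h6 : (ρ : ℝ) / 3 * (c ^ 6 * IPC.Pr (1 / 2) E (FKS.FootE x y ρ)) ≤ 1 := by
    calc (ρ : ℝ) / 3 * (c ^ 6 * IPC.Pr (1 / 2) E (FKS.FootE x y ρ))
        ≤ (ρ : ℝ) / 3 * IPC.Pr (1 / 2) E (FKS.WE x y ρ (ρ / 3)) := mul_le_mul_of_nonneg_left h1 (by positivity)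
      _ ≤ (((ρ / 3 : ℤ) : ℝ) + 1) * IPC.Pr (1 / 2) E (FKS.WE x y ρ (ρ / 3)) := mul_le_mul_of_nonneg_right h3 hW
      _ ≤ 1 := h2
  nlinarith

private theorem CGb_one {c : ℝ} (hc : 0 < c) (hc1 : c ≤ 1) (hRB : ∀ N : ℤ, FKS.RB c (1 / 2) N) {x y ρ : ℤ} (hρ : 3 ≤ ρ)
    {Sc : Finset ℤ} (h1 : ∀ s ∈ Sc, 1 ≤ s ∧ 3 * s ≤ ρ) (h2 : ∀ s ∈ Sc, ∀ s' ∈ Sc, s < s' → 3 * s ≤ s') {E : Finset Edge}
    {k : ℕ} (hE : FKS.Bx x y ρ ⊆ FKS.rot k E) :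
    IPC.Pr (1 / 2) E (fun ω => FKS.BadO x y ρ Sc (FKS.rot k ω) ∨ FKS.BadD x y ρ Sc (FKS.rot k ω)) ≤
      2 * ((1 - c ^ 3) ^ Sc.card * (3 / (c ^ 6 * ρ))) := by
  have hc3 : (0 : ℝ) ≤ 1 - c ^ 3 := by
    have : c ^ 3 ≤ 1 := pow_le_one₀ hc.le hc1
    linarith
  have hf := CGb_foot hc hRB hρ hE
  have hO := FKS.badO_prob (c := c) (q := 1 / 2) (N := 6 * ρ) (by norm_num) (by norm_num) hc.le (hRB _) (x := x) (y := y)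
    (R := ρ) (by omega) hE Sc (fun s hs => ⟨(h1 s hs).1, (h1 s hs).2, by have := h1 s hs; omega⟩) h2
  have hD := FKS.badD_prob (c := c) (q := 1 / 2) (N := 6 * ρ) (by norm_num) (by norm_num) hc.le (hRB _) (x := x) (y := y)
    (R := ρ) (by omega) hE Sc (fun s hs => ⟨(h1 s hs).1, (h1 s hs).2, by have := h1 s hs; omega⟩) h2
  have hp : (0 : ℝ) ≤ (1 - c ^ 3) ^ Sc.card := pow_nonneg hc3 _
  have hm := mul_le_mul_of_nonneg_left hf hp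
  refine (IPC.Pr_or_le (by norm_num) (by norm_num) E _ _).trans ?_
  rw [← FKS.pr_rot, ← FKS.pr_rot]
  linarith

theorem bad_pr {c : ℝ} (hc : 0 < c) (hc1 : c ≤ 1) (hRB : ∀ N : ℤ, FKS.RB c (1 / 2) N) {y h ρ : ℤ} (hh : 0 ≤ h) (hρ : 3 ≤ ρ)
    {Sc : Finset ℤ} (h1 : ∀ s ∈ Sc, 1 ≤ s ∧ 3 * s ≤ ρ) (h2 : ∀ s ∈ Sc, ∀ s' ∈ Sc, s < s' → 3 * s ≤ s') {E : Finset Edge}
    (hE : ∀ k < 4, ∀ x : ℤ, |x| ≤ h - ρ → FKS.Bx x y ρ ⊆ FKS.rot k E) :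
    IPC.Pr (1 / 2) E (FKS.Bad y h ρ Sc) ≤ 8 * (2 * (h : ℝ) + 1) * ((1 - c ^ 3) ^ Sc.card * (3 / (c ^ 6 * ρ))) := by
  have hc3 : (0 : ℝ) ≤ 1 - c ^ 3 := by
    have : c ^ 3 ≤ 1 := pow_le_one₀ hc.le hc1
    linarith
  have hρ0 : (0 : ℝ) < (ρ : ℝ) := by exact_mod_cast (by omega : 0 < ρ)
  have hB : (0 : ℝ) ≤ (1 - c ^ 3) ^ Sc.card * (3 / (c ^ 6 * ρ)) := by positivity
  have h3 : IPC.Pr (1 / 2) E (FKS.Bad y h ρ Sc) ≤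
      IPC.Pr (1 / 2) E (fun ω => ∃ q ∈ (Finset.range 4) ×ˢ (Finset.Icc (-(h - ρ)) (h - ρ)),
        FKS.BadO q.2 y ρ Sc (FKS.rot q.1 ω) ∨ FKS.BadD q.2 y ρ Sc (FKS.rot q.1 ω)) := by
    refine IPC.Pr_mono (by norm_num) (by norm_num) E ?_
    rintro ω _ ⟨k, hk, x, hx, hb⟩
    refine ⟨(k, x), ?_, hb⟩
    rw [Finset.mem_product, Finset.mem_range, Finset.mem_Icc]
    rw [abs_le] at hx
    exact ⟨hk, hx⟩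
  refine h3.trans ((IPC.Pr_exists_le (by norm_num) (by norm_num) E _ _).trans ?_)
  have h4 : ∀ q ∈ (Finset.range 4) ×ˢ (Finset.Icc (-(h - ρ)) (h - ρ)),
      IPC.Pr (1 / 2) E (fun ω => FKS.BadO q.2 y ρ Sc (FKS.rot q.1 ω) ∨ FKS.BadD q.2 y ρ Sc (FKS.rot q.1 ω)) ≤
        2 * ((1 - c ^ 3) ^ Sc.card * (3 / (c ^ 6 * ρ))) := by
    intro q hq
    rw [Finset.mem_product, Finset.mem_range, Finset.mem_Icc] at hq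
    exact CGb_one hc hc1 hRB hρ h1 h2 (hE q.1 hq.1 q.2 (abs_le.2 hq.2))
  refine (Finset.sum_le_card_nsmul _ _ _ h4).trans ?_
  rw [nsmul_eq_mul, Finset.card_product, Finset.card_range, Int.card_Icc]
  have h5 : (((h - ρ + 1 - -(h - ρ)).toNat : ℕ) : ℝ) ≤ 2 * (h : ℝ) + 1 := by
    have h6 : (((h - ρ + 1 - -(h - ρ)).toNat : ℕ) : ℤ) ≤ 2 * h + 1 := by
      rw [Int.toNat_eq_max]
      omega
    exact_mod_cast h6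
  rw [Nat.cast_mul]
  have h7 : ((4 : ℕ) : ℝ) * (((h - ρ + 1 - -(h - ρ)).toNat : ℕ) : ℝ) ≤ 4 * (2 * (h : ℝ) + 1) := by
    push_cast
    linarith
  calc ((4 : ℕ) : ℝ) * (((h - ρ + 1 - -(h - ρ)).toNat : ℕ) : ℝ) * (2 * ((1 - c ^ 3) ^ Sc.card * (3 / (c ^ 6 * ρ))))
      ≤ 4 * (2 * (h : ℝ) + 1) * (2 * ((1 - c ^ 3) ^ Sc.card * (3 / (c ^ 6 * ρ)))) :=
        mul_le_mul_of_nonneg_right h7 (by linarith)
    _ = _ := by ring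

end EV
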