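import Pool.Agent.Lib.MP_216314_pr.EV.CEb
import Pool.Agent.Lib.MP_216314_pr.N.CR
import Pool.Agent.Lib.MP_216314_pr.N.E3P

/-!
# Even arms: exits near the corners of the square are rare

`NX F ρ M S ω`: for a point `z ∈ S` an open path of `F` goes from distance `≤ ρ` to distance `≥ M` of `z`. `cnr n`: the four corners of `[-n,n]²`.
* `nx_dep`: `Conn F ω` depends on `ω ∩ F`.
* `nx_pr`: union bound over the four points (`IPC.Pr_exists_le`) and `FKN.pr_cross` (N/CA): each term `≤ p1' (1/2) ρ M`.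
* `p1_small`: `FKN.one_decay` (N/CR) with `RS ε (1/2) N` (`FKN.rsc_half`): `p1' (1/2) r M ≤ 2 (r / M)^α ≤ δ` when `K r ≤ M`, `K` large (`(1 / K)^α → 0`: `FKN.small_pow` in N/BZ or `tendsto_rpow_neg_atTop`).
-/

set_option autoImplicit false

noncomputable section

namespace EV

open Finset FKI FKP

/-- open crossing of the annulus around a point of `S` inside `F` -/
def NX (F : Finset Edge) (ρ M : ℕ) (S : Finset FKI.V) (ω : Finset Edge) : Prop :=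
  ∃ z ∈ S, ∃ u w : FKI.V, FKN.nrm (u - z) ≤ ρ ∧ M ≤ FKN.nrm (w - z) ∧ Conn F ω u w

/-- the corners of `[-n,n]²` -/
def cnr (n : ℕ) : Finset FKI.V := {((n : ℤ), (n : ℤ)), ((n : ℤ), -(n : ℤ)), (-(n : ℤ), (n : ℤ)), (-(n : ℤ), -(n : ℤ))}

theorem nx_dep (F : Finset Edge) (ρ M : ℕ) (S : Finset FKI.V) (ω : Finset Edge) : NX F ρ M S ω ↔ NX F ρ M S (ω ∩ F) := by
  have h1 : ∀ u w : FKI.V, Conn F ω u w ↔ Conn F (ω ∩ F) u w := by
    intro u w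
    unfold Conn
    rw [Finset.inter_assoc, Finset.inter_self]
  unfold NX
  constructor
  · rintro ⟨z, hz, u, w, hu, hw, hc⟩
    exact ⟨z, hz, u, w, hu, hw, (h1 u w).1 hc⟩
  · rintro ⟨z, hz, u, w, hu, hw, hc⟩
    exact ⟨z, hz, u, w, hu, hw, (h1 u w).2 hc⟩

theorem nx_pr {E F : Finset Edge} (hF : F ⊆ E) {ρ M : ℕ} (h : ρ ≤ M) (n : ℕ) :
    IPC.Pr (1 / 2) E (NX F ρ M (cnr n)) ≤ 4 * FKN.p1' (1 / 2) ρ M := by
  have h1 : IPC.Pr (1 / 2) E (NX F ρ M (cnr n)) ≤ ∑ z ∈ cnr n, IPC.Pr (1 / 2) E (fun ω =>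
      ∃ u w : FKI.V, FKN.nrm (u - z) ≤ ρ ∧ M ≤ FKN.nrm (w - z) ∧ Conn F ω u w) :=
    IPC.Pr_exists_le (by norm_num) (by norm_num) E (cnr n) fun z ω =>
      ∃ u w : FKI.V, FKN.nrm (u - z) ≤ ρ ∧ M ≤ FKN.nrm (w - z) ∧ Conn F ω u w
  have h2 : ∀ z ∈ cnr n, IPC.Pr (1 / 2) E (fun ω =>
      ∃ u w : FKI.V, FKN.nrm (u - z) ≤ ρ ∧ M ≤ FKN.nrm (w - z) ∧ Conn F ω u w) ≤
      FKN.p1' (1 / 2) ρ M := fun z _ => FKN.pr_cross (by norm_num) (by norm_num) hF z h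
  refine h1.trans ((Finset.sum_le_sum h2).trans ?_)
  rw [Finset.sum_const, nsmul_eq_mul]
  have h3 : (cnr n).card ≤ 4 := by
    unfold cnr
    exact Finset.card_le_four
  have h4 : 0 ≤ FKN.p1' (1 / 2) ρ M := IPC.Pr_nonneg (by norm_num) (by norm_num) _ _
  exact mul_le_mul_of_nonneg_right (by exact_mod_cast h3) h4

theorem p1_small {δ : ℝ} (hδ : 0 < δ) : ∃ K : ℕ, 1 ≤ K ∧ ∀ r M : ℕ, 1 ≤ r → K * r ≤ M → FKN.p1' (1 / 2) r M ≤ δ := by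
  obtain ⟨ε, hε, hrs⟩ := FKN.rsc_half
  obtain ⟨α, hα, hdec⟩ := FKN.one_decay ε hε
  have ht : Filter.Tendsto (fun x : ℝ => 2 * x ^ (-α)) Filter.atTop (nhds (2 * 0)) :=
    (tendsto_rpow_neg_atTop hα).const_mul 2
  rw [mul_zero] at ht
  have hev := (ht.eventually (gt_mem_nhds hδ)).and (Filter.eventually_ge_atTop (1 : ℝ))
  obtain ⟨x0, hx0⟩ := Filter.eventually_atTop.1 hev
  obtain ⟨K, hK⟩ := exists_nat_ge (max x0 1)
  have hK0 : (1 : ℝ) ≤ K := (le_max_right _ _).trans hK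
  have hK1 : 1 ≤ K := by exact_mod_cast hK0
  refine ⟨K, hK1, fun r M hr hrM => ?_⟩
  have hrM' : r ≤ M := (Nat.le_mul_of_pos_left r hK1).trans hrM
  have h1 := (hdec (1 / 2) M (by norm_num) (by norm_num) (hrs M) r M hr hrM' le_rfl).1
  refine h1.trans ?_
  have hr0 : (0 : ℝ) < r := by exact_mod_cast hr
  have hM0 : (0 : ℝ) < M := by exact_mod_cast lt_of_lt_of_le hr hrM'
  have hKr : (K : ℝ) * r ≤ M := by exact_mod_cast hrM
  have hKp : (0 : ℝ) < K := lt_of_lt_of_le one_pos hK0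
  have h2 : (r : ℝ) / M ≤ (K : ℝ)⁻¹ := by
    rw [div_le_iff₀ hM0, inv_mul_eq_div, le_div_iff₀ hKp]
    linarith
  have h3 : ((r : ℝ) / M) ^ α ≤ ((K : ℝ)⁻¹) ^ α :=
    Real.rpow_le_rpow (by positivity) h2 hα.le
  have h4 : ((K : ℝ)⁻¹) ^ α = (K : ℝ) ^ (-α) := by
    rw [Real.inv_rpow hKp.le, Real.rpow_neg hKp.le]
  have h5 := (hx0 K ((le_max_left _ _).trans hK)).1
  rw [h4] at h3
  linarith

end EV
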