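import Pool.Agent.Lib.MP_216314_pr.EV.CHa

/-!
# Even arms: exits near the corners of the square are rare

`NX F ρ M S ω`: for a point `z ∈ S` an open path of `F` goes from distance `≤ ρ` to distance `≥ M` of `z`. `cnr n`: the four corners of `[-n,n]²`.
* `near_in`: `Near (D0 r n) (ExI' r) _ r (r - 1) ρ ω`: `rC k a = (2 x, 2 r)`, `r - 1 - ρ < |x| < r`: `vtx a` is within `ρ` of a corner `z` of `[-r, r]²`; `s ∈ StI n`, `vtx s` has norm `n`, distance `≥ n - r ≥ M = r - 1` from `z`; the edges of the crossing have both ends within `r - 1` of `z`, so norm `≤ 2 r - 1`: they are in `bx (2 r - 1)`.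
* corners: `rC k a = (2 x, 2 y)` with `|y| = N`, `N - ρ' ≤ |x| ≤ N` gives `rV k (vtx a) = (x, y)` (`FKS.vtx_rot`), so `vtx a` is within `ρ'` of one of the four corners of `[-N, N]²`: for `k < 4` compute `(rV k).symm (x, y)`: `(x, y)`, `(y, -x)`, `(-x, -y)`, `(-y, x)` (`rotV v = (-v.2, v.1)`). Membership in `cnr N`: `simp [cnr]`.
-/

set_option autoImplicit false

noncomputable section

namespace EV

open Finset FKI FKP

private theorem CHc_corner0 {v : FKI.V} {N ρ : ℕ} (h1 : (N : ℤ) - ρ ≤ |v.1|) (h2 : |v.1| ≤ N) (h3 : (N : ℤ) - ρ ≤ |v.2|)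
    (h4 : |v.2| ≤ N) : ∃ z ∈ cnr N, FKN.nrm (v - z) ≤ ρ := by
  obtain ⟨x, y⟩ := v
  simp only at h1 h2 h3 h4
  have key : ∀ a b : ℤ, |x - a| ≤ ρ → |y - b| ≤ ρ → FKN.nrm ((x, y) - (a, b)) ≤ ρ := by
    intro a b ha hb
    rw [FKN.nrmC_le]
    rw [abs_le] at ha hb
    exact ⟨ha.1, ha.2, hb.1, hb.2⟩
  rcases abs_cases x with ⟨hx, hx'⟩ | ⟨hx, hx'⟩ <;> rcases abs_cases y with ⟨hy, hy'⟩ | ⟨hy, hy'⟩ <;>
    rw [hx] at h1 h2 <;> rw [hy] at h3 h4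
  · exact ⟨((N : ℤ), (N : ℤ)), by simp [cnr], key _ _ (abs_le.2 ⟨by omega, by omega⟩) (abs_le.2 ⟨by omega, by omega⟩)⟩
  · exact ⟨((N : ℤ), -(N : ℤ)), by simp [cnr], key _ _ (abs_le.2 ⟨by omega, by omega⟩) (abs_le.2 ⟨by omega, by omega⟩)⟩
  · exact ⟨(-(N : ℤ), (N : ℤ)), by simp [cnr], key _ _ (abs_le.2 ⟨by omega, by omega⟩) (abs_le.2 ⟨by omega, by omega⟩)⟩
  · exact ⟨(-(N : ℤ), -(N : ℤ)), by simp [cnr], key _ _ (abs_le.2 ⟨by omega, by omega⟩) (abs_le.2 ⟨by omega, by omega⟩)⟩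

private theorem CHc_abs {k : ℕ} (hk : k < 4) {a : FKI.V} {x y : ℤ} (h : FKS.rC k a = (2 * x, 2 * y)) :
    (|(vtx a).1| = |x| ∧ |(vtx a).2| = |y|) ∨ (|(vtx a).1| = |y| ∧ |(vtx a).2| = |x|) := by
  have h1 : FKS.rV k (vtx a) = (x, y) := by
    rw [← FKS.vtx_rot, h]
    unfold vtx
    rw [Prod.mk.injEq]
    constructor
    · show 2 * x / 2 = x
      omega
    · show 2 * y / 2 = y
      omega
  generalize vtx a = v at h1 ⊢
  obtain ⟨p, q⟩ := v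
  interval_cases k
  · have h2 : (p, q) = (x, y) := h1
    rw [Prod.mk.injEq] at h2
    left
    exact ⟨by rw [h2.1], by rw [h2.2]⟩
  · have h2 : ((-q, p) : FKI.V) = (x, y) := h1
    rw [Prod.mk.injEq] at h2
    right
    exact ⟨by show |p| = |y|; rw [h2.2], by show |q| = |x|; rw [← h2.1, abs_neg]⟩
  · have h2 : ((-p, -q) : FKI.V) = (x, y) := h1
    rw [Prod.mk.injEq] at h2
    left
    exact ⟨by show |p| = |x|; rw [← h2.1, abs_neg], by show |q| = |y|; rw [← h2.2, abs_neg]⟩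
  · have h2 : ((- -q, -p) : FKI.V) = (x, y) := h1
    rw [Prod.mk.injEq] at h2
    right
    exact ⟨by show |p| = |y|; rw [← h2.2, abs_neg], by show |q| = |x|; rw [← h2.1, neg_neg]⟩

private theorem CHc_corner {k : ℕ} (hk : k < 4) {a : FKI.V} {x y : ℤ} (h : FKS.rC k a = (2 * x, 2 * y)) {N ρ : ℕ}
    (h1 : (N : ℤ) - ρ ≤ |x|) (h2 : |x| ≤ N) (h3 : |y| = N) : ∃ z ∈ cnr N, FKN.nrm (vtx a - z) ≤ ρ := by
  rcases CHc_abs hk h with ⟨h4, h5⟩ | ⟨h4, h5⟩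
  · exact CHc_corner0 (by rw [h4]; exact h1) (by rw [h4]; exact h2) (by rw [h5, h3]; omega) (by rw [h5, h3])
  · exact CHc_corner0 (by rw [h4, h3]; omega) (by rw [h4, h3]) (by rw [h5]; exact h1) (by rw [h5]; exact h2)

private theorem CHc_cnr {N : ℕ} {z : FKI.V} (hz : z ∈ cnr N) : |z.1| = N ∧ |z.2| = N := by
  unfold cnr at hz
  simp only [Finset.mem_insert, Finset.mem_singleton] at hz
  rcases hz with rfl | rfl | rfl | rfl
  · exact ⟨abs_of_nonneg (by simp), abs_of_nonneg (by simp)⟩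
  · exact ⟨abs_of_nonneg (by simp), by show |(-(N : ℤ))| = N; rw [abs_neg]; exact abs_of_nonneg (by simp)⟩
  · exact ⟨by show |(-(N : ℤ))| = N; rw [abs_neg]; exact abs_of_nonneg (by simp), abs_of_nonneg (by simp)⟩
  · exact ⟨by show |(-(N : ℤ))| = N; rw [abs_neg]; exact abs_of_nonneg (by simp),
      by show |(-(N : ℤ))| = N; rw [abs_neg]; exact abs_of_nonneg (by simp)⟩

private theorem CHc_conn {D ω : Finset Edge} {s a : FKI.V} (h : FKS.Exit D ω s a) : Conn D ω (vtx a) (vtx s) := by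
  obtain ⟨k, hk, h1, _⟩ := h
  have h2 := FKS.orb_conn (ω := ω) (s := s) (T := k) (i := k) (j := 0) le_rfl (Nat.zero_le k)
  rw [h1, FKS.orb_zero] at h2
  refine h2.mono ?_ (Finset.Subset.refl _)
  intro e he
  obtain ⟨j, hj, h3⟩ := FKS.mem_XF.1 he
  rw [← h3]
  exact hk j hj

theorem near_in {l r n ρ : ℕ} (h1 : ρ + 1 ≤ r) (h2 : 2 * r ≤ n) {ω : Finset Edge}
    (h : FKS.Near (D0 r n) (ExI' r) (fun _ : Fin l => StI n) (r : ℤ) ((r : ℤ) - 1) ρ ω) :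
    NX (FKN.bx (2 * r - 1)) ρ (r - 1) (cnr r) ω := by
  obtain ⟨a, ha, ⟨i, s, hs, hex⟩, k, hk, x, h4, h5⟩ := h
  have hs' : FKN.nrm (vtx s) = n := hs.2.1
  obtain ⟨k0, hk0, x0, h6, h7⟩ := ha
  have hy : |(r : ℤ)| = r := abs_of_nonneg (by simp)
  have hxr : |x| ≤ r := by
    rcases CHc_abs hk0 h7 with ⟨h8, h9⟩ | ⟨h8, h9⟩ <;> rcases CHc_abs hk h4 with ⟨h10, h11⟩ | ⟨h10, h11⟩ <;>
      simp only [hy] at h8 h9 h10 h11 <;> omega
  obtain ⟨z, hz, h8⟩ := CHc_corner hk h4 (N := r) (ρ := ρ) (by omega) hxr hy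
  have hzc := CHc_cnr hz
  have hz1 : -(r : ℤ) ≤ z.1 ∧ z.1 ≤ r := abs_le.1 hzc.1.le
  have hz2 : -(r : ℤ) ≤ z.2 ∧ z.2 ≤ r := abs_le.1 hzc.2.le
  have hr1 : ((r - 1 : ℕ) : ℤ) = (r : ℤ) - 1 := by omega
  have h10 : ((r - 1 : ℕ) : ℤ) ≤ FKN.nrm (vtx s - z) := by
    by_contra hlt
    rw [not_le] at hlt
    have h11 : FKN.nrm (vtx s - z) ≤ (r : ℤ) - 2 := by omega
    rw [FKN.nrmC_le] at h11
    obtain ⟨h12, h13, h12', h13'⟩ := h11
    have h14 : (vtx s - z).1 = (vtx s).1 - z.1 := rfl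
    have h14' : (vtx s - z).2 = (vtx s).2 - z.2 := rfl
    rw [h14] at h12 h13
    rw [h14'] at h12' h13'
    have h15 : FKN.nrm (vtx s) ≤ (n : ℤ) - 1 := by
      rw [FKN.nrmC_le]
      refine ⟨?_, ?_, ?_, ?_⟩ <;> omega
    omega
  obtain ⟨u', w', h11, h12, h13⟩ := FKN.cross_ann (by omega : ρ ≤ r - 1) h8 h10 (CHc_conn hex)
  refine ⟨z, hz, u', w', h11.le, h12.ge, h13.mono ?_ (Finset.Subset.refl _)⟩
  intro e he
  rw [mem_inter] at he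
  obtain ⟨h14, h15⟩ := he
  have h16 := (FKN.mem_anz.1 h15).1
  have h17 : ((2 * r - 1 : ℕ) : ℤ) = 2 * (r : ℤ) - 1 := by omega
  have key : ∀ v : FKI.V, FKN.nrm (v - z) ≤ ((r - 1 : ℕ) : ℤ) → FKN.nrm v ≤ ((2 * r - 1 : ℕ) : ℤ) := by
    intro v hv
    rw [FKN.nrmC_le] at hv ⊢
    obtain ⟨h20, h21, h22, h23⟩ := hv
    have h24 : (v - z).1 = v.1 - z.1 := rfl
    have h25 : (v - z).2 = v.2 - z.2 := rfl
    rw [h24] at h20 h21
    rw [h25] at h22 h23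
    refine ⟨?_, ?_, ?_, ?_⟩ <;> omega
  exact FKN.mem_bx_iff.2 ⟨key _ h16.1, key _ h16.2⟩

end EV
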