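import Pool.Agent.Lib.MP_216314_pr.EV.GDef

/-!
# Even arms: number of cells, scales, constants

* `cells_card`: `Cells l m h ρ` (Sp/ADef): a filter of a product over `Fin l`; by the first condition of the filter each `κ i` is in `range 4 ×ˢ Icc (-(B + 1)) (B + 1)`: `m |κ i .2| ≤ h - ρ + m ≤ B m + m` (`100 m ≤ ρ`, or only `0 ≤ ρ`), so `|κ i .2| ≤ B + 1`. So `Cells ⊆ Fintype.piFinset (fun _ => range 4 ×ˢ Icc (-(B+1)) (B+1))`, of cardinality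
  `(4 * (2 * B + 3)) ^ l` (`Fintype.card_piFinset`, `prod_const`, `card_product`, `Int.card_Icc`).
* `scl m J`: the scales `30 m 3^j`, `j < J`. `scl_card`: injective for `m ≥ 1` (`3^j` is strictly increasing). `scl_mem`: `30 m ≤ s`, `3 s ≤ 100 * 3^J * m` (`3 * 30 * 3^j ≤ 90 * 3^(J-1) = 30 * 3^J`). `scl_gap`: `j < j'` gives `3 * (30 m 3^j) = 30 m 3^(j+1) ≤ 30 m 3^j'`.
* `choose_J`: `0 ≤ 1 - c^3 < 1`, `(1 - c^3)^J → 0` (`exists_pow_lt_of_lt_one`, `tendsto_pow_atTop_nhds_zero_of_lt_one`).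
-/

set_option autoImplicit false

noncomputable section

namespace EV

open Finset FKI FKP

theorem cells_card {l : ℕ} {m h ρ B : ℤ} (hm : 1 ≤ m) (hρ : 0 ≤ ρ) (hh : 0 ≤ h) (hB : h ≤ B * m) :
    (((FKS.Cells l m h ρ).card : ℕ) : ℝ) ≤ (4 * (2 * (B : ℝ) + 3)) ^ l := by
  classical
  have hB0 : 0 ≤ B := by
    by_contra h1
    have h2 : B ≤ -1 := by omega
    have h3 : B * m ≤ (-1) * m := mul_le_mul_of_nonneg_right h2 (by omega)
    omega
  have hsub : FKS.Cells l m h ρ ⊆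
      Fintype.piFinset (fun _ : Fin l => range 4 ×ˢ Icc (-(B + 1)) (B + 1)) := by
    intro κ hκ
    unfold FKS.Cells at hκ
    rw [mem_filter, Fintype.mem_piFinset] at hκ
    rw [Fintype.mem_piFinset]
    intro i
    have h1 := hκ.1 i
    have h2 := hκ.2.1 i
    rw [mem_product] at h1 ⊢
    refine ⟨h1.1, ?_⟩
    rw [mem_Icc]
    have h3 : m * |(κ i).2| ≤ m * (B + 1) := by
      have h4 : |m * (κ i).2| = m * |(κ i).2| := by
        rw [abs_mul, abs_of_pos (by omega : (0 : ℤ) < m)]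
      have h5 : m * (B + 1) = B * m + m := by ring
      rw [← h4, h5]
      omega
    have h6 : |(κ i).2| ≤ B + 1 := le_of_mul_le_mul_left h3 (by omega)
    have h7 := abs_le.1 h6
    exact h7
  have hc := card_le_card hsub
  rw [Fintype.card_piFinset, prod_const, card_product, card_range, Int.card_Icc, card_univ,
    Fintype.card_fin] at hc
  have hc2 : (((FKS.Cells l m h ρ).card : ℕ) : ℝ) ≤ ((4 * (B + 1 + 1 - -(B + 1)).toNat : ℕ) : ℝ) ^ l := by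
    exact_mod_cast hc
  have h8 : ((4 * (B + 1 + 1 - -(B + 1)).toNat : ℕ) : ℝ) = 4 * (2 * (B : ℝ) + 3) := by
    have h9 : (((B + 1 + 1 - -(B + 1)).toNat : ℕ) : ℤ) = 2 * B + 3 := by
      rw [Int.toNat_of_nonneg (by omega)]
      ring
    have h10 : (((B + 1 + 1 - -(B + 1)).toNat : ℕ) : ℝ) = 2 * (B : ℝ) + 3 := by
      have h11 : ((((B + 1 + 1 - -(B + 1)).toNat : ℕ) : ℤ) : ℝ) = ((2 * B + 3 : ℤ) : ℝ) := by
        rw [h9]
      push_cast at h11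
      exact h11
    rw [Nat.cast_mul, h10]
    norm_num
  rw [h8] at hc2
  exact hc2

/-- the scales -/
def scl (m : ℤ) (J : ℕ) : Finset ℤ := (range J).image fun j => 30 * m * 3 ^ j

private theorem ci_inj {m : ℤ} (hm : 1 ≤ m) {j k : ℕ} (h : (30 * m * 3 ^ j : ℤ) = 30 * m * 3 ^ k) :
    j = k := by
  have h1 : (3 : ℤ) ^ j = 3 ^ k := by
    have h2 : (30 * m : ℤ) ≠ 0 := by omega
    exact mul_left_cancel₀ h2 h
  exact Int.pow_right_injective (by norm_num) h1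

theorem scl_card {m : ℤ} (hm : 1 ≤ m) (J : ℕ) : (scl m J).card = J := by
  unfold scl
  rw [card_image_of_injective, card_range]
  intro j k h
  exact ci_inj hm h

theorem scl_mem {m s : ℤ} {J : ℕ} (hm : 1 ≤ m) (hs : s ∈ scl m J) : 30 * m ≤ s ∧ 1 ≤ s ∧ 3 * s ≤ 100 * 3 ^ J * m := by
  unfold scl at hs
  rw [mem_image] at hs
  obtain ⟨j, hj, rfl⟩ := hs
  rw [mem_range] at hj
  have h1 : (1 : ℤ) ≤ 3 ^ j := one_le_pow₀ (by norm_num)
  have h2 : (30 * m : ℤ) ≤ 30 * m * 3 ^ j := by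
    have h3 : (30 * m : ℤ) * 1 ≤ 30 * m * 3 ^ j := mul_le_mul_of_nonneg_left h1 (by omega)
    rwa [mul_one] at h3
  refine ⟨h2, by omega, ?_⟩
  have h4 : (3 : ℤ) ^ (j + 1) ≤ 3 ^ J := pow_le_pow_right₀ (by norm_num) hj
  have h5 : 3 * (30 * m * 3 ^ j) = 30 * m * (3 : ℤ) ^ (j + 1) := by
    rw [pow_succ]
    ring
  have h6 : (30 * m : ℤ) * 3 ^ (j + 1) ≤ 30 * m * 3 ^ J := mul_le_mul_of_nonneg_left h4 (by omega)
  have h7 : (0 : ℤ) ≤ 3 ^ J * m := mul_nonneg (by positivity) (by omega)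
  have h8 : (30 * m : ℤ) * 3 ^ J = 30 * (3 ^ J * m) := by ring
  have h9 : (100 : ℤ) * 3 ^ J * m = 100 * (3 ^ J * m) := by ring
  rw [h5, h9]
  rw [h8] at h6
  omega

theorem scl_gap {m s s' : ℤ} {J : ℕ} (hm : 1 ≤ m) (hs : s ∈ scl m J) (hs' : s' ∈ scl m J) (h : s < s') : 3 * s ≤ s' := by
  unfold scl at hs hs'
  rw [mem_image] at hs hs'
  obtain ⟨j, hj, rfl⟩ := hs
  obtain ⟨k, hk, rfl⟩ := hs'
  have h0 : (0 : ℤ) < 30 * m := by omega
  have h1 : (3 : ℤ) ^ j < 3 ^ k := lt_of_mul_lt_mul_left h h0.le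
  have h2 : j < k := (pow_lt_pow_iff_right₀ (by norm_num : (1 : ℤ) < 3)).1 h1
  have h4 : (3 : ℤ) ^ (j + 1) ≤ 3 ^ k := pow_le_pow_right₀ (by norm_num) h2
  have h5 : 3 * (30 * m * 3 ^ j) = 30 * m * (3 : ℤ) ^ (j + 1) := by
    rw [pow_succ]
    ring
  rw [h5]
  exact mul_le_mul_of_nonneg_left h4 h0.le

theorem choose_J {c : ℝ} (hc : 0 < c) (hc1 : c ≤ 1 / 2) {A θ : ℝ} (hθ : 0 < θ) : ∃ J : ℕ, 1 ≤ J ∧ A * (1 - c ^ 3) ^ J ≤ θ := by
  have hc3 : 0 < c ^ 3 := by positivity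
  have hc4 : c ^ 3 ≤ 1 := pow_le_one₀ hc.le (by linarith)
  have ha0 : 0 ≤ 1 - c ^ 3 := by linarith
  have ha1 : 1 - c ^ 3 < 1 := by linarith
  obtain ⟨J, hJ⟩ := exists_pow_lt_of_lt_one (show 0 < θ / (|A| + 1) by positivity) ha1
  refine ⟨J + 1, by omega, ?_⟩
  have h1 : (1 - c ^ 3) ^ (J + 1) ≤ (1 - c ^ 3) ^ J :=
    pow_le_pow_of_le_one ha0 ha1.le (Nat.le_succ J)
  have h2 : 0 ≤ (1 - c ^ 3) ^ (J + 1) := pow_nonneg ha0 _
  calc A * (1 - c ^ 3) ^ (J + 1) ≤ (|A| + 1) * (1 - c ^ 3) ^ (J + 1) :=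
        mul_le_mul_of_nonneg_right (by linarith [le_abs_self A]) h2
    _ ≤ (|A| + 1) * (θ / (|A| + 1)) :=
        mul_le_mul_of_nonneg_left (h1.trans hJ.le) (by positivity)
    _ = θ := by
        field_simp

end EV
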