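import Pool.Agent.Lib.MP_216314_pr.EV.GE

/-!
# Even arms: the landing state outside gives the canonical state

`t = 30000 r0`, `m = 2 t = 60000 r0`, `y = -n`, `h = n`, `D = an R n`, `n' = n + 10 t + 1 = n + 300000 r0 + 1`, `St i = {sc l R i}`.
* `cycR_mono`: a smaller gap `g' ≤ g` (`R > 0`): `g' / R ≤ g / R`.
* `bxs_perm`: `bxs (a ∘ σ) w = bxs a w` (ext; `σ` is surjective).
* `src_out`: `vtx (sc l R i) = sv l R i`, `fce (sc l R i) = sf l R i` (unfold; `omega`; the right corner is `(2 R + 1, -2 i)`, the left one `(-2 R, -2 j - 1)`); `SpE l R = nearS (sv l R) 0` with `σ = 1`: `nrm 0 ≤ 0`. `perm_out`: `nearS` is invariant under permutations (compose `σ`).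
* `os_box`: frames: `OS κ (-n) t`, `DS κ (-n) t`: the edges `e` with `rE k e` in a box with abscissae in `[x - 6 t - 1, x + 8 t]`, `|x| ≤ n - ρ + 2 t` (`ρ ≥ 200 t`), ordinates in `[-n - 10 t, -n]`: so `rE k e ∈ bx (n + 10 t)` (`mem_box`), `bx` is invariant (`FKS.box_rot`, `mem_rot`): `e ∈ bx (n + 10 t)`; and `e ∉ bx R` because both ends of `rE k e` have ordinate `≤ -n + 0 < -R`.
* `out_state`: `GCell κ (-n) n ρ t` by `gcell_of` (`200 t = 6000000 r0 ≤ ρ ≤ n`). `c` from `FKN.rb_half`. `land_pr` with `E = bx (2 n)`, `dom_out`; `near_st` with `σ`, `τ` from `cyc_out`, `Fp' = (bx n' \ bx R) \ bxs (gzd ∘ τ) (300 * (7 r0))`, `Fm' = (bx n' \ bx R) \ bxs (gzo ∘ σ) (300 * (7 r0))`: `an R n ⊆ bx n' \ bx R`, `OS ⊆ bx n' \ bx R` (`os_box`), `OS` is disjoint from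
  `bxs gzd (2100 r0)` (`os_zd`, `2100 r0 ≤ t`), `an R n` is disjoint from `bxs gzd (2100 r0)`: an edge of `bxa (gzd j) w`, `w ≤ t`, has `rE k e ∈ box (x - 3 t - w) (x - 3 t + w) (y - 10 t - 1 - w) (y - 10 t - 1 + w)` (`bxa_frame`), so `dom_low` gives `y ≤ y - 10 t - 1 + w`, contradiction. The same for the dual region with `gzo`.
  `FKN.pr_StE` (DStA) changes `bx (2 n)` to `bx n'` (`n' ≤ 2 n`). `out_ext_l` (DMain) with `n := n'`, `r := 7 r0`, `k := K + 300001`: `n' ≤ K r0 + 300000 r0 + 1 ≤ 2 k (7 r0)`; `CycR .. n' (30000 * (7 r0))` by `cycR_mono` (`30000 * 7 r0 = 210000 r0 ≤ 8 t = 240000 r0`).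
-/

set_option autoImplicit false

noncomputable section

namespace EV

open Finset FKI FKP

theorem cycR_mono {l : ℕ} {ao ad : Fin l → FKI.V} {R g g' : ℤ} (hR : 0 < R) (hg : g' ≤ g) (h : FKN.CycR ao ad R g) : FKN.CycR ao ad R g' := by
  obtain ⟨θo, θd, h1, h2, h3, h4⟩ := h
  have hR' : (0 : ℝ) < (R : ℝ) := by exact_mod_cast hR
  have hg' : (g' : ℝ) ≤ (g : ℝ) := by exact_mod_cast hg
  have hd : (g' : ℝ) / R ≤ (g : ℝ) / R := div_le_div_of_nonneg_right hg' hR'.le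
  refine ⟨θo, θd, h1, h2, fun i j hij => ?_, fun i j hij => ?_⟩
  · obtain ⟨h5, h6⟩ := h3 i j hij
    exact ⟨hd.trans h5, by linarith⟩
  · obtain ⟨h5, h6⟩ := h4 i j hij
    exact ⟨hd.trans h5, by linarith⟩

theorem bxs_perm {l : ℕ} (a : Fin l → FKI.V) (σ : Equiv.Perm (Fin l)) (w : ℤ) : FKN.bxs (a ∘ σ) w = FKN.bxs a w := by
  ext e
  unfold FKN.bxs
  rw [mem_biUnion, mem_biUnion]
  constructor
  · rintro ⟨i, -, hi⟩
    exact ⟨σ i, mem_univ _, hi⟩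
  · rintro ⟨i, -, hi⟩
    refine ⟨σ.symm i, mem_univ _, ?_⟩
    have h : (a ∘ σ) (σ.symm i) = a i := by
      change a (σ (σ.symm i)) = a i
      rw [Equiv.apply_symm_apply]
    rw [h]
    exact hi

private theorem CJa_vtx (l R : ℕ) (i : Fin l) : vtx (sc l R i) = sv l R i := by
  unfold sc sv
  by_cases h : (i : ℕ) < hr l
  · rw [if_pos h, if_pos h]
    refine Prod.ext ?_ ?_
    · change (2 * (R : ℤ) + 1) / 2 = (R : ℤ)
      omega
    · change (-2 * ((i : ℕ) : ℤ)) / 2 = -((i : ℕ) : ℤ)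
      omega
  · rw [if_neg h, if_neg h]
    refine Prod.ext ?_ ?_
    · change (-2 * (R : ℤ)) / 2 = -(R : ℤ)
      omega
    · change (-2 * (((i : ℕ) - hr l : ℕ) : ℤ) - 1) / 2 = -(((i : ℕ) - hr l : ℕ) : ℤ) - 1
      omega

private theorem CJa_fce (l R : ℕ) (i : Fin l) : FKS.fce (sc l R i) = sf l R i := by
  unfold sc sf
  by_cases h : (i : ℕ) < hr l
  · rw [if_pos h, if_pos h]
    refine Prod.ext ?_ ?_
    · change (2 * (R : ℤ) + 1 - 1) / 2 = (R : ℤ)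
      omega
    · change (-2 * ((i : ℕ) : ℤ) - 1) / 2 = -((i : ℕ) : ℤ) - 1
      omega
  · rw [if_neg h, if_neg h]
    refine Prod.ext ?_ ?_
    · change (-2 * (R : ℤ) - 1) / 2 = -(R : ℤ) - 1
      omega
    · change (-2 * (((i : ℕ) - hr l : ℕ) : ℤ) - 1 - 1) / 2 = -(((i : ℕ) - hr l : ℕ) : ℤ) - 1
      omega

private theorem CJa_self (v : FKI.V) : FKN.nrm (v - v) ≤ 0 := by
  rw [sub_self]
  exact le_of_eq rfl

theorem src_out {l R : ℕ} (η : Finset Edge) (s : Fin l → FKI.V) :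
    ((∀ i, ∃ p ∈ ({sc l R i} : Set FKI.V), s i = vtx p) → SpE l R η s) ∧ ((∀ i, ∃ p ∈ ({sc l R i} : Set FKI.V), s i = FKS.fce p) → SmE l R η s) := by
  constructor
  · intro h
    refine ⟨1, fun i => ?_⟩
    obtain ⟨p, hp, hs⟩ := h i
    rw [Set.mem_singleton_iff] at hp
    rw [hs, hp, CJa_vtx, Equiv.Perm.one_apply]
    exact CJa_self _
  · intro h
    refine ⟨1, fun i => ?_⟩
    obtain ⟨p, hp, hs⟩ := h i
    rw [Set.mem_singleton_iff] at hp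
    rw [hs, hp, CJa_fce, Equiv.Perm.one_apply]
    exact CJa_self _

theorem perm_out {l R : ℕ} (η : Finset Edge) (s : Fin l → FKI.V) (σ : Equiv.Perm (Fin l)) :
    (SpE l R η s → SpE l R η (s ∘ σ)) ∧ (SmE l R η s → SmE l R η (s ∘ σ)) := by
  constructor
  · rintro ⟨τ, hτ⟩
    exact ⟨σ.trans τ, fun i => hτ (σ i)⟩
  · rintro ⟨τ, hτ⟩
    exact ⟨σ.trans τ, fun i => hτ (σ i)⟩

private theorem CJa_rot (k N : ℕ) (e : Edge) : e ∈ FKN.bx N ↔ FKS.rE k e ∈ FKN.bx N := by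
  unfold FKN.bx
  rw [← FKS.mem_rot k (box (-(N : ℤ)) N (-(N : ℤ)) N) e, FKS.box_rot]

private theorem CJa_core {n t R : ℕ} {x a b : ℤ} {e : Edge} (hR : R < n) (ht : (1 : ℤ) ≤ t)
    (hx : |x| ≤ (n : ℤ) - 198 * t) (ha : -(6 * (t : ℤ)) - 1 ≤ a) (hb : b ≤ 8 * t)
    (he : e ∈ box (x + a) (x + b) (-(n : ℤ) - 10 * t) (-(n : ℤ))) :
    e ∈ FKN.bx (n + 10 * t) ∧ e ∉ FKN.bx R := by
  rw [abs_le] at hx
  unfold FKN.bx
  rw [mem_box, mem_box]
  rw [mem_box] at he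
  push_cast
  obtain ⟨h8, h9⟩ := hx
  have hR' : (R : ℤ) < n := by exact_mod_cast hR
  rcases he with ⟨h0, h1, h2, h3, h4⟩ | ⟨h0, h1, h2, h3, h4⟩
  · refine ⟨Or.inl ⟨h0, by linarith, by linarith, by linarith, by linarith⟩, ?_⟩
    rintro (⟨-, -, -, h5, -⟩ | ⟨-, -, -, h5, -⟩)
    · linarith
    · linarith
  · refine ⟨Or.inr ⟨h0, by linarith, by linarith, by linarith, by linarith⟩, ?_⟩
    rintro (⟨-, -, -, h5, -⟩ | ⟨-, -, -, h5, -⟩)
    · linarith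
    · linarith

theorem os_box {l R n : ℕ} {κ : Fin l → ℕ × ℤ} {ρ : ℤ} {t : ℕ} (hc : GCell κ (-(n : ℤ)) n ρ t) (hR : R < n) {e : Edge}
    (he : e ∈ OS κ (-(n : ℤ)) t ∪ DS κ (-(n : ℤ)) t) : e ∈ FKN.bx (n + 10 * t) ∧ e ∉ FKN.bx R := by
  obtain ⟨⟨c1, c2, c3, c4⟩, c5, c6⟩ := hc
  rcases mem_union.1 he with h | h
  · unfold OS at h
    obtain ⟨i, -, hi⟩ := mem_biUnion.1 h
    rw [mem_unr] at hi
    rw [CJa_rot (κ i).1 (n + 10 * t) e, CJa_rot (κ i).1 R e]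
    exact CJa_core hR c1 (x := 2 * t * (κ i).2) (a := 2 * t) (b := 8 * t) (by linarith [(c5 i).2]) (by linarith)
      le_rfl hi
  · unfold DS at h
    obtain ⟨i, -, hi⟩ := mem_biUnion.1 h
    rw [mem_unr] at hi
    rw [CJa_rot (κ i).1 (n + 10 * t) e, CJa_rot (κ i).1 R e]
    refine CJa_core hR c1 (x := 2 * t * (κ i).2) (a := -(6 * (t : ℤ)) - 1) (b := 1) (by linarith [(c5 i).2]) le_rfl
      (by linarith) ?_
    have h1 : 2 * (t : ℤ) * (κ i).2 + (-(6 * (t : ℤ)) - 1) = 2 * t * (κ i).2 - 6 * t - 1 := by ring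
    rw [h1]
    exact hi

end EV
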