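import Pool.Agent.Lib.MP_216314_pr.EV.GDef

/-!
# Even arms: the landing points are in cyclic order

* `ang_out`: `N = n + 10 t + 1`, `k = (κ i).1 < 4`, `(rV k).symm (u, -N)`, `|u| ≤ N`: `k = 0`: `(u, -N)`; `k = 1`: `(-N, -u)`; `k = 2`: `(-u, N)`; `k = 3`: `(N, u)` (`rotV v = (-v.2, v.1)`, `rotV.symm v = (v.2, -v.1)`). The angle `φ = 7 - 2 k + u / N` is in `[6, 8]`, `[4, 6]`, `[2, 4]`, `[0, 2]`: `FKN.sq_val` gives
  `(gw φ, gw (φ - 2)) = (φ - 7, -1)`, `(-1, 5 - φ)`, `(3 - φ, 1)`, `(1, φ - 1)`, so `N * sq φ` is this point.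
* `ang_in`: `(rV k).symm (u, N)`, `N = r - 10 t - 1 > 0`: `k = 0`: `(u, N)`, `φ = 3 - u / N`; `k = 1`: `(N, -u)`, `φ = 1 - u / N`; `k = 2`: `(-u, -N)`, `φ = 7 - u / N`; `k = 3`: `(-N, u)`, `φ = 5 - u / N`. So `φ = base k - u / N` with `base = 3, 1, 7, 5`.
-/

set_option autoImplicit false

noncomputable section

namespace EV

open Finset FKI FKP

private theorem GFb_v {N u : ℤ} (hN : 0 < N) (hu : |u| ≤ N) :
    ∃ v : ℝ, (u : ℝ) / N = v ∧ -1 ≤ v ∧ v ≤ 1 ∧ (N : ℝ) * v = u := by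
  have hN' : (0 : ℝ) < N := by exact_mod_cast hN
  have h1 : |(u : ℝ)| ≤ N := by exact_mod_cast hu
  rw [abs_le] at h1
  refine ⟨(u : ℝ) / N, rfl, ?_, ?_, ?_⟩
  · rw [le_div_iff₀ hN']; linarith [h1.1]
  · rw [div_le_iff₀ hN']; linarith [h1.2]
  · field_simp

private theorem GFb_s0 (a b : ℤ) : (FKS.rV 0).symm (a, b) = (a, b) := rfl

private theorem GFb_s1 (a b : ℤ) : (FKS.rV 1).symm (a, b) = (b, -a) := rfl

private theorem GFb_s2 (a b : ℤ) : (FKS.rV 2).symm (a, b) = (-a, -b) := rfl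

private theorem GFb_s3 (a b : ℤ) : (FKS.rV 3).symm (a, b) = (-b, a) := by
  have h : (FKS.rV 3).symm (a, b) = (-b, - -a) := rfl
  rw [h, neg_neg]

theorem ang_out {k : ℕ} (hk : k < 4) {N u : ℤ} (hN : 0 < N) (hu : |u| ≤ N) :
    ((((FKS.rV k).symm (u, -N)).1 : ℝ), (((FKS.rV k).symm (u, -N)).2 : ℝ)) =
      ((N : ℝ) * (FKN.sq (7 - 2 * k + u / N)).1, (N : ℝ) * (FKN.sq (7 - 2 * k + u / N)).2) := by
  obtain ⟨v, hv, h1, h2, h3⟩ := GFb_v hN hu
  rw [hv]
  unfold FKN.sq
  interval_cases k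
  · have e := (FKN.sq_val (θ := 7 - 2 * ((0 : ℕ) : ℝ) + v) (by push_cast; linarith)
      (by push_cast; linarith)).2.2.2 (by push_cast; linarith)
    rw [GFb_s0, e.1, e.2]
    push_cast
    refine Prod.ext ?_ ?_
    · change (u : ℝ) = N * (7 - 2 * 0 + v - 7)
      rw [← h3]; ring
    · change -(N : ℝ) = N * -1
      ring
  · have e := (FKN.sq_val (θ := 7 - 2 * ((1 : ℕ) : ℝ) + v) (by push_cast; linarith)
      (by push_cast; linarith)).2.2.1 (by push_cast; linarith) (by push_cast; linarith)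
    rw [GFb_s1, e.1, e.2]
    push_cast
    refine Prod.ext ?_ ?_
    · change -(N : ℝ) = N * -1
      ring
    · change -(u : ℝ) = N * (5 - (7 - 2 * 1 + v))
      rw [← h3]; ring
  · have e := (FKN.sq_val (θ := 7 - 2 * ((2 : ℕ) : ℝ) + v) (by push_cast; linarith)
      (by push_cast; linarith)).2.1 (by push_cast; linarith) (by push_cast; linarith)
    rw [GFb_s2, e.1, e.2]
    push_cast
    refine Prod.ext ?_ ?_
    · change -(u : ℝ) = N * (3 - (7 - 2 * 2 + v))
      rw [← h3]; ring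
    · change - -(N : ℝ) = N * 1
      ring
  · have e := (FKN.sq_val (θ := 7 - 2 * ((3 : ℕ) : ℝ) + v) (by push_cast; linarith)
      (by push_cast; linarith)).1 (by push_cast; linarith)
    rw [GFb_s3, e.1, e.2]
    push_cast
    refine Prod.ext ?_ ?_
    · change - -(N : ℝ) = N * 1
      ring
    · change (u : ℝ) = N * (7 - 2 * 3 + v - 1)
      rw [← h3]; ring

/-- base angle of the sides, inner boundary -/
def bang (k : ℕ) : ℝ := if k = 0 then 3 else if k = 1 then 1 else if k = 2 then 7 else 5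

theorem ang_in {k : ℕ} (hk : k < 4) {N u : ℤ} (hN : 0 < N) (hu : |u| ≤ N) :
    ((((FKS.rV k).symm (u, N)).1 : ℝ), (((FKS.rV k).symm (u, N)).2 : ℝ)) =
      ((N : ℝ) * (FKN.sq (bang k - u / N)).1, (N : ℝ) * (FKN.sq (bang k - u / N)).2) := by
  obtain ⟨v, hv, h1, h2, h3⟩ := GFb_v hN hu
  rw [hv]
  unfold FKN.sq
  interval_cases k
  · have hb : bang 0 = 3 := rfl
    rw [hb]
    have e := (FKN.sq_val (θ := 3 - v) (by linarith) (by linarith)).2.1 (by linarith) (by linarith)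
    rw [GFb_s0, e.1, e.2]
    refine Prod.ext ?_ ?_
    · change (u : ℝ) = N * (3 - (3 - v))
      rw [← h3]; ring
    · change (N : ℝ) = N * 1
      ring
  · have hb : bang 1 = 1 := by norm_num [bang]
    rw [hb]
    have e := (FKN.sq_val (θ := 1 - v) (by linarith) (by linarith)).1 (by linarith)
    rw [GFb_s1, e.1, e.2]
    push_cast
    refine Prod.ext ?_ ?_
    · change (N : ℝ) = N * 1
      ring
    · change -(u : ℝ) = N * (1 - v - 1)
      rw [← h3]; ring
  · have hb : bang 2 = 7 := by norm_num [bang]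
    rw [hb]
    have e := (FKN.sq_val (θ := 7 - v) (by linarith) (by linarith)).2.2.2 (by linarith)
    rw [GFb_s2, e.1, e.2]
    push_cast
    refine Prod.ext ?_ ?_
    · change -(u : ℝ) = N * (7 - v - 7)
      rw [← h3]; ring
    · change -(N : ℝ) = N * -1
      ring
  · have hb : bang 3 = 5 := by norm_num [bang]
    rw [hb]
    have e := (FKN.sq_val (θ := 5 - v) (by linarith) (by linarith)).2.2.1 (by linarith) (by linarith)
    rw [GFb_s3, e.1, e.2]
    push_cast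
    refine Prod.ext ?_ ?_
    · change -(N : ℝ) = N * -1
      ring
    · change (u : ℝ) = N * (5 - (5 - v))
      rw [← h3]; ring

end EV
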