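import Pool.Agent.Lib.MP_216314_pr.EV.GFa
import Pool.Agent.Lib.MP_216314_pr.EV.GFb

/-!
# Even arms: the landing points are in cyclic order

* `cyc_out`: `θ i = 7 - 2 k + x i / N` with `x i = 2 t (κ i).2`, `|x i| ≤ n - ρ + 2 t`, `N - |x i| ≥ ρ + 8 t ≥ 208 t`. Same side: `|x i - x j| = 2 t |..| ≥ 40 t`. Different sides: the angles are in different intervals `(2 j, 2 j + 2)` at distance `≥ 208 t / N` from the end points: difference `≥ 416 t / N`. All angles are in `[208 t / N, 8 - 208 t / N]`. So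
  `sort_gap` with `δ = 40 t / N` and `|θ i - θ j| ≤ 8 - δ`. `cyc_abs2` with `a = 5 t / N`, `b = -3 t / N`, `g = 8 t / N`. The points: `gzo (σ i) = (rV k).symm (x + 5 t, -N)`, `|x + 5 t| ≤ N`: `ang_out`; `gzd (σ (finRotate i))`; the angle `+ 8` does not change the point (`FKN.gw_per`). `y - 10 t - 1 = -N` for `y = -n`.
  Note `40 t ≤ 8 N`.
-/

set_option autoImplicit false

noncomputable section

namespace EV

open Finset FKI FKP

private theorem GFc_sq (φ : ℝ) : FKN.sq (φ + 8) = FKN.sq φ := by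
  have h1 := FKN.gw_per φ 1
  have h2 := FKN.gw_per (φ - 2) 1
  have e1 : φ + 8 * ((1 : ℤ) : ℝ) = φ + 8 := by norm_num
  have e2 : φ - 2 + 8 * ((1 : ℤ) : ℝ) = φ + 8 - 2 := by push_cast; ring
  rw [e1] at h1
  rw [e2] at h2
  unfold FKN.sq
  rw [h1, h2]

/-- the point at the abscissa `x + w` on the side `k` -/
private theorem GFc_pt {k : ℕ} (hk : k < 4) {n t x w : ℤ} (hN : 0 < n + 10 * t + 1) (hu : |x + w| ≤ n + 10 * t + 1) {φ : ℝ}
    (hφ : φ = 7 - 2 * (k : ℝ) + (x : ℝ) / ((n + 10 * t + 1 : ℤ) : ℝ) + (w : ℝ) / ((n + 10 * t + 1 : ℤ) : ℝ)) :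
    ((((FKS.rV k).symm (x + w, -n - 10 * t - 1)).1 : ℝ), (((FKS.rV k).symm (x + w, -n - 10 * t - 1)).2 : ℝ)) =
      (((n + 10 * t + 1 : ℤ) : ℝ) * (FKN.sq φ).1, ((n + 10 * t + 1 : ℤ) : ℝ) * (FKN.sq φ).2) := by
  have h := ang_out hk hN hu
  have e1 : -(n + 10 * t + 1) = -n - 10 * t - 1 := by ring
  have e2 : (7 - 2 * (k : ℝ) + ((x + w : ℤ) : ℝ) / ((n + 10 * t + 1 : ℤ) : ℝ)) = φ := by
    rw [hφ, Int.cast_add x w, add_div]
    ring
  rw [e1, e2] at h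
  exact h

theorem cyc_out {l : ℕ} {κ : Fin l → ℕ × ℤ} {n ρ t : ℤ} (hc : GCell κ (-n) n ρ t) :
    ∃ σ τ : Equiv.Perm (Fin l), FKN.CycR (gzo κ (-n) t ∘ σ) (gzd κ (-n) t ∘ τ) (n + 10 * t + 1) (8 * t) := by
  obtain ⟨⟨c1, c2, c3, c4⟩, c5, c6⟩ := hc
  have hNi : 0 < n + 10 * t + 1 := by omega
  obtain ⟨N, hNe⟩ : ∃ N : ℝ, N = ((n + 10 * t + 1 : ℤ) : ℝ) := ⟨_, rfl⟩
  have hN : 0 < N := by
    rw [hNe]
    exact_mod_cast hNi
  have hT : (1 : ℝ) ≤ (t : ℝ) := by exact_mod_cast c1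
  have hNT : 210 * (t : ℝ) ≤ N := by
    rw [hNe]
    have h : 210 * t ≤ n + 10 * t + 1 := by omega
    exact_mod_cast h
  obtain ⟨x, hx⟩ : ∃ x : Fin l → ℤ, ∀ i, x i = 2 * t * (κ i).2 := ⟨_, fun _ => rfl⟩
  -- bounds for the abscissae
  have hxb : ∀ i, |(x i : ℝ)| ≤ N - 208 * (t : ℝ) := by
    intro i
    have h1 := (c5 i).2
    rw [← hx i] at h1
    have h2 : |x i| ≤ (n + 10 * t + 1) - 208 * t := by omega
    have h3 : ((|x i| : ℤ) : ℝ) ≤ (((n + 10 * t + 1) - 208 * t : ℤ) : ℝ) := by exact_mod_cast h2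
    rw [Int.cast_abs, Int.cast_sub, ← hNe] at h3
    push_cast at h3
    exact h3
  have hxd : ∀ i, |(x i : ℝ) / N| ≤ 1 - 208 * ((t : ℝ) / N) := by
    intro i
    rw [abs_div, abs_of_pos hN, div_le_iff₀ hN]
    have e : (1 - 208 * ((t : ℝ) / N)) * N = N - 208 * (t : ℝ) := by field_simp
    rw [e]
    exact hxb i
  obtain ⟨s, hs⟩ : ∃ s : ℝ, s = (t : ℝ) / N := ⟨_, rfl⟩
  have hs0 : 0 < s := by
    rw [hs]
    positivity
  have hs1 : 210 * s ≤ 1 := by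
    rw [hs, ← mul_div_assoc, div_le_one hN]
    exact hNT
  obtain ⟨θ, hθ⟩ : ∃ θ : Fin l → ℝ, ∀ i, θ i = 7 - 2 * (((κ i).1 : ℕ) : ℝ) + (x i : ℝ) / N :=
    ⟨_, fun _ => rfl⟩
  have hk : ∀ i, (((κ i).1 : ℕ) : ℝ) ≤ 3 := by
    intro i
    have h1 := (c5 i).1
    have h2 : (κ i).1 ≤ 3 := by omega
    exact_mod_cast h2
  have hk0 : ∀ i, (0 : ℝ) ≤ (((κ i).1 : ℕ) : ℝ) := fun i => Nat.cast_nonneg _
  have hgap : ∀ i j, i ≠ j → 40 * s ≤ |θ i - θ j| := by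
    intro i j hij
    have hi := abs_le.1 (hxd i)
    have hj := abs_le.1 (hxd j)
    rw [← hs] at hi hj
    rw [hθ, hθ]
    rcases lt_trichotomy (κ i).1 (κ j).1 with h | h | h
    · have h1 : (((κ i).1 : ℕ) : ℝ) + 1 ≤ (((κ j).1 : ℕ) : ℝ) := by exact_mod_cast h
      refine le_trans ?_ (le_abs_self _)
      linarith [hi.1, hj.2]
    · have h1 := c6 i j hij h
      have h2 : 40 * t ≤ |x i - x j| := by
        rw [hx, hx, ← mul_sub, abs_mul, abs_of_pos (by omega : (0 : ℤ) < 2 * t)]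
        nlinarith
      have h3 : (40 : ℝ) * (t : ℝ) ≤ |(x i : ℝ) - (x j : ℝ)| := by exact_mod_cast h2
      have e : 7 - 2 * (((κ i).1 : ℕ) : ℝ) + (x i : ℝ) / N - (7 - 2 * (((κ j).1 : ℕ) : ℝ) + (x j : ℝ) / N) =
          ((x i : ℝ) - (x j : ℝ)) / N := by
        rw [h]
        ring
      rw [e, abs_div, abs_of_pos hN, hs, ← mul_div_assoc]
      exact div_le_div_of_nonneg_right h3 hN.le
    · have h1 : (((κ j).1 : ℕ) : ℝ) + 1 ≤ (((κ i).1 : ℕ) : ℝ) := by exact_mod_cast h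
      refine le_trans ?_ (neg_le_abs _)
      linarith [hi.2, hj.1]
  have hwide : ∀ i j, θ j - θ i ≤ 8 - 40 * s := by
    intro i j
    have hi := abs_le.1 (hxd i)
    have hj := abs_le.1 (hxd j)
    rw [← hs] at hi hj
    rw [hθ, hθ]
    linarith [hi.1, hj.2, hk i, hk0 j]
  obtain ⟨σ, hσ⟩ := sort_gap (θ := θ) (δ := 40 * s) (by linarith) hgap
  obtain ⟨θ', hθ1, hθ2, hθ3⟩ := cyc_abs2 (θ := fun i => θ (σ i)) (δ := 40 * s) (a := 5 * s) (b := -3 * s) (g := 8 * s)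
    (by linarith) (by linarith) (fun i j h => hσ i j h) (fun i j => hwide _ _) (by linarith) (by linarith)
  have hpt : ∀ (i : Fin l) (w : ℤ), |w| ≤ 5 * t → ∀ φ : ℝ, φ = θ i + (w : ℝ) / N →
      ((((FKS.rV (κ i).1).symm (x i + w, -n - 10 * t - 1)).1 : ℝ),
        (((FKS.rV (κ i).1).symm (x i + w, -n - 10 * t - 1)).2 : ℝ)) =
      (((n + 10 * t + 1 : ℤ) : ℝ) * (FKN.sq φ).1, ((n + 10 * t + 1 : ℤ) : ℝ) * (FKN.sq φ).2) := by
    intro i w hw φ hφ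
    refine GFc_pt (c5 i).1 hNi ?_ ?_
    · have h1 := (c5 i).2
      rw [← hx i] at h1
      rw [abs_le] at h1 hw ⊢
      omega
    · rw [hφ, hθ, ← hNe]
  have eg : ((8 * t : ℤ) : ℝ) / ((n + 10 * t + 1 : ℤ) : ℝ) = 8 * s := by
    rw [← hNe, hs, ← mul_div_assoc]
    push_cast
    rfl
  refine ⟨σ, (finRotate l).trans σ, fun i => θ (σ i) + 5 * s, θ', ?_, ?_, ?_, ?_⟩
  · intro i
    have h := hpt (σ i) (5 * t) (by rw [abs_of_pos (by omega)]) (θ (σ i) + 5 * s) (by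
      rw [hs]
      push_cast
      ring)
    rw [hx] at h
    exact h
  · intro j
    have hj : ∀ φ : ℝ, φ = θ (σ (finRotate l j)) + -3 * s →
        ((((gzd κ (-n) t ∘ ((finRotate l).trans σ)) j).1 : ℝ), (((gzd κ (-n) t ∘ ((finRotate l).trans σ)) j).2 : ℝ)) =
        (((n + 10 * t + 1 : ℤ) : ℝ) * (FKN.sq φ).1, ((n + 10 * t + 1 : ℤ) : ℝ) * (FKN.sq φ).2) := by
      intro φ hφ
      have h := hpt (σ (finRotate l j)) (-(3 * t)) (by rw [abs_neg, abs_of_pos (by omega)]; omega) φ (by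
        rw [hφ, hs]
        push_cast
        ring)
      rw [hx, ← sub_eq_add_neg] at h
      exact h
    rcases hθ1 j with h | h
    · exact hj _ h
    · rw [h, GFc_sq]
      exact hj _ rfl
  · intro i j hij
    rw [eg]
    exact hθ2 i j hij
  · intro i j hij
    rw [eg]
    exact hθ3 i j hij

end EV
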