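import Pool.Agent.Lib.MP_216314_pr.EV.CJa
import Pool.Agent.Lib.MP_216314_pr.EV.GFc
import Pool.Agent.Lib.MP_216314_pr.EV.CEc

/-!
# Even arms: the landing state outside gives the canonical state

`t = 30000 r0`, `m = 2 t = 60000 r0`, `y = -n`, `h = n`, `D = an R n`, `n' = n + 10 t + 1 = n + 300000 r0 + 1`, `St i = {sc l R i}`.
* `out_state`: `GCell κ (-n) n ρ t` by `gcell_of` (`200 t = 6000000 r0 ≤ ρ ≤ n`). `c` from `FKN.rb_half`. `land_pr` with `E = bx (2 n)`, `dom_out`; `near_st` with `σ`, `τ` from `cyc_out`, `Fp' = (bx n' \ bx R) \ bxs (gzd ∘ τ) (300 * (7 r0))`, `Fm' = (bx n' \ bx R) \ bxs (gzo ∘ σ) (300 * (7 r0))`: `an R n ⊆ bx n' \ bx R`, `OS ⊆ bx n' \ bx R` (`os_box`), `OS` is disjoint from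
  `bxs gzd (2100 r0)` (`os_zd`, `2100 r0 ≤ t`), `an R n` is disjoint from `bxs gzd (2100 r0)`: an edge of `bxa (gzd j) w`, `w ≤ t`, has `rE k e ∈ box (x - 3 t - w) (x - 3 t + w) (y - 10 t - 1 - w) (y - 10 t - 1 + w)` (`bxa_frame`), so `dom_low` gives `y ≤ y - 10 t - 1 + w`, contradiction. The same for the dual region with `gzo`.
  `FKN.pr_StE` (DStA) changes `bx (2 n)` to `bx n'` (`n' ≤ 2 n`). `out_ext_l` (DMain) with `n := n'`, `r := 7 r0`, `k := K + 300001`: `n' ≤ K r0 + 300000 r0 + 1 ≤ 2 k (7 r0)`; `CycR .. n' (30000 * (7 r0))` by `cycR_mono` (`30000 * 7 r0 = 210000 r0 ≤ 8 t = 240000 r0`).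
-/

set_option autoImplicit false

noncomputable section

namespace EV

open Finset FKI FKP

private theorem CJb_low {l R n : ℕ} {κ : Fin l → ℕ × ℤ} {ρ t w s : ℤ} {e : Edge}
    (hd : FKS.Dom (FKN.bx (2 * n)) (FKN.an R n) (ExO' n) (fun i : Fin l => {sc l R i}) (-(n : ℤ)) n ρ (2 * t))
    (hg : GCell κ (-(n : ℤ)) n ρ t) (hw : w ≤ t) (hs : -(8 * t) ≤ s ∧ s ≤ 8 * t) (he : e ∈ FKN.an R n) {j : Fin l}
    (hz : e ∈ FKN.bxa ((FKS.rV (κ j).1).symm (2 * t * (κ j).2 + s, -(n : ℤ) - 10 * t - 1)) w) : False := by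
  have h1 := bxa_frame (k := (κ j).1) (p := (2 * t * (κ j).2 + s, -(n : ℤ) - 10 * t - 1)) (w := w) hz
  have ht : 1 ≤ t := hg.1.1
  have h2 : 2 * t * (κ j).2 + s - w ≤ (FKS.rE (κ j).1 e).1 ∧ (FKS.rE (κ j).1 e).1 ≤ 2 * t * (κ j).2 + s + w ∧
      -(n : ℤ) - 10 * t - 1 - w ≤ (FKS.rE (κ j).1 e).2.1 ∧ (FKS.rE (κ j).1 e).2.1 ≤ -(n : ℤ) - 10 * t - 1 + w := by
    rw [mem_box] at h1
    rcases h1 with h | h <;> exact ⟨by linarith [h.2.1], by linarith [h.2.2.1], by linarith [h.2.2.2.1], by linarith [h.2.2.2.2]⟩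
  have h3 := dom_low hd hg he (i := j) ⟨by linarith [h2.1], by linarith [h2.2.1]⟩ (by linarith [h2.2.2.1])
  linarith [h2.2.2.2]

theorem out_state {l R : ℕ} (hl : 1 ≤ l) (hR : l + 2 ≤ R) (K : ℕ) : ∃ (C : ℝ) (n0 : ℕ), 0 < C ∧
    ∀ (n r0 ρ : ℕ) (κ : Fin l → ℕ × ℤ), n0 ≤ n → 2 ≤ r0 → 6000000 * r0 ≤ ρ → R + ρ + 3 ≤ n → n ≤ K * r0 →
      κ ∈ FKS.Cells l (60000 * (r0 : ℤ)) n ρ →
      IPC.Pr (1 / 2) (FKN.bx (2 * n)) (FKS.Land (FKN.an R n) (fun i : Fin l => {sc l R i}) (-(n : ℤ)) (60000 * (r0 : ℤ)) κ) ≤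
        C * wE l R (3 * (n + 300000 * r0 + 1)) := by
  obtain ⟨c, hc, hc1, hRB⟩ := FKN.rb_half
  obtain ⟨C1, n0, hC1, h⟩ := out_ext_l hl hR (K + 300001)
  have hcp : 0 < (c ^ (8 * (l * (TG + 2))))⁻¹ := inv_pos.2 (pow_pos hc _)
  refine ⟨(c ^ (8 * (l * (TG + 2))))⁻¹ * C1, n0, mul_pos hcp hC1, ?_⟩
  intro n r0 ρ κ hn hr hρ hnρ hK hκ
  obtain ⟨t, ht⟩ : ∃ t : ℕ, t = 30000 * r0 := ⟨_, rfl⟩
  have htz : ((t : ℕ) : ℤ) = 30000 * (r0 : ℤ) := by rw [ht]; push_cast; ring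
  have h2t : (60000 * (r0 : ℤ)) = 2 * ((t : ℕ) : ℤ) := by rw [htz]; ring
  rw [h2t] at hκ ⊢
  have hg : GCell κ (-(n : ℤ)) n ρ t := by
    refine gcell_of ?_ ?_ ?_ ?_ hκ
    · omega
    · omega
    · omega
    · rw [abs_neg, Nat.abs_cast]
  have hd : FKS.Dom (FKN.bx (2 * n)) (FKN.an R n) (ExO' n) (fun i : Fin l => {sc l R i}) (-(n : ℤ)) n ρ (2 * (t : ℤ)) :=
    dom_out hR (by omega) (by omega) (by omega)
  have hmono : ∀ a b : ℕ, a ≤ b → FKN.bx a ⊆ FKN.bx b := fun a b hab => D_bx_mono hab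
  have hRn : R < n := by omega
  -- the regions
  have hos : ∀ e, e ∈ OS κ (-(n : ℤ)) t ∪ DS κ (-(n : ℤ)) t →
      e ∈ FKN.bx (n + 300000 * r0 + 1) ∧ e ∉ FKN.bx R := by
    intro e he
    obtain ⟨h1, h2⟩ := os_box hg hRn he
    exact ⟨hmono _ _ (by omega) h1, h2⟩
  have han : ∀ e, e ∈ FKN.an R n → e ∈ FKN.bx (n + 300000 * r0 + 1) ∧ e ∉ FKN.bx R := by
    intro e he
    unfold FKN.an at he
    rw [Finset.mem_sdiff] at he
    exact ⟨hmono _ _ (by omega) he.1, he.2⟩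
  have hE : FKN.an R n ∪ (OS κ (-(n : ℤ)) t ∪ DS κ (-(n : ℤ)) t) ⊆ FKN.bx (2 * n) := by
    intro e he
    have h1 : e ∈ FKN.bx (n + 300000 * r0 + 1) := by
      rcases Finset.mem_union.1 he with h1 | h1
      · exact (han e h1).1
      · exact (hos e h1).1
    exact hmono _ _ (by omega) h1
  obtain ⟨σ, τ, hcyc⟩ := cyc_out hg
  have hw : (300 * (7 * (r0 : ℤ))) ≤ (t : ℤ) := by omega
  have hFp : FKN.an R n ∪ OS κ (-(n : ℤ)) t ⊆ (FKN.bx (n + 300000 * r0 + 1) \ FKN.bx R) \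
      FKN.bxs (gzd κ (-(n : ℤ)) t ∘ τ) (300 * (7 * (r0 : ℤ))) := by
    rw [bxs_perm]
    intro e he
    rw [Finset.mem_sdiff, Finset.mem_sdiff]
    rcases Finset.mem_union.1 he with h1 | h1
    · refine ⟨han e h1, fun h2 => ?_⟩
      unfold FKN.bxs at h2
      obtain ⟨j, -, hj⟩ := Finset.mem_biUnion.1 h2
      exact CJb_low (s := -3 * (t : ℤ)) hd hg hw ⟨by omega, by omega⟩ h1 (j := j) (by
        have h3 : (2 * (t : ℤ) * (κ j).2 + -3 * (t : ℤ)) = 2 * (t : ℤ) * (κ j).2 - 3 * (t : ℤ) := by ring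
        rw [h3]
        exact hj)
    · exact ⟨hos e (Finset.mem_union_left _ h1), fun h2 => Finset.disjoint_left.1 (os_zd hg hw) h1 h2⟩
  have hFm : FKN.an R n ∪ DS κ (-(n : ℤ)) t ⊆ (FKN.bx (n + 300000 * r0 + 1) \ FKN.bx R) \
      FKN.bxs (gzo κ (-(n : ℤ)) t ∘ σ) (300 * (7 * (r0 : ℤ))) := by
    rw [bxs_perm]
    intro e he
    rw [Finset.mem_sdiff, Finset.mem_sdiff]
    rcases Finset.mem_union.1 he with h1 | h1
    · refine ⟨han e h1, fun h2 => ?_⟩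
      unfold FKN.bxs at h2
      obtain ⟨j, -, hj⟩ := Finset.mem_biUnion.1 h2
      exact CJb_low (s := 5 * (t : ℤ)) hd hg hw ⟨by omega, by omega⟩ h1 (j := j) hj
    · exact ⟨hos e (Finset.mem_union_right _ h1), fun h2 => Finset.disjoint_left.1 (ds_zo hg hw) h1 h2⟩
  have h1 := land_pr hc hc1 hRB htz (by exact_mod_cast hr) hd hg hE (FKN.nearS_inc (sv l R) 0)
    (FKN.nearS_inc (sf l R) 0) (fun η s => (src_out η s).1) (fun η s => (src_out η s).2)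
  have h2 := near_st (E := FKN.bx (2 * n)) hFp hFm (FKN.nearS_inc (sv l R) 0) (FKN.nearS_inc (sf l R) 0)
    (fun η s σ => (perm_out η s σ).1) (fun η s σ => (perm_out η s σ).2) (zo := gzo κ (-(n : ℤ)) t)
    (zd := gzd κ (-(n : ℤ)) t) (r := 7 * (r0 : ℤ)) σ τ
  have hsub : ((FKN.bx (n + 300000 * r0 + 1) \ FKN.bx R) \
      FKN.bxs (gzd κ (-(n : ℤ)) t ∘ τ) (300 * (7 * (r0 : ℤ)))) ∪ ((FKN.bx (n + 300000 * r0 + 1) \ FKN.bx R) \
      FKN.bxs (gzo κ (-(n : ℤ)) t ∘ σ) (300 * (7 * (r0 : ℤ)))) ⊆ FKN.bx (n + 300000 * r0 + 1) :=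
    Finset.union_subset (Finset.sdiff_subset.trans Finset.sdiff_subset)
      (Finset.sdiff_subset.trans Finset.sdiff_subset)
  have h3 := FKN.pr_StE (1 / 2) (FKN.nearS (sv l R) 0) (FKN.nearT (gzo κ (-(n : ℤ)) t ∘ σ) (7 * (r0 : ℤ)))
    (FKN.nearS (sf l R) 0) (FKN.nearT (gzd κ (-(n : ℤ)) t ∘ τ) (7 * (r0 : ℤ)))
    (hsub.trans (hmono _ (2 * n) (by omega))) hsub
  have hcyc2 : FKN.CycR (gzo κ (-(n : ℤ)) t ∘ σ) (gzd κ (-(n : ℤ)) t ∘ τ) ((n + 300000 * r0 + 1 : ℕ) : ℤ)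
      (30000 * ((7 * r0 : ℕ) : ℤ)) := by
    have e1 : ((n + 300000 * r0 + 1 : ℕ) : ℤ) = (n : ℤ) + 10 * (t : ℤ) + 1 := by omega
    rw [e1]
    exact cycR_mono (by omega) (by omega) hcyc
  have h4 := h (n + 300000 * r0 + 1) (7 * r0) (gzo κ (-(n : ℤ)) t ∘ σ) (gzd κ (-(n : ℤ)) t ∘ τ)
    (by omega) (by omega) (by
      have : K * r0 ≤ K * r0 := le_refl _
      nlinarith [Nat.zero_le (K * r0)]) hcyc2
  have e7 : (((7 * r0 : ℕ)) : ℤ) = 7 * (r0 : ℤ) := by push_cast; ring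
  rw [e7] at h4
  have h5 : IPC.Pr (1 / 2) (FKN.bx (2 * n)) (FKS.Land (FKN.an R n) (fun i : Fin l => {sc l R i}) (-(n : ℤ)) (2 * (t : ℤ)) κ) ≤
      (c ^ (8 * (l * (TG + 2))))⁻¹ * (C1 * wE l R (3 * (n + 300000 * r0 + 1))) := by
    refine h1.trans (mul_le_mul_of_nonneg_left ?_ hcp.le)
    refine h2.trans ?_
    refine le_trans (le_of_eq ?_) h4
    exact h3
  rw [mul_assoc]
  exact h5

end EV
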