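import Pool.Agent.Lib.MP_216314_pr.EV.GE

/-!
# Even arms: the landing state inside gives the canonical state

`t = 30000 r0`, `m = 2 t = 60000 r0`, `y = r`, `h = r - 1`, `D = D0 r n`, `r' = r - 10 t - 1 = r - 300000 r0 - 1`, `St i = StI n`.
* `src_in`: `s = vtx p` with `p ∈ StI n`: `nrm (vtx p) = n`: `bdP n`. `s = fce p`: `edgeIn p ∉ bx n`, `nrm (vtx p) = n`: the face `fce p` is a face of `edgeIn p` (`FKS.fce_mem_in`), `vtx p` is an end of it (`vtx_mem_in`), so the edge leaves the box: by the four types of corners: SE `(2x+1, 2y)`, `edgeIn = (x, y-1, true)`: not in `bx n`, so `y = -n`, `fce = (x, y - 1)`: `|2 (y-1) + 1| = 2 n + 1`,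
  `|2 x + 1| ≤ 2 n + 1`; NE: `edgeIn = (x, y, false)`, `x = n`, `fce = (x, y)`, `|2 y + 1| ≤ 2 n + 1`; NW: `edgeIn = (x, y, true)`, `y = n`, `fce = (x - 1, y)`; SW: `edgeIn = (x-1, y, false)`, `x = -n`, `fce = (x-1, y-1)`. (`edgeIn_SE` ..., `SBas_fSE` ...)
* `perm_in`: clear.
* `os_box_in`: frames: `OS κ r t`, `DS κ r t`: `rE k e` in a box with abscissae in `[x - 6 t - 1, x + 8 t]`, ordinates in `[r - 10 t, r]`: in `bx n` (`|x| + 8 t ≤ r ≤ n`); not in `bx r'`, `r' = r - 10 t - 1`, because both ends have ordinate `≥ r - 10 t > r'`.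
* `in_state`: `GCell κ r (r - 1) ρ t` by `gcell_of`. `land_pr` with `E = bx n`, `dom_in`; `near_st` with `σ`, `τ` from `cyc_in`, `Fp' = an r' n \ bxs (gzd ∘ τ) (300 * (7 r0))`, `Fm' = an r' n \ bxs (gzo ∘ σ) (300 * (7 r0))`: `D0 r n ⊆ an r' n` (an end of norm `≥ r > r'`), `OS ⊆ an r' n` (`os_box_in`), disjointness as in `CJ.out_state` (`os_zd`, `ds_zo`, `dom_low`, `bxa_frame`).
  `FKN.pr_StE` changes `bx n` to `an r' n`. `inn_ext_l` (DMain) with `s := 7 r0`, `r := r'`, `k := K`: `r' ≤ r ≤ K r0 ≤ 2 k (7 r0)`, `8 r' ≤ n`, `CycR .. r' (30000 * (7 r0))` by `cycR_mono` (`8 t = 240000 r0`).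
-/

set_option autoImplicit false

noncomputable section

namespace EV

open Finset FKI FKP

private theorem CKa_nrm {v : FKI.V} {w : ℤ} : FKN.nrm v ≤ w ↔ (-w ≤ v.1 ∧ v.1 ≤ w) ∧ (-w ≤ v.2 ∧ v.2 ≤ w) := by
  unfold FKN.nrm
  rw [max_le_iff, abs_le, abs_le]

private theorem CKa_bx {n : ℕ} {e : Edge} : e ∈ FKN.bx n ↔ FKN.nrm (ea e) ≤ n ∧ FKN.nrm (eb e) ≤ n := by
  unfold FKN.bx
  rw [mem_box, CKa_nrm, CKa_nrm]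
  obtain ⟨x, y, t⟩ := e
  cases t
  · show ((false = false ∧ -(n : ℤ) ≤ x ∧ x < n ∧ -(n : ℤ) ≤ y ∧ y ≤ n) ∨
      (false = true ∧ -(n : ℤ) ≤ x ∧ x ≤ n ∧ -(n : ℤ) ≤ y ∧ y < n)) ↔
      ((-(n : ℤ) ≤ x ∧ x ≤ n) ∧ (-(n : ℤ) ≤ y ∧ y ≤ n)) ∧
      ((-(n : ℤ) ≤ x + 1 ∧ x + 1 ≤ n) ∧ (-(n : ℤ) ≤ y ∧ y ≤ n))
    constructor
    · rintro (h | h)
      · omega
      · exact absurd h.1 (by decide)
    · intro h
      exact Or.inl ⟨rfl, by omega, by omega, by omega, by omega⟩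
  · show ((true = false ∧ -(n : ℤ) ≤ x ∧ x < n ∧ -(n : ℤ) ≤ y ∧ y ≤ n) ∨
      (true = true ∧ -(n : ℤ) ≤ x ∧ x ≤ n ∧ -(n : ℤ) ≤ y ∧ y < n)) ↔
      ((-(n : ℤ) ≤ x ∧ x ≤ n) ∧ (-(n : ℤ) ≤ y ∧ y ≤ n)) ∧
      ((-(n : ℤ) ≤ x ∧ x ≤ n) ∧ (-(n : ℤ) ≤ y + 1 ∧ y + 1 ≤ n))
    constructor
    · rintro (h | h)
      · exact absurd h.1 (by decide)
      · omega
    · intro h
      exact Or.inr ⟨rfl, by omega, by omega, by omega, by omega⟩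

private theorem CKa_max {a b c : ℤ} (h1 : -c ≤ a ∧ a ≤ c) (h2 : -c ≤ b ∧ b ≤ c)
    (h3 : a = c ∨ a = -c ∨ b = c ∨ b = -c) : max |a| |b| = c := by
  apply le_antisymm
  · exact max_le (abs_le.2 h1) (abs_le.2 h2)
  · rcases h3 with h | h | h | h
    · exact le_max_of_le_left (h ▸ le_abs_self a)
    · refine le_max_of_le_left ?_
      have h4 := neg_le_abs a
      omega
    · exact le_max_of_le_right (h ▸ le_abs_self b)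
    · refine le_max_of_le_right ?_
      have h4 := neg_le_abs b
      omega

/-- an edge at a vertex of `bx n` which is not in `bx n` -/
private theorem CKa_out {n : ℕ} {e : Edge} (he : e ∉ FKN.bx n) :
    ¬ (((-(n : ℤ) ≤ (ea e).1 ∧ (ea e).1 ≤ n) ∧ (-(n : ℤ) ≤ (ea e).2 ∧ (ea e).2 ≤ n)) ∧
      ((-(n : ℤ) ≤ (eb e).1 ∧ (eb e).1 ≤ n) ∧ (-(n : ℤ) ≤ (eb e).2 ∧ (eb e).2 ≤ n))) := by
  intro h
  apply he
  rw [CKa_bx, CKa_nrm, CKa_nrm]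
  exact h

private theorem CKa_fce {n : ℕ} {p : FKI.V} (h1 : edgeIn p ∉ FKN.bx n) (h2 : FKN.nrm (vtx p) = n) :
    max |2 * (FKS.fce p).1 + 1| |2 * (FKS.fce p).2 + 1| = 2 * n + 1 := by
  have h3 := CKa_nrm.1 h2.le
  have h4 := CKa_out h1
  rcases corner_cases p with ⟨x, y, rfl⟩ | ⟨x, y, rfl⟩ | ⟨x, y, rfl⟩ | ⟨x, y, rfl⟩
  · rw [FKS.SBas_vSE] at h3
    rw [edgeIn_SE] at h4
    rw [FKS.SBas_fSE]
    have h5 : (-(n : ℤ) ≤ x ∧ x ≤ n) ∧ (-(n : ℤ) ≤ y ∧ y ≤ n) := h3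
    have h6 : ¬ (((-(n : ℤ) ≤ x ∧ x ≤ n) ∧ (-(n : ℤ) ≤ y - 1 ∧ y - 1 ≤ n)) ∧
      ((-(n : ℤ) ≤ x ∧ x ≤ n) ∧ (-(n : ℤ) ≤ y - 1 + 1 ∧ y - 1 + 1 ≤ n))) := h4
    show max |2 * x + 1| |2 * (y - 1) + 1| = 2 * (n : ℤ) + 1
    exact CKa_max (by omega) (by omega) (by omega)
  · rw [FKS.SBas_vNE] at h3
    rw [edgeIn_NE] at h4
    rw [FKS.SBas_fNE]
    have h5 : (-(n : ℤ) ≤ x ∧ x ≤ n) ∧ (-(n : ℤ) ≤ y ∧ y ≤ n) := h3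
    have h6 : ¬ (((-(n : ℤ) ≤ x ∧ x ≤ n) ∧ (-(n : ℤ) ≤ y ∧ y ≤ n)) ∧
      ((-(n : ℤ) ≤ x + 1 ∧ x + 1 ≤ n) ∧ (-(n : ℤ) ≤ y ∧ y ≤ n))) := h4
    show max |2 * x + 1| |2 * y + 1| = 2 * (n : ℤ) + 1
    exact CKa_max (by omega) (by omega) (by omega)
  · rw [FKS.SBas_vNW] at h3
    rw [edgeIn_NW] at h4
    rw [FKS.SBas_fNW]
    have h5 : (-(n : ℤ) ≤ x ∧ x ≤ n) ∧ (-(n : ℤ) ≤ y ∧ y ≤ n) := h3
    have h6 : ¬ (((-(n : ℤ) ≤ x ∧ x ≤ n) ∧ (-(n : ℤ) ≤ y ∧ y ≤ n)) ∧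
      ((-(n : ℤ) ≤ x ∧ x ≤ n) ∧ (-(n : ℤ) ≤ y + 1 ∧ y + 1 ≤ n))) := h4
    show max |2 * (x - 1) + 1| |2 * y + 1| = 2 * (n : ℤ) + 1
    exact CKa_max (by omega) (by omega) (by omega)
  · rw [FKS.SBas_vSW] at h3
    rw [edgeIn_SW] at h4
    rw [FKS.SBas_fSW]
    have h5 : (-(n : ℤ) ≤ x ∧ x ≤ n) ∧ (-(n : ℤ) ≤ y ∧ y ≤ n) := h3
    have h6 : ¬ (((-(n : ℤ) ≤ x - 1 ∧ x - 1 ≤ n) ∧ (-(n : ℤ) ≤ y ∧ y ≤ n)) ∧
      ((-(n : ℤ) ≤ x - 1 + 1 ∧ x - 1 + 1 ≤ n) ∧ (-(n : ℤ) ≤ y ∧ y ≤ n))) := h4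
    show max |2 * (x - 1) + 1| |2 * (y - 1) + 1| = 2 * (n : ℤ) + 1
    exact CKa_max (by omega) (by omega) (by omega)

private theorem CKa_rV (k : ℕ) (v : FKI.V) : FKN.nrm (FKS.rV k v) = FKN.nrm v := by
  induction k with
  | zero => rfl
  | succ k ih =>
    show FKN.nrm (FKS.rotV (FKS.rV k v)) = _
    rw [← ih]
    show max |-(FKS.rV k v).2| |(FKS.rV k v).1| = max |(FKS.rV k v).1| |(FKS.rV k v).2|
    rw [abs_neg, max_comm]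

/-- the ends of an edge of a box -/
private theorem CKa_ends {x1 x2 y1 y2 : ℤ} {e : Edge} (he : e ∈ box x1 x2 y1 y2) :
    ((x1 ≤ (ea e).1 ∧ (ea e).1 ≤ x2) ∧ (y1 ≤ (ea e).2 ∧ (ea e).2 ≤ y2)) ∧
    ((x1 ≤ (eb e).1 ∧ (eb e).1 ≤ x2) ∧ (y1 ≤ (eb e).2 ∧ (eb e).2 ≤ y2)) := by
  rw [mem_box] at he
  obtain ⟨x, y, t⟩ := e
  cases t
  · show ((x1 ≤ x ∧ x ≤ x2) ∧ (y1 ≤ y ∧ y ≤ y2)) ∧ ((x1 ≤ x + 1 ∧ x + 1 ≤ x2) ∧ (y1 ≤ y ∧ y ≤ y2))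
    rcases he with ⟨-, h1, h2, h3, h4⟩ | ⟨h, -⟩
    · have h1' : x1 ≤ x := h1
      have h2' : x < x2 := h2
      have h3' : y1 ≤ y := h3
      have h4' : y ≤ y2 := h4
      omega
    · exact absurd h Bool.false_ne_true
  · show ((x1 ≤ x ∧ x ≤ x2) ∧ (y1 ≤ y ∧ y ≤ y2)) ∧ ((x1 ≤ x ∧ x ≤ x2) ∧ (y1 ≤ y + 1 ∧ y + 1 ≤ y2))
    rcases he with ⟨h, -⟩ | ⟨-, h1, h2, h3, h4⟩
    · exact absurd h.symm Bool.false_ne_true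
    · have h1' : x1 ≤ x := h1
      have h2' : x ≤ x2 := h2
      have h3' : y1 ≤ y := h3
      have h4' : y < y2 := h4
      omega

theorem src_in {l n : ℕ} (η : Finset Edge) (s : Fin l → FKI.V) :
    ((∀ i, ∃ p ∈ StI n, s i = vtx p) → FKN.bdP n η s) ∧ ((∀ i, ∃ p ∈ StI n, s i = FKS.fce p) → FKN.bdD n η s) := by
  constructor
  · intro h i
    obtain ⟨p, hp, hs⟩ := h i
    rw [hs]
    exact hp.2.1
  · intro h i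
    obtain ⟨p, hp, hs⟩ := h i
    rw [hs]
    exact CKa_fce hp.1 hp.2.1

theorem perm_in {l n : ℕ} (η : Finset Edge) (s : Fin l → FKI.V) (σ : Equiv.Perm (Fin l)) :
    (FKN.bdP n η s → FKN.bdP n η (s ∘ σ)) ∧ (FKN.bdD n η s → FKN.bdD n η (s ∘ σ)) := by
  exact ⟨fun h i => h (σ i), fun h i => h (σ i)⟩

theorem os_box_in {l r n : ℕ} {κ : Fin l → ℕ × ℤ} {ρ : ℤ} {t : ℕ} (hc : GCell κ (r : ℤ) ((r : ℤ) - 1) ρ t) (hn : r ≤ n) {e : Edge}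
    (he : e ∈ OS κ (r : ℤ) t ∪ DS κ (r : ℤ) t) : e ∈ FKN.bx n ∧ e ∉ FKN.bx (r - 10 * t - 1) := by
  obtain ⟨⟨ht, hρ, hr, -⟩, hx, -⟩ := hc
  have key : ∃ (k : ℕ) (x1 x2 : ℤ), -(r : ℤ) ≤ x1 ∧ x2 ≤ r ∧
      FKS.rE k e ∈ box x1 x2 ((r : ℤ) - 10 * t) r := by
    rcases mem_union.1 he with h | h
    · unfold OS at h
      obtain ⟨i, -, h2⟩ := mem_biUnion.1 h
      rw [mem_unr] at h2
      have h3 := abs_le.1 (hx i).2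
      exact ⟨_, _, _, by omega, by omega, h2⟩
    · unfold DS at h
      obtain ⟨i, -, h2⟩ := mem_biUnion.1 h
      rw [mem_unr] at h2
      have h3 := abs_le.1 (hx i).2
      exact ⟨_, _, _, by omega, by omega, h2⟩
  obtain ⟨k, x1, x2, h1, h2, h3⟩ := key
  obtain ⟨⟨⟨a1, a2⟩, a3, a4⟩, ⟨b1, b2⟩, b3, b4⟩ := CKa_ends h3
  have na : FKN.nrm (ea (FKS.rE k e)) ≤ n := CKa_nrm.2 (by omega)
  have nb : FKN.nrm (eb (FKS.rE k e)) ≤ n := CKa_nrm.2 (by omega)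
  have ha : ¬ FKN.nrm (ea (FKS.rE k e)) ≤ ((r - 10 * t - 1 : ℕ) : ℤ) := by
    intro h
    have h4 := (CKa_nrm.1 h).2.2
    omega
  have hb : ¬ FKN.nrm (eb (FKS.rE k e)) ≤ ((r - 10 * t - 1 : ℕ) : ℤ) := by
    intro h
    have h4 := (CKa_nrm.1 h).2.2
    omega
  rw [CKa_bx, CKa_bx]
  rcases ends_rE k e with ⟨e1, e2⟩ | ⟨e1, e2⟩
  · rw [e1, CKa_rV] at na ha
    rw [e2, CKa_rV] at nb
    exact ⟨⟨na, nb⟩, fun h => ha h.1⟩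
  · rw [e1, CKa_rV] at na ha
    rw [e2, CKa_rV] at nb
    exact ⟨⟨nb, na⟩, fun h => ha h.2⟩

end EV
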