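import Pool.Agent.Lib.MP_216314_pr.EV.GFa
import Pool.Agent.Lib.MP_216314_pr.EV.GFb

/-!
# Even arms: the landing points are in cyclic order

* `cyc_in`: `θ i = base k - x i / N`, open at `θ - 5 t / N`, dual at `θ + 3 t / N`: `cyc_abs1` with `a = -5 t / N`, `b = 3 t / N`, `g = 8 t / N`. Here `h = r - 1`, `|x i| ≤ r - 1 - ρ + 2 t`, `N - |x i| ≥ ρ - 12 t ≥ 188 t`, `y = r`, `y - 10 t - 1 = N`.
-/

set_option autoImplicit false

noncomputable section

namespace EV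

open Finset FKI FKP

private theorem GFd_bang {k k' : ℕ} (hk : k < 4) (hk' : k' < 4) (h : k ≠ k') :
    2 ≤ |bang k - bang k'| ∧ |bang k - bang k'| ≤ 6 := by
  have e0 : bang 0 = 3 := by unfold bang; rw [if_pos rfl]
  have e1 : bang 1 = 1 := by unfold bang; rw [if_neg (by decide), if_pos rfl]
  have e2 : bang 2 = 7 := by unfold bang; rw [if_neg (by decide), if_neg (by decide), if_pos rfl]
  have e3 : bang 3 = 5 := by unfold bang; rw [if_neg (by decide), if_neg (by decide), if_neg (by decide)]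
  have c : k = 0 ∨ k = 1 ∨ k = 2 ∨ k = 3 := by omega
  have c' : k' = 0 ∨ k' = 1 ∨ k' = 2 ∨ k' = 3 := by omega
  rcases c with rfl | rfl | rfl | rfl <;> rcases c' with rfl | rfl | rfl | rfl <;>
    first
    | exact absurd rfl h
    | (simp only [e0, e1, e2, e3]; norm_num)

theorem cyc_in {l : ℕ} {κ : Fin l → ℕ × ℤ} {r ρ t : ℤ} (hc : GCell κ r (r - 1) ρ t) :
    ∃ σ τ : Equiv.Perm (Fin l), FKN.CycR (gzo κ r t ∘ σ) (gzd κ r t ∘ τ) (r - 10 * t - 1) (8 * t) := by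
  obtain ⟨⟨ht, hρ, hρr, -⟩, hx, hpos⟩ := hc
  obtain ⟨N, hN⟩ : ∃ N : ℤ, N = r - 10 * t - 1 := ⟨_, rfl⟩
  have hN190 : 190 * t ≤ N := by omega
  have hN0 : 0 < N := by omega
  have hNR : (0 : ℝ) < N := by exact_mod_cast hN0
  have htR : (1 : ℝ) ≤ t := by exact_mod_cast ht
  have hxN : ∀ i, |2 * t * (κ i).2| ≤ N - 188 * t := by
    intro i
    have h1 := (hx i).2
    omega
  have hxR : ∀ i, |((2 * t * (κ i).2 : ℤ) : ℝ) / N| ≤ 1 - 188 * (t / N) := by
    intro i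
    rw [abs_div, abs_of_pos hNR, div_le_iff₀ hNR]
    have h1 : ((|2 * t * (κ i).2| : ℤ) : ℝ) ≤ ((N - 188 * t : ℤ) : ℝ) := by exact_mod_cast hxN i
    rw [Int.cast_abs] at h1
    refine h1.trans (le_of_eq ?_)
    push_cast
    field_simp
  have ht0 : (0 : ℝ) < t / N := div_pos (by linarith) hNR
  have ht1 : 190 * ((t : ℝ) / N) ≤ 1 := by
    rw [← mul_div_assoc, div_le_one hNR]
    exact_mod_cast hN190
  obtain ⟨θ, hθ⟩ : ∃ θ : Fin l → ℝ, ∀ i, θ i = bang (κ i).1 - ((2 * t * (κ i).2 : ℤ) : ℝ) / N :=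
    ⟨_, fun _ => rfl⟩
  have hgap : ∀ i j, i ≠ j → 40 * ((t : ℝ) / N) ≤ |θ i - θ j| ∧ |θ i - θ j| ≤ 8 - 40 * (t / N) := by
    intro i j hij
    have a1 := abs_le.1 (hxR i)
    have a2 := abs_le.1 (hxR j)
    by_cases hk : (κ i).1 = (κ j).1
    · have h1 := hpos i j hij hk
      have h2 : θ i - θ j = -((2 * t * ((κ i).2 - (κ j).2) : ℤ) : ℝ) / N := by
        rw [hθ, hθ, hk]
        push_cast
        ring
      have h3 : |θ i - θ j| = 2 * (t / N) * ((|(κ i).2 - (κ j).2| : ℤ) : ℝ) := by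
        rw [h2, abs_div, abs_neg, abs_of_pos hNR]
        push_cast
        rw [abs_mul, abs_of_nonneg (show (0 : ℝ) ≤ 2 * t by linarith)]
        ring
      constructor
      · rw [h3]
        have h4 : (20 : ℝ) ≤ ((|(κ i).2 - (κ j).2| : ℤ) : ℝ) := by exact_mod_cast h1
        nlinarith
      · rw [hθ, hθ, hk, abs_le]
        constructor <;> linarith
    · obtain ⟨h1, h2⟩ := GFd_bang (hx i).1 (hx j).1 hk
      have h3 : θ i - θ j = (bang (κ i).1 - bang (κ j).1) -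
          (((2 * t * (κ i).2 : ℤ) : ℝ) / N - ((2 * t * (κ j).2 : ℤ) : ℝ) / N) := by
        rw [hθ, hθ]
        ring
      have h4 : |((2 * t * (κ i).2 : ℤ) : ℝ) / N - ((2 * t * (κ j).2 : ℤ) : ℝ) / N| ≤ 2 - 376 * (t / N) := by
        rw [abs_le]
        constructor <;> linarith
      rw [h3]
      constructor
      · have h5 := abs_sub_abs_le_abs_sub (bang (κ i).1 - bang (κ j).1)
          (((2 * t * (κ i).2 : ℤ) : ℝ) / N - ((2 * t * (κ j).2 : ℤ) : ℝ) / N)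
        linarith
      · have h5 := abs_sub (bang (κ i).1 - bang (κ j).1)
          (((2 * t * (κ i).2 : ℤ) : ℝ) / N - ((2 * t * (κ j).2 : ℤ) : ℝ) / N)
        linarith
  obtain ⟨σ, hσ⟩ := sort_gap (θ := θ) (δ := 40 * ((t : ℝ) / N)) (by linarith) (fun i j hij => (hgap i j hij).1)
  have hle : ∀ i j, (θ ∘ σ) j - (θ ∘ σ) i ≤ 8 - 40 * ((t : ℝ) / N) := by
    intro i j
    show θ (σ j) - θ (σ i) ≤ _
    by_cases hij : σ j = σ i
    · rw [hij, sub_self]
      linarith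
    · exact (le_abs_self _).trans (hgap _ _ hij).2
  obtain ⟨c1, c2⟩ := cyc_abs1 (θ := θ ∘ σ) (δ := 40 * ((t : ℝ) / N)) (a := -(5 * ((t : ℝ) / N))) (b := 3 * ((t : ℝ) / N))
    (g := 8 * ((t : ℝ) / N)) (by linarith) (by linarith) hσ hle (by linarith) (by linarith)
  have hg : (((8 * t : ℤ) : ℝ)) / ((N : ℤ) : ℝ) = 8 * ((t : ℝ) / N) := by
    push_cast
    ring
  refine ⟨σ, σ, fun i => θ (σ i) + -(5 * ((t : ℝ) / N)), fun i => θ (σ i) + 3 * ((t : ℝ) / N), ?_, ?_, ?_, ?_⟩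
  · intro i
    have h1 := ang_in (hx (σ i)).1 (N := N) (u := 2 * t * (κ (σ i)).2 + 5 * t) hN0 (by
      have h2 := abs_le.1 (hxN (σ i))
      rw [abs_le]
      constructor <;> omega)
    have h3 : bang (κ (σ i)).1 - ((2 * t * (κ (σ i)).2 + 5 * t : ℤ) : ℝ) / N = θ (σ i) + -(5 * ((t : ℝ) / N)) := by
      rw [hθ]
      push_cast
      ring
    rw [h3] at h1
    rw [← hN]
    have h4 : (gzo κ r t ∘ σ) i = (FKS.rV (κ (σ i)).1).symm (2 * t * (κ (σ i)).2 + 5 * t, N) := by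
      rw [hN]
      rfl
    rw [h4]
    exact h1
  · intro i
    have h1 := ang_in (hx (σ i)).1 (N := N) (u := 2 * t * (κ (σ i)).2 - 3 * t) hN0 (by
      have h2 := abs_le.1 (hxN (σ i))
      rw [abs_le]
      constructor <;> omega)
    have h3 : bang (κ (σ i)).1 - ((2 * t * (κ (σ i)).2 - 3 * t : ℤ) : ℝ) / N = θ (σ i) + 3 * ((t : ℝ) / N) := by
      rw [hθ]
      push_cast
      ring
    rw [h3] at h1
    rw [← hN]
    have h4 : (gzd κ r t ∘ σ) i = (FKS.rV (κ (σ i)).1).symm (2 * t * (κ (σ i)).2 - 3 * t, N) := by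
      rw [hN]
      rfl
    rw [h4]
    exact h1
  · intro i j hij
    rw [← hN, hg]
    exact c1 i j hij
  · intro i j hij
    rw [← hN, hg]
    exact c2 i j hij

end EV
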