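import Pool.Agent.Lib.MP_216314_pr.EV.CKa
import Pool.Agent.Lib.MP_216314_pr.EV.CJa
import Pool.Agent.Lib.MP_216314_pr.EV.GFd
import Pool.Agent.Lib.MP_216314_pr.EV.CEd

/-!
# Even arms: the landing state inside gives the canonical state

`t = 30000 r0`, `m = 2 t = 60000 r0`, `y = r`, `h = r - 1`, `D = D0 r n`, `r' = r - 10 t - 1 = r - 300000 r0 - 1`, `St i = StI n`.
* `in_state`: `GCell κ r (r - 1) ρ t` by `gcell_of`. `land_pr` with `E = bx n`, `dom_in`; `near_st` with `σ`, `τ` from `cyc_in`, `Fp' = an r' n \ bxs (gzd ∘ τ) (300 * (7 r0))`, `Fm' = an r' n \ bxs (gzo ∘ σ) (300 * (7 r0))`: `D0 r n ⊆ an r' n` (an end of norm `≥ r > r'`), `OS ⊆ an r' n` (`os_box_in`), disjointness as in `CJ.out_state` (`os_zd`, `ds_zo`, `dom_low`, `bxa_frame`).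
  `FKN.pr_StE` changes `bx n` to `an r' n`. `inn_ext_l` (DMain) with `s := 7 r0`, `r := r'`, `k := K`: `r' ≤ r ≤ K r0 ≤ 2 k (7 r0)`, `8 r' ≤ n`, `CycR .. r' (30000 * (7 r0))` by `cycR_mono` (`8 t = 240000 r0`).
-/

set_option autoImplicit false

noncomputable section

namespace EV

open Finset FKI FKP

private theorem CKb_low {l r n : ℕ} {κ : Fin l → ℕ × ℤ} {ρ t w s : ℤ} {e : Edge}
    (hd : FKS.Dom (FKN.bx n) (D0 r n) (ExI' r) (fun _ : Fin l => StI n) (r : ℤ) ((r : ℤ) - 1) ρ (2 * t))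
    (hg : GCell κ (r : ℤ) ((r : ℤ) - 1) ρ t) (hw : w ≤ t) (hs : -(8 * t) ≤ s ∧ s ≤ 8 * t) (he : e ∈ D0 r n) {j : Fin l}
    (hz : e ∈ FKN.bxa ((FKS.rV (κ j).1).symm (2 * t * (κ j).2 + s, (r : ℤ) - 10 * t - 1)) w) : False := by
  have h1 := bxa_frame (k := (κ j).1) (p := (2 * t * (κ j).2 + s, (r : ℤ) - 10 * t - 1)) (w := w) hz
  have ht : 1 ≤ t := hg.1.1
  have h2 : 2 * t * (κ j).2 + s - w ≤ (FKS.rE (κ j).1 e).1 ∧ (FKS.rE (κ j).1 e).1 ≤ 2 * t * (κ j).2 + s + w ∧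
      (r : ℤ) - 10 * t - 1 - w ≤ (FKS.rE (κ j).1 e).2.1 ∧ (FKS.rE (κ j).1 e).2.1 ≤ (r : ℤ) - 10 * t - 1 + w := by
    rw [mem_box] at h1
    rcases h1 with h | h <;> exact ⟨by linarith [h.2.1], by linarith [h.2.2.1], by linarith [h.2.2.2.1], by linarith [h.2.2.2.2]⟩
  have h3 := dom_low hd hg he (i := j) ⟨by linarith [h2.1], by linarith [h2.2.1]⟩ (by linarith [h2.2.2.1])
  linarith [h2.2.2.2]

theorem in_state {l : ℕ} (hl : 1 ≤ l) (K : ℕ) : ∃ C : ℝ, 0 < C ∧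
    ∀ (r n r0 ρ : ℕ) (κ : Fin l → ℕ × ℤ), 2 ≤ r0 → 6000000 * r0 ≤ ρ → ρ + 2 ≤ r → 8 * r ≤ n → r ≤ K * r0 →
      κ ∈ FKS.Cells l (60000 * (r0 : ℤ)) ((r : ℤ) - 1) ρ →
      IPC.Pr (1 / 2) (FKN.bx n) (FKS.Land (D0 r n) (fun _ : Fin l => StI n) (r : ℤ) (60000 * (r0 : ℤ)) κ) ≤
        C * wIl l ((r - 300000 * r0 - 1) / 3) n := by
  obtain ⟨c, hc, hc1, hRB⟩ := FKN.rb_half
  obtain ⟨C1, hC1, h⟩ := inn_ext_l hl K
  have hcp : 0 < (c ^ (8 * (l * (TG + 2))))⁻¹ := inv_pos.2 (pow_pos hc _)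
  refine ⟨(c ^ (8 * (l * (TG + 2))))⁻¹ * C1, mul_pos hcp hC1, ?_⟩
  intro r n r0 ρ κ hr hρ hrρ hn hK hκ
  obtain ⟨t, ht⟩ : ∃ t : ℕ, t = 30000 * r0 := ⟨_, rfl⟩
  have htz : ((t : ℕ) : ℤ) = 30000 * (r0 : ℤ) := by rw [ht]; push_cast; ring
  have h2t : (60000 * (r0 : ℤ)) = 2 * ((t : ℕ) : ℤ) := by rw [htz]; ring
  rw [h2t] at hκ ⊢
  have hg : GCell κ (r : ℤ) ((r : ℤ) - 1) ρ t := by
    refine gcell_of ?_ ?_ ?_ ?_ hκ
    · omega
    · omega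
    · omega
    · rw [Nat.abs_cast]; omega
  have hd : FKS.Dom (FKN.bx n) (D0 r n) (ExI' r) (fun _ : Fin l => StI n) (r : ℤ) ((r : ℤ) - 1) ρ (2 * (t : ℤ)) :=
    dom_in (by omega) (by omega) (by omega) (by omega)
  have hmono : ∀ a b : ℕ, a ≤ b → FKN.bx a ⊆ FKN.bx b := fun a b hab => D_bx_mono hab
  obtain ⟨r', hr'⟩ : ∃ r' : ℕ, r' = r - 300000 * r0 - 1 := ⟨_, rfl⟩
  have hr1 : r' + 10 * t + 1 = r := by omega
  have hr2 : r - 10 * t - 1 = r' := by omega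
  rw [← hr']
  -- the regions
  have hos : ∀ e, e ∈ OS κ (r : ℤ) t ∪ DS κ (r : ℤ) t → e ∈ FKN.bx n ∧ e ∉ FKN.bx r' := by
    intro e he
    have h1 := os_box_in hg (show r ≤ n by omega) he
    rw [hr2] at h1
    exact h1
  have han : ∀ e, e ∈ D0 r n → e ∈ FKN.bx n ∧ e ∉ FKN.bx r' := by
    intro e he
    unfold D0 at he
    rw [Finset.mem_filter] at he
    refine ⟨he.1, fun h2 => ?_⟩
    have h3 := (D_mem_bx.1 h2).1
    have h4 := he.2.1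
    omega
  have hE : D0 r n ∪ (OS κ (r : ℤ) t ∪ DS κ (r : ℤ) t) ⊆ FKN.bx n := by
    intro e he
    rcases Finset.mem_union.1 he with h1 | h1
    · exact (han e h1).1
    · exact (hos e h1).1
  obtain ⟨σ, τ, hcyc⟩ := cyc_in hg
  have hw : (300 * (7 * (r0 : ℤ))) ≤ (t : ℤ) := by omega
  have hFp : D0 r n ∪ OS κ (r : ℤ) t ⊆ FKN.an r' n \ FKN.bxs (gzd κ (r : ℤ) t ∘ τ) (300 * (7 * (r0 : ℤ))) := by
    rw [bxs_perm]
    intro e he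
    unfold FKN.an
    rw [Finset.mem_sdiff, Finset.mem_sdiff]
    rcases Finset.mem_union.1 he with h1 | h1
    · refine ⟨han e h1, fun h2 => ?_⟩
      unfold FKN.bxs at h2
      obtain ⟨j, -, hj⟩ := Finset.mem_biUnion.1 h2
      exact CKb_low (s := -3 * (t : ℤ)) hd hg hw ⟨by omega, by omega⟩ h1 (j := j) (by
        have h3 : (2 * (t : ℤ) * (κ j).2 + -3 * (t : ℤ)) = 2 * (t : ℤ) * (κ j).2 - 3 * (t : ℤ) := by ring
        rw [h3]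
        exact hj)
    · exact ⟨hos e (Finset.mem_union_left _ h1), fun h2 => Finset.disjoint_left.1 (os_zd hg hw) h1 h2⟩
  have hFm : D0 r n ∪ DS κ (r : ℤ) t ⊆ FKN.an r' n \ FKN.bxs (gzo κ (r : ℤ) t ∘ σ) (300 * (7 * (r0 : ℤ))) := by
    rw [bxs_perm]
    intro e he
    unfold FKN.an
    rw [Finset.mem_sdiff, Finset.mem_sdiff]
    rcases Finset.mem_union.1 he with h1 | h1
    · refine ⟨han e h1, fun h2 => ?_⟩
      unfold FKN.bxs at h2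
      obtain ⟨j, -, hj⟩ := Finset.mem_biUnion.1 h2
      exact CKb_low (s := 5 * (t : ℤ)) hd hg hw ⟨by omega, by omega⟩ h1 (j := j) hj
    · exact ⟨hos e (Finset.mem_union_right _ h1), fun h2 => Finset.disjoint_left.1 (ds_zo hg hw) h1 h2⟩
  have h1 := land_pr hc hc1 hRB htz (by exact_mod_cast hr) hd hg hE (FKN.bdP_inc n)
    (FKN.bdD_inc n) (fun η s => (src_in η s).1) (fun η s => (src_in η s).2)
  have h2 := near_st (E := FKN.bx n) hFp hFm (FKN.bdP_inc n) (FKN.bdD_inc n)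
    (fun η s σ => (perm_in η s σ).1) (fun η s σ => (perm_in η s σ).2) (zo := gzo κ (r : ℤ) t)
    (zd := gzd κ (r : ℤ) t) (r := 7 * (r0 : ℤ)) σ τ
  have hsub : (FKN.an r' n \ FKN.bxs (gzd κ (r : ℤ) t ∘ τ) (300 * (7 * (r0 : ℤ)))) ∪
      (FKN.an r' n \ FKN.bxs (gzo κ (r : ℤ) t ∘ σ) (300 * (7 * (r0 : ℤ)))) ⊆ FKN.an r' n :=
    Finset.union_subset Finset.sdiff_subset Finset.sdiff_subset
  have han2 : FKN.an r' n ⊆ FKN.bx n := by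
    unfold FKN.an
    exact Finset.sdiff_subset
  have h3 := FKN.pr_StE (1 / 2) (FKN.bdP n) (FKN.nearT (gzo κ (r : ℤ) t ∘ σ) (7 * (r0 : ℤ)))
    (FKN.bdD n) (FKN.nearT (gzd κ (r : ℤ) t ∘ τ) (7 * (r0 : ℤ)))
    (hsub.trans han2) hsub
  have hcyc2 : FKN.CycR (gzo κ (r : ℤ) t ∘ σ) (gzd κ (r : ℤ) t ∘ τ) ((r' : ℕ) : ℤ)
      (30000 * ((7 * r0 : ℕ) : ℤ)) := by
    have e1 : ((r' : ℕ) : ℤ) = (r : ℤ) - 10 * (t : ℤ) - 1 := by omega
    rw [e1]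
    exact cycR_mono (by omega) (by omega) hcyc
  have h4 := h (7 * r0) r' n (gzo κ (r : ℤ) t ∘ σ) (gzd κ (r : ℤ) t ∘ τ)
    (by omega) (by omega) (by
      have e9 : 2 * K * (7 * r0) = 14 * (K * r0) := by ring
      rw [e9]
      omega) (by omega) hcyc2
  have e7 : (((7 * r0 : ℕ)) : ℤ) = 7 * (r0 : ℤ) := by push_cast; ring
  rw [e7] at h4
  have h5 : IPC.Pr (1 / 2) (FKN.bx n) (FKS.Land (D0 r n) (fun _ : Fin l => StI n) (r : ℤ) (2 * (t : ℤ)) κ) ≤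
      (c ^ (8 * (l * (TG + 2))))⁻¹ * (C1 * wIl l (r' / 3) n) := by
    refine h1.trans (mul_le_mul_of_nonneg_left ?_ hcp.le)
    refine h2.trans ?_
    refine le_trans (le_of_eq ?_) h4
    exact h3
  rw [mul_assoc]
  exact h5

end EV
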