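import Pool.Agent.Lib.MP_216314_pr.EV.CEc
import Pool.Agent.Lib.MP_216314_pr.EV.CGa
import Pool.Agent.Lib.MP_216314_pr.EV.CGb
import Pool.Agent.Lib.MP_216314_pr.EV.CHb
import Pool.Agent.Lib.MP_216314_pr.EV.CI

/-!
# Even arms: separation at the outer boundary

`core_out`: for given `n`, `r0`, `ρ`, `J`: with `E = bx (2 n)`, `D = an R n`, `m = 60000 r0`, `Sc = scl m J`, `A ω` = `ExitN D (ExO n) St ω`, `h = n`, `y = -n`.
`A → ExitN D (ExO' n) St` (`exO_side`). Cases: `Near` (then `NX (an (n/2) n) ρ (n/4) (cnr n)` by `near_out` with `n₁ = n / 2`, `M = n / 4`), `Bad`, or none. So `Pr A ≤ Pr (A ∧ NX) + Pr (A ∧ Bad) + Pr (ExitN .. ∧ ¬ Near ∧ ¬ Bad)` (`IPC.Pr_mono`, `IPC.Pr_or_le` twice).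
* `Pr (A ∧ NX) ≤ eE l R (n/2) * Pr NX` (`eE_prod` with `F = an (n/2) n`, disjoint from `an R (n/2) ⊆ bx (n/2)`; `nx_dep`) and `Pr NX ≤ 4 p1' (1/2) ρ (n/4)` (`nx_pr`).
* `Pr (A ∧ Bad) ≤ eE l R (n/2) * Pr Bad` (`eE_prod`, `bad_dep` with `F = an (n/2) n`: `Bx x (-n) ρ ⊆ rot k F = F` for `|x| ≤ n - ρ`: `rot_an`; the edges have ordinates in `[-n, -n + ρ]`, `-n + ρ < -(n/2)`, so not in `bx (n/2)`, and in `bx n`) and `bad_pr` (`Bx ⊆ rot k (bx (2n)) = bx (2n)`; `#Sc = J`).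
* the last term: `FKS.core` (Sp/SCo) with `N := 8 m`: `c^(6 l) * .. ≤ ∑ κ ∈ Cells l m n ρ, Pr (Land ..)`. (`c > 0` from `rb_fks`.)
* `Pr E A = eE l R n` (`IPC.Pr_restrict`, `D_exitN_inter`).

`sep_out`: `c ≤ 1/2` from `rb_fks`. `K1 ≥ 1` from `p1_small` with `δ = θ / 8`. `J` from `choose_J` with `A = 24 * (8 K1) * 3 / c^6`, `θ := θ / 2` (so `8 (2 n + 1) (1 - c^3)^J 3 / (c^6 ρ) ≤ θ / 2` when `n ≤ 8 K1 ρ`, `1 ≤ n`). `Z = 6000000 * 3^J`, `ρ = Z r0 = 100 * 3^J * m`, `Q = 4 K1 Z`. For `n ≥ k := max (2 Q) ..`: `r0 = n / Q ≥ 2`,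
`Q r0 ≤ n < Q (r0 + 1) ≤ 2 Q r0`. So `4 K1 ρ ≤ n` (`K1 ρ ≤ n / 4` by `Nat.le_div_iff_mul_le`), `n ≤ 2 Q r0 = 8 K1 ρ`. `scl_mem`: `3 s ≤ ρ`, `30 m ≤ s`. Conditions of `near_out`: `ρ ≤ n/4`, `n/4 + R + 1 ≤ n`, `n/4 + n/2 + 1 ≤ n` (`n` large compared with `R`). `R + ρ + 3 ≤ n`.
The sum over the cells: at most `(4 (2 B + 3))^l` cells with `B = 2 Q` (`n ≤ B m` since `m = 60000 r0`; `cells_card`), each `≤ C1 * wE l R (3 n')`, `n' = n + 300000 r0 + 1` (`out_state` with `K := 2 Q`), and `wE l R (3 n') ≤ C2 * wE l R (10 n)` (`can_out_l` with `κ := 4`: `9 n' ≤ 10 n` because `9 * 300000 r0 + 9 ≤ n` (`Q ≥ 24000000`), `10 n ≤ 12 n'`).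
So `eE l R n ≤ (c^(6 l))⁻¹ (4 (2 B + 3))^l C1 C2 wE l R (10 n) + (θ/2 + θ/2) eE l R (n/2)`.
-/

set_option autoImplicit false

noncomputable section

namespace EV

open Finset FKI FKP

theorem core_out {c : ℝ} (hc : 0 < c) (hc1 : c ≤ 1 / 2) (hRB : ∀ N : ℤ, FKS.RB c (1 / 2) N) {l R n r0 ρ J : ℕ} (hR : l + 2 ≤ R)
    (hr : 1 ≤ r0) (hJ : ρ = 6000000 * 3 ^ J * r0) (h4 : 4 * ρ ≤ n) (hn : 4 * R + 12 ≤ n) :
    eE l R n ≤ eE l R (n / 2) * (4 * FKN.p1' (1 / 2) ρ (n / 4)) +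
      eE l R (n / 2) * (8 * (2 * (n : ℝ) + 1) * ((1 - c ^ 3) ^ J * (3 / (c ^ 6 * ρ)))) +
      (c ^ (6 * l))⁻¹ * ∑ κ ∈ FKS.Cells l (60000 * (r0 : ℤ)) n ρ,
        IPC.Pr (1 / 2) (FKN.bx (2 * n)) (FKS.Land (FKN.an R n) (fun i : Fin l => {sc l R i}) (-(n : ℤ)) (60000 * (r0 : ℤ)) κ) := by
  have h3J : 1 ≤ 3 ^ J := Nat.one_le_pow _ _ (by norm_num)
  have hρ0 : 6000000 * r0 ≤ ρ := by
    rw [hJ]
    calc 6000000 * r0 = 6000000 * 1 * r0 := by ring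
      _ ≤ 6000000 * 3 ^ J * r0 := Nat.mul_le_mul_right _ (Nat.mul_le_mul_left _ h3J)
  have hρZ : (ρ : ℤ) = 6000000 * 3 ^ J * (r0 : ℤ) := by exact_mod_cast hJ
  have hρ1 : 6000000 * (r0 : ℤ) ≤ (ρ : ℤ) := by exact_mod_cast hρ0
  have hr1 : (1 : ℤ) ≤ (r0 : ℤ) := by exact_mod_cast hr
  have hRn : (4 : ℤ) * R + 12 ≤ n := by exact_mod_cast hn
  have hρn : (4 : ℤ) * ρ ≤ n := by exact_mod_cast h4
  have hm : (1 : ℤ) ≤ 60000 * (r0 : ℤ) := by linarith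
  have hSc1 : ∀ s ∈ scl (60000 * (r0 : ℤ)) J, 1 ≤ s ∧ 3 * s ≤ (ρ : ℤ) := by
    intro s hs
    obtain ⟨h1, h2, h3⟩ := scl_mem hm hs
    refine ⟨h2, h3.trans (le_of_eq ?_)⟩
    rw [hρZ]
    ring
  have hSc2 : ∀ s ∈ scl (60000 * (r0 : ℤ)) J, 30 * (60000 * (r0 : ℤ)) ≤ s ∧ 3 * s ≤ (ρ : ℤ) := by
    intro s hs
    exact ⟨(scl_mem hm hs).1, (hSc1 s hs).2⟩
  have hD2 : FKN.bx n ⊆ FKN.bx (2 * n) := by
    intro e he
    rw [FKN.mem_bx] at he ⊢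
    have h1 : ((2 * n : ℕ) : ℤ) = 2 * (n : ℤ) := by push_cast; ring
    rw [h1]
    have h2 : (0 : ℤ) ≤ n := Int.natCast_nonneg n
    exact ⟨by linarith [he.1], by linarith [he.2]⟩
  have hD : FKN.an R n ⊆ FKN.bx (2 * n) := Finset.sdiff_subset.trans hD2
  have hF : FKN.an (n / 2) n ⊆ FKN.bx (2 * n) := Finset.sdiff_subset.trans hD2
  have hd : Disjoint (FKN.an R (n / 2)) (FKN.an (n / 2) n) := by
    rw [Finset.disjoint_left]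
    intro e h1 h2
    exact (Finset.mem_sdiff.1 h2).2 (Finset.mem_sdiff.1 h1).1
  have hBF : ∀ k < 4, ∀ x : ℤ, |x| ≤ (n : ℤ) - (ρ : ℤ) → FKS.Bx x (-(n : ℤ)) ρ ⊆ FKS.rot k (FKN.an (n / 2) n) := by
    intro k _ x hx
    rw [rot_an]
    intro e he
    rw [FKS.Bx, mem_box] at he
    have hx1 := abs_le.1 hx
    have hn0 : (0 : ℤ) < n := by linarith [Int.natCast_nonneg R]
    have hn2 : 2 * ((n / 2 : ℕ) : ℤ) ≤ n := by omega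
    refine Finset.mem_sdiff.2 ⟨?_, ?_⟩
    · rw [FKN.bx, mem_box]
      rcases he with he | he
      · exact Or.inl ⟨he.1, by linarith [he.2.1], by linarith [he.2.2.1], he.2.2.2.1, by linarith [he.2.2.2.2]⟩
      · exact Or.inr ⟨he.1, by linarith [he.2.1], by linarith [he.2.2.1], he.2.2.2.1, by linarith [he.2.2.2.2]⟩
    · rw [FKN.bx, mem_box]
      rintro (h | h)
      · rcases he with he | he
        · linarith [h.2.2.2.1, he.2.2.2.2]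
        · linarith [h.2.2.2.1, he.2.2.2.2]
      · rcases he with he | he
        · linarith [h.2.2.2.1, he.2.2.2.2]
        · linarith [h.2.2.2.1, he.2.2.2.2]
  have hBE : ∀ k < 4, ∀ x : ℤ, |x| ≤ (n : ℤ) - (ρ : ℤ) → FKS.Bx x (-(n : ℤ)) ρ ⊆ FKS.rot k (FKN.bx (2 * n)) := by
    intro k hk x hx
    exact (hBF k hk x hx).trans (FKS.rot_subset.2 hF)
  have hq0 : (0 : ℝ) ≤ 1 / 2 := by norm_num
  have hq1 : (1 / 2 : ℝ) ≤ 1 := by norm_num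
  -- the three cases
  have h1 : IPC.Pr (1 / 2) (FKN.bx (2 * n)) (FKS.ExitN (FKN.an R n) (ExO n) (fun i : Fin l => {sc l R i})) ≤
      IPC.Pr (1 / 2) (FKN.bx (2 * n)) (fun ω =>
        (FKS.ExitN (FKN.an R n) (ExO n) (fun i : Fin l => {sc l R i}) ω ∧ NX (FKN.an (n / 2) n) ρ (n / 4) (cnr n) ω) ∨
        ((FKS.ExitN (FKN.an R n) (ExO n) (fun i : Fin l => {sc l R i}) ω ∧
            FKS.Bad (-(n : ℤ)) n ρ (scl (60000 * (r0 : ℤ)) J) ω) ∨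
          (FKS.ExitN (FKN.an R n) (ExO' n) (fun i : Fin l => {sc l R i}) ω ∧
            ¬ FKS.Near (FKN.an R n) (ExO' n) (fun i : Fin l => {sc l R i}) (-(n : ℤ)) n ρ ω ∧
            ¬ FKS.Bad (-(n : ℤ)) n ρ (scl (60000 * (r0 : ℤ)) J) ω))) := by
    refine IPC.Pr_mono hq0 hq1 _ ?_
    intro ω _ hω
    have h2 := exO_side hR (by omega) hω
    by_cases h3 : FKS.Near (FKN.an R n) (ExO' n) (fun i : Fin l => {sc l R i}) (-(n : ℤ)) n ρ ω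
    · exact Or.inl ⟨hω, near_out hR (by omega) (by omega) (by omega) h3⟩
    · by_cases h5 : FKS.Bad (-(n : ℤ)) n ρ (scl (60000 * (r0 : ℤ)) J) ω
      · exact Or.inr (Or.inl ⟨hω, h5⟩)
      · exact Or.inr (Or.inr ⟨h2, h3, h5⟩)
  have h2 := IPC.Pr_or_le hq0 hq1 (FKN.bx (2 * n))
    (fun ω => FKS.ExitN (FKN.an R n) (ExO n) (fun i : Fin l => {sc l R i}) ω ∧ NX (FKN.an (n / 2) n) ρ (n / 4) (cnr n) ω)
    (fun ω => (FKS.ExitN (FKN.an R n) (ExO n) (fun i : Fin l => {sc l R i}) ω ∧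
            FKS.Bad (-(n : ℤ)) n ρ (scl (60000 * (r0 : ℤ)) J) ω) ∨
          (FKS.ExitN (FKN.an R n) (ExO' n) (fun i : Fin l => {sc l R i}) ω ∧
            ¬ FKS.Near (FKN.an R n) (ExO' n) (fun i : Fin l => {sc l R i}) (-(n : ℤ)) n ρ ω ∧
            ¬ FKS.Bad (-(n : ℤ)) n ρ (scl (60000 * (r0 : ℤ)) J) ω))
  have h3 := IPC.Pr_or_le hq0 hq1 (FKN.bx (2 * n))
    (fun ω => FKS.ExitN (FKN.an R n) (ExO n) (fun i : Fin l => {sc l R i}) ω ∧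
            FKS.Bad (-(n : ℤ)) n ρ (scl (60000 * (r0 : ℤ)) J) ω)
    (fun ω => FKS.ExitN (FKN.an R n) (ExO' n) (fun i : Fin l => {sc l R i}) ω ∧
            ¬ FKS.Near (FKN.an R n) (ExO' n) (fun i : Fin l => {sc l R i}) (-(n : ℤ)) n ρ ω ∧
            ¬ FKS.Bad (-(n : ℤ)) n ρ (scl (60000 * (r0 : ℤ)) J) ω)
  have hn2 : n / 2 ≤ n := Nat.div_le_self n 2
  -- near the corners
  have h5 := eE_prod (l := l) (R := R) hn2 hD hF hd (X := NX (FKN.an (n / 2) n) ρ (n / 4) (cnr n)) (nx_dep _ _ _ _)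
  have h6 := nx_pr hF (ρ := ρ) (M := n / 4) (by omega) n
  -- unclean feet
  have h7 := eE_prod (l := l) (R := R) hn2 hD hF hd (X := FKS.Bad (-(n : ℤ)) n ρ (scl (60000 * (r0 : ℤ)) J))
    (bad_dep hSc1 hBF)
  have h8 := bad_pr hc (by linarith) hRB (y := -(n : ℤ)) (h := (n : ℤ)) (ρ := (ρ : ℤ)) (Int.natCast_nonneg n)
    (by linarith) hSc1 (fun s hs s' hs' h => scl_gap hm hs hs' h) hBE
  rw [scl_card hm] at h8
  have h8' : IPC.Pr (1 / 2) (FKN.bx (2 * n)) (FKS.Bad (-(n : ℤ)) n ρ (scl (60000 * (r0 : ℤ)) J)) ≤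
      8 * (2 * (n : ℝ) + 1) * ((1 - c ^ 3) ^ J * (3 / (c ^ 6 * ρ))) := by
    refine h8.trans (le_of_eq ?_)
    push_cast
    ring
  -- the main term
  have h9 := FKS.core hq0 hq1 hc.le (hRB (8 * (60000 * (r0 : ℤ))))
    (dom_out (l := l) (R := R) (n := n) (ρ := (ρ : ℤ)) (m := 60000 * (r0 : ℤ)) hR hm (by linarith) (by linarith)) hSc2 (le_refl _)
  have hc6 : 0 < c ^ (6 * l) := by positivity
  have h10 : IPC.Pr (1 / 2) (FKN.bx (2 * n)) (fun ω => FKS.ExitN (FKN.an R n) (ExO' n) (fun i : Fin l => {sc l R i}) ω ∧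
            ¬ FKS.Near (FKN.an R n) (ExO' n) (fun i : Fin l => {sc l R i}) (-(n : ℤ)) n ρ ω ∧
            ¬ FKS.Bad (-(n : ℤ)) n ρ (scl (60000 * (r0 : ℤ)) J) ω) ≤
      (c ^ (6 * l))⁻¹ * ∑ κ ∈ FKS.Cells l (60000 * (r0 : ℤ)) n ρ,
        IPC.Pr (1 / 2) (FKN.bx (2 * n)) (FKS.Land (FKN.an R n) (fun i : Fin l => {sc l R i}) (-(n : ℤ)) (60000 * (r0 : ℤ)) κ) := by
    rw [← div_eq_inv_mul, le_div_iff₀ hc6, mul_comm]
    exact h9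
  have hE0 : 0 ≤ eE l R (n / 2) := IPC.Pr_nonneg hq0 hq1 _ _
  have h11 : eE l R n = IPC.Pr (1 / 2) (FKN.bx (2 * n)) (FKS.ExitN (FKN.an R n) (ExO n) (fun i : Fin l => {sc l R i})) :=
    (IPC.Pr_restrict (1 / 2) hD _ fun ω _ => D_exitN_inter ω).symm
  have h12 := mul_le_mul_of_nonneg_left h6 hE0
  have h13 := mul_le_mul_of_nonneg_left h8' hE0
  rw [h11]
  linarith

end EV
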