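import Pool.Agent.Lib.MP_216314_pr.EV.CLa
import Pool.Agent.Lib.MP_216314_pr.EV.CF
import Pool.Agent.Lib.MP_216314_pr.EV.CJb

/-!
# Even arms: separation at the outer boundary

`core_out`: for given `n`, `r0`, `ρ`, `J`: with `E = bx (2 n)`, `D = an R n`, `m = 60000 r0`, `Sc = scl m J`, `A ω` = `ExitN D (ExO n) St ω`, `h = n`, `y = -n`.
`A → ExitN D (ExO' n) St` (`exO_side`). Cases: `Near` (then `NX (an (n/2) n) ρ (n/4) (cnr n)` by `near_out` with `n₁ = n / 2`, `M = n / 4`), `Bad`, or none. So `Pr A ≤ Pr (A ∧ NX) + Pr (A ∧ Bad) + Pr (ExitN .. ∧ ¬ Near ∧ ¬ Bad)` (`IPC.Pr_mono`, `IPC.Pr_or_le` twice).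
* `Pr (A ∧ NX) ≤ eE l R (n/2) * Pr NX` (`eE_prod` with `F = an (n/2) n`, disjoint from `an R (n/2) ⊆ bx (n/2)`; `nx_dep`) and `Pr NX ≤ 4 p1' (1/2) ρ (n/4)` (`nx_pr`).
* `Pr (A ∧ Bad) ≤ eE l R (n/2) * Pr Bad` (`eE_prod`, `bad_dep` with `F = an (n/2) n`: `Bx x (-n) ρ ⊆ rot k F = F` for `|x| ≤ n - ρ`: `rot_an`; the edges have ordinates in `[-n, -n + ρ]`, `-n + ρ < -(n/2)`, so not in `bx (n/2)`, and in `bx n`) and `bad_pr` (`Bx ⊆ rot k (bx (2n)) = bx (2n)`; `#Sc = J`).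
* the last term: `FKS.core` (Sp/SCo) with `N := 8 m`: `c^(6 l) * .. ≤ ∑ κ ∈ Cells l m n ρ, Pr (Land ..)`. (`c > 0` from `rb_fks`.)
* `Pr E A = eE l R n` (`IPC.Pr_restrict`, `D_exitN_inter`).

`sep_out`: `c ≤ 1/2` from `rb_fks`. `K1 ≥ 1` from `p1_small` with `δ = θ / 8`. `J` from `choose_J` with `A = 24 * (8 K1) * 3 / c^6`, `θ := θ / 2` (so `8 (2 n + 1) (1 - c^3)^J 3 / (c^6 ρ) ≤ θ / 2` when `n ≤ 8 K1 ρ`, `1 ≤ n`). `Z = 6000000 * 3^J`, `ρ = Z r0 = 100 * 3^J * m`, `Q = 4 K1 Z`. For `n ≥ k := max (2 Q) ..`: `r0 = n / Q ≥ 2`,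
`Q r0 ≤ n < Q (r0 + 1) ≤ 2 Q r0`. So `4 K1 ρ ≤ n` (`K1 ρ ≤ n / 4` by `Nat.le_div_iff_mul_le`), `n ≤ 2 Q r0 = 8 K1 ρ`. `scl_mem`: `3 s ≤ ρ`, `30 m ≤ s`. Conditions of `near_out`: `ρ ≤ n/4`, `n/4 + R + 1 ≤ n`, `n/4 + n/2 + 1 ≤ n` (`n` large compared with `R`). `R + ρ + 3 ≤ n`.
The sum over the cells: at most `(4 (2 B + 3))^l` cells with `B = 2 Q` (`n ≤ B m` since `m = 60000 r0`; `cells_card`), each `≤ C1 * wE l R (3 n')`, `n' = n + 300000 r0 + 1` (`out_state` with `K := 2 Q`), and `wE l R (3 n') ≤ C2 * wE l R (10 n)` (`can_out_l` with `κ := 4`: `9 n' ≤ 10 n` because `9 * 300000 r0 + 9 ≤ n` (`Q ≥ 24000000`), `10 n ≤ 12 n'`).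
So `eE l R n ≤ (c^(6 l))⁻¹ (4 (2 B + 3))^l C1 C2 wE l R (10 n) + (θ/2 + θ/2) eE l R (n/2)`.
-/

set_option autoImplicit false

noncomputable section

namespace EV

open Finset FKI FKP

theorem sep_out {l R : ℕ} (hl : 1 ≤ l) (hR : l + 2 ≤ R) : ∀ θ : ℝ, 0 < θ → ∃ (k : ℕ) (C : ℝ), 0 < C ∧
    ∀ n : ℕ, k ≤ n → eE l R n ≤ C * wE l R (10 * n) + θ * eE l R (n / 2) := by
  intro θ hθ
  obtain ⟨c, hc, hc1, hRB⟩ := rb_fks
  obtain ⟨K1, hK1, hp1⟩ := p1_small (δ := θ / 8) (by positivity)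
  obtain ⟨J, hJ1, hJ⟩ := choose_J hc hc1 (A := 24 * (8 * (K1 : ℝ)) * 3 / c ^ 6) (θ := θ / 2) (by positivity)
  obtain ⟨Z, hZ⟩ : ∃ Z : ℕ, Z = 6000000 * 3 ^ J := ⟨_, rfl⟩
  have h3J : 1 ≤ 3 ^ J := Nat.one_le_pow _ _ (by norm_num)
  have hZ1 : 6000000 ≤ Z := by
    rw [hZ]
    omega
  obtain ⟨Q, hQ⟩ : ∃ Q : ℕ, Q = 4 * K1 * Z := ⟨_, rfl⟩
  have hQZ : 4 * Z ≤ Q := by
    rw [hQ]
    nlinarith
  have hQ1 : 24000000 ≤ Q := by omega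
  obtain ⟨C1, n1, hC1, hos⟩ := out_state (R := R) hl hR (2 * Q)
  obtain ⟨C2, n2, hC2, hco⟩ := can_out_l (R := R) hl 4
  refine ⟨max (max (2 * Q) (4 * R + 12)) (max n1 n2),
    (c ^ (6 * l))⁻¹ * ((4 * (2 * (2 * (Q : ℝ)) + 3)) ^ l * (C1 * C2)), by positivity, ?_⟩
  intro n hn
  have hn1 : 2 * Q ≤ n := le_trans (le_trans (le_max_left _ _) (le_max_left _ _)) hn
  have hn2 : 4 * R + 12 ≤ n := le_trans (le_trans (le_max_right _ _) (le_max_left _ _)) hn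
  have hn3 : n1 ≤ n := le_trans (le_trans (le_max_left _ _) (le_max_right _ _)) hn
  have hn4 : n2 ≤ n := le_trans (le_trans (le_max_right _ _) (le_max_right _ _)) hn
  clear hn
  have hQ0 : 0 < Q := by omega
  obtain ⟨r0, hr0⟩ : ∃ r0 : ℕ, r0 = n / Q := ⟨_, rfl⟩
  have hr2 : 2 ≤ r0 := by
    rw [hr0]
    exact (Nat.le_div_iff_mul_le hQ0).2 hn1
  have hlo : Q * r0 ≤ n := by
    rw [hr0]
    exact Nat.mul_div_le n Q
  have hup : n ≤ 2 * Q * r0 := by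
    have h1 : n < Q * (r0 + 1) := by
      rw [hr0]
      exact Nat.lt_mul_div_succ n hQ0
    have h2 : Q * (r0 + 1) ≤ Q * (2 * r0) := Nat.mul_le_mul_left _ (by omega)
    calc n ≤ Q * (2 * r0) := by omega
      _ = 2 * Q * r0 := by ring
  obtain ⟨ρ, hρ⟩ : ∃ ρ : ℕ, ρ = Z * r0 := ⟨_, rfl⟩
  have hρ1 : ρ = 6000000 * 3 ^ J * r0 := by rw [hρ, hZ]
  have hKρ : 4 * (K1 * ρ) ≤ n := by
    have h1 : 4 * (K1 * ρ) = Q * r0 := by
      rw [hρ, hQ]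
      ring
    omega
  have hρK : ρ ≤ K1 * ρ := by
    calc ρ = 1 * ρ := (one_mul ρ).symm
      _ ≤ K1 * ρ := Nat.mul_le_mul_right _ hK1
  have h4 : 4 * ρ ≤ n := by omega
  have hρ6 : 6000000 * r0 ≤ ρ := by
    rw [hρ]
    exact Nat.mul_le_mul_right _ hZ1
  have hρ0 : 0 < ρ := by omega
  have hn8 : n ≤ 8 * (K1 * ρ) := by
    have h1 : 8 * (K1 * ρ) = 2 * Q * r0 := by
      rw [hρ, hQ]
      ring
    omega
  have hE0 := eE_nonneg l R (n / 2)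
  have hcore := core_out hc hc1 hRB hR (by omega : 1 ≤ r0) hρ1 h4 hn2
  -- first term
  have t1 : eE l R (n / 2) * (4 * FKN.p1' (1 / 2) ρ (n / 4)) ≤ eE l R (n / 2) * (θ / 2) := by
    refine mul_le_mul_of_nonneg_left ?_ hE0
    have h1 := hp1 ρ (n / 4) (by omega) (by omega)
    linarith
  -- second term
  have t2 : eE l R (n / 2) * (8 * (2 * (n : ℝ) + 1) * ((1 - c ^ 3) ^ J * (3 / (c ^ 6 * ρ)))) ≤
      eE l R (n / 2) * (θ / 2) := by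
    refine mul_le_mul_of_nonneg_left ?_ hE0
    refine le_trans ?_ hJ
    have hρR : (0 : ℝ) < ρ := by exact_mod_cast hρ0
    have hc3 : 0 ≤ 1 - c ^ 3 := by
      have : c ^ 3 ≤ (1 / 2) ^ 3 := pow_le_pow_left₀ hc.le hc1 3
      norm_num at this
      linarith
    have hX : 0 ≤ (1 - c ^ 3) ^ J := pow_nonneg hc3 J
    have hnR : 2 * (n : ℝ) + 1 ≤ 24 * (K1 * ρ) := by
      have h1 : 2 * n + 1 ≤ 24 * (K1 * ρ) := by omega
      exact_mod_cast h1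
    calc 8 * (2 * (n : ℝ) + 1) * ((1 - c ^ 3) ^ J * (3 / (c ^ 6 * ρ)))
        ≤ 8 * (24 * (K1 * ρ)) * ((1 - c ^ 3) ^ J * (3 / (c ^ 6 * ρ))) := by
          refine mul_le_mul_of_nonneg_right ?_ (by positivity)
          linarith
      _ = 24 * (8 * (K1 : ℝ)) * 3 / c ^ 6 * (1 - c ^ 3) ^ J := by
          field_simp
  -- third term
  have t3 : ∑ κ ∈ FKS.Cells l (60000 * (r0 : ℤ)) n ρ,
        IPC.Pr (1 / 2) (FKN.bx (2 * n)) (FKS.Land (FKN.an R n) (fun i : Fin l => {sc l R i}) (-(n : ℤ)) (60000 * (r0 : ℤ)) κ) ≤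
      (4 * (2 * (2 * (Q : ℝ)) + 3)) ^ l * (C1 * (C2 * wE l R (10 * n))) := by
    have hw : wE l R (3 * (n + 300000 * r0 + 1)) ≤ C2 * wE l R (10 * n) := by
      have hq : 24000000 * r0 ≤ n := le_trans (Nat.mul_le_mul_right _ hQ1) hlo
      exact hco _ _ (by omega) (by omega) (by omega)
    have hw0 : 0 ≤ wE l R (10 * n) := IPC.Pr_nonneg (by norm_num) (by norm_num) _ _
    have h1 : ∀ κ ∈ FKS.Cells l (60000 * (r0 : ℤ)) n ρ,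
        IPC.Pr (1 / 2) (FKN.bx (2 * n)) (FKS.Land (FKN.an R n) (fun i : Fin l => {sc l R i}) (-(n : ℤ)) (60000 * (r0 : ℤ)) κ) ≤
          C1 * (C2 * wE l R (10 * n)) := by
      intro κ hκ
      exact le_trans (hos n r0 ρ κ hn3 hr2 hρ6 (by omega) hup hκ) (mul_le_mul_of_nonneg_left hw hC1.le)
    have h2 : (((FKS.Cells l (60000 * (r0 : ℤ)) n ρ).card : ℕ) : ℝ) ≤ (4 * (2 * (2 * (Q : ℝ)) + 3)) ^ l := by
      have h3 := cells_card (l := l) (m := 60000 * (r0 : ℤ)) (h := (n : ℤ)) (ρ := (ρ : ℤ)) (B := 2 * (Q : ℤ))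
        (by omega) (by omega) (by omega) (by
          have h4 : n ≤ 2 * Q * (60000 * r0) := by
            refine le_trans hup (Nat.mul_le_mul_left _ (by omega))
          exact_mod_cast h4)
      push_cast at h3
      exact h3
    calc _ ≤ ∑ _κ ∈ FKS.Cells l (60000 * (r0 : ℤ)) n ρ, C1 * (C2 * wE l R (10 * n)) := Finset.sum_le_sum h1
      _ = (((FKS.Cells l (60000 * (r0 : ℤ)) n ρ).card : ℕ) : ℝ) * (C1 * (C2 * wE l R (10 * n))) := by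
          rw [Finset.sum_const, nsmul_eq_mul]
      _ ≤ _ := mul_le_mul_of_nonneg_right h2 (mul_nonneg hC1.le (mul_nonneg hC2.le hw0))
  have hcl : (0 : ℝ) ≤ (c ^ (6 * l))⁻¹ := by positivity
  have t4 := mul_le_mul_of_nonneg_left t3 hcl
  have t5 : (c ^ (6 * l))⁻¹ * ((4 * (2 * (2 * (Q : ℝ)) + 3)) ^ l * (C1 * (C2 * wE l R (10 * n)))) =
      (c ^ (6 * l))⁻¹ * ((4 * (2 * (2 * (Q : ℝ)) + 3)) ^ l * (C1 * C2)) * wE l R (10 * n) := by ring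
  rw [t5] at t4
  linarith

end EV
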