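import Pool.Agent.Lib.MP_216314_pr.EV.CEd
import Pool.Agent.Lib.MP_216314_pr.EV.CGa
import Pool.Agent.Lib.MP_216314_pr.EV.CGb
import Pool.Agent.Lib.MP_216314_pr.EV.CHc
import Pool.Agent.Lib.MP_216314_pr.EV.CI

/-!
# Even arms: separation at the inner boundary

`core_in`: for given `r`, `n`, `r0`, `ρ`, `J`: `E = bx n`, `D = D0 r n`, `m = 60000 r0`, `Sc = scl m J`, `A ω` = `ExitN D (ExI r n) (fun _ => StI n) ω`, `h = r - 1`, `y = r`.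
`A → ExitN D (ExI' r) ..` (`exI_side`). Cases: `Near` (then `NX (bx (2 r - 1)) ρ (r - 1) (cnr r)` by `near_in`), `Bad`, or none.
* `Pr (A ∧ NX) ≤ eI l (2 r) n * Pr NX` (`eI_prod` with `r₁ = 2 r`, `F = bx (2 r - 1)`, disjoint from `D0 (2 r) n`: an edge of `bx (2 r - 1)` has ends of norm `≤ 2 r - 1`; `nx_dep`), `Pr NX ≤ 4 p1' (1/2) ρ (r - 1)` (`nx_pr`).
* `Pr (A ∧ Bad) ≤ eI l (2 r) n * Pr Bad` (`eI_prod`, `bad_dep` with `F = bx (2 r - 1)`: `Bx x r ρ ⊆ bx (2 r - 1)` for `|x| ≤ r - 1 - ρ`, since `r + ρ ≤ 2 r - 1`; `FKS.box_rot`), `bad_pr` (`E = bx n`; `h = r - 1`: `2 (r - 1) + 1 ≤ 2 r + 1`).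
* the last term: `FKS.core` with `dom_in`, `N := 8 m`.
* `Pr E A = eI l r n` (`IPC.Pr_restrict`, `D_exitN_inter`).

`sep_in`: as `sep_out` in CL: `c ≤ 1/2` from `rb_fks`, `K1 ≥ 1` from `p1_small` with `δ = θ / 8`, `J` from `choose_J` with `A = 24 * (8 K1) * 3 / c^6` and `θ / 2`, `Z = 6000000 * 3^J`, `Q = 4 K1 Z`, `k = 2 Q` (or larger), `r0 = r / Q ≥ 2`, `ρ = Z r0`, `Q r0 ≤ r < Q (r0 + 1) ≤ 2 Q r0`: `4 K1 ρ ≤ r`, so `K1 ρ ≤ r - 1`; `r ≤ 8 K1 ρ`. The sum over the cells: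
at most `(4 (2 B + 3))^l`, `B = 2 Q`, each `≤ C1 * wIl l ((r - 300000 r0 - 1) / 3) n` (`in_state`, `K := 2 Q`), and `wIl l ((r - 300000 r0 - 1) / 3) n ≤ C2 * wIl l (r / 10) n` (`can_inn_l` with `κ := 4`: let `s = (r - 300000 r0 - 1) / 3`, `s' = r / 10`: `3 s' ≤ s` because `s ≥ (r - r / 60 - 1) / 3 - 1 ≥ 3 r / 10` for large `r` (`300000 r0 ≤ r / 80` from `Q ≥ 24000000`),
`s ≤ r / 3 ≤ 4 s'` for large `r`, `2 s ≤ n`, `k0 ≤ s'` for `r ≥ 10 k0`).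
-/

set_option autoImplicit false

noncomputable section

namespace EV

open Finset FKI FKP

private theorem CMa_box_sub {a b c d a' b' c' d' : ℤ} (h1 : a' ≤ a) (h2 : b ≤ b') (h3 : c' ≤ c) (h4 : d ≤ d') :
    FKP.box a b c d ⊆ FKP.box a' b' c' d' := by
  intro e he
  unfold FKP.box at he ⊢
  simp only [Finset.mem_union, Finset.mem_product, Finset.mem_Ico, Finset.mem_Icc, Finset.mem_singleton] at he ⊢
  rcases he with ⟨h5, h6, h7⟩ | ⟨h5, h6, h7⟩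
  · exact Or.inl ⟨⟨by omega, by omega⟩, ⟨by omega, by omega⟩, h7⟩
  · exact Or.inr ⟨⟨by omega, by omega⟩, ⟨by omega, by omega⟩, h7⟩

theorem core_in {c : ℝ} (hc : 0 < c) (hc1 : c ≤ 1 / 2) (hRB : ∀ N : ℤ, FKS.RB c (1 / 2) N) {l r n r0 ρ J : ℕ}
    (hr : 1 ≤ r0) (hJ : ρ = 6000000 * 3 ^ J * r0) (h4 : 4 * ρ ≤ r) (hn : 8 * r ≤ n) :
    eI l r n ≤ eI l (2 * r) n * (4 * FKN.p1' (1 / 2) ρ (r - 1)) +
      eI l (2 * r) n * (8 * (2 * (r : ℝ) + 1) * ((1 - c ^ 3) ^ J * (3 / (c ^ 6 * ρ)))) +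
      (c ^ (6 * l))⁻¹ * ∑ κ ∈ FKS.Cells l (60000 * (r0 : ℤ)) ((r : ℤ) - 1) ρ,
        IPC.Pr (1 / 2) (FKN.bx n) (FKS.Land (D0 r n) (fun _ : Fin l => StI n) (r : ℤ) (60000 * (r0 : ℤ)) κ) := by
  have h3J : 1 ≤ 3 ^ J := Nat.one_le_pow _ _ (by norm_num)
  have hρ1 : 6000000 ≤ ρ := by
    rw [hJ]
    calc 6000000 = 6000000 * 1 * 1 := by norm_num
      _ ≤ 6000000 * 3 ^ J * r0 := Nat.mul_le_mul (Nat.mul_le_mul le_rfl h3J) hr
  have hm : (1 : ℤ) ≤ 60000 * (r0 : ℤ) := by omega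
  have hρ2 : (ρ : ℤ) = 100 * 3 ^ J * (60000 * (r0 : ℤ)) := by
    rw [hJ]
    push_cast
    ring
  have h3J' : (1 : ℤ) ≤ 3 ^ J := by exact_mod_cast h3J
  have hρ3 : 100 * (60000 * (r0 : ℤ)) ≤ (ρ : ℤ) := by
    rw [hρ2]
    nlinarith
  have hSc : ∀ s ∈ scl (60000 * (r0 : ℤ)) J, 30 * (60000 * (r0 : ℤ)) ≤ s ∧ 1 ≤ s ∧ 3 * s ≤ (ρ : ℤ) := by
    intro s hs
    rw [hρ2]
    exact scl_mem hm hs
  have hDE : D0 r n ⊆ FKN.bx n := Finset.filter_subset _ _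
  have hFE : FKN.bx (2 * r - 1) ⊆ FKN.bx n := by
    intro e he
    rw [FKN.mem_bx] at he ⊢
    have h1 : ((2 * r - 1 : ℕ) : ℤ) ≤ n := by
      have : 2 * r - 1 ≤ n := by omega
      exact_mod_cast this
    exact ⟨he.1.trans h1, he.2.trans h1⟩
  have hdis : Disjoint (D0 (2 * r) n) (FKN.bx (2 * r - 1)) := by
    rw [Finset.disjoint_left]
    intro e he hf
    rw [D_D0] at he
    rw [FKN.mem_bx] at hf
    have h1 := he.2.1
    have h2 := hf.1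
    omega
  have hrot : ∀ k : ℕ, FKS.rot k (FKN.bx (2 * r - 1)) = FKN.bx (2 * r - 1) := fun k => FKS.box_rot k _
  have hrotE : ∀ k : ℕ, FKS.rot k (FKN.bx n) = FKN.bx n := fun k => FKS.box_rot k _
  have hBx : ∀ x : ℤ, |x| ≤ (r : ℤ) - 1 - ρ → FKS.Bx x r ρ ⊆ FKN.bx (2 * r - 1) := by
    intro x hx
    have hx1 := abs_le.1 hx
    have h5 : ((2 * r - 1 : ℕ) : ℤ) = 2 * (r : ℤ) - 1 := by omega
    unfold FKS.Bx FKN.bx
    rw [h5]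
    exact CMa_box_sub (by omega) (by omega) (by omega) (by omega)
  -- the probability of `A`
  have hA : IPC.Pr (1 / 2) (FKN.bx n) (FKS.ExitN (D0 r n) (ExI r n) (fun _ : Fin l => StI n)) = eI l r n :=
    IPC.Pr_restrict (1 / 2) hDE _ fun ω _ => D_exitN_inter ω
  rw [← hA]
  have hcov : IPC.Pr (1 / 2) (FKN.bx n) (FKS.ExitN (D0 r n) (ExI r n) (fun _ : Fin l => StI n)) ≤
      IPC.Pr (1 / 2) (FKN.bx n) (fun ω =>
        (FKS.ExitN (D0 r n) (ExI r n) (fun _ : Fin l => StI n) ω ∧ NX (FKN.bx (2 * r - 1)) ρ (r - 1) (cnr r) ω) ∨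
        ((FKS.ExitN (D0 r n) (ExI r n) (fun _ : Fin l => StI n) ω ∧
          FKS.Bad (r : ℤ) ((r : ℤ) - 1) ρ (scl (60000 * (r0 : ℤ)) J) ω) ∨
        (FKS.ExitN (D0 r n) (ExI' r) (fun _ : Fin l => StI n) ω ∧
          ¬ FKS.Near (D0 r n) (ExI' r) (fun _ : Fin l => StI n) (r : ℤ) ((r : ℤ) - 1) ρ ω ∧
          ¬ FKS.Bad (r : ℤ) ((r : ℤ) - 1) ρ (scl (60000 * (r0 : ℤ)) J) ω))) := by
    refine IPC.Pr_mono (by norm_num) (by norm_num) _ fun ω _ hω => ?_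
    by_cases hN : FKS.Near (D0 r n) (ExI' r) (fun _ : Fin l => StI n) (r : ℤ) ((r : ℤ) - 1) ρ ω
    · exact Or.inl ⟨hω, near_in (by omega) (by omega) hN⟩
    · by_cases hB : FKS.Bad (r : ℤ) ((r : ℤ) - 1) ρ (scl (60000 * (r0 : ℤ)) J) ω
      · exact Or.inr (Or.inl ⟨hω, hB⟩)
      · exact Or.inr (Or.inr ⟨exI_side (by omega) hω, hN, hB⟩)
  have hor1 := IPC.Pr_or_le (p := 1 / 2) (by norm_num) (by norm_num) (FKN.bx n) (fun ω =>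
        (FKS.ExitN (D0 r n) (ExI r n) (fun _ : Fin l => StI n) ω ∧ NX (FKN.bx (2 * r - 1)) ρ (r - 1) (cnr r) ω))
        (fun ω => (FKS.ExitN (D0 r n) (ExI r n) (fun _ : Fin l => StI n) ω ∧
          FKS.Bad (r : ℤ) ((r : ℤ) - 1) ρ (scl (60000 * (r0 : ℤ)) J) ω) ∨
        (FKS.ExitN (D0 r n) (ExI' r) (fun _ : Fin l => StI n) ω ∧
          ¬ FKS.Near (D0 r n) (ExI' r) (fun _ : Fin l => StI n) (r : ℤ) ((r : ℤ) - 1) ρ ω ∧
          ¬ FKS.Bad (r : ℤ) ((r : ℤ) - 1) ρ (scl (60000 * (r0 : ℤ)) J) ω))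
  have hor2 := IPC.Pr_or_le (p := 1 / 2) (by norm_num) (by norm_num) (FKN.bx n)
        (fun ω => (FKS.ExitN (D0 r n) (ExI r n) (fun _ : Fin l => StI n) ω ∧
          FKS.Bad (r : ℤ) ((r : ℤ) - 1) ρ (scl (60000 * (r0 : ℤ)) J) ω))
        (fun ω => (FKS.ExitN (D0 r n) (ExI' r) (fun _ : Fin l => StI n) ω ∧
          ¬ FKS.Near (D0 r n) (ExI' r) (fun _ : Fin l => StI n) (r : ℤ) ((r : ℤ) - 1) ρ ω ∧
          ¬ FKS.Bad (r : ℤ) ((r : ℤ) - 1) ρ (scl (60000 * (r0 : ℤ)) J) ω))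
  have hnn : 0 ≤ eI l (2 * r) n := IPC.Pr_nonneg (by norm_num) (by norm_num) _ _
  -- first term
  have ht1 := eI_prod (l := l) (show r ≤ 2 * r by omega) hDE hFE hdis
    (nx_dep (FKN.bx (2 * r - 1)) ρ (r - 1) (cnr r))
  have ht1' := mul_le_mul_of_nonneg_left (nx_pr hFE (show ρ ≤ r - 1 by omega) r) hnn
  -- second term
  have ht2 := eI_prod (l := l) (show r ≤ 2 * r by omega) hDE hFE hdis
    (bad_dep (y := (r : ℤ)) (h := (r : ℤ) - 1) (ρ := (ρ : ℤ)) (Sc := scl (60000 * (r0 : ℤ)) J)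
      (fun s hs => (hSc s hs).2) (F := FKN.bx (2 * r - 1)) (fun k _ x hx => by
        rw [hrot k]
        exact hBx x hx))
  have ht2a := bad_pr hc (by linarith) hRB (y := (r : ℤ)) (h := (r : ℤ) - 1) (ρ := (ρ : ℤ)) (by omega) (by omega)
    (Sc := scl (60000 * (r0 : ℤ)) J) (fun s hs => (hSc s hs).2)
    (fun s hs s' hs' hlt => scl_gap hm hs hs' hlt) (E := FKN.bx n) (fun k _ x hx => by
        rw [hrotE k]
        exact (hBx x hx).trans hFE)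
  rw [scl_card hm J] at ht2a
  have hc3 : 0 ≤ 1 - c ^ 3 := by
    have h1 : c ^ 3 ≤ 1 := pow_le_one₀ hc.le (by linarith)
    linarith
  have hXnn : 0 ≤ (1 - c ^ 3) ^ J * (3 / (c ^ 6 * (ρ : ℝ))) := by positivity
  have ht2b : IPC.Pr (1 / 2) (FKN.bx n) (FKS.Bad (r : ℤ) ((r : ℤ) - 1) ρ (scl (60000 * (r0 : ℤ)) J)) ≤
      8 * (2 * (r : ℝ) + 1) * ((1 - c ^ 3) ^ J * (3 / (c ^ 6 * ρ))) := by
    refine ht2a.trans ?_
    push_cast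
    refine mul_le_mul_of_nonneg_right ?_ hXnn
    linarith
  have ht2' := mul_le_mul_of_nonneg_left ht2b hnn
  -- third term
  have ht3 := FKS.core (q := 1 / 2) (N := 8 * (60000 * (r0 : ℤ))) (by norm_num) (by norm_num) hc.le (hRB _)
    (dom_in (l := l) (r := r) (n := n) (ρ := (ρ : ℤ)) (m := 60000 * (r0 : ℤ)) hm hρ3 (by omega) (by omega))
    (Sc := scl (60000 * (r0 : ℤ)) J) (fun s hs => ⟨(hSc s hs).1, (hSc s hs).2.2⟩) le_rfl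
  have hcl : 0 < c ^ (6 * l) := pow_pos hc _
  have ht3' := mul_le_mul_of_nonneg_left ht3 (inv_nonneg.2 hcl.le)
  rw [← mul_assoc, inv_mul_cancel₀ hcl.ne', one_mul] at ht3'
  linarith

end EV
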