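import Pool.Agent.Lib.MP_216314_pr.EV.CMa
import Pool.Agent.Lib.MP_216314_pr.EV.CF
import Pool.Agent.Lib.MP_216314_pr.EV.CKb

/-!
# Even arms: separation at the inner boundary

`core_in`: for given `r`, `n`, `r0`, `ρ`, `J`: `E = bx n`, `D = D0 r n`, `m = 60000 r0`, `Sc = scl m J`, `A ω` = `ExitN D (ExI r n) (fun _ => StI n) ω`, `h = r - 1`, `y = r`.
`A → ExitN D (ExI' r) ..` (`exI_side`). Cases: `Near` (then `NX (bx (2 r - 1)) ρ (r - 1) (cnr r)` by `near_in`), `Bad`, or none.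
* `Pr (A ∧ NX) ≤ eI l (2 r) n * Pr NX` (`eI_prod` with `r₁ = 2 r`, `F = bx (2 r - 1)`, disjoint from `D0 (2 r) n`: an edge of `bx (2 r - 1)` has ends of norm `≤ 2 r - 1`; `nx_dep`), `Pr NX ≤ 4 p1' (1/2) ρ (r - 1)` (`nx_pr`).
* `Pr (A ∧ Bad) ≤ eI l (2 r) n * Pr Bad` (`eI_prod`, `bad_dep` with `F = bx (2 r - 1)`: `Bx x r ρ ⊆ bx (2 r - 1)` for `|x| ≤ r - 1 - ρ`, since `r + ρ ≤ 2 r - 1`; `FKS.box_rot`), `bad_pr` (`E = bx n`; `h = r - 1`: `2 (r - 1) + 1 ≤ 2 r + 1`).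
* the last term: `FKS.core` with `dom_in`, `N := 8 m`.
* `Pr E A = eI l r n` (`IPC.Pr_restrict`, `D_exitN_inter`).

`sep_in`: as `sep_out` in CL: `c ≤ 1/2` from `rb_fks`, `K1 ≥ 1` from `p1_small` with `δ = θ / 8`, `J` from `choose_J` with `A = 24 * (8 K1) * 3 / c^6` and `θ / 2`, `Z = 6000000 * 3^J`, `Q = 4 K1 Z`, `k = 2 Q` (or larger), `r0 = r / Q ≥ 2`, `ρ = Z r0`, `Q r0 ≤ r < Q (r0 + 1) ≤ 2 Q r0`: `4 K1 ρ ≤ r`, so `K1 ρ ≤ r - 1`; `r ≤ 8 K1 ρ`. The sum over the cells: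
at most `(4 (2 B + 3))^l`, `B = 2 Q`, each `≤ C1 * wIl l ((r - 300000 r0 - 1) / 3) n` (`in_state`, `K := 2 Q`), and `wIl l ((r - 300000 r0 - 1) / 3) n ≤ C2 * wIl l (r / 10) n` (`can_inn_l` with `κ := 4`: let `s = (r - 300000 r0 - 1) / 3`, `s' = r / 10`: `3 s' ≤ s` because `s ≥ (r - r / 60 - 1) / 3 - 1 ≥ 3 r / 10` for large `r` (`300000 r0 ≤ r / 80` from `Q ≥ 24000000`),
`s ≤ r / 3 ≤ 4 s'` for large `r`, `2 s ≤ n`, `k0 ≤ s'` for `r ≥ 10 k0`).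
-/

set_option autoImplicit false

noncomputable section

namespace EV

open Finset FKI FKP

theorem sep_in {l : ℕ} (hl : 1 ≤ l) : ∀ θ : ℝ, 0 < θ → ∃ (k : ℕ) (C : ℝ), 0 < C ∧
    ∀ r n : ℕ, k ≤ r → 8 * r ≤ n → eI l r n ≤ C * wIl l (r / 10) n + θ * eI l (2 * r) n := by
  intro θ hθ
  obtain ⟨c, hc, hc1, hRB⟩ := rb_fks
  obtain ⟨K1, hK1, hp1⟩ := p1_small (δ := θ / 8) (by linarith)
  obtain ⟨J, -, hJ⟩ := choose_J hc hc1 (A := 24 * (8 * (K1 : ℝ)) * 3 / c ^ 6) (θ := θ / 2) (by linarith)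
  obtain ⟨Z, hZ⟩ : ∃ Z : ℕ, Z = 6000000 * 3 ^ J := ⟨_, rfl⟩
  obtain ⟨Q, hQ⟩ : ∃ Q : ℕ, Q = 4 * K1 * Z := ⟨_, rfl⟩
  have hZ1 : 6000000 ≤ Z := by
    rw [hZ]
    exact Nat.le_mul_of_pos_right _ (pow_pos (by norm_num) J)
  have hQ1 : 24000000 ≤ Q := by
    rw [hQ]
    calc 24000000 = 4 * 1 * 6000000 := by norm_num
      _ ≤ 4 * K1 * Z := Nat.mul_le_mul (Nat.mul_le_mul le_rfl hK1) hZ1
  obtain ⟨C1, hC1, hin⟩ := in_state hl (2 * Q)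
  obtain ⟨C2, k0, hC2, hcan⟩ := can_inn_l hl 4
  have hcl : 0 < c ^ (6 * l) := pow_pos hc _
  have hN0 : 0 < (4 * (2 * (((2 * Q : ℕ) : ℤ) : ℝ) + 3)) ^ l := by positivity
  refine ⟨2 * Q + 10 * k0 + 1000, (c ^ (6 * l))⁻¹ * ((4 * (2 * (((2 * Q : ℕ) : ℤ) : ℝ) + 3)) ^ l * (C1 * C2)),
    mul_pos (inv_pos.2 hcl) (mul_pos hN0 (mul_pos hC1 hC2)), ?_⟩
  intro r n hr hn
  obtain ⟨r0, hr0⟩ : ∃ r0 : ℕ, r0 = r / Q := ⟨_, rfl⟩
  obtain ⟨ρ, hρ⟩ : ∃ ρ : ℕ, ρ = Z * r0 := ⟨_, rfl⟩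
  have hQ0 : 0 < Q := by omega
  have h2 : 2 ≤ r0 := by
    rw [hr0, Nat.le_div_iff_mul_le hQ0]
    omega
  have hle : Q * r0 ≤ r := by
    rw [hr0]
    exact Nat.mul_div_le r Q
  have hlt : r < Q * (r0 + 1) := by
    rw [hr0]
    exact Nat.lt_mul_div_succ r hQ0
  have hup : r ≤ 2 * Q * r0 := by
    refine hlt.le.trans ?_
    calc Q * (r0 + 1) ≤ Q * (2 * r0) := Nat.mul_le_mul_left _ (by omega)
      _ = 2 * Q * r0 := by ring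
  have hK4 : 4 * (K1 * ρ) ≤ r := by
    refine le_trans (le_of_eq ?_) hle
    rw [hρ, hQ]
    ring
  have hρK : ρ ≤ K1 * ρ := Nat.le_mul_of_pos_left _ hK1
  have h4 : 4 * ρ ≤ r := by omega
  have hup2 : r ≤ 8 * K1 * ρ := by
    refine hup.trans (le_of_eq ?_)
    rw [hρ, hQ]
    ring
  have hρ6 : 6000000 * r0 ≤ ρ := by
    rw [hρ]
    exact Nat.mul_le_mul_right _ hZ1
  have hρ1 : 1 ≤ ρ := by omega
  have h24 : 24000000 * r0 ≤ r := (Nat.mul_le_mul_right _ hQ1).trans hle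
  have hcore := core_in hc hc1 hRB (l := l) (r := r) (n := n) (r0 := r0) (ρ := ρ) (J := J) (by omega)
    (by rw [hρ, hZ]) h4 hn
  have he := eI_nonneg l (2 * r) n
  have t1 : eI l (2 * r) n * (4 * FKN.p1' (1 / 2) ρ (r - 1)) ≤ θ / 2 * eI l (2 * r) n := by
    have h1 := hp1 ρ (r - 1) hρ1 (by omega)
    have h3 : 4 * FKN.p1' (1 / 2) ρ (r - 1) ≤ θ / 2 := by linarith
    rw [mul_comm (θ / 2)]
    exact mul_le_mul_of_nonneg_left h3 he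
  have t2 : eI l (2 * r) n * (8 * (2 * (r : ℝ) + 1) * ((1 - c ^ 3) ^ J * (3 / (c ^ 6 * ρ)))) ≤
      θ / 2 * eI l (2 * r) n := by
    have hc3 : 0 ≤ 1 - c ^ 3 := by
      have : c ^ 3 ≤ 1 := pow_le_one₀ hc.le (by linarith)
      linarith
    have hρR : (0 : ℝ) < ρ := by exact_mod_cast hρ1
    have hr1 : (1 : ℝ) ≤ r := by
      have : 1 ≤ r := by omega
      exact_mod_cast this
    have hup3 : (r : ℝ) ≤ 8 * K1 * ρ := by exact_mod_cast hup2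
    have hb : 2 * (r : ℝ) + 1 ≤ 24 * K1 * ρ := by linarith
    have hP : 0 ≤ (1 - c ^ 3) ^ J * (3 / (c ^ 6 * ρ)) := by positivity
    have h3 : 8 * (2 * (r : ℝ) + 1) * ((1 - c ^ 3) ^ J * (3 / (c ^ 6 * ρ))) ≤ θ / 2 := by
      refine le_trans ?_ hJ
      calc 8 * (2 * (r : ℝ) + 1) * ((1 - c ^ 3) ^ J * (3 / (c ^ 6 * ρ)))
          ≤ 8 * (24 * K1 * ρ) * ((1 - c ^ 3) ^ J * (3 / (c ^ 6 * ρ))) :=
            mul_le_mul_of_nonneg_right (by linarith) hP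
        _ = 24 * (8 * (K1 : ℝ)) * 3 / c ^ 6 * (1 - c ^ 3) ^ J := by
            field_simp
    rw [mul_comm (θ / 2)]
    exact mul_le_mul_of_nonneg_left h3 he
  have hw : wIl l ((r - 300000 * r0 - 1) / 3) n ≤ C2 * wIl l (r / 10) n :=
    hcan ((r - 300000 * r0 - 1) / 3) (r / 10) n (by omega) (by omega) (by omega) (by omega)
  have t3 : (∑ κ ∈ FKS.Cells l (60000 * (r0 : ℤ)) ((r : ℤ) - 1) ρ,
      IPC.Pr (1 / 2) (FKN.bx n) (FKS.Land (D0 r n) (fun _ : Fin l => StI n) (r : ℤ) (60000 * (r0 : ℤ)) κ)) ≤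
      (4 * (2 * (((2 * Q : ℕ) : ℤ) : ℝ) + 3)) ^ l * (C1 * C2) * wIl l (r / 10) n := by
    have hcard := cells_card (l := l) (m := 60000 * (r0 : ℤ)) (h := (r : ℤ) - 1) (ρ := (ρ : ℤ))
      (B := ((2 * Q : ℕ) : ℤ)) (by omega) (by omega) (by omega) (by
        have h5 : ((r : ℕ) : ℤ) ≤ (((2 * Q * r0 : ℕ)) : ℤ) := by exact_mod_cast hup
        have h6 : (((2 * Q * r0 : ℕ)) : ℤ) ≤ ((2 * Q : ℕ) : ℤ) * (60000 * (r0 : ℤ)) := by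
          push_cast
          nlinarith [mul_nonneg (Int.natCast_nonneg Q) (Int.natCast_nonneg r0)]
        linarith)
    have hW0 : 0 ≤ C1 * (C2 * wIl l (r / 10) n) :=
      mul_nonneg hC1.le (mul_nonneg hC2.le (D_wIl_nonneg _ _ _))
    calc (∑ κ ∈ FKS.Cells l (60000 * (r0 : ℤ)) ((r : ℤ) - 1) ρ,
          IPC.Pr (1 / 2) (FKN.bx n) (FKS.Land (D0 r n) (fun _ : Fin l => StI n) (r : ℤ) (60000 * (r0 : ℤ)) κ))
        ≤ ∑ κ ∈ FKS.Cells l (60000 * (r0 : ℤ)) ((r : ℤ) - 1) ρ, C1 * (C2 * wIl l (r / 10) n) := by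
          refine sum_le_sum fun κ hκ => ?_
          refine (hin r n r0 ρ κ h2 hρ6 (by omega) hn hup hκ).trans ?_
          exact mul_le_mul_of_nonneg_left hw hC1.le
      _ = ((FKS.Cells l (60000 * (r0 : ℤ)) ((r : ℤ) - 1) ρ).card : ℝ) * (C1 * (C2 * wIl l (r / 10) n)) := by
          rw [sum_const, nsmul_eq_mul]
      _ ≤ (4 * (2 * (((2 * Q : ℕ) : ℤ) : ℝ) + 3)) ^ l * (C1 * (C2 * wIl l (r / 10) n)) :=
          mul_le_mul_of_nonneg_right hcard hW0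
      _ = _ := by ring
  have t4 : (c ^ (6 * l))⁻¹ * (∑ κ ∈ FKS.Cells l (60000 * (r0 : ℤ)) ((r : ℤ) - 1) ρ,
      IPC.Pr (1 / 2) (FKN.bx n) (FKS.Land (D0 r n) (fun _ : Fin l => StI n) (r : ℤ) (60000 * (r0 : ℤ)) κ)) ≤
      (c ^ (6 * l))⁻¹ * ((4 * (2 * (((2 * Q : ℕ) : ℤ) : ℝ) + 3)) ^ l * (C1 * C2)) * wIl l (r / 10) n := by
    rw [mul_assoc]
    exact mul_le_mul_of_nonneg_left t3 (inv_pos.2 hcl).le
  linarith

end EV
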