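import Pool.Agent.Lib.MP_216314_pr.EV.Def
import Pool.Agent.Lib.MP_216314_pr.Sp.SOrb

/-!
# Even arms, stream D: exits of strands from a smaller domain

A strand which leaves `D` leaves every smaller domain `D'` before; two strands which leave `D` at different places leave `D'` at different places.
-/

set_option autoImplicit false

noncomputable section

namespace EV

open Finset FKI FKP FKN CY

theorem D_exit_sub {D D' ω : Finset Edge} (hD : D' ⊆ D) {s a : FKI.V} (h : FKS.Exit D ω s a) :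
    ∃ k T : ℕ, k ≤ T ∧ FKS.Run D ω s T ∧ FKS.orb ω s T = a ∧ edgeOf a ∉ D ∧ FKS.Run D' ω s k ∧
      edgeOf (FKS.orb ω s k) ∉ D' := by
  classical
  obtain ⟨T, h1, h2, h3⟩ := h
  have hex : ∃ j, edgeOf (FKS.orb ω s j) ∉ D' := ⟨T, by rw [h2]; exact fun h => h3 (hD h)⟩
  refine ⟨Nat.find hex, T, Nat.find_min' hex (by rw [h2]; exact fun h => h3 (hD h)), h1, h2, h3, ?_, Nat.find_spec hex⟩
  intro j hj
  exact not_not.1 (Nat.find_min hex hj)

theorem D_exit_time {D ω : Finset Edge} {p a b : FKI.V} {i j : ℕ} (ha : FKS.orb ω p i = a) (hb : FKS.orb ω p j = b)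
    (hra : FKS.Run D ω p i) (hrb : FKS.Run D ω p j) (ha2 : edgeOf a ∉ D) (hb2 : edgeOf b ∉ D) : a = b := by
  have hij : i = j := by
    rcases lt_trichotomy i j with h | h | h
    · have h1 := hrb i h
      rw [ha] at h1
      exact absurd h1 ha2
    · exact h
    · have h1 := hra j h
      rw [hb] at h1
      exact absurd h1 hb2
  rw [← ha, ← hb, hij]

theorem D_exitN_sub {l : ℕ} {D D' ω : Finset Edge} {Ex Ex' : Set FKI.V} {St : Fin l → Set FKI.V} (hD : D' ⊆ D)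
    (hE : ∀ c, edgeOf c ∉ D' → (edgeOf c ∈ D ∨ c ∈ Ex) → c ∈ Ex') (h : FKS.ExitN D Ex St ω) : FKS.ExitN D' Ex' St ω := by
  obtain ⟨a, hinj, ha⟩ := h
  have h1 : ∀ i, ∃ s ∈ St i, ∃ k T : ℕ, k ≤ T ∧ FKS.Run D ω s T ∧ FKS.orb ω s T = a i ∧ edgeOf (a i) ∉ D ∧ FKS.Run D' ω s k ∧
      edgeOf (FKS.orb ω s k) ∉ D' := by
    intro i
    obtain ⟨-, s, hs, hx⟩ := ha i
    exact ⟨s, hs, D_exit_sub hD hx⟩
  choose s hs k T hkT hrun horb hna hrun' hk' using h1
  refine ⟨fun i => FKS.orb ω (s i) (k i), ?_, ?_⟩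
  · intro i j hij
    have hij' : FKS.orb ω (s i) (k i) = FKS.orb ω (s j) (k j) := hij
    refine hinj (D_exit_time (D := D) (ω := ω) (p := FKS.orb ω (s i) (k i)) (i := T i - k i) (j := T j - k j) ?_ ?_ ?_ ?_
      (hna i) (hna j))
    · rw [← FKS.orb_add, Nat.add_sub_cancel' (hkT i)]
      exact horb i
    · rw [hij', ← FKS.orb_add, Nat.add_sub_cancel' (hkT j)]
      exact horb j
    · intro t ht
      rw [← FKS.orb_add]
      exact hrun i _ (by omega)
    · intro t ht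
      rw [hij', ← FKS.orb_add]
      exact hrun j _ (by omega)
  · intro i
    refine ⟨hE _ (hk' i) ?_, s i, hs i, k i, hrun' i, rfl, hk' i⟩
    rcases eq_or_lt_of_le (hkT i) with h2 | h2
    · right
      show FKS.orb ω (s i) (k i) ∈ Ex
      rw [h2, horb i]
      exact (ha i).1
    · left
      exact hrun i _ h2

theorem D_exitN_inter {l : ℕ} {D : Finset Edge} {Ex : Set FKI.V} {St : Fin l → Set FKI.V} (ω : Finset Edge) :
    FKS.ExitN D Ex St ω ↔ FKS.ExitN D Ex St (ω ∩ D) := by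
  have key : ∀ ω ω' : Finset Edge, (∀ e ∈ D, (e ∈ ω' ↔ e ∈ ω)) → FKS.ExitN D Ex St ω → FKS.ExitN D Ex St ω' := by
    intro ω ω' hω
    rintro ⟨a, hinj, ha⟩
    refine ⟨a, hinj, fun i => ?_⟩
    obtain ⟨h1, s, hs, T, h2, h3, h4⟩ := ha i
    have h5 := FKS.orb_agree (ω := ω) (ω' := ω') (s := s) (T := T) (fun j hj => hω _ (h2 j hj))
    refine ⟨h1, s, hs, T, ?_, ?_, h4⟩
    · intro j hj
      rw [h5 j hj.le]
      exact h2 j hj
    · rw [h5 T le_rfl]
      exact h3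
  constructor
  · exact key ω (ω ∩ D) fun e he => by simp [he]
  · exact key (ω ∩ D) ω fun e he => by simp [he]

theorem D_pr_exit {l : ℕ} {D D' : Finset Edge} {Ex Ex' : Set FKI.V} {St : Fin l → Set FKI.V} (hD : D' ⊆ D)
    (hE : ∀ c, edgeOf c ∉ D' → (edgeOf c ∈ D ∨ c ∈ Ex) → c ∈ Ex') :
    IPC.Pr (1 / 2) D (FKS.ExitN D Ex St) ≤ IPC.Pr (1 / 2) D' (FKS.ExitN D' Ex' St) := by
  have h1 : IPC.Pr (1 / 2) D (FKS.ExitN D' Ex' St) = IPC.Pr (1 / 2) D' (FKS.ExitN D' Ex' St) :=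
    IPC.Pr_restrict (1 / 2) hD _ fun ω _ => D_exitN_inter ω
  rw [← h1]
  exact IPC.Pr_mono (by norm_num) (by norm_num) D fun ω _ h => D_exitN_sub hD hE h

theorem D_D0 {r n : ℕ} {e : Edge} : e ∈ D0 r n ↔ e ∈ FKN.bx n ∧ (r : ℤ) ≤ nrm (ea e) ∧ (r : ℤ) ≤ nrm (eb e) := by
  unfold D0
  rw [Finset.mem_filter]

/-- a bigger hole is reached more easily -/
theorem eI_mono {l r r' n : ℕ} (h : r ≤ r') : eI l r n ≤ eI l r' n := by
  refine D_pr_exit ?_ ?_
  · intro e he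
    rw [D_D0] at he ⊢
    have h1 : (r : ℤ) ≤ r' := by exact_mod_cast h
    exact ⟨he.1, by linarith [he.2.1], by linarith [he.2.2]⟩
  · rintro c hc (h1 | h1)
    · exact ⟨(D_D0.1 h1).1, hc⟩
    · exact ⟨h1.1, hc⟩

/-- a smaller box is left more easily -/
theorem eE_anti {l R n n' : ℕ} (h : n ≤ n') : eE l R n' ≤ eE l R n := by
  have hb : FKN.bx n ⊆ FKN.bx n' := by
    intro e he
    rw [FKN.mem_bx] at he ⊢
    have h1 : (n : ℤ) ≤ n' := by exact_mod_cast h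
    exact ⟨by linarith [he.1], by linarith [he.2]⟩
  refine D_pr_exit (Finset.sdiff_subset_sdiff hb (Finset.Subset.refl _)) ?_
  rintro c hc (h1 | h1)
  · intro h2
    exact hc (Finset.mem_sdiff.2 ⟨h2, (Finset.mem_sdiff.1 h1).2⟩)
  · exact fun h2 => h1 (hb h2)

theorem eI_nonneg (l r n : ℕ) : 0 ≤ eI l r n := IPC.Pr_nonneg (by norm_num) (by norm_num) _ _

theorem eI_le_one (l r n : ℕ) : eI l r n ≤ 1 := IPC.Pr_le_one (by norm_num) (by norm_num) _ _

theorem eE_nonneg (l R n : ℕ) : 0 ≤ eE l R n := IPC.Pr_nonneg (by norm_num) (by norm_num) _ _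

theorem eE_le_one (l R n : ℕ) : eE l R n ≤ 1 := IPC.Pr_le_one (by norm_num) (by norm_num) _ _

end EV
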