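import Pool.Agent.Lib.MP_216314_pr.N.DStA
import Pool.Agent.Lib.MP_216314_pr.N.DCvC

/-!
# Stream D for `2 l` arms: extension of canonical states and gluing
-/

set_option autoImplicit false

noncomputable section

namespace FKN

open Finset FKI FKP

private theorem DExtL_bx (k : ℕ) : bx k = bxa (0 : V) (k : ℤ) := by
  unfold bx bxa
  simp

private theorem DExtL_bxm {k k' : ℕ} (h : k ≤ k') : bx k ⊆ bx k' := by
  have h' : (k : ℤ) ≤ k' := by exact_mod_cast h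
  unfold bx
  exact box_mono (by linarith) h' (by linarith) h'

private theorem DExtL_near {k : ℕ} {e : Edge} (he : e ∈ bx k) : nrm (e.1, e.2.1) ≤ k := by
  rw [DExtL_bx] at he
  have h := bxa_near he
  rwa [sub_zero] at h

private theorem DExtL_of {k : ℕ} {e : Edge} (he : nrm (e.1, e.2.1) ≤ (k : ℤ) - 1) : e ∈ bx k := by
  rw [DExtL_bx]
  exact (bxa_of_near (by rwa [sub_zero])).1

private theorem DExtL_nrm (n : ℕ) (θ : ℝ) : nrm (ptR n θ) = n := by
  have h := ptR_norm (ρ := (n : ℝ)) (θ := θ) (Nat.cast_nonneg n)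
  rw [abs_le] at h
  have a : ((nrm (ptR n θ) : ℤ) : ℝ) < ((n : ℤ) : ℝ) + 1 := by
    rw [Int.cast_natCast]
    linarith [h.2]
  have b : ((n : ℤ) : ℝ) < ((nrm (ptR n θ) : ℤ) : ℝ) + 1 := by
    rw [Int.cast_natCast]
    linarith [h.1]
  have a' : nrm (ptR n θ) < (n : ℤ) + 1 := by exact_mod_cast a
  have b' : (n : ℤ) < nrm (ptR n θ) + 1 := by exact_mod_cast b
  omega

private theorem DExtL_tri {n : ℕ} {a x : V} {w : ℤ} (ha : nrm a = n) (h : nrm (x - a) ≤ w) :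
    (n : ℤ) - w ≤ nrm x ∧ nrm x ≤ n + w := by
  have t1 := nrmD_tri (x - a) a
  have t2 := nrmD_tri (a - x) x
  rw [sub_add_cancel] at t1 t2
  have t3 : nrm (a - x) = nrm (x - a) := by rw [← nrm_neg, neg_sub]
  rw [ha] at t1 t2
  rw [t3] at t2
  constructor
  · linarith
  · linarith

private theorem DExtL_bxs {l n : ℕ} {a : Fin l → V} (ha : ∀ i, nrm (a i) = n) {w : ℤ} {e : Edge}
    (he : e ∈ bxs a w) : (n : ℤ) - w ≤ nrm (e.1, e.2.1) ∧ nrm (e.1, e.2.1) ≤ n + w := by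
  obtain ⟨i, _, hi⟩ := Finset.mem_biUnion.1 he
  exact DExtL_tri (ha i) (bxa_near hi)

private theorem DExtL_ud {l n : ℕ} {a : Fin l → V} (ha : ∀ i, nrm (a i) = n) {w : ℤ} {e : Edge}
    (he : e ∈ ud (bxs a w)) :
    (n : ℤ) - (w + 1) ≤ nrm (e.1, e.2.1) ∧ nrm (e.1, e.2.1) ≤ n + (w + 1) := by
  obtain ⟨d, hd, rfl⟩ := Finset.mem_map.1 he
  obtain ⟨i, _, hi⟩ := Finset.mem_biUnion.1 hd
  have h : dl.symm.toEmbedding d ∈ ud (bxa (a i) w) := Finset.mem_map_of_mem _ hi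
  exact DExtL_tri (ha i) (ud_bxa_near h)

private theorem DExtL_rr {l : ℕ} (hl : 1 ≤ l) (n : ℕ) : 100 * rr l n ≤ n := by
  unfold rr
  have h1 : n / (100 * l) ≤ n / 100 := Nat.div_le_div_left (Nat.le_mul_of_pos_right _ hl) (by norm_num)
  have h2 := Nat.mul_div_le n 100
  omega

private theorem DExtL_rrm {l n n' : ℕ} (h : n ≤ n') : rr l n ≤ rr l n' := by
  unfold rr
  exact Nat.div_le_div_right h

private theorem DExtL_cO {l : ℕ} (n : ℕ) (i : Fin l) : nrm (cO l n i) = n := DExtL_nrm n _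

private theorem DExtL_cD {l : ℕ} (n : ℕ) (i : Fin l) : nrm (cD l n i) = n := DExtL_nrm n _

/-- position of the end boxes -/
private theorem DExtL_boxO {l n k : ℕ} (hl : 1 ≤ l) {X0 : Finset Edge} (hX : X0 ⊆ bx (n / 2)) (hn : 600 ≤ n) (hk : 2 * n ≤ k) :
    bxs (cO l n) (10 * rr l n) ⊆ bx k \ X0 := by
  intro e he
  have h := DExtL_bxs (DExtL_cO n) he
  have hr := DExtL_rr hl n
  rw [Finset.mem_sdiff]
  refine ⟨DExtL_of (by omega), fun h2 => ?_⟩
  have h3 := DExtL_near (hX h2)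
  omega

private theorem DExtL_boxD {l n k : ℕ} (hl : 1 ≤ l) {X0 : Finset Edge} (hX : X0 ⊆ bx (n / 2)) (hn : 600 ≤ n) (hk : 2 * n ≤ k) :
    ud (bxs (cD l n) (10 * rr l n)) ⊆ bx k \ X0 := by
  intro e he
  have h := DExtL_ud (DExtL_cD n) he
  have hr := DExtL_rr hl n
  rw [Finset.mem_sdiff]
  refine ⟨DExtL_of (by omega), fun h2 => ?_⟩
  have h3 := DExtL_near (hX h2)
  omega

/-- the end boxes are far from the centre -/
private theorem DExtL_farO {l n k : ℕ} (hl : 1 ≤ l) (hn : 600 ≤ n) (hk : 3 * k ≤ 2 * n) {e : Edge}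
    (he : e ∈ bxs (cO l n) (10 * rr l n)) : e ∉ bx k := by
  intro h1
  have h := DExtL_bxs (DExtL_cO n) he
  have h2 := DExtL_near h1
  have hr := DExtL_rr hl n
  omega

private theorem DExtL_farD {l n k : ℕ} (hl : 1 ≤ l) (hn : 600 ≤ n) (hk : 3 * k ≤ 2 * n) {e : Edge}
    (he : e ∈ ud (bxs (cD l n) (10 * rr l n))) : e ∉ bx k := by
  intro h1
  have h := DExtL_ud (DExtL_cD n) he
  have h2 := DExtL_near h1
  have hr := DExtL_rr hl n
  omega

private theorem DExtL_core {l : ℕ} {c q : ℝ} {N : ℕ} (hc : 0 < c) (hc1 : c ≤ 1) (h0 : 0 ≤ q) (h1 : q ≤ 1)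
    (hRB : RB c q N) {E Fp Fm Fp' Fm' : Finset Edge} {Lp Lm : Finset (V × ℤ)} {M : ℕ}
    (hMp : Lp.card ≤ M) (hMm : Lm.card ≤ M)
    (hLp : ∀ p ∈ Lp, 1 ≤ p.2 ∧ p.2 ≤ N) (hLm : ∀ p ∈ Lm, 1 ≤ p.2 ∧ p.2 ≤ N)
    (hFp : Fp ⊆ E) (hFm : Fm ⊆ E) (hNp : RN Lp ⊆ E) (hNm : ud (RN Lm) ⊆ E)
    (d1 : Disjoint (RN Lp) Fm) (d2 : Disjoint (ud (RN Lm)) Fp) (d3 : Disjoint (RN Lp) (ud (RN Lm)))
    {A D : Finset Edge → Prop} (iA : Inc A) (iD : Inc D)
    {Sp Tp Sm Tm : Finset Edge → (Fin l → V) → Prop}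
    (hSp : IncS Sp) (hTp : IncS Tp) (hSm : IncS Sm) (hTm : IncS Tm)
    (hA : ∀ η, A η → Rings Lp η → StG Sp Tp η) (hD : ∀ η, D η → Rings Lm η → StG Sm Tm η)
    (hp1 : Fp ⊆ Fp') (hp2 : RN Lp ⊆ Fp') (hm1 : Fm ⊆ Fm') (hm2 : ud (RN Lm) ⊆ Fm') :
    IPC.Pr q E (fun ω => A (ω ∩ Fp) ∧ D (dc Fm ω)) ≤
      (c ^ (8 * M))⁻¹ * IPC.Pr q E (StE Fp' Fm' Sp Tp Sm Tm) := by
  have e1 := ext_rings hc hc1 h0 h1 hRB hMp hMm hLp hLm hFp hFm hNp hNm d1 d2 d3 iA iD
    (StG_inc hSp hTp) (StG_inc hSm hTm) hA hD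
  have e2 : IPC.Pr q E (StE (Fp ∪ RN Lp) (Fm ∪ ud (RN Lm)) Sp Tp Sm Tm) ≤
      IPC.Pr q E (StE Fp' Fm' Sp Tp Sm Tm) :=
    pr_StE_mono h0 h1 hSp hTp hSm hTm (Finset.union_subset hp1 hp2) (Finset.union_subset hm1 hm2)
  have hpos : 0 < c ^ (8 * M) := pow_pos hc _
  rw [le_inv_mul_iff₀ hpos, mul_comm]
  exact e1.trans e2

private theorem DExtL_linkO {l n n' M : ℕ} {Lo Ld : Finset (V × ℤ)} (hG : GeoCan l M n n' Lo Ld)
    {Sg : Finset Edge → (Fin l → V) → Prop} {η : Finset Edge}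
    (h : StG Sg (ringT (cO l n) (rr l n)) η) (hR : Rings Lo η) :
    StG Sg (ringT (cO l n') (rr l n')) η := by
  obtain ⟨s, v, hs, hv, hr⟩ := h
  choose v' hv' using fun i => hG.link_o η i (v i) hR (hv i)
  exact ⟨s, v', hs, fun i => (hv' i).1, fun i => (hr i).trans (hv' i).2⟩

private theorem DExtL_linkD {l n n' M : ℕ} {Lo Ld : Finset (V × ℤ)} (hG : GeoCan l M n n' Lo Ld)
    {Sg : Finset Edge → (Fin l → V) → Prop} {η : Finset Edge}
    (h : StG Sg (ringT (cD l n) (rr l n)) η) (hR : Rings Ld η) :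
    StG Sg (ringT (cD l n') (rr l n')) η := by
  obtain ⟨s, v, hs, hv, hr⟩ := h
  choose v' hv' using fun i => hG.link_d η i (v i) hR (hv i)
  exact ⟨s, v', hs, fun i => (hv' i).1, fun i => (hr i).trans (hv' i).2⟩

/-- gluing of two families of arms at the circuits -/
private theorem DExtL_join {l : ℕ} {a : Fin l → V} {r : ℤ} (hr : 0 ≤ r)
    {Sg Tg : Finset Edge → (Fin l → V) → Prop} {η : Finset Edge}
    (h : StG Sg (ringT a r) η) (h' : StG Tg (ringT a r) η) : StG Sg Tg η := by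
  obtain ⟨s, v, hs, hv, hc⟩ := h
  obtain ⟨s', v', hs', hv', hc'⟩ := h'
  exact ⟨s, s', hs, hs', fun i =>
    ((hc i).trans (ring_uniq hr (hv i) (hv' i))).trans (hc' i).symm⟩

private theorem DExtL_dc {F F' ω : Finset Edge} (h : F ⊆ F') : dc F ω ⊆ dc F' ω := by
  unfold dc
  exact Finset.map_subset_map.2 (Finset.sdiff_subset_sdiff h (Finset.Subset.refl _))

/-- universal extension, outwards -/
theorem can_outL {l : ℕ} (hl : 1 ≤ l) {c : ℝ} (hc : 0 < c) (hc1 : c ≤ 1) (κ : ℕ) : ∃ C : ℝ, 0 < C ∧ ∀ (q : ℝ) (n n' N : ℕ)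
    (X0 : Finset Edge) (Sp Sm : Finset Edge → (Fin l → V) → Prop), 0 ≤ q → q ≤ 1 → IncS Sp → IncS Sm → X0 ⊆ bx (n / 2) → RB c q N →
    n' ≤ 100 * N → 600 * l ≤ n → 3 * n ≤ n' → n' ≤ κ * n →
    IPC.Pr q (bx (2 * n)) (CanO l X0 Sp Sm n) ≤ C * IPC.Pr q (bx (2 * n')) (CanO l X0 Sp Sm n') := by
  obtain ⟨M, hM⟩ := geo_can_out hl κ
  refine ⟨(c ^ (8 * M))⁻¹, inv_pos.2 (pow_pos hc _), ?_⟩
  intro q n n' N X0 Sp Sm h0 h1 hSp hSm hX0 hRB hN hnl h3 hκ
  have hn : 600 ≤ n := le_trans (Nat.le_mul_of_pos_right _ hl) hnl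
  obtain ⟨Lo, Ld, hG, g1, g2, g3, g4, g5, g6⟩ := hM n n' hnl h3 hκ
  have hr := DExtL_rr hl n
  have hr' := DExtL_rr hl n'
  have hmax : max n n' = n' := max_eq_right (by omega)
  have hrN : rr l n' ≤ N := by omega
  have hrN' : ((rr l n' : ℕ) : ℤ) ≤ N := by exact_mod_cast hrN
  have hLo : ∀ p ∈ Lo, 1 ≤ p.2 ∧ p.2 ≤ (N : ℤ) := by
    intro p hp
    have h := hG.rad_o p hp
    rw [hmax] at h
    exact ⟨h.1, h.2.trans hrN'⟩
  have hLd : ∀ p ∈ Ld, 1 ≤ p.2 ∧ p.2 ≤ (N : ℤ) := by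
    intro p hp
    have h := hG.rad_d p hp
    rw [hmax] at h
    exact ⟨h.1, h.2.trans hrN'⟩
  have hX : X0 ⊆ bx n := hX0.trans (DExtL_bxm (by omega))
  have hreg := CanO_region hl X0 n hX
  have hreg' : ((bx (n - 5 * rr l n) \ X0) ∪ bxs (cO l n) (10 * rr l n)) ∪
      ((bx (n - 5 * rr l n) \ X0) ∪ ud (bxs (cD l n) (10 * rr l n))) ⊆ bx (2 * n') :=
    hreg.trans (DExtL_bxm (by omega))
  have e1 : IPC.Pr q (bx (2 * n)) (CanO l X0 Sp Sm n) = IPC.Pr q (bx (2 * n')) (CanO l X0 Sp Sm n) :=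
    pr_StE q Sp (ringT (cO l n) (rr l n)) Sm (ringT (cD l n) (rr l n)) hreg hreg'
  have hcore : bx (n - 5 * rr l n) \ X0 ⊆ bx (n' - 5 * rr l n') \ X0 :=
    Finset.sdiff_subset_sdiff (DExtL_bxm (by omega)) (Finset.Subset.refl _)
  have he0 : X0 ⊆ bx (n - 5 * rr l n) := hX0.trans (DExtL_bxm (by omega))
  have hE : bx (n' + 5 * rr l n') ⊆ bx (2 * n') := DExtL_bxm (by omega)
  rw [e1]
  refine DExtL_core hc hc1 h0 h1 hRB hG.card_o hG.card_d hLo hLd
    (Finset.union_subset_left hreg') (Finset.union_subset_right hreg') (g5.trans hE) (g6.trans hE)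
    ?_ ?_ hG.disj (StG_inc hSp (ringT_inc _ _)) (StG_inc hSm (ringT_inc _ _))
    hSp (ringT_inc _ _) hSm (ringT_inc _ _)
    (fun η h hR => DExtL_linkO hG h hR) (fun η h hR => DExtL_linkD hG h hR) ?_ ?_ ?_ ?_
  · exact Finset.disjoint_union_right.2
      ⟨Finset.disjoint_of_subset_right Finset.sdiff_subset g1, hG.av_o⟩
  · exact Finset.disjoint_union_right.2
      ⟨Finset.disjoint_of_subset_right Finset.sdiff_subset g2, hG.av_d⟩
  · refine Finset.union_subset (hcore.trans Finset.subset_union_left) ?_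
    exact (DExtL_boxO hl hX0 hn (by omega)).trans Finset.subset_union_left
  · intro e he
    have hne : e ∉ X0 := fun h2 => Finset.disjoint_left.1 g1 he (he0 h2)
    rcases Finset.mem_union.1 (g3 he) with h | h
    · exact Finset.mem_union_left _ (Finset.mem_sdiff.2 ⟨h, hne⟩)
    · exact Finset.mem_union_right _ h
  · refine Finset.union_subset (hcore.trans Finset.subset_union_left) ?_
    exact (DExtL_boxD hl hX0 hn (by omega)).trans Finset.subset_union_left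
  · intro e he
    have hne : e ∉ X0 := fun h2 => Finset.disjoint_left.1 g2 he (he0 h2)
    rcases Finset.mem_union.1 (g4 he) with h | h
    · exact Finset.mem_union_left _ (Finset.mem_sdiff.2 ⟨h, hne⟩)
    · exact Finset.mem_union_right _ h

/-- universal extension, inwards -/
theorem can_innL {l : ℕ} (hl : 1 ≤ l) {c : ℝ} (hc : 0 < c) (hc1 : c ≤ 1) (κ : ℕ) : ∃ C : ℝ, 0 < C ∧ ∀ (q : ℝ) (r r' n N : ℕ),
    0 ≤ q → q ≤ 1 → RB c q N → r ≤ 100 * N → 600 * l ≤ r' → 3 * r' ≤ r → r ≤ κ * r' → 2 * r ≤ n →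
    IPC.Pr q (bx n) (CanI l r n) ≤ C * IPC.Pr q (bx n) (CanI l r' n) := by
  obtain ⟨M, hM⟩ := geo_can_inn hl κ
  refine ⟨(c ^ (8 * M))⁻¹, inv_pos.2 (pow_pos hc _), ?_⟩
  intro q r r' n N h0 h1 hRB hN hrl h3 hκ hn
  have hr0 : 600 ≤ r' := le_trans (Nat.le_mul_of_pos_right _ hl) hrl
  obtain ⟨Lo, Ld, hG, g1, g2, g3, g4⟩ := hM r r' hrl h3 hκ
  have hr := DExtL_rr hl r
  have hr' := DExtL_rr hl r'
  have hrm := DExtL_rrm (l := l) (n := r') (n' := r) (by omega)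
  have hmax : max r r' = r := max_eq_left (by omega)
  have hrN : rr l r ≤ N := by omega
  have hrN' : ((rr l r : ℕ) : ℤ) ≤ N := by exact_mod_cast hrN
  have hLo : ∀ p ∈ Lo, 1 ≤ p.2 ∧ p.2 ≤ (N : ℤ) := by
    intro p hp
    have h := hG.rad_o p hp
    rw [hmax] at h
    exact ⟨h.1, h.2.trans hrN'⟩
  have hLd : ∀ p ∈ Ld, 1 ≤ p.2 ∧ p.2 ≤ (N : ℤ) := by
    intro p hp
    have h := hG.rad_d p hp
    rw [hmax] at h
    exact ⟨h.1, h.2.trans hrN'⟩
  have hreg := CanI_region hl (r := r) (n := n) hn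
  have hE : bx (r + 5 * rr l r) ⊆ bx n := DExtL_bxm (by omega)
  have han : an (r + 5 * rr l r) n ⊆ an (r' + 5 * rr l r') n :=
    Finset.sdiff_subset_sdiff (Finset.Subset.refl _) (DExtL_bxm (by omega))
  have hdan : ∀ {F : Finset Edge}, F ⊆ bx (r + 5 * rr l r) → Disjoint F (an (r + 5 * rr l r) n) := by
    intro F hF
    rw [Finset.disjoint_left]
    intro e h2 h3
    exact (Finset.mem_sdiff.1 h3).2 (hF h2)
  refine DExtL_core hc hc1 h0 h1 hRB hG.card_o hG.card_d hLo hLd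
    (Finset.union_subset_left hreg) (Finset.union_subset_right hreg) (g1.trans hE) (g2.trans hE)
    ?_ ?_ hG.disj (StG_inc (bdP_inc _) (ringT_inc _ _)) (StG_inc (bdD_inc _) (ringT_inc _ _))
    (bdP_inc _) (ringT_inc _ _) (bdD_inc _) (ringT_inc _ _)
    (fun η h hR => DExtL_linkO hG h hR) (fun η h hR => DExtL_linkD hG h hR) ?_ ?_ ?_ ?_
  · exact Finset.disjoint_union_right.2 ⟨hdan g1, hG.av_o⟩
  · exact Finset.disjoint_union_right.2 ⟨hdan g2, hG.av_d⟩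
  · refine Finset.union_subset (han.trans Finset.subset_union_left) ?_
    intro e he
    refine Finset.mem_union_left _ (Finset.mem_sdiff.2 ⟨?_, ?_⟩)
    · exact hreg (Finset.mem_union_left _ (Finset.mem_union_right _ he))
    · exact DExtL_farO hl (by omega) (by omega) he
  · intro e he
    rcases g3 e he with h | h
    · exact Finset.mem_union_left _ (Finset.mem_sdiff.2 ⟨hE (g1 he), h⟩)
    · exact Finset.mem_union_right _ h
  · refine Finset.union_subset (han.trans Finset.subset_union_left) ?_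
    intro e he
    refine Finset.mem_union_left _ (Finset.mem_sdiff.2 ⟨?_, ?_⟩)
    · exact hreg (Finset.mem_union_right _ (Finset.mem_union_right _ he))
    · exact DExtL_farD hl (by omega) (by omega) he
  · intro e he
    rcases g4 e he with h | h
    · exact Finset.mem_union_left _ (Finset.mem_sdiff.2 ⟨hE (g2 he), h⟩)
    · exact Finset.mem_union_right _ h

/-- gluing of an outer canonical state at scale `n` and an inner canonical state at scale `r` -/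
theorem can_glueL {l : ℕ} (hl : 1 ≤ l) {c : ℝ} (hc : 0 < c) (hc1 : c ≤ 1) (κ : ℕ) : ∃ C : ℝ, 0 < C ∧ ∀ (q : ℝ) (n r m N : ℕ)
    (X0 : Finset Edge) (Sp Sm : Finset Edge → (Fin l → V) → Prop), 0 ≤ q → q ≤ 1 → IncS Sp → IncS Sm → X0 ⊆ bx (n / 2) → RB c q N →
    r ≤ 100 * N → 600 * l ≤ n → 3 * n ≤ r → r ≤ κ * n → 2 * r ≤ m →
    IPC.Pr q (bx (2 * n)) (CanO l X0 Sp Sm n) * IPC.Pr q (bx m) (CanI l r m) ≤
      C * IPC.Pr q (bx m) (StE (bx m \ X0) (bx m \ X0) Sp (bdP m) Sm (bdD m)) := by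
  obtain ⟨M, hM⟩ := geo_can_out hl κ
  refine ⟨(c ^ (8 * M))⁻¹, inv_pos.2 (pow_pos hc _), ?_⟩
  intro q n r m N X0 Sp Sm h0 h1 hSp hSm hX0 hRB hN hnl h3 hκ hm
  have hn : 600 ≤ n := le_trans (Nat.le_mul_of_pos_right _ hl) hnl
  obtain ⟨Lo, Ld, hG, g1, g2, g3, g4, g5, g6⟩ := hM n r hnl h3 hκ
  have hr := DExtL_rr hl n
  have hr' := DExtL_rr hl r
  have hmax : max n r = r := max_eq_right (by omega)
  have hrN : rr l r ≤ N := by omega
  have hrN' : ((rr l r : ℕ) : ℤ) ≤ N := by exact_mod_cast hrN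
  have hLo : ∀ p ∈ Lo, 1 ≤ p.2 ∧ p.2 ≤ (N : ℤ) := by
    intro p hp
    have h := hG.rad_o p hp
    rw [hmax] at h
    exact ⟨h.1, h.2.trans hrN'⟩
  have hLd : ∀ p ∈ Ld, 1 ≤ p.2 ∧ p.2 ≤ (N : ℤ) := by
    intro p hp
    have h := hG.rad_d p hp
    rw [hmax] at h
    exact ⟨h.1, h.2.trans hrN'⟩
  have hX : X0 ⊆ bx n := hX0.trans (DExtL_bxm (by omega))
  have hregO := CanO_region hl X0 n hX
  have hregI := CanI_region hl (r := r) (n := m) hm
  have h2n : bx (2 * n) ⊆ bx m := DExtL_bxm (by omega)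
  obtain ⟨FpO, hFpO⟩ : ∃ F, F = (bx (n - 5 * rr l n) \ X0) ∪ bxs (cO l n) (10 * rr l n) := ⟨_, rfl⟩
  obtain ⟨FmO, hFmO⟩ : ∃ F, F = (bx (n - 5 * rr l n) \ X0) ∪ ud (bxs (cD l n) (10 * rr l n)) :=
    ⟨_, rfl⟩
  obtain ⟨FpI, hFpI⟩ : ∃ F, F = an (r + 5 * rr l r) m ∪ bxs (cO l r) (10 * rr l r) := ⟨_, rfl⟩
  obtain ⟨FmI, hFmI⟩ : ∃ F, F = an (r + 5 * rr l r) m ∪ ud (bxs (cD l r) (10 * rr l r)) := ⟨_, rfl⟩
  rw [← hFpO, ← hFmO] at hregO
  rw [← hFpI, ← hFmI] at hregI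
  have hregO' : FpO ∪ FmO ⊆ bx m := hregO.trans h2n
  have e1 : IPC.Pr q (bx (2 * n)) (CanO l X0 Sp Sm n) = IPC.Pr q (bx m) (StE FpO FmO Sp (ringT (cO l n) (rr l n)) Sm
      (ringT (cD l n) (rr l n))) := by
    have h := pr_StE q Sp (ringT (cO l n) (rr l n)) Sm (ringT (cD l n) (rr l n)) hregO hregO'
    rw [← h, hFpO, hFmO]
    rfl
  have e2 : IPC.Pr q (bx m) (CanI l r m) = IPC.Pr q (bx m) (StE FpI FmI (bdP m) (ringT (cO l r) (rr l r)) (bdD m)
      (ringT (cD l r) (rr l r))) := by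
    rw [hFpI, hFmI]
    rfl
  have hsep : ∀ e ∈ bx (2 * n), e ∉ FpI ∪ FmI := by
    intro e he h
    have hbig : e ∈ bx (r + 5 * rr l r) := DExtL_bxm (by omega) he
    rw [hFpI, hFmI] at h
    rcases Finset.mem_union.1 h with h | h
    · rcases Finset.mem_union.1 h with h | h
      · exact (Finset.mem_sdiff.1 h).2 hbig
      · exact DExtL_farO hl (by omega) (by omega) h he
    · rcases Finset.mem_union.1 h with h | h
      · exact (Finset.mem_sdiff.1 h).2 hbig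
      · exact DExtL_farD hl (by omega) (by omega) h he
  have hdisj : Disjoint (FpO ∪ FmO) (FpI ∪ FmI) := by
    rw [Finset.disjoint_left]
    intro e he
    exact hsep e (hregO he)
  have e3 := pq_indep q hregO' hregI hdisj
    (StE_dep FpO FmO Sp (ringT (cO l n) (rr l n)) Sm (ringT (cD l n) (rr l n)))
    (StE_dep FpI FmI (bdP m) (ringT (cO l r) (rr l r)) (bdD m) (ringT (cD l r) (rr l r)))
  rw [e1, e2, ← e3]
  obtain ⟨A, hAd⟩ : ∃ A : Finset Edge → Prop, A = fun η =>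
    StG Sp (ringT (cO l n) (rr l n)) η ∧ StG (bdP m) (ringT (cO l r) (rr l r)) η := ⟨_, rfl⟩
  obtain ⟨D, hDd⟩ : ∃ D : Finset Edge → Prop, D = fun η =>
    StG Sm (ringT (cD l n) (rr l n)) η ∧ StG (bdD m) (ringT (cD l r) (rr l r)) η := ⟨_, rfl⟩
  have iO := StG_inc hSp (ringT_inc (cO l n) (rr l n))
  have iO' := StG_inc (bdP_inc (l := l) m) (ringT_inc (cO l r) (rr l r))
  have iD := StG_inc hSm (ringT_inc (cD l n) (rr l n))
  have iD' := StG_inc (bdD_inc (l := l) m) (ringT_inc (cD l r) (rr l r))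
  have iA : Inc A := by
    intro ω ω' h2 h4
    rw [hAd] at h4 ⊢
    exact ⟨iO _ _ h2 h4.1, iO' _ _ h2 h4.2⟩
  have iDD : Inc D := by
    intro ω ω' h2 h4
    rw [hDd] at h4 ⊢
    exact ⟨iD _ _ h2 h4.1, iD' _ _ h2 h4.2⟩
  have e4 : IPC.Pr q (bx m) (fun ω => StE FpO FmO Sp (ringT (cO l n) (rr l n)) Sm
      (ringT (cD l n) (rr l n)) ω ∧ StE FpI FmI (bdP m) (ringT (cO l r) (rr l r)) (bdD m)
      (ringT (cD l r) (rr l r)) ω) ≤
      IPC.Pr q (bx m) (fun ω => A (ω ∩ (FpO ∪ FpI)) ∧ D (dc (FmO ∪ FmI) ω)) := by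
    refine pq_mono h0 h1 fun ω _ h => ?_
    rw [hAd, hDd]
    refine ⟨⟨iO _ _ ?_ h.1.1, iO' _ _ ?_ h.2.1⟩, ⟨iD _ _ ?_ h.1.2, iD' _ _ ?_ h.2.2⟩⟩
    · exact Finset.inter_subset_inter (Finset.Subset.refl _) Finset.subset_union_left
    · exact Finset.inter_subset_inter (Finset.Subset.refl _) Finset.subset_union_right
    · exact DExtL_dc Finset.subset_union_left
    · exact DExtL_dc Finset.subset_union_right
  have he0 : X0 ⊆ bx (n - 5 * rr l n) := hX0.trans (DExtL_bxm (by omega))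
  have he0I : ∀ e ∈ X0, e ∉ FpI ∪ FmI := fun e he => hsep e (DExtL_bxm (by omega) (hX he))
  have hE : bx (r + 5 * rr l r) ⊆ bx m := DExtL_bxm (by omega)
  have hdan : ∀ {F : Finset Edge}, F ⊆ bx (r + 5 * rr l r) → Disjoint F (an (r + 5 * rr l r) m) := by
    intro F hF
    rw [Finset.disjoint_left]
    intro e h2 h4
    exact (Finset.mem_sdiff.1 h4).2 (hF h2)
  have hsub : ∀ {F : Finset Edge}, F ⊆ bx m → (∀ e ∈ X0, e ∉ F) → F ⊆ bx m \ X0 := by
    intro F hF h2 e he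
    exact Finset.mem_sdiff.2 ⟨hF he, fun h3 => h2 e h3 he⟩
  have hcO : FpO ⊆ bx m \ X0 := by
    rw [hFpO]
    refine Finset.union_subset ?_ (DExtL_boxO hl hX0 hn (by omega))
    exact Finset.sdiff_subset_sdiff (DExtL_bxm (by omega)) (Finset.Subset.refl _)
  have hcD : FmO ⊆ bx m \ X0 := by
    rw [hFmO]
    refine Finset.union_subset ?_ (DExtL_boxD hl hX0 hn (by omega))
    exact Finset.sdiff_subset_sdiff (DExtL_bxm (by omega)) (Finset.Subset.refl _)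
  refine e4.trans ?_
  refine DExtL_core hc hc1 h0 h1 hRB hG.card_o hG.card_d hLo hLd
    (Finset.union_subset (Finset.union_subset_left hregO') (Finset.union_subset_left hregI))
    (Finset.union_subset (Finset.union_subset_right hregO') (Finset.union_subset_right hregI))
    (g5.trans hE) (g6.trans hE) ?_ ?_ hG.disj iA iDD
    hSp (bdP_inc _) hSm (bdD_inc _) ?_ ?_ ?_ ?_ ?_ ?_
  · refine Finset.disjoint_union_right.2 ⟨?_, ?_⟩
    · rw [hFmO]
      exact Finset.disjoint_union_right.2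
        ⟨Finset.disjoint_of_subset_right Finset.sdiff_subset g1, hG.av_o⟩
    · rw [hFmI]
      exact Finset.disjoint_union_right.2 ⟨hdan g5, hG.av_o'⟩
  · refine Finset.disjoint_union_right.2 ⟨?_, ?_⟩
    · rw [hFpO]
      exact Finset.disjoint_union_right.2
        ⟨Finset.disjoint_of_subset_right Finset.sdiff_subset g2, hG.av_d⟩
    · rw [hFpI]
      exact Finset.disjoint_union_right.2 ⟨hdan g6, hG.av_d'⟩
  · intro η h hR
    rw [hAd] at h
    exact DExtL_join (Nat.cast_nonneg _) (DExtL_linkO hG h.1 hR) h.2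
  · intro η h hR
    rw [hDd] at h
    exact DExtL_join (Nat.cast_nonneg _) (DExtL_linkD hG h.1 hR) h.2
  · refine Finset.union_subset hcO (hsub (Finset.union_subset_left hregI) fun e hx h => he0I e hx ?_)
    exact Finset.mem_union_left _ h
  · exact hsub (g5.trans hE) fun e hx h => Finset.disjoint_left.1 g1 h (he0 hx)
  · refine Finset.union_subset hcD (hsub (Finset.union_subset_right hregI) fun e hx h => he0I e hx ?_)
    exact Finset.mem_union_right _ h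
  · exact hsub (g6.trans hE) fun e hx h => Finset.disjoint_left.1 g2 h (he0 hx)

end FKN
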