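import Pool.Agent.Lib.MP_216314_pr.EV.DMul

/-!
# Even arms: one more layer around the hole

If between `bx R` and `bx (R + 1)` only the edges `oe` are open, then the seeds of the hole `bx R` are connected to those of the hole `bx (R + 1)`:
`sv l R i`, `sv l (R + 1) i` are the ends of `oe l R i`, and `sf l R i`, `sf l (R + 1) i` are the faces of a vertical edge.
-/

set_option autoImplicit false

noncomputable section

namespace EV

open Finset FKI FKP FKN CY

theorem DLay_single {E ω0 : Finset Edge} (h0 : ω0 ⊆ E) {A : Finset Edge → Prop} (hA : A ω0) :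
    (1 / 2 : ℝ) ^ E.card ≤ IPC.Pr (1 / 2) E A := by
  have h2 : (1 / 2 : ℝ) ^ ω0.card * (1 - 1 / 2) ^ (E \ ω0).card * IPC.ind (A ω0) ≤
      ∑ ω ∈ E.powerset, (1 / 2 : ℝ) ^ ω.card * (1 - 1 / 2) ^ (E \ ω).card * IPC.ind (A ω) :=
    Finset.single_le_sum (f := fun ω => (1 / 2 : ℝ) ^ ω.card * (1 - 1 / 2) ^ (E \ ω).card * IPC.ind (A ω))
      (fun ω _ => mul_nonneg (by positivity) (IPC.ind_nonneg _)) (Finset.mem_powerset.2 h0)
  have h3 : (1 / 2 : ℝ) ^ ω0.card * (1 - 1 / 2) ^ (E \ ω0).card * IPC.ind (A ω0) = (1 / 2 : ℝ) ^ E.card := by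
    rw [IPC.ind_of hA, mul_one]
    have h4 : (1 - 1 / 2 : ℝ) = 1 / 2 := by norm_num
    rw [h4, ← pow_add]
    congr 1
    have := Finset.card_sdiff_add_card_eq_card h0
    omega
  rw [h3] at h2
  exact h2

private theorem DLay_nrm {v : FKI.V} (h : nrm v ≤ 0) : v = 0 := by
  unfold nrm at h
  have h3 := abs_nonpos_iff.1 (le_trans (le_max_left _ _) h)
  have h4 := abs_nonpos_iff.1 (le_trans (le_max_right _ _) h)
  exact Prod.ext h3 h4

private theorem DLay_zero : nrm (0 : FKI.V) ≤ 0 := by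
  unfold nrm
  simp

theorem oe_an {l R : ℕ} (hR : l + 2 ≤ R) (i : Fin l) : oe l R i ∈ an R (R + 1) := by
  have hi := i.2
  unfold an
  rw [Finset.mem_sdiff, FKN.mem_bx, FKN.mem_bx]
  unfold oe hr
  split_ifs with h
  · refine ⟨⟨?_, ?_⟩, fun h5 => ?_⟩
    · unfold nrm ea
      refine max_le (abs_le.2 ?_) (abs_le.2 ?_) <;> constructor <;> simp only <;> omega
    · unfold nrm eb
      simp only [Bool.false_eq_true, if_false]
      refine max_le (abs_le.2 ?_) (abs_le.2 ?_) <;> constructor <;> omega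
    · have h6 := h5.2
      unfold nrm eb at h6
      simp only [Bool.false_eq_true, if_false] at h6
      have h7 := abs_le.1 (le_trans (le_max_left _ _) h6)
      omega
  · refine ⟨⟨?_, ?_⟩, fun h5 => ?_⟩
    · unfold nrm ea
      refine max_le (abs_le.2 ?_) (abs_le.2 ?_) <;> constructor <;> simp only <;> omega
    · unfold nrm eb
      simp only [Bool.false_eq_true, if_false]
      refine max_le (abs_le.2 ?_) (abs_le.2 ?_) <;> constructor <;> omega
    · have h6 := h5.1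
      unfold nrm ea at h6
      simp only at h6
      have h7 := abs_le.1 (le_trans (le_max_left _ _) h6)
      omega

theorem sv_ends {l R : ℕ} (i : Fin l) :
    (ea (oe l R i) = sv l R i ∧ eb (oe l R i) = sv l (R + 1) i) ∨ (eb (oe l R i) = sv l R i ∧ ea (oe l R i) = sv l (R + 1) i) := by
  unfold oe sv hr
  split_ifs with h
  · left
    unfold ea eb
    simp
  · right
    unfold ea eb
    simp only [Bool.false_eq_true, if_false]
    refine ⟨Prod.ext ?_ ?_, Prod.ext ?_ ?_⟩ <;> push_cast <;> ring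

/-- the vertical edge between the faces -/
def ve (l R : ℕ) (i : Fin l) : Edge :=
  if (i : ℕ) < hr l then ((R : ℤ) + 1, -((i : ℕ) : ℤ) - 1, true) else (-(R : ℤ) - 1, -(((i : ℕ) - hr l : ℕ) : ℤ) - 1, true)

theorem ve_an {l R : ℕ} (hR : l + 2 ≤ R) (i : Fin l) : ve l R i ∈ an R (R + 1) := by
  have hi := i.2
  unfold an
  rw [Finset.mem_sdiff, FKN.mem_bx, FKN.mem_bx]
  unfold ve hr
  split_ifs with h
  · refine ⟨⟨?_, ?_⟩, fun h5 => ?_⟩
    · unfold nrm ea
      refine max_le (abs_le.2 ?_) (abs_le.2 ?_) <;> constructor <;> simp only <;> omega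
    · unfold nrm eb
      simp only [if_true]
      refine max_le (abs_le.2 ?_) (abs_le.2 ?_) <;> constructor <;> omega
    · have h6 := h5.1
      unfold nrm ea at h6
      simp only at h6
      have h7 := abs_le.1 (le_trans (le_max_left _ _) h6)
      omega
  · refine ⟨⟨?_, ?_⟩, fun h5 => ?_⟩
    · unfold nrm ea
      refine max_le (abs_le.2 ?_) (abs_le.2 ?_) <;> constructor <;> simp only <;> omega
    · unfold nrm eb
      simp only [if_true]
      refine max_le (abs_le.2 ?_) (abs_le.2 ?_) <;> constructor <;> omega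
    · have h6 := h5.1
      unfold nrm ea at h6
      simp only at h6
      have h7 := abs_le.1 (le_trans (le_max_left _ _) h6)
      omega

theorem sf_ends {l R : ℕ} (i : Fin l) :
    (ea (FKN.dl (ve l R i)) = sf l R i ∧ eb (FKN.dl (ve l R i)) = sf l (R + 1) i) ∨
      (eb (FKN.dl (ve l R i)) = sf l R i ∧ ea (FKN.dl (ve l R i)) = sf l (R + 1) i) := by
  unfold ve sf hr
  split_ifs with h
  · left
    unfold ea eb
    simp [FKN.dl]
  · right
    unfold ea eb
    simp only [FKN.dl, Equiv.coe_fn_mk, if_true, Bool.false_eq_true, if_false]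
    refine ⟨Prod.ext ?_ ?_, Prod.ext ?_ ?_⟩ <;> push_cast <;> ring

theorem oe_ne_ve {l R : ℕ} (i j : Fin l) : oe l R i ≠ ve l R j := by
  intro h
  have h1 := congrArg (fun e : Edge => e.2.2) h
  unfold oe ve at h1
  split_ifs at h1

private theorem DLay_reach {S : Finset Edge} {e : Edge} {u v : FKI.V} (he : e ∈ S)
    (h : (ea e = u ∧ eb e = v) ∨ (eb e = u ∧ ea e = v)) : (gr S).Reachable u v := by
  rcases h with ⟨rfl, rfl⟩ | ⟨rfl, rfl⟩
  · exact (FKY.gr_adj he).reachable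
  · exact (FKY.gr_adj he).symm.reachable

private theorem DLay_gr_mono {S S' : Finset Edge} (h : S ⊆ S') : gr S ≤ gr S' := by
  intro u v huv
  unfold gr at huv ⊢
  rw [SimpleGraph.fromRel_adj] at huv ⊢
  obtain ⟨h1, ⟨e, h2, h3⟩ | ⟨e, h2, h3⟩⟩ := huv
  · exact ⟨h1, Or.inl ⟨e, h h2, h3⟩⟩
  · exact ⟨h1, Or.inr ⟨e, h h2, h3⟩⟩

private theorem DLay_bx {r n : ℕ} (h : r ≤ n) : FKN.bx r ⊆ FKN.bx n := by
  intro e he
  rw [FKN.mem_bx] at he ⊢
  have h1 : (r : ℤ) ≤ n := by exact_mod_cast h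
  exact ⟨he.1.trans h1, he.2.trans h1⟩

theorem sarm_lay {l R n : ℕ} (hR : l + 2 ≤ R) (hn : R + 1 ≤ n) {ω : Finset Edge} (h : SArm l (R + 1) n ω) (hL : Lay l R ω) :
    SArm l R n ω := by
  have s1 : an (R + 1) n ⊆ an R n := Finset.sdiff_subset_sdiff (Finset.Subset.refl _) (DLay_bx (Nat.le_succ R))
  have s2 : an R (R + 1) ⊆ an R n := Finset.sdiff_subset_sdiff (DLay_bx hn) (Finset.Subset.refl _)
  obtain ⟨⟨s, v, ⟨σ, hσ⟩, hv, hc⟩, ⟨s', v', ⟨τ, hτ⟩, hv', hc'⟩⟩ := h
  refine ⟨⟨fun i => sv l R (σ i), v, ⟨σ, fun i => ?_⟩, hv, fun i => ?_⟩, ⟨fun i => sf l R (τ i), v', ⟨τ, fun i => ?_⟩, hv', fun i => ?_⟩⟩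
  · rw [sub_self]
    exact DLay_zero
  · have h1 : s i = sv l (R + 1) (σ i) := sub_eq_zero.1 (DLay_nrm (hσ i))
    have h2 : oe l R (σ i) ∈ ω ∩ an R n :=
      Finset.mem_inter.2 ⟨(hL _ (oe_an hR (σ i))).2 ⟨σ i, rfl⟩, s2 (oe_an hR (σ i))⟩
    have h3 := DLay_reach h2 (sv_ends (R := R) (σ i))
    have h4 := (hc i).mono (DLay_gr_mono (Finset.inter_subset_inter (Finset.Subset.refl ω) s1))
    rw [h1] at h4
    exact h3.trans h4
  · rw [sub_self]
    exact DLay_zero
  · have h1 : s' i = sf l (R + 1) (τ i) := sub_eq_zero.1 (DLay_nrm (hτ i))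
    have hne : ve l R (τ i) ∉ ω := by
      intro h5
      obtain ⟨j, hj⟩ := (hL _ (ve_an hR (τ i))).1 h5
      exact oe_ne_ve j (τ i) hj.symm
    have h2 : FKN.dl (ve l R (τ i)) ∈ dc (an R n) ω :=
      Finset.mem_map_of_mem FKN.dl.toEmbedding (Finset.mem_sdiff.2 ⟨s2 (ve_an hR (τ i)), hne⟩)
    have h3 := DLay_reach h2 (sf_ends (R := R) (τ i))
    have h4 : (gr (dc (an R n) ω)).Reachable (s' i) (v' i) := by
      refine (hc' i).mono (DLay_gr_mono ?_)
      unfold dc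
      exact Finset.map_subset_map.2 (Finset.sdiff_subset_sdiff s1 (Finset.Subset.refl _))
    rw [h1] at h4
    exact h3.trans h4

theorem Lay_inter {l R : ℕ} (ω : Finset Edge) : Lay l R ω ↔ Lay l R (ω ∩ an R (R + 1)) := by
  unfold Lay
  constructor
  · intro h e he
    rw [Finset.mem_inter]
    exact ⟨fun h1 => (h e he).1 h1.1, fun h1 => ⟨(h e he).2 h1, he⟩⟩
  · intro h e he
    have h2 := h e he
    rw [Finset.mem_inter] at h2
    exact ⟨fun h1 => h2.1 ⟨h1, he⟩, fun h1 => (h2.2 h1).1⟩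

/-- one more layer around the hole -/
theorem sarm_layer {l R : ℕ} (hR : l + 2 ≤ R) : ∃ c : ℝ, 0 < c ∧ ∀ n : ℕ, R + 1 ≤ n →
    c * IPC.Pr (1 / 2) (an (R + 1) n) (SArm l (R + 1) n) ≤ IPC.Pr (1 / 2) (an R n) (fun ω => SArm l R n ω ∧ Lay l R ω) := by
  refine ⟨(1 / 2 : ℝ) ^ (an R (R + 1)).card, by positivity, fun n hn => ?_⟩
  have s1 : an (R + 1) n ⊆ an R n := Finset.sdiff_subset_sdiff (Finset.Subset.refl _) (DLay_bx (Nat.le_succ R))
  have s2 : an R (R + 1) ⊆ an R n := Finset.sdiff_subset_sdiff (DLay_bx hn) (Finset.Subset.refl _)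
  have hd : Disjoint (an R (R + 1)) (an (R + 1) n) := by
    rw [Finset.disjoint_left]
    intro e he he'
    exact (Finset.mem_sdiff.1 he').2 (Finset.mem_sdiff.1 he).1
  have dA : ∀ ω, SArm l (R + 1) n ω ↔ SArm l (R + 1) n (ω ∩ an (R + 1) n) := by
    intro ω
    have h := StE_dep (an (R + 1) n) (an (R + 1) n) (SpE l (R + 1)) (bdP n) (SmE l (R + 1)) (bdD n) ω
    rw [Finset.union_self] at h
    exact h
  have e1 : IPC.Pr (1 / 2) (an R n) (SArm l (R + 1) n) = IPC.Pr (1 / 2) (an (R + 1) n) (SArm l (R + 1) n) :=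
    IPC.Pr_restrict (1 / 2) s1 _ fun ω _ => dA ω
  have e2 : IPC.Pr (1 / 2) (an R n) (Lay l R) = IPC.Pr (1 / 2) (an R (R + 1)) (Lay l R) :=
    IPC.Pr_restrict (1 / 2) s2 _ fun ω _ => Lay_inter ω
  have e3 := IPC.Pr_indep (1 / 2) s2 s1 hd (Lay l R) (SArm l (R + 1) n) (fun ω _ => Lay_inter ω) (fun ω _ => dA ω)
  rw [e1, e2] at e3
  have h4 : (1 / 2 : ℝ) ^ (an R (R + 1)).card ≤ IPC.Pr (1 / 2) (an R (R + 1)) (Lay l R) := by
    classical
    refine DLay_single (ω0 := (Finset.univ : Finset (Fin l)).image (oe l R)) ?_ ?_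
    · intro e he
      obtain ⟨i, _, rfl⟩ := Finset.mem_image.1 he
      exact oe_an hR i
    · intro e _
      rw [Finset.mem_image]
      constructor
      · rintro ⟨i, _, rfl⟩
        exact ⟨i, rfl⟩
      · rintro ⟨i, rfl⟩
        exact ⟨i, Finset.mem_univ _, rfl⟩
  refine le_trans (mul_le_mul_of_nonneg_right h4 (IPC.Pr_nonneg (by norm_num) (by norm_num) _ _)) ?_
  rw [← e3]
  exact IPC.Pr_mono (by norm_num) (by norm_num) _ fun ω _ h => ⟨sarm_lay hR hn h.2 h.1, h.1⟩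

end EV
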