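import Pool.Agent.Lib.MP_216314_pr.N.DStA
import Pool.Agent.Lib.MP_216314_pr.N.DCvB

/-!
# Stream D for `2 l` arms: from the ball states to the canonical states
-/

set_option autoImplicit false

noncomputable section

namespace FKN

open Finset FKI FKP

private theorem DOutL_rr {l : ℕ} (hl : 1 ≤ l) (n : ℕ) : 100 * rr l n ≤ n := by
  unfold rr
  have h1 : n / (100 * l) ≤ n / 100 := Nat.div_le_div_left (Nat.le_mul_of_pos_right _ hl) (by norm_num)
  have h2 := Nat.mul_div_le n 100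
  omega

private theorem DOutL_bx {a b : ℕ} (h : a ≤ b) : bx a ⊆ bx b := by
  unfold bx
  exact box_mono (by omega) (by omega) (by omega) (by omega)

private theorem DOutL_pt {a : V} {n : ℕ} {θ : ℝ}
    (h : ((a.1 : ℝ), (a.2 : ℝ)) = ((((n : ℕ) : ℤ) : ℝ) * (sq θ).1, (((n : ℕ) : ℤ) : ℝ) * (sq θ).2)) : nrm a = n := by
  have h1 : (a.1 : ℝ) = (n : ℝ) * gw θ := by
    have := congrArg Prod.fst h
    simpa [sq] using this
  have h2 : (a.2 : ℝ) = (n : ℝ) * gw (θ - 2) := by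
    have := congrArg Prod.snd h
    simpa [sq] using this
  have h3 : ((nrm a : ℤ) : ℝ) = (n : ℝ) := by
    rw [nrm_real, h1, h2, abs_mul, abs_mul, Nat.abs_cast, ← mul_max_of_nonneg _ _ (Nat.cast_nonneg n), sq_norm, mul_one]
  exact_mod_cast h3

private theorem DOutL_far (u v : V) : nrm v - nrm u ≤ nrm (u - v) := by
  have h1 := nrmD_tri u (v - u)
  rw [add_sub_cancel] at h1
  have h2 : nrm (v - u) = nrm (u - v) := by
    rw [← nrm_neg (v - u), neg_sub]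
  rw [h2] at h1
  linarith

private theorem DOutL_bdD {l n : ℕ} {η : Finset Edge} {s : Fin l → V} (h : bdD n η s) (i : Fin l) : (n : ℤ) ≤ nrm (s i) := by
  have h1 := h i
  unfold nrm
  rcases max_choice |2 * (s i).1 + 1| |2 * (s i).2 + 1| with h2 | h2
  · rw [h2] at h1
    have h3 : (n : ℤ) ≤ |(s i).1| := by
      rcases abs_cases (2 * (s i).1 + 1) with ⟨h4, h5⟩ | ⟨h4, h5⟩ <;>
        rcases abs_cases ((s i).1) with ⟨h6, h7⟩ | ⟨h6, h7⟩ <;> omega
    exact le_trans h3 (le_max_left _ _)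
  · rw [h2] at h1
    have h3 : (n : ℤ) ≤ |(s i).2| := by
      rcases abs_cases (2 * (s i).2 + 1) with ⟨h4, h5⟩ | ⟨h4, h5⟩ <;>
        rcases abs_cases ((s i).2) with ⟨h6, h7⟩ | ⟨h6, h7⟩ <;> omega
    exact le_trans h3 (le_max_right _ _)

/-- the links -/
private theorem DOutL_link {l : ℕ} {L : Finset (V × ℤ)} {Sg : Finset Edge → (Fin l → V) → Prop} {a b : Fin l → V} {r r' : ℤ}
    (hk : ∀ (η : Finset Edge) (i : Fin l) (s v : V), Rings L η → nrm (v - a i) ≤ r → 3 * r ≤ nrm (s - a i) →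
      (gr η).Reachable s v → ∃ v', RP (b i) r' η v' ∧ (gr η).Reachable s v')
    (hS : ∀ η s, Sg η s → ∀ i, 3 * r ≤ nrm (s i - a i)) (η : Finset Edge) (h : StG Sg (nearT a r) η) (hL : Rings L η) :
    StG Sg (ringT b r') η := by
  obtain ⟨s, v, h1, h2, h3⟩ := h
  have h4 : ∀ i, ∃ v', RP (b i) r' η v' ∧ (gr η).Reachable (s i) v' := fun i =>
    hk η i (s i) (v i) hL (h2 i) (hS η s h1 i) (h3 i)
  choose w hw1 hw2 using h4
  exact ⟨s, w, h1, hw1, hw2⟩

/-- outward: from balls on the boundary of `[-n,n]²` to the canonical state at scale `3 n` -/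
theorem out_extL {l : ℕ} (hl : 1 ≤ l) {c : ℝ} (hc : 0 < c) (hc1 : c ≤ 1) (k : ℕ) : ∃ C : ℝ, 0 < C ∧
    ∀ (q : ℝ) (n r R : ℕ) (X0 : Finset Edge) (Sp Sm : Finset Edge → (Fin l → V) → Prop) (zo zd : Fin l → V),
    0 ≤ q → q ≤ 1 → IncS Sp → IncS Sm → (∀ η s, Sp η s → ∀ i, nrm (s i) ≤ R) → (∀ η s, Sm η s → ∀ i, nrm (s i) ≤ R) →
    X0 ⊆ bx (n / 2) → 2 * R ≤ n → RB c q n → 2 ≤ r → 7500 * l * r ≤ n → n ≤ 2 * k * r → CycR zo zd n (30000 * r) →
    IPC.Pr q (bx n) (BS ((bx n \ X0) \ bxs zd (300 * r)) ((bx n \ X0) \ bxs zo (300 * r)) Sp Sm zo zd r) ≤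
      C * IPC.Pr q (bx (2 * (3 * n))) (CanO l X0 Sp Sm (3 * n)) := by
  obtain ⟨M, hM⟩ := geo_out hl k
  have hcM : 0 < c ^ (8 * M) := pow_pos hc _
  refine ⟨1 / c ^ (8 * M), by positivity, ?_⟩
  intro q n r R X0 Sp Sm zo zd h0 h1 hSp hSm hSpR hSmR hX0 hR hRB hr hn hk hC
  obtain ⟨Lo, Ld, G⟩ := hM n r zo zd hr hn hk hC
  have hrn : 7500 * r ≤ n := by
    have h2 : 7500 * 1 * r ≤ 7500 * l * r := Nat.mul_le_mul_right _ (Nat.mul_le_mul_left _ hl)
    omega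
  have hzo : ∀ i, nrm (zo i) = n := by
    obtain ⟨θo, θd, h2, h3, -, -⟩ := hC
    exact fun i => DOutL_pt (h2 i)
  have hzd : ∀ i, nrm (zd i) = n := by
    obtain ⟨θo, θd, h2, h3, -, -⟩ := hC
    exact fun i => DOutL_pt (h3 i)
  have hX : X0 ⊆ bx (3 * n) := hX0.trans (DOutL_bx (by omega))
  have hreg := CanO_region hl X0 (3 * n) hX
  have hn6 : bx n ⊆ bx (2 * (3 * n)) := DOutL_bx (by omega)
  have hFp : (bx n \ X0) \ bxs zd (300 * (r : ℤ)) ⊆ bx n := fun e he => (mem_sdiff.1 (mem_sdiff.1 he).1).1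
  have hFm : (bx n \ X0) \ bxs zo (300 * (r : ℤ)) ⊆ bx n := fun e he => (mem_sdiff.1 (mem_sdiff.1 he).1).1
  have hrr : 5 * rr l (3 * n) ≤ 2 * n := by
    have h2 := DOutL_rr hl (3 * n)
    omega
  have hcore : bx n ⊆ bx (3 * n - 5 * rr l (3 * n)) := DOutL_bx (by omega)
  have hRo : RN Lo ⊆ (bx (3 * n - 5 * rr l (3 * n)) \ X0) ∪ bxs (cO l (3 * n)) (10 * rr l (3 * n)) := by
    intro e he
    rcases mem_union.1 (G.fin_o he) with h2 | h2
    · refine mem_union_left _ (mem_sdiff.2 ⟨h2, ?_⟩)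
      intro h3
      exact Finset.disjoint_left.1 G.far_o he (hX0 h3)
    · exact mem_union_right _ h2
  have hRd : ud (RN Ld) ⊆ (bx (3 * n - 5 * rr l (3 * n)) \ X0) ∪ ud (bxs (cD l (3 * n)) (10 * rr l (3 * n))) := by
    intro e he
    rcases mem_union.1 (G.fin_d he) with h2 | h2
    · refine mem_union_left _ (mem_sdiff.2 ⟨h2, ?_⟩)
      intro h3
      exact Finset.disjoint_left.1 G.far_d he (hX0 h3)
    · exact mem_union_right _ h2
  have hRo6 : RN Lo ⊆ bx (2 * (3 * n)) := fun e he => hreg (mem_union_left _ (hRo he))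
  have hRd6 : ud (RN Ld) ⊆ bx (2 * (3 * n)) := fun e he => hreg (mem_union_right _ (hRd he))
  have d1 : Disjoint (RN Lo) ((bx n \ X0) \ bxs zo (300 * (r : ℤ))) := by
    rw [Finset.disjoint_left]
    intro e he h2
    exact (mem_sdiff.1 h2).2 (G.start_o e he (hFm h2))
  have d2 : Disjoint (ud (RN Ld)) ((bx n \ X0) \ bxs zd (300 * (r : ℤ))) := by
    rw [Finset.disjoint_left]
    intro e he h2
    exact (mem_sdiff.1 h2).2 (G.start_d e he (hFp h2))
  have key := ext_rings hc hc1 h0 h1 hRB (E := bx (2 * (3 * n))) (Fp := (bx n \ X0) \ bxs zd (300 * (r : ℤ)))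
    (Fm := (bx n \ X0) \ bxs zo (300 * (r : ℤ))) (Lp := Lo) (Lm := Ld) (M := M) G.card_o G.card_d G.rad_o G.rad_d
    (hFp.trans hn6) (hFm.trans hn6) hRo6 hRd6 d1 d2 G.disj
    (A := StG Sp (nearT zo r)) (A' := StG Sp (ringT (cO l (3 * n)) (rr l (3 * n))))
    (D := StG Sm (nearT zd r)) (D' := StG Sm (ringT (cD l (3 * n)) (rr l (3 * n))))
    (StG_inc hSp (nearT_inc _ _)) (StG_inc hSm (nearT_inc _ _))
    (StG_inc hSp (ringT_inc _ _)) (StG_inc hSm (ringT_inc _ _))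
    (DOutL_link G.link_o (fun η s hs i => by
      have h2 := DOutL_far (s i) (zo i)
      have h3 := hSpR η s hs i
      rw [hzo i] at h2
      omega))
    (DOutL_link G.link_d (fun η s hs i => by
      have h2 := DOutL_far (s i) (zd i)
      have h3 := hSmR η s hs i
      rw [hzd i] at h2
      omega))
  have e1 : IPC.Pr q (bx n) (BS ((bx n \ X0) \ bxs zd (300 * (r : ℤ))) ((bx n \ X0) \ bxs zo (300 * (r : ℤ))) Sp Sm zo zd r) =
      IPC.Pr q (bx (2 * (3 * n))) (StE ((bx n \ X0) \ bxs zd (300 * (r : ℤ))) ((bx n \ X0) \ bxs zo (300 * (r : ℤ)))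
        Sp (nearT zo r) Sm (nearT zd r)) :=
    pr_StE q Sp (nearT zo r) Sm (nearT zd r) (union_subset hFp hFm) ((union_subset hFp hFm).trans hn6)
  have e2 : IPC.Pr q (bx (2 * (3 * n))) (StE (((bx n \ X0) \ bxs zd (300 * (r : ℤ))) ∪ RN Lo)
      (((bx n \ X0) \ bxs zo (300 * (r : ℤ))) ∪ ud (RN Ld)) Sp (ringT (cO l (3 * n)) (rr l (3 * n)))
      Sm (ringT (cD l (3 * n)) (rr l (3 * n)))) ≤ IPC.Pr q (bx (2 * (3 * n))) (CanO l X0 Sp Sm (3 * n)) := by
    refine pr_StE_mono h0 h1 hSp (ringT_inc _ _) hSm (ringT_inc _ _) ?_ ?_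
    · refine union_subset ?_ hRo
      intro e he
      exact mem_union_left _ (mem_sdiff.2 ⟨hcore (hFp he), (mem_sdiff.1 (mem_sdiff.1 he).1).2⟩)
    · refine union_subset ?_ hRd
      intro e he
      exact mem_union_left _ (mem_sdiff.2 ⟨hcore (hFm he), (mem_sdiff.1 (mem_sdiff.1 he).1).2⟩)
  have e3 := le_trans key e2
  rw [e1, one_div, inv_mul_eq_div, le_div_iff₀ hcM]
  exact e3

/-- inward: from balls on the inner boundary of the annulus to the inner canonical state at scale `r / 3` -/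
theorem inn_extL {l : ℕ} (hl : 1 ≤ l) {c : ℝ} (hc : 0 < c) (hc1 : c ≤ 1) (k : ℕ) : ∃ C : ℝ, 0 < C ∧ ∀ (q : ℝ) (s r n : ℕ) (yo yd : Fin l → V),
    0 ≤ q → q ≤ 1 → RB c q n → 2 ≤ s → 7500 * l * s ≤ r → r ≤ 2 * k * s → 8 * r ≤ n → CycR yo yd r (30000 * s) →
    IPC.Pr q (an r n) (BS (an r n \ bxs yd (300 * s)) (an r n \ bxs yo (300 * s)) (bdP n) (bdD n) yo yd s) ≤
      C * IPC.Pr q (bx n) (CanI l (r / 3) n) := by
  obtain ⟨M, hM⟩ := geo_inn hl k
  have hcM : 0 < c ^ (8 * M) := pow_pos hc _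
  refine ⟨1 / c ^ (8 * M), by positivity, ?_⟩
  intro q s r n yo yd h0 h1 hRB hs hr hk hn hC
  obtain ⟨Lo, Ld, G⟩ := hM r s yo yd hs hr hk hC
  have hyo : ∀ i, nrm (yo i) = r := by
    obtain ⟨θo, θd, h2, h3, -, -⟩ := hC
    exact fun i => DOutL_pt (h2 i)
  have hyd : ∀ i, nrm (yd i) = r := by
    obtain ⟨θo, θd, h2, h3, -, -⟩ := hC
    exact fun i => DOutL_pt (h3 i)
  have han : an r n ⊆ bx n := fun e he => (mem_sdiff.1 he).1
  have hFp : an r n \ bxs yd (300 * (s : ℤ)) ⊆ an r n := sdiff_subset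
  have hFm : an r n \ bxs yo (300 * (s : ℤ)) ⊆ an r n := sdiff_subset
  have hsr : 7500 * s ≤ r := by
    have h2 : 7500 * 1 * s ≤ 7500 * l * s := Nat.mul_le_mul_right _ (Nat.mul_le_mul_left _ hl)
    omega
  have hrr : r / 3 + 5 * rr l (r / 3) ≤ r := by
    have h2 := DOutL_rr hl (r / 3)
    omega
  have hcore : an r n ⊆ an (r / 3 + 5 * rr l (r / 3)) n := by
    intro e he
    exact mem_sdiff.2 ⟨(mem_sdiff.1 he).1, fun h2 => (mem_sdiff.1 he).2 (DOutL_bx hrr h2)⟩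
  have hRo6 : RN Lo ⊆ bx n := G.far_o.trans (DOutL_bx (by omega))
  have hRd6 : ud (RN Ld) ⊆ bx n := G.far_d.trans (DOutL_bx (by omega))
  have hRo : RN Lo ⊆ an (r / 3 + 5 * rr l (r / 3)) n ∪ bxs (cO l (r / 3)) (10 * rr l (r / 3)) := by
    intro e he
    rcases G.fin_o e he with h2 | h2
    · exact mem_union_left _ (mem_sdiff.2 ⟨hRo6 he, h2⟩)
    · exact mem_union_right _ h2
  have hRd : ud (RN Ld) ⊆ an (r / 3 + 5 * rr l (r / 3)) n ∪ ud (bxs (cD l (r / 3)) (10 * rr l (r / 3))) := by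
    intro e he
    rcases G.fin_d e he with h2 | h2
    · exact mem_union_left _ (mem_sdiff.2 ⟨hRd6 he, h2⟩)
    · exact mem_union_right _ h2
  have d1 : Disjoint (RN Lo) (an r n \ bxs yo (300 * (s : ℤ))) := by
    rw [Finset.disjoint_left]
    intro e he h2
    exact (mem_sdiff.1 h2).2 (G.start_o e he (mem_sdiff.1 (hFm h2)).2)
  have d2 : Disjoint (ud (RN Ld)) (an r n \ bxs yd (300 * (s : ℤ))) := by
    rw [Finset.disjoint_left]
    intro e he h2
    exact (mem_sdiff.1 h2).2 (G.start_d e he (mem_sdiff.1 (hFp h2)).2)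
  have hrn : (r : ℤ) ≤ n := by omega
  have key := ext_rings hc hc1 h0 h1 hRB (E := bx n) (Fp := an r n \ bxs yd (300 * (s : ℤ)))
    (Fm := an r n \ bxs yo (300 * (s : ℤ))) (Lp := Lo) (Lm := Ld) (M := M) G.card_o G.card_d
    (fun p hp => ⟨(G.rad_o p hp).1, (G.rad_o p hp).2.trans hrn⟩)
    (fun p hp => ⟨(G.rad_d p hp).1, (G.rad_d p hp).2.trans hrn⟩)
    (hFp.trans han) (hFm.trans han) hRo6 hRd6 d1 d2 G.disj
    (A := StG (bdP n) (nearT yo s)) (A' := StG (bdP n) (ringT (cO l (r / 3)) (rr l (r / 3))))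
    (D := StG (bdD n) (nearT yd s)) (D' := StG (bdD n) (ringT (cD l (r / 3)) (rr l (r / 3))))
    (StG_inc (bdP_inc _) (nearT_inc _ _)) (StG_inc (bdD_inc _) (nearT_inc _ _))
    (StG_inc (bdP_inc _) (ringT_inc _ _)) (StG_inc (bdD_inc _) (ringT_inc _ _))
    (DOutL_link G.link_o (fun η t ht i => by
      have h2 := DOutL_far (yo i) (t i)
      have h3 : nrm (t i) = n := ht i
      have h4 : nrm (yo i - t i) = nrm (t i - yo i) := by
        rw [← nrm_neg (yo i - t i), neg_sub]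
      rw [hyo i, h4] at h2
      omega))
    (DOutL_link G.link_d (fun η t ht i => by
      have h2 := DOutL_far (yd i) (t i)
      have h3 := DOutL_bdD ht i
      have h4 : nrm (yd i - t i) = nrm (t i - yd i) := by
        rw [← nrm_neg (yd i - t i), neg_sub]
      rw [hyd i, h4] at h2
      omega))
  have e1 : IPC.Pr q (an r n) (BS (an r n \ bxs yd (300 * (s : ℤ))) (an r n \ bxs yo (300 * (s : ℤ))) (bdP n) (bdD n) yo yd s) =
      IPC.Pr q (bx n) (StE (an r n \ bxs yd (300 * (s : ℤ))) (an r n \ bxs yo (300 * (s : ℤ)))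
        (bdP n) (nearT yo s) (bdD n) (nearT yd s)) :=
    pr_StE q (bdP n) (nearT yo s) (bdD n) (nearT yd s) (union_subset hFp hFm) ((union_subset hFp hFm).trans han)
  have e2 : IPC.Pr q (bx n) (StE ((an r n \ bxs yd (300 * (s : ℤ))) ∪ RN Lo)
      ((an r n \ bxs yo (300 * (s : ℤ))) ∪ ud (RN Ld)) (bdP n) (ringT (cO l (r / 3)) (rr l (r / 3)))
      (bdD n) (ringT (cD l (r / 3)) (rr l (r / 3)))) ≤ IPC.Pr q (bx n) (CanI l (r / 3) n) := by
    refine pr_StE_mono h0 h1 (bdP_inc _) (ringT_inc _ _) (bdD_inc _) (ringT_inc _ _) ?_ ?_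
    · exact union_subset ((hFp.trans hcore).trans subset_union_left) hRo
    · exact union_subset ((hFm.trans hcore).trans subset_union_left) hRd
  have e3 := le_trans key e2
  rw [e1, one_div, inv_mul_eq_div, le_div_iff₀ hcM]
  exact e3

/-- the gaps of `2 l` points in cyclic order -/
theorem cyc_smallL {l : ℕ} (hl : 1 ≤ l) {zo zd : Fin l → V} {n r : ℕ} (hn : 1 ≤ n) (h : CycR zo zd n (30000 * r)) :
    7500 * l * r ≤ n := by
  obtain ⟨θo, θd, -, -, h1, h2⟩ := h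
  obtain ⟨g, hg⟩ : ∃ g : ℝ, ((30000 * (r : ℤ) : ℤ) : ℝ) / ((n : ℤ) : ℝ) = g := ⟨_, rfl⟩
  rw [hg] at h1 h2
  have key : ∀ i : ℕ, ∀ hi : i < l, (2 * (i : ℝ) + 1) * g ≤ θd ⟨i, hi⟩ - θo ⟨0, hl⟩ := by
    intro i
    induction i with
    | zero =>
      intro hi
      have h3 := (h1 ⟨0, hi⟩ ⟨0, hi⟩ le_rfl).1
      push_cast
      linarith
    | succ i ih =>
      intro hi
      have h3 := ih (by omega)
      have h4 := (h2 ⟨i + 1, hi⟩ ⟨i, by omega⟩ (by simp [Fin.lt_def])).1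
      have h5 := (h1 ⟨i + 1, hi⟩ ⟨i + 1, hi⟩ le_rfl).1
      push_cast
      linarith
  have h3 := key (l - 1) (by omega)
  have h4 := (h1 ⟨0, hl⟩ ⟨l - 1, by omega⟩ (by simp [Fin.le_def])).2
  have h5 : ((l - 1 : ℕ) : ℝ) = (l : ℝ) - 1 := by
    rw [Nat.cast_sub hl, Nat.cast_one]
  rw [h5] at h3
  have h6 : (l : ℝ) * g ≤ 4 := by nlinarith
  have hn' : (0 : ℝ) < ((n : ℤ) : ℝ) := by exact_mod_cast hn
  rw [← hg, mul_div_assoc', div_le_iff₀ hn'] at h6
  have h7 : (7500 : ℝ) * l * r ≤ n := by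
    push_cast at h6
    linarith
  exact_mod_cast h7

end FKN
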