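import Pool.Agent.Lib.MP_216314_pr.EV.Def
import Pool.Agent.Lib.MP_216314_pr.EV.DOutL
import Pool.Agent.Lib.MP_216314_pr.EV.DExtL
import Pool.Agent.Lib.MP_216314_pr.EV.DWiL
import Pool.Agent.Lib.MP_216314_pr.N.E3P

/-!
# Even arms, stream D: landing, extension and gluing with the hole `bx R`
-/

set_option autoImplicit false

noncomputable section

namespace EV

open Finset FKI FKP FKN CY

theorem D_mem_bx {r : ℕ} {e : Edge} : e ∈ FKN.bx r ↔ nrm (ea e) ≤ r ∧ nrm (eb e) ≤ r := FKN.mem_bx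

theorem D_bx_mono {m n : ℕ} (h : m ≤ n) : FKN.bx m ⊆ FKN.bx n := by
  intro e he
  rw [D_mem_bx] at he ⊢
  omega

theorem D_src {l : ℕ} {a : Fin l → V} {η : Finset Edge} {s : Fin l → V} {w : ℤ} (h : nearS a 0 η s) (ha : ∀ i, nrm (a i) ≤ w)
    (i : Fin l) : nrm (s i) ≤ w := by
  obtain ⟨σ, h⟩ := h
  have h1 := h i
  have h2 : s i = a (σ i) := by
    unfold nrm at h1
    have h3 := abs_nonpos_iff.1 (le_trans (le_max_left _ _) h1)
    have h4 := abs_nonpos_iff.1 (le_trans (le_max_right _ _) h1)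
    exact sub_eq_zero.1 (Prod.ext h3 h4)
  rw [h2]
  exact ha _

theorem D_sv {l R : ℕ} (hR : l + 2 ≤ R) (i : Fin l) : nrm (sv l R i) ≤ ((R + 1 : ℕ) : ℤ) := by
  have hi := i.2
  unfold sv hr nrm
  split_ifs with h
  · refine max_le (abs_le.2 ?_) (abs_le.2 ?_) <;> constructor <;> simp only <;> omega
  · refine max_le (abs_le.2 ?_) (abs_le.2 ?_) <;> constructor <;> simp only <;> omega

theorem D_sf {l R : ℕ} (hR : l + 2 ≤ R) (i : Fin l) : nrm (sf l R i) ≤ ((R + 1 : ℕ) : ℤ) := by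
  have hi := i.2
  unfold sf hr nrm
  split_ifs with h
  · refine max_le (abs_le.2 ?_) (abs_le.2 ?_) <;> constructor <;> simp only <;> omega
  · refine max_le (abs_le.2 ?_) (abs_le.2 ?_) <;> constructor <;> simp only <;> omega

theorem D_wE_nonneg (l R n : ℕ) : 0 ≤ wE l R n := IPC.Pr_nonneg (by norm_num) (by norm_num) _ _

theorem D_wIl_nonneg (l r n : ℕ) : 0 ≤ wIl l r n := IPC.Pr_nonneg (by norm_num) (by norm_num) _ _

/-- outward: from balls on the boundary of `[-n,n]²` to the canonical state at scale `3 n` -/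
theorem out_ext_l {l R : ℕ} (hl : 1 ≤ l) (hR : l + 2 ≤ R) (k : ℕ) : ∃ (C : ℝ) (n0 : ℕ), 0 < C ∧
    ∀ (n r : ℕ) (zo zd : Fin l → V), n0 ≤ n → 2 ≤ r → n ≤ 2 * k * r → CycR zo zd n (30000 * r) →
    IPC.Pr (1 / 2) (FKN.bx n) (BS ((FKN.bx n \ FKN.bx R) \ bxs zd (300 * r)) ((FKN.bx n \ FKN.bx R) \ bxs zo (300 * r))
      (SpE l R) (SmE l R) zo zd r) ≤ C * wE l R (3 * n) := by
  obtain ⟨c, hc, hc1, hRB⟩ := rb_half
  obtain ⟨C, hC, h⟩ := out_extL hl hc hc1 k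
  refine ⟨C, 2 * (R + 1), hC, ?_⟩
  intro n r zo zd hn hr hk hcyc
  exact h (1 / 2) n r (R + 1) (FKN.bx R) (SpE l R) (SmE l R) zo zd (by norm_num) (by norm_num) (nearS_inc _ _)
    (nearS_inc _ _) (fun η s hs i => D_src hs (D_sv hR) i) (fun η s hs i => D_src hs (D_sf hR) i)
    (D_bx_mono (by omega)) hn (hRB n) hr (cyc_smallL hl (by omega) hcyc) hk hcyc

/-- the canonical state extends outwards -/
theorem can_out_l {l R : ℕ} (hl : 1 ≤ l) (κ : ℕ) : ∃ (C : ℝ) (n0 : ℕ), 0 < C ∧ ∀ n n' : ℕ, n0 ≤ n →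
    3 * n ≤ n' → n' ≤ κ * n → wE l R n ≤ C * wE l R n' := by
  obtain ⟨c, hc, hc1, hRB⟩ := rb_half
  obtain ⟨C, hC, h⟩ := can_outL hl hc hc1 κ
  refine ⟨C, max (2 * R) (600 * l), hC, ?_⟩
  intro n n' hn h3 hk
  rw [max_le_iff] at hn
  exact h (1 / 2) n n' n' (FKN.bx R) (SpE l R) (SmE l R) (by norm_num) (by norm_num) (nearS_inc _ _) (nearS_inc _ _)
    (D_bx_mono (by omega)) (hRB n') (by omega) hn.2 h3 hk

/-- inward: from balls on the boundary of `[-r,r]²` to the canonical state at scale `r / 3` -/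
theorem inn_ext_l {l : ℕ} (hl : 1 ≤ l) (k : ℕ) : ∃ C : ℝ, 0 < C ∧ ∀ (s r n : ℕ) (yo yd : Fin l → V),
    2 ≤ s → 1 ≤ r → r ≤ 2 * k * s → 8 * r ≤ n → CycR yo yd r (30000 * s) →
    IPC.Pr (1 / 2) (an r n) (BS (an r n \ bxs yd (300 * s)) (an r n \ bxs yo (300 * s)) (bdP n) (bdD n) yo yd s) ≤
      C * wIl l (r / 3) n := by
  obtain ⟨c, hc, hc1, hRB⟩ := rb_half
  obtain ⟨C, hC, h⟩ := inn_extL hl hc hc1 k
  refine ⟨C, hC, ?_⟩
  intro s r n yo yd hs hr hk hn hcyc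
  exact h (1 / 2) s r n yo yd (by norm_num) (by norm_num) (hRB n) hs (cyc_smallL hl hr hcyc) hk hn hcyc

/-- the canonical state extends inwards -/
theorem can_inn_600 {l : ℕ} (hl : 1 ≤ l) (κ : ℕ) : ∃ C : ℝ, 0 < C ∧ ∀ r r' n : ℕ, 600 * l ≤ r' →
    3 * r' ≤ r → r ≤ κ * r' → 2 * r ≤ n → wIl l r n ≤ C * wIl l r' n := by
  obtain ⟨c, hc, hc1, hRB⟩ := rb_half
  obtain ⟨C, hC, h⟩ := can_innL hl hc hc1 κ
  refine ⟨C, hC, ?_⟩
  intro r r' n hr h3 hk hn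
  exact h (1 / 2) r r' n r (by norm_num) (by norm_num) (hRB r) (by omega) hr h3 hk hn

/-- the canonical state extends inwards -/
theorem can_inn_l {l : ℕ} (hl : 1 ≤ l) (κ : ℕ) : ∃ (C : ℝ) (k0 : ℕ), 0 < C ∧ ∀ r r' n : ℕ, k0 ≤ r' →
    3 * r' ≤ r → r ≤ κ * r' → 2 * r ≤ n → wIl l r n ≤ C * wIl l r' n := by
  obtain ⟨C, hC, h⟩ := can_inn_600 hl κ
  exact ⟨C, 600 * l, hC, h⟩

/-- gluing -/
theorem can_glue_l {l R : ℕ} (hl : 1 ≤ l) (κ : ℕ) : ∃ (C : ℝ) (n0 : ℕ), 0 < C ∧ ∀ n r m : ℕ, n0 ≤ n →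
    3 * n ≤ r → r ≤ κ * n → 2 * r ≤ m → wE l R n * wIl l r m ≤ C * IPC.Pr (1 / 2) (an R m) (SArm l R m) := by
  obtain ⟨c, hc, hc1, hRB⟩ := rb_half
  obtain ⟨C, hC, h⟩ := can_glueL hl hc hc1 κ
  refine ⟨C, max (2 * R) (600 * l), hC, ?_⟩
  intro n r m hn h3 hk hm
  rw [max_le_iff] at hn
  have h1 := h (1 / 2) n r m r (FKN.bx R) (SpE l R) (SmE l R) (by norm_num) (by norm_num) (nearS_inc _ _) (nearS_inc _ _)
    (D_bx_mono (by omega)) (hRB r) (by omega) hn.2 h3 hk hm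
  have h2 : IPC.Pr (1 / 2) (FKN.bx m) (StE (FKN.bx m \ FKN.bx R) (FKN.bx m \ FKN.bx R) (SpE l R) (bdP m) (SmE l R) (bdD m)) =
      IPC.Pr (1 / 2) (an R m) (SArm l R m) :=
    pr_StE (1 / 2) _ _ _ _ (Finset.union_subset Finset.sdiff_subset Finset.sdiff_subset)
      (Finset.union_subset (Finset.Subset.refl _) (Finset.Subset.refl _))
  rw [h2] at h1
  exact h1

/-- the inner canonical state when the two scales are comparable -/
theorem wI_base_l {l : ℕ} (hl : 1 ≤ l) (κ : ℕ) : ∃ (C : ℝ) (k0 : ℕ), 0 < C ∧ ∀ r n : ℕ, k0 ≤ r →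
    3 * r ≤ n → n ≤ κ * r → 1 ≤ C * wIl l r n := by
  obtain ⟨c, hc, hc1, hRB⟩ := rb_half
  obtain ⟨C, hC, h⟩ := wI_baseL hl hc hc1 κ
  refine ⟨C, 600 * l, hC, ?_⟩
  intro r n hr h3 hk
  exact h (1 / 2) r n (by norm_num) (by norm_num) (hRB n) hr h3 hk

end EV
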