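import Pool.Agent.Lib.MP_216314_pr.EV.Def

/-!
# Even arms: restriction of the arm event to two disjoint annuli

`dual_in`: a dual path from outside of `[-r,r]²` to its boundary: the part before it meets the level `2 r + 1` crosses no edge of `bx r`.
`pil_mul`: `l` different clusters of `an a n` which cross it cross the annuli `an a r` and `an r n` and are different there.
-/

set_option autoImplicit false

noncomputable section

namespace EV

open Finset FKI FKP FKN CY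

private theorem DMul_gr {S : Finset Edge} {u v : FKI.V} (h : (gr S).Adj u v) :
    ∃ e ∈ S, (ea e = u ∧ eb e = v) ∨ (ea e = v ∧ eb e = u) := by
  unfold gr at h
  rw [SimpleGraph.fromRel_adj] at h
  obtain ⟨_, ⟨e, h1, h2, h3⟩ | ⟨e, h1, h2, h3⟩⟩ := h
  · exact ⟨e, h1, Or.inl ⟨h2, h3⟩⟩
  · exact ⟨e, h1, Or.inr ⟨h2, h3⟩⟩

private theorem DMul_dc {F ω : Finset Edge} {u v : FKI.V} (h : (gr (dc F ω)).Adj u v) :
    ∃ e, e ∈ F ∧ e ∉ ω ∧ ((ea (FKN.dl e) = u ∧ eb (FKN.dl e) = v) ∨ (ea (FKN.dl e) = v ∧ eb (FKN.dl e) = u)) := by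
  obtain ⟨e, he, h1⟩ := DMul_gr h
  unfold dc at he
  obtain ⟨d, hd, rfl⟩ := Finset.mem_map.1 he
  rw [Finset.mem_sdiff] at hd
  exact ⟨d, hd.1, hd.2, h1⟩

private theorem DMul_adj {F ω : Finset Edge} {e : Edge} (h1 : e ∈ F) (h2 : e ∉ ω) :
    (gr (dc F ω)).Adj (ea (FKN.dl e)) (eb (FKN.dl e)) :=
  FKY.gr_adj (Finset.mem_map_of_mem _ (Finset.mem_sdiff.2 ⟨h1, h2⟩))

private theorem DMul_odd (f : FKI.V) : ∃ k : ℤ, lvf f = 2 * k + 1 := by
  have key : ∀ x : ℤ, ∃ k : ℤ, |2 * x + 1| = 2 * k + 1 := by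
    intro x
    rcases abs_cases (2 * x + 1) with h | h
    · exact ⟨x, h.1⟩
    · exact ⟨-x - 1, by rw [h.1]; ring⟩
  unfold lvf
  rcases max_choice |2 * f.1 + 1| |2 * f.2 + 1| with h | h
  · rw [h]; exact key _
  · rw [h]; exact key _

private theorem DMul_le {f : FKI.V} {r : ℤ} (h : lvf f ≤ 2 * r + 1) : (-r - 1 ≤ f.1 ∧ f.1 ≤ r) ∧ (-r - 1 ≤ f.2 ∧ f.2 ≤ r) := by
  unfold lvf at h
  have h1 := abs_le.1 (le_trans (le_max_left _ _) h)
  have h2 := abs_le.1 (le_trans (le_max_right _ _) h)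
  omega

private theorem DMul_lvf_le {f : FKI.V} {r : ℤ} (h1 : -r - 1 ≤ f.1 ∧ f.1 ≤ r) (h2 : -r - 1 ≤ f.2 ∧ f.2 ≤ r) : lvf f ≤ 2 * r + 1 := by
  unfold lvf
  refine max_le (abs_le.2 ?_) (abs_le.2 ?_)
  · omega
  · omega

private theorem DMul_near (e : Edge) : (|(ea (FKN.dl e)).1 - (eb (FKN.dl e)).1| ≤ 1 ∧ |(ea (FKN.dl e)).2 - (eb (FKN.dl e)).2| ≤ 1) := by
  obtain ⟨x, y, t⟩ := e
  cases t
  · simp [FKN.dl, ea, eb]
  · simp [FKN.dl, ea, eb]

/-- the faces of an edge of `bx r` have level at most `2 r + 1` -/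
private theorem DMul_inbx {r : ℕ} {e : Edge} {f : FKI.V} (hf : f = ea (FKN.dl e) ∨ f = eb (FKN.dl e)) (h : e ∈ FKN.bx r) :
    lvf f ≤ 2 * (r : ℤ) + 1 := by
  obtain ⟨x, y, t⟩ := e
  rw [FKN.mem_bx] at h
  unfold nrm at h
  obtain ⟨h1, h2⟩ := h
  have h3 := abs_le.1 (le_trans (le_max_left _ _) h1)
  have h4 := abs_le.1 (le_trans (le_max_right _ _) h1)
  have h5 := abs_le.1 (le_trans (le_max_left _ _) h2)
  have h6 := abs_le.1 (le_trans (le_max_right _ _) h2)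
  cases t
  · simp only [FKN.dl, Equiv.coe_fn_mk, ea, eb, Bool.false_eq_true, if_false, if_true] at hf h3 h4 h5 h6
    rcases hf with rfl | rfl
    · refine DMul_lvf_le ?_ ?_ <;> constructor <;> simp only <;> omega
    · refine DMul_lvf_le ?_ ?_ <;> constructor <;> simp only <;> omega
  · simp only [FKN.dl, Equiv.coe_fn_mk, ea, eb, Bool.false_eq_true, if_false, if_true] at hf h3 h4 h5 h6
    rcases hf with rfl | rfl
    · refine DMul_lvf_le ?_ ?_ <;> constructor <;> simp only <;> omega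
    · refine DMul_lvf_le ?_ ?_ <;> constructor <;> simp only <;> omega

private theorem DMul_step {r : ℕ} {f g : FKI.V} (h1 : |f.1 - g.1| ≤ 1) (h2 : |f.2 - g.2| ≤ 1) (h : 2 * (r : ℤ) + 3 ≤ lvf f) :
    2 * (r : ℤ) + 1 ≤ lvf g := by
  by_contra h3
  obtain ⟨k, hk⟩ := DMul_odd g
  have h4 : lvf g ≤ 2 * ((r : ℤ) - 1) + 1 := by omega
  have h5 := DMul_le h4
  rw [abs_le] at h1 h2
  have h6 : lvf f ≤ 2 * (r : ℤ) + 1 := DMul_lvf_le (by omega) (by omega)
  omega

/-- a dual path from outside until it meets the level `2 r + 1` -/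
theorem dual_in {F F' ω : Finset Edge} {r : ℕ} (hF : ∀ e ∈ F, e ∉ FKN.bx r → e ∈ F') {g f : FKI.V}
    (h : (gr (dc F ω)).Reachable g f) (hg : 2 * (r : ℤ) + 1 ≤ lvf g) (hf : lvf f ≤ 2 * (r : ℤ) + 1) :
    ∃ z : FKI.V, lvf z = 2 * r + 1 ∧ (gr (dc F' ω)).Reachable g z := by
  obtain ⟨p⟩ := h
  induction p with
  | nil => exact ⟨_, le_antisymm hf hg, SimpleGraph.Reachable.refl _⟩
  | @cons a b c hab p ih =>
    rcases eq_or_lt_of_le hg with hge | hgl
    · exact ⟨a, hge.symm, SimpleGraph.Reachable.refl _⟩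
    · have hg2 : 2 * (r : ℤ) + 3 ≤ lvf a := by
        obtain ⟨k, hk⟩ := DMul_odd a
        omega
      obtain ⟨e, he1, he2, he3⟩ := DMul_dc hab
      have hbx : e ∉ FKN.bx r := by
        intro h5
        rcases he3 with ⟨h1, _⟩ | ⟨_, h1⟩
        · have := DMul_inbx (Or.inl h1.symm) h5
          omega
        · have := DMul_inbx (Or.inr h1.symm) h5
          omega
      have hadj := DMul_adj (ω := ω) (hF e he1 hbx) he2
      have hnear := DMul_near e
      have hb : 2 * (r : ℤ) + 1 ≤ lvf b := by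
        rcases he3 with ⟨h1, h2⟩ | ⟨h1, h2⟩
        · rw [h1, h2] at hnear
          exact DMul_step hnear.1 hnear.2 hg2
        · rw [h1, h2, abs_sub_comm, abs_sub_comm b.2] at hnear
          exact DMul_step hnear.1 hnear.2 hg2
      obtain ⟨z, hz1, hz2⟩ := ih hb hf
      refine ⟨z, hz1, SimpleGraph.Reachable.trans ?_ hz2⟩
      rcases he3 with ⟨h1, h2⟩ | ⟨h1, h2⟩
      · rw [h1, h2] at hadj
        exact hadj.reachable
      · rw [h1, h2] at hadj
        exact hadj.symm.reachable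

private theorem DMul_conn {F F' ω : Finset Edge} (h : F ⊆ F') {u v : FKI.V} (hc : Conn F ω u v) : Conn F' ω u v := by
  refine SimpleGraph.Reachable.mono ?_ hc
  intro x y hxy
  obtain ⟨e, he, h1⟩ := DMul_gr hxy
  have h2 : e ∈ ω ∩ F' := Finset.mem_inter.2 ⟨(Finset.mem_inter.1 he).1, h (Finset.mem_inter.1 he).2⟩
  rcases h1 with ⟨rfl, rfl⟩ | ⟨rfl, rfl⟩
  · exact FKY.gr_adj h2
  · exact (FKY.gr_adj h2).symm

private theorem DMul_bx {r n : ℕ} (h : r ≤ n) : FKN.bx r ⊆ FKN.bx n := by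
  intro e he
  rw [FKN.mem_bx] at he ⊢
  have h1 : (r : ℤ) ≤ n := by exact_mod_cast h
  exact ⟨he.1.trans h1, he.2.trans h1⟩

/-- the arm event of a big annulus implies the arm events of its parts -/
theorem Cl_split {l a r n : ℕ} (h1 : a ≤ r) (h2 : r ≤ n) {ω : Finset Edge} (h : Cl l a n ω) : Cl l a r ω ∧ Cl l r n ω := by
  obtain ⟨⟨u, hu, hne⟩, f, g, hf, hg, hfg⟩ := h
  have s1 : an a r ⊆ an a n := Finset.sdiff_subset_sdiff (DMul_bx h2) (Finset.Subset.refl _)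
  have s2 : an r n ⊆ an a n := Finset.sdiff_subset_sdiff (Finset.Subset.refl _) (DMul_bx h1)
  have h1' : (a : ℤ) ≤ r := by exact_mod_cast h1
  have h2' : (r : ℤ) ≤ n := by exact_mod_cast h2
  have i1 : an a n ∩ FKN.bx r ⊆ an a r := by
    intro e he
    rw [Finset.mem_inter] at he
    exact Finset.mem_sdiff.2 ⟨he.2, (Finset.mem_sdiff.1 he.1).2⟩
  constructor
  · refine ⟨⟨u, fun i => ⟨(hu i).1, ?_⟩, fun i j hij hc => hne i j hij (DMul_conn s1 hc)⟩, ?_⟩
    · obtain ⟨w, hw1, hw2⟩ := (hu i).2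
      exact exitA i1 hw2 (by rw [(hu i).1]; exact h1') (by rw [hw1]; exact h2')
    · obtain ⟨z, hz1, hz2⟩ := dual_exit i1 hfg (by rw [hf]; linarith) (by rw [hg]; linarith)
      exact ⟨f, z, hf, hz1, hz2⟩
  · have key : ∀ i, ∃ p z : FKI.V, nrm p = r ∧ nrm z = n ∧ Conn (an r n) ω p z ∧ Conn (an a n) ω (u i) p := by
      intro i
      obtain ⟨w, hw1, hw2⟩ := (hu i).2
      exact exitB h2 Finset.inter_subset_right hw2 (by rw [(hu i).1]; exact h1') (le_of_eq hw1.symm)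
    choose p z hp hz hpz hup using key
    refine ⟨⟨p, fun i => ⟨hp i, z i, hz i, hpz i⟩, fun i j hij hc => ?_⟩, ?_⟩
    · exact hne i j hij (((hup i).trans (DMul_conn s2 hc)).trans (hup j).symm)
    · obtain ⟨y, hy1, hy2⟩ := dual_in (F' := an r n) (fun e he he' => Finset.mem_sdiff.2 ⟨(Finset.mem_sdiff.1 he).1, he'⟩)
        hfg.symm (by rw [hg]; linarith) (by rw [hf]; linarith)
      exact ⟨y, g, hy1, hg, hy2.symm⟩

theorem Cl_inter {l r n : ℕ} (ω : Finset Edge) : Cl l r n ω ↔ Cl l r n (ω ∩ an r n) := by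
  have h1 : ∀ u v, Conn (an r n) (ω ∩ an r n) u v ↔ Conn (an r n) ω u v := by
    intro u v
    unfold Conn
    rw [Finset.inter_assoc, Finset.inter_self]
  have h2 : dc (an r n) (ω ∩ an r n) = dc (an r n) ω := by
    unfold dc
    congr 1
    ext e
    simp only [Finset.mem_sdiff, Finset.mem_inter]
    tauto
  unfold Cl
  simp only [h1, h2]

theorem pil_nonneg (l r n : ℕ) : 0 ≤ pil l r n := IPC.Pr_nonneg (by norm_num) (by norm_num) _ _

theorem pil_le_one (l r n : ℕ) : pil l r n ≤ 1 := IPC.Pr_le_one (by norm_num) (by norm_num) _ _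

/-- the arm probabilities are submultiplicative -/
theorem pil_mul {l a r n : ℕ} (h1 : a ≤ r) (h2 : r ≤ n) : pil l a n ≤ pil l a r * pil l r n := by
  have s1 : an a r ⊆ an a n := Finset.sdiff_subset_sdiff (DMul_bx h2) (Finset.Subset.refl _)
  have s2 : an r n ⊆ an a n := Finset.sdiff_subset_sdiff (Finset.Subset.refl _) (DMul_bx h1)
  have hd : Disjoint (an a r) (an r n) := by
    rw [Finset.disjoint_left]
    intro e he he'
    exact (Finset.mem_sdiff.1 he').2 (Finset.mem_sdiff.1 he).1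
  have e1 : IPC.Pr (1 / 2) (an a n) (Cl l a r) = pil l a r :=
    IPC.Pr_restrict (1 / 2) s1 _ fun ω _ => Cl_inter ω
  have e2 : IPC.Pr (1 / 2) (an a n) (Cl l r n) = pil l r n :=
    IPC.Pr_restrict (1 / 2) s2 _ fun ω _ => Cl_inter ω
  have e3 := IPC.Pr_indep (1 / 2) s1 s2 hd (Cl l a r) (Cl l r n) (fun ω _ => Cl_inter ω) (fun ω _ => Cl_inter ω)
  rw [e1, e2] at e3
  rw [← e3]
  exact IPC.Pr_mono (by norm_num) (by norm_num) _ fun ω _ h => Cl_split h1 h2 h

end EV
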