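import Pool.Agent.Lib.MP_216314_pr.EV.DMain
import Pool.Agent.Lib.MP_216314_pr.EV.DExit

/-!
# Even arms, stream D: recursion over the scales
-/

set_option autoImplicit false

noncomputable section

namespace EV

open Finset FKI FKP FKN CY

theorem D_step {A C C1 P P' w w' : ℝ} (hA : 0 < A) (hC : 2 * C1 ≤ C) (hC0 : 0 ≤ C) (hw : 0 ≤ w)
    (h1 : P ≤ C1 * w + 1 / (2 * A) * P') (h2 : P' ≤ C * w') (h3 : w' ≤ A * w) : P ≤ C * w := by
  have h4 : P' ≤ C * (A * w) := h2.trans (mul_le_mul_of_nonneg_left h3 hC0)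
  have h5 : 1 / (2 * A) * P' ≤ 1 / (2 * A) * (C * (A * w)) :=
    mul_le_mul_of_nonneg_left h4 (by positivity)
  have h6 : 1 / (2 * A) * (C * (A * w)) = C / 2 * w := by
    field_simp
  rw [h6] at h5
  have h7 : 2 * C1 * w ≤ C * w := mul_le_mul_of_nonneg_right hC hw
  linarith

/-- the exploration state implies the canonical state, from the separation inequality -/
theorem rec_inn_l {l : ℕ} (hl : 1 ≤ l)
    (hS : ∀ θ : ℝ, 0 < θ → ∃ (k : ℕ) (C : ℝ), 0 < C ∧ ∀ r n : ℕ, k ≤ r → 8 * r ≤ n →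
      eI l r n ≤ C * wIl l (r / 10) n + θ * eI l (2 * r) n) :
    ∃ (k : ℕ) (C : ℝ), 0 < C ∧ ∀ r n : ℕ, k ≤ r → 8 * r ≤ n → eI l r n ≤ C * wIl l (r / 10) n := by
  obtain ⟨A, k0, hA, hcan⟩ := can_inn_l hl 8
  obtain ⟨B, k2, hB, hbase⟩ := wI_base_l hl 400
  obtain ⟨k1, C1, hC1, hsep⟩ := hS (1 / (2 * A)) (by positivity)
  have hCpos : 0 < max (2 * C1) B := lt_max_of_lt_right hB
  refine ⟨k1 + 10 * k0 + 10 * k2 + 3600, max (2 * C1) B, hCpos, ?_⟩
  intro r n
  obtain ⟨d, hd⟩ : ∃ d, n - r = d := ⟨_, rfl⟩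
  induction d using Nat.strong_induction_on generalizing r with
  | _ d ih =>
    intro hk hn
    by_cases hlt : n < 32 * r
    · have h2 := hbase (r / 10) n (by omega) (by omega) (by omega)
      have h3 := eI_le_one l r n
      have h5 : B * wIl l (r / 10) n ≤ max (2 * C1) B * wIl l (r / 10) n :=
        mul_le_mul_of_nonneg_right (le_max_right _ _) (D_wIl_nonneg _ _ _)
      linarith
    · rw [not_lt] at hlt
      have h2 := hsep r n (by omega) hn
      have h3 : eI l (2 * r) n ≤ eI l (4 * r) n := eI_mono (by omega)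
      have h4 := ih (n - 4 * r) (by omega) (4 * r) rfl (by omega) (by omega)
      have h5 := hcan (4 * r / 10) (r / 10) n (by omega) (by omega) (by omega) (by omega)
      exact D_step hA (le_max_left _ _) hCpos.le (D_wIl_nonneg _ _ _) h2 (h3.trans h4) h5

end EV
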