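import Pool.Agent.Lib.MP_216314_pr.N.E3Def
import Pool.Agent.Lib.MP_216314_pr.N.DTopA
import Pool.Agent.Lib.MP_216314_pr.Sp.ADef

/-!
# Even arms: definitions

`Cl l r n`: `l` different open clusters cross the annulus `an r n`, and a dual path crosses it (automatic for `2 ≤ l`).
`sv`, `sf`, `sc`: the seeds on the boundary of the hole `bx R`: vertices, faces, corners; the first `(l + 1) / 2` of them are on the right side, the others
on the left side. `SArm`: `l` open arms and `l` dual arms from the seeds to the boundary of `[-n,n]²` outside of the hole. `Lay`: between `bx R` and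
`bx (R + 1)` only the edges `oe` of the seeds are open. `eE`: the strands from the corners `sc` reach the boundary of `[-n,n]²` at different places.
`D0 r n`: the edges of `bx n` with both ends at distance at least `r`; `eI`: `l` strands from the boundary of `[-n,n]²` reach the hole of `D0 r n`.
`Wg l`: the event of the exact law, no two of the `2 l` legs at the sites `0, .., l-1` are connected.
-/

set_option autoImplicit false

noncomputable section

namespace EV

open Finset FKI FKP FKN CY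

/-- `2 l` alternating arms across the annulus -/
def Cl (l r n : ℕ) (ω : Finset Edge) : Prop :=
  (∃ u : Fin l → FKI.V, (∀ i, nrm (u i) = r ∧ ∃ w, nrm w = n ∧ Conn (an r n) ω (u i) w) ∧
    ∀ i j, i ≠ j → ¬ Conn (an r n) ω (u i) (u j)) ∧
  ∃ f g : FKI.V, lvf f = 2 * r + 1 ∧ lvf g = 2 * n + 1 ∧ (gr (dc (an r n) ω)).Reachable f g

/-- probability of `2 l` alternating arms across the annulus -/
def pil (l r n : ℕ) : ℝ := IPC.Pr (1 / 2) (an r n) (Cl l r n)

/-- number of the seeds on the right side -/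
def hr (l : ℕ) : ℕ := (l + 1) / 2

/-- seeds: vertices -/
def sv (l R : ℕ) (i : Fin l) : FKI.V :=
  if (i : ℕ) < hr l then ((R : ℤ), -((i : ℕ) : ℤ)) else (-(R : ℤ), -(((i : ℕ) - hr l : ℕ) : ℤ) - 1)

/-- seeds: faces -/
def sf (l R : ℕ) (i : Fin l) : FKI.V :=
  if (i : ℕ) < hr l then ((R : ℤ), -((i : ℕ) : ℤ) - 1) else (-(R : ℤ) - 1, -(((i : ℕ) - hr l : ℕ) : ℤ) - 1)

/-- seeds: corners -/
def sc (l R : ℕ) (i : Fin l) : FKI.V :=
  if (i : ℕ) < hr l then (2 * (R : ℤ) + 1, -2 * ((i : ℕ) : ℤ)) else (-2 * (R : ℤ), -2 * (((i : ℕ) - hr l : ℕ) : ℤ) - 1)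

/-- the edge from the seed outwards -/
def oe (l R : ℕ) (i : Fin l) : Edge :=
  if (i : ℕ) < hr l then ((R : ℤ), -((i : ℕ) : ℤ), false) else (-(R : ℤ) - 1, -(((i : ℕ) - hr l : ℕ) : ℤ) - 1, false)

/-- sources at the seeds, in some order -/
def SpE (l R : ℕ) : Finset Edge → (Fin l → FKI.V) → Prop := nearS (sv l R) 0
/-- sources at the seeds, in some order -/
def SmE (l R : ℕ) : Finset Edge → (Fin l → FKI.V) → Prop := nearS (sf l R) 0

/-- `2 l` arms from the seeds to the boundary of `[-n,n]²` -/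
def SArm (l R n : ℕ) (ω : Finset Edge) : Prop := StE (an R n) (an R n) (SpE l R) (bdP n) (SmE l R) (bdD n) ω

/-- the layer next to the hole -/
def Lay (l R : ℕ) (ω : Finset Edge) : Prop := ∀ e ∈ an R (R + 1), e ∈ ω ↔ ∃ i, e = oe l R i

/-- the corners where a strand leaves `bx n` -/
def ExO (n : ℕ) : Set FKI.V := {a | edgeOf a ∉ FKN.bx n}

/-- the strands from the seeds reach the boundary of `[-n,n]²` -/
def eE (l R n : ℕ) : ℝ := IPC.Pr (1 / 2) (an R n) (FKS.ExitN (an R n) (ExO n) (fun i : Fin l => {sc l R i}))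

/-- the outer canonical state with the hole `bx R` -/
def wE (l R n : ℕ) : ℝ := IPC.Pr (1 / 2) (FKN.bx (2 * n)) (CanO l (FKN.bx R) (SpE l R) (SmE l R) n)

/-- the inner canonical state -/
def wIl (l r n : ℕ) : ℝ := IPC.Pr (1 / 2) (FKN.bx n) (CanI l r n)

/-- edges of `bx n` with both ends at distance at least `r` -/
def D0 (r n : ℕ) : Finset Edge := (FKN.bx n).filter (fun e => (r : ℤ) ≤ nrm (ea e) ∧ (r : ℤ) ≤ nrm (eb e))

/-- the corners where a strand enters the hole -/
def ExI (r n : ℕ) : Set FKI.V := {a | edgeOf a ∈ FKN.bx n ∧ edgeOf a ∉ D0 r n}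

/-- the corners where a strand enters `bx n` from outside -/
def StI (n : ℕ) : Set FKI.V := {s | edgeIn s ∉ FKN.bx n ∧ nrm (vtx s) = n ∧ edgeOf s ∈ FKN.bx n}

/-- `l` strands from the boundary of `[-n,n]²` reach the hole -/
def eI (l r n : ℕ) : ℝ := IPC.Pr (1 / 2) (D0 r n) (FKS.ExitN (D0 r n) (ExI r n) (fun _ : Fin l => StI n))

/-- the exponent of `2 l` arms -/
def al (l : ℕ) : ℝ := (4 * (l : ℝ) ^ 2 - 1) / 12

/-- the event of the exact law -/
def Wg (l n m : ℕ) (α : Pat (2 * n)) (ω : Finset Edge) : Prop := WL l l (pup n m α ω) (plo n m α ω)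

end EV
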