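import Pool.Agent.Lib.MP_216314_pr.EV.DMain

/-!
# Even arms, part E: explicit paths (fan-out)

The right arms: the seed at height `-i` (vertex) goes right along its row to the column `Xt l R (2 i)`, down to the height `-200000 i`, right to the
column `n`. The faces the same, with `Xt l R (2 i + 1)` and the height `-(200000 i + 100000)`. The left arms: mirror image, with other heights.
-/

set_option autoImplicit false

noncomputable section

namespace EV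

open Finset FKI FKP FKN CY

theorem E_edge {η : Finset Edge} {e : Edge} (he : e ∈ η) : (gr η).Reachable (ea e) (eb e) := by
  refine SimpleGraph.Adj.reachable ?_
  unfold gr
  rw [SimpleGraph.fromRel_adj]
  refine ⟨?_, Or.inl ⟨e, he, rfl, rfl⟩⟩
  obtain ⟨x, y, t⟩ := e
  cases t <;> simp [ea, eb]

theorem E_row {η : Finset Edge} {y x0 x1 : ℤ} (h : x0 ≤ x1)
    (hη : ∀ x, x0 ≤ x → x < x1 → ((x, y, false) : Edge) ∈ η) :
    (gr η).Reachable ((x0, y) : FKI.V) ((x1, y) : FKI.V) := by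
  have key : ∀ k : ℕ, (∀ x, x0 ≤ x → x < x0 + (k : ℤ) → ((x, y, false) : Edge) ∈ η) →
      (gr η).Reachable ((x0, y) : FKI.V) ((x0 + (k : ℤ), y) : FKI.V) := by
    intro k
    induction k with
    | zero =>
      intro _
      rw [Nat.cast_zero, add_zero]
    | succ k ih =>
      intro hk
      have h1 := ih (fun x h1 h2 => hk x h1 (by push_cast; omega))
      have h2 := E_edge (hk (x0 + (k : ℤ)) (by omega) (by push_cast; omega))
      have h3 : eb ((x0 + (k : ℤ), y, false) : Edge) = ((x0 + ((k + 1 : ℕ) : ℤ), y) : FKI.V) := by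
        show ((x0 + (k : ℤ) + 1, y) : FKI.V) = _
        push_cast
        rw [add_assoc]
      rw [h3] at h2
      exact h1.trans h2
  obtain ⟨k, hk⟩ := Int.le.dest h
  have h1 := key k (fun x h1 h2 => hη x h1 (by omega))
  rw [hk] at h1
  exact h1

theorem E_col {η : Finset Edge} {x y0 y1 : ℤ} (h : y0 ≤ y1)
    (hη : ∀ y, y0 ≤ y → y < y1 → ((x, y, true) : Edge) ∈ η) :
    (gr η).Reachable ((x, y0) : FKI.V) ((x, y1) : FKI.V) := by
  have key : ∀ k : ℕ, (∀ y, y0 ≤ y → y < y0 + (k : ℤ) → ((x, y, true) : Edge) ∈ η) →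
      (gr η).Reachable ((x, y0) : FKI.V) ((x, y0 + (k : ℤ)) : FKI.V) := by
    intro k
    induction k with
    | zero =>
      intro _
      rw [Nat.cast_zero, add_zero]
    | succ k ih =>
      intro hk
      have h1 := ih (fun x h1 h2 => hk x h1 (by push_cast; omega))
      have h2 := E_edge (hk (y0 + (k : ℤ)) (by omega) (by push_cast; omega))
      have h3 : eb ((x, y0 + (k : ℤ), true) : Edge) = ((x, y0 + ((k + 1 : ℕ) : ℤ)) : FKI.V) := by
        show ((x, y0 + (k : ℤ) + 1) : FKI.V) = _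
        push_cast
        rw [add_assoc]
      rw [h3] at h2
      exact h1.trans h2
  obtain ⟨k, hk⟩ := Int.le.dest h
  have h1 := key k (fun x h1 h2 => hη x h1 (by omega))
  rw [hk] at h1
  exact h1

/-- right, down, right -/
theorem E_pathR {η : Finset Edge} {x0 x1 x2 y0 y1 : ℤ} (h01 : x0 ≤ x1) (h12 : x1 ≤ x2) (hy : y1 ≤ y0)
    (ha : ∀ x, x0 ≤ x → x < x1 → ((x, y0, false) : Edge) ∈ η)
    (hb : ∀ y, y1 ≤ y → y < y0 → ((x1, y, true) : Edge) ∈ η)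
    (hc : ∀ x, x1 ≤ x → x < x2 → ((x, y1, false) : Edge) ∈ η) :
    (gr η).Reachable ((x0, y0) : FKI.V) ((x2, y1) : FKI.V) :=
  ((E_row h01 ha).trans (E_col hy hb).symm).trans (E_row h12 hc)

/-- left, down, left -/
theorem E_pathL {η : Finset Edge} {x0 x1 x2 y0 y1 : ℤ} (h01 : x0 ≤ x1) (h12 : x1 ≤ x2) (hy : y1 ≤ y0)
    (ha : ∀ x, x1 ≤ x → x < x2 → ((x, y0, false) : Edge) ∈ η)
    (hb : ∀ y, y1 ≤ y → y < y0 → ((x1, y, true) : Edge) ∈ η)
    (hc : ∀ x, x0 ≤ x → x < x1 → ((x, y1, false) : Edge) ∈ η) :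
    (gr η).Reachable ((x2, y0) : FKI.V) ((x0, y1) : FKI.V) :=
  ((E_row h12 ha).symm.trans (E_col hy hb).symm).trans (E_row h01 hc).symm

theorem E_dcF {F ω : Finset Edge} {x y : ℤ} :
    ((x, y, false) : Edge) ∈ dc F ω ↔ ((x + 1, y, true) : Edge) ∈ F ∧ ((x + 1, y, true) : Edge) ∉ ω := by
  unfold dc
  rw [Finset.mem_map_equiv, Finset.mem_sdiff]
  rfl

theorem E_dcT {F ω : Finset Edge} {x y : ℤ} :
    ((x, y, true) : Edge) ∈ dc F ω ↔ ((x, y + 1, false) : Edge) ∈ F ∧ ((x, y + 1, false) : Edge) ∉ ω := by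
  unfold dc
  rw [Finset.mem_map_equiv, Finset.mem_sdiff]
  rfl

theorem E_dl {F ω : Finset Edge} {e : Edge} : dl e ∈ dc F ω ↔ e ∈ F ∧ e ∉ ω := by
  unfold dc
  rw [Finset.mem_map_equiv, Equiv.symm_apply_apply, Finset.mem_sdiff]

/-- size of the explicit box -/
def nE (l R : ℕ) : ℕ := 200000 * (l + 1) + 4 * R

/-- turning column -/
def Xt (l R : ℕ) (a : ℤ) : ℤ := R + 2 + 2 * (2 * l - a)

/-- open edges on the right -/
def OR (l R : ℕ) (e : Edge) : Prop := ∃ i : ℤ, 0 ≤ i ∧ i < hr l ∧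
  ((e.2.2 = false ∧ e.2.1 = -i ∧ (R : ℤ) ≤ e.1 ∧ e.1 < Xt l R (2 * i)) ∨
   (e.2.2 = true ∧ e.1 = Xt l R (2 * i) ∧ -(200000 * i) ≤ e.2.1 ∧ e.2.1 < -i) ∨
   (e.2.2 = false ∧ e.2.1 = -(200000 * i) ∧ Xt l R (2 * i) ≤ e.1 ∧ e.1 < nE l R))

/-- open edges on the left -/
def OL (l R : ℕ) (e : Edge) : Prop := ∃ j : ℤ, 0 ≤ j ∧ j < (l : ℤ) - hr l ∧
  ((e.2.2 = false ∧ e.2.1 = -j - 1 ∧ -Xt l R (2 * j + 1) ≤ e.1 ∧ e.1 < -(R : ℤ)) ∨
   (e.2.2 = true ∧ e.1 = -Xt l R (2 * j + 1) ∧ -(200000 * (j + 1)) ≤ e.2.1 ∧ e.2.1 < -j - 1) ∨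
   (e.2.2 = false ∧ e.2.1 = -(200000 * (j + 1)) ∧ -(nE l R : ℤ) ≤ e.1 ∧ e.1 < -Xt l R (2 * j + 1)))

open Classical in
/-- the explicit configuration -/
def wFan (l R : ℕ) : Finset Edge := (FKN.bx (nE l R)).filter (fun e => OR l R e ∨ OL l R e)

theorem E_mem_wFan {l R : ℕ} {e : Edge} : e ∈ wFan l R ↔ e ∈ FKN.bx (nE l R) ∧ (OR l R e ∨ OL l R e) := by
  classical
  unfold wFan
  exact mem_filter

/-- end of the open arm from the seed `k` -/
def tO (l R k : ℕ) : FKI.V :=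
  if k < hr l then ((nE l R : ℤ), -(200000 * (k : ℤ))) else (-(nE l R : ℤ), -(200000 * ((k : ℤ) - hr l + 1)))

/-- end of the dual arm from the seed `k` -/
def tD (l R k : ℕ) : FKI.V :=
  if k < hr l then ((nE l R : ℤ), -(200000 * (k : ℤ) + 100000)) else (-(nE l R : ℤ), -(200000 * ((k : ℤ) - hr l) + 100000))

/-- last face of the dual arm from the seed `k` -/
def vD (l R k : ℕ) : FKI.V :=
  if k < hr l then ((nE l R : ℤ) - 1, -(200000 * (k : ℤ) + 100000)) else (-(nE l R : ℤ), -(200000 * ((k : ℤ) - hr l) + 100000))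

/-- region of the open arms -/
def FpE (l R : ℕ) (zd : Fin l → FKI.V) : Finset Edge := (FKN.bx (nE l R) \ FKN.bx R) \ bxs zd (300 * (2 : ℕ))

theorem E_mem_bx {m : ℕ} {x y : ℤ} {t : Bool} : ((x, y, t) : Edge) ∈ FKN.bx m ↔
    (t = false ∧ -(m : ℤ) ≤ x ∧ x < m ∧ -(m : ℤ) ≤ y ∧ y ≤ m) ∨ (t = true ∧ -(m : ℤ) ≤ x ∧ x ≤ m ∧ -(m : ℤ) ≤ y ∧ y < m) := by
  unfold FKN.bx
  rw [mem_box]

theorem E_mem_bxa {a : FKI.V} {w x y : ℤ} {t : Bool} (h : ((x, y, t) : Edge) ∈ bxa a w) :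
    a.1 - w ≤ x ∧ x ≤ a.1 + w ∧ a.2 - w ≤ y ∧ y ≤ a.2 + w := by
  unfold bxa at h
  rw [mem_box] at h
  rcases h with h | h
  · simp only at h
    omega
  · simp only at h
    omega

/-- an edge in the region -/
theorem E_reg {l R : ℕ} {z : Fin l → FKI.V} {x y : ℤ} {t : Bool} (h1 : ((x, y, t) : Edge) ∈ FKN.bx (nE l R))
    (h2 : ((x, y, t) : Edge) ∉ FKN.bx R)
    (h3 : ∀ i, ¬ ((z i).1 - 600 ≤ x ∧ x ≤ (z i).1 + 600 ∧ (z i).2 - 600 ≤ y ∧ y ≤ (z i).2 + 600)) :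
    ((x, y, t) : Edge) ∈ FpE l R z := by
  unfold FpE
  refine mem_sdiff.2 ⟨mem_sdiff.2 ⟨h1, h2⟩, ?_⟩
  unfold bxs
  intro h
  obtain ⟨i, -, hi⟩ := Finset.mem_biUnion.1 h
  have h4 := E_mem_bxa hi
  refine h3 i ?_
  push_cast at h4
  omega

end EV
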