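import Pool.Agent.Lib.MP_216314_pr.EV.EA

/-!
# Even arms, part E: the explicit arms
-/

set_option autoImplicit false

noncomputable section

namespace EV

open Finset FKI FKP FKN CY

/-- positions of the end points of the dual arms -/
def PD (l R : ℕ) (z : Fin l → FKI.V) : Prop :=
  ∀ i, ((z i).1 = nE l R ∨ (z i).1 = -(nE l R : ℤ)) ∧ ∃ m : ℤ, (z i).2 = -(200000 * m + 100000)

/-- positions of the end points of the open arms -/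
def PO (l R : ℕ) (z : Fin l → FKI.V) : Prop :=
  ∀ i, ((z i).1 = nE l R ∨ (z i).1 = -(nE l R : ℤ)) ∧ ∃ m : ℤ, (z i).2 = -(200000 * m)

theorem E_OR_mem {l R : ℕ} {z : Fin l → FKI.V} (hz : PD l R z) {x y : ℤ} {t : Bool} (h : OR l R (x, y, t)) :
    ((x, y, t) : Edge) ∈ wFan l R ∩ FpE l R z := by
  have h0 := h
  obtain ⟨i, hi0, hi1, hc⟩ := h
  unfold Xt at hc
  simp only at hc
  have hn : (nE l R : ℤ) = 200000 * ((l : ℤ) + 1) + 4 * R := by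
    unfold nE
    push_cast
    ring
  have hh : (hr l : ℤ) ≤ (l : ℤ) + 1 := by
    unfold hr
    omega
  have h1 : ((x, y, t) : Edge) ∈ FKN.bx (nE l R) := by
    rw [E_mem_bx]
    rcases hc with ⟨c1, c2, c3, c4⟩ | ⟨c1, c2, c3, c4⟩ | ⟨c1, c2, c3, c4⟩
    · left
      refine ⟨c1, ?_, ?_, ?_, ?_⟩ <;> omega
    · right
      refine ⟨c1, ?_, ?_, ?_, ?_⟩ <;> omega
    · left
      refine ⟨c1, ?_, ?_, ?_, ?_⟩ <;> omega
  have h2 : ((x, y, t) : Edge) ∉ FKN.bx R := by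
    rw [E_mem_bx]
    rintro (⟨d1, d2, d3, d4, d5⟩ | ⟨d1, d2, d3, d4, d5⟩) <;>
      rcases hc with ⟨c1, c2, c3, c4⟩ | ⟨c1, c2, c3, c4⟩ | ⟨c1, c2, c3, c4⟩ <;>
      (first | omega | (rw [d1] at c1; cases c1))
  refine mem_inter.2 ⟨?_, E_reg h1 h2 ?_⟩
  · exact E_mem_wFan.2 ⟨h1, Or.inl h0⟩
  · intro k
    obtain ⟨hk, m, hm⟩ := hz k
    rw [hm]
    rcases hc with ⟨c1, c2, c3, c4⟩ | ⟨c1, c2, c3, c4⟩ | ⟨c1, c2, c3, c4⟩ <;> omega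

theorem E_OL_mem {l R : ℕ} {z : Fin l → FKI.V} (hz : PD l R z) {x y : ℤ} {t : Bool} (h : OL l R (x, y, t)) :
    ((x, y, t) : Edge) ∈ wFan l R ∩ FpE l R z := by
  have h0 := h
  obtain ⟨i, hi0, hi1, hc⟩ := h
  unfold Xt at hc
  simp only at hc
  have hn : (nE l R : ℤ) = 200000 * ((l : ℤ) + 1) + 4 * R := by
    unfold nE
    push_cast
    ring
  have hh : 0 ≤ (hr l : ℤ) := Int.natCast_nonneg _
  have h1 : ((x, y, t) : Edge) ∈ FKN.bx (nE l R) := by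
    rw [E_mem_bx]
    rcases hc with ⟨c1, c2, c3, c4⟩ | ⟨c1, c2, c3, c4⟩ | ⟨c1, c2, c3, c4⟩
    · left
      refine ⟨c1, ?_, ?_, ?_, ?_⟩ <;> omega
    · right
      refine ⟨c1, ?_, ?_, ?_, ?_⟩ <;> omega
    · left
      refine ⟨c1, ?_, ?_, ?_, ?_⟩ <;> omega
  have h2 : ((x, y, t) : Edge) ∉ FKN.bx R := by
    rw [E_mem_bx]
    rintro (⟨d1, d2, d3, d4, d5⟩ | ⟨d1, d2, d3, d4, d5⟩) <;>
      rcases hc with ⟨c1, c2, c3, c4⟩ | ⟨c1, c2, c3, c4⟩ | ⟨c1, c2, c3, c4⟩ <;>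
      (first | omega | (rw [d1] at c1; cases c1))
  refine mem_inter.2 ⟨?_, E_reg h1 h2 ?_⟩
  · exact E_mem_wFan.2 ⟨h1, Or.inr h0⟩
  · intro k
    obtain ⟨hk, m, hm⟩ := hz k
    rw [hm]
    rcases hc with ⟨c1, c2, c3, c4⟩ | ⟨c1, c2, c3, c4⟩ | ⟨c1, c2, c3, c4⟩ <;> omega

/-- the open arm from the seed `k` -/
theorem E_open {l R : ℕ} {z : Fin l → FKI.V} (hz : PD l R z) (k : Fin l) :
    (gr (wFan l R ∩ FpE l R z)).Reachable (sv l R k) (tO l R k) := by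
  have hk := k.2
  have hn : (nE l R : ℤ) = 200000 * ((l : ℤ) + 1) + 4 * R := by
    unfold nE
    push_cast
    ring
  have hh : (hr l : ℤ) ≤ (l : ℤ) := by
    unfold hr
    omega
  unfold sv tO
  split_ifs with h
  · refine E_pathR (x1 := Xt l R (2 * (k : ℕ))) ?_ ?_ ?_ ?_ ?_ ?_
    · unfold Xt; omega
    · unfold Xt; omega
    · omega
    · intro x a b
      exact E_OR_mem hz ⟨(k : ℕ), by omega, by exact_mod_cast h, Or.inl ⟨rfl, rfl, a, b⟩⟩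
    · intro y a b
      exact E_OR_mem hz ⟨(k : ℕ), by omega, by exact_mod_cast h, Or.inr (Or.inl ⟨rfl, rfl, a, b⟩)⟩
    · intro x a b
      exact E_OR_mem hz ⟨(k : ℕ), by omega, by exact_mod_cast h, Or.inr (Or.inr ⟨rfl, rfl, a, b⟩)⟩
  · have e1 : (((k : ℕ) - hr l : ℕ) : ℤ) = (k : ℕ) - (hr l : ℤ) := by omega
    rw [e1]
    refine E_pathL (x1 := -Xt l R (2 * ((k : ℕ) - (hr l : ℤ)) + 1)) ?_ ?_ ?_ ?_ ?_ ?_
    · unfold Xt; omega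
    · unfold Xt; omega
    · omega
    · intro x a b
      exact E_OL_mem hz ⟨(k : ℕ) - (hr l : ℤ), by omega, by omega, Or.inl ⟨rfl, rfl, a, b⟩⟩
    · intro y a b
      exact E_OL_mem hz ⟨(k : ℕ) - (hr l : ℤ), by omega, by omega, Or.inr (Or.inl ⟨rfl, rfl, a, b⟩)⟩
    · intro x a b
      exact E_OL_mem hz ⟨(k : ℕ) - (hr l : ℤ), by omega, by omega, Or.inr (Or.inr ⟨rfl, rfl, a, b⟩)⟩

/-- the edges crossed by the dual arms on the right -/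
def QR (l R : ℕ) (i : ℤ) (e : Edge) : Prop :=
  (e.2.2 = true ∧ e.2.1 = -i - 1 ∧ (R : ℤ) + 1 ≤ e.1 ∧ e.1 ≤ Xt l R (2 * i + 1)) ∨
  (e.2.2 = false ∧ e.1 = Xt l R (2 * i + 1) ∧ -(200000 * i + 100000) + 1 ≤ e.2.1 ∧ e.2.1 ≤ -i - 1) ∨
  (e.2.2 = true ∧ e.2.1 = -(200000 * i + 100000) ∧ Xt l R (2 * i + 1) + 1 ≤ e.1 ∧ e.1 ≤ (nE l R : ℤ) - 1)

/-- the edges crossed by the dual arms on the left -/
def QL (l R : ℕ) (j : ℤ) (e : Edge) : Prop :=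
  (e.2.2 = true ∧ e.2.1 = -j - 1 ∧ -Xt l R (2 * j) ≤ e.1 ∧ e.1 ≤ -(R : ℤ) - 1) ∨
  (e.2.2 = false ∧ e.1 = -Xt l R (2 * j) - 1 ∧ -(200000 * j + 100000) + 1 ≤ e.2.1 ∧ e.2.1 ≤ -j - 1) ∨
  (e.2.2 = true ∧ e.2.1 = -(200000 * j + 100000) ∧ -(nE l R : ℤ) + 1 ≤ e.1 ∧ e.1 ≤ -Xt l R (2 * j) - 1)

theorem E_QR {l R : ℕ} {z : Fin l → FKI.V} (hz : PO l R z) {i : ℤ} (hi0 : 0 ≤ i) (hi1 : i < hr l) {x y : ℤ} {t : Bool}
    (hc : QR l R i (x, y, t)) : ((x, y, t) : Edge) ∈ FpE l R z ∧ ((x, y, t) : Edge) ∉ wFan l R := by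
  unfold QR Xt at hc
  simp only at hc
  have hn : (nE l R : ℤ) = 200000 * ((l : ℤ) + 1) + 4 * R := by
    unfold nE
    push_cast
    ring
  have hh : (hr l : ℤ) ≤ (l : ℤ) + 1 := by
    unfold hr
    omega
  have hh2 : 2 * (hr l : ℤ) ≤ (l : ℤ) + 1 := by
    unfold hr
    omega
  have h1 : ((x, y, t) : Edge) ∈ FKN.bx (nE l R) := by
    rw [E_mem_bx]
    rcases hc with ⟨c1, c2, c3, c4⟩ | ⟨c1, c2, c3, c4⟩ | ⟨c1, c2, c3, c4⟩
    · right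
      refine ⟨c1, ?_, ?_, ?_, ?_⟩ <;> omega
    · left
      refine ⟨c1, ?_, ?_, ?_, ?_⟩ <;> omega
    · right
      refine ⟨c1, ?_, ?_, ?_, ?_⟩ <;> omega
  have h2 : ((x, y, t) : Edge) ∉ FKN.bx R := by
    rw [E_mem_bx]
    rintro (⟨d1, d2, d3, d4, d5⟩ | ⟨d1, d2, d3, d4, d5⟩) <;>
      rcases hc with ⟨c1, c2, c3, c4⟩ | ⟨c1, c2, c3, c4⟩ | ⟨c1, c2, c3, c4⟩ <;>
      (first | omega | (rw [d1] at c1; cases c1))
  refine ⟨E_reg h1 h2 ?_, ?_⟩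
  · intro k
    obtain ⟨hk, m, hm⟩ := hz k
    rw [hm]
    rcases hc with ⟨c1, c2, c3, c4⟩ | ⟨c1, c2, c3, c4⟩ | ⟨c1, c2, c3, c4⟩ <;> omega
  · intro hw
    rcases (E_mem_wFan.1 hw).2 with ⟨j, hj0, hj1, hd⟩ | ⟨j, hj0, hj1, hd⟩
    · unfold Xt at hd
      simp only at hd
      rcases hd with ⟨d1, d2, d3, d4⟩ | ⟨d1, d2, d3, d4⟩ | ⟨d1, d2, d3, d4⟩ <;>
        rcases hc with ⟨c1, c2, c3, c4⟩ | ⟨c1, c2, c3, c4⟩ | ⟨c1, c2, c3, c4⟩ <;>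
        (first | omega | (rw [d1] at c1; cases c1))
    · unfold Xt at hd
      simp only at hd
      rcases hd with ⟨d1, d2, d3, d4⟩ | ⟨d1, d2, d3, d4⟩ | ⟨d1, d2, d3, d4⟩ <;>
        rcases hc with ⟨c1, c2, c3, c4⟩ | ⟨c1, c2, c3, c4⟩ | ⟨c1, c2, c3, c4⟩ <;>
        (first | omega | (rw [d1] at c1; cases c1))

theorem E_QL {l R : ℕ} {z : Fin l → FKI.V} (hz : PO l R z) {i : ℤ} (hi0 : 0 ≤ i) (hi1 : i < (l : ℤ) - hr l) {x y : ℤ}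
    {t : Bool} (hc : QL l R i (x, y, t)) : ((x, y, t) : Edge) ∈ FpE l R z ∧ ((x, y, t) : Edge) ∉ wFan l R := by
  unfold QL Xt at hc
  simp only at hc
  have hn : (nE l R : ℤ) = 200000 * ((l : ℤ) + 1) + 4 * R := by
    unfold nE
    push_cast
    ring
  have hh : 0 ≤ (hr l : ℤ) := Int.natCast_nonneg _
  have hh2 : (l : ℤ) ≤ 2 * (hr l : ℤ) := by
    unfold hr
    omega
  have h1 : ((x, y, t) : Edge) ∈ FKN.bx (nE l R) := by
    rw [E_mem_bx]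
    rcases hc with ⟨c1, c2, c3, c4⟩ | ⟨c1, c2, c3, c4⟩ | ⟨c1, c2, c3, c4⟩
    · right
      refine ⟨c1, ?_, ?_, ?_, ?_⟩ <;> omega
    · left
      refine ⟨c1, ?_, ?_, ?_, ?_⟩ <;> omega
    · right
      refine ⟨c1, ?_, ?_, ?_, ?_⟩ <;> omega
  have h2 : ((x, y, t) : Edge) ∉ FKN.bx R := by
    rw [E_mem_bx]
    rintro (⟨d1, d2, d3, d4, d5⟩ | ⟨d1, d2, d3, d4, d5⟩) <;>
      rcases hc with ⟨c1, c2, c3, c4⟩ | ⟨c1, c2, c3, c4⟩ | ⟨c1, c2, c3, c4⟩ <;>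
      (first | omega | (rw [d1] at c1; cases c1))
  refine ⟨E_reg h1 h2 ?_, ?_⟩
  · intro k
    obtain ⟨hk, m, hm⟩ := hz k
    rw [hm]
    rcases hc with ⟨c1, c2, c3, c4⟩ | ⟨c1, c2, c3, c4⟩ | ⟨c1, c2, c3, c4⟩ <;> omega
  · intro hw
    rcases (E_mem_wFan.1 hw).2 with ⟨j, hj0, hj1, hd⟩ | ⟨j, hj0, hj1, hd⟩
    · unfold Xt at hd
      simp only at hd
      rcases hd with ⟨d1, d2, d3, d4⟩ | ⟨d1, d2, d3, d4⟩ | ⟨d1, d2, d3, d4⟩ <;>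
        rcases hc with ⟨c1, c2, c3, c4⟩ | ⟨c1, c2, c3, c4⟩ | ⟨c1, c2, c3, c4⟩ <;>
        (first | omega | (rw [d1] at c1; cases c1))
    · unfold Xt at hd
      simp only at hd
      rcases hd with ⟨d1, d2, d3, d4⟩ | ⟨d1, d2, d3, d4⟩ | ⟨d1, d2, d3, d4⟩ <;>
        rcases hc with ⟨c1, c2, c3, c4⟩ | ⟨c1, c2, c3, c4⟩ | ⟨c1, c2, c3, c4⟩ <;>
        (first | omega | (rw [d1] at c1; cases c1))

/-- the dual arm from the seed `k` -/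
theorem E_dual {l R : ℕ} {z : Fin l → FKI.V} (hz : PO l R z) (k : Fin l) :
    (gr (dc (FpE l R z) (wFan l R))).Reachable (sf l R k) (vD l R k) := by
  have hk := k.2
  have hn : (nE l R : ℤ) = 200000 * ((l : ℤ) + 1) + 4 * R := by
    unfold nE
    push_cast
    ring
  have hh : (hr l : ℤ) ≤ (l : ℤ) := by
    unfold hr
    omega
  unfold sf vD
  split_ifs with h
  · refine E_pathR (x1 := Xt l R (2 * (k : ℕ) + 1)) ?_ ?_ ?_ ?_ ?_ ?_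
    · unfold Xt; omega
    · unfold Xt; omega
    · omega
    · intro x a b
      rw [E_dcF]
      exact E_QR (i := ((k : ℕ) : ℤ)) hz (by omega) (by exact_mod_cast h)
        (Or.inl ⟨rfl, rfl, by simp only; omega, by simp only; omega⟩)
    · intro y a b
      rw [E_dcT]
      exact E_QR (i := ((k : ℕ) : ℤ)) hz (by omega) (by exact_mod_cast h)
        (Or.inr (Or.inl ⟨rfl, rfl, by simp only; omega, by simp only; omega⟩))
    · intro x a b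
      rw [E_dcF]
      exact E_QR (i := ((k : ℕ) : ℤ)) hz (by omega) (by exact_mod_cast h)
        (Or.inr (Or.inr ⟨rfl, rfl, by simp only; omega, by simp only; omega⟩))
  · have e1 : (((k : ℕ) - hr l : ℕ) : ℤ) = (k : ℕ) - (hr l : ℤ) := by omega
    rw [e1]
    refine E_pathL (x1 := -Xt l R (2 * ((k : ℕ) - (hr l : ℤ))) - 1) ?_ ?_ ?_ ?_ ?_ ?_
    · unfold Xt; omega
    · unfold Xt; omega
    · omega
    · intro x a b
      rw [E_dcF]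
      exact E_QL (i := ((k : ℕ) - (hr l : ℤ))) hz (by omega) (by omega)
        (Or.inl ⟨rfl, rfl, by simp only; omega, by simp only; omega⟩)
    · intro y a b
      rw [E_dcT]
      exact E_QL (i := ((k : ℕ) - (hr l : ℤ))) hz (by omega) (by omega)
        (Or.inr (Or.inl ⟨rfl, rfl, by simp only; omega, by simp only; omega⟩))
    · intro x a b
      rw [E_dcF]
      exact E_QL (i := ((k : ℕ) - (hr l : ℤ))) hz (by omega) (by omega)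
        (Or.inr (Or.inr ⟨rfl, rfl, by simp only; omega, by simp only; omega⟩))

end EV
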