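import Pool.Agent.Lib.MP_216314_pr.EV.EB
import Pool.Agent.Lib.MP_216314_pr.N.DGwA

/-!
# Even arms, part E: the end points of the explicit arms are in cyclic order
-/

set_option autoImplicit false

noncomputable section

namespace EV

open Finset FKI FKP FKN CY

theorem E_gwR {n y : ℝ} (hn : 0 < n) (h0 : 0 ≤ y) (h1 : y ≤ n) :
    n * gw (1 + -y / n) = n ∧ n * gw (1 + -y / n - 2) = -y := by
  have h2 : 0 ≤ y / n := div_nonneg h0 hn.le
  have h3 : y / n ≤ 1 := (div_le_one hn).2 h1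
  have h4 := (sq_val (θ := 1 + -y / n) (by rw [neg_div]; linarith) (by rw [neg_div]; linarith)).1 (by rw [neg_div]; linarith)
  rw [h4.1, h4.2]
  refine ⟨mul_one _, ?_⟩
  field_simp
  ring

theorem E_gwR8 {n y : ℝ} (hn : 0 < n) (h0 : 0 ≤ y) (h1 : y ≤ n) :
    n * gw (1 + (8 * n + -y) / n) = n ∧ n * gw (1 + (8 * n + -y) / n - 2) = -y := by
  have h2 := E_gwR hn h0 h1
  have e1 : 1 + (8 * n + -y) / n = 1 + -y / n + 8 * ((1 : ℤ) : ℝ) := by
    push_cast
    field_simp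
    ring
  have e2 : 1 + (8 * n + -y) / n - 2 = 1 + -y / n - 2 + 8 * ((1 : ℤ) : ℝ) := by
    rw [e1]
    ring
  rw [e2, e1, gw_per, gw_per]
  exact h2

theorem E_gwL {n y : ℝ} (hn : 0 < n) (h0 : 0 ≤ y) (h1 : y ≤ n) :
    n * gw (1 + (4 * n + y) / n) = -n ∧ n * gw (1 + (4 * n + y) / n - 2) = -y := by
  have h2 : 0 ≤ y / n := div_nonneg h0 hn.le
  have h3 : y / n ≤ 1 := (div_le_one hn).2 h1
  have e1 : 1 + (4 * n + y) / n = 5 + y / n := by
    field_simp
    ring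
  have h4 := (sq_val (θ := 5 + y / n) (by linarith) (by linarith)).2.2.1 (by linarith) (by linarith)
  rw [e1, h4.1, h4.2]
  refine ⟨by ring, ?_⟩
  field_simp
  ring

/-- order of the vertices -/
def sg (l : ℕ) (p : Fin l) : Fin l :=
  if (p : ℕ) < hr l then ⟨hr l - 1 - (p : ℕ), by have := p.2; unfold hr; omega⟩ else p

/-- order of the faces -/
def tg (l : ℕ) (p : Fin l) : Fin l :=
  if (p : ℕ) + 1 < hr l then ⟨hr l - 2 - (p : ℕ), by have := p.2; unfold hr; omega⟩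
  else if h : (p : ℕ) + 1 < l then ⟨(p : ℕ) + 1, h⟩ else ⟨hr l - 1, by have := p.2; unfold hr; omega⟩

theorem sg_inj (l : ℕ) : Function.Injective (sg l) := by
  intro p q h
  have hp := p.2
  have hq := q.2
  have h1 := congrArg Fin.val h
  unfold sg at h1
  refine Fin.ext ?_
  split_ifs at h1 <;> (try simp only at h1) <;> omega

theorem tg_inj (l : ℕ) : Function.Injective (tg l) := by
  intro p q h
  have hp := p.2
  have hq := q.2
  have h1 := congrArg Fin.val h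
  unfold tg at h1
  refine Fin.ext ?_
  split_ifs at h1 <;> (try simp only at h1) <;> omega

/-- the end points of the open arms -/
def zO (l R : ℕ) (p : Fin l) : FKI.V := tO l R (sg l p)
/-- the end points of the dual arms -/
def zD (l R : ℕ) (p : Fin l) : FKI.V := tD l R (tg l p)

theorem E_PO (l R : ℕ) : PO l R (zO l R) := by
  intro i
  unfold zO tO
  split_ifs
  · exact ⟨Or.inl rfl, _, rfl⟩
  · exact ⟨Or.inr rfl, _, rfl⟩

theorem E_PD (l R : ℕ) : PD l R (zD l R) := by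
  intro i
  unfold zD tD
  split_ifs
  · exact ⟨Or.inl rfl, _, rfl⟩
  · exact ⟨Or.inr rfl, _, rfl⟩

/-- scaled angles of the open arms -/
def aO (l R : ℕ) (p : ℕ) : ℤ :=
  if p < hr l then -(200000 * ((hr l : ℤ) - 1 - p)) else 4 * nE l R + 200000 * ((p : ℤ) - hr l + 1)

/-- scaled angles of the dual arms -/
def aD (l R : ℕ) (p : ℕ) : ℤ :=
  if p + 1 < hr l then -(200000 * ((hr l : ℤ) - 2 - p) + 100000)
  else if p + 1 < l then 4 * nE l R + (200000 * ((p : ℤ) + 1 - hr l) + 100000)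
  else 8 * nE l R + -(200000 * ((hr l : ℤ) - 1) + 100000)

theorem E_ang1 {l R i j : ℕ} (hj : j < l) (h : i ≤ j) :
    60000 ≤ aD l R j - aO l R i ∧ aD l R j - aO l R i ≤ 8 * nE l R - 60000 := by
  have hn : (nE l R : ℤ) = 200000 * ((l : ℤ) + 1) + 4 * R := by
    unfold nE
    push_cast
    ring
  have hh : 2 * (hr l : ℤ) ≤ (l : ℤ) + 1 ∧ (l : ℤ) ≤ 2 * (hr l : ℤ) := by
    unfold hr
    omega
  unfold aD aO
  split_ifs <;> constructor <;> omega

theorem E_ang2 {l R i j : ℕ} (hi : i < l) (h : j < i) :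
    60000 ≤ aO l R i - aD l R j ∧ aO l R i - aD l R j ≤ 8 * nE l R - 60000 := by
  have hn : (nE l R : ℤ) = 200000 * ((l : ℤ) + 1) + 4 * R := by
    unfold nE
    push_cast
    ring
  have hh : 2 * (hr l : ℤ) ≤ (l : ℤ) + 1 ∧ (l : ℤ) ≤ 2 * (hr l : ℤ) := by
    unfold hr
    omega
  unfold aD aO
  split_ifs <;> constructor <;> omega

theorem E_nE_pos (l R : ℕ) : (0 : ℝ) < ((nE l R : ℤ) : ℝ) := by
  have h : 0 < (nE l R : ℤ) := by
    unfold nE
    push_cast
    omega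
  exact_mod_cast h

theorem E_cyc (l R : ℕ) : CycR (zO l R) (zD l R) (nE l R) (30000 * (2 : ℕ)) := by
  have hn := E_nE_pos l R
  have hn' : (nE l R : ℤ) = 200000 * ((l : ℤ) + 1) + 4 * R := by
    unfold nE
    push_cast
    ring
  have hh : 2 * (hr l : ℤ) ≤ (l : ℤ) + 1 ∧ (l : ℤ) ≤ 2 * (hr l : ℤ) := by
    unfold hr
    omega
  have hR : ∀ y : ℤ, 0 ≤ y → y ≤ nE l R → ((((nE l R : ℤ), -y) : FKI.V).1 : ℝ) = ((nE l R : ℤ) : ℝ) * (FKN.sq (1 + ((-y : ℤ) : ℝ) / ((nE l R : ℤ) : ℝ))).1 ∧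
      ((((nE l R : ℤ), -y) : FKI.V).2 : ℝ) = ((nE l R : ℤ) : ℝ) * (FKN.sq (1 + ((-y : ℤ) : ℝ) / ((nE l R : ℤ) : ℝ))).2 := by
    intro y h0 h1
    have h2 := E_gwR (n := ((nE l R : ℤ) : ℝ)) (y := (y : ℝ)) hn (by exact_mod_cast h0) (by exact_mod_cast h1)
    unfold FKN.sq
    push_cast at h2 ⊢
    exact ⟨h2.1.symm, h2.2.symm⟩
  have hR8 : ∀ y : ℤ, 0 ≤ y → y ≤ nE l R →
      ((((nE l R : ℤ), -y) : FKI.V).1 : ℝ) = ((nE l R : ℤ) : ℝ) * (FKN.sq (1 + ((8 * (nE l R : ℤ) + -y : ℤ) : ℝ) / ((nE l R : ℤ) : ℝ))).1 ∧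
      ((((nE l R : ℤ), -y) : FKI.V).2 : ℝ) = ((nE l R : ℤ) : ℝ) * (FKN.sq (1 + ((8 * (nE l R : ℤ) + -y : ℤ) : ℝ) / ((nE l R : ℤ) : ℝ))).2 := by
    intro y h0 h1
    have h2 := E_gwR8 (n := ((nE l R : ℤ) : ℝ)) (y := (y : ℝ)) hn (by exact_mod_cast h0) (by exact_mod_cast h1)
    unfold FKN.sq
    push_cast at h2 ⊢
    exact ⟨h2.1.symm, h2.2.symm⟩
  have hL : ∀ y : ℤ, 0 ≤ y → y ≤ nE l R →
      (((-(nE l R : ℤ), -y) : FKI.V).1 : ℝ) = ((nE l R : ℤ) : ℝ) * (FKN.sq (1 + ((4 * (nE l R : ℤ) + y : ℤ) : ℝ) / ((nE l R : ℤ) : ℝ))).1 ∧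
      (((-(nE l R : ℤ), -y) : FKI.V).2 : ℝ) = ((nE l R : ℤ) : ℝ) * (FKN.sq (1 + ((4 * (nE l R : ℤ) + y : ℤ) : ℝ) / ((nE l R : ℤ) : ℝ))).2 := by
    intro y h0 h1
    have h2 := E_gwL (n := ((nE l R : ℤ) : ℝ)) (y := (y : ℝ)) hn (by exact_mod_cast h0) (by exact_mod_cast h1)
    unfold FKN.sq
    push_cast at h2 ⊢
    exact ⟨h2.1.symm, h2.2.symm⟩
  refine ⟨fun p => 1 + ((aO l R p : ℤ) : ℝ) / ((nE l R : ℤ) : ℝ), fun p => 1 + ((aD l R p : ℤ) : ℝ) / ((nE l R : ℤ) : ℝ),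
    ?_, ?_, ?_, ?_⟩
  · intro p
    have hp := p.2
    refine Prod.ext_iff.2 ?_
    simp only
    by_cases h : (p : ℕ) < hr l
    · have e1 : zO l R p = ((nE l R : ℤ), -(200000 * ((hr l : ℤ) - 1 - (p : ℕ)))) := by
        unfold zO sg tO
        rw [if_pos h, if_pos (show hr l - 1 - (p : ℕ) < hr l by omega)]
        have e2 : ((hr l - 1 - (p : ℕ) : ℕ) : ℤ) = (hr l : ℤ) - 1 - (p : ℕ) := by omega
        rw [e2]
      have e3 : aO l R p = -(200000 * ((hr l : ℤ) - 1 - (p : ℕ))) := by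
        unfold aO
        rw [if_pos h]
      rw [e1, e3]
      exact hR _ (by omega) (by omega)
    · have e1 : zO l R p = (-(nE l R : ℤ), -(200000 * (((p : ℕ) : ℤ) - hr l + 1))) := by
        unfold zO sg tO
        rw [if_neg h, if_neg h]
      have e3 : aO l R p = 4 * nE l R + 200000 * (((p : ℕ) : ℤ) - hr l + 1) := by
        unfold aO
        rw [if_neg h]
      rw [e1, e3]
      exact hL _ (by omega) (by omega)
  · intro p
    have hp := p.2
    refine Prod.ext_iff.2 ?_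
    simp only
    by_cases h : (p : ℕ) + 1 < hr l
    · have e1 : zD l R p = ((nE l R : ℤ), -(200000 * ((hr l : ℤ) - 2 - (p : ℕ)) + 100000)) := by
        unfold zD tg tD
        rw [if_pos h, if_pos (show hr l - 2 - (p : ℕ) < hr l by omega)]
        have e2 : ((hr l - 2 - (p : ℕ) : ℕ) : ℤ) = (hr l : ℤ) - 2 - (p : ℕ) := by omega
        rw [e2]
      have e3 : aD l R p = -(200000 * ((hr l : ℤ) - 2 - (p : ℕ)) + 100000) := by
        unfold aD
        rw [if_pos h]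
      rw [e1, e3]
      exact hR _ (by omega) (by omega)
    · by_cases h' : (p : ℕ) + 1 < l
      · have e1 : zD l R p = (-(nE l R : ℤ), -(200000 * (((p : ℕ) : ℤ) + 1 - hr l) + 100000)) := by
          unfold zD tg tD
          rw [if_neg h, dif_pos h', if_neg h]
          push_cast
          rfl
        have e3 : aD l R p = 4 * nE l R + (200000 * (((p : ℕ) : ℤ) + 1 - hr l) + 100000) := by
          unfold aD
          rw [if_neg h, if_pos h']
        rw [e1, e3]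
        exact hL _ (by omega) (by omega)
      · have h1 : 1 ≤ hr l := by
          unfold hr
          omega
        have e1 : zD l R p = ((nE l R : ℤ), -(200000 * ((hr l : ℤ) - 1) + 100000)) := by
          unfold zD tg tD
          rw [if_neg h, dif_neg h', if_pos (show hr l - 1 < hr l by omega)]
          have e2 : ((hr l - 1 : ℕ) : ℤ) = (hr l : ℤ) - 1 := by omega
          rw [e2]
        have e3 : aD l R p = 8 * nE l R + -(200000 * ((hr l : ℤ) - 1) + 100000) := by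
          unfold aD
          rw [if_neg h, if_neg h']
        rw [e1, e3]
        exact hR8 _ (by omega) (by omega)
  · intro i j hij
    have h1 := E_ang1 (R := R) j.2 (show (i : ℕ) ≤ (j : ℕ) from hij)
    have h2 : (60000 : ℝ) ≤ (aD l R j : ℝ) - (aO l R i : ℝ) := by exact_mod_cast h1.1
    have h3 : (aD l R j : ℝ) - (aO l R i : ℝ) ≤ 8 * ((nE l R : ℤ) : ℝ) - 60000 := by exact_mod_cast h1.2
    have e : 1 + (aD l R j : ℝ) / ((nE l R : ℤ) : ℝ) - (1 + (aO l R i : ℝ) / ((nE l R : ℤ) : ℝ)) =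
        ((aD l R j : ℝ) - (aO l R i : ℝ)) / ((nE l R : ℤ) : ℝ) := by ring
    simp only
    rw [e]
    constructor
    · refine div_le_div_of_nonneg_right ?_ hn.le
      push_cast
      linarith
    · rw [div_le_iff₀ hn, sub_mul, div_mul_cancel₀ _ hn.ne']
      push_cast at h3 ⊢
      linarith
  · intro i j hij
    have h1 := E_ang2 (R := R) i.2 (show (j : ℕ) < (i : ℕ) from hij)
    have h2 : (60000 : ℝ) ≤ (aO l R i : ℝ) - (aD l R j : ℝ) := by exact_mod_cast h1.1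
    have h3 : (aO l R i : ℝ) - (aD l R j : ℝ) ≤ 8 * ((nE l R : ℤ) : ℝ) - 60000 := by exact_mod_cast h1.2
    have e : 1 + (aO l R i : ℝ) / ((nE l R : ℤ) : ℝ) - (1 + (aD l R j : ℝ) / ((nE l R : ℤ) : ℝ)) =
        ((aO l R i : ℝ) - (aD l R j : ℝ)) / ((nE l R : ℤ) : ℝ) := by ring
    simp only
    rw [e]
    constructor
    · refine div_le_div_of_nonneg_right ?_ hn.le
      push_cast
      linarith
    · rw [div_le_iff₀ hn, sub_mul, div_mul_cancel₀ _ hn.ne']
      push_cast at h3 ⊢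
      linarith

end EV
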