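import Pool.Agent.Lib.MP_216314_pr.EV.EC

/-!
# Even arms, part E: the inner canonical state reaches the seeds
-/

set_option autoImplicit false

noncomputable section

namespace EV

open Finset FKI FKP FKN CY

theorem E_conf {E ω0 : Finset Edge} (hω : ω0 ⊆ E) {A : Finset Edge → Prop} (hA : A ω0) : 0 < IPC.Pr (1 / 2) E A := by
  classical
  refine lt_of_lt_of_le (pow_pos (show (0 : ℝ) < 1 / 2 by norm_num) E.card) ?_
  unfold IPC.Pr IPC.EE
  refine le_trans ?_ (Finset.single_le_sum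
    (f := fun ω => (1 / 2 : ℝ) ^ ω.card * (1 - 1 / 2) ^ (E \ ω).card * IPC.ind (A ω))
    (fun ω _ => mul_nonneg (mul_nonneg (pow_nonneg (by norm_num) _) (pow_nonneg (by norm_num) _)) (IPC.ind_nonneg _))
    (Finset.mem_powerset.2 hω))
  show (1 / 2 : ℝ) ^ E.card ≤ (1 / 2 : ℝ) ^ ω0.card * (1 - 1 / 2) ^ (E \ ω0).card * IPC.ind (A ω0)
  rw [IPC.ind_of hA, mul_one, ← Finset.card_sdiff_add_card_eq_card hω, pow_add, mul_comm ((1 / 2 : ℝ) ^ (E \ ω0).card)]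
  norm_num

/-- open sources with the open edges of the layer -/
def ESp (l R : ℕ) (η : Finset Edge) (s : Fin l → FKI.V) : Prop := (∀ i : Fin l, oe l R i ∈ η) ∧ SpE l R η s

/-- dual sources with the closed edges of the layer -/
def ESm (l R : ℕ) (η : Finset Edge) (s : Fin l → FKI.V) : Prop :=
  (∀ e ∈ an R (R + 1), (∀ i : Fin l, e ≠ oe l R i) → dl e ∈ η) ∧ SmE l R η s

theorem ESp_inc (l R : ℕ) : IncS (ESp l R) := fun _ _ _ h hs => ⟨fun i => h (hs.1 i), hs.2⟩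
theorem ESm_inc (l R : ℕ) : IncS (ESm l R) := fun _ _ _ h hs => ⟨fun e he h' => h (hs.1 e he h'), hs.2⟩

theorem E_sarm {l R m : ℕ} {ω : Finset Edge}
    (h : StE (FKN.bx m \ FKN.bx R) (FKN.bx m \ FKN.bx R) (ESp l R) (bdP m) (ESm l R) (bdD m) ω) :
    SArm l R m ω ∧ Lay l R ω := by
  obtain ⟨⟨s, v, h1, h2, h3⟩, ⟨s', v', h4, h5, h6⟩⟩ := h
  refine ⟨⟨⟨s, v, h1.2, h2, h3⟩, ⟨s', v', h4.2, h5, h6⟩⟩, ?_⟩
  intro e he
  constructor
  · intro hw
    by_contra hne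
    push Not at hne
    exact (E_dl.1 (h4.1 e he hne)).2 hw
  · rintro ⟨i, rfl⟩
    exact (mem_inter.1 (h1.1 i)).1

theorem E_oe {l R : ℕ} (k : Fin l) : oe l R k ∈ wFan l R ∩ FpE l R (zD l R) := by
  have hk := k.2
  have hh : (hr l : ℤ) ≤ (l : ℤ) := by
    unfold hr
    omega
  unfold oe
  split_ifs with h
  · exact E_OR_mem (E_PD l R) ⟨(k : ℕ), by omega, by exact_mod_cast h, Or.inl ⟨rfl, rfl, le_refl _, by unfold Xt; simp only; omega⟩⟩
  · have e1 : (((k : ℕ) - hr l : ℕ) : ℤ) = (k : ℕ) - (hr l : ℤ) := by omega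
    rw [e1]
    exact E_OL_mem (E_PD l R) ⟨(k : ℕ) - (hr l : ℤ), by omega, by omega,
      Or.inl ⟨rfl, rfl, by unfold Xt; simp only; omega, by simp only; omega⟩⟩

/-- the open edges of the layer -/
theorem E_lay {l R : ℕ} {e : Edge} (he : e ∈ an R (R + 1)) (hw : e ∈ wFan l R) : ∃ i : Fin l, e = oe l R i := by
  obtain ⟨x, y, t⟩ := e
  have h1 : ((x, y, t) : Edge) ∈ FKN.bx (R + 1) := (mem_sdiff.1 he).1
  rw [E_mem_bx] at h1
  push_cast at h1
  have hh : (hr l : ℤ) ≤ (l : ℤ) + 1 := by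
    unfold hr
    omega
  have hh2 : 0 ≤ (hr l : ℤ) := Int.natCast_nonneg _
  have hlr : (l : ℤ) ≤ 2 * hr l ∧ 2 * (hr l : ℤ) ≤ l + 1 := by
    unfold hr
    omega
  rcases (E_mem_wFan.1 hw).2 with ⟨i, hi0, hi1, hc⟩ | ⟨i, hi0, hi1, hc⟩
  · unfold Xt at hc
    simp only at hc
    rcases hc with ⟨c1, c2, c3, c4⟩ | ⟨c1, c2, c3, c4⟩ | ⟨c1, c2, c3, c4⟩
    · rcases h1 with ⟨d1, d2, d3, d4, d5⟩ | ⟨d1, d2, d3, d4, d5⟩
      · obtain ⟨k, rfl⟩ := Int.eq_ofNat_of_zero_le hi0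
        have hk : k < l := by omega
        refine ⟨⟨k, hk⟩, ?_⟩
        unfold oe
        simp only
        rw [if_pos (show k < hr l by exact_mod_cast hi1), c1, c2]
        have : x = (R : ℤ) := by omega
        rw [this]
      · rw [d1] at c1
        cases c1
    · exfalso
      omega
    · exfalso
      omega
  · unfold Xt at hc
    simp only at hc
    rcases hc with ⟨c1, c2, c3, c4⟩ | ⟨c1, c2, c3, c4⟩ | ⟨c1, c2, c3, c4⟩
    · rcases h1 with ⟨d1, d2, d3, d4, d5⟩ | ⟨d1, d2, d3, d4, d5⟩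
      · obtain ⟨k, rfl⟩ := Int.eq_ofNat_of_zero_le hi0
        have hk : k + hr l < l := by omega
        refine ⟨⟨k + hr l, hk⟩, ?_⟩
        unfold oe
        simp only
        rw [if_neg (show ¬ k + hr l < hr l by omega), c1, c2, Nat.add_sub_cancel]
        have : x = -(R : ℤ) - 1 := by omega
        rw [this]
      · rw [d1] at c1
        cases c1
    · exfalso
      omega
    · exfalso
      omega

theorem E_BS (l R : ℕ) :
    BS ((FKN.bx (nE l R) \ FKN.bx R) \ bxs (zD l R) (300 * (2 : ℕ))) ((FKN.bx (nE l R) \ FKN.bx R) \ bxs (zO l R) (300 * (2 : ℕ)))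
      (ESp l R) (ESm l R) (zO l R) (zD l R) (2 : ℕ) (wFan l R) := by
  have hn : (nE l R : ℤ) = 200000 * ((l : ℤ) + 1) + 4 * R := by
    unfold nE
    push_cast
    ring
  have h0 : ∀ v : FKI.V, nrm (v - v) = 0 := by
    intro v
    rw [sub_self]
    rfl
  refine ⟨⟨fun p => sv l R (sg l p), fun p => tO l R (sg l p), ⟨fun i => E_oe i, ?_⟩, ?_, ?_⟩,
    ⟨fun p => sf l R (tg l p), fun p => vD l R (tg l p), ⟨?_, ?_⟩, ?_, ?_⟩⟩
  · refine ⟨Equiv.ofBijective (sg l) ((Finite.injective_iff_bijective).1 (sg_inj l)), fun i => ?_⟩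
    show nrm (sv l R (sg l i) - sv l R (sg l i)) ≤ 0
    rw [h0]
  · intro i
    show nrm (tO l R (sg l i) - tO l R (sg l i)) ≤ ((2 : ℕ) : ℤ)
    rw [h0]
    norm_num
  · intro i
    exact E_open (E_PD l R) (sg l i)
  · intro e he hne
    rw [E_dl]
    obtain ⟨x, y, t⟩ := e
    have h1 := (mem_sdiff.1 he).1
    have h2 := (mem_sdiff.1 he).2
    refine ⟨?_, fun hw => ?_⟩
    · refine E_reg (z := zO l R) ?_ h2 ?_
      · exact D_bx_mono (by omega) h1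
      · intro k
        obtain ⟨hk, m, hm⟩ := E_PO l R k
        rw [E_mem_bx] at h1
        push_cast at h1
        omega
    · obtain ⟨i, hi⟩ := E_lay he hw
      exact hne i hi
  · refine ⟨Equiv.ofBijective (tg l) ((Finite.injective_iff_bijective).1 (tg_inj l)), fun i => ?_⟩
    show nrm (sf l R (tg l i) - sf l R (tg l i)) ≤ 0
    rw [h0]
  · intro i
    show nrm (vD l R (tg l i) - tD l R (tg l i)) ≤ ((2 : ℕ) : ℤ)
    unfold vD tD
    split_ifs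
    · unfold nrm
      simp
    · rw [h0]
      norm_num
  · intro i
    exact E_dual (E_PO l R) (tg l i)

/-- the inner canonical state reaches the seeds -/
theorem fan {l R : ℕ} (hl : 1 ≤ l) (hR : l + 2 ≤ R) : ∃ (k0 : ℕ) (C : ℝ), 600 * l ≤ k0 ∧ 0 < C ∧ ∀ n, 8 * k0 ≤ n →
    wIl l k0 n ≤ C * IPC.Pr (1 / 2) (an R n) (fun ω => SArm l R n ω ∧ Lay l R ω) := by
  obtain ⟨c, hc, hc1, hRB⟩ := rb_half
  have hn1 : 200000 * (l + 1) + 4 * R = nE l R := rfl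
  obtain ⟨C1, hC1, h1⟩ := out_extL hl hc hc1 (nE l R)
  obtain ⟨C2, hC2, h2⟩ := can_glueL hl hc hc1 3
  have hsub : FKN.bx R ⊆ FKN.bx (nE l R / 2) := D_bx_mono (by omega)
  have hsub2 : FKN.bx R ⊆ FKN.bx (3 * nE l R / 2) := D_bx_mono (by omega)
  have hsv : ∀ (η : Finset Edge) (s : Fin l → FKI.V), ESp l R η s → ∀ i, nrm (s i) ≤ ((R + 1 : ℕ) : ℤ) :=
    fun η s hs i => D_src hs.2 (D_sv hR) i
  have hsf : ∀ (η : Finset Edge) (s : Fin l → FKI.V), ESm l R η s → ∀ i, nrm (s i) ≤ ((R + 1 : ℕ) : ℤ) :=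
    fun η s hs i => D_src hs.2 (D_sf hR) i
  have h3 := h1 (1 / 2) (nE l R) 2 (R + 1) (FKN.bx R) (ESp l R) (ESm l R) (zO l R) (zD l R) (by norm_num) (by norm_num)
    (ESp_inc l R) (ESm_inc l R) hsv hsf hsub (by omega) (hRB _) (le_refl _) (by omega) (by nlinarith) (E_cyc l R)
  have h4 : 0 < IPC.Pr (1 / 2) (FKN.bx (nE l R)) (BS ((FKN.bx (nE l R) \ FKN.bx R) \ bxs (zD l R) (300 * (2 : ℕ)))
      ((FKN.bx (nE l R) \ FKN.bx R) \ bxs (zO l R) (300 * (2 : ℕ))) (ESp l R) (ESm l R) (zO l R) (zD l R) (2 : ℕ)) :=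
    E_conf (fun e he => (E_mem_wFan.1 he).1) (E_BS l R)
  have h5 : 0 < IPC.Pr (1 / 2) (FKN.bx (2 * (3 * nE l R))) (CanO l (FKN.bx R) (ESp l R) (ESm l R) (3 * nE l R)) := by
    by_contra hneg
    push Not at hneg
    have h6 := lt_of_lt_of_le h4 h3
    nlinarith
  set P := IPC.Pr (1 / 2) (FKN.bx (2 * (3 * nE l R))) (CanO l (FKN.bx R) (ESp l R) (ESm l R) (3 * nE l R)) with hP
  refine ⟨9 * nE l R, C2 / P, by omega, div_pos hC2 h5, ?_⟩
  intro n hn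
  have h6 := h2 (1 / 2) (3 * nE l R) (9 * nE l R) n (9 * nE l R) (FKN.bx R) (ESp l R) (ESm l R) (by norm_num) (by norm_num)
    (ESp_inc l R) (ESm_inc l R) hsub2 (hRB _) (by omega) (by omega) (by omega) (by omega) (by omega)
  rw [← hP] at h6
  have h7 : IPC.Pr (1 / 2) (FKN.bx n) (StE (FKN.bx n \ FKN.bx R) (FKN.bx n \ FKN.bx R) (ESp l R) (bdP n) (ESm l R) (bdD n)) ≤
      IPC.Pr (1 / 2) (an R n) (fun ω => SArm l R n ω ∧ Lay l R ω) := by
    have e1 : IPC.Pr (1 / 2) (FKN.bx n) (StE (FKN.bx n \ FKN.bx R) (FKN.bx n \ FKN.bx R) (ESp l R) (bdP n) (ESm l R) (bdD n)) =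
        IPC.Pr (1 / 2) (an R n) (StE (FKN.bx n \ FKN.bx R) (FKN.bx n \ FKN.bx R) (ESp l R) (bdP n) (ESm l R) (bdD n)) :=
      pr_StE (1 / 2) _ _ _ _ (Finset.union_subset Finset.sdiff_subset Finset.sdiff_subset)
        (Finset.union_subset (Finset.Subset.refl _) (Finset.Subset.refl _))
    rw [e1]
    exact pq_mono (by norm_num) (by norm_num) fun ω _ h => E_sarm h
  have h8 : P * wIl l (9 * nE l R) n ≤ C2 * IPC.Pr (1 / 2) (an R n) (fun ω => SArm l R n ω ∧ Lay l R ω) :=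
    le_trans h6 (mul_le_mul_of_nonneg_left h7 hC2.le)
  rw [div_mul_eq_mul_div, le_div_iff₀ h5, mul_comm]
  exact h8

end EV

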