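import Pool.Agent.Lib.MP_216314_pr.EV.FMain

/-!
# Even arms: all annuli

`even_arms_all`: the bounds of `even_arms` for all `l + 2 ≤ r ≤ n`.
-/

set_option autoImplicit false

noncomputable section

namespace EV

open Finset FKI FKP FKN CY Filter Topology

theorem F_pil_in {l a r n : ℕ} (h1 : a ≤ r) (h2 : r ≤ n) : pil l a n ≤ pil l r n := by
  have h := pil_mul (l := l) h1 h2
  have h3 := mul_le_mul_of_nonneg_right (pil_le_one l a r) (pil_nonneg l r n)
  linarith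

theorem F_pil_out {l a r n : ℕ} (h1 : a ≤ r) (h2 : r ≤ n) : pil l a n ≤ pil l a r := by
  have h := pil_mul (l := l) h1 h2
  have h3 := mul_le_mul_of_nonneg_left (pil_le_one l r n) (pil_nonneg l a r)
  linarith

/-- comparison of powers of ratios -/
theorem F_rat {a : ℝ} (ha : 0 ≤ a) {x y t : ℝ} (hx : 0 ≤ x) (hy : 0 ≤ y) (ht : 0 ≤ t) (h : x ≤ t * y) :
    x ^ a ≤ t ^ a * y ^ a := by
  rw [← Real.mul_rpow ht hy]
  exact Real.rpow_le_rpow hx h ha

/-- EVEN ARM EXPONENTS, all annuli -/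
theorem even_arms_all {l : ℕ} (hl : 1 ≤ l) : ∃ c C : ℝ, 0 < c ∧ 0 < C ∧ ∀ r n : ℕ, l + 2 ≤ r → r ≤ n →
    c * ((r : ℝ) / n) ^ (al l) ≤ pil l r n ∧ pil l r n ≤ C * ((r : ℝ) / n) ^ (al l) := by
  have ha := (F_al_pos hl).le
  obtain ⟨r0, c, C, hc, hC, hmain⟩ := even_arms hl
  obtain ⟨c3, hc3, hlow⟩ := F_pil_low hl (hLaw hl) (hWg hl)
  have hq : (0 : ℝ) < ((r0 : ℝ) + 1) ^ (al l) := Real.rpow_pos_of_pos (by positivity) _
  have hq2 : (0 : ℝ) < (2 * ((r0 : ℝ) + 1)) ^ (al l) := Real.rpow_pos_of_pos (by positivity) _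
  have h2a : (0 : ℝ) < (2 : ℝ) ^ (al l) := Real.rpow_pos_of_pos (by norm_num) _
  refine ⟨min (c / 2 ^ (al l)) (c3 / ((r0 : ℝ) + 1) ^ (al l)), (C + 1) * (2 * ((r0 : ℝ) + 1)) ^ (al l),
    lt_min (by positivity) (by positivity), by positivity, fun r n hr hn => ?_⟩
  have hr1 : 1 ≤ r := by omega
  have hn1 : 1 ≤ n := by omega
  have hr0' : (0 : ℝ) < r := by exact_mod_cast hr1
  have hn0' : (0 : ℝ) < n := by exact_mod_cast hn1
  have hx : (0 : ℝ) < (r : ℝ) / n := by positivity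
  have hxa : (0 : ℝ) < ((r : ℝ) / n) ^ (al l) := Real.rpow_pos_of_pos hx _
  constructor
  · by_cases hb : r0 ≤ r
    · have h1 := (hmain r (max n (2 * r)) hb (le_max_right _ _)).1
      have h2 : pil l r (max n (2 * r)) ≤ pil l r n := F_pil_out hn (le_max_left _ _)
      have hN0 : (0 : ℝ) < ((max n (2 * r) : ℕ) : ℝ) := by
        exact_mod_cast lt_of_lt_of_le hn1 (le_max_left n (2 * r))
      have hN2 : ((max n (2 * r) : ℕ) : ℝ) ≤ 2 * n := by
        exact_mod_cast max_le (by omega : n ≤ 2 * n) (by omega : 2 * r ≤ 2 * n)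
      have h3 : ((r : ℝ) / n) ^ (al l) ≤ 2 ^ (al l) * ((r : ℝ) / (max n (2 * r) : ℕ)) ^ (al l) := by
        refine F_rat ha hx.le (by positivity) (by norm_num) ?_
        rw [← mul_div_assoc, div_le_div_iff₀ hn0' hN0]
        nlinarith
      calc min (c / 2 ^ (al l)) (c3 / ((r0 : ℝ) + 1) ^ (al l)) * ((r : ℝ) / n) ^ (al l)
          ≤ c / 2 ^ (al l) * ((r : ℝ) / n) ^ (al l) := mul_le_mul_of_nonneg_right (min_le_left _ _) hxa.le
        _ ≤ c / 2 ^ (al l) * (2 ^ (al l) * ((r : ℝ) / (max n (2 * r) : ℕ)) ^ (al l)) :=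
          mul_le_mul_of_nonneg_left h3 (by positivity)
        _ = c * ((r : ℝ) / (max n (2 * r) : ℕ)) ^ (al l) := by field_simp
        _ ≤ _ := h1.trans h2
    · have h1 := hlow n (by omega)
      have h2 : pil l (l + 2) n ≤ pil l r n := F_pil_in hr hn
      have h3 : ((r : ℝ) / n) ^ (al l) ≤ ((r0 : ℝ) + 1) ^ (al l) * (n : ℝ) ^ (-al l) := by
        have h4 : (r : ℝ) ≤ (r0 : ℝ) + 1 := by exact_mod_cast (by omega : r ≤ r0 + 1)
        rw [F_ratio hn1]
        exact mul_le_mul_of_nonneg_right (Real.rpow_le_rpow hr0'.le h4 ha) (F_pos hn1).le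
      calc min (c / 2 ^ (al l)) (c3 / ((r0 : ℝ) + 1) ^ (al l)) * ((r : ℝ) / n) ^ (al l)
          ≤ c3 / ((r0 : ℝ) + 1) ^ (al l) * ((r : ℝ) / n) ^ (al l) := mul_le_mul_of_nonneg_right (min_le_right _ _) hxa.le
        _ ≤ c3 / ((r0 : ℝ) + 1) ^ (al l) * (((r0 : ℝ) + 1) ^ (al l) * (n : ℝ) ^ (-al l)) :=
          mul_le_mul_of_nonneg_left h3 (by positivity)
        _ = c3 * (n : ℝ) ^ (-al l) := by field_simp
        _ ≤ _ := h1.trans h2
  · have hr00 : (0 : ℝ) ≤ (r0 : ℝ) := Nat.cast_nonneg _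
    have hr1' : (1 : ℝ) ≤ (r : ℝ) := by exact_mod_cast hr1
    by_cases hb : 2 * (max r r0) ≤ n
    · have h1 := (hmain (max r r0) n (le_max_right _ _) hb).2
      have h2 : pil l r n ≤ pil l (max r r0) n := F_pil_in (le_max_left _ _) (by omega)
      have h5 : ((max r r0 : ℕ) : ℝ) ≤ 2 * ((r0 : ℝ) + 1) * r := by
        rcases le_total r0 r with h | h
        · rw [max_eq_left h]
          nlinarith
        · rw [max_eq_right h]
          nlinarith
      have h3 : (((max r r0 : ℕ) : ℝ) / n) ^ (al l) ≤ (2 * ((r0 : ℝ) + 1)) ^ (al l) * ((r : ℝ) / n) ^ (al l) := by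
        refine F_rat ha (by positivity) hx.le (by positivity) ?_
        rw [← mul_div_assoc]
        exact div_le_div_of_nonneg_right h5 hn0'.le
      calc pil l r n ≤ C * (((max r r0 : ℕ) : ℝ) / n) ^ (al l) := h2.trans h1
        _ ≤ C * ((2 * ((r0 : ℝ) + 1)) ^ (al l) * ((r : ℝ) / n) ^ (al l)) := mul_le_mul_of_nonneg_left h3 hC.le
        _ = C * (2 * ((r0 : ℝ) + 1)) ^ (al l) * ((r : ℝ) / n) ^ (al l) := by ring
        _ ≤ _ := mul_le_mul_of_nonneg_right (by nlinarith) hxa.le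
    · have h1 := pil_le_one l r n
      have h5 : (n : ℝ) ≤ 2 * ((r0 : ℝ) + 1) * r := by
        have h6 : (n : ℝ) ≤ 2 * ((max r r0 : ℕ) : ℝ) := by exact_mod_cast (by omega : n ≤ 2 * max r r0)
        have h7 : ((max r r0 : ℕ) : ℝ) ≤ ((r0 : ℝ) + 1) * r := by
          rcases le_total r0 r with h | h
          · rw [max_eq_left h]
            nlinarith
          · rw [max_eq_right h]
            nlinarith
        linarith
      have h3 : (1 : ℝ) ^ (al l) ≤ (2 * ((r0 : ℝ) + 1)) ^ (al l) * ((r : ℝ) / n) ^ (al l) := by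
        refine F_rat ha (by norm_num) hx.le (by positivity) ?_
        rw [← mul_div_assoc, le_div_iff₀ hn0', one_mul]
        exact h5
      rw [Real.one_rpow] at h3
      calc pil l r n ≤ (2 * ((r0 : ℝ) + 1)) ^ (al l) * ((r : ℝ) / n) ^ (al l) := h1.trans h3
        _ = 1 * ((2 * ((r0 : ℝ) + 1)) ^ (al l) * ((r : ℝ) / n) ^ (al l)) := by ring
        _ ≤ (C + 1) * ((2 * ((r0 : ℝ) + 1)) ^ (al l) * ((r : ℝ) / n) ^ (al l)) :=
          mul_le_mul_of_nonneg_right (by linarith) (by positivity)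
        _ = _ := by ring

end EV
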