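import Pool.Agent.Lib.MP_216314_pr.EV.FNum

/-!
# Even arms: the final theorem from its ingredients
-/

set_option autoImplicit false

noncomputable section

namespace EV

open Finset FKI FKP FKN CY Filter Topology

theorem F_cancel {a : ℝ} {r : ℕ} (hr : 1 ≤ r) : (r : ℝ) ^ a * (r : ℝ) ^ (-a) = 1 := by
  have hr0 : (0 : ℝ) < r := by exact_mod_cast hr
  rw [← Real.rpow_add hr0, add_neg_cancel, Real.rpow_zero]

theorem F_ratio {a : ℝ} {r n : ℕ} (hn : 1 ≤ n) : ((r : ℝ) / n) ^ a = (r : ℝ) ^ a * (n : ℝ) ^ (-a) := by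
  have hn0 : (0 : ℝ) < n := by exact_mod_cast hn
  rw [Real.div_rpow (Nat.cast_nonneg r) hn0.le, Real.rpow_neg hn0.le]
  rfl

/-- upper bound for the inner canonical state -/
theorem F_wI_up {l : ℕ} (hl : 1 ≤ l) (hL : HLaw l) (hW : HWg l) (hE : HwE l) (hO : HSepO l)
    (hI : HSepI l) (hF : HFan l) (hC : HCl l) (hS : HSarm l) :
    ∃ (C : ℝ) (r0 : ℕ), 0 < C ∧ ∀ r m : ℕ, r0 ≤ r → 2 * r ≤ m → wIl l r m ≤ C * ((r : ℝ) ^ (al l) * (m : ℝ) ^ (-al l)) := by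
  obtain ⟨Cg, ng, hCg, hglue⟩ := can_glue_l (R := l + 3) hl 6
  obtain ⟨c1, hc1, hlay⟩ := sarm_layer (l := l) (R := l + 2) le_rfl
  obtain ⟨D, hD, hEE⟩ := F_eE_up (R := l + 2) hl le_rfl hL hE hO
  obtain ⟨c5, n5, hc5, hlow⟩ := F_wE_low (R := l + 3) hl (by omega) hL hW hE hO hI hF hC hS
  refine ⟨Cg * (D / c1) / c5, 30 * (ng + n5 + 1) + l + 10, by positivity, fun r m hr hm => ?_⟩
  have h1 := hglue (10 * (r / 30)) r m (by omega) (by omega) (by omega) hm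
  have h2 := hlay m (by omega)
  have h3 := hS (l + 2) m le_rfl (by omega)
  have h4 := hEE m (by omega)
  have h5 := hlow (r / 30) (by omega)
  have h6 : (r : ℝ) ^ (-al l) ≤ ((r / 30 : ℕ) : ℝ) ^ (-al l) := F_anti (F_al_pos hl).le (by omega) (Nat.div_le_self _ _)
  have hr0 : (0 : ℝ) < (r : ℝ) ^ (al l) := Real.rpow_pos_of_pos (by exact_mod_cast (by omega : 0 < r)) _
  have hw := D_wIl_nonneg l r m
  have h7 : IPC.Pr (1 / 2) (an (l + 3) m) (SArm l (l + 3) m) ≤ D / c1 * (m : ℝ) ^ (-al l) := by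
    rw [div_mul_eq_mul_div, le_div_iff₀ hc1, mul_comm]
    exact (h2.trans h3).trans h4
  have h8 : c5 * (r : ℝ) ^ (-al l) * wIl l r m ≤ Cg * (D / c1 * (m : ℝ) ^ (-al l)) := by
    refine le_trans (mul_le_mul_of_nonneg_right ?_ hw) (h1.trans (mul_le_mul_of_nonneg_left h7 hCg.le))
    exact (mul_le_mul_of_nonneg_left h6 hc5.le).trans h5
  have h9 : (r : ℝ) ^ (al l) * (r : ℝ) ^ (-al l) = 1 := F_cancel (by omega)
  have h10 : c5 * wIl l r m = (r : ℝ) ^ (al l) * (c5 * (r : ℝ) ^ (-al l) * wIl l r m) := by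
    calc c5 * wIl l r m = ((r : ℝ) ^ (al l) * (r : ℝ) ^ (-al l)) * (c5 * wIl l r m) := by rw [h9, one_mul]
      _ = _ := by ring
  have h11 : c5 * wIl l r m ≤ (r : ℝ) ^ (al l) * (Cg * (D / c1 * (m : ℝ) ^ (-al l))) := by
    rw [h10]
    exact mul_le_mul_of_nonneg_left h8 hr0.le
  have h12 : Cg * (D / c1) / c5 * ((r : ℝ) ^ (al l) * (m : ℝ) ^ (-al l)) =
      (r : ℝ) ^ (al l) * (Cg * (D / c1 * (m : ℝ) ^ (-al l))) / c5 := by ring
  rw [h12, le_div_iff₀ hc5, mul_comm]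
  exact h11

/-- EVEN ARM EXPONENTS from the ingredients -/
theorem final_of {l : ℕ} (hl : 1 ≤ l) (hL : HLaw l) (hW : HWg l) (hE : HwE l) (hO : HSepO l)
    (hI : HSepI l) (hF : HFan l) (hC : HCl l) (hS : HSarm l) :
    ∃ (r0 : ℕ) (c C : ℝ), 0 < c ∧ 0 < C ∧ ∀ r n : ℕ, r0 ≤ r → 2 * r ≤ n →
      c * ((r : ℝ) / n) ^ (al l) ≤ pil l r n ∧ pil l r n ≤ C * ((r : ℝ) / n) ^ (al l) := by
  have ha := (F_al_pos hl).le
  obtain ⟨Cw, rw0, hCw, hwI⟩ := F_wI_up hl hL hW hE hO hI hF hC hS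
  obtain ⟨kr, Ci, hCi, hrec⟩ := rec_inn_l hl hI
  obtain ⟨c3, hc3, hlow⟩ := F_pil_low hl hL hW
  obtain ⟨F, n1, hF0, hch⟩ := F_chain (R := l + 2) hl le_rfl hI hF hC hS
  obtain ⟨D, hD, hEE⟩ := F_eE_up (R := l + 2) hl le_rfl hL hE hO
  have h16 : (0 : ℝ) < ((16 : ℕ) : ℝ) ^ (al l) := by positivity
  refine ⟨kr + 10 * rw0 + n1 + l + 100, c3 / (F * D), Ci * Cw + ((16 : ℕ) : ℝ) ^ (al l), by positivity, by positivity, ?_⟩
  intro r n hr hn
  have hr1 : 1 ≤ r := by omega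
  have hn1 : 1 ≤ n := by omega
  have hra : (0 : ℝ) < (r : ℝ) ^ (al l) := Real.rpow_pos_of_pos (by exact_mod_cast hr1) _
  have hna : (0 : ℝ) < (n : ℝ) ^ (-al l) := F_pos hn1
  rw [F_ratio hn1]
  constructor
  · have h1 := hlow n (by omega)
    have h2 := pil_mul (l := l) (a := l + 2) (r := r) (n := n) (by omega) (by omega)
    have h3 := hch r (by omega)
    have h4 := hEE r hr1
    have h5 : pil l (l + 2) r ≤ F * (D * (r : ℝ) ^ (-al l)) := h3.trans (mul_le_mul_of_nonneg_left h4 hF0.le)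
    have h6 : c3 * (n : ℝ) ^ (-al l) ≤ F * (D * (r : ℝ) ^ (-al l)) * pil l r n :=
      (h1.trans h2).trans (mul_le_mul_of_nonneg_right h5 (pil_nonneg _ _ _))
    have h7 : (r : ℝ) ^ (al l) * (r : ℝ) ^ (-al l) = 1 := F_cancel hr1
    have h8 : (r : ℝ) ^ (al l) * (c3 * (n : ℝ) ^ (-al l)) ≤ F * D * pil l r n := by
      calc (r : ℝ) ^ (al l) * (c3 * (n : ℝ) ^ (-al l))
          ≤ (r : ℝ) ^ (al l) * (F * (D * (r : ℝ) ^ (-al l)) * pil l r n) := mul_le_mul_of_nonneg_left h6 hra.le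
        _ = ((r : ℝ) ^ (al l) * (r : ℝ) ^ (-al l)) * (F * D * pil l r n) := by ring
        _ = F * D * pil l r n := by rw [h7, one_mul]
    have h9 : c3 / (F * D) * ((r : ℝ) ^ (al l) * (n : ℝ) ^ (-al l)) =
        (r : ℝ) ^ (al l) * (c3 * (n : ℝ) ^ (-al l)) / (F * D) := by ring
    rw [h9, div_le_iff₀ (by positivity), mul_comm (pil l r n)]
    exact h8
  · by_cases h8 : 8 * (r + 1) ≤ n
    · have h1 := hC r n (by omega)
      have h2 := hrec (r + 1) n (by omega) h8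
      have h3 := hwI ((r + 1) / 10) n (by omega) (by omega)
      have h4 : (((r + 1) / 10 : ℕ) : ℝ) ^ (al l) ≤ (r : ℝ) ^ (al l) := by
        refine Real.rpow_le_rpow (Nat.cast_nonneg _) ?_ ha
        exact_mod_cast (by omega : (r + 1) / 10 ≤ r)
      calc pil l r n ≤ Ci * wIl l ((r + 1) / 10) n := h1.trans h2
        _ ≤ Ci * (Cw * ((((r + 1) / 10 : ℕ) : ℝ) ^ (al l) * (n : ℝ) ^ (-al l))) := mul_le_mul_of_nonneg_left h3 hCi.le
        _ ≤ Ci * (Cw * ((r : ℝ) ^ (al l) * (n : ℝ) ^ (-al l))) := by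
          refine mul_le_mul_of_nonneg_left (mul_le_mul_of_nonneg_left ?_ hCw.le) hCi.le
          exact mul_le_mul_of_nonneg_right h4 hna.le
        _ = Ci * Cw * ((r : ℝ) ^ (al l) * (n : ℝ) ^ (-al l)) := by ring
        _ ≤ _ := mul_le_mul_of_nonneg_right (by linarith) (by positivity)
    · have h1 := pil_le_one l r n
      have h2 : (r : ℝ) ^ (-al l) ≤ ((16 : ℕ) : ℝ) ^ (al l) * (n : ℝ) ^ (-al l) := F_scale ha hr1 hn1 (by omega)
      have h7 : (r : ℝ) ^ (al l) * (r : ℝ) ^ (-al l) = 1 := F_cancel hr1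
      calc pil l r n ≤ (r : ℝ) ^ (al l) * (r : ℝ) ^ (-al l) := by rw [h7]; exact h1
        _ ≤ (r : ℝ) ^ (al l) * (((16 : ℕ) : ℝ) ^ (al l) * (n : ℝ) ^ (-al l)) := mul_le_mul_of_nonneg_left h2 hra.le
        _ = ((16 : ℕ) : ℝ) ^ (al l) * ((r : ℝ) ^ (al l) * (n : ℝ) ^ (-al l)) := by ring
        _ ≤ _ := mul_le_mul_of_nonneg_right (by linarith [mul_pos hCi hCw]) (by positivity)

end EV
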