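import Pool.Agent.Lib.MP_216314_pr.EV.L
import Pool.Agent.Lib.MP_216314_pr.EV.Def
import Pool.Agent.Lib.MP_216314_pr.N.NBase

/-!
# The exact law of `2l` legs
-/

set_option autoImplicit false

noncomputable section

namespace EV

open Finset FKI FKP FKN CY Filter Topology

theorem law_lim {l : ℕ} (hl : 1 ≤ l) : ∃ c C : ℝ, 0 < c ∧ 0 < C ∧ ∀ n : ℕ, 1 ≤ n → l ≤ 2 * n →
    ∃ Rn : ℝ, c * (n : ℝ) ^ (-al l) ≤ Rn ∧ Rn ≤ C * (n : ℝ) ^ (-al l) ∧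
      ∀ α : Pat (2 * n), Tendsto (fun m : ℕ => IPC.Pr (1 / 2) (cylE n m) (Wg l n m α)) atTop (𝓝 Rn) := by
  obtain ⟨c, C, hc, hC, H⟩ := legs_lim l hl
  refine ⟨c, C, hc, hC, fun n hn hln => ?_⟩
  obtain ⟨R, h1, h2, h3⟩ := H n hn hln
  refine ⟨R, h1, h2, fun α => ?_⟩
  refine (h3 α 0).congr fun m => ?_
  rw [pr_half]
  rfl

end EV
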