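import Pool.Agent.Lib.MP_216314_pr.EV.FFin
import Pool.Agent.Lib.MP_216314_pr.EV.LL
import Pool.Agent.Lib.MP_216314_pr.EV.AH
import Pool.Agent.Lib.MP_216314_pr.EV.BFin
import Pool.Agent.Lib.MP_216314_pr.EV.ED
import Pool.Agent.Lib.MP_216314_pr.EV.CB3
import Pool.Agent.Lib.MP_216314_pr.EV.CC2
import Pool.Agent.Lib.MP_216314_pr.EV.CLb
import Pool.Agent.Lib.MP_216314_pr.EV.CMb

/-!
# Even arms: the exponents of `2 l` arms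

`even_arms`: the probability of `l` different clusters crossing the annulus, separated by dual paths, is of the order `(r / n) ^ ((4 l² - 1) / 12)`.
`pil_up`, `pil_low`, `wE_up`, `wE_low`: the separate bounds.
-/

set_option autoImplicit false

noncomputable section

namespace EV

open Finset FKI FKP FKN CY Filter Topology

theorem hLaw {l : ℕ} (hl : 1 ≤ l) : HLaw l := law_lim hl

theorem hWg {l : ℕ} (hl : 1 ≤ l) : HWg l := by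
  intro n m k hk hkn hm α
  have h := wg_le hl hk hkn hm α
  rwa [pr_half] at h

theorem hwE {l : ℕ} (hl : 1 ≤ l) : HwE l := by
  intro R hR
  obtain ⟨K, n0, C, hK, hC, h⟩ := wE_le hl hR
  refine ⟨K, n0, C, hK, hC, fun n hn => ?_⟩
  obtain ⟨m0, hm0⟩ := h n hn
  refine ⟨m0, fun m hm α => ?_⟩
  have h1 := hm0 m hm α
  rwa [pr_half] at h1

theorem hFan {l : ℕ} (hl : 1 ≤ l) : HFan l := fun _ hR => fan hl hR

theorem hCl (l : ℕ) : HCl l := fun _ _ h => pil_le_eI h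

theorem hSarm (l : ℕ) : HSarm l := fun _ _ hR hn => sarm_le hR hn

theorem hSepO {l : ℕ} (hl : 1 ≤ l) : HSepO l := fun _ hR => sep_out hl hR

theorem hSepI {l : ℕ} (hl : 1 ≤ l) : HSepI l := sep_in hl

/-- EVEN ARM EXPONENTS -/
theorem even_arms {l : ℕ} (hl : 1 ≤ l) : ∃ (r0 : ℕ) (c C : ℝ), 0 < c ∧ 0 < C ∧ ∀ r n : ℕ, r0 ≤ r → 2 * r ≤ n →
    c * ((r : ℝ) / n) ^ (al l) ≤ pil l r n ∧ pil l r n ≤ C * ((r : ℝ) / n) ^ (al l) :=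
  final_of hl (hLaw hl) (hWg hl) (hwE hl) (hSepO hl) (hSepI hl) (hFan hl) (hCl l) (hSarm l)

/-- upper bound -/
theorem pil_up {l : ℕ} (hl : 1 ≤ l) : ∃ (r0 : ℕ) (C : ℝ), 0 < C ∧ ∀ r n : ℕ, r0 ≤ r → 2 * r ≤ n →
    pil l r n ≤ C * ((r : ℝ) / n) ^ (al l) := by
  obtain ⟨r0, c, C, _, hC, h⟩ := even_arms hl
  exact ⟨r0, C, hC, fun r n hr hn => (h r n hr hn).2⟩

/-- lower bound -/
theorem pil_low {l : ℕ} (hl : 1 ≤ l) : ∃ (r0 : ℕ) (c : ℝ), 0 < c ∧ ∀ r n : ℕ, r0 ≤ r → 2 * r ≤ n →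
    c * ((r : ℝ) / n) ^ (al l) ≤ pil l r n := by
  obtain ⟨r0, c, C, hc, _, h⟩ := even_arms hl
  exact ⟨r0, c, hc, fun r n hr hn => (h r n hr hn).1⟩

/-- upper bound for the outer state -/
theorem wE_up {l R : ℕ} (hl : 1 ≤ l) (hR : l + 2 ≤ R) : ∃ (C : ℝ) (n0 : ℕ), 0 < C ∧ ∀ n : ℕ, n0 ≤ n →
    wE l R n ≤ C * (n : ℝ) ^ (-al l) :=
  F_wE_up hl hR (hLaw hl) (hwE hl)

/-- upper bound for the exploration state -/
theorem eE_up {l R : ℕ} (hl : 1 ≤ l) (hR : l + 2 ≤ R) : ∃ D : ℝ, 0 < D ∧ ∀ n : ℕ, 1 ≤ n →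
    eE l R n ≤ D * (n : ℝ) ^ (-al l) :=
  F_eE_up hl hR (hLaw hl) (hwE hl) (hSepO hl)

/-- lower bound for the outer state -/
theorem wE_low {l R : ℕ} (hl : 1 ≤ l) (hR : l + 2 ≤ R) : ∃ (c : ℝ) (n1 : ℕ), 0 < c ∧ ∀ n : ℕ, n1 ≤ n →
    c * (n : ℝ) ^ (-al l) ≤ wE l R (10 * n) :=
  F_wE_low hl hR (hLaw hl) (hWg hl) (hwE hl) (hSepO hl) (hSepI hl) (hFan hl) (hCl l) (hSarm l)

/-- upper bound for the inner state -/
theorem wI_up {l : ℕ} (hl : 1 ≤ l) : ∃ (C : ℝ) (r0 : ℕ), 0 < C ∧ ∀ r m : ℕ, r0 ≤ r → 2 * r ≤ m →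
    wIl l r m ≤ C * ((r : ℝ) ^ (al l) * (m : ℝ) ^ (-al l)) :=
  F_wI_up hl (hLaw hl) (hWg hl) (hwE hl) (hSepO hl) (hSepI hl) (hFan hl) (hCl l) (hSarm l)

end EV
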