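import Pool.Agent.Lib.MP_216314_pr.EV.DRecL
import Pool.Agent.Lib.MP_216314_pr.EV.DLay
import Pool.Agent.Lib.MP_216314_pr.Z.RelB

/-!
# Even arms: numerical assembly

The exponent of `2 l` arms from the exact law on the cylinder, the comparison with the plane, the separation inequalities and gluing.
-/

set_option autoImplicit false

noncomputable section

namespace EV

open Finset FKI FKP FKN CY Filter Topology

theorem F_al_pos {l : ℕ} (hl : 1 ≤ l) : 0 < al l := by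
  unfold al
  have h1 : (1 : ℝ) ≤ l := by exact_mod_cast hl
  nlinarith

/-- powers of comparable scales -/
theorem F_scale {a : ℝ} (ha : 0 ≤ a) {m n t : ℕ} (hm : 1 ≤ m) (hn : 1 ≤ n) (h : n ≤ t * m) :
    (m : ℝ) ^ (-a) ≤ (t : ℝ) ^ a * (n : ℝ) ^ (-a) := by
  have ht : 1 ≤ t := by
    rcases Nat.eq_zero_or_pos t with h1 | h1
    · subst h1
      omega
    · exact h1
  have hm0 : (0 : ℝ) < m := by exact_mod_cast hm
  have hn0 : (0 : ℝ) < n := by exact_mod_cast hn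
  have ht0 : (0 : ℝ) < t := by exact_mod_cast ht
  have h1 : (n : ℝ) ≤ t * m := by exact_mod_cast h
  have h2 : ((t : ℝ) * m) ^ (-a) ≤ (n : ℝ) ^ (-a) := Real.rpow_le_rpow_of_nonpos hn0 h1 (by linarith)
  rw [Real.mul_rpow ht0.le hm0.le] at h2
  have h3 : (t : ℝ) ^ a * (t : ℝ) ^ (-a) = 1 := by
    rw [← Real.rpow_add ht0, add_neg_cancel, Real.rpow_zero]
  have h4 : (0 : ℝ) ≤ (t : ℝ) ^ a := Real.rpow_nonneg ht0.le _
  calc (m : ℝ) ^ (-a) = (t : ℝ) ^ a * (t : ℝ) ^ (-a) * (m : ℝ) ^ (-a) := by rw [h3, one_mul]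
    _ = (t : ℝ) ^ a * ((t : ℝ) ^ (-a) * (m : ℝ) ^ (-a)) := by ring
    _ ≤ _ := mul_le_mul_of_nonneg_left h2 h4

theorem F_anti {a : ℝ} (ha : 0 ≤ a) {m n : ℕ} (hm : 1 ≤ m) (h : m ≤ n) : (n : ℝ) ^ (-a) ≤ (m : ℝ) ^ (-a) := by
  have hm0 : (0 : ℝ) < m := by exact_mod_cast hm
  exact Real.rpow_le_rpow_of_nonpos hm0 (by exact_mod_cast h) (by linarith)

theorem F_pos {a : ℝ} {n : ℕ} (hn : 1 ≤ n) : (0 : ℝ) < (n : ℝ) ^ (-a) :=
  Real.rpow_pos_of_pos (by exact_mod_cast hn) _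

theorem F_one {a : ℝ} (ha : 0 ≤ a) {n K : ℕ} (hn : 1 ≤ n) (hK : n ≤ K) : 1 ≤ (K : ℝ) ^ a * (n : ℝ) ^ (-a) := by
  have h := F_scale ha (m := 1) (n := n) (t := K) le_rfl hn (by omega)
  simpa using h

/-- recursion over the scales -/
theorem F_rec {a : ℝ} (ha : 0 ≤ a) {f : ℕ → ℝ} (h1 : ∀ n, f n ≤ 1) {C θ : ℝ} (hC : 0 < C) (hθ : 0 ≤ θ)
    (hθ2 : θ * (3 : ℝ) ^ a ≤ 1 / 2) {k : ℕ}
    (h : ∀ n, k ≤ n → f n ≤ C * (n : ℝ) ^ (-a) + θ * f (n / 2)) :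
    ∃ D : ℝ, 0 < D ∧ ∀ n : ℕ, 1 ≤ n → f n ≤ D * (n : ℝ) ^ (-a) := by
  have hK0 : (0 : ℝ) ≤ ((max k 2 : ℕ) : ℝ) ^ a := by positivity
  refine ⟨2 * C + ((max k 2 : ℕ) : ℝ) ^ a, by positivity, fun n => ?_⟩
  induction n using Nat.strong_induction_on with
  | _ n ih =>
    intro hn
    have hp : (0 : ℝ) < (n : ℝ) ^ (-a) := F_pos hn
    by_cases hk : n < max k 2
    · have h2 := F_one ha hn hk.le
      calc f n ≤ 1 := h1 n
        _ ≤ ((max k 2 : ℕ) : ℝ) ^ a * (n : ℝ) ^ (-a) := h2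
        _ ≤ _ := mul_le_mul_of_nonneg_right (by linarith) hp.le
    · have hk1 : k ≤ n := (le_max_left k 2).trans (not_lt.1 hk)
      have hk2 : 2 ≤ n := (le_max_right k 2).trans (not_lt.1 hk)
      have h3 := ih (n / 2) (by omega) (by omega)
      have h4 : ((n / 2 : ℕ) : ℝ) ^ (-a) ≤ ((3 : ℕ) : ℝ) ^ a * (n : ℝ) ^ (-a) := F_scale ha (by omega) hn (by omega)
      have h44 : (((3 : ℕ) : ℝ)) = (3 : ℝ) := by norm_num
      rw [h44] at h4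
      have hD : 0 ≤ 2 * C + ((max k 2 : ℕ) : ℝ) ^ a := by positivity
      have h5 := mul_le_mul_of_nonneg_left h4 hD
      have h6 := h n hk1
      have h7 : θ * f (n / 2) ≤ θ * ((2 * C + ((max k 2 : ℕ) : ℝ) ^ a) * ((3 : ℝ) ^ a * (n : ℝ) ^ (-a))) :=
        mul_le_mul_of_nonneg_left (h3.trans h5) hθ
      have h8 : θ * ((2 * C + ((max k 2 : ℕ) : ℝ) ^ a) * ((3 : ℝ) ^ a * (n : ℝ) ^ (-a))) =
          (θ * (3 : ℝ) ^ a) * ((2 * C + ((max k 2 : ℕ) : ℝ) ^ a) * (n : ℝ) ^ (-a)) := by ring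
      have h9 : (θ * (3 : ℝ) ^ a) * ((2 * C + ((max k 2 : ℕ) : ℝ) ^ a) * (n : ℝ) ^ (-a)) ≤
          (1 / 2) * ((2 * C + ((max k 2 : ℕ) : ℝ) ^ a) * (n : ℝ) ^ (-a)) :=
        mul_le_mul_of_nonneg_right hθ2 (mul_nonneg hD hp.le)
      have h10 : f n ≤ C * (n : ℝ) ^ (-a) + (1 / 2) * ((2 * C + ((max k 2 : ℕ) : ℝ) ^ a) * (n : ℝ) ^ (-a)) := by
        linarith
      have h11 : C * (n : ℝ) ^ (-a) + (1 / 2) * ((2 * C + ((max k 2 : ℕ) : ℝ) ^ a) * (n : ℝ) ^ (-a)) =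
          (2 * C + (1 / 2) * ((max k 2 : ℕ) : ℝ) ^ a) * (n : ℝ) ^ (-a) := by ring
      rw [h11] at h10
      exact h10.trans (mul_le_mul_of_nonneg_right (by linarith) hp.le)

/-- the exact law on the cylinder -/
def HLaw (l : ℕ) : Prop := ∃ c C : ℝ, 0 < c ∧ 0 < C ∧ ∀ n : ℕ, 1 ≤ n → l ≤ 2 * n → ∃ Rn : ℝ,
  c * (n : ℝ) ^ (-al l) ≤ Rn ∧ Rn ≤ C * (n : ℝ) ^ (-al l) ∧
  ∀ α : Pat (2 * n), Tendsto (fun m : ℕ => IPC.Pr (1 / 2) (cylE n m) (Wg l n m α)) atTop (𝓝 Rn)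

/-- from the cylinder to the plane -/
def HWg (l : ℕ) : Prop := ∀ n m k : ℕ, l + 2 ≤ k → 2 * k < n → n ≤ m → ∀ α : Pat (2 * n),
  IPC.Pr (1 / 2) (cylE n m) (Wg l n m α) ≤ pil l (l + 2) k

/-- from the canonical state to the cylinder -/
def HwE (l : ℕ) : Prop := ∀ R : ℕ, l + 2 ≤ R → ∃ (K n0 : ℕ) (C : ℝ), 1 ≤ K ∧ 0 < C ∧ ∀ n : ℕ, n0 ≤ n → ∃ m0 : ℕ,
  ∀ m : ℕ, m0 ≤ m → ∀ α : Pat (2 * (K * n)), wE l R n ≤ C * IPC.Pr (1 / 2) (cylE (K * n) m) (Wg l (K * n) m α)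

/-- the inner canonical state reaches the seeds -/
def HFan (l : ℕ) : Prop := ∀ R : ℕ, l + 2 ≤ R → ∃ (k0 : ℕ) (C : ℝ), 600 * l ≤ k0 ∧ 0 < C ∧ ∀ n : ℕ, 8 * k0 ≤ n →
  wIl l k0 n ≤ C * IPC.Pr (1 / 2) (an R n) (fun ω => SArm l R n ω ∧ Lay l R ω)

/-- clusters to strands -/
def HCl (l : ℕ) : Prop := ∀ r n : ℕ, r + 2 ≤ n → pil l r n ≤ eI l (r + 1) n

/-- seeds to strands -/
def HSarm (l : ℕ) : Prop := ∀ R n : ℕ, l + 2 ≤ R → R < n →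
  IPC.Pr (1 / 2) (an R n) (fun ω => SArm l R n ω ∧ Lay l R ω) ≤ eE l R n

/-- outer separation -/
def HSepO (l : ℕ) : Prop := ∀ R : ℕ, l + 2 ≤ R → ∀ θ : ℝ, 0 < θ → ∃ (k : ℕ) (C : ℝ), 0 < C ∧ ∀ n : ℕ, k ≤ n →
  eE l R n ≤ C * wE l R (10 * n) + θ * eE l R (n / 2)

/-- inner separation -/
def HSepI (l : ℕ) : Prop := ∀ θ : ℝ, 0 < θ → ∃ (k : ℕ) (C : ℝ), 0 < C ∧ ∀ r n : ℕ, k ≤ r → 8 * r ≤ n →
  eI l r n ≤ C * wIl l (r / 10) n + θ * eI l (2 * r) n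

/-- upper bound for the canonical state -/
theorem F_wE_up {l R : ℕ} (hl : 1 ≤ l) (hR : l + 2 ≤ R) (hL : HLaw l) (hE : HwE l) : ∃ (C : ℝ) (n0 : ℕ), 0 < C ∧
    ∀ n : ℕ, n0 ≤ n → wE l R n ≤ C * (n : ℝ) ^ (-al l) := by
  obtain ⟨c0, C0, hc0, hC0, hlaw⟩ := hL
  obtain ⟨K, n0, C1, hK, hC1, h1⟩ := hE R hR
  refine ⟨C1 * C0, max n0 (l + 1), by positivity, fun n hn => ?_⟩
  rw [max_le_iff] at hn
  have hKn : n ≤ K * n := Nat.le_mul_of_pos_left n hK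
  obtain ⟨Rn, -, hR2, hR3⟩ := hlaw (K * n) (by omega) (by omega)
  obtain ⟨α, _⟩ := CY.exists_ref (L := 2 * (K * n)) (even_two_mul _) (by omega)
  obtain ⟨m0, hm0⟩ := h1 n hn.1
  have h2 : wE l R n ≤ C1 * Rn := by
    refine ge_of_tendsto ((hR3 α).const_mul C1) ?_
    filter_upwards [Filter.eventually_ge_atTop m0] with m hm
    exact hm0 m hm α
  have h3 := F_anti (F_al_pos hl).le (m := n) (n := K * n) (by omega) hKn
  calc wE l R n ≤ C1 * Rn := h2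
    _ ≤ C1 * (C0 * (n : ℝ) ^ (-al l)) :=
      mul_le_mul_of_nonneg_left (hR2.trans (mul_le_mul_of_nonneg_left h3 hC0.le)) hC1.le
    _ = _ := by ring

/-- upper bound for the exploration state -/
theorem F_eE_up {l R : ℕ} (hl : 1 ≤ l) (hR : l + 2 ≤ R) (hL : HLaw l) (hE : HwE l) (hS : HSepO l) : ∃ D : ℝ, 0 < D ∧
    ∀ n : ℕ, 1 ≤ n → eE l R n ≤ D * (n : ℝ) ^ (-al l) := by
  obtain ⟨C, n0, hC, h1⟩ := F_wE_up hl hR hL hE
  have h3 : (0 : ℝ) < (3 : ℝ) ^ (al l) := by positivity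
  obtain ⟨k, C1, hC1, h2⟩ := hS R hR (1 / (2 * (3 : ℝ) ^ (al l))) (by positivity)
  refine F_rec (F_al_pos hl).le (eE_le_one l R) (C := C1 * C) (θ := 1 / (2 * (3 : ℝ) ^ (al l))) (by positivity)
    (by positivity) (le_of_eq ?_) (k := max k (max n0 1)) ?_
  · field_simp
  · intro n hn
    rw [max_le_iff, max_le_iff] at hn
    have h4 := h2 n hn.1
    have h5 := h1 (10 * n) (by omega)
    have h6 := F_anti (F_al_pos hl).le (m := n) (n := 10 * n) (by omega) (by omega)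
    have h7 : C1 * wE l R (10 * n) ≤ C1 * (C * (n : ℝ) ^ (-al l)) :=
      mul_le_mul_of_nonneg_left (h5.trans (mul_le_mul_of_nonneg_left h6 hC.le)) hC1.le
    calc eE l R n ≤ C1 * wE l R (10 * n) + 1 / (2 * (3 : ℝ) ^ (al l)) * eE l R (n / 2) := h4
      _ ≤ C1 * (C * (n : ℝ) ^ (-al l)) + 1 / (2 * (3 : ℝ) ^ (al l)) * eE l R (n / 2) := by linarith
      _ = _ := by ring

/-- lower bound for the arm probability from the scale `l + 2` -/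
theorem F_pil_low {l : ℕ} (hl : 1 ≤ l) (hL : HLaw l) (hW : HWg l) : ∃ c : ℝ, 0 < c ∧
    ∀ k : ℕ, l + 2 ≤ k → c * (k : ℝ) ^ (-al l) ≤ pil l (l + 2) k := by
  obtain ⟨c0, C0, hc0, hC0, hlaw⟩ := hL
  have h3 : (0 : ℝ) < ((3 : ℕ) : ℝ) ^ (al l) := by positivity
  refine ⟨c0 / ((3 : ℕ) : ℝ) ^ (al l), by positivity, fun k hk => ?_⟩
  obtain ⟨Rn, hR1, -, hR3⟩ := hlaw (2 * k + 1) (by omega) (by omega)
  obtain ⟨α, _⟩ := CY.exists_ref (L := 2 * (2 * k + 1)) (even_two_mul _) (by omega)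
  have h2 : Rn ≤ pil l (l + 2) k := by
    refine le_of_tendsto (hR3 α) ?_
    filter_upwards [Filter.eventually_ge_atTop (2 * k + 1)] with m hm
    exact hW (2 * k + 1) m k hk (by omega) hm α
  have h4 : (k : ℝ) ^ (-al l) ≤ ((3 : ℕ) : ℝ) ^ (al l) * ((2 * k + 1 : ℕ) : ℝ) ^ (-al l) :=
    F_scale (F_al_pos hl).le (by omega) (by omega) (by omega)
  calc c0 / ((3 : ℕ) : ℝ) ^ (al l) * (k : ℝ) ^ (-al l)
      ≤ c0 / ((3 : ℕ) : ℝ) ^ (al l) * (((3 : ℕ) : ℝ) ^ (al l) * ((2 * k + 1 : ℕ) : ℝ) ^ (-al l)) :=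
        mul_le_mul_of_nonneg_left h4 (by positivity)
    _ = c0 * ((2 * k + 1 : ℕ) : ℝ) ^ (-al l) := by field_simp
    _ ≤ Rn := hR1
    _ ≤ _ := h2

/-- from the arm event to the strands of the seeds -/
theorem F_chain {l R : ℕ} (hl : 1 ≤ l) (hR : l + 2 ≤ R) (hI : HSepI l) (hF : HFan l) (hC : HCl l) (hS : HSarm l) :
    ∃ (F : ℝ) (n1 : ℕ), 0 < F ∧ ∀ n : ℕ, n1 ≤ n → pil l (l + 2) n ≤ F * eE l R n := by
  obtain ⟨kr, Ci, hCi, hrec⟩ := rec_inn_l hl hI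
  obtain ⟨k0, Cf, hk0, hCf, hfan⟩ := hF R hR
  have hk1 : 1 ≤ k0 := by omega
  obtain ⟨r1, hr1⟩ : ∃ r1, r1 = kr + l + 3 + 30 * k0 + 30 + R := ⟨_, rfl⟩
  obtain ⟨A, hA, hcan⟩ := can_inn_600 hl r1
  refine ⟨Ci * (A * Cf), 8 * r1 + l + 10, by positivity, fun n hn => ?_⟩
  have h1 : pil l (l + 2) n ≤ eI l (l + 3) n := hC (l + 2) n (by omega)
  have h2 : eI l (l + 3) n ≤ eI l r1 n := eI_mono (by omega)
  have h3 := hrec r1 n (by omega) (by omega)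
  have h4 : wIl l (r1 / 10) n ≤ A * wIl l k0 n := by
    refine hcan (r1 / 10) k0 n hk0 (by omega) ?_ (by omega)
    calc r1 / 10 ≤ r1 := Nat.div_le_self _ _
      _ ≤ r1 * k0 := Nat.le_mul_of_pos_right _ hk1
  have h5 := hfan n (by omega)
  have h6 := hS R n hR (by omega)
  calc pil l (l + 2) n ≤ Ci * wIl l (r1 / 10) n := (h1.trans h2).trans h3
    _ ≤ Ci * (A * (Cf * eE l R n)) := by
      refine mul_le_mul_of_nonneg_left (h4.trans (mul_le_mul_of_nonneg_left (h5.trans ?_) hA.le)) hCi.le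
      exact mul_le_mul_of_nonneg_left h6 hCf.le
    _ = _ := by ring

/-- lower bound for the canonical state -/
theorem F_wE_low {l R : ℕ} (hl : 1 ≤ l) (hR : l + 2 ≤ R) (hL : HLaw l) (hW : HWg l) (hE : HwE l) (hO : HSepO l)
    (hI : HSepI l) (hF : HFan l) (hC : HCl l) (hS : HSarm l) :
    ∃ (c : ℝ) (n1 : ℕ), 0 < c ∧ ∀ n : ℕ, n1 ≤ n → c * (n : ℝ) ^ (-al l) ≤ wE l R (10 * n) := by
  obtain ⟨c3, hc3, h1⟩ := F_pil_low hl hL hW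
  obtain ⟨F, n1, hF0, h2⟩ := F_chain hl hR hI hF hC hS
  obtain ⟨D, hD, h3⟩ := F_eE_up hl hR hL hE hO
  have ht : (0 : ℝ) < ((3 : ℕ) : ℝ) ^ (al l) := by positivity
  obtain ⟨k, C, hC0, h4⟩ := hO R hR (c3 / (2 * F * D * ((3 : ℕ) : ℝ) ^ (al l))) (by positivity)
  refine ⟨c3 / (2 * F * C), n1 + k + l + 4, by positivity, fun n hn => ?_⟩
  have h5 := h1 n (by omega)
  have h6 := h2 n (by omega)
  have h7 := h4 n (by omega)
  have h8 := h3 (n / 2) (by omega)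
  have h9 : ((n / 2 : ℕ) : ℝ) ^ (-al l) ≤ ((3 : ℕ) : ℝ) ^ (al l) * (n : ℝ) ^ (-al l) :=
    F_scale (F_al_pos hl).le (by omega) (by omega) (by omega)
  have h10 : eE l R (n / 2) ≤ D * (((3 : ℕ) : ℝ) ^ (al l) * (n : ℝ) ^ (-al l)) :=
    h8.trans (mul_le_mul_of_nonneg_left h9 hD.le)
  have h11 : c3 / (2 * F * D * ((3 : ℕ) : ℝ) ^ (al l)) * eE l R (n / 2) ≤ c3 / (2 * F) * (n : ℝ) ^ (-al l) := by
    refine (mul_le_mul_of_nonneg_left h10 (by positivity)).trans (le_of_eq ?_)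
    field_simp
  have h12 : c3 / F * (n : ℝ) ^ (-al l) ≤ eE l R n := by
    rw [div_mul_eq_mul_div, div_le_iff₀ hF0]
    linarith
  have h13 : c3 / F * (n : ℝ) ^ (-al l) = c3 / (2 * F) * (n : ℝ) ^ (-al l) + c3 / (2 * F) * (n : ℝ) ^ (-al l) := by
    field_simp
    ring
  have h14 : c3 / (2 * F) * (n : ℝ) ^ (-al l) ≤ C * wE l R (10 * n) := by linarith
  have h15 : c3 / (2 * F * C) * (n : ℝ) ^ (-al l) = c3 / (2 * F) * (n : ℝ) ^ (-al l) / C := by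
    field_simp
  rw [h15, div_le_iff₀ hC0]
  linarith

end EV
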