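import Pool.Agent.Lib.MP_216314_pr.EV.GDef

/-!
# Even arms: positions of the regions

Write `x i = 2 t (κ i).2`, `k i = (κ i).1`. `rE k`, `rV k`, `rF k` are the `k`-th iterates of `rotE`, `rotV`, `rotF` (`rE (k + 1) = (rE k).trans rotE`).
* `nrm_rV`, `nrm_rF`: `rotV u - rotV v = (-(u.2 - v.2), u.1 - v.1)`, the same for `rotF` (the constant cancels); induction on `k`; then apply to `(rV k).symm`. `rF_rV`: induction on `k` for `rF k v` and `rV k v`: `nrm (rF k v - rV k v) ≤ 1` (for `k < 4`: by cases `k = 0, 1, 2, 3`: the differences are `(0,0)`, `(-1,0)`, `(-1,-1)`, `(0,-1)`); then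
  `(rF k).symm p - (rV k).symm p`: put `v = (rF k).symm p`: `nrm (v - (rV k).symm (rF k v)) = nrm (rV k v - rF k v)`.
* `ends_rE`: the ends of `rE k e` are `rV k` of the ends of `e` (in some order): `FKS.cp_rE` (SSym). `faces_rE`: the faces of `rE k e` are `rF k` of the faces of `e`: `FKS.cpd_rE`.
* `bxa_frame`: `e ∈ bxa a w` iff both ends of `e` are within `w` of `a` (`bxa a w = box ..`, `mem_box`); with `a = (rV k).symm p` the ends of `rE k e` are within `w` of `p` (`nrm_rV`, `ends_rE`), so `rE k e ∈ box (p.1 - w) (p.1 + w) (p.2 - w) (p.2 + w)`.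
* `ud_frame`: `e ∈ ud (bxa a w)` iff `dl e ∈ bxa a w` iff both faces of `e` are within `w` of `a`; the faces of `rE k e` are within `w` of `p`, `p = rF k a`; an edge `(i, j, true)` with faces `(i-1, j)`, `(i, j)` or `(i, j, false)` with faces `(i, j-1)`, `(i, j)` in `[p.1 - w, p.1 + w] × [p.2 - w, p.2 + w]` is in
  `box (p.1 - w) (p.1 + w + 1) (p.2 - w) (p.2 + w + 1)`.
-/

set_option autoImplicit false

noncomputable section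

namespace EV

open Finset FKI FKP

private theorem GAa_le {v : FKI.V} {w : ℤ} : FKN.nrm v ≤ w ↔ (-w ≤ v.1 ∧ v.1 ≤ w) ∧ (-w ≤ v.2 ∧ v.2 ≤ w) := by
  unfold FKN.nrm
  rw [max_le_iff, abs_le, abs_le]

private theorem GAa_V1 (u v : FKI.V) : FKN.nrm (FKS.rotV u - FKS.rotV v) = FKN.nrm (u - v) := by
  show max |(-u.2) - (-v.2)| |u.1 - v.1| = max |u.1 - v.1| |u.2 - v.2|
  have h : (-u.2) - (-v.2) = -(u.2 - v.2) := by ring
  rw [h, abs_neg, max_comm]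

private theorem GAa_F1 (u v : FKI.V) : FKN.nrm (FKS.rotF u - FKS.rotF v) = FKN.nrm (u - v) := by
  show max |(-u.2 - 1) - (-v.2 - 1)| |u.1 - v.1| = max |u.1 - v.1| |u.2 - v.2|
  have h : (-u.2 - 1) - (-v.2 - 1) = -(u.2 - v.2) := by ring
  rw [h, abs_neg, max_comm]

private theorem GAa_V (k : ℕ) (u v : FKI.V) : FKN.nrm (FKS.rV k u - FKS.rV k v) = FKN.nrm (u - v) := by
  induction k with
  | zero => rfl
  | succ k ih =>
    show FKN.nrm (FKS.rotV (FKS.rV k u) - FKS.rotV (FKS.rV k v)) = _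
    rw [GAa_V1, ih]

private theorem GAa_F (k : ℕ) (u v : FKI.V) : FKN.nrm (FKS.rF k u - FKS.rF k v) = FKN.nrm (u - v) := by
  induction k with
  | zero => rfl
  | succ k ih =>
    show FKN.nrm (FKS.rotF (FKS.rF k u) - FKS.rotF (FKS.rF k v)) = _
    rw [GAa_F1, ih]

theorem nrm_rV (k : ℕ) (p q : FKI.V) : FKN.nrm ((FKS.rV k).symm p - (FKS.rV k).symm q) = FKN.nrm (p - q) := by
  rw [← GAa_V k, Equiv.apply_symm_apply, Equiv.apply_symm_apply]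

theorem nrm_rF (k : ℕ) (p q : FKI.V) : FKN.nrm ((FKS.rF k).symm p - (FKS.rF k).symm q) = FKN.nrm (p - q) := by
  rw [← GAa_F k, Equiv.apply_symm_apply, Equiv.apply_symm_apply]

theorem rF_rV {k : ℕ} (hk : k < 4) (p : FKI.V) : FKN.nrm ((FKS.rF k).symm p - (FKS.rV k).symm p) ≤ 1 := by
  obtain ⟨v, rfl⟩ := (FKS.rF k).surjective p
  rw [Equiv.symm_apply_apply, ← GAa_V k, Equiv.apply_symm_apply, GAa_le]
  have h : k = 0 ∨ k = 1 ∨ k = 2 ∨ k = 3 := by omega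
  rcases h with rfl | rfl | rfl | rfl
  · show (-1 ≤ v.1 - v.1 ∧ v.1 - v.1 ≤ 1) ∧ (-1 ≤ v.2 - v.2 ∧ v.2 - v.2 ≤ 1)
    omega
  · show (-1 ≤ (-v.2) - (-v.2 - 1) ∧ (-v.2) - (-v.2 - 1) ≤ 1) ∧ (-1 ≤ v.1 - v.1 ∧ v.1 - v.1 ≤ 1)
    omega
  · show (-1 ≤ (-v.1) - (-v.1 - 1) ∧ (-v.1) - (-v.1 - 1) ≤ 1) ∧
      (-1 ≤ (-v.2) - (-v.2 - 1) ∧ (-v.2) - (-v.2 - 1) ≤ 1)
    omega
  · show (-1 ≤ (-(-v.2)) - (-(-v.2 - 1) - 1) ∧ (-(-v.2)) - (-(-v.2 - 1) - 1) ≤ 1) ∧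
      (-1 ≤ (-v.1) - (-v.1 - 1) ∧ (-v.1) - (-v.1 - 1) ≤ 1)
    omega

theorem ends_rE (k : ℕ) (e : Edge) : (ea (FKS.rE k e) = FKS.rV k (ea e) ∧ eb (FKS.rE k e) = FKS.rV k (eb e)) ∨
    (ea (FKS.rE k e) = FKS.rV k (eb e) ∧ eb (FKS.rE k e) = FKS.rV k (ea e)) := FKS.cp_rE k e

private theorem GAa_box {a : FKI.V} {w : ℤ} {e : Edge} :
    e ∈ box (a.1 - w) (a.1 + w) (a.2 - w) (a.2 + w) ↔ FKN.nrm (ea e - a) ≤ w ∧ FKN.nrm (eb e - a) ≤ w := by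
  rw [mem_box, GAa_le, GAa_le]
  obtain ⟨x, y, t⟩ := e
  cases t
  · show ((false = false ∧ a.1 - w ≤ x ∧ x < a.1 + w ∧ a.2 - w ≤ y ∧ y ≤ a.2 + w) ∨
      (false = true ∧ a.1 - w ≤ x ∧ x ≤ a.1 + w ∧ a.2 - w ≤ y ∧ y < a.2 + w)) ↔
      ((-w ≤ x - a.1 ∧ x - a.1 ≤ w) ∧ (-w ≤ y - a.2 ∧ y - a.2 ≤ w)) ∧
      ((-w ≤ x + 1 - a.1 ∧ x + 1 - a.1 ≤ w) ∧ (-w ≤ y - a.2 ∧ y - a.2 ≤ w))
    constructor
    · rintro (h | h)
      · omega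
      · exact absurd h.1 (by decide)
    · intro h
      exact Or.inl ⟨rfl, by omega, by omega, by omega, by omega⟩
  · show ((true = false ∧ a.1 - w ≤ x ∧ x < a.1 + w ∧ a.2 - w ≤ y ∧ y ≤ a.2 + w) ∨
      (true = true ∧ a.1 - w ≤ x ∧ x ≤ a.1 + w ∧ a.2 - w ≤ y ∧ y < a.2 + w)) ↔
      ((-w ≤ x - a.1 ∧ x - a.1 ≤ w) ∧ (-w ≤ y - a.2 ∧ y - a.2 ≤ w)) ∧
      ((-w ≤ x - a.1 ∧ x - a.1 ≤ w) ∧ (-w ≤ y + 1 - a.2 ∧ y + 1 - a.2 ≤ w))
    constructor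
    · rintro (h | h)
      · exact absurd h.1 (by decide)
      · omega
    · intro h
      exact Or.inr ⟨rfl, by omega, by omega, by omega, by omega⟩

theorem bxa_frame {k : ℕ} {p : FKI.V} {w : ℤ} {e : Edge} (he : e ∈ FKN.bxa ((FKS.rV k).symm p) w) :
    FKS.rE k e ∈ box (p.1 - w) (p.1 + w) (p.2 - w) (p.2 + w) := by
  unfold FKN.bxa at he
  rw [GAa_box] at he
  have key : ∀ v, FKN.nrm (v - (FKS.rV k).symm p) ≤ w → FKN.nrm (FKS.rV k v - p) ≤ w := by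
    intro v hv
    rw [← GAa_V k, Equiv.apply_symm_apply] at hv
    exact hv
  rw [GAa_box]
  rcases ends_rE k e with ⟨h1, h2⟩ | ⟨h1, h2⟩
  · rw [h1, h2]
    exact ⟨key _ he.1, key _ he.2⟩
  · rw [h1, h2]
    exact ⟨key _ he.2, key _ he.1⟩

private theorem GAa_dl (e : Edge) : ea (FKN.dl e) = FKS.fa e ∧ eb (FKN.dl e) = FKS.fb e := by
  obtain ⟨x, y, t⟩ := e
  cases t
  · refine ⟨rfl, ?_⟩
    show ((x, y - 1 + 1) : FKI.V) = (x, y)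
    rw [sub_add_cancel]
  · refine ⟨rfl, ?_⟩
    show ((x - 1 + 1, y) : FKI.V) = (x, y)
    rw [sub_add_cancel]

private theorem GAa_dbox {p : FKI.V} {w : ℤ} {e : Edge} (h1 : FKN.nrm (FKS.fa e - p) ≤ w)
    (h2 : FKN.nrm (FKS.fb e - p) ≤ w) : e ∈ box (p.1 - w) (p.1 + w + 1) (p.2 - w) (p.2 + w + 1) := by
  rw [GAa_le] at h1 h2
  rw [mem_box]
  obtain ⟨x, y, t⟩ := e
  cases t
  · left
    have h3 : (-w ≤ x - p.1 ∧ x - p.1 ≤ w) ∧ (-w ≤ y - 1 - p.2 ∧ y - 1 - p.2 ≤ w) := h1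
    have h4 : (-w ≤ x - p.1 ∧ x - p.1 ≤ w) ∧ (-w ≤ y - p.2 ∧ y - p.2 ≤ w) := h2
    refine ⟨rfl, ?_⟩
    show p.1 - w ≤ x ∧ x < p.1 + w + 1 ∧ p.2 - w ≤ y ∧ y ≤ p.2 + w + 1
    omega
  · right
    have h3 : (-w ≤ x - 1 - p.1 ∧ x - 1 - p.1 ≤ w) ∧ (-w ≤ y - p.2 ∧ y - p.2 ≤ w) := h1
    have h4 : (-w ≤ x - p.1 ∧ x - p.1 ≤ w) ∧ (-w ≤ y - p.2 ∧ y - p.2 ≤ w) := h2
    refine ⟨rfl, ?_⟩
    show p.1 - w ≤ x ∧ x ≤ p.1 + w + 1 ∧ p.2 - w ≤ y ∧ y < p.2 + w + 1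
    omega

theorem ud_frame {k : ℕ} {p : FKI.V} {w : ℤ} {e : Edge} (he : e ∈ FKN.ud (FKN.bxa ((FKS.rF k).symm p) w)) :
    FKS.rE k e ∈ box (p.1 - w) (p.1 + w + 1) (p.2 - w) (p.2 + w + 1) := by
  have he' : FKN.dl e ∈ FKN.bxa ((FKS.rF k).symm p) w := by
    unfold FKN.ud at he
    rw [Finset.mem_map_equiv] at he
    exact he
  unfold FKN.bxa at he'
  rw [GAa_box, (GAa_dl e).1, (GAa_dl e).2] at he'
  have key : ∀ v, FKN.nrm (v - (FKS.rF k).symm p) ≤ w → FKN.nrm (FKS.rF k v - p) ≤ w := by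
    intro v hv
    rw [← GAa_F k, Equiv.apply_symm_apply] at hv
    exact hv
  rcases FKS.cpd_rE k e with ⟨h1, h2⟩ | ⟨h1, h2⟩
  · refine GAa_dbox ?_ ?_
    · rw [h1]
      exact key _ he'.1
    · rw [h2]
      exact key _ he'.2
  · refine GAa_dbox ?_ ?_
    · rw [h1]
      exact key _ he'.2
    · rw [h2]
      exact key _ he'.1

end EV
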