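import Pool.Agent.Lib.MP_216314_pr.EV.GAa

/-!
# Even arms: positions of the regions

Write `x i = 2 t (κ i).2`, `k i = (κ i).1`. `rE k`, `rV k`, `rF k` are the `k`-th iterates of `rotE`, `rotV`, `rotF` (`rE (k + 1) = (rE k).trans rotE`).
* `sep_gen`: same side (`k i = k j`): if `i = j` the abscissa of `rE (k i) e` is `≥ x i + a1 > x i + b2`, contradiction; if `i ≠ j` then `|x i - x j| ≥ 40 t` but both intervals contain the abscissa and have offsets `≤ 9 t` in absolute value (`SCb_same` style). Different sides: as `FKS.SCb_core`, `SCb_le` in Sp/SCb.lean (copy the proof, with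
  `y - 12 t ≤ e.2.1 ≤ y + 1`, `|e.1| ≤ h - ρ + 11 t`, `ρ ≥ 200 t`).
* `os_ds`, `os_zd`, `ds_zo`: `sep_gen` and the frames (`gzd = (rV k).symm (x - 3 t, y - 10 t - 1)`, `gzo = (rV k).symm (x + 5 t, y - 10 t - 1)`, `w ≤ t`).
* `gcell_of`: `mem_filter`, `Fintype.mem_piFinset`, `mem_product`, `mem_range`.
-/

set_option autoImplicit false

noncomputable section

namespace EV

open Finset FKI FKP

theorem gcell_of {l : ℕ} {κ : Fin l → ℕ × ℤ} {y h ρ t : ℤ} (h1 : 1 ≤ t) (h2 : 200 * t ≤ ρ) (h3 : ρ ≤ h) (h4 : h ≤ |y|)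
    (hκ : κ ∈ FKS.Cells l (2 * t) h ρ) : GCell κ y h ρ t := by
  unfold FKS.Cells at hκ
  rw [mem_filter, Fintype.mem_piFinset] at hκ
  obtain ⟨ha, hb, hc⟩ := hκ
  refine ⟨⟨h1, h2, h3, h4⟩, fun i => ⟨?_, hb i⟩, hc⟩
  have h5 := ha i
  rw [mem_product] at h5
  exact mem_range.1 h5.1

/-- three rotations or less change the side -/
private theorem GAb_core {y h ρ t M M' : ℤ} (ht : 1 ≤ t) (hρ : 200 * t ≤ ρ) (hh : ρ ≤ h)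
    (hy : h ≤ |y|) (hM : |M| ≤ h - ρ + 2 * t) (hM' : |M'| ≤ h - ρ + 2 * t) {e e' : Edge}
    (he : (M - 9 * t ≤ e.1 ∧ e.1 ≤ M + 9 * t) ∧ (y - 12 * t ≤ e.2.1 ∧ e.2.1 ≤ y + 1))
    (he' : (M' - 9 * t ≤ e'.1 ∧ e'.1 ≤ M' + 9 * t) ∧ (y - 12 * t ≤ e'.2.1 ∧ e'.2.1 ≤ y + 1))
    (hr : e' = FKS.rotE e ∨ e' = FKS.rotE (FKS.rotE e) ∨ e' = FKS.rotE (FKS.rotE (FKS.rotE e))) : False := by
  rw [le_abs] at hy
  rw [abs_le] at hM hM'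
  have h1 := FKS.SCb_rot e
  have h2 := FKS.SCb_rot (FKS.rotE e)
  have h3 := FKS.SCb_rot (FKS.rotE (FKS.rotE e))
  rcases hr with rfl | rfl | rfl
  · rcases hy with hy | hy <;> omega
  · rcases hy with hy | hy <;> omega
  · rcases hy with hy | hy <;> omega

private theorem GAb_lt {y h ρ t M M' : ℤ} {k k' : ℕ} (ht : 1 ≤ t) (hρ : 200 * t ≤ ρ) (hh : ρ ≤ h)
    (hy : h ≤ |y|) (hM : |M| ≤ h - ρ + 2 * t) (hM' : |M'| ≤ h - ρ + 2 * t) (hkk : k < k') (hk' : k' < 4) {e : Edge}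
    (he : (M - 9 * t ≤ (FKS.rE k e).1 ∧ (FKS.rE k e).1 ≤ M + 9 * t) ∧
      (y - 12 * t ≤ (FKS.rE k e).2.1 ∧ (FKS.rE k e).2.1 ≤ y + 1))
    (he' : (M' - 9 * t ≤ (FKS.rE k' e).1 ∧ (FKS.rE k' e).1 ≤ M' + 9 * t) ∧
      (y - 12 * t ≤ (FKS.rE k' e).2.1 ∧ (FKS.rE k' e).2.1 ≤ y + 1)) : False := by
  obtain ⟨j, rfl⟩ := Nat.exists_eq_add_of_lt hkk
  have hj : j < 3 := by omega
  interval_cases j
  · exact GAb_core ht hρ hh hy hM hM' he he' (Or.inl rfl)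
  · exact GAb_core ht hρ hh hy hM hM' he he' (Or.inr (Or.inl rfl))
  · exact GAb_core ht hρ hh hy hM hM' he he' (Or.inr (Or.inr rfl))

private theorem GAb_same {m t t' a : ℤ} (hm : 1 ≤ m) (h : 20 ≤ |t - t'|)
    (h1 : 2 * m * t - 9 * m ≤ a ∧ a ≤ 2 * m * t + 9 * m) (h2 : 2 * m * t' - 9 * m ≤ a ∧ a ≤ 2 * m * t' + 9 * m) :
    False := by
  rw [le_abs] at h
  rcases h with h | h
  · have h3 : 2 * m * 20 ≤ 2 * m * (t - t') := mul_le_mul_of_nonneg_left h (by omega)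
    rw [mul_sub] at h3
    linarith [h1.1, h1.2, h2.1, h2.2]
  · have h3 : 2 * m * 20 ≤ 2 * m * (-(t - t')) := mul_le_mul_of_nonneg_left h (by omega)
    rw [mul_neg, mul_sub] at h3
    linarith [h1.1, h1.2, h2.1, h2.2]

theorem sep_gen {l : ℕ} {κ : Fin l → ℕ × ℤ} {y h ρ t : ℤ} (hc : GCell κ y h ρ t) {i j : Fin l} {e : Edge} {a1 b1 a2 b2 : ℤ}
    (h1 : -(9 * t) ≤ a1) (h2 : b1 ≤ 9 * t) (h3 : -(9 * t) ≤ a2) (h4 : b2 ≤ 9 * t) (hsep : b2 < a1)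
    (hi : (2 * t * (κ i).2 + a1 ≤ (FKS.rE (κ i).1 e).1 ∧ (FKS.rE (κ i).1 e).1 ≤ 2 * t * (κ i).2 + b1) ∧
      y - 12 * t ≤ (FKS.rE (κ i).1 e).2.1 ∧ (FKS.rE (κ i).1 e).2.1 ≤ y + 1)
    (hj : (2 * t * (κ j).2 + a2 ≤ (FKS.rE (κ j).1 e).1 ∧ (FKS.rE (κ j).1 e).1 ≤ 2 * t * (κ j).2 + b2) ∧
      y - 12 * t ≤ (FKS.rE (κ j).1 e).2.1 ∧ (FKS.rE (κ j).1 e).2.1 ≤ y + 1) : False := by
  obtain ⟨⟨ht, hρ, hh, hy⟩, hk, hd⟩ := hc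
  have hi' : (2 * t * (κ i).2 - 9 * t ≤ (FKS.rE (κ i).1 e).1 ∧ (FKS.rE (κ i).1 e).1 ≤ 2 * t * (κ i).2 + 9 * t) ∧
      y - 12 * t ≤ (FKS.rE (κ i).1 e).2.1 ∧ (FKS.rE (κ i).1 e).2.1 ≤ y + 1 := by
    refine ⟨⟨?_, ?_⟩, hi.2⟩
    · linarith [hi.1.1]
    · linarith [hi.1.2]
  have hj' : (2 * t * (κ j).2 - 9 * t ≤ (FKS.rE (κ j).1 e).1 ∧ (FKS.rE (κ j).1 e).1 ≤ 2 * t * (κ j).2 + 9 * t) ∧
      y - 12 * t ≤ (FKS.rE (κ j).1 e).2.1 ∧ (FKS.rE (κ j).1 e).2.1 ≤ y + 1 := by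
    refine ⟨⟨?_, ?_⟩, hj.2⟩
    · linarith [hj.1.1]
    · linarith [hj.1.2]
  rcases lt_trichotomy (κ i).1 (κ j).1 with hlt | heq | hgt
  · exact GAb_lt ht hρ hh hy (hk i).2 (hk j).2 hlt (hk j).1 hi' hj'
  · by_cases hij : i = j
    · subst hij
      linarith [hi.1.1, hj.1.2]
    · rw [← heq] at hj'
      exact GAb_same ht (hd i j hij heq) hi'.1 hj'.1
  · exact GAb_lt ht hρ hh hy (hk j).2 (hk i).2 hgt (hk i).1 hj' hi'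

private theorem GAb_os {l : ℕ} {κ : Fin l → ℕ × ℤ} {y t : ℤ} {e : Edge} (he : e ∈ OS κ y t) :
    ∃ i, (2 * t * (κ i).2 + 2 * t ≤ (FKS.rE (κ i).1 e).1 ∧ (FKS.rE (κ i).1 e).1 ≤ 2 * t * (κ i).2 + 8 * t) ∧
      y - 10 * t ≤ (FKS.rE (κ i).1 e).2.1 ∧ (FKS.rE (κ i).1 e).2.1 ≤ y := by
  unfold OS at he
  rw [mem_biUnion] at he
  obtain ⟨i, -, hi⟩ := he
  rw [mem_unr, mem_box] at hi
  refine ⟨i, ?_⟩
  rcases hi with ⟨-, h1, h2, h3, h4⟩ | ⟨-, h1, h2, h3, h4⟩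
  · exact ⟨⟨h1, h2.le⟩, h3, h4⟩
  · exact ⟨⟨h1, h2⟩, h3, h4.le⟩

private theorem GAb_ds {l : ℕ} {κ : Fin l → ℕ × ℤ} {y t : ℤ} {e : Edge} (he : e ∈ DS κ y t) :
    ∃ i, (2 * t * (κ i).2 - 6 * t - 1 ≤ (FKS.rE (κ i).1 e).1 ∧ (FKS.rE (κ i).1 e).1 ≤ 2 * t * (κ i).2 + 1) ∧
      y - 10 * t ≤ (FKS.rE (κ i).1 e).2.1 ∧ (FKS.rE (κ i).1 e).2.1 ≤ y := by
  unfold DS at he
  rw [mem_biUnion] at he
  obtain ⟨i, -, hi⟩ := he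
  rw [mem_unr, mem_box] at hi
  refine ⟨i, ?_⟩
  rcases hi with ⟨-, h1, h2, h3, h4⟩ | ⟨-, h1, h2, h3, h4⟩
  · exact ⟨⟨h1, h2.le⟩, h3, h4⟩
  · exact ⟨⟨h1, h2⟩, h3, h4.le⟩

private theorem GAb_bx {k : ℕ} {p : FKI.V} {w t : ℤ} {e : Edge} (hw : w ≤ t)
    (he : e ∈ FKN.bxa ((FKS.rV k).symm p) w) :
    (p.1 - t ≤ (FKS.rE k e).1 ∧ (FKS.rE k e).1 ≤ p.1 + t) ∧
      p.2 - t ≤ (FKS.rE k e).2.1 ∧ (FKS.rE k e).2.1 ≤ p.2 + t := by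
  have h := bxa_frame he
  rw [mem_box] at h
  rcases h with ⟨-, h1, h2, h3, h4⟩ | ⟨-, h1, h2, h3, h4⟩
  · exact ⟨⟨by linarith, by linarith⟩, by linarith, by linarith⟩
  · exact ⟨⟨by linarith, by linarith⟩, by linarith, by linarith⟩

theorem os_ds {l : ℕ} {κ : Fin l → ℕ × ℤ} {y h ρ t : ℤ} (hc : GCell κ y h ρ t) : Disjoint (OS κ y t) (DS κ y t) := by
  rw [Finset.disjoint_left]
  intro e he he'
  have ht : 1 ≤ t := hc.1.1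
  obtain ⟨i, hi⟩ := GAb_os he
  obtain ⟨j, hj⟩ := GAb_ds he'
  refine sep_gen hc (i := i) (j := j) (e := e) (a1 := 2 * t) (b1 := 8 * t) (a2 := -(6 * t) - 1) (b2 := 1)
    (by linarith) (by linarith) (by linarith) (by linarith) (by linarith) ⟨hi.1, ?_, ?_⟩ ⟨⟨?_, hj.1.2⟩, ?_, ?_⟩
  · linarith [hi.2.1]
  · linarith [hi.2.2]
  · linarith [hj.1.1]
  · linarith [hj.2.1]
  · linarith [hj.2.2]

theorem os_zd {l : ℕ} {κ : Fin l → ℕ × ℤ} {y h ρ t w : ℤ} (hc : GCell κ y h ρ t) (hw : w ≤ t) :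
    Disjoint (OS κ y t) (FKN.bxs (gzd κ y t) w) := by
  rw [Finset.disjoint_left]
  intro e he he'
  have ht : 1 ≤ t := hc.1.1
  obtain ⟨i, hi⟩ := GAb_os he
  unfold FKN.bxs at he'
  rw [mem_biUnion] at he'
  obtain ⟨j, -, hj0⟩ := he'
  have hj := GAb_bx hw hj0
  simp only at hj
  refine sep_gen hc (i := i) (j := j) (e := e) (a1 := 2 * t) (b1 := 8 * t) (a2 := -(4 * t)) (b2 := -(2 * t))
    (by linarith) (by linarith) (by linarith) (by linarith) (by linarith) ⟨hi.1, ?_, ?_⟩ ⟨⟨?_, ?_⟩, ?_, ?_⟩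
  · linarith [hi.2.1]
  · linarith [hi.2.2]
  · linarith [hj.1.1]
  · linarith [hj.1.2]
  · linarith [hj.2.1]
  · linarith [hj.2.2]

theorem ds_zo {l : ℕ} {κ : Fin l → ℕ × ℤ} {y h ρ t w : ℤ} (hc : GCell κ y h ρ t) (hw : w ≤ t) :
    Disjoint (DS κ y t) (FKN.bxs (gzo κ y t) w) := by
  rw [Finset.disjoint_left]
  intro e he he'
  have ht : 1 ≤ t := hc.1.1
  obtain ⟨i, hi⟩ := GAb_ds he
  unfold FKN.bxs at he'
  rw [mem_biUnion] at he'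
  obtain ⟨j, -, hj0⟩ := he'
  have hj := GAb_bx hw hj0
  simp only at hj
  refine sep_gen hc (i := j) (j := i) (e := e) (a1 := 4 * t) (b1 := 6 * t) (a2 := -(6 * t) - 1) (b2 := 1)
    (by linarith) (by linarith) (by linarith) (by linarith) (by linarith) ⟨⟨?_, ?_⟩, ?_, ?_⟩ ⟨⟨?_, ?_⟩, ?_, ?_⟩
  · linarith [hj.1.1]
  · linarith [hj.1.2]
  · linarith [hj.2.1]
  · linarith [hj.2.2]
  · linarith [hi.1.1]
  · linarith [hi.1.2]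
  · linarith [hi.2.1]
  · linarith [hi.2.2]

end EV
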