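import Pool.Agent.Lib.MP_216314_pr.EV.GAb

/-!
# Even arms: positions of the regions

Write `x i = 2 t (κ i).2`, `k i = (κ i).1`. `rE k`, `rV k`, `rF k` are the `k`-th iterates of `rotE`, `rotV`, `rotF` (`rE (k + 1) = (rE k).trans rotE`).
* `rn_o`: `RN L = L.biUnion (bxa p.1 (3 p.2))`; the circuit `(gao i, t)`: `bxa_frame` with `p = (x + 5 t, y - 5 t)`, `w = 3 t`; the small circuits `p = (x + 5 t, y - 5 t - s)`, `0 ≤ s ≤ 5 t - 3 r0`, `w = 3 r0 ≤ 3 t`. `rn_d`: `ud (RN L)`: `e ∈ ud (RN L)` iff `dl e ∈ RN L`; `ud_frame` with `p = (x - 3 t, y - 5 t)`, resp.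
  `(x - 3 t, y - 5 t - s)`.
* `dom_low`: let `e1 = rE (k i) e`; `e1 ∈ rot (k i) D = D` (`mem_rot`, `hd.rotD`); take `x0` = the point of `[-(h - ρ), h - ρ]` nearest to `e1.1` (`ρ ≤ h`); `|x i| ≤ h - ρ + 2 t`, so `|x0 - e1.1| ≤ 11 t ≤ ρ`; `(hd.lh x0 _).out e1 _ ..` gives `y ≤ e1.2.1` (`y - ρ ≤ y - 12 t ≤ e1.2.1`).
-/

set_option autoImplicit false

noncomputable section

namespace EV

open Finset FKI FKP

private theorem GAc_min {t r0 : ℤ} (h0 : 0 ≤ r0) (h1 : r0 ≤ t) (j : ℕ) :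
    0 ≤ min (4 * r0 * (j : ℤ)) (5 * t - 3 * r0) ∧ min (4 * r0 * (j : ℤ)) (5 * t - 3 * r0) ≤ 5 * t - 3 * r0 := by
  refine ⟨le_min ?_ (by linarith), min_le_right _ _⟩
  have hj : (0 : ℤ) ≤ (j : ℤ) := Int.natCast_nonneg j
  positivity

theorem rn_o {l : ℕ} {κ : Fin l → ℕ × ℤ} {y t r0 : ℤ} (h0 : 0 ≤ r0) (h1 : r0 ≤ t) {e : Edge} (he : e ∈ FKN.RN (GLo κ y t r0)) :
    ∃ i, FKS.rE (κ i).1 e ∈ box (2 * t * (κ i).2 + 2 * t) (2 * t * (κ i).2 + 8 * t) (y - 10 * t) (y - 2 * t) := by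
  unfold FKN.RN at he
  obtain ⟨p, hp, hep⟩ := Finset.mem_biUnion.1 he
  unfold GLo at hp
  rcases Finset.mem_union.1 hp with h | h
  · obtain ⟨i, -, rfl⟩ := Finset.mem_image.1 h
    refine ⟨i, ?_⟩
    have h2 := bxa_frame (k := (κ i).1) (p := (2 * t * (κ i).2 + 5 * t, y - 5 * t)) (w := 3 * t) hep
    refine box_mono ?_ ?_ ?_ ?_ h2
    · change _ ≤ 2 * t * (κ i).2 + 5 * t - 3 * t
      linarith
    · change 2 * t * (κ i).2 + 5 * t + 3 * t ≤ _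
      linarith
    · change _ ≤ y - 5 * t - 3 * t
      linarith
    · change y - 5 * t + 3 * t ≤ _
      linarith
  · obtain ⟨⟨i, j⟩, -, rfl⟩ := Finset.mem_image.1 h
    refine ⟨i, ?_⟩
    have h2 := bxa_frame (k := (κ i).1)
      (p := (2 * t * (κ i).2 + 5 * t, y - 5 * t - min (4 * r0 * j) (5 * t - 3 * r0))) (w := 3 * r0) hep
    obtain ⟨m1, m2⟩ := GAc_min h0 h1 j
    refine box_mono ?_ ?_ ?_ ?_ h2
    · change _ ≤ 2 * t * (κ i).2 + 5 * t - 3 * r0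
      linarith
    · change 2 * t * (κ i).2 + 5 * t + 3 * r0 ≤ _
      linarith
    · change _ ≤ y - 5 * t - min (4 * r0 * j) (5 * t - 3 * r0) - 3 * r0
      linarith
    · change y - 5 * t - min (4 * r0 * j) (5 * t - 3 * r0) + 3 * r0 ≤ _
      linarith

theorem rn_d {l : ℕ} {κ : Fin l → ℕ × ℤ} {y t r0 : ℤ} (h0 : 0 ≤ r0) (h1 : r0 ≤ t) {e : Edge} (he : e ∈ FKN.ud (FKN.RN (GLd κ y t r0))) :
    ∃ i, FKS.rE (κ i).1 e ∈ box (2 * t * (κ i).2 - 6 * t - 1) (2 * t * (κ i).2 + 1) (y - 10 * t) (y - 2 * t + 1) := by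
  rw [FKN.mem_ud] at he
  unfold FKN.RN at he
  obtain ⟨p, hp, hep⟩ := Finset.mem_biUnion.1 he
  rw [← FKN.mem_ud] at hep
  unfold GLd at hp
  rcases Finset.mem_union.1 hp with h | h
  · obtain ⟨i, -, rfl⟩ := Finset.mem_image.1 h
    refine ⟨i, ?_⟩
    have h2 := ud_frame (k := (κ i).1) (p := (2 * t * (κ i).2 - 3 * t, y - 5 * t)) (w := 3 * t) hep
    refine box_mono ?_ ?_ ?_ ?_ h2
    · change _ ≤ 2 * t * (κ i).2 - 3 * t - 3 * t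
      linarith
    · change 2 * t * (κ i).2 - 3 * t + 3 * t + 1 ≤ _
      linarith
    · change _ ≤ y - 5 * t - 3 * t
      linarith
    · change y - 5 * t + 3 * t + 1 ≤ _
      linarith
  · obtain ⟨⟨i, j⟩, -, rfl⟩ := Finset.mem_image.1 h
    refine ⟨i, ?_⟩
    have h2 := ud_frame (k := (κ i).1)
      (p := (2 * t * (κ i).2 - 3 * t, y - 5 * t - min (4 * r0 * j) (5 * t - 3 * r0))) (w := 3 * r0) hep
    obtain ⟨m1, m2⟩ := GAc_min h0 h1 j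
    refine box_mono ?_ ?_ ?_ ?_ h2
    · change _ ≤ 2 * t * (κ i).2 - 3 * t - 3 * r0
      linarith
    · change 2 * t * (κ i).2 - 3 * t + 3 * r0 + 1 ≤ _
      linarith
    · change _ ≤ y - 5 * t - min (4 * r0 * j) (5 * t - 3 * r0) - 3 * r0
      linarith
    · change y - 5 * t - min (4 * r0 * j) (5 * t - 3 * r0) + 3 * r0 + 1 ≤ _
      linarith

theorem dom_low {l : ℕ} {E D : Finset Edge} {Ex : Set FKI.V} {St : Fin l → Set FKI.V} {κ : Fin l → ℕ × ℤ} {y h ρ t : ℤ}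
    (hd : FKS.Dom E D Ex St y h ρ (2 * t)) (hc : GCell κ y h ρ t) {e : Edge} (he : e ∈ D) {i : Fin l}
    (h1 : 2 * t * (κ i).2 - 9 * t ≤ (FKS.rE (κ i).1 e).1 ∧ (FKS.rE (κ i).1 e).1 ≤ 2 * t * (κ i).2 + 9 * t)
    (h2 : y - 12 * t ≤ (FKS.rE (κ i).1 e).2.1) : y ≤ (FKS.rE (κ i).1 e).2.1 := by
  obtain ⟨⟨c1, c2, c3, c4⟩, c5, c6⟩ := hc
  have h3 : FKS.rE (κ i).1 e ∈ D := by
    have h := (FKS.mem_rot (κ i).1 D e).2 he
    rwa [hd.rotD] at h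
  obtain ⟨e1, he1⟩ : ∃ e1, e1 = FKS.rE (κ i).1 e := ⟨_, rfl⟩
  rw [← he1] at h1 h2 h3 ⊢
  obtain ⟨x, hx⟩ : ∃ x, x = 2 * t * (κ i).2 := ⟨_, rfl⟩
  have h5 := (c5 i).2
  rw [← hx] at h1 h5
  rw [abs_le] at h5
  obtain ⟨x0, hx0⟩ : ∃ x0, x0 = max (-(h - ρ)) (min (h - ρ) e1.1) := ⟨_, rfl⟩
  have hb : |x0| ≤ h - ρ ∧ x0 - ρ ≤ e1.1 ∧ e1.1 ≤ x0 + ρ := by
    rw [abs_le]
    omega
  exact (hd.lh x0 hb.1).out e1 h3 hb.2.1 hb.2.2 (by linarith)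

end EV
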