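import Pool.Agent.Lib.MP_216314_pr.EV.GAc

/-!
# Even arms: linking an arm with the landing point by circuits

`t = 30000 r0`, `2 ≤ r0`, `TG = 37500` (`TG_eq`), so `4 r0 TG = 5 t`.
* `gco_step`: `gco i j = (rV k).symm (X, Y - min (4 r0 j) (5 t - 3 r0))`, `nrm_rV`: the norm of the difference is `|min (4 r0 (j+1)) c - min (4 r0 j) c| ≤ 4 r0`.
* `gco_ends`: `j = 0`: `min 0 (5 t - 3 r0) = 0`, so `gco i 0 = gao i`; `j = TG`: `min (5 t) (5 t - 3 r0) = 5 t - 3 r0`, so `nrm (gco i TG - gao i) = 5 t - 3 r0` and `nrm (gco i TG - gzo i) = 3 r0 + 1`.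
* `link_o`: let `s`, `v` be the arms, `NFt`: `u`, `u'` with `nrm (u - a i) ≤ t`, `3 t ≤ nrm (u' - a i)`, both reachable from `v i` in `η`. `Rings` gives `RP (gao i) t η w` for some `w`: `FKN.ring_cross` (`0 ≤ t`): `u` is connected to `w`, so `s i` is connected to `w`. The small circuits `j ≤ TG` have `Ring (gco i j) r0 η`; let `RP (gco i 0) r0 η v0`.
  `FKN.chain_big` (`r := r0`, `r' := t`, `a' := gao i`, `j₁ := TG`: `3 t + 3 r0 ≤ 5 t - 3 r0`; `j₂ := 0`: `0 + 3 r0 ≤ t`) gives `v0 ~ w`; `FKN.chain_reach` gives `v0 ~ w'` for `RP (gco i TG) r0 η w'`; `FKN.RP_near`: `nrm (w' - gco i TG) ≤ 3 r0`, so `nrm (w' - gzo i) ≤ 6 r0 + 1 ≤ 7 r0`. The new target is `fun i => w' i`.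
* `link_d`: the same with `rF`; `nrm (gcd i TG - gzd i) ≤ 3 r0 + 1 + 1` (`rF_rV`, `(κ i).1 < 4`), total `≤ 6 r0 + 2 ≤ 7 r0`.
-/

set_option autoImplicit false

noncomputable section

namespace EV

open Finset FKI FKP

private theorem GB_tri (u v w : FKI.V) : FKN.nrm (u - w) ≤ FKN.nrm (u - v) + FKN.nrm (v - w) := by
  have h := FKN.nrm_add_le (u - v) (v - w)
  rwa [sub_add_sub_cancel] at h

private theorem GB_nrm (a b c : ℤ) : FKN.nrm (((a, b) : FKI.V) - (a, c)) = |b - c| := by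
  unfold FKN.nrm
  rw [Prod.fst_sub, Prod.snd_sub]
  show max |a - a| |b - c| = |b - c|
  rw [sub_self, abs_zero]
  exact max_eq_right (abs_nonneg _)

private theorem GB_min {r0 c : ℤ} (h0 : 0 ≤ r0) (Y : ℤ) (j : ℕ) :
    |(Y - min (4 * r0 * ((j + 1 : ℕ) : ℤ)) c) - (Y - min (4 * r0 * (j : ℤ)) c)| ≤ 4 * r0 := by
  have e : 4 * r0 * ((j + 1 : ℕ) : ℤ) = 4 * r0 * (j : ℤ) + 4 * r0 := by push_cast; ring
  rw [e, abs_le]
  rcases min_cases (4 * r0 * (j : ℤ) + 4 * r0) c with h1 | h1 <;>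
    rcases min_cases (4 * r0 * (j : ℤ)) c with h2 | h2 <;> constructor <;> omega

private theorem GB_link {l : ℕ} {t r0 : ℤ} (ht : t = 30000 * r0) (hr : 2 ≤ r0) {a z : Fin l → FKI.V}
    {c : Fin l → ℕ → FKI.V} (hs : ∀ i j, FKN.nrm (c i (j + 1) - c i j) ≤ 4 * r0) (h0 : ∀ i, c i 0 = a i)
    (hT : ∀ i, FKN.nrm (c i TG - a i) = 5 * t - 3 * r0) (hz : ∀ i, FKN.nrm (c i TG - z i) ≤ 3 * r0 + 2)
    {Sg : Finset Edge → (Fin l → FKI.V) → Prop} {η : Finset Edge} (h : FKN.StG Sg (NFt a t) η)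
    (hL : ∀ i, FKN.Ring (a i) t η) (hL' : ∀ i, ∀ j ≤ TG, FKN.Ring (c i j) r0 η) :
    FKN.StG Sg (FKN.nearT z (7 * r0)) η := by
  obtain ⟨s, v, hsg, hv, hsv⟩ := h
  have key : ∀ i, ∃ w' : FKI.V, FKN.nrm (w' - z i) ≤ 7 * r0 ∧ (gr η).Reachable (s i) w' := by
    intro i
    obtain ⟨⟨u, hu1, hu2⟩, u', hu1', hu2'⟩ := hv i
    obtain ⟨w, hw⟩ := hL i
    have e1 : (gr η).Reachable u w :=
      FKN.ring_cross (by omega) hu1 hu1' (hu2.symm.trans hu2') hw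
    obtain ⟨v0, hv0⟩ := hL' i 0 (Nat.zero_le _)
    obtain ⟨w', hw'⟩ := hL' i TG le_rfl
    have e2 : (gr η).Reachable v0 w := by
      refine FKN.chain_big (c := c i) (T := TG) (r := r0) (r' := t) (a' := a i) (j₁ := TG) (j₂ := 0)
        (by omega) (by omega) (fun j _ => hs i j) le_rfl (Nat.zero_le _) ?_ ?_ (hL' i) hv0 hw
      · rw [hT i]
        omega
      · rw [h0 i, sub_self, FKN.nrm_zero]
        omega
    have e3 : (gr η).Reachable v0 w' :=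
      FKN.chain_reach (by omega) (fun j _ => hs i j) (hL' i) hv0 TG le_rfl w' hw'
    have e4 := FKN.RP_near (by omega) hw'
    have e5 := GB_tri w' (c i TG) (z i)
    have e6 := hz i
    exact ⟨w', by omega, (hsv i).trans (hu2.trans (e1.trans (e2.symm.trans e3)))⟩
  choose w' h1 h2 using key
  exact ⟨s, w', hsg, h1, h2⟩

theorem gco_step {l : ℕ} {κ : Fin l → ℕ × ℤ} {y t r0 : ℤ} (h0 : 0 ≤ r0) (i : Fin l) (j : ℕ) :
    FKN.nrm (gco κ y t r0 i (j + 1) - gco κ y t r0 i j) ≤ 4 * r0 := by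
  unfold gco
  rw [nrm_rV, GB_nrm]
  exact GB_min h0 _ j

theorem gcd_step {l : ℕ} {κ : Fin l → ℕ × ℤ} {y t r0 : ℤ} (h0 : 0 ≤ r0) (i : Fin l) (j : ℕ) :
    FKN.nrm (gcd κ y t r0 i (j + 1) - gcd κ y t r0 i j) ≤ 4 * r0 := by
  unfold gcd
  rw [nrm_rF, GB_nrm]
  exact GB_min h0 _ j

theorem gco_ends {l : ℕ} {κ : Fin l → ℕ × ℤ} {y t r0 : ℤ} (ht : t = 30000 * r0) (hr : 2 ≤ r0) (i : Fin l) :
    gco κ y t r0 i 0 = gao κ y t i ∧ FKN.nrm (gco κ y t r0 i TG - gao κ y t i) = 5 * t - 3 * r0 ∧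
      FKN.nrm (gco κ y t r0 i TG - gzo κ y t i) = 3 * r0 + 1 := by
  have hTG : (4 * r0 * (TG : ℤ)) = 5 * t := by
    rw [TG_eq, ht]
    push_cast
    ring
  unfold gco gao gzo
  refine ⟨?_, ?_, ?_⟩
  · have e : y - 5 * t - min (4 * r0 * ((0 : ℕ) : ℤ)) (5 * t - 3 * r0) = y - 5 * t := by
      rw [Nat.cast_zero, mul_zero, min_eq_left (by omega), sub_zero]
    rw [e]
  · rw [nrm_rV, GB_nrm, hTG, min_eq_right (by omega)]
    have e : y - 5 * t - (5 * t - 3 * r0) - (y - 5 * t) = -(5 * t - 3 * r0) := by ring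
    rw [e, abs_neg, abs_of_nonneg (by omega)]
  · rw [nrm_rV, GB_nrm, hTG, min_eq_right (by omega)]
    have e : y - 5 * t - (5 * t - 3 * r0) - (y - 10 * t - 1) = 3 * r0 + 1 := by ring
    rw [e, abs_of_nonneg (by omega)]

theorem gcd_ends {l : ℕ} {κ : Fin l → ℕ × ℤ} {y t r0 : ℤ} (ht : t = 30000 * r0) (hr : 2 ≤ r0) (hκ : ∀ i, (κ i).1 < 4) (i : Fin l) :
    gcd κ y t r0 i 0 = gad κ y t i ∧ FKN.nrm (gcd κ y t r0 i TG - gad κ y t i) = 5 * t - 3 * r0 ∧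
      FKN.nrm (gcd κ y t r0 i TG - gzd κ y t i) ≤ 3 * r0 + 2 := by
  have hTG : (4 * r0 * (TG : ℤ)) = 5 * t := by
    rw [TG_eq, ht]
    push_cast
    ring
  unfold gcd gad gzd
  refine ⟨?_, ?_, ?_⟩
  · have e : y - 5 * t - min (4 * r0 * ((0 : ℕ) : ℤ)) (5 * t - 3 * r0) = y - 5 * t := by
      rw [Nat.cast_zero, mul_zero, min_eq_left (by omega), sub_zero]
    rw [e]
  · rw [nrm_rF, GB_nrm, hTG, min_eq_right (by omega)]
    have e : y - 5 * t - (5 * t - 3 * r0) - (y - 5 * t) = -(5 * t - 3 * r0) := by ring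
    rw [e, abs_neg, abs_of_nonneg (by omega)]
  · rw [hTG, min_eq_right (by omega)]
    refine (GB_tri _ ((FKS.rV (κ i).1).symm (2 * t * (κ i).2 - 3 * t, y - 5 * t - (5 * t - 3 * r0))) _).trans ?_
    have e1 := rF_rV (hκ i) ((2 * t * (κ i).2 - 3 * t, y - 5 * t - (5 * t - 3 * r0)) : FKI.V)
    rw [nrm_rV, GB_nrm]
    have e : y - 5 * t - (5 * t - 3 * r0) - (y - 10 * t - 1) = 3 * r0 + 1 := by ring
    rw [e, abs_of_nonneg (by omega)]
    omega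

theorem link_o {l : ℕ} {κ : Fin l → ℕ × ℤ} {y t r0 : ℤ} (ht : t = 30000 * r0) (hr : 2 ≤ r0)
    {Sg : Finset Edge → (Fin l → FKI.V) → Prop} {η : Finset Edge} (h : FKN.StG Sg (NFt (gao κ y t) t) η)
    (hL : FKN.Rings (GLo κ y t r0) η) : FKN.StG Sg (FKN.nearT (gzo κ y t) (7 * r0)) η := by
  refine GB_link ht hr (c := gco κ y t r0) (fun i j => gco_step (by omega) i j)
    (fun i => (gco_ends ht hr i).1) (fun i => (gco_ends ht hr i).2.1)
    (fun i => by rw [(gco_ends ht hr i).2.2]; omega) h ?_ ?_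
  · intro i
    refine hL (gao κ y t i, t) ?_
    unfold GLo
    exact mem_union_left _ (mem_image.2 ⟨i, mem_univ _, rfl⟩)
  · intro i j hj
    refine hL (gco κ y t r0 i j, r0) ?_
    unfold GLo
    refine mem_union_right _ (mem_image.2 ⟨(i, j), mem_product.2 ⟨mem_univ _, mem_range.2 ?_⟩, rfl⟩)
    exact Nat.lt_succ_of_le hj

theorem link_d {l : ℕ} {κ : Fin l → ℕ × ℤ} {y t r0 : ℤ} (ht : t = 30000 * r0) (hr : 2 ≤ r0) (hκ : ∀ i, (κ i).1 < 4)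
    {Sg : Finset Edge → (Fin l → FKI.V) → Prop} {η : Finset Edge} (h : FKN.StG Sg (NFt (gad κ y t) t) η)
    (hL : FKN.Rings (GLd κ y t r0) η) : FKN.StG Sg (FKN.nearT (gzd κ y t) (7 * r0)) η := by
  refine GB_link ht hr (c := gcd κ y t r0) (fun i j => gcd_step (by omega) i j)
    (fun i => (gcd_ends ht hr hκ i).1) (fun i => (gcd_ends ht hr hκ i).2.1)
    (fun i => (gcd_ends ht hr hκ i).2.2) h ?_ ?_
  · intro i
    refine hL (gad κ y t i, t) ?_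
    unfold GLd
    exact mem_union_left _ (mem_image.2 ⟨i, mem_univ _, rfl⟩)
  · intro i j hj
    refine hL (gcd κ y t r0 i j, r0) ?_
    unfold GLd
    refine mem_union_right _ (mem_image.2 ⟨(i, j), mem_product.2 ⟨mem_univ _, mem_range.2 ?_⟩, rfl⟩)
    exact Nat.lt_succ_of_le hj

end EV
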