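import Pool.Agent.Lib.MP_216314_pr.EV.GAa
import Pool.Agent.Lib.MP_216314_pr.EV.CA

/-!
# Even arms: the landing state of a cell contains arms through the columns

`x i = 2 t (κ i).2`, `k i = (κ i).1`, `m = 2 t`. `LO`, `LD`, `Land` are in Sp/ADef.
* `col_o`: `FKS.LO D (m * (κ i).2) y m v (rot k ω)` with `m = 2 t`: there are `u`, `u' ∈ [x + 4 t, x + 6 t]` with `Conn (box (x + 4 t) (x + 6 t) (y - 10 t) (y - 1)) (rot k ω) (u, y - 10 t) (u', y - 1)` and `Conn (D ∪ box (x + 4 t) (x + 6 t) (y - 10 t) y) (rot k ω) (u', y - 1) v`, `v = rV k (vtx s)`. Let `F = D ∪ box (x + 4 t) (x + 6 t) (y - 10 t) y`.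
  All is in `F`: `Conn F (rot k ω) v (u, y - 10 t)` (mono). The point at the height `y - 5 t`: `FKS.conn_rec` along the path from `(u, y - 10 t)` to `(u', y - 1)` in the box: let `P w` be: `w` is in the box (`x + 4 t ≤ w.1 ≤ x + 6 t`), `Conn .. (u, y - 10 t) w` and (`w.2 < y - 5 t` or there is `w0` with `w0.2 = y - 5 t`, `x + 4 t ≤ w0.1 ≤ x + 6 t`,
  `Conn .. (u, y - 10 t) w0`): a step changes `w.2` by at most one. At `w = (u', y - 1)`, `y - 1 ≥ y - 5 t`, so `w0` exists. `F = rot k (D ∪ unr k (box ..))` because `rot k D = D` and `rot k (unr k S) = S` (`mem_rot`, `mem_unr`, ext), so by `FKS.conn_rot` (with `rV k ((rV k).symm w) = w`) the points `(rV k).symm (u, y - 10 t)`, `(rV k).symm w0` are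
  connected to `vtx s` in `ω ∩ (D ∪ unr k (box ..))`. Distances: `nrm_rV`: `nrm (w0 - (x + 5 t, y - 5 t)) ≤ t`, `nrm ((u, y - 10 t) - (x + 5 t, y - 5 t)) ≥ 5 t ≥ 3 t`.
-/

set_option autoImplicit false

noncomputable section

namespace EV

open Finset FKI FKP

theorem rot_unr (k : ℕ) (S : Finset Edge) : FKS.rot k (unr k S) = S := by
  ext e
  have h := FKS.mem_rot k (unr k S) ((FKS.rE k).symm e)
  rw [Equiv.apply_symm_apply] at h
  rw [h, mem_unr, Equiv.apply_symm_apply]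

/-- the end of an edge of the path in the column -/
private theorem GCa_edge {x1 x2 y1 y2 : ℤ} {e : Edge} (he : e ∈ box x1 x2 y1 y2) :
    (x1 ≤ (ea e).1 ∧ (ea e).1 ≤ x2) ∧ (x1 ≤ (eb e).1 ∧ (eb e).1 ≤ x2) ∧
      ((eb e).2 = (ea e).2 ∨ (eb e).2 = (ea e).2 + 1) := by
  rw [mem_box] at he
  obtain ⟨a, b, c⟩ := e
  unfold ea eb
  rcases he with ⟨h0, h1, h2, h3, h4⟩ | ⟨h0, h1, h2, h3, h4⟩
  · simp only at h0 h1 h2 h3 h4
    subst h0
    simp only [Bool.false_eq_true, if_false]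
    exact ⟨⟨h1, h2.le⟩, ⟨by omega, by omega⟩, Or.inl trivial⟩
  · simp only at h0 h1 h2 h3 h4
    subst h0
    simp only [if_true]
    exact ⟨⟨h1, h2⟩, ⟨h1, h2⟩, Or.inr trivial⟩

/-- a path in the column meets the row `z` -/
private theorem GCa_row {x1 x2 y1 y2 z : ℤ} {ω : Finset Edge} {u u' : ℤ}
    (hz1 : y1 < z) (hz2 : z ≤ y2) (hc : Conn (box x1 x2 y1 y2) ω (u, y1) (u', y2)) :
    ∃ a : ℤ, x1 ≤ a ∧ a ≤ x2 ∧ Conn (box x1 x2 y1 y2) ω (u, y1) (a, z) := by
  have key := FKS.conn_rec (F := box x1 x2 y1 y2) (ω := ω) (u := (u, y1)) (v := (u', y2))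
    (P := fun w => Conn (box x1 x2 y1 y2) ω (u, y1) w ∧ (w.2 < z ∨
      ∃ a : ℤ, x1 ≤ a ∧ a ≤ x2 ∧ Conn (box x1 x2 y1 y2) ω (u, y1) (a, z)))
    ⟨Conn.refl _ _ _, Or.inl hz1⟩ ?_ hc
  · rcases key.2 with h | h
    · exact absurd h (not_lt.2 hz2)
    · exact h
  · rintro a b ⟨ha, hor⟩ ⟨e, he, he2, hab⟩
    have hstep : Conn (box x1 x2 y1 y2) ω (ea e) (eb e) := FKS.reach_step (Finset.mem_inter.2 ⟨he2, he⟩)
    obtain ⟨h1, h2, h3⟩ := GCa_edge he
    have hb : Conn (box x1 x2 y1 y2) ω (u, y1) b := by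
      rcases hab with ⟨e1, e2⟩ | ⟨e1, e2⟩
      · rw [← e2]
        rw [← e1] at ha
        exact ha.trans hstep
      · rw [← e1]
        rw [← e2] at ha
        exact ha.trans hstep.symm
    refine ⟨hb, ?_⟩
    rcases hor with hlt | hex
    · by_cases hbz : b.2 < z
      · exact Or.inl hbz
      · right
        have hb2 : b.2 = z := by
          rcases hab with ⟨e1, e2⟩ | ⟨e1, e2⟩
          · rw [← e1] at hlt
            rw [← e2] at hbz ⊢
            omega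
          · rw [← e2] at hlt
            rw [← e1] at hbz ⊢
            omega
        have hb1 : x1 ≤ b.1 ∧ b.1 ≤ x2 := by
          rcases hab with ⟨e1, e2⟩ | ⟨e1, e2⟩
          · rw [← e2]
            exact h2
          · rw [← e1]
            exact h1
        refine ⟨b.1, hb1.1, hb1.2, ?_⟩
        rw [← hb2]
        exact hb
    · exact Or.inr hex

theorem col_o {D ω : Finset Edge} {k : ℕ} {x y t : ℤ} {v : FKI.V} (ht : 1 ≤ t) (hD : FKS.rot k D = D)
    (h : FKS.LO D x y (2 * t) (FKS.rV k v) (FKS.rot k ω)) :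
    (∃ u, FKN.nrm (u - (FKS.rV k).symm (x + 5 * t, y - 5 * t)) ≤ t ∧
      Conn (D ∪ unr k (box (x + 4 * t) (x + 6 * t) (y - 10 * t) y)) ω v u) ∧
    ∃ u, 3 * t ≤ FKN.nrm (u - (FKS.rV k).symm (x + 5 * t, y - 5 * t)) ∧
      Conn (D ∪ unr k (box (x + 4 * t) (x + 6 * t) (y - 10 * t) y)) ω v u := by
  obtain ⟨u, u', hu1, hu2, -, -, hc1, hc2⟩ := h
  have e1 : x + 2 * (2 * t) = x + 4 * t := by ring
  have e2 : x + 3 * (2 * t) = x + 6 * t := by ring
  have e3 : y - 5 * (2 * t) = y - 10 * t := by ring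
  rw [e1] at hu1
  rw [e2] at hu2
  rw [e1, e2, e3] at hc1 hc2
  have hF : FKS.rot k (D ∪ unr k (box (x + 4 * t) (x + 6 * t) (y - 10 * t) y)) =
      D ∪ box (x + 4 * t) (x + 6 * t) (y - 10 * t) y := by
    conv_rhs => rw [← hD, ← rot_unr k (box (x + 4 * t) (x + 6 * t) (y - 10 * t) y)]
    exact Finset.map_union _ _
  have hback : ∀ w, Conn (D ∪ box (x + 4 * t) (x + 6 * t) (y - 10 * t) y) (FKS.rot k ω)
      (FKS.rV k v) w →
      Conn (D ∪ unr k (box (x + 4 * t) (x + 6 * t) (y - 10 * t) y)) ω v ((FKS.rV k).symm w) := by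
    intro w hw
    rw [← FKS.conn_rot k, hF, Equiv.apply_symm_apply]
    exact hw
  have hsub : box (x + 4 * t) (x + 6 * t) (y - 10 * t) (y - 1) ⊆
      D ∪ box (x + 4 * t) (x + 6 * t) (y - 10 * t) y :=
    (box_mono le_rfl le_rfl le_rfl (by omega)).trans Finset.subset_union_right
  have hbot : Conn (D ∪ box (x + 4 * t) (x + 6 * t) (y - 10 * t) y) (FKS.rot k ω)
      (FKS.rV k v) (u, y - 10 * t) :=
    hc2.symm.trans (Conn.mono hsub (Finset.Subset.refl _) hc1).symm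
  obtain ⟨a, ha1, ha2, ha3⟩ := GCa_row (z := y - 5 * t) (by omega) (by omega) hc1
  refine ⟨⟨_, ?_, hback _ (hbot.trans (Conn.mono hsub (Finset.Subset.refl _) ha3))⟩,
    ⟨_, ?_, hback _ hbot⟩⟩
  · rw [nrm_rV]
    unfold FKN.nrm
    refine max_le ?_ ?_
    · rw [abs_le]
      simp only [Prod.fst_sub]
      omega
    · simp only [Prod.snd_sub, sub_self, abs_zero]
      omega
  · rw [nrm_rV]
    unfold FKN.nrm
    refine le_trans ?_ (le_max_right _ _)
    simp only [Prod.snd_sub]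
    have h1 : y - 10 * t - (y - 5 * t) = -(5 * t) := by ring
    rw [h1, abs_neg, abs_of_nonneg (by omega)]
    omega

end EV
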