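import Pool.Agent.Lib.MP_216314_pr.EV.GCa

/-!
# Even arms: the landing state of a cell contains arms through the columns

`x i = 2 t (κ i).2`, `k i = (κ i).1`, `m = 2 t`. `LO`, `LD`, `Land` are in Sp/ADef.
* `col_d`: the same with `FKS.LD`, `DConn`, `dconn_rot`: `i`, `i' ∈ [x - 4 t, x - 2 t)`, the dual path from `(i, y - 10 t - 1)` to `(i', y - 1)` in `box (x - 4 t) (x - 2 t) (y - 10 t) (y - 1)`; the face `w0`: the first time that the path enters the row `y - 5 t` it crosses an edge `(a, y - 5 t, false)` of the box, so `x - 4 t ≤ a < x - 2 t`, and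
  `w0 = (a, y - 5 t)` (so `FKS.dconn_rec` with `P w`: `w.2 < y - 5 t` or there is such a `w0 = (a, y - 5 t)`, `x - 4 t ≤ a ≤ x - 2 t`, dual connected to the start). `nrm (w0 - (x - 3 t, y - 5 t)) ≤ t`; `nrm ((i, y - 10 t - 1) - (x - 3 t, y - 5 t)) ≥ 5 t + 1`. `dconn_iff` (CA) translates `DConn F ω` to `dc F ω`.
-/

set_option autoImplicit false

noncomputable section

namespace EV

open Finset FKI FKP

private theorem GCb_mid {ω : Finset Edge} {x y t i : ℤ} {w : FKI.V} (ht : 1 ≤ t)
    (h : FKS.DConn (box (x - 4 * t) (x - 2 * t) (y - 10 * t) (y - 1)) ω (i, y - 10 * t - 1) w) (hw : y - 1 ≤ w.2) :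
    ∃ w0 : FKI.V, w0.2 = y - 5 * t ∧ x - 4 * t ≤ w0.1 ∧ w0.1 ≤ x - 2 * t ∧
      FKS.DConn (box (x - 4 * t) (x - 2 * t) (y - 10 * t) (y - 1)) ω (i, y - 10 * t - 1) w0 := by
  have key : FKS.DConn (box (x - 4 * t) (x - 2 * t) (y - 10 * t) (y - 1)) ω (i, y - 10 * t - 1) w ∧
      (w.2 < y - 5 * t ∨ ∃ w0 : FKI.V, w0.2 = y - 5 * t ∧ x - 4 * t ≤ w0.1 ∧ w0.1 ≤ x - 2 * t ∧
      FKS.DConn (box (x - 4 * t) (x - 2 * t) (y - 10 * t) (y - 1)) ω (i, y - 10 * t - 1) w0) := by
    refine FKS.dconn_rec (P := fun w => FKS.DConn (box (x - 4 * t) (x - 2 * t) (y - 10 * t) (y - 1)) ω (i, y - 10 * t - 1) w ∧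
      (w.2 < y - 5 * t ∨ ∃ w0 : FKI.V, w0.2 = y - 5 * t ∧ x - 4 * t ≤ w0.1 ∧ w0.1 ≤ x - 2 * t ∧
      FKS.DConn (box (x - 4 * t) (x - 2 * t) (y - 10 * t) (y - 1)) ω (i, y - 10 * t - 1) w0))
      ⟨FKS.DConn.refl _ _ _, Or.inl ?_⟩ ?_ h
    · show y - 10 * t - 1 < y - 5 * t
      omega
    · rintro a b ⟨ha, ha2⟩ ⟨e, he, heω, hab⟩
      have hstep : FKS.DConn (box (x - 4 * t) (x - 2 * t) (y - 10 * t) (y - 1)) ω a b := by
        have h1 := FKS.dconn_step he heω
        rcases hab with ⟨h2, h3⟩ | ⟨h2, h3⟩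
        · rw [h2, h3] at h1
          exact h1
        · rw [h2, h3] at h1
          exact h1.symm
      have hb := ha.trans hstep
      refine ⟨hb, ?_⟩
      rcases ha2 with ha2 | ha2
      · by_cases hlt : b.2 < y - 5 * t
        · exact Or.inl hlt
        · right
          obtain ⟨e1, e2, e3⟩ := e
          rw [mem_box] at he
          cases e3
          · simp only [true_and, reduceCtorEq, false_and, or_false] at he
            have hfa : FKS.fa (e1, e2, false) = (e1, e2 - 1) := by simp [FKS.fa]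
            have hfb : FKS.fb (e1, e2, false) = (e1, e2) := rfl
            rw [hfa, hfb] at hab
            rcases hab with ⟨h2, h3⟩ | ⟨h2, h3⟩
            · refine ⟨b, ?_, ?_, ?_, hb⟩
              · rw [← h2] at ha2
                rw [← h3] at hlt ⊢
                simp only at ha2 hlt ⊢
                omega
              · rw [← h3]
                simp only
                omega
              · rw [← h3]
                simp only
                omega
            · exfalso
              rw [← h3] at ha2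
              rw [← h2] at hlt
              simp only at ha2 hlt
              omega
          · exfalso
            have hfa : FKS.fa (e1, e2, true) = (e1 - 1, e2) := by simp [FKS.fa]
            have hfb : FKS.fb (e1, e2, true) = (e1, e2) := rfl
            rw [hfa, hfb] at hab
            rcases hab with ⟨h2, h3⟩ | ⟨h2, h3⟩
            · rw [← h2] at ha2
              rw [← h3] at hlt
              simp only at ha2 hlt
              omega
            · rw [← h3] at ha2
              rw [← h2] at hlt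
              simp only at ha2 hlt
              omega
      · exact Or.inr ha2
  rcases key.2 with h1 | h1
  · exfalso
    omega
  · exact h1

theorem col_d {D ω : Finset Edge} {k : ℕ} {x y t : ℤ} {f : FKI.V} (ht : 1 ≤ t) (hD : FKS.rot k D = D)
    (h : FKS.LD D x y (2 * t) (FKS.rF k f) (FKS.rot k ω)) :
    (∃ u, FKN.nrm (u - (FKS.rF k).symm (x - 3 * t, y - 5 * t)) ≤ t ∧
      FKS.DConn (D ∪ unr k (box (x - 4 * t) (x - 2 * t) (y - 10 * t) y)) ω f u) ∧
    ∃ u, 3 * t ≤ FKN.nrm (u - (FKS.rF k).symm (x - 3 * t, y - 5 * t)) ∧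
      FKS.DConn (D ∪ unr k (box (x - 4 * t) (x - 2 * t) (y - 10 * t) y)) ω f u := by
  obtain ⟨i, i', -, -, -, -, h1, h2⟩ := h
  have q1 : x - 2 * (2 * t) = x - 4 * t := by ring
  have q3 : y - 5 * (2 * t) = y - 10 * t := by ring
  rw [q1, q3] at h1 h2
  obtain ⟨w0, a1, a2, a3, h3⟩ := GCb_mid ht h1 (le_refl _)
  have hrot : FKS.rot k (D ∪ unr k (box (x - 4 * t) (x - 2 * t) (y - 10 * t) y)) =
      D ∪ box (x - 4 * t) (x - 2 * t) (y - 10 * t) y := by
    rw [FKS.rot_union, hD, rot_unr]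
  have hmono : ∀ {a b : FKI.V}, FKS.DConn (box (x - 4 * t) (x - 2 * t) (y - 10 * t) (y - 1)) (FKS.rot k ω) a b →
      FKS.DConn (D ∪ box (x - 4 * t) (x - 2 * t) (y - 10 * t) y) (FKS.rot k ω) a b := by
    intro a b hab
    refine FKS.DConn.mono ?_ hab
    intro e he heω
    refine ⟨Finset.mem_union_right _ ?_, heω⟩
    obtain ⟨e1, e2, e3⟩ := e
    rw [mem_box] at he ⊢
    cases e3
    · simp only [true_and, reduceCtorEq, false_and, or_false] at he ⊢
      omega
    · simp only [true_and, reduceCtorEq, false_and, false_or] at he ⊢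
      omega
  have back : ∀ {w : FKI.V}, FKS.DConn (D ∪ box (x - 4 * t) (x - 2 * t) (y - 10 * t) y) (FKS.rot k ω) (FKS.rF k f) w →
      FKS.DConn (D ∪ unr k (box (x - 4 * t) (x - 2 * t) (y - 10 * t) y)) ω f ((FKS.rF k).symm w) := by
    intro w hw
    rw [← FKS.dconn_rot k, hrot, Equiv.apply_symm_apply]
    exact hw
  have hs : FKS.DConn (D ∪ box (x - 4 * t) (x - 2 * t) (y - 10 * t) y) (FKS.rot k ω) (FKS.rF k f) (i, y - 10 * t - 1) :=
    ((hmono h1).trans h2).symm
  refine ⟨⟨(FKS.rF k).symm w0, ?_, back (hs.trans (hmono h3))⟩, ⟨(FKS.rF k).symm (i, y - 10 * t - 1), ?_, back hs⟩⟩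
  · rw [nrm_rF]
    unfold FKN.nrm
    refine max_le (abs_le.2 ⟨?_, ?_⟩) (abs_le.2 ⟨?_, ?_⟩)
    · show -t ≤ w0.1 - (x - 3 * t)
      omega
    · show w0.1 - (x - 3 * t) ≤ t
      omega
    · show -t ≤ w0.2 - (y - 5 * t)
      omega
    · show w0.2 - (y - 5 * t) ≤ t
      omega
  · rw [nrm_rF]
    unfold FKN.nrm
    refine le_trans ?_ (le_max_right _ _)
    refine le_trans ?_ (neg_le_abs _)
    show 3 * t ≤ -((y - 10 * t - 1) - (y - 5 * t))
    omega

end EV
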