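import Pool.Agent.Lib.MP_216314_pr.EV.GCb

/-!
# Even arms: the landing state of a cell contains arms through the columns

`x i = 2 t (κ i).2`, `k i = (κ i).1`, `m = 2 t`. `LO`, `LD`, `Land` are in Sp/ADef.
* `land_st`: choose `s i ∈ St i` from `Land` for the open arms; the vertices `vtx (s i)` satisfy `Sp` by `hSp`; target: `fun i => vtx (s i)` itself with `NFt` from `col_o`, monotone in the region: `unr (κ i).1 (box (x + 4 t) (x + 6 t) (y - 10 t) y) ⊆ OS κ y t`. The same for the dual arms with `fce (s i)`, `hSm`, `DS`.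
-/

set_option autoImplicit false

noncomputable section

namespace EV

open Finset FKI FKP

private theorem GCc_unr_mono {k : ℕ} {S S' : Finset Edge} (h : S ⊆ S') : unr k S ⊆ unr k S' := by
  intro e he
  rw [mem_unr] at he ⊢
  exact h he

private theorem GCc_OS {l : ℕ} (κ : Fin l → ℕ × ℤ) (y t : ℤ) (ht : 1 ≤ t) (i : Fin l) (D : Finset Edge) :
    D ∪ unr (κ i).1 (box (2 * t * (κ i).2 + 4 * t) (2 * t * (κ i).2 + 6 * t) (y - 10 * t) y) ⊆
      D ∪ OS κ y t := by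
  refine Finset.union_subset_union (Finset.Subset.refl _) ?_
  unfold OS
  refine (GCc_unr_mono (box_mono ?_ ?_ le_rfl le_rfl)).trans
    (Finset.subset_biUnion_of_mem (fun i => unr (κ i).1
      (box (2 * t * (κ i).2 + 2 * t) (2 * t * (κ i).2 + 8 * t) (y - 10 * t) y)) (Finset.mem_univ i))
  · omega
  · omega

private theorem GCc_DS {l : ℕ} (κ : Fin l → ℕ × ℤ) (y t : ℤ) (ht : 1 ≤ t) (i : Fin l) (D : Finset Edge) :
    D ∪ unr (κ i).1 (box (2 * t * (κ i).2 - 4 * t) (2 * t * (κ i).2 - 2 * t) (y - 10 * t) y) ⊆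
      D ∪ DS κ y t := by
  refine Finset.union_subset_union (Finset.Subset.refl _) ?_
  unfold DS
  refine (GCc_unr_mono (box_mono ?_ ?_ le_rfl le_rfl)).trans
    (Finset.subset_biUnion_of_mem (fun i => unr (κ i).1
      (box (2 * t * (κ i).2 - 6 * t - 1) (2 * t * (κ i).2 + 1) (y - 10 * t) y)) (Finset.mem_univ i))
  · omega
  · omega

private theorem GCc_dmono {F F' ω : Finset Edge} (h : F ⊆ F') {f g : FKI.V} (hc : FKS.DConn F ω f g) :
    (gr (FKN.dc F' ω)).Reachable f g := by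
  rw [← dconn_iff]
  exact SimpleGraph.Reachable.mono (gr_mono (Finset.image_subset_image
    (Finset.sdiff_subset_sdiff h (Finset.Subset.refl _)))) hc

theorem land_st {l : ℕ} {D ω : Finset Edge} {St : Fin l → Set FKI.V} {κ : Fin l → ℕ × ℤ} {y t : ℤ} (ht : 1 ≤ t)
    (hD : ∀ k, FKS.rot k D = D) (h : FKS.Land D St y (2 * t) κ ω) {Sp Sm : Finset Edge → (Fin l → FKI.V) → Prop}
    (hSp : ∀ η s, (∀ i, ∃ p ∈ St i, s i = vtx p) → Sp η s) (hSm : ∀ η s, (∀ i, ∃ p ∈ St i, s i = FKS.fce p) → Sm η s) :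
    FKN.StG Sp (NFt (gao κ y t) t) (ω ∩ (D ∪ OS κ y t)) ∧ FKN.StG Sm (NFt (gad κ y t) t) (FKN.dc (D ∪ DS κ y t) ω) := by
  refine ⟨?_, ?_⟩
  · choose p hp hlo using fun i => (h i).1
    refine ⟨fun i => vtx (p i), fun i => vtx (p i), hSp _ _ fun i => ⟨p i, hp i, rfl⟩, ?_,
      fun i => SimpleGraph.Reachable.refl _⟩
    intro i
    obtain ⟨⟨u, hu1, hu2⟩, w, hw1, hw2⟩ := col_o ht (hD (κ i).1) (hlo i)
    exact ⟨⟨u, hu1, Conn.mono (GCc_OS κ y t ht i D) (Finset.Subset.refl _) hu2⟩,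
      w, hw1, Conn.mono (GCc_OS κ y t ht i D) (Finset.Subset.refl _) hw2⟩
  · choose p hp hld using fun i => (h i).2
    refine ⟨fun i => FKS.fce (p i), fun i => FKS.fce (p i), hSm _ _ fun i => ⟨p i, hp i, rfl⟩, ?_,
      fun i => SimpleGraph.Reachable.refl _⟩
    intro i
    obtain ⟨⟨u, hu1, hu2⟩, w, hw1, hw2⟩ := col_d ht (hD (κ i).1) (hld i)
    exact ⟨⟨u, hu1, GCc_dmono (GCc_DS κ y t ht i D) hu2⟩,
      w, hw1, GCc_dmono (GCc_DS κ y t ht i D) hw2⟩

end EV
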