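import Pool.Agent.Lib.MP_216314_pr.EV.DMain
import Pool.Agent.Lib.MP_216314_pr.EV.CD
import Pool.Agent.Lib.MP_216314_pr.Sp.SCo

/-!
# Even arms: geometry of the landing cells

A cell is `κ i = (side, position)`; in the frame of the side (rotation `rE k`, `rV k`, `rF k` of the plane) the cell is at the abscissa `2 t * position` of the bottom line at the height `y`, the half width of the columns is `t`. The open column is `[x + 4 t, x + 6 t] × [y - 10 t, y]`,
the dual column `[x - 4 t, x - 2 t] × [y - 10 t, y]` (`x = 2 t * position`). `gao`, `gad`: centres of the circuits of radius `t` around the columns; `gco`, `gcd`: centres of the small circuits (radius `r0`) going down from them; `gzo`, `gzd`: landing points at the height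
`y - 10 t - 1`. `GLo`, `GLd`: all circuits. `OS`, `DS`: the regions of the open and of the dual arms outside of the domain.
`NFt a t`: the arm comes within `t` of `a i` and goes to distance at least `3 t` from it.
-/

set_option autoImplicit false

noncomputable section

namespace EV

open Finset FKI FKP

/-- the edges which are in `S` after `k` rotations -/
def unr (k : ℕ) (S : Finset Edge) : Finset Edge := S.map (FKS.rE k).symm.toEmbedding

theorem mem_unr {k : ℕ} {S : Finset Edge} {e : Edge} : e ∈ unr k S ↔ FKS.rE k e ∈ S := by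
  unfold unr
  rw [Finset.mem_map_equiv, Equiv.symm_symm]

/-- centre of the circuit around the open column -/
def gao {l : ℕ} (κ : Fin l → ℕ × ℤ) (y t : ℤ) (i : Fin l) : FKI.V := (FKS.rV (κ i).1).symm (2 * t * (κ i).2 + 5 * t, y - 5 * t)
/-- centre of the circuit around the dual column -/
def gad {l : ℕ} (κ : Fin l → ℕ × ℤ) (y t : ℤ) (i : Fin l) : FKI.V := (FKS.rF (κ i).1).symm (2 * t * (κ i).2 - 3 * t, y - 5 * t)
/-- centres of the small circuits, open arm -/
def gco {l : ℕ} (κ : Fin l → ℕ × ℤ) (y t r0 : ℤ) (i : Fin l) (j : ℕ) : FKI.V :=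
  (FKS.rV (κ i).1).symm (2 * t * (κ i).2 + 5 * t, y - 5 * t - min (4 * r0 * j) (5 * t - 3 * r0))
/-- centres of the small circuits, dual arm -/
def gcd {l : ℕ} (κ : Fin l → ℕ × ℤ) (y t r0 : ℤ) (i : Fin l) (j : ℕ) : FKI.V :=
  (FKS.rF (κ i).1).symm (2 * t * (κ i).2 - 3 * t, y - 5 * t - min (4 * r0 * j) (5 * t - 3 * r0))
/-- landing point of the open arm -/
def gzo {l : ℕ} (κ : Fin l → ℕ × ℤ) (y t : ℤ) (i : Fin l) : FKI.V := (FKS.rV (κ i).1).symm (2 * t * (κ i).2 + 5 * t, y - 10 * t - 1)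
/-- landing point of the dual arm -/
def gzd {l : ℕ} (κ : Fin l → ℕ × ℤ) (y t : ℤ) (i : Fin l) : FKI.V := (FKS.rV (κ i).1).symm (2 * t * (κ i).2 - 3 * t, y - 10 * t - 1)

/-- number of the small circuits -/
@[irreducible] def TG : ℕ := 37500

theorem TG_eq : TG = 37500 := by
  unfold TG
  rfl

/-- all circuits of the open arms -/
def GLo {l : ℕ} (κ : Fin l → ℕ × ℤ) (y t r0 : ℤ) : Finset (FKI.V × ℤ) :=
  (univ.image fun i => (gao κ y t i, t)) ∪ ((univ ×ˢ range (TG + 1)).image fun p => (gco κ y t r0 p.1 p.2, r0))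
/-- all circuits of the dual arms -/
def GLd {l : ℕ} (κ : Fin l → ℕ × ℤ) (y t r0 : ℤ) : Finset (FKI.V × ℤ) :=
  (univ.image fun i => (gad κ y t i, t)) ∪ ((univ ×ˢ range (TG + 1)).image fun p => (gcd κ y t r0 p.1 p.2, r0))

/-- region of the open arms outside of the domain -/
def OS {l : ℕ} (κ : Fin l → ℕ × ℤ) (y t : ℤ) : Finset Edge :=
  univ.biUnion fun i => unr (κ i).1 (box (2 * t * (κ i).2 + 2 * t) (2 * t * (κ i).2 + 8 * t) (y - 10 * t) y)
/-- region of the dual arms outside of the domain -/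
def DS {l : ℕ} (κ : Fin l → ℕ × ℤ) (y t : ℤ) : Finset Edge :=
  univ.biUnion fun i => unr (κ i).1 (box (2 * t * (κ i).2 - 6 * t - 1) (2 * t * (κ i).2 + 1) (y - 10 * t) y)

/-- target: the arm comes within `t` of `a i` and goes to distance at least `3 t` from it -/
def NFt {l : ℕ} (a : Fin l → FKI.V) (t : ℤ) (η : Finset Edge) (v : Fin l → FKI.V) : Prop :=
  ∀ i, (∃ u, FKN.nrm (u - a i) ≤ t ∧ (gr η).Reachable (v i) u) ∧ ∃ u, 3 * t ≤ FKN.nrm (u - a i) ∧ (gr η).Reachable (v i) u

/-- the cells: far from the corners of the domain and far from each other -/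
def GCell {l : ℕ} (κ : Fin l → ℕ × ℤ) (y h ρ t : ℤ) : Prop :=
  (1 ≤ t ∧ 200 * t ≤ ρ ∧ ρ ≤ h ∧ h ≤ |y|) ∧ (∀ i, (κ i).1 < 4 ∧ |2 * t * (κ i).2| ≤ h - ρ + 2 * t) ∧
    ∀ i j, i ≠ j → (κ i).1 = (κ j).1 → 20 ≤ |(κ i).2 - (κ j).2|

end EV
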