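import Pool.Agent.Lib.MP_216314_pr.EV.GB
import Pool.Agent.Lib.MP_216314_pr.EV.GCc

/-!
# Even arms: from the landing state to balls at the landing points

* `GL_card`: `card_union_le`, `card_image_le`, `card_product`: `l + l (TG + 1) = l (TG + 2)`.
* `land_pr`: `FKN.ext_rings` (N/DRgC) with `q := 1 / 2`, `N := t.toNat`, `Fp := D ∪ OS`, `Fm := D ∪ DS`, `Lp := GLo κ y t r0`, `Lm := GLd κ y t r0`, `M := l (TG + 2)`, `A := StG Sp (NFt (gao κ y t) t)`, `A' := StG Sp (nearT (gzo κ y t) (7 r0))`, `D := StG Sm (NFt (gad κ y t) t)`, `D' := StG Sm (nearT (gzd κ y t) (7 r0))`.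
  Radii: `t` and `r0` are between `1` and `t`. Regions: `RN Lp ⊆ OS` (`rn_o`, `mem_unr`, `mem_box`: the box of `rn_o` is contained in the box of `OS`), `ud (RN Lm) ⊆ DS` (`rn_d`). `d1`: `RN Lp` and `D ∪ DS`: with `DS` by `os_ds`; with `D`: for `e ∈ RN Lp`, `rE k e` has ordinate `≤ y - 2 t < y` (`rn_o`) but `dom_low` gives `≥ y`.
  `d2`: the same with `rn_d` (ordinate `≤ y - 2 t + 1 < y`). `d3`: `os_ds`. `Inc` of the events: `FKN.StG_inc` (DStA) with `hSp`, `hSm` (`IncS`), `NFt` is increasing in `η` (reachability is monotone), `FKN.nearT_inc`. `hA`, `hD`: `link_o`, `link_d`. The event `Land` implies the hypothesis event by `land_st`; `Fp ∪ RN Lp = Fp`, `Fm ∪ ud (RN Lm) = Fm`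
  (`union_eq_left`), and the right hand side is `StE Fp Fm Sp (nearT ..) Sm (nearT ..)` by definition. Divide by `c ^ (8 M) > 0`.
* `stg_perm`: from `StG Sg (nearT a r) η` with arms `s`, `v`: take `s ∘ σ`, `v ∘ σ`.
* `near_st`: the new regions: `D ∪ OS ⊆ Fp'`, `D ∪ DS ⊆ Fm'`: `FKN.StE_mono` after `stg_perm` for both colours; `IPC.Pr_mono`.
-/

set_option autoImplicit false

noncomputable section

namespace EV

open Finset FKI FKP

theorem GL_card {l : ℕ} (κ : Fin l → ℕ × ℤ) (y t r0 : ℤ) :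
    (GLo κ y t r0).card ≤ l * (TG + 2) ∧ (GLd κ y t r0).card ≤ l * (TG + 2) := by
  have hu : (univ : Finset (Fin l)).card = l := by rw [card_univ, Fintype.card_fin]
  have h2 : ((univ : Finset (Fin l)) ×ˢ range (TG + 1)).card = l * (TG + 1) := by
    rw [card_product, hu, card_range]
  have e : l + l * (TG + 1) = l * (TG + 2) := by ring
  constructor
  · unfold GLo
    refine (card_union_le _ _).trans ?_
    rw [← e]
    exact Nat.add_le_add (card_image_le.trans hu.le) (card_image_le.trans h2.le)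
  · unfold GLd
    refine (card_union_le _ _).trans ?_
    rw [← e]
    exact Nat.add_le_add (card_image_le.trans hu.le) (card_image_le.trans h2.le)

private theorem GE_rad_o {l : ℕ} {κ : Fin l → ℕ × ℤ} {y t r0 : ℤ} {p : FKI.V × ℤ} (hp : p ∈ GLo κ y t r0) :
    p.2 = t ∨ p.2 = r0 := by
  unfold GLo at hp
  rcases mem_union.1 hp with h | h
  · obtain ⟨i, _, h2⟩ := mem_image.1 h
    left
    rw [← h2]
  · obtain ⟨i, _, h2⟩ := mem_image.1 h
    right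
    rw [← h2]

private theorem GE_rad_d {l : ℕ} {κ : Fin l → ℕ × ℤ} {y t r0 : ℤ} {p : FKI.V × ℤ} (hp : p ∈ GLd κ y t r0) :
    p.2 = t ∨ p.2 = r0 := by
  unfold GLd at hp
  rcases mem_union.1 hp with h | h
  · obtain ⟨i, _, h2⟩ := mem_image.1 h
    left
    rw [← h2]
  · obtain ⟨i, _, h2⟩ := mem_image.1 h
    right
    rw [← h2]

theorem NFt_inc {l : ℕ} (a : Fin l → FKI.V) (t : ℤ) : FKN.IncS (NFt a t) := by
  intro η η' s h hs i
  obtain ⟨⟨u, hu, hu2⟩, ⟨v, hv, hv2⟩⟩ := hs i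
  exact ⟨⟨u, hu, hu2.mono (gr_mono h)⟩, ⟨v, hv, hv2.mono (gr_mono h)⟩⟩

private theorem GE_rn_o {l : ℕ} {κ : Fin l → ℕ × ℤ} {y t r0 : ℤ} (h0 : 0 ≤ r0) (h1 : r0 ≤ t) :
    FKN.RN (GLo κ y t r0) ⊆ OS κ y t := by
  intro e he
  obtain ⟨i, hi⟩ := rn_o h0 h1 he
  unfold OS
  refine mem_biUnion.2 ⟨i, mem_univ i, mem_unr.2 ?_⟩
  rw [mem_box] at hi ⊢
  rcases hi with ⟨h3, h4⟩ | ⟨h3, h4⟩
  · exact Or.inl ⟨h3, by omega⟩
  · exact Or.inr ⟨h3, by omega⟩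

private theorem GE_rn_d {l : ℕ} {κ : Fin l → ℕ × ℤ} {y t r0 : ℤ} (h0 : 0 ≤ r0) (h1 : r0 ≤ t) (ht : 1 ≤ t) :
    FKN.ud (FKN.RN (GLd κ y t r0)) ⊆ DS κ y t := by
  intro e he
  obtain ⟨i, hi⟩ := rn_d h0 h1 he
  unfold DS
  refine mem_biUnion.2 ⟨i, mem_univ i, mem_unr.2 ?_⟩
  rw [mem_box] at hi ⊢
  rcases hi with ⟨h3, h4⟩ | ⟨h3, h4⟩
  · exact Or.inl ⟨h3, by omega⟩
  · exact Or.inr ⟨h3, by omega⟩

theorem land_pr {c : ℝ} (hc : 0 < c) (hc1 : c ≤ 1) (hRB : ∀ N : ℕ, FKN.RB c (1 / 2) N) {l : ℕ} {E D : Finset Edge} {Ex : Set FKI.V}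
    {St : Fin l → Set FKI.V} {κ : Fin l → ℕ × ℤ} {y h ρ t r0 : ℤ} (ht : t = 30000 * r0) (hr : 2 ≤ r0)
    (hd : FKS.Dom E D Ex St y h ρ (2 * t)) (hg : GCell κ y h ρ t) (hE : D ∪ (OS κ y t ∪ DS κ y t) ⊆ E)
    {Sp Sm : Finset Edge → (Fin l → FKI.V) → Prop} (iSp : FKN.IncS Sp) (iSm : FKN.IncS Sm)
    (hSp : ∀ η s, (∀ i, ∃ p ∈ St i, s i = vtx p) → Sp η s) (hSm : ∀ η s, (∀ i, ∃ p ∈ St i, s i = FKS.fce p) → Sm η s) :
    IPC.Pr (1 / 2) E (FKS.Land D St y (2 * t) κ) ≤ (c ^ (8 * (l * (TG + 2))))⁻¹ *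
      IPC.Pr (1 / 2) E (FKN.StE (D ∪ OS κ y t) (D ∪ DS κ y t) Sp (FKN.nearT (gzo κ y t) (7 * r0)) Sm (FKN.nearT (gzd κ y t) (7 * r0))) := by
  have ht1 : 1 ≤ t := hg.1.1
  have hr0 : 0 ≤ r0 := by omega
  have hrt : r0 ≤ t := by omega
  have hN : ((t.toNat : ℕ) : ℤ) = t := Int.toNat_of_nonneg (by omega)
  have hκ : ∀ i, (κ i).1 < 4 := fun i => (hg.2.1 i).1
  have sD : D ⊆ E := subset_union_left.trans hE
  have sO : OS κ y t ⊆ E := (subset_union_left.trans subset_union_right).trans hE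
  have sS : DS κ y t ⊆ E := (subset_union_right.trans subset_union_right).trans hE
  have rO : FKN.RN (GLo κ y t r0) ⊆ OS κ y t := GE_rn_o hr0 hrt
  have rS : FKN.ud (FKN.RN (GLd κ y t r0)) ⊆ DS κ y t := GE_rn_d hr0 hrt ht1
  have hds := os_ds hg
  have key := FKN.ext_rings (c := c) (q := 1 / 2) (N := t.toNat) hc hc1 (by norm_num) (by norm_num) (hRB _)
    (E := E) (Fp := D ∪ OS κ y t) (Fm := D ∪ DS κ y t) (Lp := GLo κ y t r0) (Lm := GLd κ y t r0)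
    (M := l * (TG + 2)) (GL_card κ y t r0).1 (GL_card κ y t r0).2
    (fun p hp => by
      rw [hN]
      rcases GE_rad_o hp with h1 | h1 <;> rw [h1] <;> omega)
    (fun p hp => by
      rw [hN]
      rcases GE_rad_d hp with h1 | h1 <;> rw [h1] <;> omega)
    (union_subset sD sO) (union_subset sD sS) (rO.trans sO) (rS.trans sS)
    (by
      rw [disjoint_union_right]
      refine ⟨?_, disjoint_of_subset_left rO hds⟩
      rw [Finset.disjoint_left]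
      intro e he heD
      obtain ⟨i, hi⟩ := rn_o hr0 hrt he
      rw [mem_box] at hi
      have h1 := dom_low hd hg heD (i := i) (by omega) (by omega)
      omega)
    (by
      rw [disjoint_union_right]
      refine ⟨?_, disjoint_of_subset_left rS hds.symm⟩
      rw [Finset.disjoint_left]
      intro e he heD
      obtain ⟨i, hi⟩ := rn_d hr0 hrt he
      rw [mem_box] at hi
      have h1 := dom_low hd hg heD (i := i) (by omega) (by omega)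
      omega)
    (disjoint_of_subset_left rO (disjoint_of_subset_right rS hds))
    (A := FKN.StG Sp (NFt (gao κ y t) t)) (A' := FKN.StG Sp (FKN.nearT (gzo κ y t) (7 * r0)))
    (D := FKN.StG Sm (NFt (gad κ y t) t)) (D' := FKN.StG Sm (FKN.nearT (gzd κ y t) (7 * r0)))
    (FKN.StG_inc iSp (NFt_inc _ _)) (FKN.StG_inc iSm (NFt_inc _ _))
    (FKN.StG_inc iSp (FKN.nearT_inc _ _)) (FKN.StG_inc iSm (FKN.nearT_inc _ _))
    (fun η h1 h2 => link_o ht hr h1 h2) (fun η h1 h2 => link_d ht hr hκ h1 h2)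
  rw [union_eq_left.2 (rO.trans subset_union_right), union_eq_left.2 (rS.trans subset_union_right)] at key
  have hM : IPC.Pr (1 / 2) E (FKS.Land D St y (2 * t) κ) ≤ IPC.Pr (1 / 2) E (fun ω =>
      FKN.StG Sp (NFt (gao κ y t) t) (ω ∩ (D ∪ OS κ y t)) ∧
        FKN.StG Sm (NFt (gad κ y t) t) (FKN.dc (D ∪ DS κ y t) ω)) :=
    IPC.Pr_mono (by norm_num) (by norm_num) E fun ω _ h1 => land_st ht1 hd.rotD h1 hSp hSm
  have hcM : 0 < c ^ (8 * (l * (TG + 2))) := by positivity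
  rw [le_inv_mul_iff₀ hcM]
  calc c ^ (8 * (l * (TG + 2))) * IPC.Pr (1 / 2) E (FKS.Land D St y (2 * t) κ)
      ≤ c ^ (8 * (l * (TG + 2))) * IPC.Pr (1 / 2) E (fun ω =>
        FKN.StG Sp (NFt (gao κ y t) t) (ω ∩ (D ∪ OS κ y t)) ∧
          FKN.StG Sm (NFt (gad κ y t) t) (FKN.dc (D ∪ DS κ y t) ω)) :=
        mul_le_mul_of_nonneg_left hM hcM.le
    _ = IPC.Pr (1 / 2) E (fun ω =>
        FKN.StG Sp (NFt (gao κ y t) t) (ω ∩ (D ∪ OS κ y t)) ∧
          FKN.StG Sm (NFt (gad κ y t) t) (FKN.dc (D ∪ DS κ y t) ω)) * c ^ (8 * (l * (TG + 2))) :=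
        mul_comm _ _
    _ ≤ _ := key

theorem stg_perm {l : ℕ} {Sg : Finset Edge → (Fin l → FKI.V) → Prop} (hperm : ∀ η s (σ : Equiv.Perm (Fin l)), Sg η s → Sg η (s ∘ σ))
    {a : Fin l → FKI.V} {r : ℤ} {η : Finset Edge} (σ : Equiv.Perm (Fin l)) (h : FKN.StG Sg (FKN.nearT a r) η) :
    FKN.StG Sg (FKN.nearT (a ∘ σ) r) η := by
  obtain ⟨s, v, h1, h2, h3⟩ := h
  exact ⟨s ∘ σ, v ∘ σ, hperm η s σ h1, fun i => h2 (σ i), fun i => h3 (σ i)⟩

theorem near_st {l : ℕ} {E Fp Fm Fp' Fm' : Finset Edge} (hFp : Fp ⊆ Fp') (hFm : Fm ⊆ Fm')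
    {Sp Sm : Finset Edge → (Fin l → FKI.V) → Prop} (iSp : FKN.IncS Sp) (iSm : FKN.IncS Sm)
    (hp : ∀ η s (σ : Equiv.Perm (Fin l)), Sp η s → Sp η (s ∘ σ)) (hm : ∀ η s (σ : Equiv.Perm (Fin l)), Sm η s → Sm η (s ∘ σ))
    {zo zd : Fin l → FKI.V} {r : ℤ} (σ τ : Equiv.Perm (Fin l)) :
    IPC.Pr (1 / 2) E (FKN.StE Fp Fm Sp (FKN.nearT zo r) Sm (FKN.nearT zd r)) ≤
      IPC.Pr (1 / 2) E (FKN.BS Fp' Fm' Sp Sm (zo ∘ σ) (zd ∘ τ) r) := by
  refine IPC.Pr_mono (by norm_num) (by norm_num) E fun ω _ h => ?_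
  exact FKN.StE_mono iSp (FKN.nearT_inc _ _) iSm (FKN.nearT_inc _ _) hFp hFm
    ⟨stg_perm hp σ h.1, stg_perm hm τ h.2⟩

end EV
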