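import Pool.Agent.Lib.MP_216314_pr.EV.GDef

/-!
# Even arms: the landing points are in cyclic order

* `sort_gap`: `θ` is injective (`0 < δ ≤ |θ i - θ j|`); `Tuple.sort θ` (`Tuple.monotone_sort`) gives `σ` with `θ ∘ σ` monotone; for `i < j`: `θ (σ j) - θ (σ i) = |..| ≥ δ`.
* `cyc_abs1`: for `i ≤ j`: `(θ j + b) - (θ i + a) ≥ b - a ≥ g` and `≤ 8 - δ + (b - a) ≤ 8 - g`. For `j < i`: `(θ i + a) - (θ j + b) ≥ δ - (b - a) ≥ g`, `≤ 8 - δ - (b - a) ≤ 8 - g`. (`l ≥ 1`; for `i = j`: `b - a ≤ δ - g ≤ 8 - g` because `δ ≤ 8`.)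
* `cyc_abs2`: here `b < a`. Dual angles: `θ' j = θ (j + 1) + b` for `j + 1 < l`, `θ' (l - 1) = θ 0 + b + 8`. For `i ≤ j`, `j + 1 < l`: `θ (j + 1) - θ i - (a - b) ∈ [δ - (a - b), 8 - δ]`. `j = l - 1`: `8 - (θ i - θ 0) - (a - b)`: `θ i - θ 0 ∈ [0, 8 - δ]`, so it is in `[δ - (a - b), 8 - (a - b)]`. For `j < i` (so `j + 1 ≤ i < l`):
  `θ i - θ (j + 1) + (a - b) ∈ [a - b, 8 - δ + (a - b)]`. The permutation `finRotate l` satisfies `finRotate l j = j + 1` for `j + 1 < l` and `finRotate l (l - 1) = 0` (write `l = n + 1`: `finRotate_succ_apply`, `finRotate_last`).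
-/

set_option autoImplicit false

noncomputable section

namespace EV

open Finset FKI FKP

theorem sort_gap {l : ℕ} {θ : Fin l → ℝ} {δ : ℝ} (hδ : 0 < δ) (h : ∀ i j, i ≠ j → δ ≤ |θ i - θ j|) :
    ∃ σ : Equiv.Perm (Fin l), ∀ i j, i < j → δ ≤ θ (σ j) - θ (σ i) := by
  refine ⟨Tuple.sort θ, fun i j hij => ?_⟩
  have h1 : θ (Tuple.sort θ i) ≤ θ (Tuple.sort θ j) := Tuple.monotone_sort θ hij.le
  have h2 : Tuple.sort θ j ≠ Tuple.sort θ i := fun e => (ne_of_gt hij) ((Tuple.sort θ).injective e)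
  have h3 := h _ _ h2
  rwa [abs_of_nonneg (by linarith)] at h3

theorem cyc_abs1 {l : ℕ} {θ : Fin l → ℝ} {δ a b g : ℝ} (hδ : δ ≤ 8) (hg : 0 < g) (h1 : ∀ i j, i < j → δ ≤ θ j - θ i) (h2 : ∀ i j, θ j - θ i ≤ 8 - δ)
    (hab : g ≤ b - a) (hg2 : g ≤ δ - (b - a)) :
    (∀ i j, i ≤ j → g ≤ (θ j + b) - (θ i + a) ∧ (θ j + b) - (θ i + a) ≤ 8 - g) ∧
      ∀ i j, j < i → g ≤ (θ i + a) - (θ j + b) ∧ (θ i + a) - (θ j + b) ≤ 8 - g := by
  constructor
  · intro i j hij
    have h3 := h2 i j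
    have h4 : 0 ≤ θ j - θ i := by
      rcases hij.eq_or_lt with e | e
      · rw [e, sub_self]
      · have := h1 i j e
        linarith
    constructor <;> linarith
  · intro i j hij
    have h3 := h2 j i
    have h4 := h1 j i hij
    constructor <;> linarith

theorem cyc_abs2 {l : ℕ} {θ : Fin l → ℝ} {δ a b g : ℝ} (hδ : δ ≤ 8) (hg : 0 < g) (h1 : ∀ i j, i < j → δ ≤ θ j - θ i) (h2 : ∀ i j, θ j - θ i ≤ 8 - δ)
    (hab : g ≤ a - b) (hg2 : g ≤ δ - (a - b)) :
    ∃ θ' : Fin l → ℝ, (∀ j, θ' j = θ (finRotate l j) + b ∨ θ' j = θ (finRotate l j) + b + 8) ∧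
      (∀ i j, i ≤ j → g ≤ θ' j - (θ i + a) ∧ θ' j - (θ i + a) ≤ 8 - g) ∧
      ∀ i j, j < i → g ≤ (θ i + a) - θ' j ∧ (θ i + a) - θ' j ≤ 8 - g := by
  have h0 : ∀ i j, i ≤ j → 0 ≤ θ j - θ i := by
    intro i j hij
    rcases hij.eq_or_lt with e | e
    · rw [e, sub_self]
    · have := h1 i j e
      linarith
  rcases l with _ | n
  · exact ⟨θ, fun j => j.elim0, fun i => i.elim0, fun i => i.elim0⟩
  refine ⟨fun j => if j = Fin.last n then θ 0 + b + 8 else θ (j + 1) + b, ?_, ?_, ?_⟩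
  · intro j
    by_cases hj : j = Fin.last n
    · right
      simp only [if_pos hj]
      rw [hj, finRotate_last]
    · left
      simp only [if_neg hj]
      rw [finRotate_succ_apply]
  · intro i j hij
    by_cases hj : j = Fin.last n
    · simp only [if_pos hj]
      have h3 := h2 0 i
      have h4 := h0 0 i (Fin.zero_le i)
      constructor <;> linarith
    · simp only [if_neg hj]
      have h5 : j < j + 1 := Fin.lt_add_one_iff.2 (lt_of_le_of_ne (Fin.le_last j) hj)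
      have h3 := h2 i (j + 1)
      have h4 := h1 i (j + 1) (lt_of_le_of_lt hij h5)
      constructor <;> linarith
  · intro i j hij
    have hj : j ≠ Fin.last n := fun e => absurd hij (by rw [e]; exact not_lt.2 (Fin.le_last i))
    simp only [if_neg hj]
    have h5 : j + 1 ≤ i := by
      have h6 : (j + 1 : Fin (n + 1)).val = j.val + 1 := by
        rw [Fin.val_add_one]
        exact if_neg hj
      rw [Fin.le_def, h6]
      exact hij
    have h3 := h2 (j + 1) i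
    have h4 := h0 (j + 1) i h5
    constructor <;> linarith

end EV
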