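import Pool.Agent.Lib.MP_216314_pr.N.E3F
import Pool.Agent.Lib.MP_216314_pr.QV.Z
import Pool.Agent.Lib.MP_216314_pr.K.KEnd

/-!
# The limit of the probability that the `2l` legs at height `r` are not connected

`Wlr l n m r`: no two of the `2l` legs at the sites `0, ..., l - 1` of the line at height `r` are connected.
-/

set_option autoImplicit false

noncomputable section

namespace CY

open Finset FKI FKP Filter Topology

/-- the `2l` legs at height `r` are not connected -/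
def Wlr (l n m r : ℕ) (α : Pat (2 * n)) (ω : Finset Edge) : Prop := WL l l (pur n m r α ω) (plr n m r α ω)

theorem pr_Wlr {l n m r : ℕ} (hn : 1 ≤ n) (hr : r ≤ 2 * m) (α : Pat (2 * n)) :
    ((Pr (cylE n m) (Wlr l n m r α) : ℝ) : ℂ) =
      WB l l ((⇑(TT : V (2 * n) →ₗ[ℂ] V (2 * n)))^[2 * m - r] (Pi.single α 1))
        ((⇑(TT : V (2 * n) →ₗ[ℂ] V (2 * n)))^[2 * m + r] (Pi.single α 1)) := by
  classical
  have h1 := expect_row hn hr α (fun b a => wW l l b a)
  have h2 : WB l l ((⇑(TT : V (2 * n) →ₗ[ℂ] V (2 * n)))^[2 * m - r] (Pi.single α 1))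
        ((⇑(TT : V (2 * n) →ₗ[ℂ] V (2 * n)))^[2 * m + r] (Pi.single α 1)) =
      (∑ ω ∈ (cylE n m).powerset, wW l l (pur n m r α ω) (plr n m r α ω)) / 2 ^ (cylE n m).card := by
    rw [h1, mul_div_cancel_left₀ _ (pow_ne_zero _ two_ne_zero)]
    rfl
  rw [h2, pproba_eq]
  push_cast
  congr 1
  rw [card_filter]
  push_cast
  refine sum_congr rfl fun ω _ => ?_
  unfold wW Wlr
  rfl

theorem legs_lim (l : ℕ) (hl : 0 < l) : ∃ c C : ℝ, 0 < c ∧ 0 < C ∧ ∀ n : ℕ, 1 ≤ n → l ≤ 2 * n →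
    ∃ R : ℝ, c * (n : ℝ) ^ (-((4 * l ^ 2 - 1) / 12) : ℝ) ≤ R ∧ R ≤ C * (n : ℝ) ^ (-((4 * l ^ 2 - 1) / 12) : ℝ) ∧
      ∀ (α : Pat (2 * n)) (r : ℕ), Tendsto (fun m : ℕ => Pr (cylE n m) (Wlr l n m r α)) atTop (𝓝 R) := by
  obtain ⟨q, hq, hq2⟩ := exists_q
  obtain ⟨c, C, hc, hC, H⟩ := QV.legs_asy hq l hl
  refine ⟨c, C, hc, hC, fun n hn hln => ?_⟩
  obtain ⟨k, rfl⟩ : ∃ k, n = k + 1 := ⟨n - 1, by omega⟩
  obtain ⟨P, hP⟩ := exists_psi hq (L := 2 * (k + 1)) (by omega) (even_two_mul _)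
  obtain ⟨Pb, hPb⟩ := exists_psi hq2 (L := 2 * (k + 1)) (by omega) (even_two_mul _)
  have hb := H k (by omega) Pb P hPb hP
  have e0 : (((k + 1 : ℕ) : ℝ)) = (k : ℝ) + 1 := by push_cast; rfl
  refine ⟨‖WB l l (ev Pb fun _ => 1) (ev P fun _ => 1) / EE 1 Pb P (fun _ => 1)‖, ?_, ?_, ?_⟩
  · rw [e0]
    exact hb.1
  · rw [e0]
    exact hb.2
  · intro α r
    have hE : Even (2 * (k + 1)) := even_two_mul _
    have s1 : ∑ δ, (Pi.single α (1 : ℂ) : V (2 * (k + 1))) δ = 1 := by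
      rw [Finset.sum_eq_single α]
      · simp
      · intro b _ hb
        simp [hb]
      · intro h
        exact absurd (Finset.mem_univ _) h
    have t1 : Tendsto (fun m : ℕ => 2 * m - r) atTop atTop := by
      refine tendsto_atTop.2 fun b => ?_
      filter_upwards [eventually_ge_atTop (b + r)] with m hm
      omega
    have t2 : Tendsto (fun m : ℕ => 2 * m + r) atTop atTop := by
      refine tendsto_atTop.2 fun b => ?_
      filter_upwards [eventually_ge_atTop b] with m hm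
      omega
    have hb1 := (TT_conv hq2 (by omega) hE hPb (Pi.single α 1) s1).comp t1
    have ha1 := (TT_conv hq (by omega) hE hP (Pi.single α 1) s1).comp t2
    have h := Q4.tendsto_WB l l hb1 ha1
    have e : WB l l ((∑ α, ev Pb (fun _ => 1) α)⁻¹ • ev Pb (fun _ => 1))
        ((∑ α, ev P (fun _ => 1) α)⁻¹ • ev P (fun _ => 1)) =
        WB l l (ev Pb fun _ => 1) (ev P fun _ => 1) / EE 1 Pb P (fun _ => 1) := by
      rw [WB_smul, EE_one, div_eq_mul_inv, mul_inv]
      ring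
    rw [e, Q4.legs_real hq l l (by omega) hE hPb hP] at h
    have h2 := (Complex.continuous_re.tendsto _).comp h
    rw [Complex.ofReal_re] at h2
    refine h2.congr' ?_
    filter_upwards [eventually_ge_atTop r] with m hm
    have h3 := pr_Wlr (l := l) (n := k + 1) (m := m) (r := r) hn (by omega) α
    have h4 := congrArg Complex.re h3
    rw [Complex.ofReal_re] at h4
    exact h4.symm

end CY
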